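import Pool.Agent.Q117.LF.Stm5
import Pool.Agent.Q253.Thin.Int

/-!
Project LF (helper117), part 5, job UBS: an upper bound sieve for systems of linear forms, uniform in the
intercepts.
-/

set_option autoImplicit false

namespace Pool.Agent.Q117.LF

open Finset Filter
open Pool.Agent.Q253.Thin (SysZ IS int_upper)
open Pool.Agent.Y843.HS (Pr VV Pr_mem)

open Classical in
/-- the classes which contain a root -/
noncomputable def ubsZ {k : ℕ} (al : Fin k → ℕ) (be : Fin k → ℤ) (q : ℕ) : Finset ℕ :=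
  (range q).filter (fun n : ℕ => ∃ l, (q : ℤ) ∣ fm al be l n)

lemma ubsZ_card {k : ℕ} (al : Fin k → ℕ) (be : Fin k → ℤ) (q : ℕ) :
    (ubsZ al be q).card = om al be q := rfl

lemma ubs_dvd_mod {k : ℕ} (al : Fin k → ℕ) (be : Fin k → ℤ) (l : Fin k) (q n : ℕ) :
    (q : ℤ) ∣ fm al be l (n % q) ↔ (q : ℤ) ∣ fm al be l n := by
  unfold fm
  have e : (al l : ℤ) * n + be l = (al l : ℤ) * ((n % q : ℕ) : ℤ) + be l + q * ((al l : ℤ) * (n / q : ℕ)) := by
    have : (n : ℤ) = ((n % q : ℕ) : ℤ) + q * ((n / q : ℕ) : ℤ) := by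
      exact_mod_cast (Nat.mod_add_div n q).symm
    conv_lhs => rw [this]
    ring
  rw [e]
  exact (dvd_add_left (dvd_mul_right _ _)).symm

/-- at most one root for every form -/
lemma ubsZ_le {k a0 : ℕ} (al : Fin k → ℕ) (be : Fin k → ℤ) (hal : ∀ l, 1 ≤ al l ∧ al l ≤ a0) {p : ℕ}
    (hp : p.Prime) (hpa : a0 < p) : (ubsZ al be p).card ≤ k := by
  classical
  have h1 : ubsZ al be p ⊆ (univ : Finset (Fin k)).biUnion (fun l =>
      (range p).filter (fun n : ℕ => (p : ℤ) ∣ fm al be l n)) := by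
    intro n hn
    rw [ubsZ, mem_filter] at hn
    obtain ⟨hn1, l, hl⟩ := hn
    rw [mem_biUnion]
    exact ⟨l, mem_univ l, mem_filter.2 ⟨hn1, hl⟩⟩
  refine (card_le_card h1).trans (card_biUnion_le.trans ?_)
  have h2 : ∀ l ∈ (univ : Finset (Fin k)),
      ((range p).filter (fun n : ℕ => (p : ℤ) ∣ fm al be l n)).card ≤ 1 := by
    intro l _
    rw [card_le_one]
    intro m hm n hn
    rw [mem_filter, mem_range] at hm hn
    have h3 : (p : ℤ) ∣ (al l : ℤ) * ((m : ℤ) - n) := by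
      have := dvd_sub hm.2 hn.2
      unfold fm at this
      have e : (al l : ℤ) * (m : ℤ) + be l - ((al l : ℤ) * n + be l) = (al l : ℤ) * ((m : ℤ) - n) := by ring
      rwa [e] at this
    have hpi : Prime (p : ℤ) := Nat.prime_iff_prime_int.1 hp
    rcases hpi.dvd_or_dvd h3 with h4 | h4
    · exfalso
      have h5 : p ∣ al l := by exact_mod_cast h4
      have h6 := Nat.le_of_dvd (by have := (hal l).1; omega) h5
      have := (hal l).2
      omega
    · have h5 := Int.eq_zero_of_abs_lt_dvd h4 (by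
        rw [abs_lt]
        constructor <;> omega)
      omega
  refine (sum_le_sum h2).trans ?_
  simp

theorem ubs : St_UBS := by
  classical
  intro k t a0 ht
  obtain ⟨C, hC, hint⟩ := int_upper (k + a0 + 1) t (by omega) ht
  obtain ⟨X₀, hX₀⟩ := hint (1 / 2) (by norm_num)
  refine ⟨2 * C, by positivity, max (max (X₀ + 1) 4) (((max a0 k : ℕ) : ℝ) ^ t + 1), ?_⟩
  intro X hX al be hal
  have hX1 : (X₀ : ℝ) + 1 ≤ X := ((le_max_left _ _).trans (le_max_left _ _)).trans hX
  have hX2 : (4 : ℝ) ≤ X := ((le_max_right _ _).trans (le_max_left _ _)).trans hX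
  have hX3 : ((max a0 k : ℕ) : ℝ) ^ t + 1 ≤ X := (le_max_right _ _).trans hX
  have hX0 : 0 ≤ X := by linarith
  have ht0 : (0 : ℝ) < t := by exact_mod_cast ht
  have hom : ∀ p : ℕ, om al be p ≤ p := by
    intro p
    unfold om
    refine (card_le_card (filter_subset _ _)).trans ?_
    rw [card_range]
  have hVN0 : 0 ≤ VN ⌊X⌋₊ al be := by
    unfold VN
    apply prod_nonneg
    intro p hp
    rw [mem_filter] at hp
    have hp0 : (0 : ℝ) < p := by exact_mod_cast hp.2.pos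
    rw [sub_nonneg, div_le_one hp0]
    exact_mod_cast hom p
  by_cases hfix : ∃ p : ℕ, p.Prime ∧ om al be p = p
  · -- a fixed prime divisor
    obtain ⟨p, hp, hpo⟩ := hfix
    have hpk : p ≤ max a0 k := by
      by_contra hcon
      push Not at hcon
      have h1 := ubsZ_le al be hal hp ((le_max_left _ _).trans_lt hcon)
      rw [ubsZ_card, hpo] at h1
      have := le_max_right a0 k
      omega
    have hpX : (p : ℝ) ≤ X ^ (1 / (t : ℝ)) := by
      have h1 : (p : ℝ) ^ t ≤ X := by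
        have h2 : (p : ℝ) ≤ ((max a0 k : ℕ) : ℝ) := by exact_mod_cast hpk
        have h3 : (p : ℝ) ^ t ≤ ((max a0 k : ℕ) : ℝ) ^ t := pow_le_pow_left₀ (by positivity) h2 t
        linarith
      calc (p : ℝ) = ((p : ℝ) ^ t) ^ (1 / (t : ℝ)) := by
            rw [← Real.rpow_natCast, ← Real.rpow_mul (by positivity), mul_one_div_cancel ht0.ne',
              Real.rpow_one]
        _ ≤ _ := Real.rpow_le_rpow (by positivity) h1 (by positivity)
    have hall : ubsZ al be p = range p := by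
      apply eq_of_subset_of_card_le
      · exact filter_subset _ _
      · rw [ubsZ_card, hpo, card_range]
    have hempty : (range (⌊2 * X⌋₊ + 1)).filter
        (fun n : ℕ => X < n ∧ ∀ l, Ro (X ^ (1 / (t : ℝ))) (fm al be l n)) = ∅ := by
      rw [filter_eq_empty_iff]
      rintro n _ ⟨_, h2⟩
      have h3 : n % p ∈ ubsZ al be p := by
        rw [hall, mem_range]
        exact Nat.mod_lt _ hp.pos
      rw [ubsZ, mem_filter] at h3
      obtain ⟨-, l, hl⟩ := h3
      have h4 := h2 l p hp ((ubs_dvd_mod al be l p n).1 hl)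
      linarith
    rw [hempty, card_empty, Nat.cast_zero]
    positivity
  · push Not at hfix
    have hS : SysZ (k + a0 + 1) (ubsZ al be) := by
      refine ⟨?_, ?_, ?_⟩
      · intro p hp
        rcases Nat.lt_or_ge a0 p with h | h
        · have := ubsZ_le al be hal hp h
          omega
        · rw [ubsZ_card]
          have := hom p
          omega
      · intro p hp
        rw [ubsZ_card]
        exact lt_of_le_of_ne (hom p) (hfix p hp)
      · intro p hp c hc
        rw [ubsZ, mem_filter, mem_range] at hc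
        exact hc.1
    have hfl : X - 1 < (⌊X⌋₊ : ℝ) := by linarith [Nat.lt_floor_add_one X]
    have hfl2 : (⌊X⌋₊ : ℝ) ≤ X := Nat.floor_le hX0
    have hfl3 : 2 * X - 1 < (⌊2 * X⌋₊ : ℝ) := by linarith [Nat.lt_floor_add_one (2 * X)]
    have hfl4 : (⌊2 * X⌋₊ : ℝ) ≤ 2 * X := Nat.floor_le (by linarith)
    have hXf : X₀ ≤ ⌊X⌋₊ := Nat.le_floor (by linarith)
    have h1 := hX₀ ⌊X⌋₊ hXf (ubsZ al be) hS ⌊X⌋₊ ⌊2 * X⌋₊ (by linarith)
    have hsub : (range (⌊2 * X⌋₊ + 1)).filter
        (fun n : ℕ => X < n ∧ ∀ l, Ro (X ^ (1 / (t : ℝ))) (fm al be l n)) ⊆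
        IS t ⌊X⌋₊ ⌊X⌋₊ ⌊2 * X⌋₊ (ubsZ al be) := by
      intro n hn
      rw [mem_filter, mem_range] at hn
      obtain ⟨hn1, hn2, hn3⟩ := hn
      unfold IS
      rw [mem_filter, mem_Ioc]
      refine ⟨⟨(Nat.floor_lt hX0).2 hn2, by omega⟩, fun q hq hqX hmem => ?_⟩
      rw [ubsZ, mem_filter] at hmem
      obtain ⟨-, l, hl⟩ := hmem
      have h2 := hn3 l q hq ((ubs_dvd_mod al be l q n).1 hl)
      have h3 : ((⌊X⌋₊ : ℕ) : ℝ) ^ (1 / (t : ℝ)) ≤ X ^ (1 / (t : ℝ)) :=
        Real.rpow_le_rpow (by positivity) hfl2 (by positivity)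
      linarith
    have hVV : VV (ubsZ al be) 0 ⌊X⌋₊ = VN ⌊X⌋₊ al be := by
      unfold VV VN
      have : Pr 0 ⌊X⌋₊ = (Icc 1 ⌊X⌋₊).filter Nat.Prime := by
        ext p
        rw [Pr_mem, mem_filter, mem_Icc]
        constructor
        · rintro ⟨⟨h3, h4⟩, h5⟩
          exact ⟨⟨h3, h4⟩, h5⟩
        · rintro ⟨⟨h3, h4⟩, h5⟩
          exact ⟨⟨h3, h4⟩, h5⟩
      rw [this]
      rfl
    have h2 : (((range (⌊2 * X⌋₊ + 1)).filter
        (fun n : ℕ => X < n ∧ ∀ l, Ro (X ^ (1 / (t : ℝ))) (fm al be l n))).card : ℝ) ≤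
        ((IS t ⌊X⌋₊ ⌊X⌋₊ ⌊2 * X⌋₊ (ubsZ al be)).card : ℝ) := by
      exact_mod_cast card_le_card hsub
    rw [hVV] at h1
    refine h2.trans (h1.trans ?_)
    calc C * (((⌊2 * X⌋₊ : ℝ) - ⌊X⌋₊) * VN ⌊X⌋₊ al be) ≤ C * ((2 * X) * VN ⌊X⌋₊ al be) := by
          apply mul_le_mul_of_nonneg_left _ hC.le
          apply mul_le_mul_of_nonneg_right _ hVN0
          linarith
      _ = _ := by ring

end Pool.Agent.Q117.LF
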