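import Pool.Agent.Q117.LF.Stm5

/-! Project LF (helper117), job NSC (helper299): the theorem at the natural scale. -/

set_option autoImplicit false

namespace Pool.Agent.Q117.LF

open Finset Filter

namespace NscAux

lemma om_le {k : ℕ} (al : Fin k → ℕ) (be : Fin k → ℤ) (p : ℕ) : om al be p ≤ p := by
  classical
  unfold om
  exact (card_filter_le _ _).trans (by simp)

lemma VN_nonneg (y : ℕ) {k : ℕ} (al : Fin k → ℕ) (be : Fin k → ℤ) : 0 ≤ VN y al be := by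
  classical
  unfold VN
  refine prod_nonneg fun p hp => ?_
  have hp2 : p.Prime := (mem_filter.1 hp).2
  have h1 : (0 : ℝ) < p := by exact_mod_cast hp2.pos
  have h2 : (om al be p : ℝ) ≤ p := by exact_mod_cast om_le al be p
  rw [sub_nonneg, div_le_one h1]
  exact h2

lemma GN_nonneg (y : ℕ) (m : ℤ) : 0 ≤ GN 2 y m := by
  classical
  unfold GN
  refine prod_nonneg fun p _ => ?_
  positivity

lemma fm_sh {s : ℕ} (A : Fin s → ℕ) (be : Fin s → ℤ) (d : ℤ) (x : Fin s) (n : ℕ) :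
    fm A (sh A be d) x n = (A x : ℤ) * (n + d) + be x := by
  simp only [fm, sh]
  ring

lemma Ro_mono {z z' : ℝ} {m : ℤ} (h : z' ≤ z) (hm : Ro z m) : Ro z' m :=
  fun p hp hd => h.trans_lt (hm p hp hd)

lemma nat_cong (p : ℕ) (hp : 0 < p) (a : ℤ) : ∃ n : ℕ, (p : ℤ) ∣ (n : ℤ) - a := by
  have hp' : (p : ℤ) ≠ 0 := by exact_mod_cast hp.ne'
  refine ⟨(a % p).toNat, ?_⟩
  have h1 : 0 ≤ a % p := Int.emod_nonneg _ hp'
  rw [Int.toNat_of_nonneg h1]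
  refine ⟨-(a / p), ?_⟩
  have := Int.emod_add_mul_ediv a p
  linarith

lemma AdmS_sh {s : ℕ} {A : Fin s → ℕ} {be : Fin s → ℤ} (h : AdmS A be) (d : ℤ) : AdmS A (sh A be d) := by
  intro p hp
  obtain ⟨m, hm⟩ := h p hp
  obtain ⟨n, hn⟩ := nat_cong p hp.pos ((m : ℤ) - d)
  refine ⟨n, fun x hx => hm x ?_⟩
  rw [fm_sh] at hx
  have h1 : (p : ℤ) ∣ (A x : ℤ) * ((n : ℤ) - (m - d)) := Dvd.dvd.mul_left hn _
  have h2 := dvd_sub hx h1
  have h3 : (A x : ℤ) * (n + d) + be x - (A x : ℤ) * ((n : ℤ) - (m - d)) = fm A be x m := by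
    simp only [fm]; ring
  rwa [h3] at h2

lemma AdmS_one {s : ℕ} {A : Fin s → ℕ} {be : Fin s → ℤ} (h : AdmS A be) (x₀ : Fin s) :
    AdmS (fun _ : Fin 1 => A x₀) (fun _ : Fin 1 => be x₀) := by
  intro p hp
  obtain ⟨n, hn⟩ := h p hp
  exact ⟨n, fun _ => hn x₀⟩

lemma VN_sh (hO : ∀ (s : ℕ) (A : Fin s → ℕ) (be : Fin s → ℤ) (d : ℤ) (p : ℕ), p.Prime → om A (sh A be d) p = om A be p)
    (y : ℕ) {s : ℕ} (A : Fin s → ℕ) (be : Fin s → ℤ) (d : ℤ) : VN y A (sh A be d) = VN y A be := by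
  classical
  unfold VN
  refine prod_congr rfl fun p hp => ?_
  rw [hO s A be d p (mem_filter.1 hp).2]

/-- two rough numbers cannot have a fixed ratio `≠ 1` with small numerator and denominator -/
lemma case_a {a b : ℕ} (ha : 1 ≤ a) (hb : 1 ≤ b) (hab : a ≠ b) {u v : ℤ} (h : (a : ℤ) * v = b * u) {z : ℝ}
    (hza : (a : ℝ) ≤ z) (hzb : (b : ℝ) ≤ z) (hu : Ro z u) (hv : Ro z v) : False := by
  obtain ⟨e, a', b', he, hcop, rfl, rfl⟩ : ∃ e a' b' : ℕ, 0 < e ∧ a'.Coprime b' ∧ a = a' * e ∧ b = b' * e := by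
    obtain ⟨g, a', b', hg, hc, h1, h2⟩ := Nat.exists_coprime' (Nat.gcd_pos_of_pos_left b ha)
    exact ⟨_, a', b', hg, hc, h1, h2⟩
  have he' : (e : ℤ) ≠ 0 := by exact_mod_cast he.ne'
  have h' : (a' : ℤ) * v = b' * u := by
    have : (e : ℤ) * ((a' : ℤ) * v) = e * ((b' : ℤ) * u) := by push_cast at h; linarith
    exact mul_left_cancel₀ he' this
  have ha' : 1 ≤ a' := Nat.pos_of_ne_zero (by rintro rfl; simp at ha)
  have hb' : 1 ≤ b' := Nat.pos_of_ne_zero (by rintro rfl; simp at hb)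
  by_cases h1 : a' = 1
  · have h2 : b' ≠ 1 := by
      rintro rfl
      exact hab (by rw [h1])
    have hp := Nat.minFac_prime h2
    have hd : b'.minFac ∣ b' := Nat.minFac_dvd _
    have h3 : ((b'.minFac : ℕ) : ℤ) ∣ v := by
      have : ((b'.minFac : ℕ) : ℤ) ∣ (b' : ℤ) * u := Dvd.dvd.mul_right (by exact_mod_cast hd) _
      rw [← h', h1] at this
      simpa using this
    have h4 := hv _ hp h3
    have h5 : b'.minFac ≤ b' * e := (Nat.minFac_le hb').trans (Nat.le_mul_of_pos_right _ he)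
    have h6 : ((b'.minFac : ℕ) : ℝ) ≤ ((b' * e : ℕ) : ℝ) := by exact_mod_cast h5
    linarith
  · have hp := Nat.minFac_prime h1
    have hd : a'.minFac ∣ a' := Nat.minFac_dvd _
    have h3 : ((a'.minFac : ℕ) : ℤ) ∣ (b' : ℤ) * u := by
      rw [← h']
      exact Dvd.dvd.mul_right (by exact_mod_cast hd) _
    have h7 : IsCoprime ((a'.minFac : ℕ) : ℤ) (b' : ℤ) := by
      rw [Nat.isCoprime_iff_coprime]
      exact Nat.Coprime.coprime_dvd_left hd hcop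
    have h8 : ((a'.minFac : ℕ) : ℤ) ∣ u := h7.dvd_of_dvd_mul_left h3
    have h4 := hu _ hp h8
    have h5 : a'.minFac ≤ a' * e := (Nat.minFac_le ha').trans (Nat.le_mul_of_pos_right _ he)
    have h6 : ((a'.minFac : ℕ) : ℝ) ≤ ((a' * e : ℕ) : ℝ) := by exact_mod_cast h5
    linarith

open Classical in
/-- the `n` for which all the forms of two systems are rough -/
noncomputable def S1 (T : ℕ) (X : ℝ) {r s : ℕ} (A : Fin r → ℕ) (be : Fin r → ℤ) (A1 : Fin s → ℕ) (f : Fin s → ℤ) : Finset ℕ :=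
  (range (⌊2 * X⌋₊ + 1)).filter (fun n : ℕ => X < n ∧ (∀ l, Ro (X ^ (1 / (T : ℝ))) (fm A be l n)) ∧
    ∀ x, Ro (X ^ (1 / (T : ℝ))) (fm A1 f x n))

open Classical in
/-- the `n` which are bad for the family of the shifts of one system -/
noncomputable def BadN (T : ℕ) (X L : ℝ) {r s : ℕ} (A : Fin r → ℕ) (be : Fin r → ℤ) (A1 : Fin s → ℕ) (be1 : Fin s → ℤ) : Finset ℕ :=
  (range (⌊2 * X⌋₊ + 1)).filter (fun n : ℕ => X < n ∧ (∀ l, Ro (X ^ (1 / (T : ℝ))) (fm A be l n)) ∧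
    ∃ d : ℤ, |(d : ℝ)| ≤ L ∧ (∀ x, Ro (X ^ (1 / (T : ℝ))) (fm A1 (sh A1 be1 d) x n)) ∧
      ¬ ∀ x, ∃ l, A1 x = A l ∧ sh A1 be1 d x = be l)

lemma cnt_union (hU : St_UBS) (hP : St_PCO) (r s a0 T : ℕ) (hT : 1 ≤ T) :
    ∃ C : ℝ, 0 < C ∧ ∃ X0 : ℝ, ∀ X : ℝ, X0 ≤ X → ∀ (A : Fin r → ℕ) (be : Fin r → ℤ) (A1 : Fin s → ℕ) (f : Fin s → ℤ),
      (∀ l, 1 ≤ A l ∧ A l ≤ a0) → (∀ x, 1 ≤ A1 x ∧ A1 x ≤ a0) → AdmS A1 f →
      ((S1 T X A be A1 f).card : ℝ) ≤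
        C * (X * (VN ⌊X⌋₊ A be * VN ⌊X⌋₊ A1 f * ∏ x, ∏ l, GN 2 ⌊X⌋₊ ((A1 x : ℤ) * be l - A l * f x))) := by
  classical
  obtain ⟨CU, hCU, X0, hX0⟩ := hU (r + s) T a0 hT
  obtain ⟨CP, hCP, hPb⟩ := hP r s a0
  refine ⟨CU * CP, mul_pos hCU hCP, max X0 0, fun X hX A be A1 f hA hA1 hf => ?_⟩
  have hX1 : X0 ≤ X := (le_max_left _ _).trans hX
  have hX2 : 0 ≤ X := (le_max_right _ _).trans hX
  have h1 := hX0 X hX1 (Fin.append A A1) (Fin.append be f) (by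
    intro l
    refine Fin.addCases (fun i => ?_) (fun i => ?_) l
    · rw [Fin.append_left]; exact hA i
    · rw [Fin.append_right]; exact hA1 i)
  have h2 := hPb ⌊X⌋₊ A be A1 f hA hA1 hf
  have h3 : (S1 T X A be A1 f).card ≤ ((range (⌊2 * X⌋₊ + 1)).filter (fun n : ℕ => X < n ∧
      ∀ l, Ro (X ^ (1 / (T : ℝ))) (fm (Fin.append A A1) (Fin.append be f) l n))).card := by
    refine card_le_card fun n hn => ?_
    rw [S1, mem_filter] at hn
    rw [mem_filter]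
    refine ⟨hn.1, hn.2.1, fun l => ?_⟩
    refine Fin.addCases (fun i => ?_) (fun i => ?_) l
    · simp only [fm, Fin.append_left]; exact hn.2.2.1 i
    · simp only [fm, Fin.append_right]; exact hn.2.2.2 i
  have h3' : ((S1 T X A be A1 f).card : ℝ) ≤ (((range (⌊2 * X⌋₊ + 1)).filter (fun n : ℕ => X < n ∧
      ∀ l, Ro (X ^ (1 / (T : ℝ))) (fm (Fin.append A A1) (Fin.append be f) l n))).card : ℝ) := by
    exact_mod_cast h3
  refine h3'.trans (h1.trans ?_)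
  calc CU * (X * VN ⌊X⌋₊ (Fin.append A A1) (Fin.append be f))
      ≤ CU * (X * (CP * (VN ⌊X⌋₊ A be * VN ⌊X⌋₊ A1 f * ∏ x, ∏ l, GN 2 ⌊X⌋₊ ((A1 x : ℤ) * be l - A l * f x)))) := by
        gcongr
    _ = _ := by ring

lemma mem_win {L : ℝ} (hL : 0 ≤ L) (d : ℤ) : d ∈ Icc (-((⌊L⌋₊ : ℕ) : ℤ)) (⌊L⌋₊ : ℕ) ↔ |(d : ℝ)| ≤ L := by
  have h1 : d ∈ Icc (-((⌊L⌋₊ : ℕ) : ℤ)) (⌊L⌋₊ : ℕ) ↔ d.natAbs ≤ ⌊L⌋₊ := by
    rw [mem_Icc]
    omega
  rw [h1, Nat.le_floor_iff hL, Nat.cast_natAbs]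
  push_cast
  rfl

lemma card_match {r s : ℕ} (A : Fin r → ℕ) (be : Fin r → ℤ) (A1 : Fin s → ℕ) (be1 : Fin s → ℤ) (hB1 : ∀ x, 1 ≤ A1 x)
    (I : Finset ℤ) [DecidablePred fun d : ℤ => ∃ x l, A1 x = A l ∧ sh A1 be1 d x = be l] :
    (I.filter (fun d : ℤ => ∃ x l, A1 x = A l ∧ sh A1 be1 d x = be l)).card ≤ s * r := by
  classical
  have h1 : (I.filter (fun d : ℤ => ∃ x l, A1 x = A l ∧ sh A1 be1 d x = be l)) ⊆
      (univ : Finset (Fin s × Fin r)).image (fun p => (be p.2 - be1 p.1) / (A1 p.1 : ℤ)) := by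
    intro d hd
    obtain ⟨_, x, l, _, h2⟩ := mem_filter.1 hd
    rw [mem_image]
    refine ⟨(x, l), mem_univ _, ?_⟩
    have h3 : (A1 x : ℤ) ≠ 0 := by
      have := hB1 x
      exact_mod_cast (by omega : A1 x ≠ 0)
    refine Int.ediv_eq_of_eq_mul_right h3 ?_
    simp only [sh] at h2
    linarith
  refine (card_le_card h1).trans (card_image_le.trans ?_)
  simp

lemma D_bound {r s : ℕ} {A : Fin r → ℕ} {be : Fin r → ℤ} {A1 : Fin s → ℕ} {be1 : Fin s → ℤ} {a0 K : ℕ} {X L : ℝ}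
    (hA : ∀ l, A l ≤ a0) (hB : ∀ x, A1 x ≤ a0) (hX0 : 0 ≤ X)
    (hX : 2 * (a0 : ℝ) * K + (a0 : ℝ) ^ 2 ≤ X) (hbe : ∀ l, |(be l : ℝ)| ≤ K * X) (hbe1 : ∀ x, |(be1 x : ℝ)| ≤ K * X)
    (hLX : L ≤ X) {d : ℤ} (hd : |(d : ℝ)| ≤ L) (x : Fin s) (l : Fin r) :
    |(((A1 x : ℤ) * be l - A l * sh A1 be1 d x : ℤ) : ℝ)| ≤ X ^ 2 := by
  have hA' : (A l : ℝ) ≤ a0 := by exact_mod_cast hA l
  have hB' : (A1 x : ℝ) ≤ a0 := by exact_mod_cast hB x
  simp only [sh]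
  push_cast
  have e1 : |(A1 x : ℝ) * be l| ≤ a0 * (K * X) := by
    rw [abs_mul, abs_of_nonneg (by positivity : (0:ℝ) ≤ A1 x)]
    exact mul_le_mul hB' (hbe l) (abs_nonneg _) (by positivity)
  have e2 : |(A1 x : ℝ) * d + be1 x| ≤ a0 * X + K * X := by
    refine (abs_add_le _ _).trans (add_le_add ?_ (hbe1 x))
    rw [abs_mul, abs_of_nonneg (by positivity : (0:ℝ) ≤ A1 x)]
    exact mul_le_mul hB' (hd.trans hLX) (abs_nonneg _) (by positivity)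
  have e3 : |(A l : ℝ) * ((A1 x : ℝ) * d + be1 x)| ≤ a0 * (a0 * X + K * X) := by
    rw [abs_mul, abs_of_nonneg (by positivity : (0:ℝ) ≤ A l)]
    exact mul_le_mul hA' e2 (abs_nonneg _) (by positivity)
  have e4 := abs_sub ((A1 x : ℝ) * be l) ((A l : ℝ) * ((A1 x : ℝ) * d + be1 x))
  have e5 : (2 * (a0 : ℝ) * K + (a0 : ℝ) ^ 2) * X ≤ X * X := mul_le_mul_of_nonneg_right hX hX0
  nlinarith

lemma S1_empty {r s : ℕ} {A : Fin r → ℕ} {be : Fin r → ℤ} {A1 : Fin s → ℕ} {f : Fin s → ℤ} {a0 T : ℕ} {X : ℝ}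
    (hA : ∀ l, 1 ≤ A l ∧ A l ≤ a0) (hB : ∀ x, 1 ≤ A1 x ∧ A1 x ≤ a0) (hX : (a0 : ℝ) ≤ X ^ (1 / (T : ℝ)))
    (x : Fin s) (l : Fin r) (hD : (A1 x : ℤ) * be l - A l * f x = 0) (hm : ¬ (A1 x = A l ∧ f x = be l)) :
    S1 T X A be A1 f = ∅ := by
  classical
  rw [S1, filter_eq_empty_iff]
  rintro n _ ⟨_, h1, h2⟩
  have hne : A1 x ≠ A l := by
    intro h
    refine hm ⟨h, ?_⟩
    rw [h] at hD
    have h3 : (A l : ℤ) ≠ 0 := by
      have := (hA l).1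
      exact_mod_cast (by omega : A l ≠ 0)
    have h4 : (A l : ℤ) * (be l - f x) = 0 := by linarith
    rcases mul_eq_zero.1 h4 with h5 | h5
    · exact absurd h5 h3
    · linarith
  refine case_a (hB x).1 (hA l).1 hne (u := fm A1 f x n) (v := fm A be l n) ?_ (z := X ^ (1 / (T : ℝ))) ?_ ?_ (h2 x) (h1 l)
  · simp only [fm]
    linarith
  · exact le_trans (by exact_mod_cast (hB x).2) hX
  · exact le_trans (by exact_mod_cast (hA l).2) hX

theorem per_sys (hU : St_UBS) (hP : St_PCO) (hA : St_AVG) (hO : St_OMS) (r s : ℕ) (A : Fin r → ℕ) (A1 : Fin s → ℕ)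
    (hA1 : ∀ l, 1 ≤ A l) (hs : 1 ≤ s) (hB1 : ∀ x, 1 ≤ A1 x) (K T : ℕ) (hT : 1 ≤ T) :
    ∃ C : ℝ, 0 < C ∧ ∃ X0 : ℝ, ∀ X : ℝ, X0 ≤ X → ∀ be : Fin r → ℤ, (∀ l, |(be l : ℝ)| ≤ K * X) →
      ∀ be1 : Fin s → ℤ, (∀ x, |(be1 x : ℝ)| ≤ K * X) → AdmS A1 be1 → ∀ L : ℝ, 0 ≤ L → L ≤ X → ∀ ν : ℝ, 0 ≤ ν →
      L * VN ⌊X⌋₊ A1 be1 ≤ ν →
      ((BadN T X L A be A1 be1).card : ℝ) ≤ C * (X * VN ⌊X⌋₊ A be) * (ν + 1 / (Real.log X) ^ (1 / 2 : ℝ)) := by
  classical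
  obtain ⟨a0, ha0⟩ : ∃ a0 : ℕ, a0 = ∑ l, A l + ∑ x, A1 x := ⟨_, rfl⟩
  have hAa : ∀ l, 1 ≤ A l ∧ A l ≤ a0 := fun l =>
    ⟨hA1 l, by rw [ha0]; exact (single_le_sum (f := A) (fun i _ => Nat.zero_le _) (mem_univ l)).trans (Nat.le_add_right _ _)⟩
  have hBa : ∀ x, 1 ≤ A1 x ∧ A1 x ≤ a0 := fun x =>
    ⟨hB1 x, by rw [ha0]; exact (single_le_sum (f := A1) (fun i _ => Nat.zero_le _) (mem_univ x)).trans (Nat.le_add_left _ _)⟩
  obtain ⟨C1, hC1, X1, hX1⟩ := cnt_union hU hP r 1 a0 T hT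
  obtain ⟨C2, hC2, X2, hX2⟩ := cnt_union hU hP r s a0 T hT
  obtain ⟨C3, hC3, X3, hX3⟩ := hA r 1
  obtain ⟨C4, hC4, X4, hX4⟩ := hA (s * r) (a0 ^ 2)
  obtain ⟨C5, hC5, X5, hX5⟩ := hO.2 a0
  obtain ⟨X6, hX6⟩ : ∃ X6 : ℝ, ∀ X : ℝ, X6 ≤ X → (a0 : ℝ) ≤ X ^ (1 / (T : ℝ)) := by
    have h := (tendsto_rpow_atTop (by positivity : (0:ℝ) < 1 / (T:ℝ))).eventually_ge_atTop (a0 : ℝ)
    exact eventually_atTop.1 h
  refine ⟨s * r * (C1 * C5 * C3) + C2 * C4 * (1 + C5), by positivity,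
    max (max (max X1 X2) (max X3 X4)) (max (max X5 X6) (max (Real.exp 1) (2 * (a0 : ℝ) * K + (a0 : ℝ) ^ 2))),
    fun X hX be hbe be1 hbe1 hadm L hL hLX ν hν hLν => ?_⟩
  simp only [max_le_iff] at hX
  obtain ⟨⟨⟨hx1, hx2⟩, hx3, hx4⟩, ⟨hx5, hx6⟩, hx7, hx8⟩ := hX
  have hXpos : 0 < X := (Real.exp_pos 1).trans_le hx7
  have hlog : 1 ≤ Real.log X := by rwa [Real.le_log_iff_exp_le hXpos]
  obtain ⟨Λ, hΛ⟩ : ∃ Λ : ℝ, Λ = (Real.log X) ^ (1 / 2 : ℝ) := ⟨_, rfl⟩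
  have hΛpos : 0 < Λ := by rw [hΛ]; positivity
  have hΛ2 : Λ * Λ = Real.log X := by
    rw [hΛ, ← Real.rpow_add (by linarith)]
    norm_num
  rw [← hΛ]
  obtain ⟨V, hV⟩ : ∃ V : ℝ, V = VN ⌊X⌋₊ A be := ⟨_, rfl⟩
  obtain ⟨V1, hV1⟩ : ∃ V1 : ℝ, V1 = VN ⌊X⌋₊ A1 be1 := ⟨_, rfl⟩
  have hV0 : 0 ≤ V := hV ▸ VN_nonneg _ _ _
  have hV10 : 0 ≤ V1 := hV1 ▸ VN_nonneg _ _ _
  have hV1u : V1 ≤ C5 / Real.log X := hV1 ▸ hX5 X hx5 s A1 be1 hs hBa
  rw [← hV]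
  rw [← hV1] at hLν
  -- notation
  obtain ⟨D, hD⟩ : ∃ D : Fin s → Fin r → ℤ → ℤ, D = fun x l d => (A1 x : ℤ) * be l - A l * sh A1 be1 d x := ⟨_, rfl⟩
  have hDb : ∀ d : ℤ, |(d : ℝ)| ≤ L → ∀ x l, |(D x l d : ℝ)| ≤ X ^ 2 := by
    intro d hd x l
    rw [hD]
    exact D_bound (fun l => (hAa l).2) (fun x => (hBa x).2) hXpos.le hx8 hbe hbe1 hLX hd x l
  have hb : ∀ d : ℤ, |(d : ℝ)| ≤ L → ∀ x₀, (∀ l, D x₀ l d ≠ 0) →
      ((S1 T X A be A1 (sh A1 be1 d)).card : ℝ) ≤ C1 * C5 * C3 * (X * V / Λ) := by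
    intro d hd x₀ hne
    have h1 : ((S1 T X A be A1 (sh A1 be1 d)).card : ℝ) ≤
        ((S1 T X A be (fun _ : Fin 1 => A1 x₀) (fun _ : Fin 1 => sh A1 be1 d x₀)).card : ℝ) := by
      have : (S1 T X A be A1 (sh A1 be1 d)).card ≤
          (S1 T X A be (fun _ : Fin 1 => A1 x₀) (fun _ : Fin 1 => sh A1 be1 d x₀)).card := by
        refine card_le_card fun n hn => ?_
        rw [S1, mem_filter] at hn ⊢
        exact ⟨hn.1, hn.2.1, hn.2.2.1, fun _ => hn.2.2.2 x₀⟩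
      exact_mod_cast this
    have h2 := hX1 X hx1 A be (fun _ : Fin 1 => A1 x₀) (fun _ : Fin 1 => sh A1 be1 d x₀) hAa (fun _ => hBa x₀)
      (AdmS_one (AdmS_sh hadm d) x₀)
    have h3 := hX5 X hx5 1 (fun _ : Fin 1 => A1 x₀) (fun _ : Fin 1 => sh A1 be1 d x₀) le_rfl (fun _ => hBa x₀)
    have h4 := hX3 X hx3 (fun _ : Fin r => (1 : ℤ)) (fun l => D x₀ l d) (by intro x; norm_num)
      (fun l => hDb d hd x₀ l) 0 (by simpa using hXpos.le)
    have h5 : ∏ l, GN 2 ⌊X⌋₊ (D x₀ l d) ≤ C3 * Λ := by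
      have h6 : (0 : ℤ) ∈ (Icc (-((0 : ℕ) : ℤ)) ((0 : ℕ) : ℤ)).filter (fun e : ℤ => ∀ x : Fin r, 1 * e + D x₀ x d ≠ 0) := by
        rw [mem_filter]
        refine ⟨by simp, fun l => ?_⟩
        simpa using hne l
      have h7 := single_le_sum (f := fun e : ℤ => ∏ x, GN 2 ⌊X⌋₊ (1 * e + D x₀ x d))
        (fun e _ => prod_nonneg fun x _ => GN_nonneg _ _) h6
      have h8 := h7.trans h4
      simp only [mul_zero, zero_add, Nat.cast_zero] at h8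
      rw [hΛ]
      exact h8
    rw [← hV] at h2
    refine h1.trans (h2.trans ?_)
    have h9 : ∏ x : Fin 1, ∏ l, GN 2 ⌊X⌋₊ ((A1 x₀ : ℤ) * be l - A l * sh A1 be1 d x₀) ≤ C3 * Λ := by
      rw [Fin.prod_univ_one]
      rw [hD] at h5
      exact h5
    have h10 : 0 ≤ ∏ x : Fin 1, ∏ l, GN 2 ⌊X⌋₊ ((A1 x₀ : ℤ) * be l - A l * sh A1 be1 d x₀) :=
      prod_nonneg fun _ _ => prod_nonneg fun _ _ => GN_nonneg _ _
    calc C1 * (X * (V * VN ⌊X⌋₊ (fun _ : Fin 1 => A1 x₀) (fun _ : Fin 1 => sh A1 be1 d x₀) *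
          ∏ x : Fin 1, ∏ l, GN 2 ⌊X⌋₊ ((A1 x₀ : ℤ) * be l - A l * sh A1 be1 d x₀)))
        ≤ C1 * (X * (V * (C5 / Real.log X) * (C3 * Λ))) := by
          have h11 := VN_nonneg ⌊X⌋₊ (fun _ : Fin 1 => A1 x₀) (fun _ : Fin 1 => sh A1 be1 d x₀)
          gcongr
      _ = C1 * C5 * C3 * (X * V / Λ) := by
          rw [← hΛ2]
          field_simp
  obtain ⟨G, hG⟩ : ∃ G : ℤ → ℝ, G = fun d => ∏ x, ∏ l, GN 2 ⌊X⌋₊ (D x l d) := ⟨_, rfl⟩
  have hG0 : ∀ d, 0 ≤ G d := by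
    intro d
    rw [hG]
    exact prod_nonneg fun _ _ => prod_nonneg fun _ _ => GN_nonneg _ _
  have hc : ∀ d : ℤ, ((S1 T X A be A1 (sh A1 be1 d)).card : ℝ) ≤ C2 * (X * (V * V1 * G d)) := by
    intro d
    have h2 := hX2 X hx2 A be A1 (sh A1 be1 d) hAa hBa (AdmS_sh hadm d)
    rw [VN_sh hO.1, ← hV, ← hV1] at h2
    rw [hG, hD]
    exact h2
  have hsumG : ∑ d ∈ (Icc (-((⌊L⌋₊ : ℕ) : ℤ)) (⌊L⌋₊ : ℕ)).filter (fun d => ∀ x l, D x l d ≠ 0), G d ≤ C4 * (L + Λ) := by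
    have h1 := hX4 X hx4 (fun i : Fin (s * r) => -((A1 (finProdFinEquiv.symm i).1 : ℤ) * A (finProdFinEquiv.symm i).2))
      (fun i : Fin (s * r) => (A1 (finProdFinEquiv.symm i).1 : ℤ) * be (finProdFinEquiv.symm i).2 -
        A (finProdFinEquiv.symm i).2 * be1 (finProdFinEquiv.symm i).1)
      (by
        intro i
        generalize finProdFinEquiv.symm i = q
        have h2 := hBa q.1
        have h3 := hAa q.2
        constructor
        · have : (0 : ℤ) < (A1 q.1 : ℤ) * A q.2 := by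
            have e1 : (0 : ℤ) < A1 q.1 := by exact_mod_cast h2.1
            have e2 : (0 : ℤ) < A q.2 := by exact_mod_cast h3.1
            positivity
          linarith
        · rw [abs_neg, abs_of_nonneg (by positivity)]
          push_cast
          have e1 : (A1 q.1 : ℤ) ≤ a0 := by exact_mod_cast h2.2
          have e2 : (A q.2 : ℤ) ≤ a0 := by exact_mod_cast h3.2
          rw [sq]
          exact mul_le_mul e1 e2 (by positivity) (by positivity))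
      (by
        intro i
        generalize finProdFinEquiv.symm i = q
        have h2 := hDb 0 (by simpa using hL) q.1 q.2
        rw [hD] at h2
        simpa [sh] using h2)
      ⌊L⌋₊ ((Nat.floor_le hL).trans hLX)
    have h4 : ∀ (d : ℤ) (q : Fin s × Fin r), -((A1 q.1 : ℤ) * A q.2) * d + ((A1 q.1 : ℤ) * be q.2 - A q.2 * be1 q.1) = D q.1 q.2 d := by
      intro d q
      rw [hD]
      simp only [sh]
      ring
    have h5 : ∑ d ∈ (Icc (-((⌊L⌋₊ : ℕ) : ℤ)) (⌊L⌋₊ : ℕ)).filter (fun d => ∀ x l, D x l d ≠ 0), G d =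
        ∑ d ∈ (Icc (-((⌊L⌋₊ : ℕ) : ℤ)) (⌊L⌋₊ : ℕ)).filter (fun d => ∀ i : Fin (s * r),
          -((A1 (finProdFinEquiv.symm i).1 : ℤ) * A (finProdFinEquiv.symm i).2) * d +
            ((A1 (finProdFinEquiv.symm i).1 : ℤ) * be (finProdFinEquiv.symm i).2 -
              A (finProdFinEquiv.symm i).2 * be1 (finProdFinEquiv.symm i).1) ≠ 0),
          ∏ i : Fin (s * r), GN 2 ⌊X⌋₊ (-((A1 (finProdFinEquiv.symm i).1 : ℤ) * A (finProdFinEquiv.symm i).2) * d +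
            ((A1 (finProdFinEquiv.symm i).1 : ℤ) * be (finProdFinEquiv.symm i).2 -
              A (finProdFinEquiv.symm i).2 * be1 (finProdFinEquiv.symm i).1)) := by
      refine sum_congr ?_ fun d _ => ?_
      · refine filter_congr fun d _ => ?_
        constructor
        · intro h i
          rw [h4]
          exact h _ _
        · intro h x l
          have := h (finProdFinEquiv (x, l))
          rw [h4, Equiv.symm_apply_apply] at this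
          exact this
      · simp only [h4]
        rw [hG, Equiv.prod_comp finProdFinEquiv.symm (fun q : Fin s × Fin r => GN 2 ⌊X⌋₊ (D q.1 q.2 d)), Fintype.prod_prod_type]
    rw [h5]
    refine h1.trans ?_
    rw [← hΛ]
    have := Nat.floor_le hL
    gcongr
  -- the cover
  obtain ⟨I, hI⟩ : ∃ I : Finset ℤ, I = Icc (-((⌊L⌋₊ : ℕ) : ℤ)) (⌊L⌋₊ : ℕ) := ⟨_, rfl⟩
  rw [← hI] at hsumG
  have hcov : BadN T X L A be A1 be1 ⊆ (I.filter (fun d => ¬ ∀ x, ∃ l, A1 x = A l ∧ sh A1 be1 d x = be l)).biUnion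
      (fun d => S1 T X A be A1 (sh A1 be1 d)) := by
    intro n hn
    rw [BadN, mem_filter] at hn
    obtain ⟨h1, h2, h3, d, h4, h5, h6⟩ := hn
    rw [mem_biUnion]
    refine ⟨d, mem_filter.2 ⟨?_, h6⟩, ?_⟩
    · rw [hI, mem_win hL]
      exact h4
    · rw [S1, mem_filter]
      exact ⟨h1, h2, h3, h5⟩
  have hcard : ((BadN T X L A be A1 be1).card : ℝ) ≤
      ∑ d ∈ I.filter (fun d => ¬ ∀ x, ∃ l, A1 x = A l ∧ sh A1 be1 d x = be l), ((S1 T X A be A1 (sh A1 be1 d)).card : ℝ) := by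
    have := (card_le_card hcov).trans card_biUnion_le
    exact_mod_cast this
  have hterm : ∀ d ∈ I.filter (fun d => ¬ ∀ x, ∃ l, A1 x = A l ∧ sh A1 be1 d x = be l),
      ((S1 T X A be A1 (sh A1 be1 d)).card : ℝ) ≤
        (if ∃ x l, A1 x = A l ∧ sh A1 be1 d x = be l then C1 * C5 * C3 * (X * V / Λ) else 0) +
        (if ∀ x l, D x l d ≠ 0 then C2 * (X * (V * V1 * G d)) else 0) := by
    intro d hd
    obtain ⟨hd1, hd2⟩ := mem_filter.1 hd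
    rw [hI, mem_win hL] at hd1
    have hn1 : (0 : ℝ) ≤ C1 * C5 * C3 * (X * V / Λ) := by positivity
    have hn2 : (0 : ℝ) ≤ C2 * (X * (V * V1 * G d)) := by
      have := hG0 d
      positivity
    have hi1 : (0 : ℝ) ≤ (if ∃ x l, A1 x = A l ∧ sh A1 be1 d x = be l then C1 * C5 * C3 * (X * V / Λ) else 0) := by
      split_ifs
      · exact hn1
      · exact le_rfl
    have hi2 : (0 : ℝ) ≤ (if ∀ x l, D x l d ≠ 0 then C2 * (X * (V * V1 * G d)) else 0) := by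
      split_ifs
      · exact hn2
      · exact le_rfl
    by_cases hall : ∀ x l, D x l d ≠ 0
    · rw [if_pos hall]
      have := hc d
      linarith
    · push Not at hall
      obtain ⟨x₁, l₁, hz⟩ := hall
      by_cases hbad : ∃ x l, D x l d = 0 ∧ ¬ (A1 x = A l ∧ sh A1 be1 d x = be l)
      · obtain ⟨x, l, hD0, hm⟩ := hbad
        rw [hD] at hD0
        rw [S1_empty hAa hBa (hX6 X hx6) x l hD0 hm]
        simp only [card_empty, Nat.cast_zero]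
        linarith
      · push Not at hbad
        have hmat : ∃ x l, A1 x = A l ∧ sh A1 be1 d x = be l := ⟨x₁, l₁, hbad x₁ l₁ hz⟩
        rw [if_pos hmat]
        push Not at hd2
        obtain ⟨x₀, hx₀⟩ := hd2
        have := hb d hd1 x₀ (fun l h0 => hx₀ l (hbad x₀ l h0).1 (hbad x₀ l h0).2)
        linarith
  have hs1 : ∑ d ∈ I.filter (fun d => ¬ ∀ x, ∃ l, A1 x = A l ∧ sh A1 be1 d x = be l),
      (if ∃ x l, A1 x = A l ∧ sh A1 be1 d x = be l then C1 * C5 * C3 * (X * V / Λ) else 0) ≤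
      s * r * (C1 * C5 * C3 * (X * V / Λ)) := by
    have hn1 : (0 : ℝ) ≤ C1 * C5 * C3 * (X * V / Λ) := by positivity
    refine (sum_le_sum_of_subset_of_nonneg (filter_subset _ I) (fun d _ _ => ?_)).trans ?_
    · split_ifs
      · exact hn1
      · exact le_rfl
    · rw [← sum_filter, sum_const, nsmul_eq_mul]
      refine mul_le_mul_of_nonneg_right ?_ hn1
      exact_mod_cast card_match A be A1 be1 hB1 I
  have hs2 : ∑ d ∈ I.filter (fun d => ¬ ∀ x, ∃ l, A1 x = A l ∧ sh A1 be1 d x = be l),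
      (if ∀ x l, D x l d ≠ 0 then C2 * (X * (V * V1 * G d)) else 0) ≤ C2 * C4 * (X * V * (ν + C5 / Λ)) := by
    have hn2 : ∀ d, (0 : ℝ) ≤ C2 * (X * (V * V1 * G d)) := by
      intro d
      have := hG0 d
      positivity
    refine (sum_le_sum_of_subset_of_nonneg (filter_subset _ I) (fun d _ _ => ?_)).trans ?_
    · split_ifs
      · exact hn2 d
      · exact le_rfl
    · rw [← sum_filter]
      have h1 : ∑ d ∈ I.filter (fun d => ∀ x l, D x l d ≠ 0), C2 * (X * (V * V1 * G d)) =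
          C2 * (X * (V * V1)) * ∑ d ∈ I.filter (fun d => ∀ x l, D x l d ≠ 0), G d := by
        rw [mul_sum]
        refine sum_congr rfl fun d _ => ?_
        ring
      rw [h1]
      refine (mul_le_mul_of_nonneg_left hsumG (by positivity)).trans ?_
      have h2 : V1 * Λ ≤ C5 / Λ := by
        calc V1 * Λ ≤ C5 / Real.log X * Λ := by gcongr
          _ = C5 / Λ := by
            rw [← hΛ2]
            field_simp
      have h3 : C2 * (X * (V * V1)) * (C4 * (L + Λ)) = C2 * C4 * (X * V * (L * V1 + V1 * Λ)) := by ring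
      rw [h3]
      gcongr
  have hfin := (sum_le_sum hterm).trans_eq sum_add_distrib
  refine (hcard.trans (hfin.trans (add_le_add hs1 hs2))).trans ?_
  have h1 : (s : ℝ) * r * (C1 * C5 * C3 * (X * V / Λ)) = (s * r * (C1 * C5 * C3)) * (X * V) * (1 / Λ) := by ring
  have h2 : C2 * C4 * (X * V * (ν + C5 / Λ)) = C2 * C4 * (X * V) * ν + C2 * C4 * C5 * (X * V) * (1 / Λ) := by ring
  rw [h1, h2]
  have hXV : 0 ≤ X * V := by positivity
  have hil : 0 ≤ 1 / Λ := by positivity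
  have h3 : 0 ≤ (s * r * (C1 * C5 * C3)) * (X * V) * ν := by positivity
  have h4 : 0 ≤ C2 * C4 * C5 * (X * V) * ν := by positivity
  have h5 : 0 ≤ C2 * C4 * (X * V) * (1 / Λ) := by positivity
  have h6 : (s * r * (C1 * C5 * C3) + C2 * C4 * (1 + C5)) * (X * V) * (ν + 1 / Λ) =
      (s * r * (C1 * C5 * C3)) * (X * V) * ν + (s * r * (C1 * C5 * C3)) * (X * V) * (1 / Λ) +
      C2 * C4 * (X * V) * ν + C2 * C4 * C5 * (X * V) * ν + C2 * C4 * (X * V) * (1 / Λ) +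
      C2 * C4 * C5 * (X * V) * (1 / Λ) := by ring
  rw [h6]
  linarith

end NscAux

open NscAux in
theorem nsc : St_NSC := by
  classical
  intro hQ hU hP hA hO r A hA1 g s A' hs hB1 K hK i j hij
  obtain ⟨t, ht, c₀, hc₀, X0, hX0⟩ := hQ r (A i) (A j) K (hA1 i) (hA1 j) hK
  refine ⟨t, ht, fun T hT => ?_⟩
  have hT1 : 1 ≤ T := ht.trans hT
  have hper := fun γ => per_sys hU hP hA hO r (s γ) A (A' γ) hA1 (hs γ) (hB1 γ) K T hT1
  choose C hC Xg hXg using hper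
  obtain ⟨C'', hC''⟩ : ∃ C'' : ℝ, C'' = ∑ γ, C γ + 1 := ⟨_, rfl⟩
  have hC''0 : 0 < C'' := by
    rw [hC'']
    have := sum_nonneg (s := (univ : Finset (Fin g))) (fun γ _ => (hC γ).le)
    linarith
  obtain ⟨ν, hν⟩ : ∃ ν : ℝ, ν = c₀ / (4 * C'') := ⟨_, rfl⟩
  have hν0 : 0 < ν := by rw [hν]; positivity
  obtain ⟨X7, hX7⟩ : ∃ X7 : ℝ, ∀ X : ℝ, X7 ≤ X → 1 / (Real.log X) ^ (1 / 2 : ℝ) ≤ ν := by
    have h1 : Tendsto (fun X : ℝ => (Real.log X) ^ (1 / 2 : ℝ)) atTop atTop :=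
      (tendsto_rpow_atTop (by norm_num : (0:ℝ) < 1 / 2)).comp Real.tendsto_log_atTop
    have h2 := h1.eventually_ge_atTop (1 / ν)
    obtain ⟨X7, hX7⟩ := eventually_atTop.1 h2
    refine ⟨X7, fun X hX => ?_⟩
    have h3 := hX7 X hX
    have h4 : 0 < 1 / ν := by positivity
    have h5 : 0 < (Real.log X) ^ (1 / 2 : ℝ) := h4.trans_le h3
    rw [div_le_iff₀ h5]
    rw [div_le_iff₀ hν0] at h3
    linarith
  refine ⟨c₀ / 2, by positivity, ν, hν0, max (max X0 X7) (max 1 (max (∑ l, (A l : ℝ)) (∑ γ, |Xg γ|))), ?_⟩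
  intro X hX be hbe hbi hindep hadm be' hbe' hadm' L hL hLX hLν z hz1 hz2
  simp only [max_le_iff] at hX
  obtain ⟨⟨hx0, hx7⟩, hx1, hx2, hx3⟩ := hX
  have hXpos : 0 < X := by linarith
  have hxg : ∀ γ, Xg γ ≤ X := fun γ =>
    (le_abs_self _).trans ((single_le_sum (f := fun γ => |Xg γ|) (fun i _ => abs_nonneg _) (mem_univ γ)).trans hx3)
  have hAX : ∀ l, (A l : ℝ) ≤ X := fun l =>
    (single_le_sum (f := fun l => (A l : ℝ)) (fun i _ => Nat.cast_nonneg _) (mem_univ l)).trans hx2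
  obtain ⟨W, hW1, hW2, hW3, hW4⟩ := hX0 X hx0 A be i j hij rfl rfl (fun l => ⟨hA1 l, hAX l⟩) hbe hbi hindep hadm
  have hlow := hW4 1 (one_dvd _) 0 (by
    intro p hp hp1
    exact absurd (Nat.dvd_one.1 hp1) hp.one_lt.ne')
  have hVe : ∏ p ∈ (Icc 1 ⌊X⌋₊).filter (fun p => p.Prime ∧ ¬ p ∣ 1), (1 - (om A be p : ℝ) / p) = VN ⌊X⌋₊ A be := by
    rw [VN]
    refine prod_congr ?_ fun _ _ => rfl
    refine filter_congr fun p _ => ?_
    constructor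
    · exact fun h => h.1
    · exact fun h => ⟨h, fun h1 => h.one_lt.ne' (Nat.dvd_one.1 h1)⟩
  rw [hVe, Nat.cast_one, div_one] at hlow
  obtain ⟨V, hV⟩ : ∃ V : ℝ, V = VN ⌊X⌋₊ A be := ⟨_, rfl⟩
  rw [← hV] at hlow ⊢
  have hV0 : 0 ≤ V := hV ▸ VN_nonneg _ _ _
  -- the bad numbers
  obtain ⟨B, hB⟩ : ∃ B : Fin g → Finset ℕ, B = fun γ => BadN T X L A be (A' γ) (be' γ) := ⟨_, rfl⟩
  have hBc : ∀ γ, ((B γ).card : ℝ) ≤ C γ * (X * V) * (2 * ν) := by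
    intro γ
    have h1 := hXg γ X (hxg γ) be hbe (be' γ) (hbe' γ) (hadm' γ) L hL hLX ν hν0.le (hLν γ)
    rw [hB, hV]
    refine h1.trans ?_
    have h2 := hX7 X hx7
    have h3 : 0 ≤ C γ * (X * VN ⌊X⌋₊ A be) := by
      have := (hC γ).le
      have := VN_nonneg ⌊X⌋₊ A be
      positivity
    refine mul_le_mul_of_nonneg_left ?_ h3
    linarith
  have hUc : (((univ : Finset (Fin g)).biUnion B).card : ℝ) ≤ c₀ / 2 * (X * V) := by
    have h1 : (((univ : Finset (Fin g)).biUnion B).card : ℝ) ≤ ∑ γ, ((B γ).card : ℝ) := by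
      exact_mod_cast card_biUnion_le
    refine h1.trans ((sum_le_sum fun γ _ => hBc γ).trans ?_)
    rw [← sum_mul, ← sum_mul]
    have h2 : ∑ γ, C γ ≤ C'' := by rw [hC'']; linarith
    have h3 : c₀ / 2 * (X * V) = C'' * (X * V) * (2 * ν) := by
      rw [hν]
      field_simp
      ring
    rw [h3]
    gcongr
  have hsub : PtsK t K X A be i j 1 0 \ (univ : Finset (Fin g)).biUnion B ⊆ PtsN K z X L A be i j s A' be' := by
    intro n hn
    rw [Finset.mem_sdiff] at hn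
    obtain ⟨hn1, hn2⟩ := hn
    rw [PtsK, mem_filter] at hn1
    obtain ⟨h1, h2, h3, _, h5, h6, h7, h8⟩ := hn1
    rw [PtsN, mem_filter]
    refine ⟨h1, h2, h3, h5, h6, h7, fun l => Ro_mono hz2 (h8 l), fun γ d hd hro => ?_⟩
    by_contra hcon
    refine hn2 ?_
    rw [mem_biUnion]
    refine ⟨γ, mem_univ _, ?_⟩
    rw [hB]
    simp only [BadN, mem_filter]
    refine ⟨h1, h2, fun l => Ro_mono (hz1.trans hz2) (h8 l), d, hd, fun x => ?_, ?_⟩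
    · rw [fm_sh]
      exact Ro_mono hz1 (hro x)
    · intro h
      exact hcon h
  have h1 := card_le_card hsub
  have h2 := le_card_sdiff ((univ : Finset (Fin g)).biUnion B) (PtsK t K X A be i j 1 0)
  have h3 : ((PtsK t K X A be i j 1 0).card : ℝ) ≤
      ((PtsN K z X L A be i j s A' be').card : ℝ) + (((univ : Finset (Fin g)).biUnion B).card : ℝ) := by
    have : (PtsK t K X A be i j 1 0).card ≤ (PtsN K z X L A be i j s A' be').card + ((univ : Finset (Fin g)).biUnion B).card := by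
      omega
    exact_mod_cast this
  have h4 : c₀ * (X * V) = c₀ / 2 * (X * V) + c₀ / 2 * (X * V) := by ring
  linarith

end Pool.Agent.Q117.LF
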