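import Pool.Agent.Q117.LF.Stm
import Pool.Agent.Q117.CR.Fin

/-!
# Chen's theorem in systems of linear forms, all the values isolated at Rankin's scale

Project LF, job LPAT. The file follows `Pool/Agent/Q117/CR/Fin.lean` and `Pat.lean`.
-/

set_option autoImplicit false

namespace Pool.Agent.Q117.LF

open Finset Filter
open Pool.Agent.Y843.HS (Pr VV Pr_mem Pr_prime)
open Pool.Agent.Y843.HG (Adm Z0 SP VV_low)
open Pool.Agent.Y843.CH
open Pool.Agent.H378R2 (yy z2 GoodS GoodP WW)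
open Pool.Agent.Q117.CR
open Pool.Agent.Q117.GP (Rk)

/-! ### Rankin's function -/

/-- Rankin's function is large -/
theorem Rk_large (c : ℝ) (hc : 0 < c) (R : ℝ) : ∃ X0 : ℝ, ∀ X : ℝ, X0 ≤ X → R ≤ c * Rk X := by
  obtain ⟨X0, hev⟩ := Pool.Agent.Q117.GP.ev_all (c / 2) (by positivity) 1 le_rfl 1 (max R 0) le_rfl
  refine ⟨X0, ?_⟩
  intro X hX
  obtain ⟨T, hT⟩ : ∃ T, T = Real.log X := ⟨_, rfl⟩
  obtain ⟨A, hA⟩ : ∃ A, A = Real.log T := ⟨_, rfl⟩
  obtain ⟨B, hB⟩ : ∃ B, B = Real.log A := ⟨_, rfl⟩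
  obtain ⟨D, hD⟩ : ∃ D, D = Real.log B := ⟨_, rfl⟩
  obtain ⟨a1, a2, a3, a4, a5, a6, a7, a8, a9, a10, a11, a12, a13, a14⟩ := hev X hX T A B D hT hA hB hD
  have hR : Rk X = T * A * D / B ^ 2 := by
    unfold Rk
    rw [← hT, ← hA, ← hB, ← hD]
  have hT0 : 0 < T := by linarith
  have hA0 : 0 < A := by linarith
  have hB0 : 0 < B := by linarith
  have hT1 : 2 * T ≤ c * Rk X := by
    rw [hR, mul_div_assoc', le_div_iff₀ (by positivity)]
    have h1 : T * B ^ 2 ≤ T * (c / 2 * A) := by gcongr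
    have h2 : T * (c / 2 * A) ≤ T * (c / 2 * A) * D := by
      have : 0 ≤ T * (c / 2 * A) := by positivity
      nlinarith
    linarith [show c * (T * A * D) = 2 * (T * (c / 2 * A) * D) by ring]
  have h2 : R ≤ max R 0 := le_max_left _ _
  have h3 : 0 ≤ max R 0 := le_max_right _ _
  linarith

/-- Rankin's function at the small scale -/
theorem Rk_scaleL (g : ℕ) (hg : 1 ≤ g) : ∃ X0 : ℝ, ∀ X : ℝ, X0 ≤ X →
    Rk X ≤ 400 * Rk (((2 * g * ⌈X⌉₊ : ℕ) : ℝ) ^ (1 / 100 : ℝ)) := by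
  have hlog := Real.tendsto_log_atTop
  have h2 : Tendsto (fun X : ℝ => Real.log (Real.log X)) atTop atTop := hlog.comp hlog
  have h3 : Tendsto (fun X : ℝ => Real.log (Real.log (Real.log X))) atTop atTop := hlog.comp h2
  have h4 : Tendsto (fun X : ℝ => Real.log (Real.log (Real.log (Real.log X)))) atTop atTop := hlog.comp h3
  have hg0 : (1 : ℝ) ≤ g := by exact_mod_cast hg
  have hev : ∀ᶠ X : ℝ in atTop, Rk X ≤ 400 * Rk (((2 * g * ⌈X⌉₊ : ℕ) : ℝ) ^ (1 / 100 : ℝ)) := by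
    filter_upwards [eventually_ge_atTop (1 : ℝ), hlog.eventually_ge_atTop (max 4 (Real.log (4 * g))),
      h2.eventually_ge_atTop (2 * Real.log 100 + 2),
      h3.eventually_ge_atTop 2, h4.eventually_ge_atTop 2] with X g1 g2 g3 g4 g5
    obtain ⟨F, hF⟩ : ∃ F : ℝ, F = ((2 * g * ⌈X⌉₊ : ℕ) : ℝ) := ⟨_, rfl⟩
    obtain ⟨T, hT⟩ : ∃ T, T = Real.log X := ⟨_, rfl⟩
    obtain ⟨A, hA⟩ : ∃ A, A = Real.log T := ⟨_, rfl⟩
    obtain ⟨B, hB⟩ : ∃ B, B = Real.log A := ⟨_, rfl⟩
    obtain ⟨D, hD⟩ : ∃ D, D = Real.log B := ⟨_, rfl⟩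
    have hR : Rk X = T * A * D / B ^ 2 := by
      unfold Rk
      rw [← hT, ← hA, ← hB, ← hD]
    rw [← hT] at g2 g3 g4 g5
    rw [← hA] at g3 g4 g5
    rw [← hB] at g4 g5
    rw [← hD] at g5
    have g2a : 4 ≤ T := (le_max_left _ _).trans g2
    have g2b : Real.log (4 * g) ≤ T := (le_max_right _ _).trans g2
    have hX0 : 0 < X := by linarith
    have hl100 : 0 < Real.log 100 := Real.log_pos (by norm_num)
    have hl2 : 0 < Real.log 2 := Real.log_pos (by norm_num)
    have hl2' : Real.log 2 ≤ 1 := by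
      have := Real.log_two_lt_d9
      linarith
    -- the new scale
    have hce1 : X ≤ (⌈X⌉₊ : ℝ) := Nat.le_ceil X
    have hce2 : (⌈X⌉₊ : ℝ) < X + 1 := Nat.ceil_lt_add_one hX0.le
    have hFe : F = 2 * g * (⌈X⌉₊ : ℝ) := by rw [hF]; push_cast; ring
    have hF1 : X ≤ F := by
      rw [hFe]
      nlinarith
    have hF2 : F ≤ 4 * g * X := by
      rw [hFe]
      nlinarith
    rw [← hF]
    obtain ⟨T', hT'⟩ : ∃ T', T' = Real.log (F ^ (1 / 100 : ℝ)) := ⟨_, rfl⟩
    obtain ⟨A', hA'⟩ : ∃ A', A' = Real.log T' := ⟨_, rfl⟩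
    obtain ⟨B', hB'⟩ : ∃ B', B' = Real.log A' := ⟨_, rfl⟩
    obtain ⟨D', hD'⟩ : ∃ D', D' = Real.log B' := ⟨_, rfl⟩
    have hR' : Rk (F ^ (1 / 100 : ℝ)) = T' * A' * D' / B' ^ 2 := by
      unfold Rk
      rw [← hT', ← hA', ← hB', ← hD']
    have e1 : T' = 1 / 100 * Real.log F := by
      rw [hT', Real.log_rpow (by linarith)]
    have e2 : T ≤ Real.log F := by
      rw [hT]
      exact Real.log_le_log hX0 hF1
    have e3 : Real.log F ≤ Real.log (4 * g) + T := by
      rw [hT, ← Real.log_mul (by positivity) hX0.ne']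
      exact Real.log_le_log (by linarith) hF2
    have t1 : T / 100 ≤ T' := by rw [e1]; linarith
    have t2 : T' ≤ T := by rw [e1]; linarith
    have hT0 : 0 < T := by linarith
    have hT'0 : 0 < T' := by linarith
    have a1 : A - Real.log 100 ≤ A' := by
      have h5 := Real.log_le_log (by positivity) t1
      rw [Real.log_div hT0.ne' (by norm_num), ← hA, ← hA'] at h5
      exact h5
    have a2 : A' ≤ A := by
      rw [hA', hA]
      exact Real.log_le_log hT'0 t2
    have a3 : A / 2 ≤ A' := by linarith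
    have hA0 : 0 < A := by linarith
    have hA'0 : 0 < A' := by linarith
    have b1 : B - Real.log 2 ≤ B' := by
      have h5 := Real.log_le_log (by positivity) a3
      rw [Real.log_div hA0.ne' (by norm_num), ← hB, ← hB'] at h5
      exact h5
    have b2 : B' ≤ B := by
      rw [hB', hB]
      exact Real.log_le_log hA'0 a2
    have b3 : B / 2 ≤ B' := by linarith
    have hB0 : 0 < B := by linarith
    have hB'0 : 0 < B' := by linarith
    have d1 : D - Real.log 2 ≤ D' := by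
      have h5 := Real.log_le_log (by positivity) b3
      rw [Real.log_div hB0.ne' (by norm_num), ← hD, ← hD'] at h5
      exact h5
    have d3 : D / 2 ≤ D' := by linarith
    have hD0 : 0 < D := by linarith
    rw [hR, hR']
    have f1 : T * A * D ≤ 400 * (T' * A' * D') := by
      calc T * A * D = 400 * (T / 100 * (A / 2) * (D / 2)) := by ring
        _ ≤ 400 * (T' * A' * D') := by gcongr
    have f2 : B' ^ 2 ≤ B ^ 2 := pow_le_pow_left₀ hB'0.le b2 2
    rw [mul_div_assoc']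
    apply div_le_div₀ _ f1 (by positivity) f2
    have : 0 ≤ D' := by linarith
    positivity
  obtain ⟨X0, h⟩ := eventually_atTop.1 hev
  exact ⟨X0, h⟩

/-! ### The slopes -/

/-- the product of the slopes -/
def Qf {k : ℕ} (al : Fin k → ℕ) : ℕ := ∏ l, al l

/-- the product of the other slopes -/
def qd {k : ℕ} (al : Fin k → ℕ) (l : Fin k) : ℕ := Qf al / al l

lemma al_mul_qd {k : ℕ} (al : Fin k → ℕ) (l : Fin k) : al l * qd al l = Qf al :=
  Nat.mul_div_cancel' (Finset.dvd_prod_of_mem al (Finset.mem_univ l))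

lemma al_mul_qdZ {k : ℕ} (al : Fin k → ℕ) (l : Fin k) : (al l : ℤ) * qd al l = Qf al := by
  exact_mod_cast al_mul_qd al l

lemma Qf_pos {k : ℕ} {al : Fin k → ℕ} (hal : ∀ l, 1 ≤ al l) : 0 < Qf al :=
  prod_pos fun l _ => hal l

lemma qd_pos {k : ℕ} {al : Fin k → ℕ} (hal : ∀ l, 1 ≤ al l) (l : Fin k) : 0 < qd al l := by
  have h1 := Qf_pos hal
  rw [← al_mul_qd al l] at h1
  exact Nat.pos_of_mul_pos_left h1

lemma qd_fm {k : ℕ} (al : Fin k → ℕ) (be : Fin k → ℤ) (l : Fin k) (n : ℕ) (u : ℤ) :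
    (qd al l : ℤ) * (fm al be l n + u) = Qf al * n + qd al l * (be l + u) := by
  have h := al_mul_qdZ al l
  unfold fm
  rw [← h]
  ring

/-- a simultaneous system of congruences -/
theorem crt_primes (P : Finset ℕ) (hP : ∀ p ∈ P, p.Prime) (r : ℕ → ℕ) : ∃ n : ℕ, ∀ p ∈ P, n ≡ r p [MOD p] := by
  obtain ⟨n, hn⟩ := Nat.chineseRemainderOfFinset r (fun p => p) P (fun p hp => (hP p hp).ne_zero) (by
    intro p hp q hq hpq
    exact (Nat.coprime_primes (hP p hp) (hP q hq)).2 hpq)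
  exact ⟨n, hn⟩

/-- the choice of the class -/
theorem choose_n {k : ℕ} (al : Fin k → ℕ) (be : Fin k → ℤ) (hal : ∀ l, 1 ≤ al l) (i : Fin k) (hadm : AdmS al be)
    (W O a0 : ℕ) (hW : 0 < W) (H : Finset ℕ) (D cR : ℝ) (hD : 0 ≤ D)
    (hH : ∀ x : ℕ, x ∈ H ↔ ∃ l, (x : ℤ) = O + qd al l * be l)
    (hO : ∀ l, ∀ u : ℤ, |(u : ℝ)| ≤ D → 0 ≤ (O : ℤ) + qd al l * (be l + u) ∧
      (((O : ℤ) + qd al l * (be l + u) : ℤ) : ℝ) ≤ cR)
    (hcov : ∀ s : ℕ, (s : ℝ) ≤ cR → ((∀ p : ℕ, p.Prime → ¬ p ∣ Qf al → p ∣ W → ¬ p ∣ a0 + s) ↔ s ∈ H)) :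
    ∃ n a : ℕ, (a : ℤ) = fm al be i n ∧ (∀ p : ℕ, p.Prime → p ∣ W → ∀ l, ¬ (p : ℤ) ∣ fm al be l n) ∧
      ∀ l, ∀ u : ℤ, |(u : ℝ)| ≤ D → (∀ m, (qd al l : ℤ) * (be l + u) ≠ qd al m * be m) →
        ∃ p : ℕ, p.Prime ∧ p ∣ W ∧ (p : ℤ) ∣ fm al be l n + u := by
  classical
  have hex : ∀ p : ℕ, ∃ c : ℕ, p.Prime → (p ∣ Qf al → ∀ l, ¬ (p : ℤ) ∣ fm al be l c) ∧
      (¬ p ∣ Qf al → Qf al * c ≡ a0 + O [MOD p]) := by
    intro p
    by_cases hp : p.Prime
    swap
    · exact ⟨0, fun h => absurd h hp⟩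
    by_cases hd : p ∣ Qf al
    · obtain ⟨n, hn⟩ := hadm p hp
      exact ⟨n, fun _ => ⟨fun _ => hn, fun h => absurd hd h⟩⟩
    · have := Fact.mk hp
      refine ⟨(((a0 + O : ℕ) : ZMod p) / (Qf al : ZMod p)).val, fun _ => ⟨fun h => absurd h hd, fun _ => ?_⟩⟩
      rw [← ZMod.natCast_eq_natCast_iff]
      have h1 : ((Qf al : ℕ) : ZMod p) ≠ 0 := by
        rw [Ne, ZMod.natCast_eq_zero_iff]
        exact hd
      rw [Nat.cast_mul, ZMod.natCast_zmod_val]
      field_simp
  choose c hc using hex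
  obtain ⟨n0, hn0⟩ := crt_primes W.primeFactors (fun p hp => Nat.prime_of_mem_primeFactors hp) c
  obtain ⟨n, hn⟩ : ∃ n : ℕ, n = n0 + W * ((be i).natAbs + 1) := ⟨_, rfl⟩
  have hnc : ∀ p : ℕ, p.Prime → p ∣ W → n ≡ c p [MOD p] := by
    intro p hp hpW
    have h1 := hn0 p (Nat.mem_primeFactors.2 ⟨hp, hpW, hW.ne'⟩)
    refine Nat.ModEq.trans ?_ h1
    rw [hn]
    have h2 : W * ((be i).natAbs + 1) ≡ 0 [MOD p] := (Nat.modEq_zero_iff_dvd).2 (hpW.mul_right _)
    have h3 := Nat.ModEq.add_left n0 h2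
    rwa [add_zero] at h3
  have hpos : 0 < fm al be i n := by
    unfold fm
    have h1 : ((be i).natAbs : ℤ) + 1 ≤ n := by
      rw [hn]
      have h2 : (be i).natAbs + 1 ≤ n0 + W * ((be i).natAbs + 1) := by nlinarith
      exact_mod_cast h2
    have h3 : (n : ℤ) ≤ al i * n := by
      have h4 : n ≤ al i * n := Nat.le_mul_of_pos_left n (hal i)
      exact_mod_cast h4
    have h5 : -((be i).natAbs : ℤ) ≤ be i := by omega
    linarith
  -- the primes outside of `Q`
  have hkey : ∀ p : ℕ, p.Prime → p ∣ W → ¬ p ∣ Qf al → ∀ l, ∀ u : ℤ,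
      ((p : ℤ) ∣ fm al be l n + u ↔ (p : ℤ) ∣ a0 + (O + qd al l * (be l + u))) := by
    intro p hp hpW hpQ l u
    have h1 : Qf al * n ≡ a0 + O [MOD p] := ((hnc p hp hpW).mul_left _).trans ((hc p hp).2 hpQ)
    have h2 : (p : ℤ) ∣ (Qf al : ℤ) * n - (a0 + O) := by
      have h3 := (Nat.modEq_iff_dvd.1 h1)
      rw [← dvd_neg]
      push_cast at h3
      have h4 : -((Qf al : ℤ) * n - (a0 + O)) = (a0 + O) - Qf al * n := by ring
      rw [h4]
      exact h3
    have h3 : (p : ℤ) ∣ fm al be l n + u ↔ (p : ℤ) ∣ (qd al l : ℤ) * (fm al be l n + u) := by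
      constructor
      · intro h
        exact h.mul_left _
      · intro h
        rcases (Nat.prime_iff_prime_int.1 hp).dvd_or_dvd h with h4 | h4
        · exfalso
          apply hpQ
          rw [← al_mul_qd al l]
          exact (Int.natCast_dvd_natCast.1 h4).mul_left _
        · exact h4
    rw [h3, qd_fm]
    have h5 : (Qf al : ℤ) * n + qd al l * (be l + u) =
        ((Qf al : ℤ) * n - (a0 + O)) + (a0 + (O + qd al l * (be l + u))) := by ring
    rw [h5]
    exact dvd_add_right h2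
  have hno : ∀ p : ℕ, p.Prime → p ∣ W → ∀ l, ¬ (p : ℤ) ∣ fm al be l n := by
    intro p hp hpW l
    by_cases hpQ : p ∣ Qf al
    · intro hd
      apply (hc p hp).1 hpQ l
      have h1 := hnc p hp hpW
      have h2 : (p : ℤ) ∣ (c p : ℤ) - n := Nat.modEq_iff_dvd.1 h1
      have h3 : fm al be l (c p) = fm al be l n + al l * ((c p : ℤ) - n) := by
        unfold fm
        ring
      rw [h3]
      exact dvd_add hd (h2.mul_left _)
    · intro hd
      obtain ⟨h1, h2⟩ := hO l 0 (by simpa using hD)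
      rw [add_zero] at h1 h2
      obtain ⟨x, hx⟩ := Int.eq_ofNat_of_zero_le h1
      have hxH : x ∈ H := (hH x).2 ⟨l, hx.symm⟩
      have h3 := (hcov x (by rw [hx] at h2; exact_mod_cast h2)).2 hxH p hp hpQ hpW
      apply h3
      have h4 := (hkey p hp hpW hpQ l 0).1 (by rwa [add_zero])
      rw [add_zero, hx] at h4
      exact_mod_cast h4
  refine ⟨n, (fm al be i n).toNat, Int.toNat_of_nonneg hpos.le, hno, ?_⟩
  intro l u hu hne
  obtain ⟨h1, h2⟩ := hO l u hu
  obtain ⟨x, hx⟩ := Int.eq_ofNat_of_zero_le h1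
  have hxH : x ∉ H := by
    intro h
    obtain ⟨m, hm⟩ := (hH x).1 h
    apply hne m
    rw [← hx] at hm
    linarith
  have h3 := mt (hcov x (by rw [hx] at h2; exact_mod_cast h2)).1 hxH
  push Not at h3
  obtain ⟨p, hp, hpQ, hpW, hpd⟩ := h3
  refine ⟨p, hp, hpW, (hkey p hp hpW hpQ l u).2 ?_⟩
  rw [hx]
  exact_mod_cast hpd

/-! ### The classes of the sieve -/

open Classical in
/-- the classes for the primes `fm i n` -/
noncomputable def OmL {k : ℕ} (al : Fin k → ℕ) (be : Fin k → ℤ) (i : Fin k) (q : ℕ) : Finset ℕ :=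
  if q ∣ al i then ∅ else ((range q).erase 0).filter (fun c : ℕ => ∃ l, l ≠ i ∧
    (q : ℤ) ∣ (al l : ℤ) * ((c : ℤ) - be i) + al i * be l)

lemma mem_Z0_OmL {k : ℕ} {al : Fin k → ℕ} {be : Fin k → ℤ} {i : Fin k} {q : ℕ} (hq : 0 < q) (hqi : ¬ q ∣ al i)
    (p : ℕ) : p % q ∈ Z0 (OmL al be i) q ↔ q ∣ p ∨ ∃ l, l ≠ i ∧
      (q : ℤ) ∣ (al l : ℤ) * ((p : ℤ) - be i) + al i * be l := by
  have key : ∀ l : Fin k, ((q : ℤ) ∣ (al l : ℤ) * (((p % q : ℕ) : ℤ) - be i) + al i * be l ↔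
      (q : ℤ) ∣ (al l : ℤ) * ((p : ℤ) - be i) + al i * be l) := by
    intro l
    have h1 : (q : ℤ) ∣ (p : ℤ) - ((p % q : ℕ) : ℤ) := Nat.modEq_iff_dvd.1 (Nat.mod_modEq p q)
    have h2 : (al l : ℤ) * ((p : ℤ) - be i) + al i * be l =
        (al l : ℤ) * (((p % q : ℕ) : ℤ) - be i) + al i * be l + al l * ((p : ℤ) - ((p % q : ℕ) : ℤ)) := by ring
    rw [h2]
    exact (dvd_add_left (h1.mul_left _)).symm
  unfold Z0
  rw [mem_insert]
  unfold OmL
  rw [if_neg hqi, mem_filter, mem_erase, mem_range]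
  constructor
  · rintro (h1 | ⟨_, l, hl, h2⟩)
    · exact Or.inl (Nat.dvd_of_mod_eq_zero h1)
    · exact Or.inr ⟨l, hl, (key l).1 h2⟩
  · rintro (h1 | ⟨l, hl, h2⟩)
    · exact Or.inl (Nat.mod_eq_zero_of_dvd h1)
    · by_cases h0 : p % q = 0
      · exact Or.inl h0
      · exact Or.inr ⟨⟨h0, Nat.mod_lt _ hq⟩, l, hl, (key l).2 h2⟩

lemma mem_Z0_OmL' {k : ℕ} {al : Fin k → ℕ} {be : Fin k → ℤ} {i : Fin k} {q : ℕ} (hqi : q ∣ al i)
    (p : ℕ) : p % q ∈ Z0 (OmL al be i) q ↔ q ∣ p := by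
  unfold Z0 OmL
  rw [if_pos hqi, insert_empty, mem_singleton]
  exact ⟨Nat.dvd_of_mod_eq_zero, Nat.mod_eq_zero_of_dvd⟩

/-- the values of the other forms -/
lemma fm_rel {k : ℕ} (al : Fin k → ℕ) (be : Fin k → ℤ) (i l : Fin k) (n : ℕ) :
    (al l : ℤ) * (fm al be i n - be i) + al i * be l = al i * fm al be l n := by
  unfold fm
  ring

/-- the data of the system -/
theorem datL {k : ℕ} (al : Fin k → ℕ) (be : Fin k → ℤ) (i j : Fin k) (hij : i ≠ j)
    (hadm : AdmS al be) (Y : ℕ) :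
    DatL k Y (al j) (al i) ((al j : ℤ) * be i - al i * be j) (OmL al be i) := by
  classical
  constructor
  · intro q hq
    have hqp := Pr_prime hq
    have hqZ := Nat.prime_iff_prime_int.1 hqp
    by_cases hqi : q ∣ al i
    · have h1 : OmL al be i q = ∅ := by
        unfold OmL
        rw [if_pos hqi]
      rw [h1]
      refine ⟨by simp, by simpa using hqp.one_lt, notMem_empty 0, fun c hc => absurd hc (notMem_empty c)⟩
    have hqi' : ¬ (q : ℤ) ∣ (al i : ℤ) := fun h => hqi (Int.natCast_dvd_natCast.1 h)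
    have h0 : 0 ∉ OmL al be i q := by
      unfold OmL
      rw [if_neg hqi, mem_filter, mem_erase]
      exact fun h => h.1.1 rfl
    have hlt : ∀ c ∈ OmL al be i q, c < q := by
      intro c hc
      unfold OmL at hc
      rw [if_neg hqi, mem_filter, mem_erase, mem_range] at hc
      exact hc.1.2
    obtain ⟨nq, hnq⟩ := hadm q hqp
    refine ⟨?_, ?_, h0, hlt⟩
    · -- at most one class for every form
      have hsub : OmL al be i q ⊆ (univ : Finset (Fin k)).biUnion (fun l => (range q).filter (fun c : ℕ =>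
          l ≠ i ∧ (q : ℤ) ∣ (al l : ℤ) * ((c : ℤ) - be i) + al i * be l)) := by
        intro c hc
        unfold OmL at hc
        rw [if_neg hqi, mem_filter, mem_erase, mem_range] at hc
        obtain ⟨⟨_, h1⟩, l, hl, h2⟩ := hc
        rw [mem_biUnion]
        exact ⟨l, mem_univ l, mem_filter.2 ⟨mem_range.2 h1, hl, h2⟩⟩
      refine (card_le_card hsub).trans (card_biUnion_le.trans ?_)
      have h1 : ∀ l ∈ (univ : Finset (Fin k)), ((range q).filter (fun c : ℕ =>
          l ≠ i ∧ (q : ℤ) ∣ (al l : ℤ) * ((c : ℤ) - be i) + al i * be l)).card ≤ 1 := by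
        intro l _
        rw [card_le_one]
        intro c hc c' hc'
        rw [mem_filter, mem_range] at hc hc'
        have h3 : (q : ℤ) ∣ (al l : ℤ) * ((c : ℤ) - c') := by
          have h4 := dvd_sub hc.2.2 hc'.2.2
          have h5 : (al l : ℤ) * ((c : ℤ) - be i) + al i * be l - ((al l : ℤ) * ((c' : ℤ) - be i) + al i * be l) =
              (al l : ℤ) * ((c : ℤ) - c') := by ring
          rwa [h5] at h4
        rcases hqZ.dvd_or_dvd h3 with h4 | h4
        · exfalso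
          have h5 : (q : ℤ) ∣ (al i : ℤ) * be l := (dvd_add_right (h4.mul_right ((c : ℤ) - be i))).1 hc.2.2
          rcases hqZ.dvd_or_dvd h5 with h6 | h6
          · exact hqi' h6
          · apply hnq l
            unfold fm
            exact dvd_add (h4.mul_right _) h6
        · have h5 : (c' : ℤ) ≡ c [ZMOD q] := (Int.modEq_iff_dvd).2 h4
          have h6 : c' ≡ c [MOD q] := (Int.natCast_modEq_iff).1 h5
          exact (Nat.ModEq.eq_of_lt_of_lt h6 hc'.1 hc.1).symm
      have h2 := sum_le_card_nsmul _ _ _ h1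
      rw [card_univ, Fintype.card_fin, smul_eq_mul, mul_one] at h2
      exact h2
    · -- a free class
      obtain ⟨c, hc⟩ : ∃ c : ℕ, c = hr (fm al be i nq) q := ⟨_, rfl⟩
      have hcq : c < q := by rw [hc]; exact hr_lt _ hqp.pos
      have hcz : (c : ℤ) ≡ fm al be i nq [ZMOD q] := by
        rw [hc, hr_cast _ hqp.pos]
        exact Int.mod_modEq _ _
      have hcn : c % q ∉ Z0 (OmL al be i) q := by
        rw [mem_Z0_OmL hqp.pos hqi]
        rintro (h1 | ⟨l, hl, h1⟩)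
        · apply hnq i
          exact hcz.dvd_iff.1 (Int.natCast_dvd_natCast.2 h1)
        · have h2 : (al l : ℤ) * ((c : ℤ) - be i) + al i * be l ≡ al i * fm al be l nq [ZMOD q] := by
            rw [← fm_rel al be i l nq]
            exact ((hcz.sub_right _).mul_left _).add_right _
          have h3 := h2.dvd_iff.1 h1
          rcases hqZ.dvd_or_dvd h3 with h4 | h4
          · exact hqi' h4
          · exact hnq l h4
      rw [Nat.mod_eq_of_lt hcq] at hcn
      unfold Z0 at hcn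
      rw [mem_insert, not_or] at hcn
      have hsub : insert 0 (insert c (OmL al be i q)) ⊆ range q := by
        intro x hx
        rw [mem_insert, mem_insert] at hx
        rw [mem_range]
        rcases hx with rfl | rfl | hx
        · exact hqp.pos
        · exact hcq
        · exact hlt x hx
      have h1 := card_le_card hsub
      rw [card_range, card_insert_of_notMem, card_insert_of_notMem hcn.2] at h1
      · omega
      · rw [mem_insert, not_or]
        exact ⟨fun h => hcn.1 h.symm, h0⟩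
  · intro q hq hqn
    have hqp := Pr_prime hq
    have hqj : ¬ q ∣ al j := fun h => hqn (h.mul_right _)
    have hqi : ¬ q ∣ al i := fun h => hqn (h.mul_left _)
    obtain ⟨c, hc⟩ : ∃ c : ℕ, c = hr (((al j : ℤ) * be i - al i * be j) * iv (al j) q) q := ⟨_, rfl⟩
    have hcq : c < q := by rw [hc]; exact hr_lt _ hqp.pos
    rw [← hc]
    have h1 : c % q ∈ Z0 (OmL al be i) q := by
      rw [mem_Z0_OmL hqp.pos hqi]
      right
      refine ⟨j, hij.symm, ?_⟩
      have hcz : (c : ℤ) ≡ ((al j : ℤ) * be i - al i * be j) * iv (al j) q [ZMOD q] := by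
        rw [hc, hr_cast _ hqp.pos]
        exact Int.mod_modEq _ _
      have h2 : ((al j).gcd q : ℤ) = al j * (al j).gcdA q + q * (al j).gcdB q := Nat.gcd_eq_gcd_ab _ _
      have h3 : (al j).gcd q = 1 := by
        have := (Nat.Prime.coprime_iff_not_dvd hqp).2 hqj
        rw [Nat.gcd_comm]
        exact this
      rw [h3] at h2
      have h4 : (al j : ℤ) * ((c : ℤ) - be i) + al i * be j =
          al j * c - ((al j : ℤ) * be i - al i * be j) := by ring
      rw [h4]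
      have h5 : (al j : ℤ) * c ≡ ((al j : ℤ) * be i - al i * be j) [ZMOD q] := by
        have h6 := hcz.mul_left (al j : ℤ)
        refine h6.trans ?_
        unfold iv
        rw [Int.modEq_iff_dvd]
        refine ⟨((al j : ℤ) * be i - al i * be j) * (al j).gcdB q, ?_⟩
        push_cast at h2
        linear_combination ((al j : ℤ) * be i - al i * be j) * h2
      exact (Int.modEq_iff_dvd).1 h5.symm
    rwa [Nat.mod_eq_of_lt hcq] at h1

/-- sizes -/
theorem sizes (α γ : ℕ) (hα : 1 ≤ α) (hγ : 1 ≤ γ) (X D : ℝ) (hX : 100 ≤ X) (hX2 : 2 * (α * γ : ℝ) ≤ X) (hD : 0 ≤ D)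
    (hDX : D ≤ X / 8) (M K A B : ℕ) (hM : M = 2 * (α * γ) * ⌈X⌉₊) (hK : K = ⌈D⌉₊) (hA : A = ⌈γ * X⌉₊ + K)
    (hB : B = ⌊2 * γ * X⌋₊ - K) :
    2 * X ≤ M ∧ (γ : ℝ) * X + D ≤ A ∧ (B : ℝ) + D ≤ 2 * γ * X ∧ Nat.sqrt M ≤ A ∧ A ≤ B ∧ α * B ≤ M ∧
      1 / (8 * (α : ℝ)) * M ≤ (B : ℝ) - A ∧ 2 * (α * γ) * X ≤ M ∧ (M : ℝ) ≤ 2 * (α * γ) * (X + 1) := by
  have hX0 : 0 < X := by linarith
  have hα1 : (1 : ℝ) ≤ α := by exact_mod_cast hα
  have hγ1 : (1 : ℝ) ≤ γ := by exact_mod_cast hγ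
  have hag : (1 : ℝ) ≤ α * γ := by nlinarith
  have hce1 : X ≤ (⌈X⌉₊ : ℝ) := Nat.le_ceil X
  have hce2 : (⌈X⌉₊ : ℝ) < X + 1 := Nat.ceil_lt_add_one hX0.le
  have hMe : (M : ℝ) = 2 * (α * γ) * (⌈X⌉₊ : ℝ) := by rw [hM]; push_cast; ring
  have hM1 : 2 * (α * γ) * X ≤ M := by rw [hMe]; gcongr
  have hM2 : (M : ℝ) ≤ 2 * (α * γ) * (X + 1) := by rw [hMe]; gcongr
  have hM3 : 2 * X ≤ M := by nlinarith
  have hK1 : D ≤ K := by rw [hK]; exact Nat.le_ceil D
  have hK2 : (K : ℝ) < D + 1 := by rw [hK]; exact Nat.ceil_lt_add_one hD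
  have hγX : X ≤ γ * X := by nlinarith
  have hA1 : (γ : ℝ) * X + K ≤ A := by
    rw [hA]
    push_cast
    have := Nat.le_ceil ((γ : ℝ) * X)
    linarith
  have hA2 : (A : ℝ) < γ * X + 1 + K := by
    rw [hA]
    push_cast
    have := Nat.ceil_lt_add_one (show 0 ≤ (γ : ℝ) * X by positivity)
    linarith
  have hKB : K ≤ ⌊2 * γ * X⌋₊ := by
    apply Nat.le_floor
    nlinarith
  have hBK : B + K = ⌊2 * γ * X⌋₊ := by omega
  have hBK' : (B : ℝ) + K = (⌊2 * γ * X⌋₊ : ℝ) := by exact_mod_cast hBK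
  have hB1 : (B : ℝ) + K ≤ 2 * γ * X := by
    rw [hBK']
    exact Nat.floor_le (by positivity)
  have hB2 : 2 * γ * X < (B : ℝ) + K + 1 := by
    rw [hBK']
    exact Nat.lt_floor_add_one _
  have hAB : (A : ℝ) ≤ B := by nlinarith
  have hth : 1 / (8 * (α : ℝ)) * M ≤ (B : ℝ) - A := by
    have h1 : 1 / (8 * (α : ℝ)) * M ≤ 1 / (8 * (α : ℝ)) * (2 * (α * γ) * (X + 1)) := by gcongr
    have h2 : 1 / (8 * (α : ℝ)) * (2 * (α * γ) * (X + 1)) = γ * (X + 1) / 4 := by
      field_simp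
      ring
    rw [h2] at h1
    nlinarith
  refine ⟨hM3, by linarith, by linarith, ?_, by exact_mod_cast hAB, ?_, hth, hM1, hM2⟩
  · have h1 : M < (A + 1) ^ 2 := by
      have h2 : (M : ℝ) < ((A : ℝ) + 1) ^ 2 := by
        have h3 : X + 1 ≤ (A : ℝ) + 1 := by linarith
        have h4 : (X + 1) ^ 2 ≤ ((A : ℝ) + 1) ^ 2 := by gcongr
        nlinarith
      exact_mod_cast h2
    have := Nat.sqrt_lt'.2 h1
    omega
  · have h1 : ((α * B : ℕ) : ℝ) ≤ M := by
      push_cast
      have h2 : (α : ℝ) * B ≤ α * (2 * γ * X) := by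
        gcongr
        linarith
      linarith
    exact_mod_cast h1

/-- Chen's theorem in systems of linear forms -/
theorem lpat : St_LPAT := by
  classical
  intro hCOVA hCWL k al hal i j hij
  have hk : 1 ≤ k := by
    have := i.2
    omega
  have hα1 : 1 ≤ al j := hal j
  have hγ1 : 1 ≤ al i := hal i
  have hα1r : (1 : ℝ) ≤ al j := by exact_mod_cast hα1
  have hγ1r : (1 : ℝ) ≤ al i := by exact_mod_cast hγ1
  obtain ⟨t, ht, c, hc, X1, PP, hPP, hW⟩ := hCWL k (al j) (al i) hα1 hγ1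
  have ht0 : (0 : ℝ) < t := by exact_mod_cast ht
  obtain ⟨Q, hQ⟩ : ∃ Q, Q = Qf al := ⟨_, rfl⟩
  have hQ1 : 1 ≤ Q := by rw [hQ]; exact Qf_pos hal
  have hQ1r : (1 : ℝ) ≤ Q := by exact_mod_cast hQ1
  obtain ⟨cc, hcc, X3, hcov⟩ := hCOVA k Q hk hQ1
  obtain ⟨X2, hX2⟩ := hW (1 / (8 * (al j : ℝ))) (by positivity) (by
    rw [div_le_one (by positivity)]
    linarith)
  obtain ⟨X4, hX4⟩ := Rk_scaleL (al j * al i) (Nat.mul_pos hα1 hγ1)
  obtain ⟨cV, hcV, hV⟩ := VV_low (k + 1)
  obtain ⟨X5, hX5⟩ := ev_fin t (2 * (k + 1)) ht (c * (2 * (1 / (8 * (al j : ℝ))))) cV (by positivity) hcV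
  obtain ⟨c', hc'⟩ : ∃ c' : ℝ, c' = cc / (2000 * Q) := ⟨_, rfl⟩
  have hc'0 : 0 < c' := by rw [hc']; positivity
  obtain ⟨X6, hX6⟩ := Pool.Agent.Q117.GP.window_le (8 * c') (by positivity)
  obtain ⟨X8, hX8⟩ := Rk_large c' hc'0 2
  obtain ⟨X9, hX9⟩ := ev_cond t (al j * al i + 2) 1 1 ht 1 one_pos 1
  have hrp : Tendsto (fun X : ℝ => X ^ (1 / 100 : ℝ)) atTop atTop := tendsto_rpow_atTop (by norm_num)
  obtain ⟨X7, hX7⟩ := eventually_atTop.1 (hrp.eventually (eventually_ge_atTop X3))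
  have hrt : Tendsto (fun X : ℝ => X ^ (1 / (t : ℝ))) atTop atTop := tendsto_rpow_atTop (by positivity)
  obtain ⟨X10, hX10⟩ := eventually_atTop.1 (hrt.eventually (eventually_ge_atTop ((∑ l, al l : ℕ) : ℝ)))
  obtain ⟨X11, hX11⟩ := eventually_atTop.1 (Real.tendsto_log_atTop.eventually
    (eventually_ge_atTop (max ((∑ l, al l : ℕ) : ℝ) (Real.log (4 * (al j * al i : ℝ))))))
  refine ⟨t, ht, c', hc'0, max (max (max X1 X2) (max X4 X5)) (max (max (max X6 X7) (max X8 X9))
    (max (max X10 X11) (max 100 (2 * (al j * al i : ℝ))))), ?_⟩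
  intro X hX be hbe hne hadm
  simp only [max_le_iff] at hX
  obtain ⟨⟨⟨g1, g2⟩, g4, g5⟩, ⟨⟨g6, g7⟩, g8, g9⟩, ⟨g10, g11⟩, g12, g13⟩ := hX
  have hX0 : 0 < X := by linarith
  obtain ⟨D, hD⟩ : ∃ D : ℝ, D = c' * Rk X := ⟨_, rfl⟩
  have hD2 : 2 ≤ D := by rw [hD]; exact hX8 X g8
  have hDX : D ≤ X / 8 := by
    have := hX6 X g6
    rw [mul_assoc, ← hD] at this
    linarith
  obtain ⟨M, hM⟩ : ∃ M : ℕ, M = 2 * (al j * al i) * ⌈X⌉₊ := ⟨_, rfl⟩
  obtain ⟨K, hK⟩ : ∃ K : ℕ, K = ⌈D⌉₊ := ⟨_, rfl⟩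
  obtain ⟨A, hA⟩ : ∃ A : ℕ, A = ⌈(al i : ℝ) * X⌉₊ + K := ⟨_, rfl⟩
  obtain ⟨B, hB⟩ : ∃ B : ℕ, B = ⌊2 * (al i : ℝ) * X⌋₊ - K := ⟨_, rfl⟩
  obtain ⟨s1, s2, s3, s4, s5, s6, s7, s8, s9⟩ := sizes (al j) (al i) hα1 hγ1 X D g12 g13 (by linarith) hDX M K A B hM hK hA hB
  have hXM : X ≤ M := by linarith
  have hM0 : (0 : ℝ) < M := by linarith
  have hMX1 : X1 ≤ M := by exact_mod_cast g1.trans hXM
  have hMX2 : X2 ≤ M := by exact_mod_cast g2.trans hXM
  have hMX5 : X5 ≤ M := by exact_mod_cast g5.trans hXM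
  have hMX9 : X9 ≤ M := by exact_mod_cast g9.trans hXM
  have hsc := hX4 X g4
  rw [← hM] at hsc
  rw [← hD] at hbe
  -- the shift
  obtain ⟨h, hh⟩ : ∃ h : ℤ, h = (al j : ℤ) * be i - al i * be j := ⟨_, rfl⟩
  have hh0 : h ≠ 0 := by
    rw [hh]
    intro h0
    exact hne j i hij.symm (by linarith)
  have hhM : h.natAbs ≤ M := by
    have h1 : |(h : ℝ)| ≤ M := by
      rw [hh]
      push_cast
      have h2 : |(al j : ℝ) * be i - al i * be j| ≤ al j * |(be i : ℝ)| + al i * |(be j : ℝ)| := by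
        have h3 := abs_sub ((al j : ℝ) * be i) ((al i : ℝ) * be j)
        rw [abs_mul, abs_mul, Nat.abs_cast, Nat.abs_cast] at h3
        exact h3
      have h4 : (al j : ℝ) * |(be i : ℝ)| ≤ al j * (X / 8) := by
        gcongr
        exact (hbe i).trans hDX
      have h5 : (al i : ℝ) * |(be j : ℝ)| ≤ al i * (X / 8) := by
        gcongr
        exact (hbe j).trans hDX
      have h6 : ((al j : ℝ) + al i) * X ≤ 2 * (al j * al i) * X := by
        apply mul_le_mul_of_nonneg_right _ hX0.le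
        nlinarith
      nlinarith
    have h2 : ((h.natAbs : ℕ) : ℝ) ≤ M := by
      rw [Nat.cast_natAbs]
      push_cast
      exact h1
    exact_mod_cast h2
  obtain ⟨S, hS, hmain⟩ := hX2 M hMX2 h hh0 hhM A B s4 s5 s6 s7
  obtain ⟨hps, -⟩ := hPP M hMX1
  obtain ⟨ps, hpsd⟩ : ∃ ps : ℕ, ps = PP M := ⟨_, rfl⟩
  rw [← hpsd] at hps hmain
  obtain ⟨W, hWd⟩ : ∃ W : ℕ, W = WX M S ps := ⟨_, rfl⟩
  rw [← hWd] at hmain
  have hW0 : 0 < W := by rw [hWd]; exact WX_pos _ _ _
  -- the covering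
  obtain ⟨O, hO⟩ : ∃ O : ℕ, O = ⌈2 * Q * D⌉₊ := ⟨_, rfl⟩
  have hO1 : 2 * Q * D ≤ O := by rw [hO]; exact Nat.le_ceil _
  have hO2 : (O : ℝ) < 2 * Q * D + 1 := by
    rw [hO]
    exact Nat.ceil_lt_add_one (by positivity)
  have hO3 : 2 * (O : ℝ) ≤ cc * Rk ((M : ℝ) ^ (1 / 100 : ℝ)) := by
    have h1 : 2 * (O : ℝ) ≤ 5 * (Q * D) := by nlinarith
    refine h1.trans ?_
    have h2 : 5 * (Q * D) ≤ 5 * (Q * (c' * (400 * Rk ((M : ℝ) ^ (1 / 100 : ℝ))))) := by
      rw [hD]
      gcongr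
    refine h2.trans (le_of_eq ?_)
    rw [hc']
    field_simp
    ring
  have hqdQ : ∀ l, (qd al l : ℝ) ≤ Q := by
    intro l
    have h1 : qd al l ≤ Q := by
      rw [hQ, ← al_mul_qd al l]
      exact Nat.le_mul_of_pos_left _ (hal l)
    exact_mod_cast h1
  have hrange : ∀ l, ∀ u : ℤ, |(u : ℝ)| ≤ D → 0 ≤ (O : ℤ) + qd al l * (be l + u) ∧
      (((O : ℤ) + qd al l * (be l + u) : ℤ) : ℝ) ≤ cc * Rk ((M : ℝ) ^ (1 / 100 : ℝ)) := by
    intro l u hu
    have h1 : |((qd al l : ℝ) * (be l + u))| ≤ 2 * Q * D := by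
      rw [abs_mul, Nat.abs_cast]
      have h2 : |(be l : ℝ) + u| ≤ 2 * D := by
        refine (abs_add_le _ _).trans ?_
        linarith [hbe l]
      calc (qd al l : ℝ) * |(be l : ℝ) + u| ≤ Q * (2 * D) :=
            mul_le_mul (hqdQ l) h2 (abs_nonneg _) (by positivity)
        _ = 2 * Q * D := by ring
    have h3 := abs_le.1 h1
    constructor
    · have h4 : (0 : ℝ) ≤ (((O : ℤ) + qd al l * (be l + u) : ℤ) : ℝ) := by
        push_cast
        linarith
      exact_mod_cast h4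
    · refine le_trans ?_ hO3
      push_cast
      linarith
  obtain ⟨H, hHd⟩ : ∃ H : Finset ℕ, H = univ.image (fun l : Fin k => ((O : ℤ) + qd al l * be l).toNat) := ⟨_, rfl⟩
  have hnn : ∀ l, 0 ≤ (O : ℤ) + qd al l * be l := by
    intro l
    have := (hrange l 0 (by simpa using (show 0 ≤ D by linarith))).1
    rwa [add_zero] at this
  have hH : ∀ x : ℕ, x ∈ H ↔ ∃ l, (x : ℤ) = O + qd al l * be l := by
    intro x
    rw [hHd, mem_image]
    constructor
    · rintro ⟨l, _, hl⟩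
      refine ⟨l, ?_⟩
      rw [← hl, Int.toNat_of_nonneg (hnn l)]
    · rintro ⟨l, hl⟩
      refine ⟨l, mem_univ l, ?_⟩
      rw [← hl, Int.toNat_natCast]
  have hinj : ∀ l m, (qd al l : ℤ) * be l = qd al m * be m → l = m := by
    intro l m hlm
    by_contra hcon
    apply hne l m hcon
    have h1 := al_mul_qdZ al l
    have h2 := al_mul_qdZ al m
    have h3 : (0 : ℤ) < Qf al := by exact_mod_cast Qf_pos hal
    have h4 : (Qf al : ℤ) * (al l * be m) = Qf al * (al m * be l) := by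
      calc (Qf al : ℤ) * (al l * be m) = (al m * qd al m) * (al l * be m) := by rw [h2]
        _ = al m * al l * (qd al m * be m) := by ring
        _ = al m * al l * (qd al l * be l) := by rw [hlm]
        _ = (al l * qd al l) * (al m * be l) := by ring
        _ = Qf al * (al m * be l) := by rw [h1]
    exact mul_left_cancel₀ h3.ne' h4
  have hHc : H.card = k := by
    rw [hHd, card_image_of_injective, card_univ, Fintype.card_fin]
    intro l m hlm
    simp only at hlm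
    apply hinj
    have h1 := Int.toNat_of_nonneg (hnn l)
    have h2 := Int.toNat_of_nonneg (hnn m)
    rw [hlm, h2] at h1
    linarith
  have hHle : ∀ x ∈ H, (x : ℝ) ≤ cc * Rk ((M : ℝ) ^ (1 / 100 : ℝ)) := by
    intro x hx
    obtain ⟨l, hl⟩ := (hH x).1 hx
    have h1 := (hrange l 0 (by simpa using (show 0 ≤ D by linarith))).2
    rw [add_zero, ← hl] at h1
    exact_mod_cast h1
  have hAdm : AdmA Q H := by
    intro p hp hpQ
    obtain ⟨n, hn⟩ := hadm p hp
    refine ⟨Q * n + O * (p - 1), ?_⟩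
    intro x hx hd
    obtain ⟨l, hl⟩ := (hH x).1 hx
    have h1 : (p : ℤ) ∣ ((Q * n + O * (p - 1) + x : ℕ) : ℤ) := Int.natCast_dvd_natCast.2 hd
    have h2 : ((Q * n + O * (p - 1) + x : ℕ) : ℤ) = (qd al l : ℤ) * (fm al be l n + 0) + O * p := by
      rw [qd_fm, ← hQ, add_zero]
      have := hp.pos
      push_cast [Nat.cast_sub (show 1 ≤ p by omega)]
      rw [hl]
      ring
    rw [h2, add_zero] at h1
    have h3 := (dvd_add_left (Dvd.intro_left _ rfl : (p : ℤ) ∣ (O : ℤ) * p)).1 h1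
    rcases (Nat.prime_iff_prime_int.1 hp).dvd_or_dvd h3 with h4 | h4
    · apply hpQ
      rw [hQ, ← al_mul_qd al l]
      exact (Int.natCast_dvd_natCast.1 h4).mul_left _
    · exact hn l h4
  have hX3 : X3 ≤ (M : ℝ) ^ (1 / 100 : ℝ) := hX7 M (g7.trans hXM)
  have hps2 : GoodP 2 ps := by
    rcases hps with h1 | ⟨h1, h2⟩
    · exact Or.inl h1
    · exact Or.inr ⟨h1, by omega⟩
  obtain ⟨a0, ha0⟩ := hcov _ hX3 ps S hps2 hS H hHc hHle hAdm
  have hWX : WW ((M : ℝ) ^ (1 / 100 : ℝ)) S ps = W := by rw [hWd]; rfl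
  rw [hWX, hQ] at ha0
  obtain ⟨n₁, a, han, hno, hwin⟩ := choose_n al be hal i hadm W O a0 hW0 H D _ (by linarith) hH hrange ha0
  obtain ⟨Y, hYd⟩ : ∃ Y : ℕ, Y = ⌊(M : ℝ) ^ (1 / (t : ℝ))⌋₊ := ⟨_, rfl⟩
  rw [← hYd] at hmain
  have hDat := datL al be i j hij hadm Y
  rw [← hh] at hDat
  have hneg : h - (al j : ℤ) * a = -(al i * fm al be j n₁) := by
    rw [han, hh]
    unfold fm
    ring
  have hγ0 : (al i : ℤ) ≠ 0 := by
    have : al i ≠ 0 := by omega
    exact_mod_cast this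
  have h1 := hmain (OmL al be i) hDat a (by
    intro q hq hqW
    have hqp := Pr_prime hq
    have hqa : ¬ q ∣ a := by
      intro hd
      apply hno q hqp hqW i
      rw [← han]
      exact Int.natCast_dvd_natCast.2 hd
    by_cases hqi : q ∣ al i
    · rw [mem_Z0_OmL' hqi]
      exact hqa
    · rw [mem_Z0_OmL hqp.pos hqi]
      rintro (h1 | ⟨l, hl, h1⟩)
      · exact hqa h1
      · rw [han, fm_rel] at h1
        rcases (Nat.prime_iff_prime_int.1 hqp).dvd_or_dvd h1 with h4 | h4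
        · exact hqi (Int.natCast_dvd_natCast.1 h4)
        · exact hno q hqp hqW l h4) (by
    rw [hneg]
    exact (Dvd.intro _ rfl : (al i : ℤ) ∣ al i * fm al be j n₁).neg_right) (by
    intro q hq hqW
    rw [hneg, ← mul_neg, Int.mul_ediv_cancel_left _ hγ0, dvd_neg]
    exact hno q hq hqW j)
  obtain ⟨q1, q2, q3, q4, q5⟩ := hX5 M hMX5
  rw [← hYd] at q2 q3
  -- the size of the lower bound
  have hlow : X ^ (99 / 100 : ℝ) ≤ c * ((((B : ℝ) - A) / (W : ℝ)) * VD (OmL al be i) (W * ps) Y) := by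
    have hWr : (0 : ℝ) < W := by exact_mod_cast hW0
    have hWle : (W : ℝ) ≤ (M : ℝ) ^ (1 / 50000 : ℝ) := by
      rw [hWd]
      exact WX_le (by linarith) _ _
    have hYM : (Y : ℝ) ≤ M := by
      have h2 : (Y : ℝ) ≤ (M : ℝ) ^ (1 / (t : ℝ)) := by rw [hYd]; exact Nat.floor_le (by positivity)
      refine h2.trans ?_
      calc (M : ℝ) ^ (1 / (t : ℝ)) ≤ (M : ℝ) ^ (1 : ℝ) := by
            apply Real.rpow_le_rpow_of_exponent_le (by linarith)
            rw [div_le_one ht0]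
            exact_mod_cast ht
        _ = M := Real.rpow_one _
    have hVX := VV_ge (K := 2 * (k + 1)) hDat.adm (hV Y (by omega)) hcV hYM (by omega)
    have hVD := hVX.trans (VV_le_VD hDat.adm (W * ps))
    have hlM : 0 < Real.log M := by linarith
    have h3 : X ^ (99 / 100 : ℝ) ≤ (M : ℝ) ^ (999 / 1000 : ℝ) := by
      calc X ^ (99 / 100 : ℝ) ≤ (M : ℝ) ^ (99 / 100 : ℝ) := Real.rpow_le_rpow hX0.le hXM (by norm_num)
        _ ≤ (M : ℝ) ^ (999 / 1000 : ℝ) := Real.rpow_le_rpow_of_exponent_le (by linarith) (by norm_num)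
    refine h3.trans (q1.trans ?_)
    have h4 : c * (2 * (1 / (8 * (al j : ℝ)))) * ((M : ℝ) / 2 / (M : ℝ) ^ (1 / 50000 : ℝ) *
        (cV / Real.log M ^ (2 * (k + 1)))) =
        c * ((1 / (8 * (al j : ℝ)) * M) / (M : ℝ) ^ (1 / 50000 : ℝ) * (cV / Real.log M ^ (2 * (k + 1)))) := by
      ring
    rw [h4]
    have hBA0 : (0 : ℝ) ≤ (B : ℝ) - A := le_trans (by positivity) s7
    apply mul_le_mul_of_nonneg_left _ hc.le
    apply mul_le_mul _ hVD (by positivity)
    · exact div_nonneg hBA0 hWr.le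
    · exact div_le_div₀ hBA0 s7 hWr hWle
  refine (hlow.trans h1).trans ?_
  rw [Nat.cast_le]
  -- the points
  have hpt : ∀ p : ℕ, p ≡ a [MOD W * al i] → ∃ z : ℤ, (p : ℤ) = al i * z + be i ∧ z ≡ n₁ [ZMOD W] := by
    intro p hp
    have h2 : ((W * al i : ℕ) : ℤ) ∣ (a : ℤ) - p := Nat.modEq_iff_dvd.1 hp
    obtain ⟨w, hw⟩ := h2
    refine ⟨n₁ - W * w, ?_, ?_⟩
    · have h3 : (p : ℤ) = a - ((W * al i : ℕ) : ℤ) * w := by linarith
      rw [h3, han]
      unfold fm
      push_cast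
      ring
    · rw [Int.modEq_iff_dvd]
      exact ⟨w, by ring⟩
  have hpt2 : ∀ p : ℕ, p ∈ GWL (al j) (al i) A B (Nat.sqrt M) Y (W * al i) a h (OmL al be i) →
      ∃ n : ℕ, ((p : ℤ) - be i) / al i = n ∧ (p : ℤ) = fm al be i n ∧ n ≡ n₁ [MOD W] ∧ X < n ∧ (n : ℝ) ≤ 2 * X := by
    intro p hp
    unfold GWL at hp
    rw [mem_filter] at hp
    obtain ⟨hpP, hpa, _⟩ := hp
    unfold PNX at hpP
    rw [mem_filter, mem_Ioc] at hpP
    obtain ⟨⟨hpA, hpB⟩, hpp⟩ := hpP
    obtain ⟨z, hz1, hz2⟩ := hpt p hpa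
    have hpA' : (A : ℝ) + 1 ≤ p := by exact_mod_cast hpA
    have hpB' : (p : ℝ) ≤ B := by exact_mod_cast hpB
    have hz1' : (p : ℝ) = al i * z + be i := by exact_mod_cast hz1
    have hbi := abs_le.1 (hbe i)
    have hz3 : X < z := by
      have h2 : (al i : ℝ) * X < al i * z := by linarith
      exact lt_of_mul_lt_mul_left h2 (by linarith)
    have hz4 : (z : ℝ) ≤ 2 * X := by
      have h2 : (al i : ℝ) * z ≤ al i * (2 * X) := by linarith
      exact le_of_mul_le_mul_left h2 (by linarith)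
    have hz0 : 0 ≤ z := by
      have : (0 : ℝ) ≤ z := by linarith
      exact_mod_cast this
    obtain ⟨n, rfl⟩ := Int.eq_ofNat_of_zero_le hz0
    refine ⟨n, ?_, ?_, (Int.natCast_modEq_iff).1 hz2, by exact_mod_cast hz3, by exact_mod_cast hz4⟩
    · have h2 : (p : ℤ) - be i = al i * n := by linarith
      rw [h2, Int.mul_ediv_cancel_left _ hγ0]
    · rw [hz1]
      rfl
  apply card_le_card_of_injOn (fun p : ℕ => (((p : ℤ) - be i) / al i).toNat)
  · intro p hp
    rw [mem_coe] at hp ⊢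
    obtain ⟨n, hn1, hn2, hn3, hn4, hn5⟩ := hpt2 p hp
    show (((p : ℤ) - be i) / al i).toNat ∈ _
    rw [hn1, Int.toNat_natCast]
    unfold GWL at hp
    rw [mem_filter] at hp
    obtain ⟨hpP, _, hpZ, hpn0, hplen, hpfac⟩ := hp
    unfold PNX at hpP
    rw [mem_filter, mem_Ioc] at hpP
    have hnnj : nn (al j) (al i) h p = (fm al be j n).natAbs := by
      unfold nn
      have h2 : h - (al j : ℤ) * p = -(al i * fm al be j n) := by
        rw [hn2, hh]
        unfold fm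
        ring
      rw [h2, Int.natAbs_neg, Int.natAbs_mul, Int.natAbs_natCast, Nat.mul_div_cancel_left _ hγ1]
    rw [hnnj] at hpn0 hplen hpfac
    have hnX : ∀ q : ℕ, q ∣ W → ∀ l, ∀ u : ℤ, ((q : ℤ) ∣ fm al be l n + u ↔ (q : ℤ) ∣ fm al be l n₁ + u) := by
      intro q hqW l u
      have h2 : (n : ℤ) ≡ n₁ [ZMOD q] := ((Int.natCast_modEq_iff).2 hn3).of_dvd (Int.natCast_dvd_natCast.2 hqW)
      have h3 : fm al be l n + u ≡ fm al be l n₁ + u [ZMOD q] := by
        unfold fm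
        exact ((h2.mul_left _).add_right _).add_right _
      exact h3.dvd_iff
    have hrough : ∀ l, ∀ q : ℕ, q.Prime → (q : ℝ) ≤ X ^ (1 / (t : ℝ)) → ¬ (q : ℤ) ∣ fm al be l n := by
      intro l q hq hqX hd
      have hqY : q ∈ Pr 0 Y := by
        rw [Pr_mem]
        refine ⟨⟨hq.pos, ?_⟩, hq⟩
        rw [hYd]
        apply Nat.le_floor
        exact hqX.trans (Real.rpow_le_rpow hX0.le hXM (by positivity))
      have h2 := hpZ q hqY
      by_cases hqi : q ∣ al i
      · -- the primes of `γ` divide `W`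
        have hqW : q ∣ W := by
          obtain ⟨_, _, e1, e2, _⟩ := hX9 M hMX9
          rw [hWd]
          apply small_dvd hq _ hS hps e1 e2
          have h3 := Nat.le_of_dvd (by omega) hqi
          have h4 : al i ≤ al j * al i := Nat.le_mul_of_pos_left _ hα1
          omega
        apply hno q hq hqW l
        have h3 := (hnX q hqW l 0).1 (by rwa [add_zero])
        rwa [add_zero] at h3
      · rw [mem_Z0_OmL hq.pos hqi] at h2
        apply h2
        by_cases hli : l = i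
        · left
          rw [hli, ← hn2] at hd
          exact Int.natCast_dvd_natCast.1 hd
        · right
          refine ⟨l, hli, ?_⟩
          rw [hn2, fm_rel]
          exact hd.mul_left _
    have hal' : ∀ l, al l ≤ ∑ m, al m := fun l => single_le_sum (fun m _ => Nat.zero_le _) (mem_univ l)
    unfold PtsL
    rw [mem_filter, mem_range]
    refine ⟨?_, hn4, ?_, ?_, hplen, ?_, hrough, ?_⟩
    · have := Nat.le_floor hn5
      omega
    · intro l
      unfold fm
      have h2 : (0 : ℝ) < (al l : ℝ) * n + be l := by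
        have h3 : (1 : ℝ) ≤ al l := by exact_mod_cast hal l
        have h4 := abs_le.1 (hbe l)
        nlinarith
      exact_mod_cast h2
    · rw [← hn2, Int.natAbs_natCast]
      exact hpP.2
    · intro q hq hd
      refine lt_of_lt_of_le ?_ (hpfac q hq (Int.natCast_dvd.1 hd))
      refine lt_of_le_of_lt ?_ q5
      apply Real.rpow_le_rpow hX0.le _ (by norm_num)
      linarith
    · intro l s hs hs2
      rw [← hD] at hs
      by_cases hcase : ∀ m, (qd al l : ℤ) * (be l + s) ≠ qd al m * be m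
      · obtain ⟨q, hq, hqW, hqd⟩ := hwin l s hs hcase
        refine ⟨q, hq, ?_, (hnX q hqW l s).2 hqd⟩
        rw [hWd, prime_dvd_WX hq] at hqW
        have h4 : (q : ℝ) ≤ yy ((M : ℝ) ^ (1 / 100 : ℝ)) := by exact_mod_cast hqW.1
        have h5 : (yy ((M : ℝ) ^ (1 / 100 : ℝ)) : ℝ) ≤ Real.log ((M : ℝ) ^ (1 / 100 : ℝ)) / 1000 := by
          apply Nat.floor_le
          apply div_nonneg _ (by norm_num)
          apply Real.log_nonneg
          exact Real.one_le_rpow (by linarith) (by norm_num)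
        rw [Real.log_rpow hM0] at h5
        have h6 : Real.log M ≤ Real.log (4 * (al j * al i : ℝ)) + Real.log X := by
          rw [← Real.log_mul (by positivity) hX0.ne']
          apply Real.log_le_log hM0
          refine s9.trans ?_
          nlinarith [show (0 : ℝ) < al j * al i by positivity]
        have h7 := (le_max_right _ _).trans (hX11 X g11)
        have h8 : 0 ≤ Real.log X := Real.log_nonneg (by linarith)
        linarith
      · push Not at hcase
        obtain ⟨m, hm⟩ := hcase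
        -- `al m (fm l n + s) = al l fm m n`
        have h2 : (al m : ℤ) * (fm al be l n + s) = al l * fm al be m n := by
          have e1 := al_mul_qdZ al l
          have e2 := al_mul_qdZ al m
          have e3 : (0 : ℤ) < Qf al := by exact_mod_cast Qf_pos hal
          have e4 : (Qf al : ℤ) * (al m * (be l + s)) = Qf al * (al l * be m) := by
            calc (Qf al : ℤ) * (al m * (be l + s)) = (al l * qd al l) * (al m * (be l + s)) := by rw [e1]
              _ = al l * al m * (qd al l * (be l + s)) := by ring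
              _ = al l * al m * (qd al m * be m) := by rw [hm]
              _ = (al m * qd al m) * (al l * be m) := by ring
              _ = Qf al * (al l * be m) := by rw [e2]
          have e5 := mul_left_cancel₀ e3.ne' e4
          unfold fm
          linear_combination e5
        have h3 : (al m).Coprime (fm al be m n).natAbs := by
          apply Nat.coprime_of_dvd
          intro q hq hqm hqd
          apply hrough m q hq _ (Int.natCast_dvd.2 hqd)
          have h4 : q ≤ ∑ m, al m := (Nat.le_of_dvd (hal m) hqm).trans (hal' m)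
          have h5 : (q : ℝ) ≤ ((∑ m, al m : ℕ) : ℝ) := by exact_mod_cast h4
          exact h5.trans (hX10 X g10)
        have h4 : al m ∣ al l := by
          have h5 : al m ∣ al l * (fm al be m n).natAbs := by
            have h6 : (al m : ℤ) ∣ al l * fm al be m n := ⟨_, h2.symm⟩
            have h7 := Int.natAbs_dvd_natAbs.2 h6
            rwa [Int.natAbs_mul, Int.natAbs_natCast, Int.natAbs_natCast] at h7
          exact h3.dvd_of_dvd_mul_right h5
        obtain ⟨e, he⟩ := h4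
        have h5 : fm al be l n + s = e * fm al be m n := by
          have h6 : (al m : ℤ) ≠ 0 := by
            have : al m ≠ 0 := by have := hal m; omega
            exact_mod_cast this
          apply mul_left_cancel₀ h6
          rw [h2, he]
          push_cast
          ring
        have he1 : e ≠ 1 := by
          intro h6
          apply hs2 m
          rw [h5, h6]
          simp
        have he0 : e ≠ 0 := by
          intro h6
          have := hal l
          rw [he, h6] at this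
          omega
        refine ⟨e.minFac, Nat.minFac_prime he1, ?_, ?_⟩
        · have h6 : e.minFac ≤ e := Nat.minFac_le (Nat.pos_of_ne_zero he0)
          have h7 : e ≤ al l := by
            rw [he]
            exact Nat.le_mul_of_pos_left _ (hal m)
          have h8 : ((e.minFac : ℕ) : ℝ) ≤ ((∑ m, al m : ℕ) : ℝ) := by
            exact_mod_cast h6.trans (h7.trans (hal' l))
          exact h8.trans ((le_max_left _ _).trans (hX11 X g11))
        · rw [h5]
          exact (Int.natCast_dvd_natCast.2 (Nat.minFac_dvd e)).mul_right _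
  · intro p hp p' hp' he
    rw [mem_coe] at hp hp'
    obtain ⟨n, hn1, hn2, _⟩ := hpt2 p hp
    obtain ⟨n', hn1', hn2', _⟩ := hpt2 p' hp'
    simp only at he
    rw [hn1, hn1', Int.toNat_natCast, Int.toNat_natCast] at he
    rw [he, ← hn2'] at hn2
    exact_mod_cast hn2

end Pool.Agent.Q117.LF
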