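import Pool.Agent.Q38.LF.Fsw

/-! Project LF (helper117), part 8, job FSW (helper38; the proof is in Q38/LF/Fsw.lean). -/

set_option autoImplicit false

namespace Pool.Agent.Q117.LF

theorem fsw : St_FSW := Pool.Agent.Q38.LF.fsw

end Pool.Agent.Q117.LF
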