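import Pool.Agent.Q257.LF.Nsv

/-! Project LF (helper117), part 7, job NSV (helper257; the proof is in Q257/LF/Nsv.lean). -/

set_option autoImplicit false

namespace Pool.Agent.Q117.LF

theorem nsv : St_NSV := Pool.Agent.Q257.LF.nsv

end Pool.Agent.Q117.LF
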