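import Pool.Agent.Q117.LF.Stm8
import Pool.Agent.Q117.LF.Nsc

/-! Project LF (helper117), job NSW (helper299): the natural scale theorem with a window for every member of the family. -/

set_option autoImplicit false

namespace Pool.Agent.Q117.LF

open Finset Filter

open NscAux in
theorem nsw : St_NSW := by
  classical
  intro hQ hU hP hA hO r A hA1 g s A' hs hB1 K hK i j hij
  obtain ⟨t, ht, c₀, hc₀, X0, hX0⟩ := hQ r (A i) (A j) K (hA1 i) (hA1 j) hK
  refine ⟨t, ht, fun T hT => ?_⟩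
  have hT1 : 1 ≤ T := ht.trans hT
  have hper := fun γ => per_sys hU hP hA hO r (s γ) A (A' γ) hA1 (hs γ) (hB1 γ) K T hT1
  choose C hC Xg hXg using hper
  obtain ⟨C'', hC''⟩ : ∃ C'' : ℝ, C'' = ∑ γ, C γ + 1 := ⟨_, rfl⟩
  have hC''0 : 0 < C'' := by
    rw [hC'']
    have := sum_nonneg (s := (univ : Finset (Fin g))) (fun γ _ => (hC γ).le)
    linarith
  obtain ⟨ν, hν⟩ : ∃ ν : ℝ, ν = c₀ / (4 * C'') := ⟨_, rfl⟩
  have hν0 : 0 < ν := by rw [hν]; positivity
  obtain ⟨X7, hX7⟩ : ∃ X7 : ℝ, ∀ X : ℝ, X7 ≤ X → 1 / (Real.log X) ^ (1 / 2 : ℝ) ≤ ν := by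
    have h1 : Tendsto (fun X : ℝ => (Real.log X) ^ (1 / 2 : ℝ)) atTop atTop :=
      (tendsto_rpow_atTop (by norm_num : (0:ℝ) < 1 / 2)).comp Real.tendsto_log_atTop
    have h2 := h1.eventually_ge_atTop (1 / ν)
    obtain ⟨X7, hX7⟩ := eventually_atTop.1 h2
    refine ⟨X7, fun X hX => ?_⟩
    have h3 := hX7 X hX
    have h4 : 0 < 1 / ν := by positivity
    have h5 : 0 < (Real.log X) ^ (1 / 2 : ℝ) := h4.trans_le h3
    rw [div_le_iff₀ h5]
    rw [div_le_iff₀ hν0] at h3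
    linarith
  refine ⟨c₀ / 2, by positivity, ν, hν0, max (max X0 X7) (max 1 (max (∑ l, (A l : ℝ)) (∑ γ, |Xg γ|))), ?_⟩
  intro X hX be hbe hbi hindep hadm be' hbe' hadm' L hLall z hz1 hz2
  simp only [max_le_iff] at hX
  obtain ⟨⟨hx0, hx7⟩, hx1, hx2, hx3⟩ := hX
  have hXpos : 0 < X := by linarith
  have hxg : ∀ γ, Xg γ ≤ X := fun γ =>
    (le_abs_self _).trans ((single_le_sum (f := fun γ => |Xg γ|) (fun i _ => abs_nonneg _) (mem_univ γ)).trans hx3)
  have hAX : ∀ l, (A l : ℝ) ≤ X := fun l =>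
    (single_le_sum (f := fun l => (A l : ℝ)) (fun i _ => Nat.cast_nonneg _) (mem_univ l)).trans hx2
  obtain ⟨W, hW1, hW2, hW3, hW4⟩ := hX0 X hx0 A be i j hij rfl rfl (fun l => ⟨hA1 l, hAX l⟩) hbe hbi hindep hadm
  have hlow := hW4 1 (one_dvd _) 0 (by
    intro p hp hp1
    exact absurd (Nat.dvd_one.1 hp1) hp.one_lt.ne')
  have hVe : ∏ p ∈ (Icc 1 ⌊X⌋₊).filter (fun p => p.Prime ∧ ¬ p ∣ 1), (1 - (om A be p : ℝ) / p) = VN ⌊X⌋₊ A be := by
    rw [VN]
    refine prod_congr ?_ fun _ _ => rfl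
    refine filter_congr fun p _ => ?_
    constructor
    · exact fun h => h.1
    · exact fun h => ⟨h, fun h1 => h.one_lt.ne' (Nat.dvd_one.1 h1)⟩
  rw [hVe, Nat.cast_one, div_one] at hlow
  obtain ⟨V, hV⟩ : ∃ V : ℝ, V = VN ⌊X⌋₊ A be := ⟨_, rfl⟩
  rw [← hV] at hlow ⊢
  have hV0 : 0 ≤ V := hV ▸ VN_nonneg _ _ _
  -- the bad numbers
  obtain ⟨B, hB⟩ : ∃ B : Fin g → Finset ℕ, B = fun γ => BadN T X (L γ) A be (A' γ) (be' γ) := ⟨_, rfl⟩
  have hBc : ∀ γ, ((B γ).card : ℝ) ≤ C γ * (X * V) * (2 * ν) := by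
    intro γ
    have h1 := hXg γ X (hxg γ) be hbe (be' γ) (hbe' γ) (hadm' γ) (L γ) (hLall γ).1 (hLall γ).2.1 ν hν0.le (hLall γ).2.2
    rw [hB, hV]
    refine h1.trans ?_
    have h2 := hX7 X hx7
    have h3 : 0 ≤ C γ * (X * VN ⌊X⌋₊ A be) := by
      have := (hC γ).le
      have := VN_nonneg ⌊X⌋₊ A be
      positivity
    refine mul_le_mul_of_nonneg_left ?_ h3
    linarith
  have hUc : (((univ : Finset (Fin g)).biUnion B).card : ℝ) ≤ c₀ / 2 * (X * V) := by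
    have h1 : (((univ : Finset (Fin g)).biUnion B).card : ℝ) ≤ ∑ γ, ((B γ).card : ℝ) := by
      exact_mod_cast card_biUnion_le
    refine h1.trans ((sum_le_sum fun γ _ => hBc γ).trans ?_)
    rw [← sum_mul, ← sum_mul]
    have h2 : ∑ γ, C γ ≤ C'' := by rw [hC'']; linarith
    have h3 : c₀ / 2 * (X * V) = C'' * (X * V) * (2 * ν) := by
      rw [hν]
      field_simp
      ring
    rw [h3]
    gcongr
  have hsub : PtsK t K X A be i j 1 0 \ (univ : Finset (Fin g)).biUnion B ⊆ PtsW K z X A be i j L s A' be' := by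
    intro n hn
    rw [Finset.mem_sdiff] at hn
    obtain ⟨hn1, hn2⟩ := hn
    rw [PtsK, mem_filter] at hn1
    obtain ⟨h1, h2, h3, _, h5, h6, h7, h8⟩ := hn1
    rw [PtsW, mem_filter]
    refine ⟨h1, h2, h3, h5, h6, h7, fun l => Ro_mono hz2 (h8 l), fun γ d hd hro => ?_⟩
    by_contra hcon
    refine hn2 ?_
    rw [mem_biUnion]
    refine ⟨γ, mem_univ _, ?_⟩
    rw [hB]
    simp only [BadN, mem_filter]
    refine ⟨h1, h2, fun l => Ro_mono (hz1.trans hz2) (h8 l), d, hd, fun x => ?_, ?_⟩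
    · rw [fm_sh]
      exact Ro_mono hz1 (hro x)
    · intro h
      exact hcon h
  have h1 := card_le_card hsub
  have h2 := le_card_sdiff ((univ : Finset (Fin g)).biUnion B) (PtsK t K X A be i j 1 0)
  have h3 : ((PtsK t K X A be i j 1 0).card : ℝ) ≤
      ((PtsW K z X A be i j L s A' be').card : ℝ) + (((univ : Finset (Fin g)).biUnion B).card : ℝ) := by
    have : (PtsK t K X A be i j 1 0).card ≤ (PtsW K z X A be i j L s A' be').card + ((univ : Finset (Fin g)).biUnion B).card := by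
      omega
    exact_mod_cast this
  have h4 : c₀ * (X * V) = c₀ / 2 * (X * V) + c₀ / 2 * (X * V) := by ring
  linarith

end Pool.Agent.Q117.LF
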