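import Pool.Agent.Q117.LF.Stm3

/-!
Project LF (helper117), part 5: the natural scale. Chen's theorem in systems of linear forms with the right order of magnitude, such that no other
member of a given family of systems is almost prime in a window of the size of a small constant times the average distance of such members.

Every `St_X` below is the statement of one job; the doc comment is its complete proof. The file of a job is `Pool/Agent/Q117/LF/<Name>.lean`, the theorem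
has the name given in the comment (namespace `Pool.Agent.Q117.LF`). The hypotheses of a statement are the conclusions of other jobs (they are assembled
later), so all jobs are independent. (05:40 UTC: only `NSCc` was changed: `∀ T ≥ t`.)
-/

set_option autoImplicit false

namespace Pool.Agent.Q117.LF

open Finset Filter

open Classical in
/-- the product of `1 - om p / p` over the primes `p ≤ y` -/
noncomputable def VN (y : ℕ) {k : ℕ} (al : Fin k → ℕ) (be : Fin k → ℤ) : ℝ :=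
  ∏ p ∈ (Icc 1 y).filter Nat.Prime, (1 - (om al be p : ℝ) / p)

open Classical in
/-- the product of `1 + N / p` over the primes `p ≤ y` which divide `m` -/
noncomputable def GN (N : ℝ) (y : ℕ) (m : ℤ) : ℝ := ∏ p ∈ (Icc 1 y).filter (fun p : ℕ => p.Prime ∧ (p : ℤ) ∣ m), (1 + N / p)

/-- the intercepts of the system shifted by `d` -/
def sh {s : ℕ} (A : Fin s → ℕ) (be : Fin s → ℤ) (d : ℤ) : Fin s → ℤ := fun x => (A x : ℤ) * d + be x

open Classical in
/-- **UBS** (theorem `ubs : St_UBS`): an upper bound sieve for systems of linear forms, uniform in the intercepts.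

Proof. `Pool.Agent.Q253.Thin.int_upper` (`Q253/Thin/Int.lean`; see `SysZ`, `IS`, and `VV`, `Pr` of `Y843/HS`, there) with `r = k + a0 + 1`, `t + 1`, the scale `⌊2 X⌋₊ + 1` or `⌊X⌋₊` (any comparable one), `(A, B] = (⌊X⌋, ⌊2 X⌋]`, and `Z p` = the classes `n` mod `p` with `p ∣ fm al be l n` for some `l` (so `|Z p| = om al be p`).
If `om al be p = p` for some prime `p` then (`|Z p| ≤ k` for `p > a0`, because then every form with `p ∤ al l` has one root; so `p ≤ max a0 k`) no `n` has all the forms without prime factors `≤ X ^ (1/t)` (`X` large): the left hand side is `0` and the right hand side is nonnegative. Otherwise `SysZ` holds (for `p ≤ a0` use `|Z p| < p ≤ r`).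
`Ro (X ^ (1/t)) (fm ..)` for all `l` implies `n % q ∉ Z q` for the primes `q ≤ X' ^ (1/(t+1))`, `X'` the scale. The product over the primes up to the scale of `int_upper` is at most the one over `p ≤ X` if the scale is `≥ X` (all factors are in `[0, 1]`); otherwise compare with Mertens. `B - A ≤ X + 1 ≤ 2 X`. For `k = 0` the claim is trivial (`om = 0`). -/
def St_UBS : Prop := ∀ k t a0 : ℕ, 1 ≤ t → ∃ C : ℝ, 0 < C ∧ ∃ X0 : ℝ, ∀ X : ℝ, X0 ≤ X → ∀ (al : Fin k → ℕ) (be : Fin k → ℤ), (∀ l, 1 ≤ al l ∧ al l ≤ a0) →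
  (((range (⌊2 * X⌋₊ + 1)).filter (fun n : ℕ => X < n ∧ ∀ l, Ro (X ^ (1 / (t : ℝ))) (fm al be l n))).card : ℝ) ≤ C * (X * VN ⌊X⌋₊ al be)

/-- **PCO** (theorem `pco : St_PCO`): the sieve product of the union of two systems.

Proof. Prime by prime. Put `P0 = max a0 (2 (r + s)) + 1`. The roots of the union modulo `p` are the union of the two sets of roots, so `om U p ≥ om E p` (`U` the union, `E` the first, `T` the second system). For `p ≤ P0`: `1 - om U / p ≤ 1 - om E / p` and `1 - om T / p ≥ 1 / p ≥ 1 / P0` (`AdmS`: some class is not a root), so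
`1 - om U / p ≤ P0 (1 - om E / p) (1 - om T / p)`. For `p > P0` every form has exactly one root (`p ∤` slopes), `om E ≤ r`, `om T ≤ s`, and the number of the common roots is at most the number `c` of the pairs `(x, l)` with `p ∣ D x l`, `D x l = A' x * be l - A l * be' x` (a common root of the forms `x` and `l` gives `p ∣ D x l`). So
`1 - om U / p ≤ 1 - (om E + om T) / p + c / p ≤ (1 - om E / p) (1 - om T / p) + c / p ≤ (1 - om E / p) (1 - om T / p) (1 + 2 c / p)` since `(1 - om E / p) (1 - om T / p) ≥ 1 - (r + s) / p ≥ 1 / 2`, and `1 + 2 c / p ≤ ∏ (1 + 2 / p)` over these pairs. `C = P0 ^ (P0 + 1)`. -/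
def St_PCO : Prop := ∀ r s a0 : ℕ, ∃ C : ℝ, 0 < C ∧ ∀ (y : ℕ) (A : Fin r → ℕ) (be : Fin r → ℤ) (A' : Fin s → ℕ) (be' : Fin s → ℤ),
  (∀ l, 1 ≤ A l ∧ A l ≤ a0) → (∀ x, 1 ≤ A' x ∧ A' x ≤ a0) → AdmS A' be' →
  VN y (Fin.append A A') (Fin.append be be') ≤ C * (VN y A be * VN y A' be' * ∏ x, ∏ l, GN 2 y ((A' x : ℤ) * be l - A l * be' x))

open Classical in
/-- **AVG** (theorem `avg : St_AVG`): the average of products of `GN 2` over a short window.

Proof. Let `X` be large, `w = ⌊(log X) ^ (1/2)⌋`. For `m = α d + β ≠ 0`: `|m| ≤ X ^ 3`. The primes `p > w` dividing `m`: `∑ 1 / p ≤ ∑_{w < p ≤ log X} 1 / p + #{p ∣ m : p > log X} / log X ≤ C₀` (Mertens; `2 ^ # ≤ |m|` or `(log X) ^ # ≤ |m|`). So `GN 2 ⌊X⌋ m ≤ exp (2 C₀) g m` with `g m = ∏_{p ≤ w, p ∣ m} (1 + 2 / p)`.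
By AM-GM (`Real.inner_le_nnorm_mul_nnorm` is not needed: `∏_x u x ≤ ∑_x (u x) ^ N` for nonnegative reals, because the largest one satisfies it, `N ≥ 1`) `∏_x g (m x) ≤ ∑_x (g (m x)) ^ N`, and `(1 + 2 / p) ^ N ≤ 1 + N' / p`, `N' = 3 ^ N`. So it is enough to bound, for one `x`, `∑_d ∏_{p ≤ w, p ∣ α d + β} (1 + N' / p) = ∑_d ∑_{e ∣ P(w), e ∣ α d + β} N' ^ ω(e) / e`. For fixed squarefree `e` the number of the `d ∈ [-L, L]`
with `e ∣ α d + β` is at most `a1 (2 L / e + 1)` if `|α| ≤ a1` (the solutions are one class modulo `e / gcd (e, α)`, if any). So the sum is at most `2 a1 L ∏_{p ≤ w} (1 + N' / p ^ 2) + a1 ∏_{p ≤ w} (1 + N' / p) ≤ C (L + (log w + 1) ^ N')`, and `(log w + 1) ^ N' ≤ (log X) ^ (1/2)` for `X` large. For `N = 0` the sum is at most `2 L + 1`. -/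
def St_AVG : Prop := ∀ N a1 : ℕ, ∃ C : ℝ, 0 < C ∧ ∃ X0 : ℝ, ∀ X : ℝ, X0 ≤ X → ∀ (α β : Fin N → ℤ), (∀ x, α x ≠ 0 ∧ |α x| ≤ a1) → (∀ x, |(β x : ℝ)| ≤ X ^ 2) →
  ∀ L : ℕ, (L : ℝ) ≤ X → ∑ d ∈ (Icc (-(L : ℤ)) L).filter (fun d => ∀ x, α x * d + β x ≠ 0), ∏ x, GN 2 ⌊X⌋₊ (α x * d + β x) ≤ C * (L + (Real.log X) ^ (1 / 2 : ℝ))

/-- **OMS** (theorem `oms : St_OMS`): the number of the roots does not change under a shift; the sieve product of a nonempty admissible system is `O(1 / log X)`.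

Proof. First part: `p ∣ A x (n + d) + be x` iff `n + d` is a root modulo `p`: the bijection `n ↦ n + d` of the residues modulo `p` (`fm A (sh A be d) x n = A x * n + A x * d + be x`). Second part: for `p > a0` every form has a root, so `om ≥ 1` and `1 - om / p ≤ 1 - 1 / p`, for `p ≤ a0` the factor is `≤ 1`; all factors are `≥ 0` (`om ≤ p`). Mertens' upper bound
for `∏_{p ≤ X} (1 - 1 / p)` (in the library, for instance `V1_bounds` in `Y843/HG`). -/
def St_OMS : Prop := (∀ (s : ℕ) (A : Fin s → ℕ) (be : Fin s → ℤ) (d : ℤ) (p : ℕ), p.Prime → om A (sh A be d) p = om A be p) ∧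
  ∀ a0 : ℕ, ∃ C : ℝ, 0 < C ∧ ∃ X0 : ℝ, ∀ X : ℝ, X0 ≤ X → ∀ (s : ℕ) (A : Fin s → ℕ) (be : Fin s → ℤ), 1 ≤ s → (∀ x, 1 ≤ A x ∧ A x ≤ a0) → VN ⌊X⌋₊ A be ≤ C / Real.log X

open Classical in
/-- the good `n` of the window `(X, X + X / K]`: the form `i` is a prime, the form `j` has at most two prime factors, all the forms are rough, and for all the systems `γ` of the family and all shifts `|d| ≤ L`: if all the forms of the system `γ` are rough at `n + d` then they all coincide with forms of the given system at `n` -/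
noncomputable def PtsN (K : ℕ) (z X L : ℝ) {r : ℕ} (A : Fin r → ℕ) (be : Fin r → ℤ) (i j : Fin r) {g : ℕ} (s : Fin g → ℕ) (A' : (γ : Fin g) → Fin (s γ) → ℕ)
    (be' : (γ : Fin g) → Fin (s γ) → ℤ) : Finset ℕ :=
  (range (⌊2 * X⌋₊ + 1)).filter (fun n : ℕ => X < n ∧ (n : ℝ) ≤ X + X / K ∧ 0 < fm A be i n ∧ (fm A be i n).natAbs.Prime ∧ Pt (X ^ (1 / 8 : ℝ)) (fm A be j n) ∧
    (∀ l, Ro z (fm A be l n)) ∧
    ∀ γ, ∀ d : ℤ, |(d : ℝ)| ≤ L → (∀ x, Ro z ((A' γ x : ℤ) * (n + d) + be' γ x)) → ∀ x, ∃ l, A' γ x = A l ∧ (A' γ x : ℤ) * d + be' γ x = be l)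

/-- conclusion of NSC: Chen's theorem in systems of linear forms, isolated at the natural scale -/
def NSCc : Prop := ∀ (r : ℕ) (A : Fin r → ℕ), (∀ l, 1 ≤ A l) → ∀ (g : ℕ) (s : Fin g → ℕ) (A' : (γ : Fin g) → Fin (s γ) → ℕ), (∀ γ, 1 ≤ s γ) → (∀ γ x, 1 ≤ A' γ x) →
  ∀ K : ℕ, 1 ≤ K → ∀ i j : Fin r, i ≠ j → ∃ t : ℕ, 1 ≤ t ∧ ∀ T : ℕ, t ≤ T → ∃ c : ℝ, 0 < c ∧ ∃ ν : ℝ, 0 < ν ∧ ∃ X0 : ℝ, ∀ X : ℝ, X0 ≤ X →
    ∀ be : Fin r → ℤ, (∀ l, |(be l : ℝ)| ≤ K * X) → X / K ≤ A i * X + be i → (∀ l m, l ≠ m → (A l : ℤ) * be m ≠ A m * be l) → AdmS A be →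
    ∀ be' : (γ : Fin g) → Fin (s γ) → ℤ, (∀ γ x, |(be' γ x : ℝ)| ≤ K * X) → (∀ γ, AdmS (A' γ) (be' γ)) →
    ∀ L : ℝ, 0 ≤ L → L ≤ X → (∀ γ, L * VN ⌊X⌋₊ (A' γ) (be' γ) ≤ ν) → ∀ z : ℝ, X ^ (1 / (T : ℝ)) ≤ z → z ≤ X ^ (1 / (t : ℝ)) →
      c * (X * VN ⌊X⌋₊ A be) ≤ ((PtsN K z X L A be i j s A' be').card : ℝ)

/-- **NSC** (theorem `nsc : St_NSC`): the theorem at the natural scale.

Proof. Below rough means `Ro z`; rough numbers for `X ^ (1/t)` are rough, and rough numbers are rough for `X ^ (1 / T)` (so `UBS` is applied with `T`). LOWER BOUND: `UNQc` with `k = r`, `a = A i`, `b = A j`, `K`, and the divisor `q = 1`, `u = 0` (its condition is empty): `t`, `c₀`, and with `V = VN ⌊X⌋₊ A be` at least `c₀ X V` numbers `n` belong to `PtsK t K X A be i j 1 0` (all slopes are `≤ X` for `X` large). Let `a0` = the largest of all the slopes `A l`, `A' γ x`.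
We have to remove the `n` for which some `(γ, d)`, `|d| ≤ L`, is bad: all `A' γ x (n + d) + be' γ x` are rough but for some `x` no `l` has `A' γ x = A l`, `sh (A' γ) (be' γ) d x = be l`. Write `f x = sh (A' γ) (be' γ) d x`; `D x l = A' γ x * be l - A l * f x`. Fix `(γ, d)`.
(a) Suppose that some `(x, l)` has `D x l = 0` but not (`A' γ x = A l` and `f x = be l`). Then `A' γ x ≠ A l` (otherwise `f x = be l`). With `u = A' γ x n + f x`, `v = A l n + be l`: `A' γ x * v = A l * u`; dividing by the gcd, one of the coprime factors `A' γ x / gcd`, `A l / gcd` is `> 1` and divides `u` resp. `v`: this contradicts `Ro` for `X` large (`z ≥ X ^ (1/T) > a0`). So there are no such `n`.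
(b) Otherwise, let `x₀` be a form which is not one of the given ones; by (not a) `D x₀ l ≠ 0` for all `l`. Suppose that for some other `(x₁, l)`: `A' γ x₁ = A l`, `f x₁ = be l`. This happens for at most `r * ∑ s γ` pairs `(γ, d)` (`d` is determined by `x₁`, `l`, `γ` as `A' γ x₁ ≥ 1`). For these the number of the `n` is at most the number of the `n ∈ (X, 2X]` for which the `r + 1` forms `A l n + be l`, `A' γ x₀ n + f x₀` are rough:
`UBS` (`k = r + 1`) and `PCO` with the system `T` of the one form `x₀` (`AdmS` because `AdmS (A' γ) (be' γ)` and the shift) and `OMS`: `≤ C X V (C / log X) ∏_l GN 2 ⌊X⌋₊ (D x₀ l)`, and the last product is `≤ C (log X) ^ (1/2)` by `AVG` with `L = 0` (`N = r`, `α = 1`, `β l = D x₀ l`, `|β l| ≤ X ^ 2`; it is the term `d = 0`). In total `≤ C' X V (log X) ^ (- 1/2)`.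
(c) Otherwise `D x l ≠ 0` for all `x, l`: the number of the `n` is at most the number of the `n ∈ (X, 2X]` for which the forms of the union of the system `A, be` and of `A' γ, f` are rough: `≤ C X V (VN ⌊X⌋₊ (A' γ) (be' γ)) ∏_x ∏_l GN 2 ⌊X⌋₊ (D x l)` by `UBS`, `PCO` (`AdmS` is invariant under the shift), `OMS`. Here `D x l = - (A' γ x * A l) * d + (A' γ x * be l - A l * be' γ x)` is a linear function of `d`
with slope `≠ 0`, `≤ a0 ^ 2` in absolute value, and intercept `≤ 2 a0 K X ≤ X ^ 2`. `AVG` (`N = r * s γ`, reindex the pairs, `L' = ⌊L⌋₊`): the sum over the `d` of case (c) is `≤ C X V (VN ⌊X⌋₊ (A' γ) (be' γ)) (L + (log X) ^ (1/2)) ≤ C X V (ν + C (log X) ^ (- 1/2))` (`OMS`).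
SUM over `γ`: at most `C'' X V (ν + (log X) ^ (- 1/2))`, where `C''` does not depend on `ν`; take `ν = c₀ / (4 C'')` and `X` large: at least `(c₀ / 2) X V` numbers `n` remain, and they belong to `PtsN`. (`V ≥ 0`. `|d| ≤ L` iff `|d| ≤ ⌊L⌋₊`.) -/
def St_NSC : Prop := UNQc → St_UBS → St_PCO → St_AVG → St_OMS → NSCc

/-- **VUP** (theorem `vup : St_VUP`): the sieve product of a fixed system.

Proof. Let `a0` be the largest slope, `P` a number larger than `a0`, `2 s` and all the numbers `|A x * be y - A y * be x|`, `x ≠ y` (nonzero). For `p > P` the `s` roots are different: `om = s` and `1 - s / p ≤ (1 - 1 / p) ^ s` (Bernoulli). For `p ≤ P` the factor is in `[0, 1]`. So `VN y ≤ ∏_{P < p ≤ y} (1 - 1 / p) ^ s ≤ (∏_{p ≤ P} (1 - 1 / p)) ^ (- s) (C / log y) ^ s` by Mertens. -/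
def St_VUP : Prop := ∀ (s : ℕ) (A : Fin s → ℕ) (be : Fin s → ℤ), (∀ x, 1 ≤ A x) → (∀ l m, l ≠ m → (A l : ℤ) * be m ≠ A m * be l) →
  ∃ C : ℝ, 0 < C ∧ ∀ y : ℕ, 2 ≤ y → VN y A be ≤ C / Real.log y ^ s

end Pool.Agent.Q117.LF
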