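import Mathlib
import Pool.Agent.Q117.LF.Stm5
import Pool.Agent.Y843.HG.VGold

/-!
Project LF (helper117), job OMS: roots under a shift; the sieve product is `O(1 / log X)`.
-/

set_option autoImplicit false

namespace Pool.Agent.Q117.LF

open Finset
open Pool.Agent.Y843.HS (Pr Pr_mem Pr_prime)
open Pool.Agent.Y843.HG (V1 V1_pos V1_bounds fac1)

/-- divisibility at a representative modulo `p` -/
theorem fm_emod {s : ℕ} (A : Fin s → ℕ) (be : Fin s → ℤ) (l : Fin s) {p : ℕ} (hp : 0 < p)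
    (z : ℤ) : (p : ℤ) ∣ fm A be l (z % p).toNat ↔ (p : ℤ) ∣ (A l : ℤ) * z + be l := by
  have hp0 : (p : ℤ) ≠ 0 := by exact_mod_cast hp.ne'
  have h1 : ((z % p).toNat : ℤ) = z % p := Int.toNat_of_nonneg (Int.emod_nonneg _ hp0)
  unfold fm
  rw [h1]
  have h2 : (A l : ℤ) * z + be l = ((A l : ℤ) * (z % p) + be l) + p * ((A l : ℤ) * (z / p)) := by
    have h3 := Int.emod_add_mul_ediv z p
    linear_combination -(A l : ℤ) * h3
  rw [h2]
  exact (dvd_add_left (dvd_mul_right _ _)).symm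

theorem toNat_lt {p : ℕ} (hp : 0 < p) (z : ℤ) : (z % p).toNat < p := by
  have hp0 : (0 : ℤ) < p := by exact_mod_cast hp
  have h1 : ((z % p).toNat : ℤ) = z % p := Int.toNat_of_nonneg (Int.emod_nonneg _ hp0.ne')
  have h2 := Int.emod_lt_of_pos z hp0
  omega

theorem toNat_inv {p : ℕ} (hp : 0 < p) (e : ℤ) {n : ℕ} (hn : n < p) :
    (((((n : ℤ) + e) % p).toNat : ℤ) - e) % p = n := by
  have hp0 : (0 : ℤ) < p := by exact_mod_cast hp
  rw [Int.toNat_of_nonneg (Int.emod_nonneg _ hp0.ne')]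
  have h1 : (((n : ℤ) + e) % p - e) % p = ((n : ℤ) + e - e) % p := by
    rw [Int.sub_emod, Int.emod_emod_of_dvd _ dvd_rfl, ← Int.sub_emod]
  rw [h1, add_sub_cancel_right]
  exact Int.emod_eq_of_lt (by positivity) (by exact_mod_cast hn)

theorem om_sh {s : ℕ} (A : Fin s → ℕ) (be : Fin s → ℤ) (d : ℤ) {p : ℕ} (hp : 0 < p) :
    om A (sh A be d) p = om A be p := by
  classical
  have h1 : ∀ (n : ℕ) (l : Fin s), (p : ℤ) ∣ fm A (sh A be d) l n ↔
      (p : ℤ) ∣ (A l : ℤ) * ((n : ℤ) + d) + be l := by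
    intro n l
    unfold fm sh
    rw [show (A l : ℤ) * (n : ℤ) + ((A l : ℤ) * d + be l) = (A l : ℤ) * ((n : ℤ) + d) + be l by ring]
  unfold om
  refine Finset.card_nbij' (fun n => (((n : ℤ) + d) % p).toNat) (fun n => (((n : ℤ) - d) % p).toNat)
    ?_ ?_ ?_ ?_
  · intro n hn
    simp only [coe_filter, mem_range, Set.mem_ofPred_eq] at hn ⊢
    obtain ⟨-, l, hl⟩ := hn
    exact ⟨toNat_lt hp _, l, (fm_emod A be l hp _).2 ((h1 n l).1 hl)⟩
  · intro n hn
    simp only [coe_filter, mem_range, Set.mem_ofPred_eq] at hn ⊢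
    obtain ⟨-, l, hl⟩ := hn
    refine ⟨toNat_lt hp _, l, ?_⟩
    rw [fm_emod A (sh A be d) l hp]
    have h2 : (A l : ℤ) * ((n : ℤ) - d) + sh A be d l = fm A be l n := by
      unfold sh fm
      ring
    rw [h2]
    exact hl
  · intro n hn
    simp only [coe_filter, mem_range, Set.mem_ofPred_eq] at hn
    have h2 := toNat_inv hp d hn.1
    simp only [h2]
    rfl
  · intro n hn
    simp only [coe_filter, mem_range, Set.mem_ofPred_eq] at hn
    have h2 := toNat_inv hp (-d) hn.1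
    simp only [sub_neg_eq_add, ← sub_eq_add_neg] at h2
    simp only [h2]
    rfl

theorem om_le {s : ℕ} (A : Fin s → ℕ) (be : Fin s → ℤ) (p : ℕ) : om A be p ≤ p := by
  classical
  unfold om
  exact (card_filter_le _ _).trans (card_range p).le

theorem one_le_om {s : ℕ} (A : Fin s → ℕ) (be : Fin s → ℤ) {p : ℕ} (hp : p.Prime) (x : Fin s)
    (h1 : 1 ≤ A x) (h2 : A x < p) : 1 ≤ om A be p := by
  classical
  have : Fact p.Prime := ⟨hp⟩
  have hA : (A x : ZMod p) ≠ 0 := by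
    intro h
    rw [ZMod.natCast_eq_zero_iff] at h
    exact absurd (Nat.le_of_dvd (by omega) h) (by omega)
  unfold om
  rw [Nat.one_le_iff_ne_zero, ← Nat.pos_iff_ne_zero, card_pos]
  refine ⟨(-(be x : ZMod p) * (A x : ZMod p)⁻¹).val, mem_filter.2 ⟨mem_range.2 (ZMod.val_lt _), x, ?_⟩⟩
  rw [← ZMod.intCast_zmod_eq_zero_iff_dvd]
  unfold fm
  push_cast
  rw [ZMod.natCast_val, ZMod.cast_id', id_eq, mul_comm (-(be x : ZMod p)), ← mul_assoc,
    mul_inv_cancel₀ hA, one_mul, neg_add_cancel]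

theorem oms : St_OMS := by
  classical
  refine ⟨fun s A be d p hp => om_sh A be d hp.pos, fun a0 => ?_⟩
  obtain ⟨c1, C1, hc1, hC1, hV⟩ := V1_bounds
  refine ⟨2 * C1 / V1 a0, by have := V1_pos a0; positivity, max (a0 + 1) 4, ?_⟩
  intro X hX s A be hs hA
  have hXa : (a0 : ℝ) + 1 ≤ X := (le_max_left _ _).trans hX
  have hX4 : 4 ≤ X := (le_max_right _ _).trans hX
  set y := ⌊X⌋₊ with hy
  have hya : a0 ≤ y := Nat.le_floor (by linarith)
  have hy2 : 2 ≤ y := Nat.le_floor (by push_cast; linarith)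
  have hyX : X < y + 1 := Nat.lt_floor_add_one X
  have hf0 : ∀ p ∈ Pr 0 y, 0 ≤ 1 - (om A be p : ℝ) / p := by
    intro p hp
    have h1 : (0 : ℝ) < p := by exact_mod_cast (Pr_prime hp).pos
    rw [sub_nonneg, div_le_one h1]
    exact_mod_cast om_le A be p
  have hf1 : ∀ p : ℕ, 1 - (om A be p : ℝ) / p ≤ 1 := by
    intro p
    have h1 : (0 : ℝ) ≤ (om A be p : ℝ) / p := by positivity
    linarith
  have hsub : Pr 0 a0 ⊆ Pr 0 y := by
    intro p hp
    rw [Pr_mem] at hp ⊢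
    exact ⟨⟨hp.1.1, hp.1.2.trans hya⟩, hp.2⟩
  have hVN : VN y A be = ∏ p ∈ Pr 0 y, (1 - (om A be p : ℝ) / p) := by
    unfold VN
    refine prod_congr ?_ fun _ _ => rfl
    ext p
    rw [Pr_mem, mem_filter, mem_Icc]
    constructor
    · rintro ⟨⟨h1, h2⟩, h3⟩
      exact ⟨⟨by omega, h2⟩, h3⟩
    · rintro ⟨⟨h1, h2⟩, h3⟩
      exact ⟨⟨by omega, h2⟩, h3⟩
  have h1 : VN y A be ≤ ∏ p ∈ Pr 0 y \ Pr 0 a0, (1 - 1 / (p : ℝ)) := by
    rw [hVN, ← prod_sdiff hsub]
    have h2 : ∏ p ∈ Pr 0 a0, (1 - (om A be p : ℝ) / p) ≤ 1 :=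
      Finset.prod_le_one (fun p hp => hf0 p (hsub hp)) fun p _ => hf1 p
    have h3 : ∏ p ∈ Pr 0 y \ Pr 0 a0, (1 - (om A be p : ℝ) / p) ≤
        ∏ p ∈ Pr 0 y \ Pr 0 a0, (1 - 1 / (p : ℝ)) := by
      refine Finset.prod_le_prod (fun p hp => hf0 p (mem_sdiff.1 hp).1) fun p hp => ?_
      rw [mem_sdiff, Pr_mem, Pr_mem] at hp
      have h4 : a0 < p := by
        by_contra hcon
        exact hp.2 ⟨⟨hp.1.1.1, by omega⟩, hp.1.2⟩
      have h5 : 1 ≤ om A be p :=
        one_le_om A be hp.1.2 ⟨0, by omega⟩ (hA _).1 ((hA _).2.trans_lt h4)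
      have h6 : (0 : ℝ) < p := by exact_mod_cast hp.1.2.pos
      have h7 : (1 : ℝ) ≤ om A be p := by exact_mod_cast h5
      have h8 : 1 / (p : ℝ) ≤ (om A be p : ℝ) / p := div_le_div_of_nonneg_right h7 h6.le
      linarith
    have h4 : 0 ≤ ∏ p ∈ Pr 0 y \ Pr 0 a0, (1 - (om A be p : ℝ) / p) :=
      prod_nonneg fun p hp => hf0 p (mem_sdiff.1 hp).1
    exact (mul_le_of_le_one_right h4 h2).trans h3
  have h2 : (∏ p ∈ Pr 0 y \ Pr 0 a0, (1 - 1 / (p : ℝ))) * V1 a0 = V1 y := by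
    unfold V1
    exact prod_sdiff hsub
  have h3 : ∏ p ∈ Pr 0 y \ Pr 0 a0, (1 - 1 / (p : ℝ)) = V1 y / V1 a0 := by
    rw [eq_div_iff (V1_pos a0).ne']
    exact h2
  have hlX : 0 < Real.log X := Real.log_pos (by linarith)
  have hly : Real.log X ≤ 2 * Real.log y := by
    rw [← Real.log_rpow (by positivity), Real.rpow_ofNat]
    refine Real.log_le_log (by linarith) ?_
    have h5 : (3 : ℝ) < y + 1 := by linarith
    nlinarith
  have hly0 : 0 < Real.log y := by linarith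
  calc VN y A be ≤ V1 y / V1 a0 := h3 ▸ h1
    _ ≤ (C1 / Real.log y) / V1 a0 := div_le_div_of_nonneg_right (hV y hy2).2 (V1_pos a0).le
    _ ≤ (2 * C1 / Real.log X) / V1 a0 := by
      refine div_le_div_of_nonneg_right ?_ (V1_pos a0).le
      rw [div_le_div_iff₀ hly0 hlX]
      nlinarith
    _ = 2 * C1 / V1 a0 / Real.log X := by
      rw [div_div, div_div, mul_comm (Real.log X)]

end Pool.Agent.Q117.LF
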