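import Pool.Agent.Q117.LF.Stm3
import Pool.Agent.H318R2.Cr.Prod

/-!
# Project LF, job SSY (helper53): truncated products of the singular series
-/

set_option autoImplicit false

namespace Pool.Agent.Q117.LF.SSYJ

open Finset

/-- the number of the excluded classes modulo a prime -/
theorem om_le {k : ℕ} (al : Fin k → ℕ) (be : Fin k → ℤ) (p : ℕ) : om al be p ≤ p := by
  classical
  unfold om
  calc _ ≤ (range p).card := Finset.card_le_card (Finset.filter_subset _ _)
    _ = p := Finset.card_range p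

/-- for a prime not dividing the slopes and determinants there are `k` excluded classes -/
theorem le_om {k : ℕ} (al : Fin k → ℕ) (be : Fin k → ℤ) (p : ℕ) (hp : p.Prime)
    (h1 : ∀ l, ¬ p ∣ al l)
    (h2 : ∀ l m, l ≠ m → ¬ (p : ℤ) ∣ (al l : ℤ) * be m - al m * be l) : k ≤ om al be p := by
  classical
  have hroot : ∀ l, ∃ n, n < p ∧ (p : ℤ) ∣ fm al be l n := by
    intro l
    have := Fact.mk hp
    have h3 : ((al l : ℕ) : ZMod p) ≠ 0 := by
      rw [Ne, ZMod.natCast_eq_zero_iff]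
      exact h1 l
    refine ⟨((-(be l : ZMod p)) / ((al l : ℕ) : ZMod p)).val, ZMod.val_lt _, ?_⟩
    rw [← ZMod.intCast_zmod_eq_zero_iff_dvd]
    unfold fm
    push_cast
    rw [ZMod.natCast_zmod_val]
    field_simp
    ring
  choose r hr1 hr2 using hroot
  have hinj : Function.Injective r := by
    intro l m hlm
    by_contra hne
    apply h2 l m hne
    have a1 := hr2 l
    have a2 := hr2 m
    rw [hlm] at a1
    have a3 : (p : ℤ) ∣ (al l : ℤ) * fm al be m (r m) - (al m : ℤ) * fm al be l (r m) :=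
      dvd_sub (a2.mul_left _) (a1.mul_left _)
    have a4 : (al l : ℤ) * fm al be m (r m) - (al m : ℤ) * fm al be l (r m) =
        (al l : ℤ) * be m - al m * be l := by
      unfold fm
      ring
    rwa [a4] at a3
  have h4 : (Finset.univ.image r).card = k := by
    rw [Finset.card_image_of_injective _ hinj, Finset.card_univ, Fintype.card_fin]
  refine h4.symm.le.trans ?_
  unfold om
  apply Finset.card_le_card
  intro n hn
  rw [Finset.mem_image] at hn
  obtain ⟨l, -, rfl⟩ := hn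
  rw [Finset.mem_filter, Finset.mem_range]
  exact ⟨hr1 l, l, hr2 l⟩

/-- a nonzero integer of size `< X ^ 3` has at most two prime factors `> X` -/
theorem few_primes (X : ℝ) (hX : 1 < X) (D : ℤ) (hD : D ≠ 0) (hDX : |(D : ℝ)| < X ^ 3)
    (T : Finset ℕ) (hT : ∀ p ∈ T, p.Prime ∧ X < p ∧ (p : ℤ) ∣ D) : T.card ≤ 2 := by
  by_contra hcon
  push Not at hcon
  have h1 : T ⊆ D.natAbs.primeFactors := by
    intro p hp
    obtain ⟨a, -, b⟩ := hT p hp
    rw [Nat.mem_primeFactors]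
    exact ⟨a, Int.natCast_dvd.1 b, Int.natAbs_ne_zero.2 hD⟩
  have h2 : ∏ p ∈ T, p ≤ D.natAbs := by
    have h3 : ∏ p ∈ T, p ∣ ∏ p ∈ D.natAbs.primeFactors, p := Finset.prod_dvd_prod_of_subset _ _ _ h1
    exact Nat.le_of_dvd (Int.natAbs_pos.2 hD) (h3.trans (Nat.prod_primeFactors_dvd _))
  have h3 : (X : ℝ) ^ T.card ≤ ∏ p ∈ T, (p : ℝ) := by
    rw [← Finset.prod_const]
    exact Finset.prod_le_prod (fun _ _ => by linarith) (fun p hp => (hT p hp).2.1.le)
  have h4 : (∏ p ∈ T, (p : ℝ)) ≤ |(D : ℝ)| := by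
    have : ((∏ p ∈ T, p : ℕ) : ℝ) ≤ (D.natAbs : ℝ) := by exact_mod_cast h2
    rw [Nat.cast_natAbs, Int.cast_abs] at this
    rw [Nat.cast_prod] at this
    exact this
  have h5 : X ^ 3 ≤ X ^ T.card := pow_le_pow_right₀ hX.le hcon
  linarith

theorem ssy_main (mert : ∃ c₁ : ℝ, 0 < c₁ ∧ ∀ z : ℕ, 2 ≤ z →
      c₁ ≤ (∏ p ∈ (Icc 1 z).filter Nat.Prime, (1 - 1 / (p : ℝ))) * Real.log z) (k K : ℕ)
    (hK : 1 ≤ K) : ∃ c : ℝ, 0 < c ∧ ∃ X0 : ℝ, ∀ X : ℝ, X0 ≤ X → ∀ (al : Fin k → ℕ) (be : Fin k → ℤ),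
  (∀ l, 1 ≤ al l ∧ (al l : ℝ) ≤ X) → (∀ l, |(be l : ℝ)| ≤ K * X) →
    (∀ l m, l ≠ m → (al l : ℤ) * be m ≠ al m * be l) →
  ∀ y : ℕ, X ≤ y →
    c * (1 / Real.log X ^ k * ∏ p ∈ (Icc 1 y).filter Nat.Prime,
      ((1 - (om al be p : ℝ) / p) / (1 - 1 / (p : ℝ)) ^ k)) ≤
      ∏ q ∈ (Icc 1 ⌊X⌋₊).filter Nat.Prime, (1 - (om al be q : ℝ) / q) := by
  classical
  obtain ⟨c₁, hc₁, hmert⟩ := mert
  refine ⟨c₁ ^ k / 2, by positivity, max 3 (max (2 * K + 1) (4 * k ^ 3 + 1)), ?_⟩
  intro X hX al be hal hbe hdet y hXy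
  have hX3 : 3 ≤ X := (le_max_left _ _).trans hX
  have hXK : (2 * K + 1 : ℝ) ≤ X := (le_max_left _ _).trans ((le_max_right _ _).trans hX)
  have hXk : (4 * k ^ 3 + 1 : ℝ) ≤ X := (le_max_right _ _).trans ((le_max_right _ _).trans hX)
  set N := ⌊X⌋₊ with hN
  have hNX : (N : ℝ) ≤ X := Nat.floor_le (by linarith)
  have hN2 : 2 ≤ N := Nat.le_floor (by norm_num; linarith)
  have hNy : N ≤ y := by
    have : (N : ℝ) ≤ y := hNX.trans hXy
    exact_mod_cast this
  set a : ℕ → ℝ := fun p => 1 - (om al be p : ℝ) / p with ha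
  set b : ℕ → ℝ := fun p => (1 - 1 / (p : ℝ)) ^ k with hb
  have ha0 : ∀ p : ℕ, p.Prime → 0 ≤ a p := by
    intro p hp
    have h1 : (om al be p : ℝ) ≤ p := by exact_mod_cast om_le al be p
    have h2 : (0 : ℝ) < p := by exact_mod_cast hp.pos
    simp only [ha]
    rw [sub_nonneg, div_le_one h2]
    exact h1
  have hone : ∀ p : ℕ, p.Prime → 0 < 1 - 1 / (p : ℝ) := by
    intro p hp
    have h1 : (2 : ℝ) ≤ p := by exact_mod_cast hp.two_le
    have h2 : 1 / (p : ℝ) ≤ 1 / 2 := one_div_le_one_div_of_le (by norm_num) h1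
    linarith
  have hb0 : ∀ p : ℕ, p.Prime → 0 < b p := fun p hp => pow_pos (hone p hp) k
  -- split the product over `p ≤ y`
  set P₁ := (Icc 1 N).filter Nat.Prime with hP₁
  set P₂ := (Icc (N + 1) y).filter Nat.Prime with hP₂
  have hsplit : (Icc 1 y).filter Nat.Prime = P₁ ∪ P₂ := by
    ext p
    simp only [hP₁, hP₂, Finset.mem_filter, Finset.mem_union, Finset.mem_Icc]
    constructor
    · rintro ⟨⟨h1, h2⟩, h3⟩
      by_cases h4 : p ≤ N
      · exact Or.inl ⟨⟨h1, h4⟩, h3⟩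
      · exact Or.inr ⟨⟨by omega, h2⟩, h3⟩
    · rintro (⟨⟨h1, h2⟩, h3⟩ | ⟨⟨h1, h2⟩, h3⟩)
      · exact ⟨⟨h1, h2.trans hNy⟩, h3⟩
      · exact ⟨⟨by omega, h2⟩, h3⟩
  have hdisj : Disjoint P₁ P₂ := by
    rw [Finset.disjoint_left]
    intro p h1 h2
    simp only [hP₁, hP₂, Finset.mem_filter, Finset.mem_Icc] at h1 h2
    omega
  -- the exceptional primes
  set E := P₂.filter (fun p : ℕ => ∃ l m, l ≠ m ∧ (p : ℤ) ∣ (al l : ℤ) * be m - al m * be l) with hE
  have hbig : ∀ p ∈ P₂, p.Prime ∧ X < p := by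
    intro p hp
    simp only [hP₂, Finset.mem_filter, Finset.mem_Icc] at hp
    refine ⟨hp.2, ?_⟩
    exact (Nat.floor_lt (by linarith)).1 (by omega)
  have hEcard : E.card ≤ 2 * k ^ 2 := by
    set T : Fin k × Fin k → Finset ℕ := fun z =>
      if z.1 = z.2 then ∅ else P₂.filter (fun p : ℕ => (p : ℤ) ∣ (al z.1 : ℤ) * be z.2 - al z.2 * be z.1)
      with hT
    have h1 : E ⊆ (Finset.univ : Finset (Fin k × Fin k)).biUnion T := by
      intro p hp
      simp only [hE, Finset.mem_filter] at hp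
      obtain ⟨hp, l, m, hlm, hd⟩ := hp
      rw [Finset.mem_biUnion]
      refine ⟨(l, m), Finset.mem_univ _, ?_⟩
      simp only [hT, if_neg hlm, Finset.mem_filter]
      exact ⟨hp, hd⟩
    have h2 : ∀ z ∈ (Finset.univ : Finset (Fin k × Fin k)), (T z).card ≤ 2 := by
      rintro ⟨l, m⟩ -
      by_cases hlm : l = m
      · simp [hT, hlm]
      · simp only [hT, if_neg hlm]
        refine few_primes X (by linarith) ((al l : ℤ) * be m - al m * be l)
          (sub_ne_zero.2 (hdet l m hlm)) ?_ _ ?_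
        · push_cast
          have h3 : |(al l : ℝ) * be m - al m * be l| ≤ X * (K * X) + X * (K * X) := by
            refine (abs_sub _ _).trans ?_
            rw [abs_mul, abs_mul, abs_of_nonneg (show (0 : ℝ) ≤ al l from Nat.cast_nonneg _),
              abs_of_nonneg (show (0 : ℝ) ≤ al m from Nat.cast_nonneg _)]
            exact add_le_add
              (mul_le_mul (hal l).2 (hbe m) (abs_nonneg _) (by linarith))
              (mul_le_mul (hal m).2 (hbe l) (abs_nonneg _) (by linarith))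
          have h4 : X * (K * X) + X * (K * X) < X ^ 3 := by
            have h5 : (2 * K : ℝ) < X := by linarith
            have h6 : 0 < X ^ 2 := by positivity
            nlinarith
          exact lt_of_le_of_lt h3 h4
        · intro p hp
          rw [Finset.mem_filter] at hp
          exact ⟨(hbig p hp.1).1, (hbig p hp.1).2, hp.2⟩
    calc E.card ≤ _ := Finset.card_le_card h1
      _ ≤ (Finset.univ : Finset (Fin k × Fin k)).card * 2 := Finset.card_biUnion_le_card_mul _ _ _ h2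
      _ = 2 * k ^ 2 := by
          rw [Finset.card_univ, Fintype.card_prod, Fintype.card_fin]
          ring
  have hX1 : 0 < 1 - 1 / X := by
    have : 1 / X ≤ 1 / 3 := one_div_le_one_div_of_le (by norm_num) hX3
    linarith
  -- bound for the large primes
  have hR : ∀ p ∈ P₂, a p / b p ≤ if p ∈ E then 1 / (1 - 1 / X) ^ k else 1 := by
    intro p hp
    obtain ⟨hpp, hXp⟩ := hbig p hp
    have hp0 : (0 : ℝ) < p := by exact_mod_cast hpp.pos
    by_cases hpE : p ∈ E
    · rw [if_pos hpE]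
      have h1 : a p ≤ 1 := by
        simp only [ha]
        have : 0 ≤ (om al be p : ℝ) / p := by positivity
        linarith
      have h2 : (1 - 1 / X) ^ k ≤ b p := by
        simp only [hb]
        refine pow_le_pow_left₀ hX1.le ?_ k
        have : 1 / (p : ℝ) ≤ 1 / X := one_div_le_one_div_of_le (by linarith) hXp.le
        linarith
      exact div_le_div₀ zero_le_one h1 (pow_pos hX1 k) h2
    · rw [if_neg hpE, div_le_one (hb0 p hpp)]
      have h1 : k ≤ om al be p := by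
        refine le_om al be p hpp ?_ ?_
        · intro l hl
          have h3 := Nat.le_of_dvd (hal l).1 hl
          have h4 : (p : ℝ) ≤ al l := by exact_mod_cast h3
          have h5 := (hal l).2
          linarith
        · intro l m hlm hd
          apply hpE
          rw [hE, Finset.mem_filter]
          exact ⟨hp, l, m, hlm, hd⟩
      have h2 : a p ≤ 1 - (k : ℝ) / p := by
        simp only [ha]
        have h3 : (k : ℝ) ≤ om al be p := by exact_mod_cast h1
        have h4 : (k : ℝ) / p ≤ (om al be p : ℝ) / p := div_le_div_of_nonneg_right h3 hp0.le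
        linarith
      have h3 := one_add_mul_le_pow (show (-2 : ℝ) ≤ -(1 / (p : ℝ)) by
        have := hone p hpp
        linarith) k
      simp only [hb]
      have e : (1 : ℝ) + k * -(1 / (p : ℝ)) = 1 - k / p := by ring
      have e' : (1 : ℝ) + -(1 / (p : ℝ)) = 1 - 1 / p := by ring
      rw [e, e'] at h3
      exact h2.trans h3
  have hR2 : ∏ p ∈ P₂, (a p / b p) ≤ 2 := by
    have h1 : ∏ p ∈ P₂, (a p / b p) ≤ ∏ p ∈ P₂, (if p ∈ E then 1 / (1 - 1 / X) ^ k else 1) :=
      Finset.prod_le_prod (fun p hp => div_nonneg (ha0 p (hbig p hp).1) (hb0 p (hbig p hp).1).le) hR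
    have h2 : ∏ p ∈ P₂, (if p ∈ E then 1 / (1 - 1 / X) ^ k else (1 : ℝ)) =
        (1 / (1 - 1 / X) ^ k) ^ E.card := by
      rw [Finset.prod_ite, Finset.prod_const, Finset.prod_const_one, mul_one]
      congr 2
      ext p
      rw [Finset.mem_filter]
      constructor
      · rintro ⟨-, h⟩
        exact h
      · intro h
        exact ⟨(Finset.mem_filter.1 h).1, h⟩
    refine h1.trans ?_
    rw [h2, one_div, inv_pow, ← pow_mul]
    have h3 : (1 - 1 / X) ^ (k * (2 * k ^ 2)) ≤ (1 - 1 / X) ^ (k * E.card) := by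
      refine pow_le_pow_of_le_one hX1.le ?_ (Nat.mul_le_mul_left k hEcard)
      have : 0 ≤ 1 / X := by positivity
      linarith
    have h4 : (1 : ℝ) / 2 ≤ (1 - 1 / X) ^ (k * (2 * k ^ 2)) := by
      have h5 := one_add_mul_le_pow (show (-2 : ℝ) ≤ -(1 / X) by linarith) (k * (2 * k ^ 2))
      have e' : (1 : ℝ) + -(1 / X) = 1 - 1 / X := by ring
      rw [e'] at h5
      refine le_trans ?_ h5
      push_cast
      have h6 : (k : ℝ) * (2 * k ^ 2) * (1 / X) ≤ 1 / 2 := by
        rw [mul_one_div, div_le_iff₀ (by linarith)]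
        nlinarith
      linarith
    have h5 : (1 : ℝ) / 2 ≤ (1 - 1 / X) ^ (k * E.card) := h4.trans h3
    calc ((1 - 1 / X) ^ (k * E.card))⁻¹ ≤ ((1 : ℝ) / 2)⁻¹ := inv_anti₀ (by norm_num) h5
      _ = 2 := by norm_num
  -- Mertens
  have hlogN : 0 < Real.log N := Real.log_pos (by exact_mod_cast (by omega : 1 < N))
  have hlogX : Real.log N ≤ Real.log X :=
    Real.log_le_log (by exact_mod_cast (by omega : 0 < N)) hNX
  have hlX : 0 < Real.log X := by linarith
  have hV : c₁ / Real.log X ≤ ∏ p ∈ P₁, (1 - 1 / (p : ℝ)) := by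
    have h1 := hmert N hN2
    rw [div_le_iff₀ hlX]
    refine h1.trans (mul_le_mul_of_nonneg_left hlogX ?_)
    exact Finset.prod_nonneg (fun p hp => (hone p (Finset.mem_filter.1 hp).2).le)
  have hVk : (c₁ / Real.log X) ^ k ≤ ∏ p ∈ P₁, b p := by
    simp only [hb]
    rw [Finset.prod_pow]
    exact pow_le_pow_left₀ (by positivity) hV k
  have hP1 : ∀ p ∈ P₁, p.Prime := fun p hp => (Finset.mem_filter.1 hp).2
  have hRP : 0 ≤ ∏ p ∈ P₁, (a p / b p) :=
    Finset.prod_nonneg (fun p hp => div_nonneg (ha0 p (hP1 p hp)) (hb0 p (hP1 p hp)).le)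
  have hprodA : ∏ p ∈ P₁, a p = (∏ p ∈ P₁, b p) * ∏ p ∈ P₁, (a p / b p) := by
    rw [← Finset.prod_mul_distrib]
    refine Finset.prod_congr rfl (fun p hp => ?_)
    have := (hb0 p (hP1 p hp)).ne'
    field_simp
  show c₁ ^ k / 2 * (1 / Real.log X ^ k * ∏ p ∈ (Icc 1 y).filter Nat.Prime, (a p / b p)) ≤
    ∏ p ∈ P₁, a p
  rw [hsplit, Finset.prod_union hdisj, hprodA]
  calc c₁ ^ k / 2 * (1 / Real.log X ^ k * ((∏ p ∈ P₁, (a p / b p)) * ∏ p ∈ P₂, (a p / b p)))
      ≤ c₁ ^ k / 2 * (1 / Real.log X ^ k * ((∏ p ∈ P₁, (a p / b p)) * 2)) := by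
        refine mul_le_mul_of_nonneg_left ?_ (by positivity)
        refine mul_le_mul_of_nonneg_left ?_ (by positivity)
        exact mul_le_mul_of_nonneg_left hR2 hRP
    _ = (c₁ / Real.log X) ^ k * ∏ p ∈ P₁, (a p / b p) := by
        rw [div_pow]
        ring
    _ ≤ _ := mul_le_mul_of_nonneg_right hVk hRP

theorem mert : ∃ c₁ : ℝ, 0 < c₁ ∧ ∀ z : ℕ, 2 ≤ z →
      c₁ ≤ (∏ p ∈ (Icc 1 z).filter Nat.Prime, (1 - 1 / (p : ℝ))) * Real.log z := by
  obtain ⟨c₁, c₂, h1, _, h2⟩ := Pool.Agent.H318R2.Cr.cz_bounds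
  refine ⟨c₁, h1, fun z hz => ?_⟩
  have h3 := (h2 z hz).1
  have h4 : Pool.Agent.H318R2.Cr.V z = ∏ p ∈ (Icc 1 z).filter Nat.Prime, (1 - 1 / (p : ℝ)) := by
    unfold Pool.Agent.H318R2.Cr.V
    refine Finset.prod_congr ?_ (fun _ _ => rfl)
    ext p
    rw [Pool.Agent.H318R2.Cr.mem_Pz, Finset.mem_filter, Finset.mem_Icc]
    constructor
    · rintro ⟨a, b⟩
      exact ⟨⟨a.one_lt.le, b⟩, a⟩
    · rintro ⟨⟨-, b⟩, a⟩
      exact ⟨a, b⟩
  rwa [h4] at h3

end Pool.Agent.Q117.LF.SSYJ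

namespace Pool.Agent.Q117.LF

theorem ssy : St_SSY := by
  intro k K hK
  obtain ⟨c, hc, X0, h⟩ := SSYJ.ssy_main SSYJ.mert k K hK
  refine ⟨c, hc, X0, ?_⟩
  intro X hX al be hal hbe hdet _ y hy
  exact h X hX al be hal hbe hdet y hy

end Pool.Agent.Q117.LF
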