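import Pool.Agent.Q117.LF.Stm6
import Pool.Agent.Q117.LF.Nsc
import Pool.Agent.Q117.LF.Ssy

/-!
Project LF (helper117), job STC (helper150): every string of types and residues has a positive
proportion.
-/

set_option autoImplicit false

namespace Pool.Agent.Q117.LF

open Finset Filter

namespace STCJ

/-! ### The classes -/

lemma cls_aux (q : ℕ) (S : Finset ℕ) (a : ℕ)
    (hS : ∀ p : ℕ, p.Prime → ∃ r : ℕ, ∀ h ∈ S, ¬ p ∣ r + h)
    (ha : ∀ h ∈ S, (a + h).Coprime q) (P : Finset ℕ) (hP : ∀ p ∈ P, p.Prime) :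
    ∃ b, b ≡ a [MOD q] ∧ ∀ p ∈ P, ∀ h ∈ S, ¬ p ∣ b + h := by
  induction P using Finset.induction_on with
  | empty => exact ⟨a, Nat.ModEq.refl _, by simp⟩
  | insert p P hpP ih =>
    obtain ⟨b, hb1, hb2⟩ := ih (fun p hp => hP p (mem_insert_of_mem hp))
    have hp := hP p (mem_insert_self _ _)
    by_cases hpq : p ∣ q
    · refine ⟨b, hb1, fun p' hp' h hh => ?_⟩
      rcases mem_insert.mp hp' with rfl | hp'
      · intro hd
        have h1 : b + h ≡ a + h [MOD p'] := (hb1.add_right h).of_dvd hpq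
        have h2 : p' ∣ a + h := (Nat.ModEq.dvd_iff h1 dvd_rfl).mp hd
        have h3 : p' ∣ 1 := (ha h hh) ▸ Nat.dvd_gcd h2 hpq
        exact hp.one_lt.ne' (Nat.dvd_one.mp h3)
      · exact hb2 p' hp' h hh
    · have hco : (q * ∏ p' ∈ P, p').Coprime p := by
        apply Nat.Coprime.mul_left
        · exact ((Nat.Prime.coprime_iff_not_dvd hp).mpr hpq).symm
        · apply Nat.Coprime.prod_left
          intro p' hp'
          rw [Nat.coprime_primes (hP p' (mem_insert_of_mem hp')) hp]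
          rintro rfl
          exact hpP hp'
      obtain ⟨r, hr⟩ := hS p hp
      obtain ⟨c, hc1, hc2⟩ := Nat.chineseRemainder hco b r
      refine ⟨c, (Nat.ModEq.of_mul_right _ hc1).trans hb1, fun p' hp' h hh hd => ?_⟩
      rcases mem_insert.mp hp' with rfl | hp'
      · exact hr h hh ((Nat.ModEq.dvd_iff (hc2.add_right h) dvd_rfl).mp hd)
      · have h1 : c ≡ b [MOD p'] := (Nat.ModEq.of_mul_left _ hc1).of_dvd (dvd_prod_of_mem _ hp')
        exact hb2 p' hp' h hh ((Nat.ModEq.dvd_iff (h1.add_right h) dvd_rfl).mp hd)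

lemma cls (q P0 : ℕ) (hq : 1 ≤ q) (hqP : q ≤ P0) (S : Finset ℕ) (a : ℕ)
    (hS : ∀ p : ℕ, p.Prime → ∃ r : ℕ, ∀ h ∈ S, ¬ p ∣ r + h)
    (ha : ∀ h ∈ S, (a + h).Coprime q) :
    ∃ b, b < P0.factorial ∧ b ≡ a [MOD q] ∧ ∀ h ∈ S, (b + h).Coprime P0.factorial := by
  obtain ⟨b, hb1, hb2⟩ := cls_aux q S a hS ha ((range (P0 + 1)).filter Nat.Prime)
    (fun p hp => (mem_filter.mp hp).2)
  have hmod : b % P0.factorial ≡ b [MOD P0.factorial] := Nat.mod_modEq _ _
  refine ⟨b % P0.factorial, Nat.mod_lt _ (Nat.factorial_pos _),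
    (hmod.of_dvd (Nat.dvd_factorial hq hqP)).trans hb1, fun h hh => ?_⟩
  apply Nat.Coprime.symm
  apply Nat.coprime_of_dvd
  intro p hp hpM hd
  have hpP : p ≤ P0 := (Nat.Prime.dvd_factorial hp).mp hpM
  exact hb2 p (by simp [Nat.lt_succ_of_le hpP, hp]) h hh
    ((Nat.ModEq.dvd_iff ((hmod.add_right h).of_dvd hpM) dvd_rfl).mp hd)

/-! ### The roots modulo a prime -/

lemma om_le_k {k : ℕ} (al : Fin k → ℕ) (be : Fin k → ℤ) (p : ℕ) (hp : p.Prime)
    (h1 : ∀ l, ¬ p ∣ al l) : om al be p ≤ k := by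
  classical
  unfold om
  have hsub : ((range p).filter (fun n : ℕ => ∃ l, (p : ℤ) ∣ fm al be l n)) ⊆
      (univ : Finset (Fin k)).biUnion
        (fun l => (range p).filter (fun n : ℕ => (p : ℤ) ∣ fm al be l n)) := by
    intro n hn
    rw [mem_filter] at hn
    obtain ⟨h2, l, h3⟩ := hn
    rw [mem_biUnion]
    exact ⟨l, mem_univ _, mem_filter.mpr ⟨h2, h3⟩⟩
  refine (card_le_card hsub).trans (card_biUnion_le.trans ?_)
  refine (sum_le_card_nsmul _ _ 1 (fun l _ => ?_)).trans (by simp)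
  rw [card_le_one]
  intro n hn m hm
  rw [mem_filter, mem_range] at hn hm
  have h4 : (p : ℤ) ∣ (al l : ℤ) * (n - m) := by
    have h5 := dvd_sub hn.2 hm.2
    have e : fm al be l n - fm al be l m = (al l : ℤ) * (n - m) := by
      unfold fm
      ring
    rwa [e] at h5
  have hpz : Prime (p : ℤ) := Nat.prime_iff_prime_int.mp hp
  rcases hpz.dvd_or_dvd h4 with h5 | h5
  · exact absurd (Int.natCast_dvd_natCast.mp h5) (h1 l)
  · have h6 : (n : ℤ) ≡ m [ZMOD p] := ((Int.modEq_iff_dvd.mpr h5)).symm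
    have h7 : n ≡ m [MOD p] := (Int.natCast_modEq_iff).mp h6
    exact Nat.ModEq.eq_of_lt_of_lt h7 hn.1 hm.1

lemma om_zero {k : ℕ} (M : ℕ) (be : Fin k → ℤ) (p : ℕ) (hp : p.Prime) (hpM : p ∣ M)
    (hbe : ∀ l, IsCoprime (be l) (M : ℤ)) : om (fun _ => M) be p = 0 := by
  classical
  unfold om
  rw [card_eq_zero, filter_eq_empty_iff]
  rintro n - ⟨l, hl⟩
  unfold fm at hl
  have hpM' : (p : ℤ) ∣ (M : ℤ) := Int.natCast_dvd_natCast.mpr hpM
  have h1 : (p : ℤ) ∣ be l := (dvd_add_right (hpM'.mul_right _)).mp hl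
  have h2 := (hbe l).isUnit_of_dvd' h1 hpM'
  rw [Int.isUnit_iff_natAbs_eq, Int.natAbs_natCast] at h2
  exact hp.one_lt.ne' h2

lemma adm_M {k P0 : ℕ} (be : Fin k → ℤ) (hk : k ≤ P0)
    (hbe : ∀ l, IsCoprime (be l) (P0.factorial : ℤ)) : AdmS (fun _ => P0.factorial) be := by
  classical
  intro p hp
  by_cases hpP : p ≤ P0
  · have hpM : p ∣ P0.factorial := (Nat.Prime.dvd_factorial hp).mpr hpP
    have := om_zero P0.factorial be p hp hpM hbe
    unfold om at this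
    rw [card_eq_zero, filter_eq_empty_iff] at this
    refine ⟨0, fun l hl => this (mem_range.mpr hp.pos) ⟨l, hl⟩⟩
  · have hpM : ¬ p ∣ P0.factorial := fun h => hpP ((Nat.Prime.dvd_factorial hp).mp h)
    have h1 := om_le_k (fun _ => P0.factorial) be p hp (fun _ => hpM)
    by_contra hcon
    push Not at hcon
    have h2 : om (fun _ => P0.factorial) be p = p := by
      unfold om
      rw [filter_true_of_mem (fun n _ => hcon n), card_range]
    omega

/-! ### The lower bound of the sieve product -/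

lemma pow_ineq (r : ℕ) (x : ℝ) (hx0 : 0 ≤ x) (hx1 : x ≤ 1) :
    (1 - x) ^ r ≤ 1 - r * x + (r : ℝ) ^ 2 * x ^ 2 := by
  induction r with
  | zero => simp
  | succ r ih =>
    have h1 : (0 : ℝ) ≤ 1 - x := by linarith
    have hr : (0 : ℝ) ≤ r := Nat.cast_nonneg _
    calc (1 - x) ^ (r + 1) = (1 - x) ^ r * (1 - x) := pow_succ _ _
      _ ≤ (1 - r * x + (r : ℝ) ^ 2 * x ^ 2) * (1 - x) := mul_le_mul_of_nonneg_right ih h1
      _ ≤ _ := by
        push_cast
        nlinarith [mul_nonneg (mul_nonneg (sq_nonneg (r : ℝ)) (sq_nonneg x)) hx0,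
          mul_nonneg hr (sq_nonneg x), sq_nonneg x]

lemma fac_ineq (r : ℕ) (x : ℝ) (hx0 : 0 ≤ x) (hx1 : 2 * r * x ≤ 1) (hx2 : x ≤ 1) :
    (1 - x) ^ r * (1 - 2 * (r : ℝ) ^ 2 * x ^ 2) ≤ 1 - r * x := by
  have h1 := pow_ineq r x hx0 hx2
  have h2 : 1 - (r : ℝ) * x ≤ (1 - x) ^ r := by
    have := one_add_mul_le_pow (a := -x) (by linarith) r
    have e : (1 + -x) = 1 - x := by ring
    rw [e] at this
    linarith
  have h3 : 1 / 2 ≤ (1 - x) ^ r := by linarith
  have h4 : 0 ≤ 2 * (r : ℝ) ^ 2 * x ^ 2 := by positivity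
  nlinarith

lemma prod_one_sub {ι : Type} (s : Finset ι) (f : ι → ℝ) (h0 : ∀ i ∈ s, 0 ≤ f i)
    (h1 : ∀ i ∈ s, f i ≤ 1) : 1 - ∑ i ∈ s, f i ≤ ∏ i ∈ s, (1 - f i) := by
  classical
  induction s using Finset.induction_on with
  | empty => simp
  | insert a s ha ih =>
    rw [sum_insert ha, prod_insert ha]
    have h2 := ih (fun i hi => h0 i (mem_insert_of_mem hi)) (fun i hi => h1 i (mem_insert_of_mem hi))
    have h3 := h0 a (mem_insert_self _ _)
    have h4 := h1 a (mem_insert_self _ _)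
    have h5 : 0 ≤ ∑ i ∈ s, f i := sum_nonneg fun i hi => h0 i (mem_insert_of_mem hi)
    have h6 : (1 - f a) * (1 - ∑ i ∈ s, f i) ≤ (1 - f a) * ∏ i ∈ s, (1 - f i) :=
      mul_le_mul_of_nonneg_left h2 (by linarith)
    nlinarith [mul_nonneg h3 h5]

lemma VN_lower (r P0 : ℕ) (hP0 : 4 * r ^ 2 + 2 * r + 2 ≤ P0) : ∃ c : ℝ, 0 < c ∧
    ∀ be : Fin r → ℤ, (∀ l, IsCoprime (be l) (P0.factorial : ℤ)) → ∀ y : ℕ, 2 ≤ y →
      c / Real.log y ^ r ≤ VN y (fun _ => P0.factorial) be := by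
  classical
  obtain ⟨c₁, hc₁, hm⟩ := SSYJ.mert
  refine ⟨c₁ ^ r / 2, by positivity, fun be hbe y hy => ?_⟩
  have hlog : 0 < Real.log y := Real.log_pos (by exact_mod_cast hy)
  set f : ℕ → ℝ := fun p => 1 - (om (fun _ : Fin r => P0.factorial) be p : ℝ) / p with hf
  have hf0 : ∀ p, 0 ≤ f p := fun p => by
    rw [hf]
    simp only
    rw [sub_nonneg]
    exact div_le_one_of_le₀ (by exact_mod_cast SSYJ.om_le _ be p) (Nat.cast_nonneg _)
  set A := (Icc 1 y).filter Nat.Prime with hA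
  set B := A.filter (fun p => P0 < p) with hB
  -- the factors of the small primes are one
  have e1 : VN y (fun _ => P0.factorial) be = ∏ p ∈ B, f p := by
    have h0 : ∏ p ∈ B, f p = ∏ p ∈ A, if P0 < p then f p else 1 := by
      rw [hB]
      exact prod_filter _ _
    change ∏ p ∈ A, f p = _
    rw [h0]
    apply prod_congr rfl
    intro p hp
    have hpp : p.Prime := (mem_filter.mp hp).2
    split_ifs with h
    · rfl
    · change 1 - (om (fun _ : Fin r => P0.factorial) be p : ℝ) / p = 1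
      rw [om_zero P0.factorial be p hpp ((Nat.Prime.dvd_factorial hpp).mpr (by omega)) hbe]
      simp
  have hr0 : (0 : ℝ) ≤ r := Nat.cast_nonneg _
  have e2 : ∀ p ∈ B, (1 - 1 / (p : ℝ)) ^ r * (1 - 2 * (r : ℝ) ^ 2 * (1 / (p : ℝ)) ^ 2) ≤ f p := by
    intro p hp
    have hp1 := mem_filter.mp hp
    have hpp : p.Prime := (mem_filter.mp hp1.1).2
    have hp0 : (0 : ℝ) < p := by exact_mod_cast hpp.pos
    have hpP : (P0 : ℝ) < p := by exact_mod_cast hp1.2
    have hP0' : (4 * r ^ 2 + 2 * r + 2 : ℝ) ≤ P0 := by exact_mod_cast hP0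
    have hom : (om (fun _ : Fin r => P0.factorial) be p : ℝ) ≤ r := by
      exact_mod_cast om_le_k (fun _ => P0.factorial) be p hpp
        (fun _ h => absurd ((Nat.Prime.dvd_factorial hpp).mp h) (not_le.mpr hp1.2))
    have h1 := fac_ineq r (1 / (p : ℝ)) (by positivity)
      (by
        rw [mul_one_div, div_le_one hp0]
        nlinarith)
      (by
        rw [div_le_one hp0]
        nlinarith)
    refine h1.trans ?_
    rw [hf]
    simp only
    rw [mul_one_div]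
    gcongr
  have e3 : (0 : ℝ) < P0 := by
    have : 0 < P0 := by omega
    exact_mod_cast this
  have hsum : ∑ p ∈ B, 2 * (r : ℝ) ^ 2 * (1 / (p : ℝ)) ^ 2 ≤ 1 / 2 := by
    have hBI : B ⊆ Ioc P0 (P0 + y) := by
      intro p hp
      have hp1 := mem_filter.mp hp
      have hp2 := mem_Icc.mp (mem_filter.mp hp1.1).1
      rw [mem_Ioc]
      omega
    calc ∑ p ∈ B, 2 * (r : ℝ) ^ 2 * (1 / (p : ℝ)) ^ 2
        ≤ ∑ p ∈ Ioc P0 (P0 + y), 2 * (r : ℝ) ^ 2 * (1 / (p : ℝ)) ^ 2 :=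
          sum_le_sum_of_subset_of_nonneg hBI (fun i _ _ => by positivity)
      _ = 2 * (r : ℝ) ^ 2 * ∑ p ∈ Ioc P0 (P0 + y), (((p : ℕ) : ℝ) ^ 2)⁻¹ := by
          rw [mul_sum]
          apply sum_congr rfl
          intro p _
          rw [one_div, inv_pow]
      _ ≤ 2 * (r : ℝ) ^ 2 * ((P0 : ℝ)⁻¹ - ((P0 + y : ℕ) : ℝ)⁻¹) := by
          gcongr
          exact sum_Ioc_inv_sq_le_sub (by omega) (by omega)
      _ ≤ 2 * (r : ℝ) ^ 2 * (P0 : ℝ)⁻¹ := by
          gcongr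
          have : (0 : ℝ) ≤ ((P0 + y : ℕ) : ℝ)⁻¹ := by positivity
          linarith
      _ ≤ 1 / 2 := by
          have hP0' : (4 * r ^ 2 + 2 * r + 2 : ℝ) ≤ P0 := by exact_mod_cast hP0
          rw [← div_eq_mul_inv, div_le_iff₀ e3]
          nlinarith
  have hone : ∀ p ∈ A, 0 ≤ 1 - 1 / (p : ℝ) ∧ 1 - 1 / (p : ℝ) ≤ 1 := by
    intro p hp
    have hp1 : 1 ≤ p := (mem_Icc.mp (mem_filter.mp hp).1).1
    constructor
    · rw [sub_nonneg]
      exact div_le_one_of_le₀ (by exact_mod_cast hp1) (Nat.cast_nonneg _)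
    · have : (0 : ℝ) ≤ 1 / (p : ℝ) := by positivity
      linarith
  have hBA : B ⊆ A := filter_subset _ _
  have hterm : ∀ p ∈ B, 0 ≤ 2 * (r : ℝ) ^ 2 * (1 / (p : ℝ)) ^ 2 ∧
      2 * (r : ℝ) ^ 2 * (1 / (p : ℝ)) ^ 2 ≤ 1 := by
    intro p hp
    refine ⟨by positivity, ?_⟩
    exact (single_le_sum (f := fun p : ℕ => 2 * (r : ℝ) ^ 2 * (1 / (p : ℝ)) ^ 2)
      (fun i _ => by positivity) hp).trans (hsum.trans (by norm_num))
  have e4 : (1 : ℝ) / 2 ≤ ∏ p ∈ B, (1 - 2 * (r : ℝ) ^ 2 * (1 / (p : ℝ)) ^ 2) := by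
    have := prod_one_sub B (fun p : ℕ => 2 * (r : ℝ) ^ 2 * (1 / (p : ℝ)) ^ 2)
      (fun p hp => (hterm p hp).1) (fun p hp => (hterm p hp).2)
    linarith
  have e5 : c₁ / Real.log y ≤ ∏ p ∈ B, (1 - 1 / (p : ℝ)) := by
    rw [div_le_iff₀ hlog]
    refine (hm y hy).trans ?_
    apply mul_le_mul_of_nonneg_right _ hlog.le
    rw [← prod_sdiff hBA]
    calc (∏ p ∈ A \ B, (1 - 1 / (p : ℝ))) * ∏ p ∈ B, (1 - 1 / (p : ℝ))
        ≤ 1 * ∏ p ∈ B, (1 - 1 / (p : ℝ)) := by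
          apply mul_le_mul_of_nonneg_right
          · exact prod_le_one (fun i hi => (hone i (mem_sdiff.mp hi).1).1)
              (fun i hi => (hone i (mem_sdiff.mp hi).1).2)
          · exact prod_nonneg fun i hi => (hone i (hBA hi)).1
      _ = _ := one_mul _
  rw [e1]
  calc c₁ ^ r / 2 / Real.log y ^ r = (c₁ / Real.log y) ^ r * (1 / 2) := by
        rw [div_pow]
        ring
    _ ≤ (∏ p ∈ B, (1 - 1 / (p : ℝ))) ^ r *
        ∏ p ∈ B, (1 - 2 * (r : ℝ) ^ 2 * (1 / (p : ℝ)) ^ 2) := by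
        apply mul_le_mul _ e4 (by norm_num)
        · exact pow_nonneg (prod_nonneg fun i hi => (hone i (hBA hi)).1) _
        · exact pow_le_pow_left₀ (by positivity) e5 _
    _ = ∏ p ∈ B, ((1 - 1 / (p : ℝ)) ^ r * (1 - 2 * (r : ℝ) ^ 2 * (1 / (p : ℝ)) ^ 2)) := by
        rw [prod_mul_distrib, prod_pow]
    _ ≤ ∏ p ∈ B, f p := by
        apply prod_le_prod _ e2
        intro p hp
        exact mul_nonneg (pow_nonneg (hone p (hBA hp)).1 _) (by linarith [(hterm p hp).2])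

/-! ### The good numbers for one vector of the shifts -/

/-- the good `n` for the vector `D` of the shifts -/
def Gd (z X L : ℝ) {J g : ℕ} (S : Fin g → Finset ℕ) (τ : Fin (J + 1) → Fin g)
    (j₁ j₂ : Fin (J + 1)) (h₁ h₂ : ℕ) (D : Fin (J + 1) → ℕ) (n : ℕ) : Prop :=
  X < n ∧ (n : ℝ) ≤ 2 * X ∧ (n + D j₁ + h₁).Prime ∧
  Pt (X ^ (1 / 9 : ℝ)) ((n + D j₂ + h₂ : ℕ) : ℤ) ∧
  (∀ j, Ty z (S (τ j)) ((n + D j : ℕ) : ℤ)) ∧
  ∀ γ, ∀ k : ℤ, |((k - n : ℤ) : ℝ)| ≤ L → Ty z (S γ) k →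
    ∀ h ∈ S γ, ∃ j, ∃ h' ∈ S (τ j), k + h = ((n + D j : ℕ) : ℤ) + h'

lemma Gd_ex {z X L : ℝ} {J g κ : ℕ} {S : Fin g → Finset ℕ} {τ : Fin (J + 1) → Fin g}
    {j₁ j₂ : Fin (J + 1)} {h₁ h₂ : ℕ} {D : Fin (J + 1) → ℕ} {n : ℕ}
    (hS : ∀ γ, (S γ).card = κ ∧ 0 ∈ S γ) (hinj : Function.Injective S) (Dm : ℕ)
    (hDm : ∀ γ, ∀ h ∈ S γ, h ≤ Dm) (hDs : ∀ i j, i < j → D i + 2 * Dm < D j)
    (hn : Gd z X L S τ j₁ j₂ h₁ h₂ D n) (γ : Fin g) (k : ℤ) (hk : |((k - n : ℤ) : ℝ)| ≤ L)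
    (hT : Ty z (S γ) k) : ∃ j, k = ((n + D j : ℕ) : ℤ) ∧ γ = τ j := by
  have h1 := hn.2.2.2.2.2 γ k hk hT
  obtain ⟨j, h0, hh0, e0⟩ := h1 0 (hS γ).2
  push_cast at e0
  rw [add_zero] at e0
  have h2 : ∀ h ∈ S γ, h0 + h ∈ S (τ j) := by
    intro h hh
    obtain ⟨j', h', hh', e1⟩ := h1 h hh
    push_cast at e1
    have b0 := hDm _ _ hh0
    have b1 := hDm _ _ hh
    have b2 := hDm _ _ hh'
    rcases lt_trichotomy j j' with hjj | hjj | hjj
    · have := hDs j j' hjj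
      omega
    · subst hjj
      have : h0 + h = h' := by omega
      rw [this]
      exact hh'
    · have := hDs j' j hjj
      omega
  have h3 : (S γ).image (fun h => h0 + h) = S (τ j) := by
    apply eq_of_subset_of_card_le
    · intro x hx
      obtain ⟨h, hh, rfl⟩ := mem_image.mp hx
      exact h2 h hh
    · rw [card_image_of_injective _ (add_right_injective h0), (hS γ).1, (hS (τ j)).1]
  have h4 : h0 = 0 := by
    have h5 := (hS (τ j)).2
    rw [← h3, mem_image] at h5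
    obtain ⟨h, -, h6⟩ := h5
    omega
  refine ⟨j, ?_, ?_⟩
  · rw [e0, h4]
    push_cast
    ring
  · apply hinj
    rw [← h3, h4]
    simp

lemma Gd_str {z X L : ℝ} {J g κ q : ℕ} {S : Fin g → Finset ℕ} {τ : Fin (J + 1) → Fin g}
    {a : Fin (J + 1) → ℕ}
    {j₁ j₂ : Fin (J + 1)} {h₁ h₂ : ℕ} {D : Fin (J + 1) → ℕ} {n : ℕ}
    (hS : ∀ γ, (S γ).card = κ ∧ 0 ∈ S γ) (hinj : Function.Injective S) (Dm : ℕ)
    (hDm : ∀ γ, ∀ h ∈ S γ, h ≤ Dm) (hDs : ∀ i j, i < j → D i + 2 * Dm < D j)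
    (hD0 : D 0 = 0) (hDL : ∀ j, (D j : ℝ) ≤ L) (hmod : ∀ j, n + D j ≡ a j [MOD q])
    (hn : Gd z X L S τ j₁ j₂ h₁ h₂ D n) : n ∈ StrS q z X L S τ a j₁ j₂ h₁ h₂ := by
  refine ⟨hn.1, hn.2.1, fun j => n + D j, ?_, ?_, ?_, hmod, hn.2.2.2.2.1, hn.2.2.1,
    hn.2.2.2.1, fun γ k hk hT => ?_⟩
  · simp [hD0]
  · intro i j hij
    have := hDs i j hij
    simp only
    omega
  · intro j
    push_cast
    linarith [hDL j]
  · exact Gd_ex hS hinj Dm hDm hDs hn γ k hk hT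

lemma Gd_unique {z X L : ℝ} {J g κ w : ℕ} {S : Fin g → Finset ℕ} {τ : Fin (J + 1) → Fin g}
    {j₁ j₂ : Fin (J + 1)} {h₁ h₂ : ℕ} {D D' : Fin (J + 1) → ℕ} {n : ℕ}
    (hS : ∀ γ, (S γ).card = κ ∧ 0 ∈ S γ) (hinj : Function.Injective S) (Dm : ℕ)
    (hDm : ∀ γ, ∀ h ∈ S γ, h ≤ Dm)
    (hDs' : ∀ i j, i < j → D' i + 2 * Dm < D' j)
    (hDL : ∀ j, (D j : ℝ) ≤ L)
    (hDw : ∀ j : Fin (J + 1), 2 * (j : ℕ) * w ≤ D j ∧ D j < 2 * (j : ℕ) * w + w)
    (hDw' : ∀ j : Fin (J + 1), 2 * (j : ℕ) * w ≤ D' j ∧ D' j < 2 * (j : ℕ) * w + w)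
    (hn : Gd z X L S τ j₁ j₂ h₁ h₂ D n) (hn' : Gd z X L S τ j₁ j₂ h₁ h₂ D' n) : D = D' := by
  funext j
  obtain ⟨i, hi, -⟩ := Gd_ex hS hinj Dm hDm hDs' hn' (τ j) ((n + D j : ℕ) : ℤ)
    (by
      push_cast
      rw [add_sub_cancel_left, abs_of_nonneg (Nat.cast_nonneg _)]
      exact hDL j) (hn.2.2.2.2.1 j)
  have h1 : D j = D' i := by omega
  have h2 : (i : ℕ) = j := by
    obtain ⟨a1, a2⟩ := hDw j
    obtain ⟨b1, b2⟩ := hDw' i
    rw [h1] at a1 a2
    rcases lt_trichotomy (i : ℕ) j with h | h | h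
    · have : 2 * ((i : ℕ) + 1) * w ≤ 2 * (j : ℕ) * w :=
        Nat.mul_le_mul_right _ (Nat.mul_le_mul_left _ h)
      nlinarith
    · exact h
    · have : 2 * ((j : ℕ) + 1) * w ≤ 2 * (i : ℕ) * w :=
        Nat.mul_le_mul_right _ (Nat.mul_le_mul_left _ h)
      nlinarith
  rw [h1, Fin.ext h2]

/-! ### From the theorem at the natural scale to the good numbers -/

lemma stepA {J g κ M : ℕ} (hM : 1 ≤ M) (S : Fin g → Finset ℕ) (τ : Fin (J + 1) → Fin g)
    (en : Fin g → Fin κ → ℕ) (hen : ∀ γ h, h ∈ S γ ↔ ∃ y, en γ y = h)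
    (j₁ j₂ : Fin (J + 1)) (y₁ y₂ : Fin κ) (b0 : ℕ) (hb0 : b0 < M)
    (D : Fin (J + 1) → ℕ) {G : ℕ} (F : Fin G → Fin g × ℕ)
    (hF : ∀ γ e, e < M → (∀ h ∈ S γ, (b0 + e + h).Coprime M) → ∃ y, F y = (γ, e))
    {z X L : ℝ} (hz : ∀ p : ℕ, p.Prime → p ∣ M → (p : ℝ) ≤ z) (hX2 : 2 * (M : ℝ) ≤ X)
    (hX9 : X ^ (1 / 9 : ℝ) ≤ (X / M) ^ (1 / 8 : ℝ)) (x : ℕ)
    (hx : x ∈ PtsN 2 z (X / M) (L / M + 1) (fun _ : Fin ((J + 1) * κ) => M)
      (fun l => ((b0 + D (finProdFinEquiv.symm l).1 +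
        en (τ (finProdFinEquiv.symm l).1) (finProdFinEquiv.symm l).2 : ℕ) : ℤ))
      (finProdFinEquiv (j₁, y₁)) (finProdFinEquiv (j₂, y₂))
      (fun _ : Fin G => κ) (fun _ _ => M)
      (fun γ y => ((b0 + (F γ).2 + en (F γ).1 y : ℕ) : ℤ))) :
    Gd z X L S τ j₁ j₂ (en (τ j₁) y₁) (en (τ j₂) y₂) D (M * x + b0) := by
  have hM0 : (0 : ℝ) < M := by exact_mod_cast hM
  have hX0 : 0 < X := by linarith
  simp only [PtsN, mem_filter, mem_range] at hx
  obtain ⟨-, h1, h2, h3, h4, h5, h6, h7⟩ := hx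
  unfold fm at h4 h5 h6
  simp only [Equiv.symm_apply_apply] at h4 h5
  have hXx : X < M * x := by
    rw [div_lt_iff₀ hM0] at h1
    linarith
  have hxX : (M : ℝ) * x ≤ 3 / 2 * X := by
    have e1 : (M : ℝ) * (X / M + X / M / (2 : ℕ)) = 3 / 2 * X := by
      push_cast
      field_simp
      norm_num
    rw [← e1]
    exact mul_le_mul_of_nonneg_left h2 hM0.le
  have hb0' : (b0 : ℝ) ≤ M := by exact_mod_cast hb0.le
  have hb0n : (0 : ℝ) ≤ b0 := Nat.cast_nonneg _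
  refine ⟨?_, ?_, ?_, ?_, fun j h hh => ?_, fun γ k hk hT => ?_⟩
  · push_cast
    linarith
  · push_cast
    linarith
  · have e : ((M : ℤ) * x + ((b0 + D j₁ + en (τ j₁) y₁ : ℕ) : ℤ)) =
        ((M * x + b0 + D j₁ + en (τ j₁) y₁ : ℕ) : ℤ) := by
      push_cast
      ring
    rw [e, Int.natAbs_natCast] at h4
    exact h4
  · have e : ((M : ℤ) * x + ((b0 + D j₂ + en (τ j₂) y₂ : ℕ) : ℤ)) =
        ((M * x + b0 + D j₂ + en (τ j₂) y₂ : ℕ) : ℤ) := by
      push_cast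
      ring
    rw [e] at h5
    exact ⟨h5.1, fun p hp hpd => lt_of_le_of_lt hX9 (h5.2 p hp hpd)⟩
  · obtain ⟨y, rfl⟩ := (hen _ _).mp hh
    have h8 := h6 (finProdFinEquiv (j, y))
    simp only [Equiv.symm_apply_apply] at h8
    convert h8 using 1
    push_cast
    ring
  · -- the other numbers
    set n : ℕ := M * x + b0 with hn
    set w : ℤ := (k - b0) / M with hw
    have hMz : (0 : ℤ) < M := by exact_mod_cast hM
    have he0 : 0 ≤ (k - b0) % (M : ℤ) := Int.emod_nonneg _ hMz.ne'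
    obtain ⟨e, he⟩ := Int.eq_ofNat_of_zero_le he0
    have heM : e < M := by
      have := Int.emod_lt_of_pos (k - b0) hMz
      rw [he] at this
      exact_mod_cast this
    have hkw : k = M * w + b0 + e := by
      have := Int.emod_add_mul_ediv (k - b0) M
      rw [he] at this
      rw [hw]
      have e2 : ((e : ℕ) : ℤ) + (M : ℤ) * ((k - b0) / M) = k - b0 := this
      linarith
    have hnz : (n : ℤ) = M * x + b0 := by
      rw [hn]
      push_cast
      ring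
    have hcop : ∀ h ∈ S γ, (b0 + e + h).Coprime M := by
      intro h hh
      apply Nat.Coprime.symm
      apply Nat.coprime_of_dvd
      intro p hp hpM hpd
      have h8 : (p : ℤ) ∣ k + h := by
        have h9 : (p : ℤ) ∣ ((b0 + e + h : ℕ) : ℤ) := Int.natCast_dvd_natCast.mpr hpd
        have h10 : (p : ℤ) ∣ (M : ℤ) * w := (Int.natCast_dvd_natCast.mpr hpM).mul_right _
        have h11 : k + h = (M : ℤ) * w + ((b0 + e + h : ℕ) : ℤ) := by
          rw [hkw]
          push_cast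
          ring
        rw [h11]
        exact dvd_add h10 h9
      exact absurd (hT h hh p hp h8) (not_lt.mpr (hz p hp hpM))
    obtain ⟨γ', hγ'⟩ := hF γ e heM hcop
    have hd : |((w - x : ℤ) : ℝ)| ≤ L / M + 1 := by
      have e1 : (M : ℝ) * ((w - x : ℤ) : ℝ) = ((k - n : ℤ) : ℝ) - e := by
        have : (M : ℤ) * (w - x) = (k - n) - e := by
          rw [hnz, hkw]
          ring
        exact_mod_cast this
      have e2 : (M : ℝ) * |((w - x : ℤ) : ℝ)| ≤ L + M := by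
        have e3 : (M : ℝ) * |((w - x : ℤ) : ℝ)| = |(M : ℝ) * ((w - x : ℤ) : ℝ)| := by
          rw [abs_mul, abs_of_pos hM0]
        rw [e3, e1]
        have e4 : |(((k - n : ℤ) : ℝ) - e)| ≤ |((k - n : ℤ) : ℝ)| + |(e : ℝ)| := abs_sub _ _
        have e5 : |(e : ℝ)| ≤ M := by
          rw [abs_of_nonneg (Nat.cast_nonneg _)]
          exact_mod_cast heM.le
        linarith
      have e6 : L / M + 1 = (L + M) / M := by field_simp
      rw [e6, le_div_iff₀ hM0]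
      linarith
    have h8 := h7 γ' (w - x) hd (by
      intro y
      rw [hγ']
      simp only
      have h9 := hT (en γ y) ((hen _ _).mpr ⟨y, rfl⟩)
      convert h9 using 1
      rw [hkw]
      push_cast
      ring)
    intro h hh
    obtain ⟨y, rfl⟩ := (hen _ _).mp hh
    obtain ⟨l, -, h9⟩ := h8 (Fin.cast (by rfl) y)
    refine ⟨(finProdFinEquiv.symm l).1, en (τ (finProdFinEquiv.symm l).1)
      (finProdFinEquiv.symm l).2, (hen _ _).mpr ⟨_, rfl⟩, ?_⟩
    rw [hγ'] at h9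
    simp only [Fin.cast_eq_self] at h9
    push_cast at h9 ⊢
    rw [hnz, hkw]
    linarith

/-! ### The family of the types -/

lemma fam_upper (hV : St_VUP) {G κ M : ℕ} (hM : 1 ≤ M) (be' : Fin G → Fin κ → ℤ)
    (hinj : ∀ γ, Function.Injective (be' γ)) : ∃ C : ℝ, 0 < C ∧ ∀ γ, ∀ y : ℕ, 2 ≤ y →
      VN y (fun _ => M) (be' γ) ≤ C / Real.log y ^ κ := by
  have h1 : ∀ γ, ∃ C : ℝ, 0 < C ∧ ∀ y : ℕ, 2 ≤ y →
      VN y (fun _ => M) (be' γ) ≤ C / Real.log y ^ κ := fun γ =>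
    hV κ (fun _ => M) (be' γ) (fun _ => hM) (fun l m hlm h => hlm (by
      have h2 : (M : ℤ) ≠ 0 := by
        have : M ≠ 0 := by omega
        exact_mod_cast this
      exact ((hinj γ) (mul_left_cancel₀ h2 h)).symm))
  choose C hC hCb using h1
  refine ⟨1 + ∑ γ, C γ, ?_, fun γ y hy => (hCb γ y hy).trans ?_⟩
  · have : 0 ≤ ∑ γ, C γ := sum_nonneg fun γ _ => (hC γ).le
    linarith
  · have h2 : C γ ≤ ∑ γ, C γ := single_le_sum (f := C) (fun i _ => (hC i).le) (mem_univ γ)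
    have h3 : 0 ≤ Real.log y := Real.log_natCast_nonneg y
    gcongr
    linarith

/-! ### Large `X` -/

lemma ev_all (M P0 Dm J κ t : ℕ) (hM : 1 ≤ M) (hκ : 1 ≤ κ) (ht : 1 ≤ t) (ν ν₁ C X0 : ℝ)
    (hν : 0 < ν) (hν₁ : 0 < ν₁) (hC : 0 < C) (hνC : ν * (C * 2 ^ κ) ≤ ν₁ / 2) :
    ∀ᶠ X : ℝ in atTop, X0 ≤ X / M ∧ 4 ≤ X / M ∧ X ^ (1 / 9 : ℝ) ≤ (X / M) ^ (1 / 8 : ℝ) ∧
      X ^ (1 / ((t + 1 : ℕ) : ℝ)) ≤ (X / M) ^ (1 / (t : ℝ)) ∧
      (X / M) ^ (1 / ((t + 2 : ℕ) : ℝ)) ≤ X ^ (1 / ((t + 1 : ℕ) : ℝ)) ∧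
      (P0 : ℝ) ≤ X ^ (1 / ((t + 1 : ℕ) : ℝ)) ∧
      (M : ℝ) + ν * Real.log X ^ κ + Dm ≤ X / M ∧
      ν * Real.log X ^ κ / M + 1 ≤ X / M ∧
      (ν * Real.log X ^ κ / M + 1) * (C / Real.log ⌊X / M⌋₊ ^ κ) ≤ ν₁ ∧
      2 * Dm + 1 ≤ ⌊ν * Real.log X ^ κ / (4 * M * (J + 1))⌋₊ ∧
      ν * Real.log X ^ κ / (8 * M * (J + 1)) ≤
        (⌊ν * Real.log X ^ κ / (4 * M * (J + 1))⌋₊ : ℝ) ∧
      2 * (M : ℝ) ≤ X := by
  have hM1 : (1 : ℝ) ≤ M := by exact_mod_cast hM
  have hM0 : (0 : ℝ) < M := by linarith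
  have hlog : Tendsto (fun X : ℝ => Real.log X ^ κ) atTop atTop :=
    (tendsto_pow_atTop (by omega)).comp Real.tendsto_log_atTop
  have ho : ∀ ε : ℝ, 0 < ε → ∀ᶠ X : ℝ in atTop, Real.log X ^ κ ≤ ε * X := by
    intro ε hε
    have h1 := (Real.isLittleO_pow_log_id_atTop (n := κ)).bound hε
    filter_upwards [h1, eventually_ge_atTop (1 : ℝ)] with X h2 h3
    have h4 : ‖Real.log X ^ κ‖ = Real.log X ^ κ := by
      rw [Real.norm_eq_abs, abs_of_nonneg (pow_nonneg (Real.log_nonneg h3) _)]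
    rw [h4, id_eq, Real.norm_eq_abs, abs_of_nonneg (by linarith)] at h2
    exact h2
  have hrp : ∀ s : ℝ, 0 < s → Tendsto (fun X : ℝ => X ^ s) atTop atTop :=
    fun s hs => tendsto_rpow_atTop hs
  have ht0 : (0 : ℝ) < t := by exact_mod_cast ht
  filter_upwards [eventually_ge_atTop (X0 * M), eventually_ge_atTop (4 * (M : ℝ)),
    (hrp (1 / 9) (by norm_num)).eventually_ge_atTop (M : ℝ),
    (hrp (1 / ((t + 1 : ℕ) : ℝ)) (by positivity)).eventually_ge_atTop (max (M : ℝ) P0),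
    ho (1 / (2 * M * ν)) (by positivity), eventually_ge_atTop (2 * M * (M + Dm + 1 : ℝ)),
    hlog.eventually_ge_atTop (2 * (C * 2 ^ κ) / ν₁),
    hlog.eventually_ge_atTop ((2 * Dm + 2) * (8 * M * (J + 1)) / ν),
    eventually_ge_atTop (4 * (M : ℝ) ^ 2), eventually_ge_atTop (2 : ℝ)] with X a1 a2 a3 a4 a5 a6
      a7 a8 a9 a10
  have hX0 : 0 < X := by linarith
  have hX1 : 1 ≤ X := by linarith
  have hXM : X / M ≤ X := div_le_self hX0.le hM1
  have hXM0 : 0 < X / M := by positivity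
  have hl0 : 0 < Real.log X := Real.log_pos (by linarith)
  have hlk : 0 < Real.log X ^ κ := pow_pos hl0 _
  have hL : ν * Real.log X ^ κ ≤ X / (2 * M) := by
    calc ν * Real.log X ^ κ ≤ ν * (1 / (2 * M * ν) * X) := mul_le_mul_of_nonneg_left a5 hν.le
      _ = X / (2 * M) := by field_simp
  have h5 : (M : ℝ) + Dm + 1 ≤ X / (2 * M) := by
    rw [le_div_iff₀ (by positivity)]
    linarith
  have h6 : X / (2 * M) + X / (2 * M) = X / M := by
    field_simp
    norm_num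
  have hM9 : X / X ^ (1 / 9 : ℝ) ≤ X / M := div_le_div_of_nonneg_left hX0.le hM0 a3
  refine ⟨by rwa [le_div_iff₀ hM0], by rwa [le_div_iff₀ hM0], ?_, ?_, ?_,
    (le_max_right _ _).trans a4, by linarith, ?_, ?_, ?_, ?_, by linarith⟩
  · have e1 : X / X ^ (1 / 9 : ℝ) = X ^ (8 / 9 : ℝ) := by
      rw [div_eq_iff (by positivity), ← Real.rpow_add hX0]
      norm_num
    calc X ^ (1 / 9 : ℝ) = (X ^ (8 / 9 : ℝ)) ^ (1 / 8 : ℝ) := by
          rw [← Real.rpow_mul hX0.le]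
          norm_num
      _ ≤ (X / M) ^ (1 / 8 : ℝ) :=
        Real.rpow_le_rpow (by positivity) (by rw [← e1]; exact hM9) (by norm_num)
  · have e1 : X / X ^ (1 / ((t + 1 : ℕ) : ℝ)) = X ^ ((t : ℝ) / ((t + 1 : ℕ) : ℝ)) := by
      rw [div_eq_iff (by positivity), ← Real.rpow_add hX0]
      push_cast
      rw [← add_div, div_self (by positivity), Real.rpow_one]
    have e2 : X / X ^ (1 / ((t + 1 : ℕ) : ℝ)) ≤ X / M :=
      div_le_div_of_nonneg_left hX0.le hM0 ((le_max_left _ _).trans a4)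
    calc X ^ (1 / ((t + 1 : ℕ) : ℝ)) = (X ^ ((t : ℝ) / ((t + 1 : ℕ) : ℝ))) ^ (1 / (t : ℝ)) := by
          rw [← Real.rpow_mul hX0.le]
          congr 1
          field_simp
      _ ≤ (X / M) ^ (1 / (t : ℝ)) :=
        Real.rpow_le_rpow (by positivity) (by rw [← e1]; exact e2) (by positivity)
  · calc (X / M) ^ (1 / ((t + 2 : ℕ) : ℝ)) ≤ X ^ (1 / ((t + 2 : ℕ) : ℝ)) :=
          Real.rpow_le_rpow hXM0.le hXM (by positivity)
      _ ≤ X ^ (1 / ((t + 1 : ℕ) : ℝ)) := by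
          apply Real.rpow_le_rpow_of_exponent_le hX1
          apply one_div_le_one_div_of_le (by positivity)
          push_cast
          linarith
  · have e1 : ν * Real.log X ^ κ / M ≤ ν * Real.log X ^ κ := div_le_self (by positivity) hM1
    have e2 : (0 : ℝ) ≤ Dm := Nat.cast_nonneg _
    linarith
  · -- the sieve products of the family
    have e1 : X / (2 * M) ≤ (⌊X / M⌋₊ : ℝ) := by
      have := Nat.sub_one_lt_floor (X / M)
      have e2 : (1 : ℝ) ≤ X / (2 * M) := by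
        have : (0 : ℝ) ≤ Dm := Nat.cast_nonneg _
        linarith
      linarith
    have e3 : Real.log X / 2 ≤ Real.log ⌊X / M⌋₊ := by
      have e4 : Real.sqrt X ≤ X / (2 * M) := by
        rw [le_div_iff₀ (by positivity)]
        have e5 : 2 * (M : ℝ) ≤ Real.sqrt X := by
          apply Real.le_sqrt_of_sq_le
          nlinarith
        calc Real.sqrt X * (2 * M) ≤ Real.sqrt X * Real.sqrt X :=
              mul_le_mul_of_nonneg_left e5 (Real.sqrt_nonneg _)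
          _ = X := Real.mul_self_sqrt hX0.le
      calc Real.log X / 2 = Real.log (Real.sqrt X) := (Real.log_sqrt hX0.le).symm
        _ ≤ _ := Real.log_le_log (Real.sqrt_pos.mpr hX0) (e4.trans e1)
    have e6 : C / Real.log ⌊X / M⌋₊ ^ κ ≤ C * 2 ^ κ / Real.log X ^ κ := by
      calc C / Real.log ⌊X / M⌋₊ ^ κ ≤ C / (Real.log X / 2) ^ κ := by
            apply div_le_div_of_nonneg_left hC.le (by positivity)
            exact pow_le_pow_left₀ (by positivity) e3 _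
        _ = _ := by
            rw [div_pow]
            field_simp
    calc (ν * Real.log X ^ κ / M + 1) * (C / Real.log ⌊X / M⌋₊ ^ κ)
        ≤ (ν * Real.log X ^ κ + 1) * (C * 2 ^ κ / Real.log X ^ κ) := by
          apply mul_le_mul _ e6 _ (by positivity)
          · gcongr
            exact div_le_self (by positivity) hM1
          · have : 0 ≤ Real.log (⌊X / M⌋₊ : ℝ) := Real.log_natCast_nonneg _
            positivity
      _ = ν * (C * 2 ^ κ) + C * 2 ^ κ / Real.log X ^ κ := by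
          field_simp
      _ ≤ ν₁ / 2 + ν₁ / 2 := by
          apply add_le_add hνC
          rw [div_le_iff₀ hlk]
          rw [div_le_iff₀ hν₁] at a7
          linarith
      _ = ν₁ := by ring
  · apply Nat.le_floor
    rw [le_div_iff₀ (by positivity)]
    rw [div_le_iff₀ hν] at a8
    have : (0 : ℝ) ≤ Dm := Nat.cast_nonneg _
    have h7 : (0 : ℝ) ≤ M * (J + 1) := by positivity
    push_cast
    nlinarith [mul_nonneg h7 this]
  · have e1 := Nat.sub_one_lt_floor (ν * Real.log X ^ κ / (4 * M * (J + 1)))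
    have e2 : ν * Real.log X ^ κ / (4 * M * (J + 1)) =
        ν * Real.log X ^ κ / (8 * M * (J + 1)) + ν * Real.log X ^ κ / (8 * M * (J + 1)) := by
      field_simp
      norm_num
    have e3 : 1 ≤ ν * Real.log X ^ κ / (8 * M * (J + 1)) := by
      rw [le_div_iff₀ (by positivity)]
      rw [div_le_iff₀ hν] at a8
      have : (0 : ℝ) ≤ Dm := Nat.cast_nonneg _
      have h7 : (0 : ℝ) ≤ M * (J + 1) := by positivity
      nlinarith [mul_nonneg h7 this]
    linarith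

/-! ### The vectors of the shifts -/

/-- the shifts of a vector `v` -/
def sft {J : ℕ} (M u : ℕ) (b : Fin (J + 1) → ℕ) (v : Fin J → Fin u) (j : Fin (J + 1)) : ℕ :=
  M * (2 * (j : ℕ) * u + (Fin.cons 0 (fun i => (v i : ℕ)) : Fin (J + 1) → ℕ) j) +
    (b j + (M - b 0)) % M

lemma sft_zero {J : ℕ} {M u : ℕ} {b : Fin (J + 1) → ℕ} (hb : ∀ j, b j < M) (v : Fin J → Fin u) :
    sft M u b v 0 = 0 := by
  have h1 : b 0 + (M - b 0) = M := by
    have := hb 0
    omega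
  unfold sft
  rw [h1]
  simp

lemma cons_lt {J : ℕ} {u : ℕ} (hu : 1 ≤ u) (v : Fin J → Fin u) (j : Fin (J + 1)) :
    (Fin.cons 0 (fun i => (v i : ℕ)) : Fin (J + 1) → ℕ) j + 1 ≤ u := by
  refine Fin.cases ?_ (fun i => ?_) j
  · simpa using hu
  · rw [Fin.cons_succ]
    exact (v i).2

lemma sft_blk {J : ℕ} {M u : ℕ} {b : Fin (J + 1) → ℕ} (hM : 1 ≤ M) (hu : 1 ≤ u)
    (v : Fin J → Fin u) (j : Fin (J + 1)) :
    2 * (j : ℕ) * (M * u) ≤ sft M u b v j ∧ sft M u b v j < 2 * (j : ℕ) * (M * u) + M * u := by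
  have h1 := cons_lt hu v j
  have h2 : (b j + (M - b 0)) % M < M := Nat.mod_lt _ hM
  unfold sft
  set y := (Fin.cons 0 (fun i => (v i : ℕ)) : Fin (J + 1) → ℕ) j
  set ρ := (b j + (M - b 0)) % M
  have h3 : M * (y + 1) ≤ M * u := Nat.mul_le_mul_left _ h1
  constructor
  · nlinarith [Nat.zero_le (M * y)]
  · nlinarith

lemma sft_cong {J : ℕ} {M u : ℕ} {b : Fin (J + 1) → ℕ} (hb : ∀ j, b j < M) (v : Fin J → Fin u)
    (j : Fin (J + 1)) : b 0 + sft M u b v j ≡ b j [MOD M] := by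
  unfold sft
  have h1 : (b j + (M - b 0)) % M ≡ b j + (M - b 0) [MOD M] := Nat.mod_modEq _ _
  have h2 : M * (2 * (j : ℕ) * u + (Fin.cons 0 (fun i => (v i : ℕ)) : Fin (J + 1) → ℕ) j) ≡ 0
      [MOD M] := (Nat.modEq_zero_iff_dvd).mpr (Dvd.intro _ rfl)
  have h3 := (h2.add h1).add_left (b 0)
  refine h3.trans ?_
  have h4 : b 0 + (0 + (b j + (M - b 0))) = b j + M := by
    have := hb 0
    omega
  rw [h4]
  exact Nat.add_modEq_right

lemma sft_inj {J : ℕ} {M u : ℕ} {b : Fin (J + 1) → ℕ} (hM : 1 ≤ M) :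
    Function.Injective (sft M u b : (Fin J → Fin u) → Fin (J + 1) → ℕ) := by
  intro v v' h
  funext i
  have h1 := congrFun h i.succ
  unfold sft at h1
  rw [Fin.cons_succ, Fin.cons_succ] at h1
  have h2 : M * (2 * (i.succ : ℕ) * u + (v i : ℕ)) = M * (2 * (i.succ : ℕ) * u + (v' i : ℕ)) := by
    omega
  have h3 := Nat.eq_of_mul_eq_mul_left hM h2
  exact Fin.ext (by omega)

end STCJ

open STCJ in
theorem stc : St_STC := by
  classical
  intro hN hV J g q κ S hq hκ hS hinj τ a hadm hcop j₁ j₂ h₁ h₂ hh₁ hh₂ hne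
  -- the sizes
  obtain ⟨Dm, hDm⟩ : ∃ Dm : ℕ, ∀ γ, ∀ h ∈ S γ, h ≤ Dm := by
    refine ⟨(univ.biUnion S).sup id, fun γ h hh => ?_⟩
    exact le_sup (f := id) (mem_biUnion.mpr ⟨γ, mem_univ _, hh⟩)
  set r : ℕ := (J + 1) * κ with hr
  set P0 : ℕ := 4 * r ^ 2 + 2 * r + 2 + κ + q with hP0
  set M : ℕ := P0.factorial with hMdef
  have hM : 1 ≤ M := Nat.factorial_pos _
  have hM0 : (0 : ℝ) < M := by exact_mod_cast hM
  have hMz : (0 : ℤ) < M := by exact_mod_cast hM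
  -- the classes
  have hcls := fun j => cls q P0 hq (by omega) (S (τ j)) (a j) (hadm j) (hcop j)
  choose b hbM hbq hbc using hcls
  -- enumerations of the types
  set en : Fin g → Fin κ → ℕ := fun γ => (S γ).orderEmbOfFin (hS γ).1 with hen0
  have hen : ∀ γ h, h ∈ S γ ↔ ∃ y, en γ y = h := by
    intro γ h
    have h3 := Finset.range_orderEmbOfFin (S γ) (hS γ).1
    constructor
    · intro hh
      have h4 : h ∈ Set.range ((S γ).orderEmbOfFin (hS γ).1) := by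
        rw [h3]
        exact hh
      exact h4
    · rintro ⟨y, rfl⟩
      exact Finset.orderEmbOfFin_mem _ _ _
  have heni : ∀ γ, Function.Injective (en γ) := fun γ => ((S γ).orderEmbOfFin (hS γ).1).injective
  obtain ⟨y₁, hy₁⟩ := (hen _ _).mp hh₁
  obtain ⟨y₂, hy₂⟩ := (hen _ _).mp hh₂
  have hij : (finProdFinEquiv (j₁, y₁) : Fin r) ≠ finProdFinEquiv (j₂, y₂) := by
    intro h
    have h3 := finProdFinEquiv.injective h
    rw [Prod.mk.injEq] at h3
    obtain ⟨rfl, rfl⟩ := h3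
    rcases hne with h4 | h4
    · exact h4 rfl
    · exact h4 (hy₁.symm.trans hy₂)
  -- the family
  set FT : Type := {p : Fin g × Fin M // ∀ h ∈ S p.1, (b 0 + (p.2 : ℕ) + h).Coprime M} with hFT
  set G : ℕ := Fintype.card FT with hG
  set eq : Fin G ≃ FT := (Fintype.equivFin FT).symm with heq
  set F : Fin G → Fin g × ℕ := fun γ => ((eq γ).1.1, ((eq γ).1.2 : ℕ)) with hFdef
  have hF : ∀ γ e, e < M → (∀ h ∈ S γ, (b 0 + e + h).Coprime M) → ∃ y, F y = (γ, e) := by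
    intro γ e he h
    refine ⟨eq.symm ⟨(γ, ⟨e, he⟩), h⟩, ?_⟩
    rw [hFdef]
    simp only
    rw [Equiv.apply_symm_apply]
  have hFc : ∀ γ, (F γ).2 < M ∧ ∀ h ∈ S (F γ).1, (b 0 + (F γ).2 + h).Coprime M :=
    fun γ => ⟨(eq γ).1.2.2, (eq γ).2⟩
  set be' : Fin G → Fin κ → ℤ := fun γ y => ((b 0 + (F γ).2 + en (F γ).1 y : ℕ) : ℤ) with hbe'
  have hbei : ∀ γ, Function.Injective (be' γ) := by
    intro γ y y' h
    rw [hbe'] at h
    simp only [Nat.cast_inj] at h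
    exact heni (F γ).1 (by omega)
  obtain ⟨C, hC, hCb⟩ := fam_upper hV hM be' hbei
  -- the theorem at the natural scale
  obtain ⟨t, ht, hT⟩ := hN r (fun _ => M) (fun _ => hM) G (fun _ => κ) (fun _ _ => M)
    (fun _ => hκ) (fun _ _ => hM) 2 (by norm_num) _ _ hij
  obtain ⟨c, hc, ν₁, hν₁, X0, hX0⟩ := hT (t + 2) (by omega)
  obtain ⟨c₂, hc₂, hlow⟩ := VN_lower r P0 (by omega)
  set ν : ℝ := ν₁ / (2 * (C * 2 ^ κ)) with hν
  have hν0 : 0 < ν := by positivity
  have hνC : ν * (C * 2 ^ κ) ≤ ν₁ / 2 := by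
    rw [hν]
    apply le_of_eq
    field_simp
  obtain ⟨X1, hX1⟩ := eventually_atTop.mp (ev_all M P0 Dm J κ t hM hκ ht ν ν₁ C X0 hν0 hν₁ hC hνC)
  refine ⟨t + 1, by omega, (ν / (8 * M * (J + 1))) ^ J * (c * c₂ / M), by positivity, ν, hν0,
    X1, fun X hX => ?_⟩
  obtain ⟨f1, f2, f3, f4, f5, f6, f7, f8, f9, f10, f11, f12⟩ := hX1 X hX
  have hXM0 : 0 < X / M := by linarith
  have hX0' : 0 < X := by
    have : 0 < X / M * M := by positivity
    rwa [div_mul_cancel₀ _ hM0.ne'] at this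
  have hM1 : (1 : ℝ) ≤ M := by exact_mod_cast hM
  have hX2 : 2 ≤ X := by linarith
  have hl0 : 0 < Real.log X := Real.log_pos (by linarith)
  set L : ℝ := ν * Real.log X ^ κ with hL
  have hL0 : 0 < L := by positivity
  set z : ℝ := X ^ (1 / ((t + 1 : ℕ) : ℝ)) with hz
  set u : ℕ := ⌊L / (4 * M * (J + 1))⌋₊ with hu
  have hu1 : 1 ≤ u := by omega
  have huL : (M : ℝ) * u * (2 * (J + 1)) ≤ L := by
    have h3 : (u : ℝ) ≤ L / (4 * M * (J + 1)) := Nat.floor_le (by positivity)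
    rw [le_div_iff₀ (by positivity)] at h3
    have h4 : (0 : ℝ) ≤ (u : ℝ) * (M * (J + 1)) := by positivity
    nlinarith
  have huD : 2 * Dm < M * u := by
    have : 1 * u ≤ M * u := Nat.mul_le_mul_right _ hM
    omega
  -- the shifts
  set D : (Fin J → Fin u) → Fin (J + 1) → ℕ := fun v => sft M u b v with hD
  have hD0 : ∀ v, D v 0 = 0 := fun v => sft_zero hbM v
  have hDw : ∀ v, ∀ j : Fin (J + 1), 2 * (j : ℕ) * (M * u) ≤ D v j ∧
      D v j < 2 * (j : ℕ) * (M * u) + M * u := fun v j => sft_blk hM hu1 v j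
  have hDs : ∀ v, ∀ i j : Fin (J + 1), i < j → D v i + 2 * Dm < D v j := by
    intro v i j hij
    have h3 := (hDw v i).2
    have h4 := (hDw v j).1
    have h5 : 2 * ((i : ℕ) + 1) * (M * u) ≤ 2 * (j : ℕ) * (M * u) :=
      Nat.mul_le_mul_right _ (Nat.mul_le_mul_left _ hij)
    nlinarith
  have hDL : ∀ v, ∀ j : Fin (J + 1), (D v j : ℝ) ≤ L := by
    intro v j
    have h3 := (hDw v j).2
    have h4 : 2 * (j : ℕ) * (M * u) + M * u ≤ M * u * (2 * (J + 1)) := by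
      have : (j : ℕ) ≤ J := Nat.lt_succ_iff.mp j.2
      nlinarith [Nat.mul_le_mul_right (M * u) this]
    have h5 : (D v j : ℝ) ≤ (M : ℝ) * u * (2 * (J + 1)) := by exact_mod_cast h3.le.trans h4
    exact h5.trans huL
  have hDc : ∀ v, ∀ j : Fin (J + 1), b 0 + D v j ≡ b j [MOD M] := fun v j => sft_cong hbM v j
  -- the good points
  set be : (Fin J → Fin u) → Fin r → ℤ := fun v l => ((b 0 + D v (finProdFinEquiv.symm l).1 +
        en (τ (finProdFinEquiv.symm l).1) (finProdFinEquiv.symm l).2 : ℕ) : ℤ) with hbe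
  set P : (Fin J → Fin u) → Finset ℕ := fun v => PtsN 2 z (X / M) (L / M + 1) (fun _ => M) (be v)
      (finProdFinEquiv (j₁, y₁)) (finProdFinEquiv (j₂, y₂)) (fun _ : Fin G => κ) (fun _ _ => M)
      be' with hP
  have hgood : ∀ v, ∀ x ∈ P v, Gd z X L S τ j₁ j₂ h₁ h₂ (D v) (M * x + b 0) := by
    intro v x hx
    have h3 := stepA hM S τ en hen j₁ j₂ y₁ y₂ (b 0) (hbM 0) (D v) F hF (z := z) (X := X) (L := L)
      (fun p hp hpM => by
        have h4 : p ≤ P0 := (Nat.Prime.dvd_factorial hp).mp hpM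
        have h5 : (p : ℝ) ≤ P0 := by exact_mod_cast h4
        exact h5.trans f6) f12 f3 x hx
    rw [hy₁, hy₂] at h3
    exact h3
  -- the lower bound for one vector
  have hcopz : ∀ v, ∀ l, IsCoprime (be v l) (M : ℤ) := by
    intro v l
    rw [hbe]
    simp only
    rw [Nat.isCoprime_iff_coprime]
    set j := (finProdFinEquiv.symm l).1
    set y := (finProdFinEquiv.symm l).2
    have h3 := hbc j (en (τ j) y) ((hen _ _).mpr ⟨y, rfl⟩)
    have h4 : b 0 + D v j + en (τ j) y ≡ b j + en (τ j) y [MOD M] := (hDc v j).add_right _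
    unfold Nat.Coprime at h3 ⊢
    rw [h4.gcd_eq]
    exact h3
  have hbeinj : ∀ v, Function.Injective (be v) := by
    intro v l l' h
    rw [hbe] at h
    simp only [Nat.cast_inj] at h
    obtain ⟨⟨j, y⟩, rfl⟩ := finProdFinEquiv.surjective l
    obtain ⟨⟨j', y'⟩, rfl⟩ := finProdFinEquiv.surjective l'
    rw [Equiv.symm_apply_apply, Equiv.symm_apply_apply] at h
    simp only at h
    have g1 := hDm (τ j) (en (τ j) y) ((hen _ _).mpr ⟨y, rfl⟩)
    have g2 := hDm (τ j') (en (τ j') y') ((hen _ _).mpr ⟨y', rfl⟩)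
    rcases lt_trichotomy j j' with hjj | hjj | hjj
    · have := hDs v j j' hjj
      omega
    · subst hjj
      have : y = y' := heni (τ j) (by omega)
      rw [this]
    · have := hDs v j' j hjj
      omega
  have hcard : ∀ v, c * c₂ / M * (X / Real.log X ^ r) ≤ ((P v).card : ℝ) := by
    intro v
    have h3 := hX0 (X / M) f1 (be v)
      (by
        intro l
        rw [hbe]
        simp only
        rw [Int.cast_natCast, abs_of_nonneg (Nat.cast_nonneg _)]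
        have g1 : (b 0 : ℝ) ≤ M := by exact_mod_cast (hbM 0).le
        have g2 := hDL v (finProdFinEquiv.symm l).1
        have g3 : ((en (τ (finProdFinEquiv.symm l).1) (finProdFinEquiv.symm l).2 : ℕ) : ℝ) ≤ Dm := by
          exact_mod_cast hDm _ _ ((hen _ _).mpr ⟨_, rfl⟩)
        push_cast
        linarith)
      (by
        rw [hbe]
        simp only
        rw [Int.cast_natCast]
        have g1 : X / M / (2 : ℕ) ≤ X / M := div_le_self hXM0.le (by norm_num)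
        have g2 : X / M ≤ M * (X / M) := le_mul_of_one_le_left hXM0.le hM1
        have g3 : (0 : ℝ) ≤ ((b 0 + D v (finProdFinEquiv.symm (finProdFinEquiv (j₁, y₁))).1 +
          en (τ (finProdFinEquiv.symm (finProdFinEquiv (j₁, y₁))).1)
          (finProdFinEquiv.symm (finProdFinEquiv (j₁, y₁))).2 : ℕ) : ℝ) := Nat.cast_nonneg _
        linarith)
      (fun l m hlm h => hlm (hbeinj v (mul_left_cancel₀ hMz.ne' h).symm))
      (adm_M (be v) (by omega) (hcopz v))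
      be'
      (by
        intro γ y
        rw [hbe']
        simp only
        rw [Int.cast_natCast, abs_of_nonneg (Nat.cast_nonneg _)]
        have g1 : (b 0 : ℝ) ≤ M := by exact_mod_cast (hbM 0).le
        have g2 : (((F γ).2 : ℕ) : ℝ) ≤ M := by exact_mod_cast (hFc γ).1.le
        have g3 : ((en (F γ).1 y : ℕ) : ℝ) ≤ Dm := by
          exact_mod_cast hDm _ _ ((hen _ _).mpr ⟨_, rfl⟩)
        have g4 : (0 : ℝ) ≤ Dm := Nat.cast_nonneg _
        push_cast
        linarith)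
      (by
        intro γ
        apply adm_M (be' γ) (by omega)
        intro y
        rw [hbe']
        simp only
        rw [Nat.isCoprime_iff_coprime]
        exact (hFc γ).2 _ ((hen _ _).mpr ⟨_, rfl⟩))
      (L / M + 1) (by positivity) f8
      (by
        intro γ
        have g1 : 2 ≤ ⌊X / M⌋₊ := Nat.le_floor (by norm_num; linarith)
        have g2 := hCb γ ⌊X / M⌋₊ g1
        refine le_trans ?_ f9
        exact mul_le_mul_of_nonneg_left g2 (by positivity)) z f5 f4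
    have g1 : 2 ≤ ⌊X / M⌋₊ := Nat.le_floor (by norm_num; linarith)
    have h4 := hlow (be v) (hcopz v) ⌊X / M⌋₊ g1
    have g2 : (1 : ℝ) < ⌊X / M⌋₊ := by exact_mod_cast g1
    have h5 : 0 < Real.log (⌊X / M⌋₊ : ℝ) := Real.log_pos g2
    have h6 : Real.log (⌊X / M⌋₊ : ℝ) ≤ Real.log X := by
      apply Real.log_le_log (by linarith)
      exact (Nat.floor_le hXM0.le).trans (div_le_self hX0'.le hM1)
    calc c * c₂ / M * (X / Real.log X ^ r) = c * (X / M * (c₂ / Real.log X ^ r)) := by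
          field_simp
      _ ≤ c * (X / M * (c₂ / Real.log (⌊X / M⌋₊ : ℝ) ^ r)) := by gcongr
      _ ≤ c * (X / M * VN ⌊X / M⌋₊ (fun _ => M) (be v)) := by gcongr
      _ ≤ _ := h3
  -- the union over the vectors
  set U : Finset ℕ := (univ : Finset (Fin J → Fin u)).biUnion
    (fun v => (P v).image (fun x => M * x + b 0)) with hU
  have hUcard : U.card = ∑ v : Fin J → Fin u, (P v).card := by
    rw [hU, card_biUnion]
    · apply sum_congr rfl
      intro v _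
      apply card_image_of_injective
      intro x x' h
      simp only at h
      exact Nat.eq_of_mul_eq_mul_left hM (by omega)
    · intro v _ v' _ hvv
      rw [Function.onFun, disjoint_left]
      intro n hn hn'
      obtain ⟨x, hx, rfl⟩ := mem_image.mp hn
      obtain ⟨x', hx', hxx⟩ := mem_image.mp hn'
      have g1 := hgood v x hx
      have g2 := hgood v' x' hx'
      rw [hxx] at g2
      apply hvv
      apply sft_inj (b := b) hM
      exact Gd_unique hS hinj Dm hDm (hDs v') (hDL v) (hDw v) (hDw v') g1 g2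
  have hUsub : (U : Set ℕ) ⊆ StrS q z X L S τ a j₁ j₂ h₁ h₂ := by
    intro n hn
    rw [mem_coe, hU, mem_biUnion] at hn
    obtain ⟨v, -, hn⟩ := hn
    obtain ⟨x, hx, rfl⟩ := mem_image.mp hn
    apply Gd_str hS hinj Dm hDm (hDs v) (hD0 v) (hDL v) _ (hgood v x hx)
    intro j
    have g1 : M * x + b 0 + D v j ≡ b j [MOD M] := by
      have g2 : M * x + (b 0 + D v j) ≡ 0 + b j [MOD M] :=
        (Nat.modEq_zero_iff_dvd.mpr (Dvd.intro _ rfl)).add (hDc v j)
      rw [zero_add, ← add_assoc] at g2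
      exact g2
    have g3 : q ∣ M := Nat.dvd_factorial hq (by omega)
    exact (g1.of_dvd g3).trans (hbq j)
  have hfin : (StrS q z X L S τ a j₁ j₂ h₁ h₂).Finite := by
    apply (Set.finite_Iic ⌊2 * X⌋₊).subset
    intro n hn
    exact Nat.le_floor hn.2.1
  have hle : (U.card : ℝ) ≤ ((StrS q z X L S τ a j₁ j₂ h₁ h₂).ncard : ℝ) := by
    rw [← Set.ncard_coe_finset]
    exact_mod_cast Set.ncard_le_ncard hUsub hfin
  refine le_trans ?_ hle
  rw [hUcard]
  push_cast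
  calc (ν / (8 * M * (J + 1))) ^ J * (c * c₂ / M) * (X / Real.log X ^ κ)
      = (L / (8 * M * (J + 1))) ^ J * (c * c₂ / M * (X / Real.log X ^ r)) := by
        have e1 : Real.log X ^ r = (Real.log X ^ κ) ^ J * Real.log X ^ κ := by
          rw [hr, ← pow_mul, ← pow_add]
          congr 1
          ring
        rw [e1, hL]
        have e2 : ν * Real.log X ^ κ / (8 * M * (J + 1)) =
            ν / (8 * M * (J + 1)) * Real.log X ^ κ := by ring
        rw [e2, mul_pow]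
        field_simp
    _ ≤ (u : ℝ) ^ J * (c * c₂ / M * (X / Real.log X ^ r)) := by
        gcongr
    _ = ∑ _v : Fin J → Fin u, (c * c₂ / M * (X / Real.log X ^ r)) := by
        rw [sum_const, card_univ, Fintype.card_fun, Fintype.card_fin, Fintype.card_fin,
          nsmul_eq_mul]
        push_cast
        ring
    _ ≤ ∑ v : Fin J → Fin u, ((P v).card : ℝ) := sum_le_sum fun v _ => hcard v

end Pool.Agent.Q117.LF
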