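import Pool.Agent.Q117.LF.Stm7

/-!
Project LF (helper117), part 8: the natural scale theorem with a window of its own for every member of the family.

Every `St_X` below is the statement of one job; the doc comment is its complete proof. The file of a job is `Pool/Agent/Q117/LF/<Name>.lean`, the theorem
has the name given in the comment (namespace `Pool.Agent.Q117.LF`).
-/

set_option autoImplicit false

namespace Pool.Agent.Q117.LF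

open Finset Filter

open Classical in
/-- as `PtsN`, with the window `L γ` for the member `γ` of the family -/
noncomputable def PtsW (K : ℕ) (z X : ℝ) {r : ℕ} (A : Fin r → ℕ) (be : Fin r → ℤ) (i j : Fin r) {g : ℕ} (L : Fin g → ℝ) (s : Fin g → ℕ) (A' : (γ : Fin g) → Fin (s γ) → ℕ)
    (be' : (γ : Fin g) → Fin (s γ) → ℤ) : Finset ℕ :=
  (range (⌊2 * X⌋₊ + 1)).filter (fun n : ℕ => X < n ∧ (n : ℝ) ≤ X + X / K ∧ 0 < fm A be i n ∧ (fm A be i n).natAbs.Prime ∧ Pt (X ^ (1 / 8 : ℝ)) (fm A be j n) ∧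
    (∀ l, Ro z (fm A be l n)) ∧
    ∀ γ, ∀ d : ℤ, |(d : ℝ)| ≤ L γ → (∀ x, Ro z ((A' γ x : ℤ) * (n + d) + be' γ x)) → ∀ x, ∃ l, A' γ x = A l ∧ (A' γ x : ℤ) * d + be' γ x = be l)

/-- conclusion of NSW -/
def NSWc : Prop := ∀ (r : ℕ) (A : Fin r → ℕ), (∀ l, 1 ≤ A l) → ∀ (g : ℕ) (s : Fin g → ℕ) (A' : (γ : Fin g) → Fin (s γ) → ℕ), (∀ γ, 1 ≤ s γ) → (∀ γ x, 1 ≤ A' γ x) →
  ∀ K : ℕ, 1 ≤ K → ∀ i j : Fin r, i ≠ j → ∃ t : ℕ, 1 ≤ t ∧ ∀ T : ℕ, t ≤ T → ∃ c : ℝ, 0 < c ∧ ∃ ν : ℝ, 0 < ν ∧ ∃ X0 : ℝ, ∀ X : ℝ, X0 ≤ X →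
    ∀ be : Fin r → ℤ, (∀ l, |(be l : ℝ)| ≤ K * X) → X / K ≤ A i * X + be i → (∀ l m, l ≠ m → (A l : ℤ) * be m ≠ A m * be l) → AdmS A be →
    ∀ be' : (γ : Fin g) → Fin (s γ) → ℤ, (∀ γ x, |(be' γ x : ℝ)| ≤ K * X) → (∀ γ, AdmS (A' γ) (be' γ)) →
    ∀ L : Fin g → ℝ, (∀ γ, 0 ≤ L γ ∧ L γ ≤ X ∧ L γ * VN ⌊X⌋₊ (A' γ) (be' γ) ≤ ν) → ∀ z : ℝ, X ^ (1 / (T : ℝ)) ≤ z → z ≤ X ^ (1 / (t : ℝ)) →
      c * (X * VN ⌊X⌋₊ A be) ≤ ((PtsW K z X A be i j L s A' be').card : ℝ)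

/-- **NSW** (theorem `nsw : St_NSW`): as `NSC`, with the windows `L γ`.

Proof. The proof of `nsc` (`LF/Nsc.lean`) word for word with `L γ` in place of `L` in the sum over the `d` of the member `γ`. -/
def St_NSW : Prop := UNQc → St_UBS → St_PCO → St_AVG → St_OMS → NSWc

/-- the `n ∈ (X, 2X]` with `n + e₁` prime, `n + e₂` with at most two prime factors, all the `n + e` rough, and such that for all sets `F γ` of the family and all shifts `|d| ≤ ν (log X) ^ |F γ|`: if all the `n + d + f`, `f ∈ F γ`, are rough, then `d + F γ ⊆ E` -/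
def SetW (z X ν : ℝ) (E : Finset ℤ) (e₁ e₂ : ℤ) {g : ℕ} (F : Fin g → Finset ℤ) : Set ℕ :=
  {n : ℕ | X < n ∧ (n : ℝ) ≤ 2 * X ∧ ((n : ℤ) + e₁).toNat.Prime ∧ Pt (X ^ (1 / 9 : ℝ)) ((n : ℤ) + e₂) ∧ (∀ e ∈ E, Ro z ((n : ℤ) + e)) ∧
    ∀ γ, ∀ d : ℤ, |(d : ℝ)| ≤ ν * Real.log X ^ (F γ).card → (∀ f ∈ F γ, Ro z ((n : ℤ) + d + f)) → ∀ f ∈ F γ, d + f ∈ E}

/-- conclusion of FSW -/
def FSWc : Prop := ∀ (k g : ℕ) (F : Fin g → Finset ℤ), (∀ γ, (F γ).Nonempty) → ∃ t : ℕ, 1 ≤ t ∧ ∃ c : ℝ, 0 < c ∧ ∃ ν : ℝ, 0 < ν ∧ ∃ X0 : ℝ, ∀ X : ℝ, X0 ≤ X →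
  ∀ E : Finset ℤ, E.card ≤ k → (∀ e ∈ E, 0 ≤ e ∧ (e : ℝ) ≤ X) → AdmZ E → ∀ e₁ ∈ E, ∀ e₂ ∈ E, e₁ ≠ e₂ →
    c * (X * VF ⌊X⌋₊ E) ≤ ((SetW (X ^ (1 / (t : ℝ))) X ν E e₁ e₂ F).ncard : ℝ)

/-- **FSW** (theorem `fsw : St_FSW`): a fixed family of patterns, every one with its own natural scale.

Proof. As `FSC` and `FSV` together (`LF/Fsc.lean`, `LF/Fsv.lean`), from `NSWc` with the windows `L γ = ν (log X) ^ |F γ|`: slopes `1`, the subfamily of the admissible `F γ` (the inadmissible ones do not occur), `VUP` for each of them: `VN ⌊X⌋₊ ≤ C / (log ⌊X⌋₊) ^ |F γ|`. For the finitely many `r ≤ k`, `i ≠ j` take the maximum of the `t`s, then with `T = t` the minimum of `c`, `ν` (and `ν` small) and the maximum of the `X0`. `K = 1`. -/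
def St_FSW : Prop := NSWc → St_VUP → FSWc

end Pool.Agent.Q117.LF
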