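import Pool.Agent.Q117.LF.Stm5
import Pool.Agent.Q117.LF.Ssy

/-!
# Project LF, job VUP (helper26): the sieve product of a fixed system
-/

set_option autoImplicit false

namespace Pool.Agent.Q117.LF.VUPJ

open Finset

/-- the upper bound of Mertens -/
theorem mertU : ∃ c₂ : ℝ, 0 < c₂ ∧ ∀ z : ℕ, 2 ≤ z →
      (∏ p ∈ (Icc 1 z).filter Nat.Prime, (1 - 1 / (p : ℝ))) ≤ c₂ / Real.log z := by
  obtain ⟨c₁, c₂, h1, h12, h2⟩ := Pool.Agent.H318R2.Cr.cz_bounds
  refine ⟨c₂, lt_of_lt_of_le h1 h12, fun z hz => ?_⟩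
  have h3 := (h2 z hz).2
  have h4 : Pool.Agent.H318R2.Cr.V z = ∏ p ∈ (Icc 1 z).filter Nat.Prime, (1 - 1 / (p : ℝ)) := by
    unfold Pool.Agent.H318R2.Cr.V
    refine Finset.prod_congr ?_ (fun _ _ => rfl)
    ext p
    rw [Pool.Agent.H318R2.Cr.mem_Pz, Finset.mem_filter, Finset.mem_Icc]
    constructor
    · rintro ⟨a, b⟩
      exact ⟨⟨a.one_lt.le, b⟩, a⟩
    · rintro ⟨⟨-, b⟩, a⟩
      exact ⟨a, b⟩
  rw [h4] at h3
  have hlog : 0 < Real.log z := Real.log_pos (by exact_mod_cast hz)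
  rw [le_div_iff₀ hlog]
  exact h3

end Pool.Agent.Q117.LF.VUPJ

namespace Pool.Agent.Q117.LF

open Finset

theorem vup : St_VUP := by
  classical
  intro s A be hA hdet
  obtain ⟨c, hc, hm⟩ := VUPJ.mertU
  set P : ℕ := ∑ l, A l + ∑ l, ∑ m, ((A l : ℤ) * be m - A m * be l).natAbs with hP
  have hPA : ∀ l, A l ≤ P := by
    intro l
    have h1 : A l ≤ ∑ l, A l := Finset.single_le_sum (fun _ _ => Nat.zero_le _) (Finset.mem_univ l)
    omega
  have hPD : ∀ l m, ((A l : ℤ) * be m - A m * be l).natAbs ≤ P := by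
    intro l m
    have h1 : ((A l : ℤ) * be m - A m * be l).natAbs ≤
        ∑ m, ((A l : ℤ) * be m - A m * be l).natAbs :=
      Finset.single_le_sum (f := fun m => ((A l : ℤ) * be m - A m * be l).natAbs)
        (fun _ _ => Nat.zero_le _) (Finset.mem_univ m)
    have h2 : ∑ m, ((A l : ℤ) * be m - A m * be l).natAbs ≤
        ∑ l, ∑ m, ((A l : ℤ) * be m - A m * be l).natAbs :=
      Finset.single_le_sum (f := fun l => ∑ m, ((A l : ℤ) * be m - A m * be l).natAbs)
        (fun _ _ => Nat.zero_le _) (Finset.mem_univ l)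
    omega
  have hbig : ∀ p : ℕ, p.Prime → P < p → s ≤ om A be p := by
    intro p hp hPp
    refine SSYJ.le_om A be p hp ?_ ?_
    · intro l hd
      have h1 := Nat.le_of_dvd (hA l) hd
      have h2 := hPA l
      omega
    · intro l m hlm hd
      have h1 : (A l : ℤ) * be m - A m * be l ≠ 0 := sub_ne_zero.2 (hdet l m hlm)
      have h2 : p ∣ ((A l : ℤ) * be m - A m * be l).natAbs := Int.natCast_dvd.1 hd
      have h3 := Nat.le_of_dvd (Int.natAbs_pos.2 h1) h2
      have h4 := hPD l m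
      omega
  refine ⟨(2 ^ s) ^ (P + 1) * c ^ s, by positivity, fun y hy => ?_⟩
  have hfac : ∀ p ∈ (Icc 1 y).filter Nat.Prime, (1 : ℝ) - (om A be p : ℝ) / p ≤
      (if p ≤ P then (2 : ℝ) ^ s else 1) * (1 - 1 / (p : ℝ)) ^ s := by
    intro p hp
    have hp' := (mem_filter.1 hp).2
    have hp2 : (2 : ℝ) ≤ p := by exact_mod_cast hp'.two_le
    have hp0 : (0 : ℝ) < p := by linarith
    have h1 : 1 / (p : ℝ) ≤ 1 / 2 := one_div_le_one_div_of_le (by norm_num) hp2
    have h0 : (0 : ℝ) ≤ (om A be p : ℝ) / p := by positivity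
    by_cases h : p ≤ P
    · rw [if_pos h]
      have h2 : (1 : ℝ) ≤ (2 * (1 - 1 / (p : ℝ))) ^ s := one_le_pow₀ (by linarith)
      rw [mul_pow] at h2
      linarith
    · rw [if_neg h, one_mul]
      have h2 := hbig p hp' (not_le.1 h)
      have h3 : (s : ℝ) / p ≤ (om A be p : ℝ) / p := by
        have : (s : ℝ) ≤ (om A be p : ℝ) := by exact_mod_cast h2
        gcongr
      have h4 := one_add_mul_le_pow (a := -(1 / (p : ℝ))) (by linarith) s
      have h5 : (1 : ℝ) + s * (-(1 / (p : ℝ))) = 1 - (s : ℝ) / p := by ring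
      have h6 : (1 : ℝ) + -(1 / (p : ℝ)) = 1 - 1 / (p : ℝ) := by ring
      rw [h5, h6] at h4
      linarith
  have hnn : ∀ p ∈ (Icc 1 y).filter Nat.Prime, (0 : ℝ) ≤ 1 - (om A be p : ℝ) / p := by
    intro p hp
    have hp' := (mem_filter.1 hp).2
    have hp0 : (0 : ℝ) < p := by exact_mod_cast hp'.pos
    have h1 : (om A be p : ℝ) ≤ p := by exact_mod_cast SSYJ.om_le A be p
    have h2 : (om A be p : ℝ) / p ≤ 1 := by rw [div_le_one hp0]; exact h1
    linarith
  have h1 : VN y A be ≤ ∏ p ∈ (Icc 1 y).filter Nat.Prime,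
      ((if p ≤ P then (2 : ℝ) ^ s else 1) * (1 - 1 / (p : ℝ)) ^ s) := by
    unfold VN
    exact Finset.prod_le_prod hnn hfac
  rw [Finset.prod_mul_distrib, Finset.prod_pow] at h1
  have h2 : ∏ p ∈ (Icc 1 y).filter Nat.Prime, (if p ≤ P then (2 : ℝ) ^ s else 1) ≤
      (2 ^ s) ^ (P + 1) := by
    rw [← Finset.prod_filter, Finset.prod_const]
    refine pow_le_pow_right₀ (one_le_pow₀ (by norm_num)) ?_
    have h3 : ((Icc 1 y).filter Nat.Prime).filter (fun p => p ≤ P) ⊆ range (P + 1) := by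
      intro p hp
      rw [mem_range]
      have := (mem_filter.1 hp).2
      omega
    have := card_le_card h3
    rwa [card_range] at this
  have h3 : 0 ≤ ∏ p ∈ (Icc 1 y).filter Nat.Prime, (1 - 1 / (p : ℝ)) := by
    apply Finset.prod_nonneg
    intro p hp
    have hp2 : (2 : ℝ) ≤ p := by exact_mod_cast (mem_filter.1 hp).2.two_le
    have h4 : 1 / (p : ℝ) ≤ 1 / 2 := one_div_le_one_div_of_le (by norm_num) hp2
    linarith
  calc VN y A be ≤ _ := h1
    _ ≤ (2 ^ s) ^ (P + 1) * (c / Real.log y) ^ s := by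
        refine mul_le_mul h2 (pow_le_pow_left₀ h3 (hm y hy) s) (pow_nonneg h3 s) (by positivity)
    _ = (2 ^ s) ^ (P + 1) * c ^ s / Real.log y ^ s := by
        rw [div_pow]
        ring

end Pool.Agent.Q117.LF
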