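import Pool.Agent.Q117.LF.Main3
import Pool.Agent.Q117.LF.Stm8
import Pool.Agent.Q117.LF.Ubs
import Pool.Agent.Q117.LF.Oms
import Pool.Agent.Q117.LF.Vup
import Pool.Agent.Q117.LF.Nsc
import Pool.Agent.Q117.LF.Nsw
import Pool.Agent.Q117.LF.Stc
import Pool.Agent.Q117.LF.Fsw
import Pool.Agent.Q117.LF.Nsv
import Pool.Agent.Q184.LF.Avg
import Pool.Agent.Q184.LF.Pco

/-!
Project LF (helper117), parts 5 to 8: the assembled theorems at the natural scale.
-/

set_option autoImplicit false

namespace Pool.Agent.Q117.LF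

theorem nscC : NSCc := nsc unqC ubs Pool.Agent.Q184.LF.pco Pool.Agent.Q184.LF.avg oms

theorem nswC : NSWc := nsw unqC ubs Pool.Agent.Q184.LF.pco Pool.Agent.Q184.LF.avg oms

theorem vupC : St_VUP := vup

theorem stcC : STCc := stc nscC vupC

theorem fswC : FSWc := fsw nswC vupC

theorem nsvC : NSVc := nsv nscC vupC

end Pool.Agent.Q117.LF
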