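import Pool.Agent.Q117.LF.Stm3

/-!
Project LF (helper117), job ASG (helper66): the last step of the covering.
-/

set_option autoImplicit false

namespace Pool.Agent.Q117.LF

open Finset

namespace AsgP

/-- a residue class avoiding few points -/
lemma exists_res (p : ℕ) (hp : 0 < p) (E : Finset ℤ) (hE : E.card < p) :
    ∃ r : ℤ, ∀ e ∈ E, ¬ (p : ℤ) ∣ r + e := by
  classical
  have h1 : (E.image (fun e : ℤ => ((-e) % (p : ℤ)).toNat)).card < (range p).card := by
    rw [card_range]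
    exact lt_of_le_of_lt card_image_le hE
  obtain ⟨r, hr, hr2⟩ := exists_mem_notMem_of_card_lt_card h1
  refine ⟨r, fun e he hd => hr2 ?_⟩
  rw [mem_image]
  refine ⟨e, he, ?_⟩
  have hp' : (0 : ℤ) < p := by exact_mod_cast hp
  have hr' : (r : ℤ) < p := by exact_mod_cast (mem_range.1 hr)
  have h2 : (-e) % (p : ℤ) = (r : ℤ) := by
    have h3 : ((r : ℤ)) % (p : ℤ) = (-e) % (p : ℤ) := by
      apply Int.emod_emod_of_dvd _ (dvd_refl _) |>.symm.trans
      rw [Int.emod_emod_of_dvd _ (dvd_refl _)]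
      apply (Int.emod_emod_of_dvd _ (dvd_refl _)).symm.trans
      rw [Int.emod_emod_of_dvd _ (dvd_refl _)]
      apply Int.emod_eq_emod_iff_emod_sub_eq_zero.2
      apply Int.emod_eq_zero_of_dvd
      rwa [sub_neg_eq_add]
    rw [← h3]
    exact Int.emod_eq_of_lt (by positivity) hr'
  rw [h2]
  simp

open Classical in
/-- double counting: few primes divide two differences -/
lemma sum_div_le (y : ℕ) (P : Finset ℕ) (hP : ∀ p ∈ P, p.Prime ∧ y < p) (T : Finset ℤ) (e : ℤ)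
    (hT : ∀ u ∈ T, ∀ v ∈ T, |u - v| < (y : ℤ) ^ 2) :
    ∑ u ∈ T, (P.filter (fun p : ℕ => (p : ℤ) ∣ u - e)).card ≤ P.card + T.card ^ 2 := by
  -- swap
  have h1 : ∑ u ∈ T, (P.filter (fun p : ℕ => (p : ℤ) ∣ u - e)).card =
      ∑ p ∈ P, (T.filter (fun u : ℤ => (p : ℤ) ∣ u - e)).card := by
    simp only [card_filter]
    exact sum_comm
  rw [h1]
  have h2 : ∀ p ∈ P, (T.filter (fun u : ℤ => (p : ℤ) ∣ u - e)).card ≤
      1 + (T.offDiag.filter (fun w : ℤ × ℤ => (p : ℤ) ∣ w.1 - w.2)).card := by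
    intro p _
    set F := T.filter (fun u : ℤ => (p : ℤ) ∣ u - e) with hF
    rcases F.eq_empty_or_nonempty with h0 | ⟨u0, hu0⟩
    · rw [h0]; simp
    · have hsub : (F.erase u0).image (fun u => (u0, u)) ⊆
          T.offDiag.filter (fun w : ℤ × ℤ => (p : ℤ) ∣ w.1 - w.2) := by
        intro w hw
        rw [mem_image] at hw
        obtain ⟨u, hu, rfl⟩ := hw
        rw [mem_erase] at hu
        have hu1 := mem_filter.1 hu.2
        have hu2 := mem_filter.1 hu0
        rw [mem_filter, mem_offDiag]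
        refine ⟨⟨hu2.1, hu1.1, fun h => hu.1 h.symm⟩, ?_⟩
        have := dvd_sub hu2.2 hu1.2
        have h3 : u0 - e - (u - e) = u0 - u := by ring
        rwa [h3] at this
      have h4 := card_le_card hsub
      rw [card_image_of_injective _ (fun a b h => (Prod.mk.inj h).2), card_erase_of_mem hu0] at h4
      have h5 : 0 < F.card := card_pos.2 ⟨u0, hu0⟩
      omega
  have h3 : ∑ p ∈ P, (T.offDiag.filter (fun w : ℤ × ℤ => (p : ℤ) ∣ w.1 - w.2)).card ≤ T.offDiag.card := by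
    have h31 : ∑ p ∈ P, (T.offDiag.filter (fun w : ℤ × ℤ => (p : ℤ) ∣ w.1 - w.2)).card =
        ∑ w ∈ T.offDiag, (P.filter (fun p : ℕ => (p : ℤ) ∣ w.1 - w.2)).card := by
      simp only [card_filter]
      exact sum_comm
    rw [h31, card_eq_sum_ones]
    apply sum_le_sum
    intro w hw
    rw [mem_offDiag] at hw
    rw [card_le_one]
    intro p hp q hq
    rw [mem_filter] at hp hq
    by_contra hpq
    have hpp := (hP p hp.1).1
    have hqq := (hP q hq.1).1
    have hcop : IsCoprime (p : ℤ) (q : ℤ) := by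
      rw [Nat.isCoprime_iff_coprime]
      exact (Nat.coprime_primes hpp hqq).2 hpq
    have hd : (p : ℤ) * q ∣ w.1 - w.2 := hcop.mul_dvd hp.2 hq.2
    have hne : w.1 - w.2 ≠ 0 := sub_ne_zero.2 hw.2.2
    have h4 : |(p : ℤ) * q| ≤ |w.1 - w.2| := Int.le_of_dvd (abs_pos.2 hne) (by rwa [abs_dvd_abs])
    have h5 := hT _ hw.1 _ hw.2.1
    have h6 : (y : ℤ) ^ 2 ≤ |(p : ℤ) * q| := by
      rw [abs_of_nonneg (by positivity)]
      have h7 : (y : ℤ) ≤ p := by exact_mod_cast (hP p hp.1).2.le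
      have h8 : (y : ℤ) ≤ q := by exact_mod_cast (hP q hq.1).2.le
      nlinarith [Int.natCast_nonneg y]
    linarith
  calc ∑ p ∈ P, (T.filter (fun u : ℤ => (p : ℤ) ∣ u - e)).card
      ≤ ∑ p ∈ P, (1 + (T.offDiag.filter (fun w : ℤ × ℤ => (p : ℤ) ∣ w.1 - w.2)).card) := sum_le_sum h2
    _ = P.card + ∑ p ∈ P, (T.offDiag.filter (fun w : ℤ × ℤ => (p : ℤ) ∣ w.1 - w.2)).card := by
        rw [sum_add_distrib]; simp
    _ ≤ P.card + T.offDiag.card := by omega
    _ ≤ P.card + T.card ^ 2 := by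
        rw [offDiag_card, pow_two]
        omega

open Classical in
/-- the pigeonhole choice of different primes -/
lemma choice_inj (k : ℕ) (P : Finset ℕ) (V : Finset ℤ) (Bad : ℤ → Finset ℕ) (hB : ∀ u, Bad u ⊆ P)
    (hV : ∀ u ∈ V, 2 * k * (Bad u).card + P.card ≤ 2 * k * P.card) (hc : 2 * k * V.card < P.card) :
    ∃ f : ℤ → ℕ, (∀ u ∈ V, f u ∈ P ∧ f u ∉ Bad u) ∧ ∀ u ∈ V, ∀ v ∈ V, f u = f v → u = v := by
  have key : ∀ s : Finset {u : ℤ // u ∈ V}, s.card ≤ (s.biUnion (fun u => P \ Bad u)).card := by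
    intro s
    rcases s.eq_empty_or_nonempty with h | ⟨u, hu⟩
    · rw [h]; simp
    · have h1 : (P \ Bad u.1).card ≤ (s.biUnion (fun u => P \ Bad u)).card :=
        card_le_card (subset_biUnion_of_mem (fun u : {u : ℤ // u ∈ V} => P \ Bad u) hu)
      have h2 : s.card ≤ V.card := by
        have h3 := card_le_univ s
        rwa [Fintype.card_coe] at h3
      have h4 := hV u.1 u.2
      have h5 : (P \ Bad u.1).card + (Bad u.1).card = P.card := by
        rw [card_sdiff_of_subset (hB _)]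
        have := card_le_card (hB u.1)
        omega
      have h6 : 2 * k * V.card < 2 * k * (P \ Bad u.1).card := by
        have h7 : 2 * k * P.card = 2 * k * (P \ Bad u.1).card + 2 * k * (Bad u.1).card := by
          rw [← h5]; ring
        omega
      have h8 : V.card < (P \ Bad u.1).card := lt_of_mul_lt_mul_left h6 (Nat.zero_le _)
      omega
  obtain ⟨f, hf1, hf2⟩ := (Finset.all_card_le_biUnion_card_iff_exists_injective _).1 key
  refine ⟨fun u => if h : u ∈ V then f ⟨u, h⟩ else 0, fun u hu => ?_, fun u hu v hv h => ?_⟩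
  · have h1 := hf2 ⟨u, hu⟩
    simp only [hu, dif_pos]
    rw [mem_sdiff] at h1
    exact h1
  · simp only [hu, hv, dif_pos] at h
    have := hf1 h
    exact congrArg Subtype.val this

open Classical in
theorem asg_main (k y : ℕ) (P : Finset ℕ) (E U : Finset ℤ) (hk : 1 ≤ k) (hky : k ≤ y) (hE : E.Nonempty)
    (hEk : E.card ≤ k) (hP : ∀ p ∈ P, p.Prime ∧ y < p) (hPk : 4 * k ^ 3 < P.card)
    (hU : ∀ u ∈ U, u ∉ E) (hUk : 2 * k * U.card < P.card) :
    ∃ (g : ℕ → ℤ) (Z : Finset ℤ), Z ⊆ U ∧ (∀ p ∈ P, ∀ e ∈ E, ¬ (p : ℤ) ∣ g p + e) ∧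
      (∀ u ∈ U, u ∉ Z → ∃ p ∈ P, (p : ℤ) ∣ g p + u) ∧
      (∀ x₁ x₂ : ℤ, x₂ - x₁ < (y : ℤ) ^ 2 → (∃ e ∈ E, x₁ ≤ e ∧ e ≤ x₂) →
        (Z.filter (fun u => x₁ ≤ u ∧ u ≤ x₂)).card < E.card) ∧
      ∀ u ∈ Z, ∃ e ∈ E, P.card ≤ 2 * k * (P.filter (fun p : ℕ => (p : ℤ) ∣ u - e)).card := by
  set D : ℤ → ℤ → Finset ℕ := fun u e => P.filter (fun p : ℕ => (p : ℤ) ∣ u - e) with hD
  set Bad : ℤ → Finset ℕ := fun u => E.biUnion (fun e => D u e) with hBad
  have hBadP : ∀ u, Bad u ⊆ P := by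
    intro u p hp
    rw [hBad, mem_biUnion] at hp
    obtain ⟨e, _, hp⟩ := hp
    exact (mem_filter.1 hp).1
  have hBadc : ∀ u, (Bad u).card ≤ ∑ e ∈ E, (D u e).card := fun u => card_biUnion_le
  set Z : Finset ℤ := U.filter (fun u => 2 * k * P.card < 2 * k * (Bad u).card + P.card) with hZ
  obtain ⟨f, hf1, hf2⟩ := choice_inj k P (U \ Z) Bad hBadP (by
    intro u hu
    rw [mem_sdiff, hZ, mem_filter] at hu
    by_contra hc
    exact hu.2 ⟨hu.1, not_le.1 hc⟩) (lt_of_le_of_lt (Nat.mul_le_mul_left _ (card_le_card sdiff_subset)) hUk)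
  have hres : ∀ p ∈ P, ∃ r : ℤ, ∀ e ∈ E, ¬ (p : ℤ) ∣ r + e := by
    intro p hp
    apply exists_res p (hP p hp).1.pos
    have := (hP p hp).2
    omega
  have hg : ∀ p : ℕ, ∃ g : ℤ, (p ∈ P → ∀ e ∈ E, ¬ (p : ℤ) ∣ g + e) ∧
      ∀ u ∈ U \ Z, f u = p → (p : ℤ) ∣ g + u := by
    intro p
    by_cases h : ∃ u ∈ U \ Z, f u = p
    · obtain ⟨u, hu, hup⟩ := h
      refine ⟨-u, fun hp e he hd => ?_, fun v hv hvp => ?_⟩
      · apply (hf1 u hu).2
        rw [hup, hBad, mem_biUnion]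
        refine ⟨e, he, ?_⟩
        rw [hD, mem_filter]
        refine ⟨hp, ?_⟩
        have h1 : u - e = -(-u + e) := by ring
        rw [h1]
        exact (dvd_neg).2 hd
      · have := hf2 u hu v hv (by rw [hup, hvp])
        rw [this]
        simp
    · by_cases hp : p ∈ P
      · obtain ⟨r, hr⟩ := hres p hp
        exact ⟨r, fun _ => hr, fun u hu hup => (h ⟨u, hu, hup⟩).elim⟩
      · exact ⟨0, fun hp' => (hp hp').elim, fun u hu hup => (h ⟨u, hu, hup⟩).elim⟩
  choose g hg1 hg2 using hg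
  refine ⟨g, Z, filter_subset _ _, fun p hp => hg1 p hp, ?_, ?_, ?_⟩
  · intro u hu huZ
    exact ⟨f u, (hf1 u (mem_sdiff.2 ⟨hu, huZ⟩)).1, hg2 (f u) u (mem_sdiff.2 ⟨hu, huZ⟩) rfl⟩
  · intro x₁ x₂ hx ⟨e₁, he₁, hx1, hx2⟩
    by_contra hcon
    rw [not_lt] at hcon
    obtain ⟨T, hT1, hT2⟩ := exists_subset_card_eq hcon
    have hTm : ∀ u ∈ T, u ∈ Z ∧ x₁ ≤ u ∧ u ≤ x₂ := by
      intro u hu
      have := mem_filter.1 (hT1 hu)
      exact this
    have hTd : ∀ u ∈ T, ∀ v ∈ T, |u - v| < (y : ℤ) ^ 2 := by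
      intro u hu v hv
      have h1 := hTm u hu
      have h2 := hTm v hv
      rw [abs_lt]
      constructor <;> linarith [h1.2.1, h1.2.2, h2.2.1, h2.2.2]
    set κ := E.card with hκ
    have hκ1 : 1 ≤ κ := card_pos.2 hE
    -- at most one prime at e₁
    have hone : ∀ u ∈ T, (D u e₁).card ≤ 1 := by
      intro u hu
      rw [card_le_one]
      intro p hp q hq
      rw [hD, mem_filter] at hp hq
      by_contra hpq
      have hpp := (hP p hp.1).1
      have hqq := (hP q hq.1).1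
      have hcop : IsCoprime (p : ℤ) (q : ℤ) := by
        rw [Nat.isCoprime_iff_coprime]
        exact (Nat.coprime_primes hpp hqq).2 hpq
      have hd : (p : ℤ) * q ∣ u - e₁ := hcop.mul_dvd hp.2 hq.2
      have hu' := hTm u hu
      have huE : u ∉ E := hU u (mem_filter.1 hu'.1).1
      have hne : u - e₁ ≠ 0 := sub_ne_zero.2 (fun h => huE (h ▸ he₁))
      have h4 : |(p : ℤ) * q| ≤ |u - e₁| := Int.le_of_dvd (abs_pos.2 hne) (by rwa [abs_dvd_abs])
      have h5 : |u - e₁| < (y : ℤ) ^ 2 := by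
        rw [abs_lt]
        constructor <;> linarith [hu'.2.1, hu'.2.2]
      have h6 : (y : ℤ) ^ 2 ≤ |(p : ℤ) * q| := by
        rw [abs_of_nonneg (by positivity)]
        have h7 : (y : ℤ) ≤ p := by exact_mod_cast (hP p hp.1).2.le
        have h8 : (y : ℤ) ≤ q := by exact_mod_cast (hP q hq.1).2.le
        nlinarith [Int.natCast_nonneg y]
      linarith
    have hsum : ∑ u ∈ T, (Bad u).card ≤ κ + (κ - 1) * (P.card + κ ^ 2) := by
      calc ∑ u ∈ T, (Bad u).card ≤ ∑ u ∈ T, ∑ e ∈ E, (D u e).card := sum_le_sum (fun u _ => hBadc u)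
        _ = ∑ e ∈ E, ∑ u ∈ T, (D u e).card := sum_comm
        _ = ∑ u ∈ T, (D u e₁).card + ∑ e ∈ E.erase e₁, ∑ u ∈ T, (D u e).card := by
            exact (add_sum_erase E (fun e => ∑ u ∈ T, (D u e).card) he₁).symm
        _ ≤ κ + (κ - 1) * (P.card + κ ^ 2) := by
            apply Nat.add_le_add
            · calc ∑ u ∈ T, (D u e₁).card ≤ ∑ u ∈ T, 1 := sum_le_sum hone
                _ = κ := by simp [hT2]
            · calc ∑ e ∈ E.erase e₁, ∑ u ∈ T, (D u e).card
                  ≤ ∑ e ∈ E.erase e₁, (P.card + κ ^ 2) := by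
                    apply sum_le_sum
                    intro e _
                    have := sum_div_le y P hP T e hTd
                    rwa [hT2] at this
                _ = (κ - 1) * (P.card + κ ^ 2) := by
                    rw [sum_const, card_erase_of_mem he₁, smul_eq_mul]
    have hlow : κ * (2 * k * P.card + 1) ≤ 2 * k * ∑ u ∈ T, (Bad u).card + κ * P.card := by
      have h1 : ∑ u ∈ T, (2 * k * P.card + 1) ≤ ∑ u ∈ T, (2 * k * (Bad u).card + P.card) := by
        apply sum_le_sum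
        intro u hu
        have := (mem_filter.1 (hTm u hu).1).2
        exact this
      rw [sum_const, sum_add_distrib, ← mul_sum, sum_const, hT2, smul_eq_mul, smul_eq_mul] at h1
      exact h1
    obtain ⟨j, hj⟩ : ∃ j, κ = j + 1 := ⟨κ - 1, by omega⟩
    have hj1 : κ - 1 = j := by omega
    rw [hj1] at hsum
    have hjk : j + 1 ≤ k := by omega
    -- final arithmetic
    have h1 : κ * (2 * k * P.card + 1) ≤ 2 * k * (κ + j * (P.card + κ ^ 2)) + κ * P.card :=
      hlow.trans (Nat.add_le_add_right (Nat.mul_le_mul_left _ hsum) _)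
    rw [hj] at h1
    have h2 : 2 * k * P.card + (j + 1) ≤ 2 * k * ((j + 1) + j * (j + 1) ^ 2) + (j + 1) * P.card := by
      nlinarith [h1]
    have h3 : (j + 1) * P.card ≤ k * P.card := Nat.mul_le_mul_right _ hjk
    have h4 : k * P.card < k * (2 * ((j + 1) + j * (j + 1) ^ 2)) := by nlinarith
    have h5 : P.card < 2 * ((j + 1) + j * (j + 1) ^ 2) := lt_of_mul_lt_mul_left h4 (Nat.zero_le _)
    have h6 : (j + 1) + j * (j + 1) ^ 2 ≤ (j + 1) ^ 3 := by nlinarith [Nat.zero_le j, Nat.zero_le (j ^ 2)]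
    have h7 : (j + 1) ^ 3 ≤ k ^ 3 := Nat.pow_le_pow_left hjk 3
    omega
  · intro u hu
    by_contra hcon
    push Not at hcon
    have h1 := (mem_filter.1 hu).2
    have h2 : 2 * k * (Bad u).card ≤ ∑ e ∈ E, 2 * k * (D u e).card := by
      rw [← mul_sum]
      exact Nat.mul_le_mul_left _ (hBadc u)
    have h3 : ∑ e ∈ E, (2 * k * (D u e).card + 1) ≤ ∑ e ∈ E, P.card :=
      sum_le_sum (fun e he => hcon e he)
    rw [sum_add_distrib, sum_const, sum_const, smul_eq_mul, smul_eq_mul, mul_one] at h3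
    have h4 : 1 ≤ E.card := card_pos.2 hE
    have h5 : E.card * P.card ≤ k * P.card := Nat.mul_le_mul_right _ hEk
    nlinarith

end AsgP

/-- **ASG** -/
theorem asg : St_ASG := by
  intro k y P E U hk hky hE hEk hP hPk hU hUk
  exact AsgP.asg_main k y P E U hk hky hE hEk hP hPk hU hUk

end Pool.Agent.Q117.LF
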