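import Pool.Agent.Q117.LF.Stm

/-!
# Project LF, job BLKL (helper299): the blocks satisfy the conditions, and their total mass

Adapted from `Pool/Agent/Q117/CR/Typ.lean` and `Pool/Agent/Y840/CI/Fin1.lean`.
-/

set_option autoImplicit false

namespace Pool.Agent.Q117.LF

open Finset Filter Pool.Agent.W23.DC Pool.Agent.Y660.RP
open Pool.Agent.Y843.HS (Pr Pr_mem Pr_prime)
open Pool.Agent.Y843.QD (vZ dvd_vZ)
open Pool.Agent.Y843.HG (Adm Z0 SP V1)
open Pool.Agent.Y843.CH hiding TB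
open Pool.Agent.Y840.CI
open Pool.Agent.Q117.CR

theorem aL_le {X A B α γ : ℕ} {h : ℤ} (hX : h.natAbs ≤ X) (hAB : A ≤ B) (hB : α * B ≤ X) (hγ : 1 ≤ γ)
    (s : ℤ) : 0 ≤ aL α γ A B h s ∧ aL α γ A B h s ≤ bL α γ A B h s ∧ bL α γ A B h s ≤ 2 * X := by
  have h1 : (|h| : ℤ) ≤ X := by
    rw [Int.abs_eq_natAbs]
    exact_mod_cast hX
  have h2 : |(h : ℝ)| ≤ X := by exact_mod_cast h1
  rw [abs_le] at h2
  have h3 : (A : ℝ) ≤ B := by exact_mod_cast hAB
  have h4 : (α : ℝ) * B ≤ X := by exact_mod_cast hB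
  have h5 : (0 : ℝ) ≤ α := Nat.cast_nonneg _
  have h6 : (α : ℝ) * A ≤ α * B := mul_le_mul_of_nonneg_left h3 h5
  have h7 : (0 : ℝ) ≤ α * A := by positivity
  have hγr : (1 : ℝ) ≤ γ := by exact_mod_cast hγ
  have hγ0 : (0 : ℝ) < γ := by linarith
  have hX0 : (0 : ℝ) ≤ X := Nat.cast_nonneg _
  have h8 : (2 : ℝ) * X ≤ 2 * X * γ := le_mul_of_one_le_right (by linarith) hγr
  unfold aL bL
  split_ifs
  · refine ⟨le_max_right _ _, max_le_max ?_ le_rfl, max_le ?_ (by linarith)⟩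
    · exact div_le_div_of_nonneg_right (by linarith) hγ0.le
    · rw [div_le_iff₀ hγ0]
      linarith
  · refine ⟨le_max_right _ _, max_le_max ?_ le_rfl, max_le ?_ (by linarith)⟩
    · have : ((h : ℝ) - α * B) / γ ≤ ((h : ℝ) - α * A) / γ :=
        div_le_div_of_nonneg_right (by linarith) hγ0.le
      linarith
    · rw [div_le_iff₀ hγ0]
      linarith

theorem abL_sum {A B α γ : ℕ} (hAB : A ≤ B) (hγ : 1 ≤ γ) (h : ℤ) :
    (bL α γ A B h 1 - aL α γ A B h 1) + (bL α γ A B h (-1) - aL α γ A B h (-1)) ≤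
      (α : ℝ) * ((B : ℝ) - A) / γ + 1 := by
  have h3 : (A : ℝ) ≤ B := by exact_mod_cast hAB
  have h5 : (0 : ℝ) ≤ α := Nat.cast_nonneg _
  have h6 : (α : ℝ) * A ≤ α * B := mul_le_mul_of_nonneg_left h3 h5
  have hγ0 : (0 : ℝ) < γ := by exact_mod_cast hγ
  unfold aL bL
  rw [if_pos rfl, if_pos rfl, if_neg (by norm_num), if_neg (by norm_num)]
  obtain ⟨x, hx⟩ : ∃ x : ℝ, x = ((α : ℝ) * A - h) / γ := ⟨_, rfl⟩
  obtain ⟨y, hy⟩ : ∃ y : ℝ, y = ((α : ℝ) * B - h) / γ := ⟨_, rfl⟩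
  have e1 : ((h : ℝ) - α * A) / γ = -x := by rw [hx]; ring
  have e2 : ((h : ℝ) - α * B) / γ = -y := by rw [hy]; ring
  have e3 : (α : ℝ) * ((B : ℝ) - A) / γ = y - x := by rw [hx, hy]; ring
  have exy : x ≤ y := by
    rw [hx, hy]
    exact div_le_div_of_nonneg_right (by linarith) hγ0.le
  rw [e1, e2, e3, ← hx, ← hy]
  rcases le_total 0 x with h1 | h1
  · rw [max_eq_left (by linarith), max_eq_left (by linarith), max_eq_right (by linarith),
      max_eq_right (by linarith)]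
    linarith
  · rcases le_total 0 y with h2 | h2
    · rw [max_eq_left (by linarith), max_eq_right (by linarith), max_eq_left (by linarith),
        max_eq_right (by linarith)]
      linarith
    · rw [max_eq_right (by linarith), max_eq_right (by linarith), max_eq_left (by linarith)]
      have := le_max_left (-y - 1) (0 : ℝ)
      linarith

/-- the blocks satisfy the conditions, for `X' ≥ X` -/
theorem blk_okL {N X X' A B α γ : ℕ} {δ : ℝ} {h : ℤ} (hXX : X ≤ X') (hNX : N ^ 2 ≤ X)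
    (hX : h.natAbs ≤ X) (hAB : A ≤ B) (hB : α * B ≤ X) (hγ : 1 ≤ γ) (hδ0 : 0 < δ) (hδ : δ ≤ 1 / 4000)
    (hN4 : 4000 ≤ N) (hSa : (X' : ℝ) ^ (1 / 9 : ℝ) + 1 ≤ (N : ℝ) ^ (1 / 4 : ℝ))
    (hSb : (N : ℝ) ^ (667 / 1000 : ℝ) ≤ (X : ℝ) ^ (2 / 5 : ℝ)) {J : ℕ} (hJ : 1 ≤ J)
    (hlam : (N : ℝ) ^ (417 / 1000 / (J : ℝ)) ≤ 1 + δ) {s : ℤ} {j : ℕ} (hj : j < J) :
    (blkL α γ A B N X J δ h (s, j)).OK X' := by
  have hNr : (4000 : ℝ) ≤ N := by exact_mod_cast hN4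
  have hNX' : (N : ℝ) ^ 2 ≤ X := by exact_mod_cast hNX
  have hN0 : (0 : ℝ) < N := by linarith
  have hX0 : (0 : ℝ) ≤ X := Nat.cast_nonneg _
  have hXXr : (X : ℝ) ≤ X' := by exact_mod_cast hXX
  set lam := (N : ℝ) ^ (417 / 1000 / (J : ℝ)) with hlamd
  have hpj : 0 < (N : ℝ) ^ uj J j := Real.rpow_pos_of_pos hN0 _
  have he : (N : ℝ) ^ uj J (j + 1) = (N : ℝ) ^ uj J j * lam := by
    rw [uj_succ, Real.rpow_add hN0]
  obtain ⟨h1, h2, h4⟩ := aL_le hX hAB hB hγ s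
  have hDX : δ * X ≤ 1 / 4000 * X := by gcongr
  have hD0 : 0 ≤ δ * X := by positivity
  have hb0 : 0 ≤ bL α γ A B h s + δ * X := by linarith
  have hlo : ∀ u : ℝ, (lo N u : ℝ) < (N : ℝ) ^ u := by
    intro u
    have h5 : ¬ lo N u < lo N u := lt_irrefl _
    rw [lo_lt_iff (by omega), not_le] at h5
    exact h5
  have hlo2 : ∀ u : ℝ, (N : ℝ) ^ u ≤ (lo N u : ℝ) + 1 := by
    intro u
    have h5 := (lo_lt_iff (by omega : 1 ≤ N) u (lo N u + 1)).1 (Nat.lt_succ_self _)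
    push_cast at h5
    exact h5
  refine ⟨?_, ?_, ?_, ?_, ?_⟩
  · show (X' : ℝ) ^ (1 / 9 : ℝ) ≤ lo N (uj J j)
    have h5 := hlo2 (uj J j)
    have h6 : (N : ℝ) ^ (1 / 4 : ℝ) ≤ (N : ℝ) ^ uj J j := by
      apply Real.rpow_le_rpow_of_exponent_le (by linarith)
      rw [← uj_zero J]
      exact uj_mono (Nat.zero_le _)
    linarith
  · show lo N (uj J j) ≤ lo N (uj J (j + 1))
    have h5 : (N : ℝ) ^ uj J j ≤ (N : ℝ) ^ uj J (j + 1) :=
      Real.rpow_le_rpow_of_exponent_le (by linarith) (uj_mono (Nat.le_succ _))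
    by_contra hcon
    rw [not_le, lo_lt_iff (by omega)] at hcon
    have h6 := hlo (uj J j)
    linarith
  · show (lo N (uj J (j + 1)) : ℝ) ≤ (X' : ℝ) ^ (2 / 5 : ℝ)
    refine (hlo _).le.trans (le_trans ?_ (hSb.trans (Real.rpow_le_rpow hX0 hXXr (by norm_num))))
    apply Real.rpow_le_rpow_of_exponent_le (by linarith)
    rw [← uj_last hJ]
    exact uj_mono (by omega)
  · show lo N (uj J (j + 1)) * ⌊(bL α γ A B h s + δ * X) / (N : ℝ) ^ uj J j⌋₊ ≤ 5 * X'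
    have h5 : ((lo N (uj J (j + 1)) * ⌊(bL α γ A B h s + δ * X) / (N : ℝ) ^ uj J j⌋₊ : ℕ) : ℝ) ≤ 5 * X := by
      push_cast
      calc (lo N (uj J (j + 1)) : ℝ) * (⌊(bL α γ A B h s + δ * X) / (N : ℝ) ^ uj J j⌋₊ : ℝ) ≤
            ((N : ℝ) ^ uj J j * lam) * ((bL α γ A B h s + δ * X) / (N : ℝ) ^ uj J j) := by
            rw [← he]
            exact mul_le_mul (hlo _).le (Nat.floor_le (by positivity)) (by positivity) (by positivity)
        _ = lam * (bL α γ A B h s + δ * X) := by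
            field_simp
        _ ≤ (1 + δ) * (bL α γ A B h s + δ * X) := mul_le_mul_of_nonneg_right hlam hb0
        _ ≤ 2 * (bL α γ A B h s + δ * X) := mul_le_mul_of_nonneg_right (by linarith) hb0
        _ ≤ 5 * X := by linarith
    have h6 : lo N (uj J (j + 1)) * ⌊(bL α γ A B h s + δ * X) / (N : ℝ) ^ uj J j⌋₊ ≤ 5 * X := by
      exact_mod_cast h5
    omega
  · intro n hn
    obtain ⟨g1, g2, g3⟩ := NN_mem hn
    refine ⟨g1, g2, fun p hp => ?_⟩
    have h5 := g3 p hp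
    have h6 : (N : ℝ) ^ (1 / 4 : ℝ) ≤ (N : ℝ) ^ (667 / 1000 : ℝ) :=
      Real.rpow_le_rpow_of_exponent_le (by linarith) (by norm_num)
    linarith

theorem massL {N X A B α γ : ℕ} {δ : ℝ} {h : ℤ} (hNX1 : N ^ 2 ≤ X) (hXN1 : X < (N + 1) ^ 2)
    (hX : h.natAbs ≤ X) (hAB : A ≤ B) (hB : α * B ≤ X) (hγ : 1 ≤ γ) (hδ0 : 0 < δ) (hδ : δ ≤ 1 / 4000)
    (hN4 : 4000 ≤ N) (hMB : MB' N δ) {J : ℕ} (hJ : 1 ≤ J)
    (hlam : (N : ℝ) ^ (417 / 1000 / (J : ℝ)) ≤ 1 + δ) (s : ℤ) :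
    ∑ j ∈ range J, msL α γ A B N X J δ h s j ≤
      (195 / 1000 * ((bL α γ A B h s - aL α γ A B h s) + 6 * (δ * X)) + δ * X) / Real.log N := by
  have hN2 : 2 ≤ N := by omega
  have hNr : (4000 : ℝ) ≤ N := by exact_mod_cast hN4
  have hNX : (N : ℝ) ^ 2 ≤ X := by exact_mod_cast hNX1
  have hXN : (X : ℝ) < ((N : ℝ) + 1) ^ 2 := by exact_mod_cast hXN1
  have hL : 0 < Real.log N := Real.log_pos (by linarith)
  set lam := (N : ℝ) ^ (417 / 1000 / (J : ℝ)) with hlamd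
  have hlam1 : 1 ≤ lam := Real.one_le_rpow (by linarith) (by positivity)
  have hlam0 : 0 < lam := by linarith
  obtain ⟨h1, h2, h4⟩ := aL_le hX hAB hB hγ s
  have hX0 : (0 : ℝ) ≤ X := Nat.cast_nonneg _
  have hX0' : (0 : ℝ) < X := by nlinarith
  have hX2 : (X : ℝ) ≤ 11 / 10 * (N : ℝ) ^ 2 := by nlinarith
  have hb0' : 0 ≤ bL α γ A B h s := by linarith
  obtain ⟨D, hD⟩ : ∃ D : ℝ, D = δ * X := ⟨_, rfl⟩
  have hD0 : 0 ≤ D := by rw [hD]; positivity
  have hDX : D ≤ 1 / 4000 * X := by rw [hD]; gcongr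
  have hDN : δ * (N : ℝ) ^ 2 ≤ D := by rw [hD]; gcongr
  have e1 : ∑ j ∈ range J, msL α γ A B N X J δ h s j =
      ∑ j ∈ range J, ((pr N (uj J j) (uj J (j + 1))).card : ℝ) *
      ((NN N (aL α γ A B h s / (N : ℝ) ^ uj J (j + 1)) ((bL α γ A B h s + D) / (N : ℝ) ^ uj J j)).card : ℝ) := by
    apply Finset.sum_congr rfl
    intro j hj
    unfold msL
    rw [block_eq hN2 (uj_le_one hJ (mem_range.1 hj)), hD]
  rw [e1, ← hD]
  obtain ⟨aa, haa⟩ : ∃ aa : ℝ, aa = aL α γ A B h s := ⟨_, rfl⟩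
  obtain ⟨bb, hbb⟩ : ∃ bb : ℝ, bb = bL α γ A B h s := ⟨_, rfl⟩
  rw [← haa] at h1 h2 ⊢
  rw [← hbb] at h2 h4 hb0' ⊢
  have hb0 : 0 ≤ bb + D := by linarith
  refine (mass_blocks hN2 hJ aa (bb + D) h1).trans ?_
  rw [← hlamd]
  have ha : aa / lam ≤ aa := div_le_self h1 hlam1
  have haX : aa ≤ 2 * X := by linarith
  have hδa : δ * aa ≤ 2 * D := by
    calc δ * aa ≤ δ * (2 * X) := by gcongr
      _ = 2 * D := by rw [hD]; ring
  have hδb : δ * (bb + D) ≤ 3 * D := by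
    calc δ * (bb + D) ≤ δ * (3 * X) := by gcongr; linarith
      _ = 3 * D := by rw [hD]; ring
  have hinv : aa - δ * aa ≤ aa / lam := by
    rw [le_div_iff₀ hlam0]
    have h5 : aa * (1 - δ) * lam ≤ aa * (1 - δ) * (1 + δ) := by
      apply mul_le_mul_of_nonneg_left hlam
      apply mul_nonneg h1
      linarith
    have h6 : aa * (1 - δ) * (1 + δ) ≤ aa := by
      have : aa * (1 - δ) * (1 + δ) = aa - aa * δ ^ 2 := by ring
      rw [this]
      have : 0 ≤ aa * δ ^ 2 := by positivity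
      linarith
    calc (aa - δ * aa) * lam = aa * (1 - δ) * lam := by ring
      _ ≤ _ := h5.trans h6
  have hbl : bb + D ≤ (bb + D) * lam := le_mul_of_one_le_right hb0 hlam1
  have hbu : (bb + D) * lam ≤ (bb + D) * (1 + δ) :=
    mul_le_mul_of_nonneg_left hlam hb0
  have hbu2 : (bb + D) * lam ≤ bb + D + 3 * D := by
    calc (bb + D) * lam ≤ (bb + D) * (1 + δ) := hbu
      _ = (bb + D) + δ * (bb + D) := by ring
      _ ≤ _ := by linarith
  refine (hMB (aa / lam) ((bb + D) * lam) (by positivity) (by linarith)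
    (by linarith) (by linarith)).trans ?_
  apply div_le_div_of_nonneg_right _ hL.le
  linarith

/-- JOB BLKL -/
theorem blkl : St_BLKL := by
  intro r N X z Y M M2 ps a α γ A B J ε δ θ h Om S hNA hAB hB hN4 hδ0 hδ hJ hlam
  have hα := S.α0
  have hγ := S.γ0
  constructor
  · intro hSz hg s hs j hj
    have hle : X ≤ (α * γ) ^ 3 * X := Nat.le_mul_of_pos_left _ (by positivity)
    exact ⟨blk_okL le_rfl S.NX S.hX hAB hB hγ hδ0 hδ hN4 hSz.a hSz.b hJ hlam hj,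
      blk_okL hle S.NX S.hX hAB hB hγ hδ0 hδ hN4 hg hSz.b hJ hlam hj⟩
  · intro hθ0 hδθ hθ hθX hMB
    have h1 := massL S.NX S.XN S.hX hAB hB hγ hδ0 hδ hN4 hMB hJ hlam 1
    have h2 := massL S.NX S.XN S.hX hAB hB hγ hδ0 hδ hN4 hMB hJ hlam (-1)
    have h3 := abL_sum (α := α) hAB hγ h
    have hL : 0 < Real.log N := Real.log_pos (by
      have : (4000 : ℝ) ≤ N := by exact_mod_cast hN4
      linarith)
    have hX0 : (0 : ℝ) ≤ X := Nat.cast_nonneg _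
    have hγ0 : (0 : ℝ) < γ := by exact_mod_cast hγ
    have hα1 : (1 : ℝ) ≤ α := by exact_mod_cast hα
    have hABr : (A : ℝ) ≤ B := by exact_mod_cast hAB
    obtain ⟨L0, hL0⟩ : ∃ L0 : ℝ, L0 = (α : ℝ) * ((B : ℝ) - A) / γ := ⟨_, rfl⟩
    have hLB : ((B : ℝ) - A) / γ ≤ L0 := by
      rw [hL0]
      apply div_le_div_of_nonneg_right _ hγ0.le
      exact le_mul_of_one_le_left (by linarith) hα1
    have hD : δ * X ≤ L0 / 8000 := by
      rw [hδθ]
      calc θ / (8000 * γ) * X = (θ * X) / γ / 8000 := by field_simp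
        _ ≤ (((B : ℝ) - A) / γ) / 8000 := by gcongr
        _ ≤ _ := by gcongr
    have h1L : 1 ≤ L0 / 4000 := by
      have : 4000 ≤ ((B : ℝ) - A) / γ := by
        rw [le_div_iff₀ hγ0]
        linarith
      linarith
    rw [← hL0] at h3 ⊢
    have h4 : (195 / 1000 * ((bL α γ A B h 1 - aL α γ A B h 1) + 6 * (δ * X)) + δ * X) / Real.log N +
        (195 / 1000 * ((bL α γ A B h (-1) - aL α γ A B h (-1)) + 6 * (δ * X)) + δ * X) / Real.log N ≤
        196 / 1000 * (L0 / Real.log N) := by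
      rw [← add_div, mul_div_assoc']
      apply div_le_div_of_nonneg_right _ hL.le
      linarith
    linarith

end Pool.Agent.Q117.LF
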