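import Pool.Agent.Q117.LF.Stm

/-! (helper24) JOB BSCG of project LF: one small conductor for a block. -/

set_option autoImplicit false

namespace Pool.Agent.Q117.LF

open Finset Filter
open Pool.Agent.H378R2.LSBV (QQ wt)
open Pool.Agent.Helper112
open Pool.Agent.Y261.CH (al be EP PP)
open Pool.Agent.Q117.CR

theorem bscg : St_BSCG := by
  intro A g hg
  set K : ℕ := 2 ^ (A + 1) with hK
  have hll : Tendsto (fun X : ℕ => ll (X : ℝ)) atTop atTop :=
    Real.tendsto_log_atTop.comp (Real.tendsto_log_atTop.comp tendsto_natCast_atTop_atTop)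
  have hev := hll.eventually (Pool.Agent.Q117.CR.BSC.ev_poly (K + g))
  have hev1 := hll.eventually (eventually_ge_atTop (1 : ℝ))
  obtain ⟨X0, hX0⟩ := eventually_atTop.1 (hev.and (hev1.and (eventually_ge_atTop 3)))
  refine ⟨X0, fun X hX f h1f hfe0 hchar M₀ M₁ Y T hB => ?_⟩
  obtain ⟨⟨p1, p2⟩, hl1, hX3⟩ := hX0 X hX
  set l := ll (X : ℝ) with hl
  have hg0 : (0 : ℝ) ≤ g := Nat.cast_nonneg g
  have hgl : (g : ℝ) ≤ g * (1 + l) := by nlinarith
  have ecast : ((K + g : ℕ) : ℝ) * (1 + l) = K * (1 + l) + g * (1 + l) := by push_cast; ring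
  rw [ecast] at p1 p2
  have hfe : (f : ℝ) ≤ Real.exp (l ^ 6 + g) := by
    refine hfe0.trans ?_
    rw [Real.exp_add, mul_comm]
    have := Real.add_one_le_exp (g : ℝ)
    exact mul_le_mul_of_nonneg_left (by linarith) (Real.exp_pos _).le
  set L := Real.log (X : ℝ) with hL
  have hXR : (3 : ℝ) ≤ X := by exact_mod_cast hX3
  have hXpos : (0 : ℝ) < X := by linarith
  have hlL : l = Real.log L := rfl
  have hLpos : 0 < L := Real.log_pos (by linarith)
  have hLe : L = Real.exp l := by rw [hlL, Real.exp_log hLpos]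
  have hXe : (X : ℝ) = Real.exp L := by rw [hL, Real.exp_log hXpos]
  have hL1 : 1 ≤ L := by
    rw [hLe]
    have := Real.add_one_le_exp l
    linarith
  set E : ℝ := Real.exp (-l ^ 7 / 8) with hE
  have hM0 : (1 : ℝ) ≤ M₀ := by
    have : (1 : ℝ) ≤ (X : ℝ) ^ (1 / 9 : ℝ) := Real.one_le_rpow (by linarith) (by norm_num)
    linarith [hB.a]
  have hM0' : (X : ℝ) ^ (11 / 100 : ℝ) ≤ M₀ := by
    refine le_trans ?_ hB.a
    exact Real.rpow_le_rpow_of_exponent_le (by linarith) (by norm_num)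
  have hM01 : (M₀ : ℝ) ≤ M₁ := by exact_mod_cast hB.b
  have hM1X : M₁ ≤ X := by
    have h1 : (M₁ : ℝ) ≤ X := by
      refine hB.c.trans ?_
      calc (X : ℝ) ^ (2 / 5 : ℝ) ≤ (X : ℝ) ^ (1 : ℝ) :=
            Real.rpow_le_rpow_of_exponent_le (by linarith) (by norm_num)
        _ = X := Real.rpow_one _
    exact_mod_cast h1
  have hR : (RX (X : ℝ) : ℝ) ≤ X := by
    unfold RX
    refine (Nat.floor_le (by positivity)).trans ?_
    calc (X : ℝ) ^ (4995 / 10000 : ℝ) ≤ (X : ℝ) ^ (1 : ℝ) :=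
          Real.rpow_le_rpow_of_exponent_le (by linarith) (by norm_num)
      _ = X := Real.rpow_one _
  have hMY : (M₁ : ℝ) * Y ≤ 5 * X := by exact_mod_cast hB.d
  have hY : (Y : ℝ) ≤ 5 * (X * Real.exp (-(L / 9))) := by
    have h1 : (X : ℝ) ^ (1 / 9 : ℝ) * Y ≤ 5 * X := by
      refine le_trans ?_ hMY
      exact mul_le_mul_of_nonneg_right (hB.a.trans hM01) (Nat.cast_nonneg _)
    have h2 : (X : ℝ) ^ (1 / 9 : ℝ) = Real.exp (L / 9) := by
      rw [Real.rpow_def_of_pos hXpos, ← hL]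
      congr 1; ring
    rw [h2] at h1
    have h3 : Real.exp (L / 9) * Real.exp (-(L / 9)) = 1 := by
      rw [← Real.exp_add]; simp
    calc (Y : ℝ) = (Real.exp (L / 9) * Y) * Real.exp (-(L / 9)) := by
          rw [mul_comm (Real.exp (L / 9)) (Y : ℝ), mul_assoc, h3, mul_one]
      _ ≤ (5 * X) * Real.exp (-(L / 9)) := mul_le_mul_of_nonneg_right h1 (Real.exp_pos _).le
      _ = _ := by ring
  have hchar' : ∀ ψ : DirichletCharacter ℂ f, ψ.IsPrimitive →
      ‖∑ p ∈ (Icc 1 M₁).filter Nat.Prime, ψ (p : ZMod f)‖ ≤ M₁ * E ∧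
      ‖∑ p ∈ (Icc 1 M₀).filter Nat.Prime, ψ (p : ZMod f)‖ ≤ M₀ * E := fun ψ hψ =>
    ⟨hchar ψ hψ M₁ (hM0'.trans hM01) (by exact_mod_cast hM1X),
      hchar ψ hψ M₀ hM0' (by exact_mod_cast hB.b.trans hM1X)⟩
  set Bd : ℝ := Real.exp (l ^ 6 + g) * (10 * X * E + 10 * L * (X * Real.exp (-(L / 9)))) with hBd
  have hBd0 : 0 ≤ Bd := by positivity
  have hP : ∀ e ∈ Icc 1 (RX (X : ℝ)),
      BLB.P M₁ Y (BLB.res e (al M₀)) (BLB.res e (be T)) f ≤ Bd := by
    intro e he
    rw [mem_Icc] at he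
    refine (Pool.Agent.Q117.CR.BSC.P_le M₀ M₁ Y e f T hB.b (by omega) (by omega) E (Real.exp_pos _).le hchar').trans ?_
    have h1 : (e.primeFactors.card : ℝ) ≤ 2 * L := by
      refine (Pool.Agent.Y261.CH.om_le e (by omega)).trans ?_
      have h2 : Real.log e ≤ L := by
        apply Real.log_le_log (by exact_mod_cast he.1)
        refine le_trans ?_ hR
        exact_mod_cast he.2
      linarith
    have hE0 : 0 ≤ E := (Real.exp_pos _).le
    have hY0 : (0 : ℝ) ≤ Y := Nat.cast_nonneg _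
    have h2 : (2 * M₁ * E + (e.primeFactors.card : ℝ)) * Y ≤
        10 * X * E + 10 * L * (X * Real.exp (-(L / 9))) := by
      have h3 : (2 * M₁ * E + (e.primeFactors.card : ℝ)) * Y =
          2 * E * (M₁ * Y) + (e.primeFactors.card : ℝ) * Y := by ring
      rw [h3]
      have h4 : 2 * E * (M₁ * Y) ≤ 2 * E * (5 * X) := mul_le_mul_of_nonneg_left hMY (by positivity)
      have h5 : (e.primeFactors.card : ℝ) * Y ≤ 2 * L * (5 * (X * Real.exp (-(L / 9)))) :=
        mul_le_mul h1 hY hY0 (by positivity)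
      linarith
    have h6 : 0 ≤ (2 * M₁ * E + (e.primeFactors.card : ℝ)) * Y :=
      mul_nonneg (add_nonneg (mul_nonneg (mul_nonneg two_pos.le (Nat.cast_nonneg _)) hE0)
        (Nat.cast_nonneg _)) hY0
    exact mul_le_mul hfe h2 h6 (Real.exp_pos _).le
  have hTB : TB A (RX (X : ℝ)) M₀ M₁ Y T f ≤ (∑ e ∈ Icc 1 (RX (X : ℝ)), wt A e) * Bd := by
    unfold TB
    rw [sum_mul]
    apply sum_le_sum
    intro e he
    exact mul_le_mul_of_nonneg_left (hP e he) (Pool.Agent.H378R2.LSBV.wt_nonneg A e)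
  have hwt : ∑ e ∈ Icc 1 (RX (X : ℝ)), wt A e ≤ Real.exp (K * (1 + l)) := by
    refine (Pool.Agent.H378R2.LSBV.sum_wt A (RX (X : ℝ))).trans ?_
    have h1 : 1 + Real.log (RX (X : ℝ) : ℝ) ≤ Real.exp (1 + l) := by
      have h2 : Real.log (RX (X : ℝ) : ℝ) ≤ L := by
        rcases Nat.eq_zero_or_pos (RX (X : ℝ)) with h | h
        · rw [h, Nat.cast_zero, Real.log_zero]; exact hLpos.le
        · exact Real.log_le_log (by exact_mod_cast h) hR
      rw [Real.exp_add, ← hLe]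
      have := Real.exp_one_gt_d9
      nlinarith
    have h0 : 0 ≤ 1 + Real.log (RX (X : ℝ) : ℝ) := by
      have := Real.log_natCast_nonneg (RX (X : ℝ))
      linarith
    calc (1 + Real.log (RX (X : ℝ) : ℝ)) ^ K ≤ Real.exp (1 + l) ^ K :=
          pow_le_pow_left₀ h0 h1 K
      _ = _ := by rw [← Real.exp_nat_mul]
  refine hTB.trans ((mul_le_mul_of_nonneg_right hwt hBd0).trans ?_)
  have h20 : (20 : ℝ) ≤ Real.exp 4 := by
    have h1 := Real.exp_one_gt_d9
    have h2 : Real.exp 4 = Real.exp 1 ^ 4 := by rw [← Real.exp_nat_mul]; norm_num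
    rw [h2]
    calc (20 : ℝ) ≤ (2.7 : ℝ) ^ 4 := by norm_num
      _ ≤ _ := pow_le_pow_left₀ (by norm_num) (by linarith) 4
  have q1 : Real.exp (K * (1 + l)) * (Real.exp (l ^ 6 + g) * (10 * X * E)) ≤
      X * Real.exp (-l ^ 7 / 12) / 2 := by
    have h1 : Real.exp (K * (1 + l)) * Real.exp (l ^ 6 + g) * Real.exp 4 * E ≤
        Real.exp (-l ^ 7 / 12) := by
      rw [hE, ← Real.exp_add, ← Real.exp_add, ← Real.exp_add]
      apply Real.exp_le_exp.2
      linarith
    have h2 : Real.exp (K * (1 + l)) * Real.exp (l ^ 6 + g) * 20 * E ≤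
        Real.exp (K * (1 + l)) * Real.exp (l ^ 6 + g) * Real.exp 4 * E := by gcongr
    have h3 := mul_le_mul_of_nonneg_left (h2.trans h1) hXpos.le
    linarith
  have q2 : Real.exp (K * (1 + l)) * (Real.exp (l ^ 6 + g) * (10 * L * (X * Real.exp (-(L / 9))))) ≤
      X * Real.exp (-l ^ 7 / 12) / 2 := by
    have h1 : Real.exp (K * (1 + l)) * Real.exp (l ^ 6 + g) * Real.exp 4 * L * Real.exp (-(L / 9)) ≤
        Real.exp (-l ^ 7 / 12) := by
      have e1 : Real.exp (K * (1 + l)) * Real.exp (l ^ 6 + g) * Real.exp 4 * L * Real.exp (-(L / 9)) =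
          Real.exp (K * (1 + l) + (l ^ 6 + g) + 4 + l + (-(L / 9))) := by
        rw [Real.exp_add _ (-(L / 9)), Real.exp_add _ l, Real.exp_add _ (4 : ℝ),
          Real.exp_add _ (l ^ 6 + (g : ℝ)), ← hLe]
      rw [e1]
      apply Real.exp_le_exp.2
      rw [← hLe] at p2
      linarith
    have h2 : Real.exp (K * (1 + l)) * Real.exp (l ^ 6 + g) * 20 * L * Real.exp (-(L / 9)) ≤
        Real.exp (K * (1 + l)) * Real.exp (l ^ 6 + g) * Real.exp 4 * L * Real.exp (-(L / 9)) := by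
      gcongr
    have h3 := mul_le_mul_of_nonneg_left (h2.trans h1) hXpos.le
    linarith
  have e3 : Real.exp (K * (1 + l)) * Bd = Real.exp (K * (1 + l)) * (Real.exp (l ^ 6 + g) * (10 * X * E)) +
      Real.exp (K * (1 + l)) * (Real.exp (l ^ 6 + g) * (10 * L * (X * Real.exp (-(L / 9))))) := by
    rw [hBd]; ring
  rw [e3]
  have e2 : X * Real.exp (-l ^ 7 / 12) = X * Real.exp (-l ^ 7 / 12) / 2 +
      X * Real.exp (-l ^ 7 / 12) / 2 := by ring
  rw [e2]
  exact add_le_add q1 q2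

end Pool.Agent.Q117.LF
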