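import Pool.Agent.Q117.LF.Stm

/-! JOB BVBG of project LF: a block modulo `M q` on average over `q`. -/

set_option autoImplicit false

namespace Pool.Agent.Q117.LF

open Finset Filter
open Pool.Agent.Q117.CR
open Pool.Agent.H378R2.LSBV (QQ wt)
open Pool.Agent.Helper112 Pool.Agent.H398R2.BV
open Pool.Agent.Y261.CH (al be EP PP BB)

theorem bvbg : St_BVBG := by
  have swb : St_SWB := Pool.Agent.Q117.CR.swb
  intro κ hκ
  set K : ℕ := 2 ^ (κ + 1) with hK
  obtain ⟨X0, hX0⟩ := eventually_atTop.1 ((tendsto_natCast_atTop_atTop (R := ℝ)).eventually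
    ((BVB.ev K).and (eventually_ge_atTop (3 : ℝ))))
  refine ⟨X0, fun X hX M₀ M₁ Y T hB W ps hW1 hWle hpL r hr => ?_⟩
  obtain ⟨⟨p1, p2⟩, hX3⟩ := hX0 X hX
  set L := Real.log (X : ℝ) with hL
  have hXpos : (0 : ℝ) < X := by linarith
  have hL1 : 1 ≤ L := by
    have : (1 : ℝ) ≤ 2 ^ K := one_le_pow₀ (by norm_num)
    linarith
  set R := RX (X : ℝ) with hR
  have hφW : (0 : ℝ) < Nat.totient W := by exact_mod_cast Nat.totient_pos.mpr hW1
  have hLX : L < (X : ℝ) ^ (1 / 9 : ℝ) := by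
    calc L = L ^ 1 := (pow_one L).symm
      _ ≤ L ^ (K + 2) := pow_le_pow_right₀ hL1 (Nat.succ_le_of_lt (Nat.succ_pos _))
      _ ≤ (X : ℝ) ^ (6 / 100 : ℝ) := p2
      _ < _ := Real.rpow_lt_rpow_of_exponent_lt (by linarith) (by norm_num)
  have hM01 : (M₀ : ℝ) ≤ M₁ := by exact_mod_cast hB.b
  have hMY : (M₁ : ℝ) * Y ≤ 5 * X := by exact_mod_cast hB.d
  have hRX : (R : ℝ) ≤ (X : ℝ) ^ (1 / 2 : ℝ) := by
    rw [hR]; unfold RX
    refine (Nat.floor_le (by positivity)).trans ?_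
    exact Real.rpow_le_rpow_of_exponent_le (by linarith) (by norm_num)
  have hWX : (W : ℝ) ≤ (X : ℝ) ^ (1 / 2 : ℝ) :=
    hWle.trans (Real.rpow_le_rpow_of_exponent_le (by linarith) (by norm_num))
  have hXX : (X : ℝ) ^ (1 / 2 : ℝ) * (X : ℝ) ^ (1 / 2 : ℝ) = X := by
    rw [← Real.rpow_add hXpos]; norm_num
  have hRX' : (R : ℝ) ≤ X := by
    refine hRX.trans ?_
    calc (X : ℝ) ^ (1 / 2 : ℝ) ≤ (X : ℝ) ^ (1 : ℝ) :=
          Real.rpow_le_rpow_of_exponent_le (by linarith) (by norm_num)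
      _ = X := Real.rpow_one _
  -- primes of W
  have hpW : ∀ p : ℕ, p.Prime → p ∣ W → (p : ℝ) < (X : ℝ) ^ (1 / 9 : ℝ) := by
    intro p hp hd
    exact (hpL p hp hd).trans_lt hLX
  have hcond : ∀ p : ℕ, p.Prime → p ∣ W → p ≤ M₀ ∧ ∀ n ∈ T, ¬ p ∣ n := by
    intro p hp hd
    have h1 := hpW p hp hd
    constructor
    · have : (p : ℝ) ≤ M₀ := h1.le.trans hB.a
      exact_mod_cast this
    · intro n hn hpn
      have h2 := hB.e n hn
      have h3 := h2.2.2 p (Nat.mem_primeFactors.2 ⟨hp, hpn, by omega⟩)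
      linarith
  have hswb := swb κ W ps R M₀ M₁ Y T hW1 hcond
  have hT' : ∀ n ∈ T, 1 ≤ n ∧ n ≤ Y := fun n hn => ⟨(hB.e n hn).1, (hB.e n hn).2.1⟩
  -- termwise
  have hterm : ∀ q ∈ QQ W ps R, (κ : ℝ) ^ q.primeFactors.card * EP M₀ M₁ T (r q) (W * q) ≤
      (q.divisors.card : ℝ) ^ κ * ∑ f ∈ (W * q).divisors.filter (fun f => f ≠ 1),
        (1 / (Nat.totient (W * q) : ℝ)) *
          BLB.P M₁ Y (BLB.res (W * q / f) (al M₀)) (BLB.res (W * q / f) (be T)) f +
      (1 / (Nat.totient W : ℝ)) * (wt κ q * (20 * L * (X : ℝ) ^ (8 / 9 : ℝ))) := by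
    intro q hq
    rw [Pool.Agent.H378R2.LSBV.mem_QQ] at hq
    obtain ⟨⟨hq1, hq2⟩, hqs, hqc⟩ := hq
    have hc : W.Coprime q := (Nat.Coprime.coprime_mul_right_right hqc).symm
    have hWq : W * q ≠ 0 := Nat.mul_ne_zero (by omega) (by omega)
    have e1 := Pool.Agent.Y261.CH.EP_E M₀ M₁ Y T hT' (r q) (W * q)
    have e2 := BLB.step12 M₁ Y (al M₀) (be T) (W * q) hWq (r q) (hr q hq1)
    have e3 := BVB.pow_om κ q hκ hq1
    have hw0 : (0 : ℝ) < (X : ℝ) ^ (1 / 9 : ℝ) := Real.rpow_pos_of_pos hXpos _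
    have e4 := Pool.Agent.Y261.CH.BB_le M₀ M₁ Y T ((X : ℝ) ^ (1 / 9 : ℝ)) hw0 hB.e
      (hB.a.trans hM01) (W * q) hWq
    have e5 : ((W * q).primeFactors.card : ℝ) ≤ 2 * L := by
      refine (Pool.Agent.Y261.CH.om_le (W * q) hWq).trans ?_
      have h2 : Real.log ((W * q : ℕ) : ℝ) ≤ L := by
        apply Real.log_le_log (by exact_mod_cast Nat.pos_of_ne_zero hWq)
        push_cast
        have h3 : (q : ℝ) ≤ (X : ℝ) ^ (1 / 2 : ℝ) := le_trans (by exact_mod_cast hq2) hRX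
        calc (W : ℝ) * q ≤ (X : ℝ) ^ (1 / 2 : ℝ) * (X : ℝ) ^ (1 / 2 : ℝ) :=
              mul_le_mul hWX h3 (Nat.cast_nonneg _) (by positivity)
          _ = X := hXX
      linarith
    have e6 : 2 * ((M₁ : ℝ) * Y) / (X : ℝ) ^ (1 / 9 : ℝ) ≤ 10 * (X : ℝ) ^ (8 / 9 : ℝ) := by
      rw [div_le_iff₀ hw0]
      have h3 : (X : ℝ) ^ (8 / 9 : ℝ) * (X : ℝ) ^ (1 / 9 : ℝ) = X := by
        rw [← Real.rpow_add hXpos]; norm_num
      calc 2 * ((M₁ : ℝ) * Y) ≤ 10 * X := by linarith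
        _ = _ := by rw [mul_assoc, h3]
    have e7 : BB M₀ M₁ T (W * q) ≤ 20 * L * (X : ℝ) ^ (8 / 9 : ℝ) := by
      refine e4.trans ?_
      calc ((W * q).primeFactors.card : ℝ) * (2 * ((M₁ : ℝ) * Y) / (X : ℝ) ^ (1 / 9 : ℝ)) ≤
          (2 * L) * (10 * (X : ℝ) ^ (8 / 9 : ℝ)) :=
            mul_le_mul e5 e6 (by positivity) (by positivity)
        _ = _ := by ring
    have hφq : (0 : ℝ) < Nat.totient q := by exact_mod_cast Nat.totient_pos.mpr hq1
    have hκ0 : (0 : ℝ) ≤ (κ : ℝ) ^ q.primeFactors.card := by positivity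
    have hP0 : 0 ≤ ∑ f ∈ (W * q).divisors.filter (fun f => f ≠ 1),
        (1 / (Nat.totient (W * q) : ℝ)) *
          BLB.P M₁ Y (BLB.res (W * q / f) (al M₀)) (BLB.res (W * q / f) (be T)) f :=
      sum_nonneg fun f _ => mul_nonneg (by positivity) (BLB.P_nonneg _ _ _ _ _)
    calc (κ : ℝ) ^ q.primeFactors.card * EP M₀ M₁ T (r q) (W * q) ≤
        (κ : ℝ) ^ q.primeFactors.card * (∑ f ∈ (W * q).divisors.filter (fun f => f ≠ 1),
        (1 / (Nat.totient (W * q) : ℝ)) *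
          BLB.P M₁ Y (BLB.res (W * q / f) (al M₀)) (BLB.res (W * q / f) (be T)) f +
          1 / (Nat.totient (W * q) : ℝ) * BB M₀ M₁ T (W * q)) := by
          apply mul_le_mul_of_nonneg_left _ hκ0
          exact e1.trans (add_le_add_left e2 _)
      _ ≤ _ := by
          rw [mul_add]
          apply add_le_add
          · exact mul_le_mul_of_nonneg_right e3 hP0
          · rw [Nat.totient_mul hc]
            push_cast
            have h8 : (κ : ℝ) ^ q.primeFactors.card * (1 / ((Nat.totient W : ℝ) * Nat.totient q) *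
                BB M₀ M₁ T (W * q)) = (1 / (Nat.totient W : ℝ)) *
                (((κ : ℝ) ^ q.primeFactors.card / Nat.totient q) * BB M₀ M₁ T (W * q)) := by
              field_simp
            rw [h8]
            apply mul_le_mul_of_nonneg_left _ (by positivity)
            have h9 : (κ : ℝ) ^ q.primeFactors.card / Nat.totient q ≤ wt κ q := by
              unfold Pool.Agent.H378R2.LSBV.wt
              exact div_le_div_of_nonneg_right e3 hφq.le
            have h10 : 0 ≤ BB M₀ M₁ T (W * q) := by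
              unfold Pool.Agent.Y261.CH.BB
              exact sum_nonneg fun b _ => sum_nonneg fun c _ => by split_ifs <;> norm_num
            exact mul_le_mul h9 e7 h10 (Pool.Agent.H378R2.LSBV.wt_nonneg κ q)
  refine (sum_le_sum hterm).trans ?_
  rw [sum_add_distrib, mul_add]
  apply add_le_add
  · exact hswb
  · rw [← mul_sum, ← sum_mul]
    apply mul_le_mul_of_nonneg_left _ (by positivity)
    have h1 : ∑ q ∈ QQ W ps R, wt κ q ≤ (1 + L) ^ K := by
      have h2 : ∑ q ∈ QQ W ps R, wt κ q ≤ ∑ q ∈ Icc 1 R, wt κ q := by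
        apply sum_le_sum_of_subset_of_nonneg
        · unfold Pool.Agent.H378R2.LSBV.QQ
          exact filter_subset _ _
        · intro i _ _
          exact Pool.Agent.H378R2.LSBV.wt_nonneg κ i
      refine h2.trans ((Pool.Agent.H378R2.LSBV.sum_wt κ R).trans ?_)
      have h0 : 0 ≤ 1 + Real.log (R : ℝ) := by
        have := Real.log_natCast_nonneg R
        linarith
      apply pow_le_pow_left₀ h0
      have h3 : Real.log (R : ℝ) ≤ L := by
        rcases Nat.eq_zero_or_pos R with h | h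
        · rw [h, Nat.cast_zero, Real.log_zero]; linarith
        · exact Real.log_le_log (by exact_mod_cast h) hRX'
      linarith
    have h2 : (1 + L) ^ K ≤ 2 ^ K * L ^ K := by
      rw [← mul_pow]
      exact pow_le_pow_left₀ (by linarith) (by linarith) K
    have hX8 : (0 : ℝ) ≤ (X : ℝ) ^ (8 / 9 : ℝ) := by positivity
    calc (∑ q ∈ QQ W ps R, wt κ q) * (20 * L * (X : ℝ) ^ (8 / 9 : ℝ)) ≤
        (2 ^ K * L ^ K) * (20 * L * (X : ℝ) ^ (8 / 9 : ℝ)) :=
          mul_le_mul_of_nonneg_right (h1.trans h2) (by positivity)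
      _ = (2 ^ K * 20) * (L ^ (K + 1) * (X : ℝ) ^ (8 / 9 : ℝ)) := by rw [pow_succ]; ring
      _ ≤ L * (L ^ (K + 1) * (X : ℝ) ^ (8 / 9 : ℝ)) :=
          mul_le_mul_of_nonneg_right p1 (by positivity)
      _ = L ^ (K + 2) * (X : ℝ) ^ (8 / 9 : ℝ) := by ring
      _ ≤ (X : ℝ) ^ (6 / 100 : ℝ) * (X : ℝ) ^ (8 / 9 : ℝ) := mul_le_mul_of_nonneg_right p2 hX8
      _ = (X : ℝ) ^ (6 / 100 + 8 / 9 : ℝ) := by rw [Real.rpow_add hXpos]
      _ ≤ _ := Real.rpow_le_rpow_of_exponent_le (by linarith) (by norm_num)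

end Pool.Agent.Q117.LF
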