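import Pool.Agent.Q117.LF.Stm

/-! JOB BVPG of project LF: the weighted primes modulo `M q` on average over `q`. -/

set_option autoImplicit false

namespace Pool.Agent.Q117.LF

open Finset Filter
open Pool.Agent.Q117.CR
open Pool.Agent.Q153.CR (pow_omega_le_tau)
open Pool.Agent.H378R2.LSBV (QQ wt)
open Pool.Agent.H398R2.BV (Prim two_pow_omega_le pow_omega_le)

theorem bvpg : St_BVPG := by
  classical
  have hTR : St_TRAP := Pool.Agent.Q153.CR.trap Pool.Agent.Q117.CR.tz0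
  intro κ δ hκ hδ hδ1
  obtain ⟨X1, hX1⟩ := hTR δ hδ hδ1
  obtain ⟨C, hC, hCo⟩ := pow_omega_le (κ : ℝ) (by exact_mod_cast hκ) (1 / 20000) (by norm_num)
  -- large X
  have ev : ∀ᶠ x : ℝ in atTop, C ≤ x ^ (1 / 10000 : ℝ) ∧ 1 / δ ≤ Real.log x ∧ 4 ≤ Real.log x :=
    ((tendsto_rpow_atTop (show (0 : ℝ) < 1 / 10000 by norm_num)).eventually_ge_atTop C).and
      ((Real.tendsto_log_atTop.eventually_ge_atTop _).and
        (Real.tendsto_log_atTop.eventually_ge_atTop _))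
  obtain ⟨x0, hx0⟩ := eventually_atTop.mp ev
  refine ⟨max (max X1 ⌈x0⌉₊) 1, fun X hX A B hA hAB hBX W ps hWpos hWle r hr => ?_⟩
  have hXX1 : X1 ≤ X := (le_max_left _ _).trans ((le_max_left _ _).trans hX)
  have hXx0 : x0 ≤ (X : ℝ) := (Nat.le_ceil x0).trans
    (by exact_mod_cast (le_max_right _ _).trans ((le_max_left _ _).trans hX))
  have hX1' : (1 : ℝ) ≤ X := by exact_mod_cast (le_max_right _ _).trans hX
  obtain ⟨hCX, hδX, hL4⟩ := hx0 X hXx0
  have hX0 : (0 : ℝ) < X := by linarith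
  set R := RX X with hR
  have hRle : (R : ℝ) ≤ (X : ℝ) ^ (4995 / 10000 : ℝ) :=
    Nat.floor_le (Real.rpow_nonneg hX0.le _)
  set φW : ℝ := (Nat.totient W : ℝ) with hφW
  have hφ1 : 1 ≤ φW := by
    rw [hφW]
    exact_mod_cast Nat.totient_pos.mpr (by omega)
  have hφ0 : 0 < φW := by linarith
  have hφW' : φW ≤ (X : ℝ) ^ (1 / 40000 : ℝ) := by
    refine le_trans ?_ hWle
    rw [hφW]
    exact_mod_cast Nat.totient_le W
  -- one modulus
  have hone : ∀ q ∈ QQ W ps R, |PT δ A B (W * q) (r q) - PT1 δ A B / (Nat.totient (W * q) : ℝ)| ≤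
      (1 / δ) * ((1 / (Nat.totient (W * q) : ℝ)) *
        ∑ f ∈ (W * q).divisors.filter (fun f => f ≠ 1), TP δ A B f) +
        (X : ℝ) ^ (5001 / 10000 : ℝ) := by
    intro q hq
    rw [Pool.Agent.H378R2.LSBV.mem_QQ] at hq
    have hm1 : 1 ≤ W * q := Nat.mul_pos hWpos hq.1.1
    have hmX : W * q ≤ X := by
      have h1 : ((W * q : ℕ) : ℝ) ≤ (X : ℝ) := by
        push_cast
        have hqR : (q : ℝ) ≤ (X : ℝ) ^ (4995 / 10000 : ℝ) :=
          le_trans (by exact_mod_cast hq.1.2) hRle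
        calc (W : ℝ) * q ≤ (X : ℝ) ^ (1 / 40000 : ℝ) * (X : ℝ) ^ (4995 / 10000 : ℝ) :=
              mul_le_mul hWle hqR (Nat.cast_nonneg _) (Real.rpow_nonneg hX0.le _)
          _ = (X : ℝ) ^ (1 / 40000 + 4995 / 10000 : ℝ) := (Real.rpow_add hX0 _ _).symm
          _ ≤ (X : ℝ) ^ (1 : ℝ) := Real.rpow_le_rpow_of_exponent_le hX1' (by norm_num)
          _ = X := Real.rpow_one _
      exact_mod_cast h1
    exact hX1 X hXX1 A B hA hAB hBX (W * q) (r q) hm1 hmX (hr q hq.1.1)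
  have hκ0 : (0 : ℝ) ≤ κ := Nat.cast_nonneg κ
  have hδi : 0 ≤ 1 / δ := by positivity
  -- splitting
  have hsplit : ∑ q ∈ QQ W ps R, (κ : ℝ) ^ q.primeFactors.card *
      |PT δ A B (W * q) (r q) - PT1 δ A B / (Nat.totient (W * q) : ℝ)| ≤
      (1 / δ) * ∑ q ∈ QQ W ps R, (q.divisors.card : ℝ) ^ κ * ((1 / (Nat.totient (W * q) : ℝ)) *
        ∑ f ∈ (W * q).divisors.filter (fun f => f ≠ 1), TP δ A B f) +
      ∑ q ∈ QQ W ps R, (κ : ℝ) ^ q.primeFactors.card * (X : ℝ) ^ (5001 / 10000 : ℝ) := by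
    rw [Finset.mul_sum, ← Finset.sum_add_distrib]
    refine Finset.sum_le_sum fun q hq => ?_
    have hq' := (Pool.Agent.H378R2.LSBV.mem_QQ).mp hq
    have h1 := mul_le_mul_of_nonneg_left (hone q hq)
      (show (0 : ℝ) ≤ (κ : ℝ) ^ q.primeFactors.card by positivity)
    have h2 := pow_omega_le_tau κ hq'.1.1
    have h3 : 0 ≤ (1 / δ) * ((1 / (Nat.totient (W * q) : ℝ)) *
        ∑ f ∈ (W * q).divisors.filter (fun f => f ≠ 1), TP δ A B f) :=
      mul_nonneg hδi (mul_nonneg (by positivity) (Finset.sum_nonneg fun f _ => TP_nonneg _ _ _ _))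
    have h4 := mul_le_mul_of_nonneg_right h2 h3
    calc _ ≤ _ := h1
      _ = (κ : ℝ) ^ q.primeFactors.card * ((1 / δ) * ((1 / (Nat.totient (W * q) : ℝ)) *
        ∑ f ∈ (W * q).divisors.filter (fun f => f ≠ 1), TP δ A B f)) +
          (κ : ℝ) ^ q.primeFactors.card * (X : ℝ) ^ (5001 / 10000 : ℝ) := by ring
      _ ≤ (q.divisors.card : ℝ) ^ κ * ((1 / δ) * ((1 / (Nat.totient (W * q) : ℝ)) *
        ∑ f ∈ (W * q).divisors.filter (fun f => f ≠ 1), TP δ A B f)) +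
          (κ : ℝ) ^ q.primeFactors.card * (X : ℝ) ^ (5001 / 10000 : ℝ) := by linarith
      _ = _ := by ring
  -- the main term
  have hPS : 0 ≤ PSW κ W ps R (TP δ A B) := by
    unfold PSW
    exact Finset.sum_nonneg fun p _ => mul_nonneg (Pool.Agent.H378R2.LSBV.wt_nonneg _ _)
      (TP_nonneg _ _ _ _)
  have hsw := Pool.Agent.H378R2.LSBV.main_swap κ (TP δ A B) (TP_nonneg δ A B) W ps R hWpos
  have hL1 : (1 : ℝ) ≤ Real.log X := by linarith
  have hlogR : 1 + Real.log R ≤ Real.log X := by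
    rcases Nat.eq_zero_or_pos R with h0 | h0
    · rw [h0]
      simp
      linarith
    · have h1 : Real.log R ≤ Real.log ((X : ℝ) ^ (4995 / 10000 : ℝ)) :=
        Real.log_le_log (by exact_mod_cast h0) hRle
      rw [Real.log_rpow hX0] at h1
      linarith
  have hlogR0 : 0 ≤ 1 + Real.log R := by
    have := Real.log_natCast_nonneg R
    linarith
  have hwt : ∑ e ∈ Icc 1 R, wt κ e ≤ Real.log X ^ (2 ^ (κ + 1)) :=
    (Pool.Agent.H378R2.LSBV.sum_wt κ R).trans (pow_le_pow_left₀ hlogR0 hlogR _)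
  have hmain : (1 / δ) * ∑ q ∈ QQ W ps R, (q.divisors.card : ℝ) ^ κ *
      ((1 / (Nat.totient (W * q) : ℝ)) *
        ∑ f ∈ (W * q).divisors.filter (fun f => f ≠ 1), TP δ A B f) ≤
      (1 / φW) * (Real.log X ^ (2 ^ (κ + 2)) * PSW κ W ps R (TP δ A B)) := by
    have h1 : (1 / δ) * ∑ q ∈ QQ W ps R, (q.divisors.card : ℝ) ^ κ *
      ((1 / (Nat.totient (W * q) : ℝ)) *
        ∑ f ∈ (W * q).divisors.filter (fun f => f ≠ 1), TP δ A B f) ≤
        Real.log X * ((1 / φW) * (Real.log X ^ (2 ^ (κ + 1)) * PSW κ W ps R (TP δ A B))) := by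
      refine mul_le_mul hδX (hsw.trans ?_) ?_ (by linarith)
      · refine mul_le_mul_of_nonneg_left ?_ (by positivity)
        exact mul_le_mul_of_nonneg_right hwt hPS
      · refine Finset.sum_nonneg fun q _ => ?_
        exact mul_nonneg (by positivity) (mul_nonneg (by positivity)
          (Finset.sum_nonneg fun f _ => TP_nonneg _ _ _ _))
    refine h1.trans ?_
    have h2 : Real.log X * ((1 / φW) * (Real.log X ^ (2 ^ (κ + 1)) * PSW κ W ps R (TP δ A B))) =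
        (1 / φW) * (Real.log X ^ (2 ^ (κ + 1) + 1) * PSW κ W ps R (TP δ A B)) := by
      rw [pow_succ]; ring
    rw [h2]
    refine mul_le_mul_of_nonneg_left ?_ (by positivity)
    refine mul_le_mul_of_nonneg_right ?_ hPS
    refine pow_le_pow_right₀ hL1 ?_
    have h3 : 1 ≤ 2 ^ (κ + 1) := Nat.one_le_two_pow
    have h4 : 2 ^ (κ + 2) = 2 * 2 ^ (κ + 1) := by rw [pow_succ 2 (κ + 1)]; ring
    omega
  -- the error term
  have herr : ∑ q ∈ QQ W ps R, (κ : ℝ) ^ q.primeFactors.card * (X : ℝ) ^ (5001 / 10000 : ℝ) ≤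
      (1 / φW) * (X : ℝ) ^ (9998 / 10000 : ℝ) := by
    have h1 : ∑ q ∈ QQ W ps R, (κ : ℝ) ^ q.primeFactors.card * (X : ℝ) ^ (5001 / 10000 : ℝ) ≤
        ∑ _q ∈ QQ W ps R, ((X : ℝ) ^ (1 / 10000 : ℝ) * (X : ℝ) ^ (1 / 20000 : ℝ)) *
          (X : ℝ) ^ (5001 / 10000 : ℝ) := by
      refine Finset.sum_le_sum fun q hq => ?_
      refine mul_le_mul_of_nonneg_right ?_ (Real.rpow_nonneg hX0.le _)
      have hq' := (Pool.Agent.H378R2.LSBV.mem_QQ).mp hq
      have hqR : (q : ℝ) ≤ (X : ℝ) ^ (4995 / 10000 : ℝ) :=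
        le_trans (by exact_mod_cast hq'.1.2) hRle
      have hqX : (q : ℝ) ≤ X := hqR.trans (by
        calc (X : ℝ) ^ (4995 / 10000 : ℝ) ≤ (X : ℝ) ^ (1 : ℝ) :=
              Real.rpow_le_rpow_of_exponent_le hX1' (by norm_num)
          _ = X := Real.rpow_one _)
      refine (hCo q hq'.1.1).trans ?_
      exact mul_le_mul hCX (Real.rpow_le_rpow (Nat.cast_nonneg _) hqX (by norm_num))
        (Real.rpow_nonneg (Nat.cast_nonneg _) _) (Real.rpow_nonneg hX0.le _)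
    refine h1.trans ?_
    rw [Finset.sum_const, nsmul_eq_mul]
    have hcard : ((QQ W ps R).card : ℝ) ≤ (X : ℝ) ^ (4995 / 10000 : ℝ) := by
      refine le_trans ?_ hRle
      have : (QQ W ps R).card ≤ R := by
        refine (Finset.card_filter_le _ _).trans ?_
        rw [Nat.card_Icc]
        omega
      exact_mod_cast this
    have h2 : ((QQ W ps R).card : ℝ) * (((X : ℝ) ^ (1 / 10000 : ℝ) * (X : ℝ) ^ (1 / 20000 : ℝ)) *
          (X : ℝ) ^ (5001 / 10000 : ℝ)) ≤ (X : ℝ) ^ (4995 / 10000 : ℝ) *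
          (((X : ℝ) ^ (1 / 10000 : ℝ) * (X : ℝ) ^ (1 / 20000 : ℝ)) *
          (X : ℝ) ^ (5001 / 10000 : ℝ)) :=
      mul_le_mul_of_nonneg_right hcard (by positivity)
    refine h2.trans ?_
    rw [← Real.rpow_add hX0, ← Real.rpow_add hX0, ← Real.rpow_add hX0, one_div φW,
      inv_mul_eq_div, le_div_iff₀ hφ0]
    calc (X : ℝ) ^ (4995 / 10000 + (1 / 10000 + 1 / 20000 + 5001 / 10000) : ℝ) * φW
        ≤ (X : ℝ) ^ (4995 / 10000 + (1 / 10000 + 1 / 20000 + 5001 / 10000) : ℝ) *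
          (X : ℝ) ^ (1 / 40000 : ℝ) :=
          mul_le_mul_of_nonneg_left hφW' (Real.rpow_nonneg hX0.le _)
      _ = (X : ℝ) ^ (4995 / 10000 + (1 / 10000 + 1 / 20000 + 5001 / 10000) + 1 / 40000 : ℝ) :=
          (Real.rpow_add hX0 _ _).symm
      _ ≤ _ := Real.rpow_le_rpow_of_exponent_le hX1' (by norm_num)
  calc _ ≤ _ := hsplit
    _ ≤ (1 / φW) * (Real.log X ^ (2 ^ (κ + 2)) * PSW κ W ps R (TP δ A B)) +
        (1 / φW) * (X : ℝ) ^ (9998 / 10000 : ℝ) := add_le_add hmain herr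
    _ = _ := by ring

end Pool.Agent.Q117.LF
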