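import Pool.Agent.Q117.LF.Stm

/-!
# Project LF, job BVRG: the random modulus
-/

set_option autoImplicit false

namespace Pool.Agent.Q117.LF

open Finset Filter
open Pool.Agent.H378R2 (GoodS GoodP WW psiPhi yy z2)
open Pool.Agent.H378R2.LSBV (QQ wt wt_nonneg)
open Pool.Agent.H398R2.BV (Prim)
open Pool.Agent.H410R2 (psiLog)
open Pool.Agent.Q117.CR

namespace BVRG

theorem Tg_dvd {g₁ g : ℕ} (hg : g ≠ 0) (hd : g₁ ∣ g) {T : ℕ → ℝ} (hT : ∀ f, 0 ≤ T f) (f : ℕ) :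
    Tg g₁ T f ≤ Tg g T f :=
  sum_le_sum_of_subset_of_nonneg (Nat.divisors_subset_of_dvd hg hd) fun _ _ _ => hT _

theorem Tg_mono {g : ℕ} {T T' : ℕ → ℝ} (h : ∀ f, T f ≤ T' f) (f : ℕ) : Tg g T f ≤ Tg g T' f :=
  sum_le_sum fun _ _ => h _

theorem PSW_mono {κ W ps R : ℕ} {T T' : ℕ → ℝ} (h : ∀ f, T f ≤ T' f) :
    PSW κ W ps R T ≤ PSW κ W ps R T' :=
  sum_le_sum fun _ _ => mul_le_mul_of_nonneg_left (h _) (wt_nonneg _ _)

theorem LSat_Tg {C : ℕ} {ι : Type} {κ g : ℕ} {δ : ℝ} {X A B : ℕ} {I : Finset ι} {b : ι → Blk}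
    (hL : 5 ≤ Real.log X) (hI : (I.card : ℝ) ≤ Real.log X ^ 2)
    (h1 : LSat C X (Tg g (TT1 A))) (h2 : LSat C X (Tg g (TT1 (A * Real.exp δ))))
    (h3 : LSat C X (Tg g (TT1 (B * Real.exp (-δ))))) (h4 : LSat C X (Tg g (TT1 B)))
    (h5 : ∀ i ∈ I, LSat C X (Tg g ((b i).F κ (RX X)))) :
    LSat (C + 3) X (Tg g (TF κ δ X A B I b)) := by
  intro F hF
  have hX0 : (0 : ℝ) ≤ X := Nat.cast_nonneg _
  have hL0 : 1 ≤ Real.log X := by linarith
  obtain ⟨M, hM⟩ : ∃ M : ℝ, M = ((X : ℝ) + (X : ℝ) ^ (9999 / 10000 : ℝ) * F) * Real.log X ^ C := ⟨_, rfl⟩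
  have hM0 : 0 ≤ M := by rw [hM]; positivity
  have g1 := h1 F hF
  have g2 := h2 F hF
  have g3 := h3 F hF
  have g4 := h4 F hF
  have g5 : ∀ i ∈ I, ∑ f ∈ Icc 2 F, Tg g ((b i).F κ (RX X)) f ≤ M := by
    intro i hi
    rw [hM]
    exact h5 i hi F hF
  rw [← hM] at g1 g2 g3 g4
  have e0 : ∀ f, Tg g (TF κ δ X A B I b) f = Tg g (TT1 A) f + Tg g (TT1 (A * Real.exp δ)) f +
      Tg g (TT1 (B * Real.exp (-δ))) f + Tg g (TT1 B) f + ∑ i ∈ I, Tg g ((b i).F κ (RX X)) f := by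
    intro f
    unfold Tg TF TP
    simp only [sum_add_distrib]
    rw [sum_comm]
  have e1 : ∑ f ∈ Icc 2 F, Tg g (TF κ δ X A B I b) f ≤ (4 + (I.card : ℝ)) * M := by
    simp only [e0, sum_add_distrib]
    rw [sum_comm]
    have := sum_le_sum g5
    rw [sum_const, nsmul_eq_mul] at this
    linarith
  refine e1.trans ?_
  have e2 : (4 + (I.card : ℝ)) ≤ Real.log X ^ 3 := by nlinarith [sq_nonneg (Real.log X)]
  calc (4 + (I.card : ℝ)) * M ≤ Real.log X ^ 3 * M := mul_le_mul_of_nonneg_right e2 hM0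
    _ = _ := by rw [hM]; ring

theorem TT1_leG {g : ℕ} {X : ℝ} {ps e f : ℕ} (hg : 1 ≤ g) (hS : SCG g X ps) (he : e ∣ g)
    (hf1 : Squarefree f) (hf2 : 1 < e * f)
    (hf3 : (f : ℝ) ≤ Real.exp (ll X ^ 6)) (hf4 : f.Coprime ps) {x : ℝ} (hx0 : 0 ≤ x)
    (hx1 : X ^ (1 / 18 : ℝ) ≤ x) (hx2 : x ≤ 3 * X) :
    TT1 x (e * f) ≤ (g * Real.exp (ll X ^ 6)) * (x * Real.exp (-(ll X) ^ 7 / 2)) := by
  unfold TT1
  have h1 : ∀ ψ ∈ Prim (e * f), ‖psiLog x (e * f) ψ‖ ≤ x * Real.exp (-(ll X) ^ 7 / 2) := by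
    intro ψ hψ
    have hψ' : ψ.IsPrimitive := by
      classical
      simpa [Prim] using hψ
    exact (hS e f he hf1 hf2 hf3 hf4 ψ hψ').1 x hx1 hx2
  refine (sum_le_sum h1).trans ?_
  rw [sum_const, nsmul_eq_mul]
  apply mul_le_mul_of_nonneg_right _ (by positivity)
  refine le_trans (b := (e : ℝ) * f) ?_ ?_
  · have h2 : (Nat.totient (e * f) : ℝ) ≤ (e : ℝ) * f := by exact_mod_cast Nat.totient_le _
    exact (Pool.Agent.H398R2.BV.card_prim_le (by omega)).trans h2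
  · have he' : (e : ℝ) ≤ g := by exact_mod_cast Nat.le_of_dvd hg he
    gcongr

theorem TF_small {ι : Type} {κ g : ℕ} {δ : ℝ} {X A B ps : ℕ} {I : Finset ι} {b : ι → Blk} (hg : 1 ≤ g)
    (hδ : 0 < δ) (hl : 10 ≤ ll X) (hgl : (g : ℝ) ≤ Real.log X) (hX : 0 < X)
    (hA : (X : ℝ) ^ (1 / 18 : ℝ) ≤ A)
    (hAB : (A : ℝ) * Real.exp (2 * δ) ≤ B) (hB : B ≤ X) (hI : (I.card : ℝ) ≤ Real.log X ^ 2)
    (hS : SCG g X ps) {e f : ℕ} (he : e ∣ g) (hf1 : Squarefree f) (hf2 : 1 < e * f)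
    (hf3 : (f : ℝ) ≤ Real.exp (ll X ^ 6)) (hf4 : f.Coprime ps)
    (h5 : ∀ i ∈ I, (b i).F κ (RX X) (e * f) ≤ X * Real.exp (-(ll X) ^ 7 / 12)) :
    TF κ δ X A B I b (e * f) ≤ X * Real.exp (-(ll X) ^ 7 / 16) / g := by
  have hX0 : (0 : ℝ) < X := by exact_mod_cast hX
  have hg0 : (0 : ℝ) < g := by exact_mod_cast hg
  obtain ⟨⟨a1, a2⟩, ⟨b1, b2⟩, ⟨c1, c2⟩, d1, d2⟩ := pts hδ hA hAB hB
  have g1 := TT1_leG hg hS he hf1 hf2 hf3 hf4 (Nat.cast_nonneg _) a1 a2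
  have g2 := TT1_leG hg hS he hf1 hf2 hf3 hf4 (by positivity) b1 b2
  have g3 := TT1_leG hg hS he hf1 hf2 hf3 hf4 (by positivity) c1 c2
  have g4 := TT1_leG hg hS he hf1 hf2 hf3 hf4 (Nat.cast_nonneg _) d1 d2
  have hL0 : 0 < Real.log X := lt_of_lt_of_le hg0 hgl
  have hLe : Real.log X = Real.exp (ll X) := by
    unfold ll
    rw [Real.exp_log hL0]
  obtain ⟨l, hl'⟩ : ∃ l, l = ll (X : ℝ) := ⟨_, rfl⟩
  rw [← hl'] at hl h5 g1 g2 g3 g4 hLe ⊢
  rw [hLe] at hgl hI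
  have key : ∀ x : ℝ, 0 ≤ x → x ≤ 3 * X → (g * Real.exp (l ^ 6)) * (x * Real.exp (-l ^ 7 / 2)) ≤
      3 * X * Real.exp (l + l ^ 6 + (-l ^ 7 / 2)) := by
    intro x hx0 hx
    have hx1 : 0 ≤ x * Real.exp (-l ^ 7 / 2) := by positivity
    rw [Real.exp_add, Real.exp_add]
    calc (g * Real.exp (l ^ 6)) * (x * Real.exp (-l ^ 7 / 2)) ≤
          (Real.exp l * Real.exp (l ^ 6)) * (3 * X * Real.exp (-l ^ 7 / 2)) := by gcongr
      _ = _ := by ring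
  have k1 := key _ (Nat.cast_nonneg _) a2
  have k2 := key _ (by positivity) b2
  have k3 := key _ (by positivity) c2
  have k4 := key _ (Nat.cast_nonneg _) d2
  have e1 : ∑ i ∈ I, (b i).F κ (RX X) (e * f) ≤ Real.exp l ^ 2 * (X * Real.exp (-l ^ 7 / 12)) := by
    refine (sum_le_sum fun i hi => h5 i hi).trans ?_
    rw [sum_const, nsmul_eq_mul]
    exact mul_le_mul_of_nonneg_right hI (by positivity)
  have e2 : Real.exp l ^ 2 * (X * Real.exp (-l ^ 7 / 12)) = X * Real.exp (2 * l + (-l ^ 7 / 12)) := by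
    rw [Real.exp_add, two_mul, Real.exp_add]
    ring
  have hl6 : (1000000 : ℝ) ≤ l ^ 6 := by
    calc (1000000 : ℝ) = 10 ^ 6 := by norm_num
      _ ≤ l ^ 6 := by gcongr
  have hl7 : l ^ 7 = l * l ^ 6 := by ring
  have hl76 : 10 * l ^ 6 ≤ l ^ 7 := by rw [hl7]; gcongr
  have hl71 : 1000000 * l ≤ l ^ 7 := by
    rw [hl7, mul_comm l]
    gcongr
  have m1 : (12 : ℝ) * Real.exp (l + l ^ 6 + (-l ^ 7 / 2)) ≤ 1 / 2 * (Real.exp (-l ^ 7 / 16) * Real.exp (-l)) := by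
    rw [← Real.exp_add]
    have h1 : Real.exp (l + l ^ 6 + (-l ^ 7 / 2)) ≤ Real.exp (-4) * Real.exp (-l ^ 7 / 16 + -l) := by
      rw [← Real.exp_add]
      apply Real.exp_le_exp.2
      linarith
    have h2 : Real.exp (-4) ≤ 1 / 24 := by
      rw [Real.exp_neg, inv_le_comm₀ (Real.exp_pos _) (by norm_num)]
      have h3 : Real.exp 4 = (Real.exp 1) ^ 4 := by
        rw [← Real.exp_nat_mul]
        norm_num
      rw [h3]
      have h4 := Real.exp_one_gt_d9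
      have h5 : (2.7 : ℝ) ^ 4 ≤ (Real.exp 1) ^ 4 := by
        apply pow_le_pow_left₀ (by norm_num)
        linarith
      norm_num at h5 ⊢
      linarith
    have h3 : 0 < Real.exp (-l ^ 7 / 16 + -l) := Real.exp_pos _
    nlinarith
  have m2 : Real.exp (2 * l + (-l ^ 7 / 12)) ≤ 1 / 2 * (Real.exp (-l ^ 7 / 16) * Real.exp (-l)) := by
    rw [← Real.exp_add]
    have h1 : Real.exp (2 * l + (-l ^ 7 / 12)) ≤ Real.exp (-1) * Real.exp (-l ^ 7 / 16 + -l) := by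
      rw [← Real.exp_add]
      apply Real.exp_le_exp.2
      linarith
    have h2 : Real.exp (-1) ≤ 1 / 2 := by
      rw [Real.exp_neg, inv_le_comm₀ (Real.exp_pos _) (by norm_num)]
      have h4 := Real.exp_one_gt_d9
      norm_num
      linarith
    have h3 : 0 < Real.exp (-l ^ 7 / 16 + -l) := Real.exp_pos _
    nlinarith
  have hgi : Real.exp (-l) ≤ 1 / g := by
    rw [Real.exp_neg, ← one_div]
    exact one_div_le_one_div_of_le hg0 hgl
  have m3 : Real.exp (-l ^ 7 / 16) * Real.exp (-l) ≤ Real.exp (-l ^ 7 / 16) * (1 / g) :=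
    mul_le_mul_of_nonneg_left hgi (Real.exp_pos _).le
  have n1 : 12 * X * Real.exp (l + l ^ 6 + (-l ^ 7 / 2)) ≤ X * (1 / 2 * (Real.exp (-l ^ 7 / 16) * (1 / g))) := by
    calc 12 * (X : ℝ) * Real.exp (l + l ^ 6 + (-l ^ 7 / 2)) = X * (12 * Real.exp (l + l ^ 6 + (-l ^ 7 / 2))) := by ring
      _ ≤ _ := mul_le_mul_of_nonneg_left (by linarith) hX0.le
  have n2 : (X : ℝ) * Real.exp (2 * l + (-l ^ 7 / 12)) ≤ X * (1 / 2 * (Real.exp (-l ^ 7 / 16) * (1 / g))) :=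
    mul_le_mul_of_nonneg_left (by linarith) hX0.le
  unfold TF TP
  rw [e2] at e1
  have : (X : ℝ) * Real.exp (-l ^ 7 / 16) / g = X * (1 / 2 * (Real.exp (-l ^ 7 / 16) * (1 / g))) +
      X * (1 / 2 * (Real.exp (-l ^ 7 / 16) * (1 / g))) := by
    field_simp
    ring
  linarith

theorem ev_exp (U : ℕ) : ∀ l : ℝ, 10 ≤ l → (16 * U : ℝ) ≤ l → Real.exp (-l ^ 7 / 16) ≤ 1 / Real.exp l ^ U := by
  intro l hl hU
  rw [← Real.exp_nat_mul, one_div, ← Real.exp_neg]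
  apply Real.exp_le_exp.2
  have h1 : l ≤ l ^ 6 := by
    calc l = l ^ 1 := (pow_one l).symm
      _ ≤ l ^ 6 := pow_le_pow_right₀ (by linarith) (by norm_num)
  have h2 : (16 * U : ℝ) * l ≤ l ^ 6 * l := by
    apply mul_le_mul_of_nonneg_right _ (by linarith)
    linarith
  nlinarith

end BVRG

open BVRG

theorem bvrg : St_BVRG := by
  intro hpsg hbvpg hbvbg hscpg hbscg hlsg κ U Z α γ hκ hα hγ hZ
  classical
  obtain ⟨g, hgdef⟩ : ∃ g, g = α * γ := ⟨_, rfl⟩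
  have hg : 1 ≤ g := by
    rw [hgdef]
    exact Nat.mul_pos hα hγ
  have hg0 : (0 : ℝ) < g := by exact_mod_cast hg
  rw [← hgdef] at hZ
  obtain ⟨Xp, hXp⟩ := hscpg Z g hg hZ
  have hex : ∀ X : ℕ, ∃ ps : ℕ, Xp ≤ X → GoodP Z ps ∧ (ps : ℝ) ≤ Real.exp (ll X ^ 6) ∧ SCG g X ps := by
    intro X
    by_cases h : Xp ≤ X
    · obtain ⟨ps, hps⟩ := hXp X h
      exact ⟨ps, fun _ => hps⟩
    · exact ⟨0, fun h' => absurd h' h⟩
  choose PP hPP using hex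
  obtain ⟨C, Xa, hXa⟩ := hlsg g κ hg
  obtain ⟨Xc, hXc⟩ := hbscg κ g hg
  obtain ⟨K, hK⟩ : ∃ K : ℕ, K = 2 ^ (κ + 2) := ⟨_, rfl⟩
  obtain ⟨U', hU'⟩ : ∃ U' : ℕ, U' = U + K + 2 := ⟨_, rfl⟩
  obtain ⟨Xd, hXd⟩ := rel κ (C + 3) U' Z
  obtain ⟨Xe, hXe⟩ := hbvbg κ hκ
  obtain ⟨Xf, hXf⟩ := ev_pow_log (9998 / 10000) (by norm_num) U
  obtain ⟨Xg, hXg⟩ := ev_pow_log (95 / 100) (by norm_num) U
  obtain ⟨Xk, hXk⟩ := ev_cond 1 Z 0 0 le_rfl 1 one_pos 0
  have hll : Tendsto (fun X : ℕ => ll X) atTop atTop :=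
    (Real.tendsto_log_atTop.comp Real.tendsto_log_atTop).comp tendsto_natCast_atTop_atTop
  obtain ⟨Xh, hXh⟩ := eventually_atTop.1 (hll.eventually (eventually_ge_atTop (max 10 (16 * U' : ℝ))))
  obtain ⟨Xi, hXi⟩ := eventually_atTop.1
    ((Real.tendsto_log_atTop.comp (tendsto_natCast_atTop_atTop (R := ℝ))).eventually
      (eventually_ge_atTop (max 5 (g : ℝ))))
  obtain ⟨Xl, hXl⟩ := eventually_atTop.1
    (((tendsto_rpow_atTop (show (0 : ℝ) < 1 / 200000 by norm_num)).comp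
      (tendsto_natCast_atTop_atTop (R := ℝ))).eventually (eventually_ge_atTop (g : ℝ)))
  refine ⟨⌈Xp⌉₊, PP, fun X hX => ?_, fun δ hδ hδ1 => ?_⟩
  · have := hPP X (Nat.ceil_le.1 hX)
    exact ⟨this.1, this.2.1⟩
  obtain ⟨Xj, hXj⟩ := hbvpg κ δ hκ hδ hδ1
  refine ⟨max (max (max (max ⌈Xp⌉₊ Xa) (max Xc Xk)) (max (max ⌈Xd⌉₊ Xe) (max Xf Xg)))
    (max (max Xh Xi) (max Xj (max Xl 1))), ?_⟩
  intro X hX A B hA hAB hB ι I b hI hb
  simp only [max_le_iff] at hX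
  obtain ⟨⟨⟨⟨h1, h2⟩, h3, h4⟩, ⟨h5, h6⟩, h7, h8⟩, ⟨h9, h10⟩, h11, h12, h13⟩ := hX
  have hX0 : (0 : ℝ) < X := by exact_mod_cast h13
  have hX1 : (1 : ℝ) ≤ X := by exact_mod_cast h13
  obtain ⟨p1, p2, p3⟩ := hPP X (Nat.ceil_le.1 h1)
  obtain ⟨hl, hlU⟩ := max_le_iff.1 (hXh X h9)
  have hLL := hXi X h10
  simp only [Function.comp] at hLL
  obtain ⟨hL, hgl⟩ := max_le_iff.1 hLL
  have hgX := hXl X h12
  simp only [Function.comp] at hgX
  obtain ⟨-, -, hz1, hz2, -, hyL, -, -, -, -, -, -⟩ := hXk X h4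
  have hA18 : (X : ℝ) ^ (1 / 18 : ℝ) ≤ A :=
    (Real.rpow_le_rpow_of_exponent_le hX1 (by norm_num)).trans hA
  have hA1 : 1 ≤ A := by
    have : (0 : ℝ) < A := lt_of_lt_of_le (by positivity) hA
    exact_mod_cast this
  obtain ⟨⟨a1, a2⟩, ⟨b1, b2⟩, ⟨c1, c2⟩, d1, d2⟩ := pts hδ hA hAB hB
  obtain ⟨hXa1, hXa2⟩ := hXa X h2
  have hTF0 : ∀ f, 0 ≤ TF κ δ X A B I b f := TF_nonneg κ δ X A B I b
  have hLS : LSat (C + 3) X (Tg g (TF κ δ X A B I b)) := by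
    refine LSat_Tg hL hI (hXa1 _ a1 a2) (hXa1 _ b1 b2) (hXa1 _ c1 c2) (hXa1 _ d1 d2)
      fun i hi => ?_
    have := (hb i hi).2
    rw [← hgdef] at this
    exact hXa2 _ _ _ _ this
  -- the small conductors
  have hsm : ∀ e f : ℕ, e ∣ g → Squarefree f → 1 < e * f → (f : ℝ) ≤ Real.exp (ll X ^ 6) → f.Coprime (PP X) →
      TF κ δ X A B I b (e * f) ≤ X * Real.exp (-(ll X) ^ 7 / 16) / g := by
    intro e f he hf1 hf2 hf3 hf4
    refine TF_small hg hδ hl hgl h13 hA18 hAB hB hI p3 he hf1 hf2 hf3 hf4 fun i hi => ?_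
    refine hXc X h3 (e * f) hf2 ?_ ?_ _ _ _ _ (hb i hi).1
    · push_cast
      have he' : (e : ℝ) ≤ g := by exact_mod_cast Nat.le_of_dvd hg he
      gcongr
    · intro χ hχ u hu1 hu2
      exact (p3 e f he hf1 hf2 hf3 hf4 χ hχ).2 u hu1 hu2
  have hcard : (g.divisors.card : ℝ) ≤ g := by exact_mod_cast Nat.card_divisors_le_self g
  have hSC : SCat 16 X (PP X) (Tg g (TF κ δ X A B I b)) := by
    intro f hf1 hf2 hf3 hf4
    unfold Tg
    have h : ∀ e ∈ g.divisors, TF κ δ X A B I b (e * f) ≤ X * Real.exp (-(ll X) ^ 7 / 16) / g := by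
      intro e he
      have he' := Nat.dvd_of_mem_divisors he
      refine hsm e f he' hf1 ?_ hf3 hf4
      have : 1 ≤ e := Nat.pos_of_mem_divisors he
      nlinarith
    refine (sum_le_sum h).trans ?_
    rw [sum_const, nsmul_eq_mul, mul_div_assoc', div_le_iff₀ hg0, mul_comm]
    exact mul_le_mul_of_nonneg_left hcard (by positivity)
  -- the sum over the divisors `≠ 1`
  have hdiv : ∀ g₁ : ℕ, g₁ ∣ g → ∑ e ∈ g₁.divisors.filter (fun e => e ≠ 1), TF κ δ X A B I b e ≤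
      X * Real.exp (-(ll X) ^ 7 / 16) := by
    intro g₁ hg₁
    have h : ∀ e ∈ g₁.divisors.filter (fun e => e ≠ 1),
        TF κ δ X A B I b e ≤ X * Real.exp (-(ll X) ^ 7 / 16) / g := by
      intro e he
      rw [mem_filter] at he
      have he' := (Nat.dvd_of_mem_divisors he.1).trans hg₁
      have he0 := Nat.pos_of_mem_divisors he.1
      have := hsm e 1 he' squarefree_one (by omega) ?_ (Nat.coprime_one_left _)
      · rwa [mul_one] at this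
      · push_cast
        exact Real.one_le_exp (by positivity)
    refine (sum_le_sum h).trans ?_
    rw [sum_const, nsmul_eq_mul, mul_div_assoc', div_le_iff₀ hg0, mul_comm]
    apply mul_le_mul_of_nonneg_left _ (by positivity)
    refine le_trans ?_ hcard
    have : (g₁.divisors.filter (fun e => e ≠ 1)).card ≤ g.divisors.card :=
      card_le_card ((filter_subset _ _).trans (Nat.divisors_subset_of_dvd (by omega) hg₁))
    exact_mod_cast this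
  obtain ⟨S, hS1, hS2⟩ := hXd X (Nat.ceil_le.1 h5) (PP X) p1 _
    (fun f => sum_nonneg fun e _ => hTF0 (e * f)) hLS hSC
  obtain ⟨W, hW⟩ : ∃ W : ℕ, W = WX X S (PP X) := ⟨_, rfl⟩
  have hW1 : 1 ≤ W := by
    rw [hW]
    exact WX_pos _ _ _
  have hWle : (W : ℝ) ≤ (X : ℝ) ^ (1 / 50000 : ℝ) := by
    rw [hW]
    exact WX_le hX1 _ _
  have hPS : PSW κ W (PP X) (RX X) (Tg g (TF κ δ X A B I b)) ≤ X / Real.log X ^ U' := by
    rw [hW]
    exact hS2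
  have hqW : ∀ q : ℕ, q.Prime → q ∣ g → q ∣ W := by
    intro q hq hqg
    rw [hW]
    exact small_dvd hq ((Nat.le_of_dvd hg hqg).trans hZ) hS1 p1 hz1 hz2
  have hL0 : 0 < Real.log (X : ℝ) := by linarith
  have hLe : Real.exp (ll X) = Real.log X := by
    unfold ll
    rw [Real.exp_log hL0]
  have hsmall : X * Real.exp (-(ll X) ^ 7 / 16) ≤ X / Real.log X ^ U' := by
    have := ev_exp U' (ll X) hl hlU
    rw [hLe] at this
    rw [div_eq_mul_one_div (X : ℝ)]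
    exact mul_le_mul_of_nonneg_left this hX0.le
  have hMle : ∀ g₁ : ℕ, g₁ ∣ g → ((W * g₁ : ℕ) : ℝ) ≤ (X : ℝ) ^ (1 / 40000 : ℝ) := by
    intro g₁ hg₁
    have h : (g₁ : ℝ) ≤ g := by exact_mod_cast Nat.le_of_dvd hg hg₁
    push_cast
    calc (W : ℝ) * g₁ ≤ (X : ℝ) ^ (1 / 50000 : ℝ) * (X : ℝ) ^ (1 / 200000 : ℝ) := by
          gcongr
          exact h.trans hgX
      _ = (X : ℝ) ^ (1 / 40000 : ℝ) := by
          rw [← Real.rpow_add hX0]
          norm_num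
  -- the main estimate
  have hmain : ∀ g₁ : ℕ, g₁ ∣ g → ∀ T : ℕ → ℝ, (∀ f, 0 ≤ T f) → (∀ f, T f ≤ TF κ δ X A B I b f) →
      PSW κ (W * g₁) (PP X) (RX X) T ≤ 2 * (X / Real.log X ^ U') := by
    intro g₁ hg₁ T hT0 hT
    have hg₁0 : 1 ≤ g₁ := Nat.pos_of_dvd_of_pos hg₁ hg
    refine (hpsg κ g₁ W (PP X) (RX X) T hT0 hg₁0 hW1 fun q hq hqg => hqW q hq (hqg.trans hg₁)).trans ?_
    have e1 : PSW κ W (PP X) (RX X) (Tg g₁ T) ≤ PSW κ W (PP X) (RX X) (Tg g (TF κ δ X A B I b)) := by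
      apply PSW_mono
      intro f
      exact (Tg_mono hT f).trans (Tg_dvd (by omega) hg₁ hTF0 f)
    have e2 : ∑ e ∈ g₁.divisors.filter (fun e => e ≠ 1), T e ≤
        ∑ e ∈ g₁.divisors.filter (fun e => e ≠ 1), TF κ δ X A B I b e := sum_le_sum fun e _ => hT e
    have e3 := hdiv g₁ hg₁
    linarith
  have hαg : α ∣ g := ⟨γ, hgdef⟩
  have hγg : γ ∣ g := ⟨α, by rw [hgdef, mul_comm]⟩
  have hLU : 0 < Real.log X ^ U := by positivity
  have hL1 : (1 : ℝ) ≤ Real.log X := by linarith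
  have hfin : Real.log X ^ K * (2 * (X / Real.log X ^ U')) ≤ 1 / 2 * (X / Real.log X ^ U) := by
    have h0 : Real.log (X : ℝ) ≠ 0 := by linarith
    have e1 : Real.log X ^ K * (2 * (X / Real.log X ^ U')) = (X / Real.log X ^ U) * (2 / Real.log X ^ 2) := by
      rw [hU', pow_add, pow_add]
      field_simp
    rw [e1, mul_comm (1 / 2 : ℝ)]
    apply mul_le_mul_of_nonneg_left _ (by positivity)
    rw [div_le_iff₀ (by positivity)]
    nlinarith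
  have hfin2 : 2 * (X / Real.log X ^ U') ≤ 1 / 2 * (X / Real.log X ^ U) := by
    refine le_trans ?_ hfin
    apply le_mul_of_one_le_left (by positivity)
    exact one_le_pow₀ hL1
  refine ⟨S, hS1, ?_, ?_⟩
  · rw [← hW]
    intro r hr
    have hM1 : 1 ≤ W * γ := Nat.mul_pos hW1 hγ
    refine (hXj X h11 A B hA1 hAB hB (W * γ) (PP X) hM1 (hMle γ hγg) r hr).trans ?_
    rw [div_eq_mul_one_div (X / Real.log X ^ U), mul_comm (X / Real.log X ^ U)]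
    apply mul_le_mul_of_nonneg_left _ (by positivity)
    have g1 : Real.log X ^ (2 ^ (κ + 2)) * PSW κ (W * γ) (PP X) (RX X) (TP δ A B) ≤
        Real.log X ^ K * (2 * (X / Real.log X ^ U')) := by
      rw [← hK]
      apply mul_le_mul_of_nonneg_left _ (by positivity)
      exact hmain γ hγg _ (TP_nonneg δ A B) (TP_le_TF κ δ X A B I b)
    have g2 := hXf X h7
    linarith
  · rw [← hW]
    intro i hi r hr
    have hM1 : 1 ≤ W * α := Nat.mul_pos hW1 hα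
    have hpr : ∀ p : ℕ, p.Prime → p ∣ W * α → (p : ℝ) ≤ Real.log X := by
      intro p hp hpd
      have hpW : p ∣ W := by
        rcases (hp.dvd_mul).1 hpd with h | h
        · exact h
        · exact hqW p hp (h.trans hαg)
      rw [hW, prime_dvd_WX hp] at hpW
      refine le_trans ?_ hyL
      exact_mod_cast hpW.1
    refine (hXe X h6 _ _ _ _ (hb i hi).1 (W * α) (PP X) hM1 (hMle α hαg) hpr r hr).trans ?_
    rw [div_eq_mul_one_div (X / Real.log X ^ U), mul_comm (X / Real.log X ^ U)]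
    apply mul_le_mul_of_nonneg_left _ (by positivity)
    have g1 : PSW κ (W * α) (PP X) (RX X) (TB κ (RX X) (b i).M₀ (b i).M₁ (b i).Y (b i).T) ≤
        2 * (X / Real.log X ^ U') :=
      hmain α hαg _ (fun f => TB_nonneg _ _ _ _ _ _ _) fun f => TB_le_TF κ δ X A B I b f hi
    have g2 := hXg X h8
    linarith

end Pool.Agent.Q117.LF
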