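import Pool.Agent.Q117.LF.Stm

/-! (helper24) JOB BWL of project LF: the number of the bad primes. -/

set_option autoImplicit false

namespace Pool.Agent.Q117.LF

open Finset Filter Pool.Agent.W23.DC Pool.Agent.Y660.RP
open Pool.Agent.Y843.HS (Pr Pr_mem Pr_prime)
open Pool.Agent.Y843.CH hiding TB
open Pool.Agent.Y840.CI
open Pool.Agent.Q117.CR

lemma bwl_class_of_dvd {α p m : ℕ} {h : ℤ} (hm : 0 < m) (hc : α.Coprime m)
    (hd : m ∣ (h - (α : ℤ) * p).natAbs) : p ≡ hr (h * Nat.gcdA α m) m [MOD m] := by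
  have h1 : (m : ℤ) ∣ h - (α : ℤ) * p := Int.natCast_dvd.2 hd
  have h2 := Nat.gcd_eq_gcd_ab α m
  rw [hc] at h2
  push_cast at h2
  have h3 : (m : ℤ) ∣ h * Nat.gcdA α m - p := by
    have e : h * Nat.gcdA α m - p = (h - (α : ℤ) * p) * Nat.gcdA α m - m * (Nat.gcdB α m * p) := by
      linear_combination (-(p : ℤ)) * h2
    rw [e]
    exact dvd_sub (Dvd.dvd.mul_right h1 _) (dvd_mul_right _ _)
  have h4 : m ∣ (h * Nat.gcdA α m - p).natAbs := Int.natCast_dvd.1 h3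
  rw [natAbs_dvd_iff _ p _ hm] at h4
  unfold Nat.ModEq
  rw [h4, Nat.mod_mod]

theorem bwl : St_BWL := by
  intro α A B N X M a h hB hM hα1 hWN hα hN hN2
  set k := lo N (1 / 4) with hk
  have hcopα : ∀ q : ℕ, q.Prime → k < q → α.Coprime (q ^ 2) := by
    intro q hq hkq
    apply Nat.Coprime.pow_right
    apply Nat.Coprime.symm
    rw [hq.coprime_iff_not_dvd]
    intro hd
    have := hWN q hq (hα q hq hd)
    omega
  have hsub : BWL α A B N M a h ⊆ ((Ioc k N).filter Nat.Prime).biUnion (fun q => (Ioc 0 (0 + X)).filter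
      (fun p => p ≡ a [MOD M] ∧ p ≡ hr (h * Nat.gcdA α (q ^ 2)) (q ^ 2) [MOD (q ^ 2)])) := by
    intro p hp
    unfold BWL at hp
    rw [mem_filter, mem_PNX] at hp
    obtain ⟨⟨⟨h1, h2⟩, h3⟩, ha, q, hq, hqp, hd⟩ := hp
    rw [mem_biUnion]
    refine ⟨q, mem_filter.2 ⟨hq, hqp⟩, ?_⟩
    rw [mem_filter, mem_Ioc]
    refine ⟨⟨h3.pos, by omega⟩, ha, ?_⟩
    have hq0 : 0 < q ^ 2 := pow_pos hqp.pos 2
    exact bwl_class_of_dvd hq0 (hcopα q hqp (mem_Ioc.1 hq).1) hd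
  have h1 : ((BWL α A B N M a h).card : ℝ) ≤ ∑ q ∈ (Ioc k N).filter Nat.Prime,
      ((((Ioc 0 (0 + X)).filter (fun p => p ≡ a [MOD M] ∧
        p ≡ hr (h * Nat.gcdA α (q ^ 2)) (q ^ 2) [MOD (q ^ 2)])).card : ℕ) : ℝ) := by
    have := (card_le_card hsub).trans card_biUnion_le
    exact_mod_cast this
  refine h1.trans ?_
  have h2 : ∀ q ∈ (Ioc k N).filter Nat.Prime,
      ((((Ioc 0 (0 + X)).filter (fun p => p ≡ a [MOD M] ∧
        p ≡ hr (h * Nat.gcdA α (q ^ 2)) (q ^ 2) [MOD (q ^ 2)])).card : ℕ) : ℝ) ≤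
      (X : ℝ) / M * ((q : ℝ) ^ 2)⁻¹ + 1 := by
    intro q hq
    rw [mem_filter, mem_Ioc] at hq
    have hq0 : 0 < q ^ 2 := pow_pos hq.2.pos 2
    have hcop : M.Coprime (q ^ 2) := by
      apply Nat.Coprime.pow_right
      apply Nat.Coprime.symm
      rw [hq.2.coprime_iff_not_dvd]
      intro hd
      have := hWN q hq.2 hd
      omega
    obtain ⟨c, hc1, hc2⟩ := Nat.chineseRemainder hcop a (hr (h * Nat.gcdA α (q ^ 2)) (q ^ 2))
    have h3 := Pool.Agent.Y843.QD.card_class 0 X (M * q ^ 2) c (Nat.mul_pos hM hq0)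
    have h4 := (abs_le.1 h3).2
    have h5 : (Ioc 0 (0 + X)).filter (fun p => p ≡ a [MOD M] ∧
        p ≡ hr (h * Nat.gcdA α (q ^ 2)) (q ^ 2) [MOD (q ^ 2)]) ⊆
        (Ioc 0 (0 + X)).filter (fun p => p ≡ c [MOD (M * q ^ 2)]) := by
      intro p hp
      rw [mem_filter] at hp ⊢
      refine ⟨hp.1, ?_⟩
      rw [← Nat.modEq_and_modEq_iff_modEq_mul hcop]
      exact ⟨hp.2.1.trans hc1.symm, hp.2.2.trans hc2.symm⟩
    have h6 : (((Ioc 0 (0 + X)).filter (fun p => p ≡ a [MOD M] ∧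
        p ≡ hr (h * Nat.gcdA α (q ^ 2)) (q ^ 2) [MOD (q ^ 2)])).card : ℝ) ≤
        (((Ioc 0 (0 + X)).filter (fun p => p ≡ c [MOD (M * q ^ 2)])).card : ℝ) := by
      exact_mod_cast card_le_card h5
    have h7 : (X : ℝ) / ((M * q ^ 2 : ℕ) : ℝ) = (X : ℝ) / M * ((q : ℝ) ^ 2)⁻¹ := by
      push_cast
      rw [← div_div, div_eq_mul_inv ((X : ℝ) / M)]
    rw [h7] at h4
    linarith
  refine (sum_le_sum h2).trans ?_
  have h2' : ∑ q ∈ (Ioc k N).filter Nat.Prime, ((X : ℝ) / M * ((q : ℝ) ^ 2)⁻¹ + 1) ≤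
      ∑ q ∈ Ioc k N, ((X : ℝ) / M * ((q : ℝ) ^ 2)⁻¹ + 1) :=
    sum_le_sum_of_subset_of_nonneg (filter_subset _ _) fun q _ _ => by positivity
  refine h2'.trans ?_
  rw [sum_add_distrib, ← mul_sum, sum_const, Nat.card_Ioc, nsmul_eq_mul, mul_one]
  have h3 := sum_Ioc_inv_sq_le_sub (α := ℝ) (k := k) (n := N) (by omega) hN2
  have h4 : (0 : ℝ) ≤ (N : ℝ)⁻¹ := by positivity
  have h5 : (X : ℝ) / M * ∑ i ∈ Ioc k N, ((i : ℝ) ^ 2)⁻¹ ≤ (X : ℝ) / M * (k : ℝ)⁻¹ := by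
    apply mul_le_mul_of_nonneg_left _ (by positivity)
    linarith
  have h6 : ((N - k : ℕ) : ℝ) ≤ N := by exact_mod_cast Nat.sub_le _ _
  rw [div_eq_mul_inv ((X : ℝ) / M)]
  linarith

end Pool.Agent.Q117.LF
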