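import Pool.Agent.Q117.LF.Nsf

/-!
Project LF (helper117), part 9: strings of Cunningham chains of prescribed kinds, exact lengths and gaps.
-/

set_option autoImplicit false

namespace Pool.Agent.Q117.LF

open Finset Filter

/-- the sign of the kind -/
def sg (ε : Bool) : ℤ := if ε then 1 else -1

/-- the `x`-th member of the chain of kind `ε` which begins with `m`: `2 ^ x (m + 1) - 1` or `2 ^ x (m - 1) + 1` -/
def cv (ε : Bool) (x : ℕ) (m : ℤ) : ℤ := 2 ^ x * m + sg ε * (2 ^ x - 1)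

open Classical in
/-- the number of the residues `n` modulo `p` for which `p` divides one of the members of the chains -/
noncomputable def oC {J : ℕ} (ℓ : Fin (J + 1) → ℕ) (κ : Fin (J + 1) → Bool) (D : Fin (J + 1) → ℕ) (p : ℕ) : ℕ :=
  ((range p).filter (fun n : ℕ => ∃ j, ∃ x < ℓ j, (p : ℤ) ∣ cv (κ j) x (n + D j))).card

/-- the `n ∈ (X, 2X]` such that the chains of length `K` which begin at distance `≤ L` from `n` begin exactly at the `n + D j`; the chain of kind `κ j` which begins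
there has exactly `ℓ j` members; prescribed prime and product of two primes -/
def SetC {J : ℕ} (z X L : ℝ) (K : ℕ) (ℓ : Fin (J + 1) → ℕ) (κ : Fin (J + 1) → Bool) (D : Fin (J + 1) → ℕ) (j₁ j₂ : Fin (J + 1)) (x₁ x₂ : ℕ) : Set ℕ :=
  {n : ℕ | X < n ∧ (n : ℝ) ≤ 2 * X ∧ (∀ j, (∀ x < ℓ j, Ro z (cv (κ j) x (n + D j))) ∧ ¬ Ro z (cv (κ j) (ℓ j) (n + D j))) ∧
    (∀ ε, ∀ m : ℤ, |((m - n : ℤ) : ℝ)| ≤ L → (∀ x < K, Ro z (cv ε x m)) → ∃ j, m = n + D j ∧ (2 ≤ K → ε = κ j)) ∧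
    (cv (κ j₁) x₁ (n + D j₁)).toNat.Prime ∧ Pt (X ^ (1 / 9 : ℝ)) (cv (κ j₂) x₂ (n + D j₂))}

theorem sg_ne {a b : Bool} (h : a ≠ b) : sg a - sg b = 2 ∨ sg a - sg b = -2 := by
  cases a <;> cases b <;> simp_all [sg]

theorem sg_abs (a : Bool) : sg a = 1 ∨ sg a = -1 := by
  cases a <;> simp [sg]

theorem two_pow_odd {x : ℕ} (hx : 1 ≤ x) : ¬ (2 : ℤ) ∣ 2 ^ x - 1 := by
  obtain ⟨y, rfl⟩ : ∃ y, x = y + 1 := ⟨x - 1, by omega⟩
  intro h
  have h1 : (2 : ℤ) ∣ 2 ^ (y + 1) := dvd_pow_self _ (by omega)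
  have h2 : (2 : ℤ) ∣ 1 := by
    have := dvd_sub h1 h
    simpa using this
  omega

/-- `2 ^ x a = ± 2 (2 ^ x - 1)` only for `x = 1`, `a = ± 1` (`x ≥ 1`) -/
theorem pow_eq {x : ℕ} (hx : 1 ≤ x) {a s : ℤ} (hs : s = 2 ∨ s = -2) (h : 2 ^ x * a = s * (2 ^ x - 1)) : a = 1 ∨ a = -1 := by
  obtain ⟨y, rfl⟩ : ∃ y, x = y + 1 := ⟨x - 1, by omega⟩
  have hy : (1 : ℤ) ≤ 2 ^ y := by exact_mod_cast Nat.one_le_two_pow
  have h1 : (2 : ℤ) ^ (y + 1) = 2 * 2 ^ y := by ring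
  have h3 : (2 : ℤ) ^ y * a = (2 * 2 ^ y - 1) ∨ (2 : ℤ) ^ y * a = -(2 * 2 ^ y - 1) := by
    rcases hs with rfl | rfl
    · left; rw [h1] at h; linarith
    · right; rw [h1] at h; linarith
  have hd : (2 : ℤ) ^ y ∣ 1 := by
    rcases h3 with h3 | h3
    · have : (1 : ℤ) = 2 ^ y * (2 - a) := by rw [mul_sub, h3]; ring
      exact ⟨_, this⟩
    · have : (1 : ℤ) = 2 ^ y * (2 + a) := by rw [mul_add, h3]; ring
      exact ⟨_, this⟩
  have hy1 : (2 : ℤ) ^ y = 1 := by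
    have := Int.le_of_dvd (by norm_num) hd
    linarith
  rw [hy1] at h3
  rcases h3 with h3 | h3
  · left; linarith
  · right; linarith

theorem chn (J : ℕ) (ℓ : Fin (J + 1) → ℕ) (κ : Fin (J + 1) → Bool) (K : ℕ) (hK : 1 ≤ K) (hℓ : ∀ j, K ≤ ℓ j) (j₁ j₂ : Fin (J + 1)) (x₁ x₂ : ℕ)
    (h₁ : x₁ < ℓ j₁) (h₂ : x₂ < ℓ j₂) (hne : j₁ ≠ j₂ ∨ x₁ ≠ x₂) :
    ∃ t : ℕ, 1 ≤ t ∧ ∃ c : ℝ, 0 < c ∧ ∃ ν : ℝ, 0 < ν ∧ ∃ X0 : ℝ, ∀ X : ℝ, X0 ≤ X → ∀ D : Fin (J + 1) → ℕ, StrictMono D → (∀ j, (D j : ℝ) ≤ ν * Real.log X ^ K) →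
      (∀ p : ℕ, p.Prime → ∃ n : ℕ, ∀ j, ∀ x < ℓ j, ¬ (p : ℤ) ∣ cv (κ j) x (n + D j)) →
        c * (X * ∏ p ∈ (Icc 1 ⌊X⌋₊).filter Nat.Prime, (1 - (oC ℓ κ D p : ℝ) / p)) ≤
          ((SetC (X ^ (1 / (t : ℝ))) X (ν * Real.log X ^ K) K ℓ κ D j₁ j₂ x₁ x₂).ncard : ℝ) := by
  classical
  obtain ⟨M, hM⟩ : ∃ M : ℕ, ∀ j, ℓ j ≤ M := ⟨∑ j, ℓ j, fun j => Finset.single_le_sum (fun _ _ => Nat.zero_le _) (Finset.mem_univ j)⟩
  obtain ⟨t, ht, c, hc, ν, hν, X1, hX1⟩ := nsf (ι := Σ j : Fin (J + 1), Fin (ℓ j)) (fun l => 2 ^ (l.2 : ℕ)) (fun l => Nat.one_le_two_pow)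
    (Γ := Bool × Fin (M + 2)) (fun γ => K + γ.2) (fun γ x => 2 ^ (x : ℕ)) (fun γ x => sg γ.1 * (2 ^ (x : ℕ) - 1)) K (fun γ => by omega) (fun γ => by omega)
    (fun γ x => Nat.one_le_two_pow)
    (fun γ x y hxy h => by
      push_cast at h
      have h1 : sg γ.1 * ((2 : ℤ) ^ (x : ℕ) - 2 ^ (y : ℕ)) = 0 := by linear_combination -h
      have h2 : (2 : ℤ) ^ (x : ℕ) = 2 ^ (y : ℕ) := by
        rcases mul_eq_zero.1 h1 with h3 | h3
        · rcases sg_abs γ.1 with h4 | h4 <;> omega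
        · linarith
      exact hxy (Fin.ext (Nat.pow_right_injective le_rfl (by exact_mod_cast h2))))
    (fun γ p hp => by
      rcases hγ : γ.1 with _ | _
      · refine ⟨1, fun x h => ?_⟩
        have h1 : ((2 ^ (x : ℕ) : ℕ) : ℤ) * ((1 : ℕ) : ℤ) + sg false * (2 ^ (x : ℕ) - 1) = 1 := by
          simp [sg]
        rw [h1] at h
        exact hp.one_lt.ne' (by exact_mod_cast Int.eq_one_of_dvd_one (by positivity) h)
      · refine ⟨p - 1, fun x h => ?_⟩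
        have h1 : ((2 ^ (x : ℕ) : ℕ) : ℤ) * ((p - 1 : ℕ) : ℤ) + sg true * (2 ^ (x : ℕ) - 1) = (p : ℤ) * 2 ^ (x : ℕ) - 1 := by
          rw [Nat.cast_sub hp.one_lt.le]
          simp [sg]
          ring
        rw [h1] at h
        have h2 : (p : ℤ) ∣ 1 := by
          have := dvd_sub (Dvd.intro ((2 : ℤ) ^ (x : ℕ)) rfl) h
          simpa using this
        exact hp.one_lt.ne' (by exact_mod_cast Int.eq_one_of_dvd_one (by positivity) h2))
    ⟨j₁, ⟨x₁, h₁⟩⟩ ⟨j₂, ⟨x₂, h₂⟩⟩ (fun h => by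
      rw [Sigma.mk.inj_iff] at h
      obtain ⟨e1, e2⟩ := h
      subst e1
      rcases hne with h3 | h3
      · exact h3 rfl
      · exact h3 (by simpa using e2))
  obtain ⟨X0, hX0⟩ := eventually_atTop.1 ((Pool.Agent.Q257.LF.ev_log K (4 * 2 ^ M * ν)).and ((eventually_ge_atTop (4 * 2 ^ M : ℝ)).and
    ((eventually_ge_atTop X1).and ((eventually_ge_atTop ((2 : ℝ) ^ t)).and (eventually_ge_atTop (4 : ℝ))))))
  refine ⟨t, ht, c, hc, ν, hν, X0, fun X hXX D hD hDν hadm => ?_⟩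
  obtain ⟨hL, hX2, hXX1, hXt, hX4⟩ := hX0 X hXX
  have hX0' : 0 < X := by linarith
  have ht0 : (t : ℝ) ≠ 0 := by exact_mod_cast (show t ≠ 0 by omega)
  have hz2 : (2 : ℝ) ≤ X ^ (1 / (t : ℝ)) := by
    calc (2 : ℝ) = ((2 : ℝ) ^ t) ^ (1 / (t : ℝ)) := by
          rw [← Real.rpow_natCast, ← Real.rpow_mul (by norm_num), mul_one_div_cancel ht0, Real.rpow_one]
      _ ≤ _ := Real.rpow_le_rpow (by positivity) hXt (by positivity)
  obtain ⟨A, hA⟩ : ∃ A : (Σ j : Fin (J + 1), Fin (ℓ j)) → ℕ, A = fun l => 2 ^ (l.2 : ℕ) := ⟨_, rfl⟩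
  obtain ⟨be, hbe⟩ : ∃ be : (Σ j : Fin (J + 1), Fin (ℓ j)) → ℤ, be = fun l => 2 ^ (l.2 : ℕ) * (D l.1 : ℤ) + sg (κ l.1) * (2 ^ (l.2 : ℕ) - 1) := ⟨_, rfl⟩
  have hval : ∀ (l : Σ j : Fin (J + 1), Fin (ℓ j)) (n : ℕ), (A l : ℤ) * n + be l = cv (κ l.1) l.2 (n + D l.1) := by
    intro l n
    rw [hA, hbe]
    unfold cv
    push_cast
    ring
  -- two of the forms which are odd at the same point and proportional are equal
  obtain ⟨n2, hn2⟩ := hadm 2 Nat.prime_two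
  have hodd : ∀ l : (Σ j : Fin (J + 1), Fin (ℓ j)), ¬ (2 : ℤ) ∣ (A l : ℤ) * n2 + be l := fun l => by
    rw [hval]
    exact_mod_cast hn2 l.1 l.2 l.2.2
  have hlpos : ∀ j, 0 < ℓ j := fun j => lt_of_lt_of_le (by omega) (hℓ j)
  have hnp : ∀ l m, l ≠ m → (A l : ℤ) * be m ≠ A m * be l := by
    intro l m hlm h
    obtain ⟨i, x⟩ := l
    obtain ⟨j, y⟩ := m
    have h1 : (A ⟨i, x⟩ : ℤ) * (A ⟨j, y⟩ * n2 + be ⟨j, y⟩) = A ⟨j, y⟩ * (A ⟨i, x⟩ * n2 + be ⟨i, x⟩) := by linear_combination h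
    have hxy : (x : ℕ) = y := by
      rw [hA] at h1
      push_cast at h1
      have o1 := hodd ⟨i, x⟩
      have o2 := hodd ⟨j, y⟩
      rw [hA] at o1 o2
      push_cast at o1 o2
      generalize (2 : ℤ) ^ (x : ℕ) * n2 + be ⟨i, x⟩ = Vi at h1 o1
      generalize (2 : ℤ) ^ (y : ℕ) * n2 + be ⟨j, y⟩ = Vj at h1 o2
      rcases lt_trichotomy (x : ℕ) y with h2 | h2 | h2
      · exfalso
        obtain ⟨w, hw⟩ := Nat.exists_eq_add_of_lt h2
        apply o2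
        have e1 : (2 : ℤ) ^ (y : ℕ) = 2 ^ (x : ℕ) * (2 ^ w * 2) := by rw [hw]; ring
        have h3 : (2 : ℤ) ^ (x : ℕ) * Vj = 2 ^ (x : ℕ) * (2 ^ w * 2 * Vi) := by rw [h1, e1]; ring
        have h4 := mul_left_cancel₀ (pow_ne_zero _ (by norm_num : (2 : ℤ) ≠ 0)) h3
        exact ⟨2 ^ w * Vi, by rw [h4]; ring⟩
      · exact h2
      · exfalso
        obtain ⟨w, hw⟩ := Nat.exists_eq_add_of_lt h2
        apply o1
        have e1 : (2 : ℤ) ^ (x : ℕ) = 2 ^ (y : ℕ) * (2 ^ w * 2) := by rw [hw]; ring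
        have h3 : (2 : ℤ) ^ (y : ℕ) * Vi = 2 ^ (y : ℕ) * (2 ^ w * 2 * Vj) := by rw [← h1, e1]; ring
        have h4 := mul_left_cancel₀ (pow_ne_zero _ (by norm_num : (2 : ℤ) ≠ 0)) h3
        exact ⟨2 ^ w * Vj, by rw [h4]; ring⟩
    have hb : be ⟨j, y⟩ = be ⟨i, x⟩ := by
      rw [hA] at h
      simp only at h
      rw [hxy] at h
      exact mul_left_cancel₀ (by positivity) h
    rw [hbe] at hb
    simp only at hb
    rw [hxy] at hb
    have hij : i = j := by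
      by_cases hy0 : (y : ℕ) = 0
      · rw [hy0] at hb
        simp at hb
        exact (hD.injective hb).symm
      · have hy1 : 1 ≤ (y : ℕ) := by omega
        by_cases hκ : κ i = κ j
        · rw [hκ] at hb
          have h3 : (2 : ℤ) ^ (y : ℕ) * D j = 2 ^ (y : ℕ) * D i := by linarith
          have h4 := mul_left_cancel₀ (by positivity) h3
          exact (hD.injective (by exact_mod_cast h4)).symm
        · exfalso
          have h3 : (2 : ℤ) ^ (y : ℕ) * ((D j : ℤ) - D i) = (sg (κ i) - sg (κ j)) * (2 ^ (y : ℕ) - 1) := by linear_combination hb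
          have h4 := pow_eq hy1 (sg_ne hκ) h3
          have o1 := hodd ⟨i, ⟨0, hlpos i⟩⟩
          have o2 := hodd ⟨j, ⟨0, hlpos j⟩⟩
          rw [hval] at o1 o2
          unfold cv at o1 o2
          simp at o1 o2
          omega
    subst hij
    exact hlm (by rw [Sigma.mk.inj_iff]; exact ⟨rfl, heq_of_eq (Fin.ext hxy)⟩)
  have hbd : ∀ l, |(be l : ℝ)| ≤ X / 2 := by
    intro l
    have hl : (l.2 : ℕ) ≤ M := (le_of_lt l.2.2).trans (hM _)
    have h2 : (2 : ℝ) ^ (l.2 : ℕ) ≤ 2 ^ M := pow_le_pow_right₀ (by norm_num) hl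
    have h3 : (1 : ℝ) ≤ 2 ^ (l.2 : ℕ) := one_le_pow₀ (by norm_num)
    have h4 : (2 : ℝ) ^ (l.2 : ℕ) * D l.1 ≤ 2 ^ M * (ν * Real.log X ^ K) := mul_le_mul h2 (hDν _) (Nat.cast_nonneg _) (by positivity)
    have h5 : (0 : ℝ) ≤ (2 : ℝ) ^ (l.2 : ℕ) * D l.1 := by positivity
    rw [hbe]
    push_cast
    rcases sg_abs (κ l.1) with h6 | h6 <;> rw [h6, abs_le] <;> push_cast <;> constructor <;> nlinarith
  have h1 := hX1 X hXX1 be hbd (fun l m hlm => by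
      have := hnp l m hlm
      rw [hA] at this
      exact this)
    (fun p hp => by
      obtain ⟨n, hn⟩ := hadm p hp
      refine ⟨n, fun l => ?_⟩
      have h2 := hval l n
      rw [hA] at h2
      rw [h2]
      exact hn l.1 l.2 l.2.2)
  have hom : ∀ p, omI (fun l : (Σ j : Fin (J + 1), Fin (ℓ j)) => 2 ^ (l.2 : ℕ)) be p = oC ℓ κ D p := by
    intro p
    unfold omI oC
    congr 1
    ext n
    simp only [Finset.mem_filter]
    refine and_congr_right fun _ => ⟨?_, ?_⟩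
    · rintro ⟨l, hl⟩
      have h2 := hval l n
      rw [hA] at h2
      rw [h2] at hl
      exact ⟨l.1, l.2, l.2.2, hl⟩
    · rintro ⟨j, x, hx, hjx⟩
      refine ⟨⟨j, ⟨x, hx⟩⟩, ?_⟩
      have h2 := hval ⟨j, ⟨x, hx⟩⟩ n
      rw [hA] at h2
      rw [h2]
      exact hjx
  simp only [hom] at h1
  refine h1.trans ?_
  have hfin : (SetC (X ^ (1 / (t : ℝ))) X (ν * Real.log X ^ K) K ℓ κ D j₁ j₂ x₁ x₂).Finite := by
    refine (Finset.finite_toSet (range (⌊2 * X⌋₊ + 1))).subset fun n hn => ?_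
    rw [Finset.mem_coe, Finset.mem_range, Nat.lt_succ_iff]
    exact Nat.le_floor hn.2.1
  rw [Nat.cast_le]
  apply Set.ncard_le_ncard _ hfin
  rintro n ⟨g1, g2, g3, g4, g5, g6⟩
  have hv := fun l => hval l n
  rw [hA] at hv
  rw [hv] at g3 g4
  have hro : ∀ j, ∀ x < ℓ j, Ro (X ^ (1 / (t : ℝ))) (cv (κ j) x (n + D j)) := fun j x hx => by
    have := g5 ⟨j, ⟨x, hx⟩⟩
    rw [hv] at this
    exact this
  have hro0 : ∀ j, Ro (X ^ (1 / (t : ℝ))) ((n : ℤ) + D j) := fun j => by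
    have := hro j 0 (hlpos j)
    unfold cv at this
    simpa using this
  have hodd2 : ∀ m : ℤ, Ro (X ^ (1 / (t : ℝ))) m → ¬ (2 : ℤ) ∣ m := fun m hm h2 => by
    have := hm 2 Nat.prime_two (by exact_mod_cast h2)
    push_cast at this
    linarith
  -- a chain near `n` with at least `K` members
  have key : ∀ (ε : Bool) (i : ℕ), i ≤ M + 1 → ∀ m : ℤ, |((m - n : ℤ) : ℝ)| ≤ ν * Real.log X ^ K → (∀ x < K + i, Ro (X ^ (1 / (t : ℝ))) (cv ε x m)) →
      ∃ j, K + i - 1 < ℓ j ∧ m = n + D j ∧ (2 ≤ K + i → ε = κ j) := by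
    intro ε i hi m hm hr
    obtain ⟨l, hl1, hl2⟩ := g6 (ε, ⟨i, by omega⟩) m hm (fun x => by
      have h2 := hr x x.2
      unfold cv at h2
      push_cast
      exact h2) ⟨K + i - 1, by simp only; omega⟩
    have hm0 : Ro (X ^ (1 / (t : ℝ))) m := by
      have := hr 0 (by omega)
      unfold cv at this
      simpa using this
    obtain ⟨j, x⟩ := l
    have hx : K + i - 1 = (x : ℕ) := Nat.pow_right_injective le_rfl hl1
    rw [hbe] at hl2
    simp only at hl2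
    push_cast at hl2
    rw [hx] at hl2
    refine ⟨j, by rw [hx]; exact x.2, ?_⟩
    by_cases hκ : ε = κ j
    · rw [hκ] at hl2
      have h3 : (2 : ℤ) ^ (x : ℕ) * (m - n) = 2 ^ (x : ℕ) * D j := by linarith
      have h4 := mul_left_cancel₀ (by positivity) h3
      exact ⟨by linarith, fun _ => hκ⟩
    · by_cases hx0 : (x : ℕ) = 0
      · rw [hx0] at hl2
        simp at hl2
        exact ⟨by linarith, fun h => by omega⟩
      · exfalso
        have h3 : (2 : ℤ) ^ (x : ℕ) * ((m - n) - D j) = (sg (κ j) - sg ε) * (2 ^ (x : ℕ) - 1) := by linear_combination hl2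
        have h4 := pow_eq (by omega) (sg_ne (fun h => hκ h.symm)) h3
        have o1 := hodd2 _ hm0
        have o2 := hodd2 _ (hro0 j)
        omega
  refine ⟨g1, g2, fun j => ⟨hro j, fun hlast => ?_⟩, fun ε m hm hr => ?_, g3, g4⟩
  · obtain ⟨i, hi⟩ : ∃ i, ℓ j + 1 = K + i := ⟨ℓ j + 1 - K, by have := hℓ j; omega⟩
    obtain ⟨j', h2, h3, -⟩ := key (κ j) i (by have := hM j; have := hℓ j; omega) (n + D j) (by
        have h3 : (n : ℤ) + D j - n = D j := by ring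
        rw [h3]
        push_cast
        rw [abs_of_nonneg (Nat.cast_nonneg _)]
        exact hDν j) (fun x hx => by
        rcases Nat.lt_succ_iff_lt_or_eq.1 (show x < (ℓ j).succ by omega) with h2 | h2
        · exact hro j x h2
        · rw [h2]; exact hlast)
    have h4 : (D j : ℤ) = D j' := by linarith
    have h5 : j = j' := hD.injective (by exact_mod_cast h4)
    rw [← h5] at h2
    omega
  · obtain ⟨j, -, h3, h4⟩ := key ε 0 (by omega) m hm hr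
    exact ⟨j, h3, h4⟩

end Pool.Agent.Q117.LF
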