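import Pool.Agent.Q117.LF.Stm

/-!
# Project LF (helper117), job CLL: the properties of the classes
-/

set_option autoImplicit false

namespace Pool.Agent.Q117.LF

open Finset Filter Pool.Agent.W23.DC Pool.Agent.Y660.RP
open Pool.Agent.Y843.HS (Pr Pr_mem Pr_prime)
open Pool.Agent.Y843.QD (vZ dvd_vZ)
open Pool.Agent.Y843.HG (Adm Z0 SP V1)
open Pool.Agent.Y843.CH hiding TB
open Pool.Agent.Q117.CR

namespace CLLa

/-- `α iv α q ≡ 1` modulo `q` -/
theorem iv_mul {α q : ℕ} (hq : q.Prime) (h : ¬ q ∣ α) : (α : ℤ) * iv α q ≡ 1 [ZMOD q] := by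
  have h1 : Nat.gcd α q = 1 := (Nat.Coprime.symm ((Nat.Prime.coprime_iff_not_dvd hq).2 h))
  have h2 := Nat.gcd_eq_gcd_ab α q
  rw [h1] at h2
  unfold iv
  have h3 : (α : ℤ) * Nat.gcdA α q = 1 - q * Nat.gcdB α q := by
    have : ((1 : ℕ) : ℤ) = 1 := rfl
    rw [this] at h2
    linarith
  rw [h3]
  exact (Int.modEq_iff_dvd.2 ⟨Nat.gcdB α q, by ring⟩)

theorem iv_ndvd {α q : ℕ} (hq : q.Prime) (h : ¬ q ∣ α) : ¬ (q : ℤ) ∣ iv α q := by
  intro hd
  have h1 := iv_mul hq h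
  have h2 : (q : ℤ) ∣ (α : ℤ) * iv α q := hd.mul_left _
  have h3 := (Int.modEq_iff_dvd.1 h1)
  have h4 : (q : ℤ) ∣ 1 := by
    have := dvd_add h3 h2
    rwa [sub_add_cancel] at this
  have h5 : q ∣ 1 := by exact_mod_cast h4
  exact hq.one_lt.ne' (Nat.dvd_one.1 h5)

theorem inj_hr {h u : ℤ} {q : ℕ} (hq : q.Prime) (hu : ¬ (q : ℤ) ∣ u) :
    Set.InjOn (fun x : ℕ => hr (h + u * x) q) (range q : Set ℕ) := by
  intro x hx y hy hxy
  rw [mem_coe, mem_range] at hx hy
  have h1 := (hr_eq_iff _ _ hq.pos).1 hxy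
  have h2 : u * (x : ℤ) ≡ u * y [ZMOD q] := Int.ModEq.add_left_cancel' h h1
  have h3 : (q : ℤ) ∣ u * ((y : ℤ) - x) := by
    have := Int.modEq_iff_dvd.1 h2
    rwa [← mul_sub] at this
  have hqi : Prime (q : ℤ) := Nat.prime_iff_prime_int.1 hq
  have h4 : (q : ℤ) ∣ (y : ℤ) - x := (hqi.dvd_or_dvd h3).resolve_left hu
  have h5 : (x : ℤ) ≡ y [ZMOD q] := Int.modEq_iff_dvd.2 h4
  have h6 : x ≡ y [MOD q] := by exact_mod_cast h5
  exact Nat.ModEq.eq_of_lt_of_lt h6 hx hy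

theorem card_pre {h u : ℤ} {q : ℕ} (hq : q.Prime) (hu : ¬ (q : ℤ) ∣ u) (S : Finset ℕ)
    (hS : ∀ c ∈ S, c < q) :
    ((range q).filter (fun x : ℕ => hr (h + u * x) q ∈ S)).card = S.card := by
  classical
  have himg : (range q).image (fun x : ℕ => hr (h + u * x) q) = range q := by
    apply eq_of_subset_of_card_le
    · intro c hc
      rw [mem_image] at hc
      obtain ⟨x, _, rfl⟩ := hc
      exact mem_range.2 (hr_lt _ hq.pos)
    · rw [card_image_of_injOn (inj_hr hq hu)]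
  apply card_nbij (fun x : ℕ => hr (h + u * x) q)
  · intro x hx
    rw [mem_coe, mem_filter] at hx
    exact hx.2
  · exact (inj_hr hq hu).mono (by
      intro x hx
      rw [mem_coe, mem_filter] at hx
      exact hx.1)
  · intro c hc
    have h1 : c ∈ (range q).image (fun x : ℕ => hr (h + u * x) q) := by
      rw [himg]
      exact mem_range.2 (hS c hc)
    rw [mem_image] at h1
    obtain ⟨x, hx, rfl⟩ := h1
    exact ⟨x, by rw [mem_coe, mem_filter]; exact ⟨hx, hc⟩, rfl⟩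

theorem card_ZT (h u : ℤ) {q : ℕ} (hq : q.Prime) (hu : ¬ (q : ℤ) ∣ u) (Y : ℕ) (Om : ℕ → Finset ℕ)
    (h1 : q ≤ Y → 0 ∉ Om q ∧ (∀ c ∈ Om q, c < q) ∧ hr h q ∈ Z0 Om q) :
    (((range q).erase 0).filter (fun x : ℕ => hr (h + u * x) q ∈ ZTp Y Om q)).card
      = (ZA h Y Om q).card := by
  classical
  have hlt : ∀ c ∈ ZTp Y Om q, c < q := by
    intro c hc
    unfold ZTp at hc
    split_ifs at hc with h2
    · unfold Z0 at hc
      rw [mem_insert] at hc
      rcases hc with rfl | hc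
      · exact hq.pos
      · exact (h1 h2).2.1 c hc
    · rw [mem_singleton] at hc
      have := hq.pos
      omega
  have h2 := card_pre (h := h) hq hu (ZTp Y Om q) hlt
  have h3 : ((range q).erase 0).filter (fun x : ℕ => hr (h + u * x) q ∈ ZTp Y Om q)
      = ((range q).filter (fun x : ℕ => hr (h + u * x) q ∈ ZTp Y Om q)).erase 0 := by
    ext x
    simp only [mem_filter, mem_erase]
    tauto
  have h4 : 0 ∈ (range q).filter (fun x : ℕ => hr (h + u * x) q ∈ ZTp Y Om q) ↔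
      hr h q ∈ ZTp Y Om q := by
    rw [mem_filter]
    simp [hq.pos]
  rw [h3]
  by_cases hY : q ≤ Y
  · have h5 : hr h q ∈ ZTp Y Om q := by
      unfold ZTp
      rw [if_pos hY]
      exact (h1 hY).2.2
    rw [card_erase_of_mem (h4.2 h5), h2]
    unfold ZTp ZA Z0
    rw [if_pos hY, if_pos hY, card_insert_of_notMem (h1 hY).1]
    omega
  · unfold ZA
    rw [if_neg hY]
    by_cases h6 : hr h q = 0
    · have h5 : hr h q ∈ ZTp Y Om q := by
        unfold ZTp
        rw [if_neg hY, mem_singleton]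
        exact h6
      rw [card_erase_of_mem (h4.2 h5), h2]
      unfold ZTp
      rw [if_neg hY, h6]
      simp
    · have h5 : hr h q ∉ ZTp Y Om q := by
        unfold ZTp
        rw [if_neg hY, mem_singleton]
        exact h6
      rw [erase_eq_of_notMem (fun h => h5 (h4.1 h)), h2]
      unfold ZTp
      rw [if_neg hY, erase_eq_of_notMem]
      · simp
      · rw [mem_singleton]
        exact fun h => h6 h.symm

theorem cA {r Y : ℕ} {h : ℤ} {Om : ℕ → Finset ℕ} (D : Adm r Y Om) {q : ℕ} (hq : q.Prime) :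
    (ZA h Y Om q).card ≤ r + 1 ∧ ∀ c ∈ ZA h Y Om q, c < q ∧ c ≠ 0 := by
  unfold ZA
  split_ifs with h1
  · have h2 := D q (Pr_mem.2 ⟨⟨hq.pos, h1⟩, hq⟩)
    exact ⟨h2.1.trans (Nat.le_succ r), fun c hc => ⟨h2.2.2.2 c hc, fun h3 => h2.2.2.1 (h3 ▸ hc)⟩⟩
  · constructor
    · refine (card_le_card (erase_subset _ _)).trans ?_
      rw [card_singleton]
      omega
    · intro c hc
      rw [mem_erase, mem_singleton] at hc
      exact ⟨hc.2 ▸ hr_lt h hq.pos, hc.1⟩

section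
variable {r N X z Y M M2 ps a α γ : ℕ} {ε : ℝ} {h : ℤ} {Om : ℕ → Finset ℕ}

theorem dY (S : StL r N X z Y M M2 ps a α γ ε h Om) {q : ℕ} (hq : q.Prime) (hd : q ∣ M * ps) :
    q ≤ Y := by
  rcases (hq.dvd_mul).1 hd with h1 | h1
  · exact S.mY q hq h1
  · rcases S.hp with h2 | ⟨h2, _, h3⟩
    · rw [h2] at h1
      exact absurd (Nat.dvd_one.1 h1) hq.one_lt.ne'
    · rwa [(Nat.prime_dvd_prime_iff_eq hq h2).1 h1]

theorem nd (S : StL r N X z Y M M2 ps a α γ ε h Om) {q : ℕ} (hq : q.Prime) (hd : ¬ q ∣ M * ps) :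
    ¬ q ∣ α * γ := fun h1 => hd ((S.g q hq h1).mul_right _)

theorem nda (S : StL r N X z Y M M2 ps a α γ ε h Om) {q : ℕ} (hq : q.Prime) (hd : ¬ q ∣ M * ps) :
    ¬ q ∣ α := fun h1 => nd S hq hd (h1.mul_right _)

theorem clA (S : StL r N X z Y M M2 ps a α γ ε h Om) :
    ClD (r + 1) z N (M * ps) (ZAL α (M * ps) h Y Om) := by
  refine ⟨⟨?_, ?_⟩, ?_⟩
  · intro p hp
    unfold ZAL
    split_ifs
    · simp
    · exact (cA S.D.adm (Pr_prime hp)).1
  · intro p hp c hc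
    unfold ZAL at hc
    split_ifs at hc
    · simp at hc
    · exact (cA S.D.adm (Pr_prime hp)).2 c hc
  · intro p _ hd
    unfold ZAL
    rw [if_pos hd]

theorem ZTL_card (S : StL r N X z Y M M2 ps a α γ ε h Om) {s : ℤ} (hs : s = 1 ∨ s = -1) {q : ℕ}
    (hq : q.Prime) : (ZTL α γ (M * ps) h s Y Om q).card = (ZAL α (M * ps) h Y Om q).card := by
  unfold ZTL ZAL
  split_ifs with hd
  · rfl
  · have h1 := nd S hq hd
    have hα := nda S hq hd
    have hγ : ¬ q ∣ γ := fun h2 => h1 (h2.mul_left _)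
    have hqi : Prime (q : ℤ) := Nat.prime_iff_prime_int.1 hq
    have hu : ¬ (q : ℤ) ∣ s * γ * iv α q := by
      intro h2
      rcases hqi.dvd_or_dvd h2 with h3 | h3
      · rcases hqi.dvd_or_dvd h3 with h4 | h4
        · have h5 : (q : ℤ) ∣ 1 := by
            rcases hs with rfl | rfl
            · exact h4
            · exact (Int.dvd_neg).1 h4
          have h6 : q ∣ 1 := by exact_mod_cast h5
          exact hq.one_lt.ne' (Nat.dvd_one.1 h6)
        · exact hγ (by exact_mod_cast h4)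
      · exact iv_ndvd hq hα h3
    have h2 := card_ZT (h * iv α q) (s * γ * iv α q) hq hu Y Om (fun hY => by
      have h3 := Pr_mem.2 ⟨⟨hq.pos, hY⟩, hq⟩
      have h4 := S.D.adm q h3
      exact ⟨h4.2.2.1, h4.2.2.2, S.D.hm q h3 h1⟩)
    rw [← h2]
    refine congrArg Finset.card (filter_congr fun x _ => ?_)
    have e : (h + s * ((γ : ℤ) * x)) * iv α q = h * iv α q + s * γ * iv α q * x := by ring
    rw [e]

theorem gT (S : StL r N X z Y M M2 ps a α γ ε h Om) {s : ℤ} (hs : s = 1 ∨ s = -1) {q : ℕ}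
    (hq : q.Prime) : gC (ZTL α γ (M * ps) h s Y Om) q = gC (ZAL α (M * ps) h Y Om) q := by
  unfold gC
  rw [ZTL_card S hs hq]

theorem dvd2 (S : StL r N X z Y M M2 ps a α γ ε h Om) {q : ℕ} (hq : q.Prime) :
    q ∣ M * ps ↔ q ∣ M2 * ps := by
  rw [hq.dvd_mul, hq.dvd_mul, S.same q hq]

theorem clT (S : StL r N X z Y M M2 ps a α γ ε h Om) {s : ℤ} (hs : s = 1 ∨ s = -1) :
    ClD (r + 1) z N (M2 * ps) (ZTL α γ (M * ps) h s Y Om) := by
  refine ⟨⟨?_, ?_⟩, ?_⟩
  · intro p hp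
    rw [ZTL_card S hs (Pr_prime hp)]
    exact (clA S).card p hp
  · intro p hp c hc
    unfold ZTL at hc
    split_ifs at hc
    · simp at hc
    · rw [mem_filter, mem_erase, mem_range] at hc
      exact ⟨hc.1.2, hc.1.1⟩
  · intro p hp hd
    unfold ZTL
    rw [if_pos ((dvd2 S (Pr_prime hp)).2 hd)]

theorem dg (S : StL r N X z Y M M2 ps a α γ ε h Om) :
    Dg (r + 1) z ((N : ℝ) ^ ε) h.natAbs (gC (ZAL α (M * ps) h Y Om)) := by
  constructor
  · intro p hp hz
    have h2 : (0 : ℝ) < (p : ℝ) - 1 := by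
      have : (1 : ℝ) < p := by exact_mod_cast hp.one_lt
      linarith
    by_cases hd : p ∣ M * ps
    · have h3 : gC (ZAL α (M * ps) h Y Om) p = 0 := by
        unfold gC ZAL
        rw [if_pos hd]
        simp
      rw [h3]
      exact ⟨le_rfl, by positivity⟩
    · have h3 : gC (ZAL α (M * ps) h Y Om) p = gC (ZA (h * iv α p) Y Om) p := by
        unfold gC ZAL
        rw [if_neg hd]
      rw [h3]
      have h1 := (cA (h := h * iv α p) S.D.adm hp).1
      unfold gC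
      refine ⟨by positivity, ?_⟩
      apply div_le_div_of_nonneg_right _ h2.le
      exact_mod_cast h1
  · intro p hp hwp
    have hY : ¬ p ≤ Y := by
      intro h2
      have : (p : ℝ) ≤ Y := by exact_mod_cast h2
      linarith [S.Yw]
    have hd : ¬ p ∣ M * ps := fun hd => hY (dY S hp hd)
    have hα := nda S hp hd
    unfold gC ZAL ZA
    rw [if_neg hd, if_neg hY]
    have hpi : Prime (p : ℤ) := Nat.prime_iff_prime_int.1 hp
    have h3 : hr (h * iv α p) p = 0 ↔ p ∣ h.natAbs := by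
      rw [hr_zero_iff _ hp.pos, ← Int.natCast_dvd]
      constructor
      · intro h4
        exact (hpi.dvd_or_dvd h4).resolve_right (iv_ndvd hp hα)
      · intro h4
        exact h4.mul_right _
    split_ifs with h4
    · rw [h3.2 h4]
      simp
    · rw [erase_eq_of_notMem, card_singleton, Nat.cast_one]
      rw [mem_singleton]
      exact fun h5 => h4 (h3.1 h5.symm)

theorem dgT (S : StL r N X z Y M M2 ps a α γ ε h Om) {s : ℤ} (hs : s = 1 ∨ s = -1) :
    Dg (r + 1) z ((N : ℝ) ^ ε) h.natAbs (gC (ZTL α γ (M * ps) h s Y Om)) := by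
  have h1 := dg S
  constructor
  · intro p hp hz
    rw [gT S hs hp]
    exact h1.1 p hp hz
  · intro p hp hwp
    rw [gT S hs hp]
    exact h1.2 p hp hwp

theorem cop_a (S : StL r N X z Y M M2 ps a α γ ε h Om) : a.Coprime M := by
  rw [Nat.coprime_iff_gcd_eq_one]
  by_contra hcon
  obtain ⟨q, hq, hqd⟩ := Nat.exists_prime_and_dvd hcon
  have h1 : q ∣ M := hqd.trans (Nat.gcd_dvd_right _ _)
  have h2 : q ∣ a := hqd.trans (Nat.gcd_dvd_left _ _)
  apply S.ha q (Pr_mem.2 ⟨⟨hq.pos, S.mY q hq h1⟩, hq⟩) h1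
  rw [Nat.mod_eq_zero_of_dvd h2]
  exact mem_insert_self _ _

theorem cop (S : StL r N X z Y M M2 ps a α γ ε h Om) {s : ℤ} (hs : s = 1 ∨ s = -1) :
    (hr (s * (((α : ℤ) * a - h) / γ)) M2).Coprime M2 := by
  apply Nat.Coprime.symm
  rw [Nat.coprime_iff_gcd_eq_one]
  by_contra hcon
  obtain ⟨q, hq, hqd⟩ := Nat.exists_prime_and_dvd hcon
  have h1 : q ∣ M2 := hqd.trans (Nat.gcd_dvd_left _ _)
  have h2 : q ∣ hr (s * (((α : ℤ) * a - h) / γ)) M2 := hqd.trans (Nat.gcd_dvd_right _ _)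
  have h3 : (q : ℤ) ∣ s * (((α : ℤ) * a - h) / γ) := by
    have h4 : (q : ℤ) ∣ ((hr (s * (((α : ℤ) * a - h) / γ)) M2 : ℕ) : ℤ) :=
      Int.natCast_dvd_natCast.2 h2
    rw [hr_cast _ S.M20] at h4
    have h5 : ((M2 : ℕ) : ℤ) ∣ s * (((α : ℤ) * a - h) / γ) - (s * (((α : ℤ) * a - h) / γ)) % M2 :=
      Int.dvd_self_sub_emod
    have h6 := (Int.natCast_dvd_natCast.2 h1).trans h5
    have h7 := dvd_add h6 h4
    rwa [sub_add_cancel] at h7
  have h4 : (q : ℤ) ∣ ((α : ℤ) * a - h) / γ := by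
    rcases hs with rfl | rfl
    · simpa using h3
    · have := h3
      rw [neg_one_mul] at this
      exact (Int.dvd_neg).1 this
  have h5 : ((α : ℤ) * a - h) / γ = -((h - (α : ℤ) * a) / γ) := by
    rw [← Int.neg_ediv_of_dvd S.hd]
    congr 1
    ring
  rw [h5, Int.dvd_neg] at h4
  exact S.hc q hq ((S.same q hq).2 h1) h4

end

end CLLa

theorem cll : St_CLL := by
  intro r N X z Y M M2 ps a α γ ε h Om S
  exact ⟨CLLa.clA S, CLLa.cop_a S, CLLa.dg S, fun s hs =>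
    ⟨CLLa.clT S hs, CLLa.cop S hs, fun q hq => CLLa.gT S hs hq, CLLa.dgT S hs⟩⟩

end Pool.Agent.Q117.LF
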