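import Pool.Agent.Q117.LF.Main2

/-!
Project LF (helper117): from the finite sets of `Stm2.lean` to the cardinality of a set of natural numbers.
-/

set_option autoImplicit false

namespace Pool.Agent.Q117.LF

open Finset

/-- a lower bound for a finite set gives one for the set of the natural numbers in `(X, 2 X]` with the property -/
theorem cnt {X b : ℝ} (hX : 0 ≤ X) (P : ℕ → Prop) (inst : DecidablePred (fun n : ℕ => X < n ∧ P n))
    (h : b ≤ (((range (⌊2 * X⌋₊ + 1)).filter (fun n : ℕ => X < n ∧ P n)).card : ℝ)) :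
    b ≤ ({n : ℕ | X < n ∧ (n : ℝ) ≤ 2 * X ∧ P n}.ncard : ℝ) := by
  refine h.trans ?_
  rw [← Set.ncard_coe_finset]
  have hfin : {n : ℕ | X < n ∧ (n : ℝ) ≤ 2 * X ∧ P n}.Finite := by
    apply Set.Finite.subset (finite_toSet (range (⌊2 * X⌋₊ + 1)))
    intro n hn
    simp only [Set.mem_setOf_eq] at hn
    simp only [coe_range, Set.mem_Iio]
    exact Nat.lt_succ_of_le (Nat.le_floor hn.2.1)
  have hsub : (((range (⌊2 * X⌋₊ + 1)).filter (fun n : ℕ => X < n ∧ P n) : Finset ℕ) : Set ℕ) ⊆ {n : ℕ | X < n ∧ (n : ℝ) ≤ 2 * X ∧ P n} := by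
    intro n hn
    simp only [coe_filter, mem_range, Set.mem_setOf_eq] at hn
    refine ⟨hn.2.1, ?_, hn.2.2⟩
    exact (Nat.le_floor_iff (by positivity)).1 (Nat.lt_succ_iff.1 hn.1)
  exact_mod_cast Set.ncard_le_ncard hsub hfin

/-- the same for the numbers `1 ≤ q ≤ N` -/
theorem cntI {b : ℝ} (N : ℕ) (P : ℕ → Prop) (inst : DecidablePred P)
    (h : b ≤ (((Icc 1 N).filter P).card : ℝ)) :
    b ≤ ({q : ℕ | 1 ≤ q ∧ q ≤ N ∧ P q}.ncard : ℝ) := by
  refine h.trans ?_
  rw [← Set.ncard_coe_finset]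
  have he : (((Icc 1 N).filter P : Finset ℕ) : Set ℕ) = {q : ℕ | 1 ≤ q ∧ q ≤ N ∧ P q} := by
    ext q
    simp [and_assoc]
  rw [he]

end Pool.Agent.Q117.LF
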