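import Pool.Agent.Q117.LF.Stm3
import Pool.Agent.Q117.LF.Cova

/-!
# Covering a long interval and several distant short ones by one class

Project LF (helper117), job COVB (helper239). The file follows `Pool/Agent/Q117/LF/Cova.lean`.
-/

set_option autoImplicit false
set_option maxHeartbeats 4000000

namespace Pool.Agent.Q117.LF

open Finset Filter
open Pool.Agent.H378R2 (GoodS GoodP WW PW yy z2)
open Pool.Agent.Q117.GP (Rk ev_all primes_many)

namespace COVBa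

/-- the Chinese remainder theorem for integers and a finite set of primes -/
theorem crt_int (P : Finset ℕ) (hP : ∀ p ∈ P, p.Prime) (r : ℕ → ℤ) :
    ∃ a : ℤ, ∀ p ∈ P, (p : ℤ) ∣ a - r p := by
  classical
  induction P using Finset.induction_on with
  | empty => exact ⟨0, by simp⟩
  | insert q P hq ih =>
    obtain ⟨a, ha⟩ := ih fun p hp => hP p (mem_insert_of_mem hp)
    have hqp := hP q (mem_insert_self _ _)
    have hcop : IsCoprime (((∏ p ∈ P, p : ℕ) : ℕ) : ℤ) (q : ℤ) := by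
      rw [Nat.isCoprime_iff_coprime]
      refine Nat.Coprime.prod_left fun p hp => ?_
      refine (Nat.coprime_primes (hP p (mem_insert_of_mem hp)) hqp).2 ?_
      rintro rfl
      exact hq hp
    obtain ⟨u, v, huv⟩ := hcop
    refine ⟨a + ((∏ p ∈ P, p : ℕ) : ℕ) * u * (r q - a), fun p hp => ?_⟩
    rw [mem_insert] at hp
    rcases hp with rfl | hp
    · refine ⟨-(v * (r p - a)), ?_⟩
      linear_combination (r p - a) * huv
    · have h1 : (p : ℤ) ∣ (((∏ p ∈ P, p : ℕ) : ℕ) : ℤ) := by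
        exact_mod_cast dvd_prod_of_mem _ hp
      have h2 : a + ((∏ p ∈ P, p : ℕ) : ℕ) * u * (r q - a) - r p =
          (a - r p) + ((∏ p ∈ P, p : ℕ) : ℕ) * (u * (r q - a)) := by ring
      rw [h2]
      exact dvd_add (ha p hp) (Dvd.dvd.mul_right h1 _)

theorem ev_pow (k t : ℕ) (ht : 1 ≤ t) (M : ℝ) : ∃ X0 : ℝ, ∀ X : ℝ, X0 ≤ X → ∀ T A : ℝ, T = Real.log X → A = Real.log T →
    (2 * A) ^ (2 * k + 4) * A ^ 2 ≤ 6 * T ^ (1 / (t : ℝ)) ∧ M ≤ A := by
  have hlog := Real.tendsto_log_atTop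
  have hA : Tendsto (fun X : ℝ => Real.log (Real.log X)) atTop atTop := hlog.comp hlog
  have ht0 : (0 : ℝ) < t := by exact_mod_cast ht
  have e4 : ∀ᶠ x : ℝ in atTop, (2 * Real.log x) ^ (2 * k + 4) * (Real.log x) ^ 2 ≤ 6 * x ^ (1 / (t : ℝ)) := by
    have h1 := (isLittleO_log_rpow_rpow_atTop (s := 1 / (t : ℝ)) ((2 * k + 6 : ℕ) : ℝ) (by positivity)).bound
      (show (0 : ℝ) < 6 / 2 ^ (2 * k + 4) by positivity)
    filter_upwards [h1, eventually_ge_atTop (1 : ℝ)] with x h2 h3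
    have h4 : 0 ≤ Real.log x := Real.log_nonneg h3
    rw [Real.norm_of_nonneg (by positivity), Real.norm_of_nonneg (by positivity), Real.rpow_natCast] at h2
    calc (2 * Real.log x) ^ (2 * k + 4) * (Real.log x) ^ 2 = 2 ^ (2 * k + 4) * (Real.log x) ^ (2 * k + 6) := by
          rw [mul_pow, mul_assoc, ← pow_add]
      _ ≤ 2 ^ (2 * k + 4) * (6 / 2 ^ (2 * k + 4) * x ^ (1 / (t : ℝ))) := by gcongr
      _ = 6 * x ^ (1 / (t : ℝ)) := by field_simp
  obtain ⟨X0, hX0⟩ := eventually_atTop.1 ((hlog.eventually e4).and (hA.eventually_ge_atTop M))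
  refine ⟨X0, fun X hX T A hT hA' => ?_⟩
  subst hA'
  subst hT
  exact hX0 X hX

/-- a surjection from `Fin k` to a nonempty finite set with at most `k` elements -/
theorem enum (k : ℕ) (E : Finset ℤ) (h0 : E.Nonempty) (hk : E.card ≤ k) :
    ∃ t : Fin k → ℤ, (∀ j, t j ∈ E) ∧ ∀ e ∈ E, ∃ j, t j = e := by
  obtain ⟨e0, he0⟩ := h0
  refine ⟨fun j => if h : (j : ℕ) < E.card then (E.equivFin.symm ⟨j, h⟩ : ℤ) else e0, fun j => ?_, fun e he => ?_⟩
  · dsimp only
    split_ifs with h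
    · exact (E.equivFin.symm ⟨j, h⟩).2
    · exact he0
  · have h1 : (E.equivFin ⟨e, he⟩ : ℕ) < E.card := (E.equivFin ⟨e, he⟩).2
    refine ⟨⟨E.equivFin ⟨e, he⟩, h1.trans_le hk⟩, ?_⟩
    dsimp only
    rw [dif_pos h1]
    simp

end COVBa

open COVBa

/-- **Covering a long interval and several distant short ones by one class.** -/
theorem covb : St_COVB := by
  classical
  intro hRSF hSHF hASG k A0 m hk hA01
  obtain ⟨C, hC, y₀, hrs⟩ := hRSF k A0 m hA01
  obtain ⟨t, ht, L₀, hsh⟩ := hSHF k A0 hk hA01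
  obtain ⟨n₀, hpr⟩ := primes_many
  have ht0 : (0 : ℝ) < t := by exact_mod_cast ht
  have hk0 : (1 : ℝ) ≤ k := by exact_mod_cast hk
  have hm0 : (0 : ℝ) ≤ m := Nat.cast_nonneg m
  obtain ⟨c, hcdef⟩ : ∃ c : ℝ, c = min (1 / (40000 * (k : ℝ))) (1 / (4800000 * C * (k : ℝ) * ((m : ℝ) + 1))) := ⟨_, rfl⟩
  have hc0 : 0 < c := by rw [hcdef]; exact lt_min (by positivity) (by positivity)
  have hc1 : c ≤ 1 / (40000 * k) := by rw [hcdef]; exact min_le_left _ _
  have hc2 : c ≤ 1 / (4800000 * C * k * (m + 1)) := by rw [hcdef]; exact min_le_right _ _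
  have hc1' : c ≤ 1 / 40000 := by
    refine hc1.trans ?_
    apply one_div_le_one_div_of_le (by norm_num)
    linarith
  obtain ⟨K, hKdef⟩ : ∃ K : ℝ, K = 80000 * (4 * k ^ 3 + k + 4) := ⟨_, rfl⟩
  have hk3 : (0 : ℝ) ≤ 4 * (k : ℝ) ^ 3 := by positivity
  have hK1 : 320000 ≤ K := by
    rw [hKdef]
    linarith
  obtain ⟨X0, hev⟩ := ev_all (c / 2) (by positivity) t ht K ((y₀ : ℝ) + n₀ + L₀ + k + A0) (by linarith)
  obtain ⟨X1, hev1⟩ := ev_pow k t ht (100 * m * C * k)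
  refine ⟨c, hc0, max X0 X1, ?_⟩
  intro X hX ps S hps hS E hEc hadm N h0E hNE
  obtain ⟨T, hT⟩ : ∃ T, T = Real.log X := ⟨_, rfl⟩
  obtain ⟨A, hA⟩ : ∃ A, A = Real.log T := ⟨_, rfl⟩
  obtain ⟨B, hB⟩ : ∃ B, B = Real.log A := ⟨_, rfl⟩
  obtain ⟨D, hD⟩ : ∃ D, D = Real.log B := ⟨_, rfl⟩
  obtain ⟨a1, a2, a3, a4, a5, a6, a7, a8, a9, a10, a11, a12, a13, a14⟩ := hev X ((le_max_left _ _).trans hX) T A B D hT hA hB hD
  obtain ⟨b1, b2⟩ := hev1 X ((le_max_right _ _).trans hX) T A hT hA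
  have hR : Rk X = T * A * D / B ^ 2 := by
    unfold Rk
    rw [← hT, ← hA, ← hB, ← hD]
  have hT0 : 0 < T := by linarith
  have hA0 : 0 < A := by linarith
  have hB0 : 0 < B := by linarith
  have hD0 : 0 < D := by linarith
  have hTe : T = Real.exp A := by rw [hA, Real.exp_log hT0]
  -- y and y'
  obtain ⟨y, hy⟩ : ∃ y, y = yy X := ⟨_, rfl⟩
  have hyT : (y : ℝ) ≤ T / 1000 := by
    rw [hy]
    unfold yy
    rw [← hT]
    exact Nat.floor_le (by positivity)
  have hyT2 : T / 2000 ≤ y := by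
    have h1 : T / 1000 < (y : ℝ) + 1 := by
      rw [hy]
      unfold yy
      rw [← hT]
      exact Nat.lt_floor_add_one _
    linarith
  obtain ⟨y', hy'⟩ : ∃ y', y' = y / 8 := ⟨_, rfl⟩
  have hy'y : y' ≤ y := by rw [hy']; exact Nat.div_le_self _ _
  have hy'T : (y' : ℝ) ≤ T / 8000 := by
    have : (y' : ℝ) ≤ y / 8 := by
      rw [hy']
      have := Nat.cast_div_le (α := ℝ) (m := y) (n := 8)
      exact_mod_cast this
    linarith
  have hy'T2 : T / 20000 ≤ y' := by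
    have h1 : y < 8 * y' + 8 := by omega
    have h2 : (y : ℝ) < 8 * y' + 8 := by exact_mod_cast h1
    linarith
  have hy'0 : (0 : ℝ) < y' := by linarith [show 0 < T / 20000 by positivity]
  have hsum0 : (0 : ℝ) ≤ (y₀ : ℝ) + n₀ + L₀ + k + A0 := by positivity
  have hbig : ((y₀ : ℝ) + n₀ + L₀ + k + A0) + 2 ≤ T / 20000 := by linarith
  have hyy0 : y₀ ≤ y' := by
    have h1 : (y₀ : ℝ) ≤ y' := by linarith [Nat.cast_nonneg (α := ℝ) n₀, Nat.cast_nonneg (α := ℝ) L₀, Nat.cast_nonneg (α := ℝ) k, Nat.cast_nonneg (α := ℝ) A0]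
    exact_mod_cast h1
  have hyn0 : n₀ ≤ y := by
    have h1 : (n₀ : ℝ) ≤ y' := by linarith [Nat.cast_nonneg (α := ℝ) y₀, Nat.cast_nonneg (α := ℝ) L₀, Nat.cast_nonneg (α := ℝ) k, Nat.cast_nonneg (α := ℝ) A0]
    have h2 : n₀ ≤ y' := by exact_mod_cast h1
    omega
  have hAy' : A0 ≤ y' := by
    have h1 : (A0 : ℝ) ≤ y' := by linarith [Nat.cast_nonneg (α := ℝ) y₀, Nat.cast_nonneg (α := ℝ) L₀, Nat.cast_nonneg (α := ℝ) n₀, Nat.cast_nonneg (α := ℝ) k]
    exact_mod_cast h1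
  have hky' : k ≤ y' := by
    have h1 : (k : ℝ) ≤ y' := by linarith [Nat.cast_nonneg (α := ℝ) y₀, Nat.cast_nonneg (α := ℝ) L₀, Nat.cast_nonneg (α := ℝ) n₀, Nat.cast_nonneg (α := ℝ) A0]
    exact_mod_cast h1
  have hly1 : Real.log y' ≤ A := by
    rw [hA]; apply Real.log_le_log hy'0; linarith
  have hlyy : Real.log y ≤ A := by
    rw [hA]; apply Real.log_le_log (by linarith [show 0 < T / 2000 by positivity]); linarith
  have hly2 : A / 2 ≤ Real.log y' := by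
    have h1 : Real.log (T / 20000) ≤ Real.log y' := Real.log_le_log (by positivity) hy'T2
    rw [Real.log_div hT0.ne' (by norm_num), ← hA] at h1
    linarith
  have hly0 : 0 < Real.log y' := by linarith
  have hly0' : 0 < Real.log y := by
    have h1 : Real.log y' ≤ Real.log y := Real.log_le_log hy'0 (by exact_mod_cast hy'y)
    linarith
  have hl2y1 : Real.log (Real.log y') ≤ B := by rw [hB]; exact Real.log_le_log hly0 hly1
  have hl2y2 : B / 2 ≤ Real.log (Real.log y') := by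
    have h1 : Real.log (A / 2) ≤ Real.log (Real.log y') := Real.log_le_log (by positivity) hly2
    rw [Real.log_div hA0.ne' (by norm_num), ← hB] at h1
    linarith
  have hl2y0 : 0 < Real.log (Real.log y') := by linarith
  have hl3y2 : D / 2 ≤ Real.log (Real.log (Real.log y')) := by
    have h1 : Real.log (B / 2) ≤ Real.log (Real.log (Real.log y')) := Real.log_le_log (by positivity) hl2y2
    rw [Real.log_div hB0.ne' (by norm_num), ← hD] at h1
    linarith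
  -- L
  obtain ⟨L, hL⟩ : ∃ L : ℕ, L = ⌊c * Rk X⌋₊ := ⟨_, rfl⟩
  have hcR0 : 0 ≤ c * Rk X := by rw [hR]; positivity
  have hLle : (L : ℝ) ≤ c * Rk X := by rw [hL]; exact Nat.floor_le hcR0
  have hT1 : 2 * T ≤ c * Rk X := by
    rw [hR, mul_div_assoc', le_div_iff₀ (by positivity)]
    have h1 : T * B ^ 2 ≤ T * (c / 2 * A) := by gcongr
    have h2 : T * (c / 2 * A) ≤ T * (c / 2 * A) * D := by
      have : 0 ≤ T * (c / 2 * A) := by positivity
      nlinarith
    linarith [show c * (T * A * D) = 2 * (T * (c / 2 * A) * D) by ring]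
  have hTL : T ≤ L := by
    have h1 : c * Rk X < (L : ℝ) + 1 := by rw [hL]; exact Nat.lt_floor_add_one _
    linarith
  have hL0 : (0 : ℝ) < L := by linarith
  have hcRTA : c * Rk X ≤ 1 / 2 * (T * A) := by
    rw [hR, mul_div_assoc', div_le_iff₀ (by positivity)]
    have h3 : D ≤ B ^ 2 := by nlinarith
    have h3' : c ≤ 1 / 2 := by linarith
    have h4 : c * (T * A * D) ≤ 1 / 2 * (T * A * B ^ 2) := by gcongr
    linarith [show 1 / 2 * (T * A * B ^ 2) = 1 / 2 * (T * A) * B ^ 2 by ring]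
  have hyH : y' ≤ 3 * L := by
    have h1 : (y' : ℝ) ≤ ((3 * L : ℕ) : ℝ) := by
      push_cast
      linarith
    exact_mod_cast h1
  have hyL : y' ≤ L := by
    have h1 : (y' : ℝ) ≤ L := by linarith
    exact_mod_cast h1
  have hHy : ((3 * L : ℕ) : ℝ) ≤ y' * (Real.log y') ^ 2 := by
    push_cast
    have h1 : T / 20000 * (A / 2) ^ 2 ≤ y' * (Real.log y') ^ 2 := by gcongr
    refine le_trans ?_ h1
    have h5 : 0 < T * A := by positivity
    have h6 : 3 * (L : ℝ) ≤ 3 / 2 * (T * A) := by linarith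
    have h7 : T / 20000 * (A / 2) ^ 2 = T * A * (A / 80000) := by ring
    have h8 : (2 : ℝ) ≤ A / 80000 := by linarith
    nlinarith
  have hHt : 3 * L < y' ^ 2 := by
    have h1 : ((3 * L : ℕ) : ℝ) < ((y' ^ 2 : ℕ) : ℝ) := by
      refine lt_of_le_of_lt hHy ?_
      push_cast
      have h2 : (Real.log y') ^ 2 ≤ A ^ 2 := by gcongr
      have h3 : (Real.log y') ^ 2 < y' := by
        have : T / 20001 < T / 20000 := by
          apply div_lt_div_of_pos_left hT0 (by norm_num) (by norm_num)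
        linarith
      nlinarith
    exact_mod_cast h1
  have hLL0 : L₀ ≤ L := by
    have h1 : (L₀ : ℝ) ≤ L := by
      linarith [Nat.cast_nonneg (α := ℝ) y₀, Nat.cast_nonneg (α := ℝ) k, Nat.cast_nonneg (α := ℝ) n₀, Nat.cast_nonneg (α := ℝ) A0]
    exact_mod_cast h1
  have hlL : Real.log L ≤ 2 * A := by
    have h1 : (L : ℝ) ≤ T * T := by
      have : A ≤ T := by
        have h := Real.add_one_le_exp A
        rw [← hTe] at h
        linarith
      nlinarith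
    have h2 := Real.log_le_log hL0 h1
    rw [Real.log_mul hT0.ne' hT0.ne', ← hA] at h2
    linarith
  have hlL0 : 0 ≤ Real.log L := Real.log_nonneg (by linarith)
  -- D₁
  obtain ⟨D₁, hD₁⟩ : ∃ D₁ : ℕ, D₁ = ⌊c * T⌋₊ := ⟨_, rfl⟩
  have hD₁le : (D₁ : ℝ) ≤ c * T := by rw [hD₁]; exact Nat.floor_le (by positivity)
  have hD₁y : 2 * D₁ ≤ y' := by
    have h1 : ((2 * D₁ : ℕ) : ℝ) ≤ y' := by
      push_cast
      have : c * T ≤ 1 / 40000 * T := by gcongr
      linarith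
    exact_mod_cast h1
  -- the shift
  obtain ⟨F, hF⟩ : ∃ F : Finset ℤ, F = E.image (fun e => e + (L : ℤ)) := ⟨_, rfl⟩
  have hFm : ∀ x, x ∈ F ↔ ∃ e ∈ E, e + L = x := by
    intro x; rw [hF, mem_image]
  have hFc : F.card ≤ k := by rw [hF]; exact card_image_le.trans hEc
  have hFadm : AdmE A0 F := by
    intro p hp hpA
    obtain ⟨r, hr⟩ := hadm p hp hpA
    refine ⟨r - L, fun x hx => ?_⟩
    obtain ⟨e, he, rfl⟩ := (hFm x).1 hx
    have := hr e he
    rwa [show r - L + (e + L) = r + e by ring]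
  obtain ⟨t₀, ht1, ht2, ht3, ht4⟩ := hsh L hLL0 y' hyL F hFc hFadm
  have hz : T ^ (1 / (t : ℝ)) ≤ (L : ℝ) ^ (1 / (t : ℝ)) := Real.rpow_le_rpow hT0.le hTL (by positivity)
  have hzK : K * A ^ 2 ≤ (L : ℝ) ^ (1 / (t : ℝ)) := a12.trans hz
  have hA2 : (1 : ℝ) ≤ A ^ 2 := by nlinarith
  -- the points
  obtain ⟨E', hE'⟩ : ∃ E' : Finset ℤ, E' = E.image (fun e => e + (L : ℤ) + (t₀ : ℤ)) := ⟨_, rfl⟩
  have hE'm : ∀ x, x ∈ E' ↔ ∃ e ∈ E, e + L + t₀ = x := by
    intro x; rw [hE', mem_image]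
  have hE'm2 : ∀ s : ℤ, s + L + t₀ ∈ E' ↔ s ∈ E := by
    intro s
    rw [hE'm]
    constructor
    · rintro ⟨e, he, h1⟩
      have : e = s := by linarith
      rwa [← this]
    · intro h
      exact ⟨s, h, rfl⟩
  have hE'c : E'.card = E.card := by
    rw [hE', card_image_of_injective]
    intro a b h
    simpa using h
  have hE'k : E'.card ≤ k := hE'c.le.trans hEc
  have hE'0 : E'.Nonempty := ⟨0 + L + t₀, (hE'm2 0).2 h0E⟩
  -- S'
  obtain ⟨S', hS'⟩ : ∃ S' : Finset ℕ, S' = (range (y' + 1)).filter (fun p : ℕ => p.Prime ∧ ¬ p ∣ A0 ∧ ∃ e ∈ F, (p : ℤ) ∣ t₀ + e) := ⟨_, rfl⟩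
  have hS'm : ∀ q, q ∈ S' ↔ q ≤ y' ∧ q.Prime ∧ ¬ q ∣ A0 ∧ ∃ e ∈ F, (q : ℤ) ∣ t₀ + e := by
    intro q
    rw [hS', mem_filter, mem_range, Nat.lt_succ_iff]
  have hS'card : (S'.card : ℝ) ≤ Real.log L ^ (2 * k + 4) := by
    refine le_trans (le_of_eq ?_) ht4
    rw [hS']
  have hS'large : ∀ q ∈ S', (L : ℝ) ^ (1 / (t : ℝ)) < q := by
    intro q hq
    obtain ⟨h1, h2, h3, e, he, h4⟩ := (hS'm q).1 hq
    by_contra hcon
    exact ht3 e he q h2 h3 (not_lt.1 hcon) h4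
  have hS'sum : ∑ q ∈ S', (1 : ℝ) / q ≤ 6 / A ^ 2 := by
    have hTp : 0 < T ^ (1 / (t : ℝ)) := Real.rpow_pos_of_pos hT0 _
    have h1 : ∀ q ∈ S', (1 : ℝ) / q ≤ 1 / T ^ (1 / (t : ℝ)) := by
      intro q hq
      apply one_div_le_one_div_of_le hTp
      exact hz.trans (hS'large q hq).le
    have h2 := sum_le_card_nsmul _ _ _ h1
    rw [nsmul_eq_mul] at h2
    refine h2.trans ?_
    have h3 : (S'.card : ℝ) ≤ (2 * A) ^ (2 * k + 4) := hS'card.trans (pow_le_pow_left₀ hlL0 hlL _)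
    rw [mul_one_div, div_le_div_iff₀ hTp (by positivity)]
    calc (S'.card : ℝ) * A ^ 2 ≤ (2 * A) ^ (2 * k + 4) * A ^ 2 := by gcongr
      _ ≤ _ := b1
  have hz2 : 2 ≤ z2 X := by
    have h1 : Real.log (Real.log X) ^ 3 ≤ (z2 X : ℝ) := by
      unfold z2
      exact Nat.le_ceil _
    have h2 : (2 : ℝ) ≤ Real.log (Real.log X) ^ 3 := by
      rw [← hT, ← hA]
      nlinarith [sq_nonneg A]
    have : (2 : ℝ) ≤ (z2 X : ℝ) := h2.trans h1
    exact_mod_cast this
  have hSS : ∀ q ∈ S ∪ S', q.Prime ∧ 2 < q := by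
    intro q hq
    rw [mem_union] at hq
    rcases hq with hq | hq
    · exact ⟨(hS.1 q hq).1, by have := (hS.1 q hq).2.1; omega⟩
    · refine ⟨((hS'm q).1 hq).2.1, ?_⟩
      have h4 := hS'large q hq
      have h5 : (2 : ℝ) < q := by nlinarith
      exact_mod_cast h5
  have hSSsum : ∑ q ∈ S ∪ S', (1 : ℝ) / q ≤ 12 / (Real.log y') ^ 2 := by
    have h1 : ∑ q ∈ S ∪ S', (1 : ℝ) / q ≤ ∑ q ∈ S, (1 : ℝ) / q + ∑ q ∈ S', (1 : ℝ) / q := by
      rw [← sum_union_inter]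
      have : 0 ≤ ∑ q ∈ S ∩ S', (1 : ℝ) / q := sum_nonneg fun q _ => by positivity
      linarith
    have h2 := hS.2
    rw [← hT, ← hA] at h2
    have h3 : (6 : ℝ) / A ^ 2 + 6 / A ^ 2 ≤ 12 / (Real.log y') ^ 2 := by
      rw [← add_div, show (6 : ℝ) + 6 = 12 by norm_num]
      apply div_le_div_of_nonneg_left (by norm_num) (by positivity)
      gcongr
    linarith
  have hps' : ps = 1 ∨ (ps.Prime ∧ 2 < ps) := hps
  -- the classes
  obtain ⟨τ, hτ1, hτ2⟩ := enum k E' hE'0 hE'k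
  obtain ⟨N', hN'⟩ : ∃ N' : Fin m → ℤ, N' = fun w => N w + L + t₀ - D₁ := ⟨_, rfl⟩
  obtain ⟨b, hb1, hb2, hb3⟩ := hrs y' hyy0 (S ∪ S') ps hSS hSSsum hps' (3 * L) hyH hHy τ (by
    intro j p hp hd
    obtain ⟨h1, h2, h3, h4, h5⟩ := hp
    apply h3
    rw [mem_union, hS'm]
    refine Or.inr ⟨h2, h1, h5, ?_⟩
    obtain ⟨e, he, h6⟩ := (hE'm (τ j)).1 (hτ1 j)
    refine ⟨e + L, (hFm _).2 ⟨e, he, rfl⟩, ?_⟩
    rw [show (t₀ : ℤ) + (e + L) = e + L + t₀ by ring, h6]
    exact hd) N' (2 * D₁) hD₁y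
  -- the uncovered points
  obtain ⟨U0, hU0⟩ : ∃ U0 : Finset ℤ, U0 = (Icc (0 : ℤ) ((3 * L : ℕ) : ℤ)).filter (fun x => (∀ j, x ≠ τ j) ∧
    ∀ p : ℕ, AvB A0 (S ∪ S') ps y' p → ¬ x ≡ b p [ZMOD p]) := ⟨_, rfl⟩
  obtain ⟨U1, hU1⟩ : ∃ U1 : Fin m → Finset ℤ, U1 = fun w => (Icc (N' w) (N' w + ((2 * D₁ : ℕ) : ℤ))).filter (fun x => (∀ j, x ≠ τ j) ∧
    ∀ p : ℕ, AvB A0 (S ∪ S') ps y' p → ¬ x ≡ b p [ZMOD p]) := ⟨_, rfl⟩
  have hU0m : ∀ x, x ∈ U0 ↔ (0 ≤ x ∧ x ≤ ((3 * L : ℕ) : ℤ)) ∧ (∀ j, x ≠ τ j) ∧ ∀ p : ℕ, AvB A0 (S ∪ S') ps y' p → ¬ x ≡ b p [ZMOD p] := by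
    intro x; rw [hU0, mem_filter, mem_Icc]
  have hU1m : ∀ w x, x ∈ U1 w ↔ (N' w ≤ x ∧ x ≤ N' w + ((2 * D₁ : ℕ) : ℤ)) ∧ (∀ j, x ≠ τ j) ∧ ∀ p : ℕ, AvB A0 (S ∪ S') ps y' p → ¬ x ≡ b p [ZMOD p] := by
    intro w x; rw [hU1]; dsimp only; rw [mem_filter, mem_Icc]
  have hU0c : (U0.card : ℝ) ≤ C * ((3 * L : ℕ) : ℝ) * (Real.log (Real.log y')) ^ 2 /
      ((Real.log y') ^ 2 * Real.log (Real.log (Real.log y'))) := by
    apply hb2
    intro x hx
    obtain ⟨⟨h1, h2⟩, h3, h4⟩ := (hU0m x).1 hx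
    exact ⟨h1, h2, h3, h4⟩
  have hU1c : ∀ w, ((U1 w).card : ℝ) ≤ C * (((2 * D₁ : ℕ) : ℝ) / Real.log y' + y' / (Real.log y') ^ 2) := by
    intro w
    apply hb3 w
    intro x hx
    obtain ⟨⟨h1, h2⟩, h3, h4⟩ := (hU1m w x).1 hx
    exact ⟨h1, h2, h3, h4⟩
  obtain ⟨U, hU⟩ : ∃ U : Finset ℤ, U = U0 ∪ univ.biUnion U1 := ⟨_, rfl⟩
  have hUE : ∀ u ∈ U, u ∉ E' := by
    intro u hu huE
    obtain ⟨j, hj⟩ := hτ2 u huE
    rw [hU, mem_union, mem_biUnion] at hu
    rcases hu with hu | ⟨w, -, hu⟩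
    · exact ((hU0m u).1 hu).2.1 j hj.symm
    · exact ((hU1m w u).1 hu).2.1 j hj.symm
  have hTA : 0 < T / A := by positivity
  have hUc : (U.card : ℝ) ≤ 3 / (200000 * k) * (T / A) := by
    have h1 : (U.card : ℝ) ≤ U0.card + ∑ w, ((U1 w).card : ℝ) := by
      have h2 : U.card ≤ U0.card + ∑ w, (U1 w).card := by
        rw [hU]
        exact (card_union_le _ _).trans (Nat.add_le_add_left card_biUnion_le _)
      exact_mod_cast h2
    have h2 : (U0.card : ℝ) ≤ 1 / (200000 * k) * (T / A) := by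
      refine hU0c.trans ?_
      push_cast
      calc C * (3 * (L : ℝ)) * (Real.log (Real.log y')) ^ 2 / ((Real.log y') ^ 2 * Real.log (Real.log (Real.log y')))
          ≤ C * (3 * (c * Rk X)) * B ^ 2 / ((A / 2) ^ 2 * (D / 2)) := by gcongr
        _ = 24 * C * c * (T / A) := by
            rw [hR]
            field_simp
            ring
        _ ≤ 24 * C * (1 / (4800000 * C * k * (m + 1))) * (T / A) := by gcongr
        _ = 1 / (200000 * k) * (1 / (m + 1)) * (T / A) := by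
            field_simp
            ring
        _ ≤ 1 / (200000 * k) * 1 * (T / A) := by
            have : 1 / ((m : ℝ) + 1) ≤ 1 := by
              rw [div_le_one (by positivity)]
              linarith
            gcongr
        _ = _ := by ring
    have h3 : ∀ w, ((U1 w).card : ℝ) ≤ C * (4 * c * (T / A)) + C * (1 / (2000 * A)) * (T / A) := by
      intro w
      refine (hU1c w).trans ?_
      push_cast
      calc C * (2 * (D₁ : ℝ) / Real.log y' + y' / (Real.log y') ^ 2)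
          ≤ C * (2 * (c * T) / (A / 2) + (T / 8000) / (A / 2) ^ 2) := by gcongr
        _ = _ := by
            field_simp
            ring
    have h4 : ∑ w : Fin m, ((U1 w).card : ℝ) ≤ m * (C * (4 * c * (T / A)) + C * (1 / (2000 * A)) * (T / A)) := by
      have := sum_le_card_nsmul (univ : Finset (Fin m)) _ _ (fun w _ => h3 w)
      rwa [nsmul_eq_mul, card_univ, Fintype.card_fin] at this
    have h5 : m * (C * (4 * c * (T / A))) ≤ 1 / (200000 * k) * (T / A) := by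
      calc m * (C * (4 * c * (T / A))) ≤ m * (C * (4 * (1 / (4800000 * C * k * (m + 1))) * (T / A))) := by gcongr
        _ = 1 / (200000 * k) * (1 / 6 * (m / (m + 1))) * (T / A) := by
            field_simp
            ring
        _ ≤ 1 / (200000 * k) * 1 * (T / A) := by
            have : (m : ℝ) / (m + 1) ≤ 1 := by
              rw [div_le_one (by positivity)]
              linarith
            gcongr
            linarith
        _ = _ := by ring
    have h6 : m * (C * (1 / (2000 * A)) * (T / A)) ≤ 1 / (200000 * k) * (T / A) := by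
      rw [show m * (C * (1 / (2000 * A)) * (T / A)) = m * C / (2000 * A) * (T / A) by ring]
      refine mul_le_mul_of_nonneg_right ?_ hTA.le
      rw [div_le_div_iff₀ (by positivity) (by positivity)]
      nlinarith
    have h7 : 3 / (200000 * (k : ℝ)) * (T / A) = 1 / (200000 * k) * (T / A) + (1 / (200000 * k) * (T / A) + 1 / (200000 * k) * (T / A)) := by
      ring
    rw [h7]
    linarith [mul_add (m : ℝ) (C * (4 * c * (T / A))) (C * (1 / (2000 * A)) * (T / A))]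
  -- available primes
  obtain ⟨P0, hP0⟩ : ∃ P0 : Finset ℕ, P0 = (Ioc y' y).filter Nat.Prime := ⟨_, rfl⟩
  obtain ⟨P, hP⟩ : ∃ P : Finset ℕ, P = (Ioc y' y).filter (fun p => p.Prime ∧ p ∉ S ∧ p ≠ ps) := ⟨_, rfl⟩
  have hPm : ∀ p, p ∈ P ↔ (y' < p ∧ p ≤ y) ∧ p.Prime ∧ p ∉ S ∧ p ≠ ps := by
    intro p; rw [hP, mem_filter, mem_Ioc]
  have hP0c : 1 / 8000 * (T / A) ≤ (P0.card : ℝ) := by
    have h1 := hpr y hyn0
    rw [← hy', ← hP0] at h1
    refine le_trans ?_ h1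
    rw [show 1 / 8000 * (T / A) = T / (8000 * A) by field_simp]
    rw [div_le_div_iff₀ (by positivity) (by positivity)]
    have h3 : T * Real.log y ≤ T * A := by gcongr
    have h4 : T * A ≤ 2000 * y * A := by
      have : T ≤ 2000 * y := by linarith
      gcongr
    nlinarith
  have hKTA : K ≤ T / A := by
    rw [le_div_iff₀ hA0]
    exact a11
  have hPc : 1 / 20000 * (T / A) ≤ P.card := by
    have h1 : P0 ⊆ P ∪ ((S.filter (fun q => y' < q)) ∪ {ps}) := by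
      intro p hp
      rw [hP0, mem_filter, mem_Ioc] at hp
      rw [mem_union, hPm]
      by_cases h1 : p ∈ S
      · exact Or.inr (mem_union.2 (Or.inl (mem_filter.2 ⟨h1, hp.1.1⟩)))
      by_cases h3 : p = ps
      · exact Or.inr (mem_union.2 (Or.inr (mem_singleton.2 h3)))
      exact Or.inl ⟨hp.1, hp.2, h1, h3⟩
    have h2 : P0.card ≤ P.card + ((S.filter (fun q => y' < q)).card + 1) := by
      refine (card_le_card h1).trans ((card_union_le _ _).trans ?_)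
      apply Nat.add_le_add_left
      refine (card_union_le _ _).trans ?_
      rw [card_singleton]
    have h3 : (P0.card : ℝ) ≤ P.card + ((S.filter (fun q => y' < q)).card + 1) := by exact_mod_cast h2
    have h4 : ((S.filter (fun q => y' < q)).card : ℝ) ≤ 1 / 80000 * (T / A) := by
      have h5 : ∀ q ∈ S.filter (fun q => y' < q), (1 : ℝ) / y ≤ 1 / q := by
        intro q hq
        rw [mem_filter] at hq
        have h6 := (hS.1 q hq.1).2.2
        rw [← hy] at h6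
        apply one_div_le_one_div_of_le
        · exact_mod_cast (hS.1 q hq.1).1.pos
        · exact_mod_cast h6
      have h6 := card_nsmul_le_sum _ _ _ h5
      have h7 : ∑ q ∈ S.filter (fun q => y' < q), (1 : ℝ) / q ≤ ∑ q ∈ S, (1 : ℝ) / q :=
        sum_le_sum_of_subset_of_nonneg (filter_subset _ _) (fun _ _ _ => by positivity)
      have h8 := hS.2
      rw [← hT, ← hA] at h8
      rw [nsmul_eq_mul] at h6
      have hy0 : (0 : ℝ) < y := by linarith [show 0 < T / 2000 by positivity]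
      have h9 : ((S.filter (fun q => y' < q)).card : ℝ) ≤ 6 / A ^ 2 * y := by
        have h10 := h6.trans (h7.trans h8)
        rw [mul_one_div, div_le_iff₀ hy0] at h10
        exact h10
      refine h9.trans ?_
      calc 6 / A ^ 2 * y ≤ 6 / A ^ 2 * (T / 1000) := by gcongr
        _ = 6 / 1000 * (T / A) * (1 / A) := by field_simp
        _ ≤ 6 / 1000 * (T / A) * (1 / 160000) := by
          gcongr
        _ ≤ 1 / 80000 * (T / A) := by
          linarith
    linarith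
  have hUP : 2 * k * U.card < P.card := by
    have h1 : ((2 * k * U.card : ℕ) : ℝ) < P.card := by
      push_cast
      refine lt_of_lt_of_le ?_ hPc
      calc 2 * (k : ℝ) * U.card ≤ 2 * k * (3 / (200000 * k) * (T / A)) := by gcongr
        _ = 3 / 100000 * (T / A) := by
            field_simp
            ring
        _ < 1 / 20000 * (T / A) := by linarith
    exact_mod_cast h1
  have hPk : 4 * k ^ 3 < P.card := by
    have h1 : ((4 * k ^ 3 : ℕ) : ℝ) < P.card := by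
      push_cast
      refine lt_of_lt_of_le ?_ hPc
      have h2 : 1 / 20000 * K ≤ 1 / 20000 * (T / A) := by gcongr
      refine lt_of_lt_of_le ?_ h2
      rw [hKdef]
      linarith
    exact_mod_cast h1
  -- the last step
  obtain ⟨g, Z, hZU, hg1, hg2, hg3, hg4⟩ := hASG k y' P E' U hk hky' hE'0 hE'k (fun p hp => ⟨((hPm p).1 hp).2.1, ((hPm p).1 hp).1.1⟩)
    hPk hUE hUP
  -- the class
  have hWW : ∀ p : ℕ, p.Prime → (p ∣ WW X S ps ↔ p ≤ y ∧ p ∉ S ∧ p ≠ ps) := by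
    intro p hp
    unfold WW
    rw [hp.prime.dvd_finsetProd_iff]
    constructor
    · rintro ⟨q, hq, hd⟩
      unfold PW at hq
      rw [mem_filter, mem_Icc, ← hy] at hq
      have h3 := (Nat.prime_dvd_prime_iff_eq hp hq.2.1).1 hd
      subst h3
      exact ⟨hq.1.2, hq.2.2.1, hq.2.2.2⟩
    · rintro ⟨h3, h4, h5⟩
      refine ⟨p, ?_, dvd_refl p⟩
      unfold PW
      rw [mem_filter, mem_Icc, ← hy]
      exact ⟨⟨hp.pos, h3⟩, hp, h4, h5⟩
  have hcl : ∀ p : ℕ, ∃ r : ℤ, p.Prime → ¬ p ∣ A0 → ∀ e ∈ E', ¬ (p : ℤ) ∣ r + e := by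
    intro p
    by_cases hp : p.Prime
    · by_cases hpA : p ∣ A0
      · exact ⟨0, fun _ h => absurd hpA h⟩
      · obtain ⟨r, hr⟩ := hadm p hp hpA
        refine ⟨r - L - t₀, fun _ _ x hx => ?_⟩
        obtain ⟨e, he, rfl⟩ := (hE'm x).1 hx
        have := hr e he
        rwa [show r - L - t₀ + (e + L + t₀) = r + e by ring]
    · exact ⟨0, fun h => absurd h hp⟩
  choose cl hcl' using hcl
  obtain ⟨a₀, ha₀⟩ := crt_int ((Icc 1 y).filter Nat.Prime) (fun p hp => (mem_filter.1 hp).2)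
    (fun p => if p ≤ y' then (if p ∈ S' then cl p else -(b p : ℤ)) else g p)
  have hac : ∀ p : ℕ, p.Prime → p ≤ y → (p : ℤ) ∣ a₀ - (if p ≤ y' then (if p ∈ S' then cl p else -(b p : ℤ)) else g p) := by
    intro p hp hpy
    exact ha₀ p (mem_filter.2 ⟨mem_Icc.2 ⟨hp.pos, hpy⟩, hp⟩)
  have hA_E : ∀ x ∈ E', ∀ p : ℕ, p.Prime → ¬ p ∣ A0 → p ∣ WW X S ps → ¬ (p : ℤ) ∣ a₀ + x := by
    intro x hx p hp hpA hpW hd
    obtain ⟨h1, h2, h3⟩ := (hWW p hp).1 hpW
    have h4 := hac p hp h1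
    by_cases h5 : p ≤ y'
    · by_cases h6 : p ∈ S'
      · rw [if_pos h5, if_pos h6] at h4
        apply hcl' p hp hpA x hx
        have := dvd_sub hd h4
        rwa [show a₀ + x - (a₀ - cl p) = cl p + x by ring] at this
      · rw [if_pos h5, if_neg h6] at h4
        obtain ⟨j, rfl⟩ := hτ2 x hx
        apply hb1 p ⟨hp, h5, by rw [mem_union, not_or]; exact ⟨h2, h6⟩, h3, hpA⟩ j
        rw [Int.modEq_iff_dvd]
        have := dvd_sub h4 hd
        rwa [show a₀ - -(b p : ℤ) - (a₀ + τ j) = b p - τ j by ring] at this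
    · rw [if_neg h5] at h4
      apply hg1 p ((hPm p).2 ⟨⟨not_le.1 h5, h1⟩, hp, h2, h3⟩) x hx
      have := dvd_sub hd h4
      rwa [show a₀ + x - (a₀ - g p) = g p + x by ring] at this
  -- uncovered points are in U
  have hcov : ∀ x : ℤ, x ∉ E' → x ∉ Z → ((0 ≤ x ∧ x ≤ ((3 * L : ℕ) : ℤ)) ∨ ∃ w, N' w ≤ x ∧ x ≤ N' w + ((2 * D₁ : ℕ) : ℤ)) →
      ∃ p : ℕ, p.Prime ∧ ¬ p ∣ A0 ∧ p ∣ WW X S ps ∧ (p : ℤ) ∣ a₀ + x := by
    intro x hxE hxZ hx
    by_cases hex : ∃ p : ℕ, AvB A0 (S ∪ S') ps y' p ∧ x ≡ b p [ZMOD p]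
    · obtain ⟨p, ⟨h1, h2, h3, h4, h5⟩, h6⟩ := hex
      rw [mem_union, not_or] at h3
      refine ⟨p, h1, h5, (hWW p h1).2 ⟨h2.trans hy'y, h3.1, h4⟩, ?_⟩
      have h7 := hac p h1 (h2.trans hy'y)
      rw [if_pos h2, if_neg h3.2] at h7
      have h8 := (Int.modEq_iff_dvd).1 h6
      have := dvd_sub h7 h8
      rwa [show a₀ - -(b p : ℤ) - (b p - x) = a₀ + x by ring] at this
    · have hxU : x ∈ U := by
        have h1 : (∀ j, x ≠ τ j) ∧ ∀ p : ℕ, AvB A0 (S ∪ S') ps y' p → ¬ x ≡ b p [ZMOD p] := by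
          refine ⟨fun j hj => hxE (by rw [hj]; exact hτ1 j), fun p hp h => hex ⟨p, hp, h⟩⟩
        rw [hU, mem_union, mem_biUnion]
        rcases hx with hx | ⟨w, hx⟩
        · exact Or.inl ((hU0m x).2 ⟨hx, h1⟩)
        · exact Or.inr ⟨w, mem_univ _, (hU1m w x).2 ⟨hx, h1⟩⟩
      obtain ⟨p, hp, h1⟩ := hg2 x hxU hxZ
      obtain ⟨⟨h2, h3⟩, h4, h5, h6⟩ := (hPm p).1 hp
      refine ⟨p, h4, ?_, (hWW p h4).2 ⟨h3, h5, h6⟩, ?_⟩
      · intro hd
        have := Nat.le_of_dvd (by omega) hd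
        omega
      · have h7 := hac p h4 h3
        rw [if_neg (by omega)] at h7
        have := dvd_add h7 h1
        rwa [show a₀ - g p + (g p + x) = a₀ + x by ring] at this
  -- the exceptional sets
  obtain ⟨Z0, hZ0⟩ : ∃ Z0 : Finset ℤ, Z0 = (Z.filter (fun u => 0 ≤ u ∧ u ≤ ((3 * L : ℕ) : ℤ))).image (fun x => x - (L : ℤ) - (t₀ : ℤ)) := ⟨_, rfl⟩
  obtain ⟨Z1, hZ1⟩ : ∃ Z1 : Fin m → Finset ℤ, Z1 = fun w => (Z.filter (fun u => N' w ≤ u ∧ u ≤ N' w + ((2 * D₁ : ℕ) : ℤ))).image (fun x => x - (L : ℤ) - (t₀ : ℤ)) := ⟨_, rfl⟩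
  have hZZ : ∀ z : ℤ, (z ∈ Z0 ∨ ∃ w, z ∈ Z1 w) → z + L + t₀ ∈ Z := by
    intro z hz
    rcases hz with hz | ⟨w, hz⟩
    · rw [hZ0, mem_image] at hz
      obtain ⟨x, hx, rfl⟩ := hz
      rw [mem_filter] at hx
      rw [show x - L - t₀ + L + t₀ = x by ring]
      exact hx.1
    · rw [hZ1] at hz
      dsimp only at hz
      rw [mem_image] at hz
      obtain ⟨x, hx, rfl⟩ := hz
      rw [mem_filter] at hx
      rw [show x - L - t₀ + L + t₀ = x by ring]
      exact hx.1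
  refine ⟨a₀ + L + t₀, Z0, Z1, ?_, ?_, ?_, ?_, ?_, ?_⟩
  · intro e he p hp hpA hpW hd
    apply hA_E (e + L + t₀) ((hE'm2 e).2 he) p hp hpA hpW
    rwa [show a₀ + (e + L + t₀) = a₀ + L + t₀ + e by ring]
  · rw [hZ0, ← hE'c]
    refine lt_of_le_of_lt card_image_le ?_
    refine hg3 0 ((3 * L : ℕ) : ℤ) ?_ ⟨0 + L + t₀, (hE'm2 0).2 h0E, ?_, ?_⟩
    · rw [sub_zero]
      exact_mod_cast hHt
    · positivity
    · push_cast
      have : (t₀ : ℤ) ≤ L := by exact_mod_cast ht2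
      have : (0 : ℤ) ≤ L := Int.natCast_nonneg L
      linarith
  · intro w
    rw [hZ1, ← hE'c]
    dsimp only
    refine lt_of_le_of_lt card_image_le ?_
    refine hg3 (N' w) (N' w + ((2 * D₁ : ℕ) : ℤ)) ?_ ⟨N w + L + t₀, (hE'm2 (N w)).2 (hNE w), ?_, ?_⟩
    · rw [add_sub_cancel_left]
      have h1 : 2 * D₁ < y' ^ 2 := by
        have : 2 ≤ y' := by
          have : (2 : ℝ) ≤ y' := by linarith
          exact_mod_cast this
        nlinarith
      exact_mod_cast h1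
    · rw [hN']
      dsimp only
      have : (0 : ℤ) ≤ D₁ := Int.natCast_nonneg _
      linarith
    · rw [hN']
      dsimp only
      push_cast
      have : (0 : ℤ) ≤ D₁ := Int.natCast_nonneg _
      linarith
  · intro s hs hsE hsZ
    have hsL : |s| ≤ (L : ℤ) := by
      have h1 : ((s.natAbs : ℕ) : ℝ) ≤ c * Rk X := by
        rw [Nat.cast_natAbs]
        push_cast
        exact hs
      have h2 : s.natAbs ≤ L := by rw [hL]; exact Nat.le_floor h1
      rw [Int.abs_eq_natAbs]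
      exact_mod_cast h2
    rw [abs_le] at hsL
    have ht2' : (t₀ : ℤ) ≤ L := by exact_mod_cast ht2
    have ht1' : (1 : ℤ) ≤ t₀ := by exact_mod_cast ht1
    have hr : 0 ≤ s + L + t₀ ∧ s + L + t₀ ≤ ((3 * L : ℕ) : ℤ) := by
      push_cast
      constructor <;> linarith [hsL.1, hsL.2]
    obtain ⟨p, h1, h2, h3, h4⟩ := hcov (s + L + t₀) (fun h => hsE ((hE'm2 s).1 h)) (fun h => hsZ (by
      rw [hZ0, mem_image]
      exact ⟨s + L + t₀, mem_filter.2 ⟨h, hr⟩, by ring⟩)) (Or.inl hr)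
    exact ⟨p, h1, h2, h3, by rwa [show a₀ + L + t₀ + s = a₀ + (s + L + t₀) by ring]⟩
  · intro w s hs hsE hsZ
    have hsD : |s - N w| ≤ (D₁ : ℤ) := by
      have h1 : (((s - N w).natAbs : ℕ) : ℝ) ≤ c * T := by
        rw [Nat.cast_natAbs, hT, Int.cast_abs]
        exact hs
      have h2 : (s - N w).natAbs ≤ D₁ := by rw [hD₁]; exact Nat.le_floor h1
      rw [Int.abs_eq_natAbs]
      exact_mod_cast h2
    rw [abs_le] at hsD
    have hr : N' w ≤ s + L + t₀ ∧ s + L + t₀ ≤ N' w + ((2 * D₁ : ℕ) : ℤ) := by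
      rw [hN']
      dsimp only
      push_cast
      constructor <;> linarith [hsD.1, hsD.2]
    obtain ⟨p, h1, h2, h3, h4⟩ := hcov (s + L + t₀) (fun h => hsE ((hE'm2 s).1 h)) (fun h => hsZ (by
      rw [hZ1]
      dsimp only
      rw [mem_image]
      exact ⟨s + L + t₀, mem_filter.2 ⟨h, hr⟩, by ring⟩)) (Or.inr ⟨w, hr⟩)
    exact ⟨p, h1, h2, h3, by rwa [show a₀ + L + t₀ + s = a₀ + (s + L + t₀) by ring]⟩
  · intro z hz
    have hzZ := hZZ z hz
    have hzE' := hUE _ (hZU hzZ)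
    refine ⟨fun h => hzE' ((hE'm2 z).2 h), ?_⟩
    obtain ⟨x, hx, h1⟩ := hg4 _ hzZ
    obtain ⟨e, he, rfl⟩ := (hE'm x).1 hx
    refine ⟨e, he, ?_⟩
    have hze : z - e ≠ 0 := by
      intro h
      apply hzE'
      rw [hE'm2]
      have : z = e := by linarith
      rwa [this]
    have h2 : P.filter (fun p : ℕ => (p : ℤ) ∣ z + L + t₀ - (e + L + t₀)) ⊆
        (z - e).natAbs.primeFactors.filter (fun p : ℕ => (p : ℝ) ≤ Real.log X) := by
      intro p hp
      rw [mem_filter, hPm] at hp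
      obtain ⟨⟨⟨h3, h4⟩, h5, h6, h7⟩, h8⟩ := hp
      rw [mem_filter, Nat.mem_primeFactors]
      refine ⟨⟨h5, ?_, ?_⟩, ?_⟩
      · rw [← Int.natCast_dvd]
        rwa [show z + L + t₀ - (e + L + t₀) = z - e by ring] at h8
      · rwa [Int.natAbs_ne_zero]
      · rw [← hT]
        have : (p : ℝ) ≤ y := by exact_mod_cast h4
        linarith
    have h3 : (P.card : ℝ) ≤ 2 * k * (((z - e).natAbs.primeFactors.filter (fun p : ℕ => (p : ℝ) ≤ Real.log X)).card : ℝ) := by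
      have h4 := h1.trans (Nat.mul_le_mul_left (2 * k) (card_le_card h2))
      exact_mod_cast h4
    rw [← hT, ← hA]
    have h4 : 2 * k * (c * (T / A)) ≤ 1 / 20000 * (T / A) := by
      calc 2 * k * (c * (T / A)) ≤ 2 * k * (1 / (40000 * k) * (T / A)) := by gcongr
        _ = _ := by
            field_simp
            ring
    have h5 : 2 * (k : ℝ) * (c * (T / A)) ≤ 2 * k * (((z - e).natAbs.primeFactors.filter (fun p : ℕ => (p : ℝ) ≤ Real.log X)).card : ℝ) :=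
      h4.trans (hPc.trans h3)
    rw [hT] at h5 ⊢
    exact le_of_mul_le_mul_left h5 (by positivity)

end Pool.Agent.Q117.LF
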