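import Pool.Agent.Q117.LF.Stm3

/-!
# Project LF, job CRC (helper53): admissible classes modulo a squarefree number
-/

set_option autoImplicit false

namespace Pool.Agent.Q117.LF.CRCJ

open Finset

open Classical in
theorem count_step (bad : ℕ → ℕ → Prop) (hb : ∀ p n n', n ≡ n' [MOD p] → (bad p n ↔ bad p n'))
    (q u M p : ℕ) (hM : 0 < M) (hp : p.Prime) (hc : M.Coprime p) (S : Finset ℕ)
    (hqM : q ∣ M) (hSM : ∀ r ∈ S, r ∣ M) :
    ((range (M * p)).filter (fun n => n ≡ u [MOD q] ∧ (∀ r ∈ S, ¬ bad r n) ∧ ¬ bad p n)).card =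
      ((range M).filter (fun n => n ≡ u [MOD q] ∧ ∀ r ∈ S, ¬ bad r n)).card *
        ((range p).filter (fun n => ¬ bad p n)).card := by
  rw [← Finset.card_product]
  refine Finset.card_bij (fun n _ => (n % M, n % p)) ?_ ?_ ?_
  · intro n hn
    simp only [Finset.mem_filter, Finset.mem_range, Finset.mem_product] at hn ⊢
    obtain ⟨hn, h1, h2, h3⟩ := hn
    have hnM : n % M ≡ n [MOD M] := Nat.mod_modEq n M
    refine ⟨⟨Nat.mod_lt _ hM, (hnM.of_dvd hqM).trans h1, fun r hr hbad => h2 r hr ?_⟩,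
      Nat.mod_lt _ hp.pos, fun hbad => h3 ?_⟩
    · exact (hb r _ _ (hnM.of_dvd (hSM r hr))).1 hbad
    · exact (hb p _ _ (Nat.mod_modEq n p)).1 hbad
  · intro n hn n' hn' h
    simp only [Finset.mem_filter, Finset.mem_range] at hn hn'
    have h1 : n ≡ n' [MOD M] := congrArg Prod.fst h
    have h2 : n ≡ n' [MOD p] := congrArg Prod.snd h
    have h3 : n ≡ n' [MOD M * p] := (Nat.modEq_and_modEq_iff_modEq_mul hc).1 ⟨h1, h2⟩
    exact h3.eq_of_lt_of_lt hn.1 hn'.1
  · rintro ⟨a, b⟩ hab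
    simp only [Finset.mem_filter, Finset.mem_range, Finset.mem_product] at hab
    obtain ⟨⟨ha, h1, h2⟩, hbp, h3⟩ := hab
    set k := Nat.chineseRemainder hc a b with hk
    have k1 : (k : ℕ) ≡ a [MOD M] := k.2.1
    have k2 : (k : ℕ) ≡ b [MOD p] := k.2.2
    have k3 : (k : ℕ) < M * p := Nat.chineseRemainder_lt_mul hc a b hM.ne' hp.ne_zero
    refine ⟨k, ?_, ?_⟩
    · simp only [Finset.mem_filter, Finset.mem_range]
      refine ⟨k3, (k1.of_dvd hqM).trans h1, fun r hr hbad => h2 r hr ?_, fun hbad => h3 ?_⟩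
      · exact (hb r _ _ (k1.of_dvd (hSM r hr))).1 hbad
      · exact (hb p _ _ k2).1 hbad
    · have e1 : (k : ℕ) % M = a := by
        have := k1
        unfold Nat.ModEq at this
        rw [this, Nat.mod_eq_of_lt ha]
      have e2 : (k : ℕ) % p = b := by
        have := k2
        unfold Nat.ModEq at this
        rw [this, Nat.mod_eq_of_lt hbp]
      exact Prod.ext e1 e2

open Classical in
theorem count (bad : ℕ → ℕ → Prop) (hb : ∀ p n n', n ≡ n' [MOD p] → (bad p n ↔ bad p n'))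
    (q u : ℕ) (hq : 1 ≤ q) (S : Finset ℕ) (hS : ∀ p ∈ S, p.Prime ∧ ¬ p ∣ q) :
    ((range (q * ∏ p ∈ S, p)).filter (fun n => n ≡ u [MOD q] ∧ ∀ p ∈ S, ¬ bad p n)).card =
      ∏ p ∈ S, ((range p).filter (fun n => ¬ bad p n)).card := by
  induction S using Finset.induction_on with
  | empty =>
    simp only [Finset.prod_empty, mul_one, Finset.notMem_empty, false_imp_iff, implies_true,
      and_true]
    rw [Finset.card_eq_one]
    refine ⟨u % q, ?_⟩
    ext n
    simp only [Finset.mem_filter, Finset.mem_range, Finset.mem_singleton]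
    constructor
    · rintro ⟨h1, h2⟩
      unfold Nat.ModEq at h2
      rw [Nat.mod_eq_of_lt h1] at h2
      exact h2
    · rintro rfl
      exact ⟨Nat.mod_lt _ hq, Nat.mod_modEq _ _⟩
  | insert p S hpS ih =>
    have hS' : ∀ p ∈ S, p.Prime ∧ ¬ p ∣ q := fun r hr => hS r (Finset.mem_insert_of_mem hr)
    have hp := hS p (Finset.mem_insert_self p S)
    have ihS := ih hS'
    rw [Finset.prod_insert hpS, Finset.prod_insert hpS]
    have hpos : 0 < q * ∏ r ∈ S, r :=
      Nat.mul_pos hq (Finset.prod_pos (fun r hr => (hS' r hr).1.pos))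
    have hc : (q * ∏ r ∈ S, r).Coprime p := by
      refine Nat.Coprime.mul_left ?_ ?_
      · exact ((Nat.Prime.coprime_iff_not_dvd hp.1).2 hp.2).symm
      · refine Nat.Coprime.prod_left (fun r hr => ?_)
        refine (Nat.coprime_primes (hS' r hr).1 hp.1).2 ?_
        rintro rfl
        exact hpS hr
    have h := count_step bad hb q u (q * ∏ r ∈ S, r) p hpos hp.1 hc S (Dvd.intro _ rfl)
      (fun r hr => (Finset.dvd_prod_of_mem _ hr).mul_left q)
    have e1 : q * (p * ∏ r ∈ S, r) = (q * ∏ r ∈ S, r) * p := by ring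
    rw [e1, ← ihS, mul_comm (Finset.card _) (Finset.card _), ← h]
    congr 1
    ext n
    simp only [Finset.mem_filter, Finset.mem_range, Finset.mem_insert, forall_eq_or_imp]
    tauto

theorem dvd_fm_iff {k : ℕ} (al : Fin k → ℕ) (be : Fin k → ℤ) (l : Fin k) (p n n' : ℕ)
    (h : n ≡ n' [MOD p]) : (p : ℤ) ∣ fm al be l n ↔ (p : ℤ) ∣ fm al be l n' := by
  have h1 : (n : ℤ) ≡ n' [ZMOD p] := (Int.natCast_modEq_iff).2 h
  have h2 : fm al be l n ≡ fm al be l n' [ZMOD p] := by
    unfold fm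
    exact (h1.mul_left _).add_right _
  exact Int.ModEq.dvd_iff h2

open Classical in
theorem crc_main (k : ℕ) (al : Fin k → ℕ) (be : Fin k → ℤ) (W q u : ℕ) (hW : 1 ≤ W)
    (hsq : Squarefree W) (hqW : q ∣ W)
    (hu : ∀ p : ℕ, p.Prime → p ∣ q → ∀ l, ¬ (p : ℤ) ∣ fm al be l u)
    (G : Finset ℕ) (hG : ∀ n₀, n₀ ∈ G ↔ n₀ < W ∧ n₀ ≡ u [MOD q] ∧
      ∀ p : ℕ, p.Prime → p ∣ W → ∀ l, ¬ (p : ℤ) ∣ fm al be l n₀) :
    (G.card : ℝ) = (W : ℝ) / q *
      ∏ p ∈ W.primeFactors.filter (fun p => ¬ p ∣ q), (1 - (om al be p : ℝ) / p) := by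
  set bad : ℕ → ℕ → Prop := fun p n => ∃ l, (p : ℤ) ∣ fm al be l n with hbad
  have hb : ∀ p n n', n ≡ n' [MOD p] → (bad p n ↔ bad p n') := by
    intro p n n' h
    exact exists_congr (fun l => dvd_fm_iff al be l p n n' h)
  have hq1 : 1 ≤ q := Nat.pos_of_dvd_of_pos hqW hW
  set S := W.primeFactors.filter (fun p => ¬ p ∣ q) with hSdef
  have hS : ∀ p ∈ S, p.Prime ∧ ¬ p ∣ q := by
    intro p hp
    rw [hSdef, Finset.mem_filter] at hp
    exact ⟨Nat.prime_of_mem_primeFactors hp.1, hp.2⟩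
  have hqsq : Squarefree q := hsq.squarefree_of_dvd hqW
  have hprod : q * ∏ p ∈ S, p = W := by
    have h1 : ∏ p ∈ W.primeFactors, p = W := Nat.prod_primeFactors_of_squarefree hsq
    have h2 : ∏ p ∈ q.primeFactors, p = q := Nat.prod_primeFactors_of_squarefree hqsq
    have h3 : W.primeFactors.filter (fun p => p ∣ q) = q.primeFactors := by
      ext p
      rw [Finset.mem_filter, Nat.mem_primeFactors, Nat.mem_primeFactors]
      constructor
      · rintro ⟨⟨a, -, -⟩, b⟩
        exact ⟨a, b, by omega⟩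
      · rintro ⟨a, b, -⟩
        exact ⟨⟨a, b.trans hqW, by omega⟩, b⟩
    have h4 := Finset.prod_filter_mul_prod_filter_not W.primeFactors (fun p => p ∣ q) (fun p => p)
    rw [h3, h2, h1] at h4
    exact h4
  have hGe : G = (range (q * ∏ p ∈ S, p)).filter
      (fun n => n ≡ u [MOD q] ∧ ∀ p ∈ S, ¬ bad p n) := by
    ext n
    rw [hG, Finset.mem_filter, Finset.mem_range, hprod]
    constructor
    · rintro ⟨h1, h2, h3⟩
      refine ⟨h1, h2, fun p hp hbp => ?_⟩
      obtain ⟨l, hl⟩ := hbp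
      rw [hSdef, Finset.mem_filter] at hp
      exact h3 p (Nat.prime_of_mem_primeFactors hp.1) (Nat.dvd_of_mem_primeFactors hp.1) l hl
    · rintro ⟨h1, h2, h3⟩
      refine ⟨h1, h2, fun p hp hpW l hl => ?_⟩
      by_cases hpq : p ∣ q
      · exact hu p hp hpq l ((dvd_fm_iff al be l p n u (h2.of_dvd hpq)).1 hl)
      · exact h3 p (by
          rw [hSdef, Finset.mem_filter, Nat.mem_primeFactors]
          exact ⟨⟨hp, hpW, by omega⟩, hpq⟩) ⟨l, hl⟩
  have hcard : G.card = ∏ p ∈ S, ((range p).filter (fun n => ¬ bad p n)).card := by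
    rw [hGe]
    convert count bad hb q u hq1 S hS
  have hom : ∀ p ∈ S, (((range p).filter (fun n => ¬ bad p n)).card : ℝ) =
      p * (1 - (om al be p : ℝ) / p) := by
    intro p hp
    have hp0 : (p : ℝ) ≠ 0 := by
      exact_mod_cast (hS p hp).1.ne_zero
    have h1 := Finset.card_filter_add_card_filter_not (s := range p) (fun n => bad p n)
    rw [Finset.card_range] at h1
    have h2 : om al be p = ((range p).filter (fun n => bad p n)).card := by
      unfold om
      rfl
    rw [← h2] at h1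
    have h3 : (p : ℝ) = (om al be p : ℝ) + (((range p).filter (fun n => ¬ bad p n)).card : ℝ) := by
      exact_mod_cast h1.symm
    rw [mul_sub, mul_div_cancel₀ _ hp0]
    linarith
  rw [hcard, Nat.cast_prod, Finset.prod_congr rfl hom, Finset.prod_mul_distrib]
  congr 1
  have hq0 : (q : ℝ) ≠ 0 := by
    have : q ≠ 0 := by omega
    exact_mod_cast this
  rw [eq_div_iff hq0]
  rw [mul_comm]
  rw [← Nat.cast_prod]
  exact_mod_cast hprod

end Pool.Agent.Q117.LF.CRCJ

namespace Pool.Agent.Q117.LF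

theorem crc : St_CRC := by
  intro k al be W q u hW hsq hqW hu G hG
  exact CRCJ.crc_main k al be W q u hW hsq hqW hu G hG

end Pool.Agent.Q117.LF
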