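import Pool.Agent.Q117.LF.Stm2

/-!
# Windows around several slopes, with prescribed sets

Project LF, job FAMW. The covering follows `Pool/Agent/Q117/LF/Lpat.lean`.
-/

set_option autoImplicit false

namespace Pool.Agent.Q117.LF

open Finset Filter
open Pool.Agent.H378R2 (yy z2 GoodS GoodP WW)
open Pool.Agent.Q117.CR
open Pool.Agent.Q117.GP (Rk)

/-! ### Tools -/

lemma exists_posmin {ι : Type*} (s : Finset ι) (f : ι → ℝ) (hf : ∀ x ∈ s, 0 < f x) :
    ∃ c : ℝ, 0 < c ∧ ∀ x ∈ s, c ≤ f x := by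
  classical
  induction s using Finset.induction_on with
  | empty => exact ⟨1, one_pos, fun x hx => absurd hx (notMem_empty x)⟩
  | insert a s ha ih =>
    obtain ⟨c, hc, hcs⟩ := ih (fun x hx => hf x (mem_insert_of_mem hx))
    refine ⟨min c (f a), lt_min hc (hf a (mem_insert_self _ _)), ?_⟩
    intro x hx
    rw [mem_insert] at hx
    rcases hx with rfl | hx
    · exact min_le_right _ _
    · exact (min_le_left _ _).trans (hcs x hx)

lemma exists_maxR {ι : Type*} (s : Finset ι) (f : ι → ℝ) : ∃ C : ℝ, ∀ x ∈ s, f x ≤ C := by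
  classical
  refine ⟨∑ x ∈ s, |f x|, fun x hx => ?_⟩
  exact (le_abs_self _).trans (single_le_sum (f := fun x => |f x|) (fun y _ => abs_nonneg _) hx)

lemma exists_maxN {ι : Type*} (s : Finset ι) (f : ι → ℕ) : ∃ C : ℕ, 1 ≤ C ∧ ∀ x ∈ s, f x ≤ C := by
  classical
  refine ⟨∑ x ∈ s, f x + 1, by omega, fun x hx => ?_⟩
  have := single_le_sum (f := f) (fun y _ => Nat.zero_le _) hx
  omega

/-- more room for the small prime factors -/
lemma PtsC_mono {t t' : ℕ} (ht : 1 ≤ t) (htt : t ≤ t') {X : ℝ} (hX : 1 ≤ X) {k : ℕ} (al : Fin k → ℕ) (be : Fin k → ℤ)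
    (i j : Fin k) (W n₀ n : ℕ) (hn : n ∈ PtsC t X al be i j W n₀) : n ∈ PtsC t' X al be i j W n₀ := by
  classical
  unfold PtsC at hn ⊢
  rw [mem_filter] at hn ⊢
  obtain ⟨h1, h2, h3, h4, h5, h6, h7⟩ := hn
  refine ⟨h1, h2, h3, h4, h5, h6, fun l p hp hd => lt_of_le_of_lt ?_ (h7 l p hp hd)⟩
  apply Real.rpow_le_rpow_of_exponent_le hX
  apply one_div_le_one_div_of_le
  · exact_mod_cast ht
  · exact_mod_cast htt

/-- the scale of the modulus -/
lemma Sc_bounds (a b : ℕ) (ha : 1 ≤ a) (hb : 1 ≤ b) (X : ℝ) (hX : 1 ≤ X) :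
    X ≤ (Sc a b X : ℝ) ∧ (Sc a b X : ℝ) ≤ 8 * (a * b) * X := by
  have ha1 : (1 : ℝ) ≤ a := by exact_mod_cast ha
  have hb1 : (1 : ℝ) ≤ b := by exact_mod_cast hb
  have hab : (1 : ℝ) ≤ a * b := by nlinarith
  have hce1 : X ≤ (⌈X⌉₊ : ℝ) := Nat.le_ceil X
  have hce2 : (⌈X⌉₊ : ℝ) < X + 1 := Nat.ceil_lt_add_one (by linarith)
  have hMe : (Sc a b X : ℝ) = 4 * (a * b) * (⌈X⌉₊ : ℝ) := by
    unfold Sc
    push_cast
    ring
  rw [hMe]
  constructor
  · nlinarith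
  · have h1 : 4 * (a * b : ℝ) * (⌈X⌉₊ : ℝ) ≤ 4 * (a * b) * (2 * X) := by
      gcongr
      linarith
    linarith

/-- the primes of the modulus are small -/
lemma W_small (a b : ℕ) (ha : 1 ≤ a) (hb : 1 ≤ b) (X : ℝ) (hX : 1 ≤ X) (hlog : Real.log (8 * (a * b : ℝ)) ≤ Real.log X)
    (S : Finset ℕ) (ps q : ℕ) (hq : q.Prime) (hqW : q ∣ WX (Sc a b X) S ps) : (q : ℝ) ≤ Real.log X := by
  obtain ⟨h1, h2⟩ := Sc_bounds a b ha hb X hX
  have ha1 : (1 : ℝ) ≤ a := by exact_mod_cast ha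
  have hb1 : (1 : ℝ) ≤ b := by exact_mod_cast hb
  have hM0 : 0 < (Sc a b X : ℝ) := by linarith
  rw [prime_dvd_WX hq] at hqW
  have h4 : (q : ℝ) ≤ yy ((Sc a b X : ℝ) ^ (1 / 100 : ℝ)) := by exact_mod_cast hqW.1
  have h5 : (yy ((Sc a b X : ℝ) ^ (1 / 100 : ℝ)) : ℝ) ≤ Real.log ((Sc a b X : ℝ) ^ (1 / 100 : ℝ)) / 1000 := by
    apply Nat.floor_le
    apply div_nonneg _ (by norm_num)
    apply Real.log_nonneg
    exact Real.one_le_rpow (by linarith) (by norm_num)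
  rw [Real.log_rpow hM0] at h5
  have h6 : Real.log (Sc a b X : ℝ) ≤ Real.log (8 * (a * b : ℝ)) + Real.log X := by
    rw [← Real.log_mul (by positivity) (by linarith)]
    exact Real.log_le_log hM0 h2
  have h8 : 0 ≤ Real.log X := Real.log_nonneg hX
  linarith

/-- an enumeration of the forms -/
theorem exists_enum {r : ℕ} (H : Fin r → Finset ℤ) : ∃ (idx : Fin (∑ m, (H m).card) → Fin r)
    (be : Fin (∑ m, (H m).card) → ℤ), (∀ l, be l ∈ H (idx l)) ∧ (∀ m, ∀ h ∈ H m, ∃ l, idx l = m ∧ be l = h) ∧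
      ∀ l l', idx l = idx l' → be l = be l' → l = l' := by
  classical
  obtain ⟨T, hT⟩ : ∃ T : Finset (Σ _ : Fin r, ℤ), T = (univ : Finset (Fin r)).sigma H := ⟨_, rfl⟩
  have hcard : T.card = ∑ m, (H m).card := by rw [hT, card_sigma]
  have hTm : ∀ x, x ∈ T ↔ x.2 ∈ H x.1 := by
    intro x
    rw [hT, mem_sigma]
    exact ⟨fun h => h.2, fun h => ⟨mem_univ _, h⟩⟩
  obtain ⟨e⟩ : Nonempty (Fin (∑ m, (H m).card) ≃ T) := ⟨(Finset.equivFinOfCardEq hcard).symm⟩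
  refine ⟨fun l => (e l).1.1, fun l => (e l).1.2, ?_, ?_, ?_⟩
  · intro l
    exact (hTm _).1 (e l).2
  · intro m h hh
    have h1 : (⟨m, h⟩ : Σ _ : Fin r, ℤ) ∈ T := (hTm _).2 hh
    refine ⟨e.symm ⟨⟨m, h⟩, h1⟩, ?_, ?_⟩
    · simp only [Equiv.apply_symm_apply]
    · simp only [Equiv.apply_symm_apply]
  · intro l l' h1 h2
    apply e.injective
    apply Subtype.ext
    exact Sigma.ext h1 (heq_of_eq h2)

/-- the choice of the class -/
theorem choose_nF {r : ℕ} (A : Fin r → ℕ) (hA : ∀ m, 1 ≤ A m) (H : Fin r → Finset ℤ) (hadm : AdmF A H)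
    (W O a0 : ℕ) (hW : 0 < W) (H' : Finset ℕ) (D cR : ℝ) (hHD : ∀ m, ∀ h ∈ H m, |(h : ℝ)| ≤ D)
    (hH' : ∀ x : ℕ, x ∈ H' ↔ ∃ m, ∃ h ∈ H m, (x : ℤ) = O + qd A m * h)
    (hO : ∀ m, ∀ u : ℤ, |(u : ℝ)| ≤ D → 0 ≤ (O : ℤ) + qd A m * u ∧ (((O : ℤ) + qd A m * u : ℤ) : ℝ) ≤ cR)
    (hcov : ∀ s : ℕ, (s : ℝ) ≤ cR → ((∀ p : ℕ, p.Prime → ¬ p ∣ Qf A → p ∣ W → ¬ p ∣ a0 + s) ↔ s ∈ H')) :
    ∃ n : ℕ, (∀ p : ℕ, p.Prime → p ∣ W → ∀ m, ∀ h ∈ H m, ¬ (p : ℤ) ∣ A m * n + h) ∧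
      ∀ m, ∀ u : ℤ, |(u : ℝ)| ≤ D → (∀ m', ∀ h' ∈ H m', (qd A m : ℤ) * u ≠ qd A m' * h') →
        ∃ p : ℕ, p.Prime ∧ p ∣ W ∧ (p : ℤ) ∣ A m * n + u := by
  classical
  have hex : ∀ p : ℕ, ∃ c : ℕ, p.Prime → (p ∣ Qf A → ∀ m, ∀ h ∈ H m, ¬ (p : ℤ) ∣ A m * c + h) ∧
      (¬ p ∣ Qf A → Qf A * c ≡ a0 + O [MOD p]) := by
    intro p
    by_cases hp : p.Prime
    swap
    · exact ⟨0, fun h => absurd h hp⟩
    by_cases hd : p ∣ Qf A
    · obtain ⟨n, hn⟩ := hadm p hp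
      exact ⟨n, fun _ => ⟨fun _ => hn, fun h => absurd hd h⟩⟩
    · have := Fact.mk hp
      refine ⟨(((a0 + O : ℕ) : ZMod p) / (Qf A : ZMod p)).val, fun _ => ⟨fun h => absurd h hd, fun _ => ?_⟩⟩
      rw [← ZMod.natCast_eq_natCast_iff]
      have h1 : ((Qf A : ℕ) : ZMod p) ≠ 0 := by
        rw [Ne, ZMod.natCast_eq_zero_iff]
        exact hd
      rw [Nat.cast_mul, ZMod.natCast_zmod_val]
      field_simp
  choose c hc using hex
  obtain ⟨n, hn0⟩ := crt_primes W.primeFactors (fun p hp => Nat.prime_of_mem_primeFactors hp) c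
  have hnc : ∀ p : ℕ, p.Prime → p ∣ W → n ≡ c p [MOD p] := by
    intro p hp hpW
    exact hn0 p (Nat.mem_primeFactors.2 ⟨hp, hpW, hW.ne'⟩)
  -- the primes outside of `Q`
  have hkey : ∀ p : ℕ, p.Prime → p ∣ W → ¬ p ∣ Qf A → ∀ m, ∀ u : ℤ,
      ((p : ℤ) ∣ A m * n + u ↔ (p : ℤ) ∣ a0 + (O + qd A m * u)) := by
    intro p hp hpW hpQ m u
    have h1 : Qf A * n ≡ a0 + O [MOD p] := ((hnc p hp hpW).mul_left _).trans ((hc p hp).2 hpQ)
    have h2 : (p : ℤ) ∣ (Qf A : ℤ) * n - (a0 + O) := by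
      have h3 := (Nat.modEq_iff_dvd.1 h1)
      rw [← dvd_neg]
      push_cast at h3
      have h4 : -((Qf A : ℤ) * n - (a0 + O)) = (a0 + O) - Qf A * n := by ring
      rw [h4]
      exact h3
    have h3 : (p : ℤ) ∣ A m * n + u ↔ (p : ℤ) ∣ (qd A m : ℤ) * (A m * n + u) := by
      constructor
      · intro h
        exact h.mul_left _
      · intro h
        rcases (Nat.prime_iff_prime_int.1 hp).dvd_or_dvd h with h4 | h4
        · exfalso
          apply hpQ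
          rw [← al_mul_qd A m]
          exact (Int.natCast_dvd_natCast.1 h4).mul_left _
        · exact h4
    rw [h3]
    have h5 : (qd A m : ℤ) * (A m * n + u) =
        ((Qf A : ℤ) * n - (a0 + O)) + (a0 + (O + qd A m * u)) := by
      rw [← al_mul_qdZ A m]
      ring
    rw [h5]
    exact dvd_add_right h2
  refine ⟨n, ?_, ?_⟩
  · intro p hp hpW m h hh
    by_cases hpQ : p ∣ Qf A
    · intro hd
      apply (hc p hp).1 hpQ m h hh
      have h1 := hnc p hp hpW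
      have h2 : (p : ℤ) ∣ (c p : ℤ) - n := Nat.modEq_iff_dvd.1 h1
      have h3 : (A m : ℤ) * c p + h = (A m * n + h) + A m * ((c p : ℤ) - n) := by ring
      rw [h3]
      exact dvd_add hd (h2.mul_left _)
    · intro hd
      obtain ⟨h1, h2⟩ := hO m h (hHD m h hh)
      obtain ⟨x, hx⟩ := Int.eq_ofNat_of_zero_le h1
      have hxH : x ∈ H' := (hH' x).2 ⟨m, h, hh, hx.symm⟩
      have h3 := (hcov x (by rw [hx] at h2; exact_mod_cast h2)).2 hxH p hp hpQ hpW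
      apply h3
      have h4 := (hkey p hp hpW hpQ m h).1 hd
      rw [hx] at h4
      exact_mod_cast h4
  · intro m u hu hne
    obtain ⟨h1, h2⟩ := hO m u hu
    obtain ⟨x, hx⟩ := Int.eq_ofNat_of_zero_le h1
    have hxH : x ∉ H' := by
      intro h
      obtain ⟨m', h', hh', hm⟩ := (hH' x).1 h
      apply hne m' h' hh'
      rw [← hx] at hm
      linarith
    have h3 := mt (hcov x (by rw [hx] at h2; exact_mod_cast h2)).1 hxH
    push Not at h3
    obtain ⟨p, hp, hpQ, hpW, hpd⟩ := h3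
    refine ⟨p, hp, hpW, (hkey p hp hpW hpQ m u).2 ?_⟩
    rw [hx]
    exact_mod_cast hpd

/-- windows around several slopes, with prescribed sets -/
theorem famw : St_FAMW := by
  classical
  intro hCOVA hLCL r k A hA hAinj
  choose tL htL cL hcL XL hL using fun (x : ℕ × Fin r × Fin r) => hLCL x.1 (A x.2.1) (A x.2.2) (hA x.2.1) (hA x.2.2)
  obtain ⟨Q, hQ⟩ : ∃ Q, Q = Qf A := ⟨_, rfl⟩
  have hQ1 : 1 ≤ Q := by rw [hQ]; exact Qf_pos hA
  have hQ1r : (1 : ℝ) ≤ Q := by exact_mod_cast hQ1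
  choose cC hcC XC hC using fun (N : ℕ) => hCOVA (N + 1) Q (Nat.succ_pos N) hQ1
  choose XS hXS using fun (x : Fin r × Fin r) =>
    Rk_scaleL (2 * (A x.1 * A x.2)) (Nat.mul_pos (by norm_num) (Nat.mul_pos (hA x.1) (hA x.2)))
  obtain ⟨t, ht, htm⟩ := exists_maxN ((range (r * k + 1)) ×ˢ (univ : Finset (Fin r × Fin r))) tL
  obtain ⟨c0, hc0, hc0m⟩ := exists_posmin (range (r * k + 1)) cC (fun x _ => hcC x)
  obtain ⟨XA, hXA⟩ := exists_maxR ((range (r * k + 1)) ×ˢ (univ : Finset (Fin r × Fin r))) XL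
  obtain ⟨XB, hXB⟩ := exists_maxR (range (r * k + 1)) XC
  obtain ⟨XD, hXD⟩ := exists_maxR (univ : Finset (Fin r × Fin r)) XS
  have ht0 : (0 : ℝ) < t := by exact_mod_cast ht
  obtain ⟨c, hc⟩ : ∃ c : ℝ, c = c0 / (2000 * Q) := ⟨_, rfl⟩
  have hcpos : 0 < c := by rw [hc]; positivity
  obtain ⟨X6, hX6⟩ := Pool.Agent.Q117.GP.window_le (8 * c) (by positivity)
  obtain ⟨X8, hX8⟩ := Rk_large c hcpos 2
  have hrp : Tendsto (fun X : ℝ => X ^ (1 / 100 : ℝ)) atTop atTop := tendsto_rpow_atTop (by norm_num)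
  obtain ⟨X7, hX7⟩ := eventually_atTop.1 (hrp.eventually (eventually_ge_atTop XB))
  have hrt : Tendsto (fun X : ℝ => X ^ (1 / (t : ℝ))) atTop atTop := tendsto_rpow_atTop (by positivity)
  obtain ⟨X10, hX10⟩ := eventually_atTop.1 (hrt.eventually (eventually_ge_atTop ((∑ m, A m : ℕ) : ℝ)))
  obtain ⟨X11, hX11⟩ := eventually_atTop.1 (Real.tendsto_log_atTop.eventually
    (eventually_ge_atTop (max ((∑ m, A m : ℕ) : ℝ) (Real.log (8 * (Q * Q : ℝ))))))
  refine ⟨t, ht, c, hcpos, max (max (max XA XD) (max X6 X8)) (max (max X7 X10) (max X11 (max 100 Q))), ?_⟩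
  intro X hX H hHk hHD hne hadm m₁ m₂ h₁ hh₁ h₂ hh₂ h12
  simp only [max_le_iff] at hX
  obtain ⟨⟨⟨gA, gD⟩, g6, g8⟩, ⟨g7, g10⟩, g11, g100, gQ⟩ := hX
  have hX0 : 0 < X := by linarith
  have hX1 : 1 ≤ X := by linarith
  obtain ⟨D, hD⟩ : ∃ D : ℝ, D = c * Rk X := ⟨_, rfl⟩
  have hD2 : 2 ≤ D := by rw [hD]; exact hX8 X g8
  have hDX : D ≤ X / 8 := by
    have := hX6 X g6
    rw [mul_assoc, ← hD] at this
    linarith
  rw [← hD] at hHD ⊢
  have hAS : ∀ m, A m ≤ ∑ m', A m' := fun m => single_le_sum (fun _ _ => Nat.zero_le _) (mem_univ m)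
  have hqdQ : ∀ m, qd A m ≤ Q := by
    intro m
    rw [hQ, ← al_mul_qd A m]
    exact Nat.le_mul_of_pos_left _ (hA m)
  have hAQ : ∀ m, A m ≤ Q := by
    intro m
    rw [hQ, ← al_mul_qd A m]
    exact Nat.le_mul_of_pos_right _ (qd_pos hA m)
  -- the forms
  obtain ⟨idx, be, hbeH, hsurj, hinj⟩ := exists_enum H
  obtain ⟨i, hi1, hi2⟩ := hsurj m₁ h₁ hh₁
  obtain ⟨j, hj1, hj2⟩ := hsurj m₂ h₂ hh₂
  have hij : i ≠ j := by
    intro h
    apply h12
    rw [← hi1, ← hi2, ← hj1, ← hj2, h]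
    exact ⟨rfl, rfl⟩
  obtain ⟨N, hN⟩ : ∃ N : ℕ, N = ∑ m, (H m).card := ⟨_, rfl⟩
  have hNk : N ≤ r * k := by
    rw [hN]
    have h1 := sum_le_card_nsmul (univ : Finset (Fin r)) (fun m => (H m).card) k (fun m _ => hHk m)
    rwa [card_univ, Fintype.card_fin, smul_eq_mul] at h1
  have hmemx : ((N, m₁, m₂) : ℕ × Fin r × Fin r) ∈ (range (r * k + 1)) ×ˢ (univ : Finset (Fin r × Fin r)) := by
    rw [mem_product, mem_range]
    exact ⟨by simp only; omega, mem_univ _⟩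
  have hXL := (hXA _ hmemx).trans gA
  have htt := htm _ hmemx
  have hbeD : ∀ l, |(be l : ℝ)| ≤ D := fun l => hHD _ _ (hbeH l)
  have hL1 := hL (N, m₁, m₂) X hXL
  simp only at hL1
  obtain ⟨tN, htN⟩ : ∃ tN : ℕ, tN = tL (N, m₁, m₂) := ⟨_, rfl⟩
  have htN1 : 1 ≤ tN := by rw [htN]; exact htL _
  rw [← htN] at htt hL1
  rw [hN] at hL1
  obtain ⟨S, ps, hps, hS, hmain⟩ := hL1 (fun l => A (idx l)) be i j hij (by rw [hi1]) (by rw [hj1])
    (by
      intro l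
      refine ⟨hA _, ?_⟩
      have h1 : (A (idx l) : ℝ) ≤ Q := by exact_mod_cast hAQ (idx l)
      exact h1.trans gQ)
    (by
      intro l
      have := hbeD l
      linarith)
    (by
      intro l l' hll
      by_cases h1 : idx l = idx l'
      · rw [h1]
        intro h2
        have h3 : (A (idx l') : ℤ) ≠ 0 := by
          have := hA (idx l')
          have h4 : A (idx l') ≠ 0 := by omega
          exact_mod_cast h4
        have h4 := mul_left_cancel₀ h3 h2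
        exact hll (hinj l l' h1 h4.symm)
      · exact hne _ _ h1 _ (hbeH l) _ (hbeH l'))
    (by
      intro p hp
      obtain ⟨n, hn⟩ := hadm p hp
      exact ⟨n, fun l => hn (idx l) (be l) (hbeH l)⟩)
  obtain ⟨M, hM⟩ : ∃ M : ℕ, M = Sc (A m₁) (A m₂) X := ⟨_, rfl⟩
  have hscb := Sc_bounds (A m₁) (A m₂) (hA m₁) (hA m₂) X hX1
  obtain ⟨W, hWd⟩ : ∃ W : ℕ, W = WX (Sc (A m₁) (A m₂) X) S ps := ⟨_, rfl⟩
  have hW0 : 0 < W := by rw [hWd]; exact WX_pos _ _ _
  have hWs : ∀ q : ℕ, q.Prime → q ∣ W → (q : ℝ) ≤ Real.log X := by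
    intro q hq hqW
    rw [hWd] at hqW
    refine W_small (A m₁) (A m₂) (hA m₁) (hA m₂) X hX1 ?_ S ps q hq hqW
    refine le_trans ?_ ((le_max_right _ _).trans (hX11 X g11))
    have a1 : (1 : ℝ) ≤ A m₁ := by exact_mod_cast hA m₁
    have a2 : (1 : ℝ) ≤ A m₂ := by exact_mod_cast hA m₂
    apply Real.log_le_log (by positivity)
    have b1 : (A m₁ : ℝ) ≤ Q := by exact_mod_cast hAQ m₁
    have b2 : (A m₂ : ℝ) ≤ Q := by exact_mod_cast hAQ m₂
    gcongr
  rw [← hWd] at hmain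
  rw [← hM] at hS hscb
  have hsc : Rk X ≤ 400 * Rk ((M : ℝ) ^ (1 / 100 : ℝ)) := by
    have h1 := hXS (m₁, m₂) X ((hXD _ (mem_univ _)).trans gD)
    rw [hM]
    exact h1
  have hXM : X ≤ M := hscb.1
  -- the covering
  obtain ⟨O, hO⟩ : ∃ O : ℕ, O = ⌈Q * D⌉₊ := ⟨_, rfl⟩
  have hO1 : Q * D ≤ O := by rw [hO]; exact Nat.le_ceil _
  have hO2 : (O : ℝ) < Q * D + 1 := by
    rw [hO]
    exact Nat.ceil_lt_add_one (by positivity)
  have hRk0 : 0 ≤ Rk ((M : ℝ) ^ (1 / 100 : ℝ)) := by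
    have h1 : 0 < c * Rk X := by rw [← hD]; linarith
    have h2 : 0 < Rk X := (mul_pos_iff_of_pos_left hcpos).1 h1
    linarith
  have hO3 : 2 * (O : ℝ) ≤ c0 * Rk ((M : ℝ) ^ (1 / 100 : ℝ)) := by
    have h1 : 2 * (O : ℝ) ≤ 5 * (Q * D) := by nlinarith
    refine h1.trans ?_
    have h2 : 5 * (Q * D) ≤ 5 * (Q * (c * (400 * Rk ((M : ℝ) ^ (1 / 100 : ℝ))))) := by
      rw [hD]
      gcongr
    refine h2.trans (le_of_eq ?_)
    rw [hc]
    field_simp
    ring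
  have hN1 : N - 1 + 1 = N := by
    have := i.2
    omega
  have hcN : c0 ≤ cC (N - 1) := hc0m _ (by rw [mem_range]; omega)
  have hO4 : 2 * (O : ℝ) ≤ cC (N - 1) * Rk ((M : ℝ) ^ (1 / 100 : ℝ)) := hO3.trans (by gcongr)
  have hrange : ∀ m, ∀ u : ℤ, |(u : ℝ)| ≤ D → 0 ≤ (O : ℤ) + qd A m * u ∧
      (((O : ℤ) + qd A m * u : ℤ) : ℝ) ≤ cC (N - 1) * Rk ((M : ℝ) ^ (1 / 100 : ℝ)) := by
    intro m u hu
    have h1 : |((qd A m : ℝ) * u)| ≤ Q * D := by
      rw [abs_mul, Nat.abs_cast]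
      have h2 : (qd A m : ℝ) ≤ Q := by exact_mod_cast hqdQ m
      exact mul_le_mul h2 hu (abs_nonneg _) (by positivity)
    have h3 := abs_le.1 h1
    constructor
    · have h4 : (0 : ℝ) ≤ (((O : ℤ) + qd A m * u : ℤ) : ℝ) := by
        push_cast
        linarith
      exact_mod_cast h4
    · refine le_trans ?_ hO4
      push_cast
      linarith
  obtain ⟨H', hHd⟩ : ∃ H' : Finset ℕ, H' = univ.image (fun l => ((O : ℤ) + qd A (idx l) * be l).toNat) := ⟨_, rfl⟩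
  have hnn : ∀ l, 0 ≤ (O : ℤ) + qd A (idx l) * be l := fun l => (hrange _ _ (hbeD l)).1
  have hH : ∀ x : ℕ, x ∈ H' ↔ ∃ m, ∃ h ∈ H m, (x : ℤ) = O + qd A m * h := by
    intro x
    rw [hHd, mem_image]
    constructor
    · rintro ⟨l, _, hl⟩
      refine ⟨idx l, be l, hbeH l, ?_⟩
      rw [← hl, Int.toNat_of_nonneg (hnn l)]
    · rintro ⟨m, h, hh, hl⟩
      obtain ⟨l, hl1, hl2⟩ := hsurj m h hh
      refine ⟨l, mem_univ l, ?_⟩
      rw [hl1, hl2, ← hl, Int.toNat_natCast]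
  -- equal points
  have heq : ∀ m m' : Fin r, ∀ u u' : ℤ, (qd A m : ℤ) * u = qd A m' * u' → (A m' : ℤ) * u = A m * u' := by
    intro m m' u u' huu
    have e1 := al_mul_qdZ A m
    have e2 := al_mul_qdZ A m'
    have e3 : (0 : ℤ) < Qf A := by exact_mod_cast Qf_pos hA
    have e4 : (Qf A : ℤ) * (A m' * u) = Qf A * (A m * u') := by
      calc (Qf A : ℤ) * (A m' * u) = (A m * qd A m) * (A m' * u) := by rw [e1]
        _ = A m * A m' * (qd A m * u) := by ring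
        _ = A m * A m' * (qd A m' * u') := by rw [huu]
        _ = (A m' * qd A m') * (A m * u') := by ring
        _ = Qf A * (A m * u') := by rw [e2]
    exact mul_left_cancel₀ e3.ne' e4
  have hA0 : ∀ m, (A m : ℤ) ≠ 0 := by
    intro m
    have h1 := hA m
    have h2 : A m ≠ 0 := by omega
    exact_mod_cast h2
  have hHc : H'.card = N - 1 + 1 := by
    rw [hN1, hHd, card_image_of_injective, card_univ, Fintype.card_fin, hN]
    intro l l' hll
    simp only at hll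
    have h1 := Int.toNat_of_nonneg (hnn l)
    have h2 := Int.toNat_of_nonneg (hnn l')
    rw [hll, h2] at h1
    have h3 := heq (idx l) (idx l') (be l) (be l') (by linarith)
    by_cases h4 : idx l = idx l'
    · rw [h4] at h3
      exact hinj l l' h4 (mul_left_cancel₀ (hA0 _) h3)
    · exact absurd h3.symm (hne _ _ h4 _ (hbeH l) _ (hbeH l'))
  have hHle : ∀ x ∈ H', (x : ℝ) ≤ cC (N - 1) * Rk ((M : ℝ) ^ (1 / 100 : ℝ)) := by
    intro x hx
    obtain ⟨m, h, hh, hl⟩ := (hH x).1 hx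
    have h1 := (hrange m h (hHD m h hh)).2
    rw [← hl] at h1
    exact_mod_cast h1
  have hAdm : AdmA Q H' := by
    intro p hp hpQ
    obtain ⟨n, hn⟩ := hadm p hp
    refine ⟨Q * n + O * (p - 1), ?_⟩
    intro x hx hd
    obtain ⟨m, h, hh, hl⟩ := (hH x).1 hx
    have h1 : (p : ℤ) ∣ ((Q * n + O * (p - 1) + x : ℕ) : ℤ) := Int.natCast_dvd_natCast.2 hd
    have h2 : ((Q * n + O * (p - 1) + x : ℕ) : ℤ) = (qd A m : ℤ) * (A m * n + h) + O * p := by
      have := hp.pos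
      push_cast [Nat.cast_sub (show 1 ≤ p by omega)]
      rw [hl, hQ, ← al_mul_qdZ A m]
      ring
    rw [h2] at h1
    have h3 := (dvd_add_left (Dvd.intro_left _ rfl : (p : ℤ) ∣ (O : ℤ) * p)).1 h1
    rcases (Nat.prime_iff_prime_int.1 hp).dvd_or_dvd h3 with h4 | h4
    · apply hpQ
      rw [hQ, ← al_mul_qd A m]
      exact (Int.natCast_dvd_natCast.1 h4).mul_left _
    · exact hn m h hh h4
  have hX3 : XC (N - 1) ≤ (M : ℝ) ^ (1 / 100 : ℝ) := by
    refine (hXB _ (by rw [mem_range]; omega)).trans (hX7 M (g7.trans hXM))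
  obtain ⟨a0, ha0⟩ := hC (N - 1) _ hX3 ps S hps hS H' hHc hHle hAdm
  have hWX : WW ((M : ℝ) ^ (1 / 100 : ℝ)) S ps = W := by rw [hWd, hM]; rfl
  rw [hWX, hQ] at ha0
  obtain ⟨n₀, hno, hwin⟩ := choose_nF A hA H hadm W O a0 hW0 H' D _ hHD hH hrange ha0
  obtain ⟨hcard, -⟩ := hmain n₀ (fun p hp hpW l => hno p hp hpW (idx l) (be l) (hbeH l))
  refine hcard.trans ?_
  rw [Nat.cast_le]
  apply card_le_card
  intro n hn
  have hn' := PtsC_mono htN1 htt hX1 _ _ _ _ _ _ _ hn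
  unfold PtsC at hn'
  rw [mem_filter] at hn'
  obtain ⟨p1, p2, p3, p4, p5, p6, p7⟩ := hn'
  unfold PtsF
  rw [mem_filter]
  unfold fm at p5 p6 p7
  simp only [hi1, hi2] at p5
  simp only [hj1, hj2] at p6
  refine ⟨p1, p2, p5, p6, ?_⟩
  intro m s hs
  have hnX : ∀ q : ℕ, q ∣ W → ∀ u : ℤ, ((q : ℤ) ∣ A m * n + u ↔ (q : ℤ) ∣ A m * n₀ + u) := by
    intro q hqW u
    have h2 : (n : ℤ) ≡ n₀ [ZMOD q] := ((Int.natCast_modEq_iff).2 p3).of_dvd (Int.natCast_dvd_natCast.2 hqW)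
    exact ((h2.mul_left _).add_right _).dvd_iff
  have hrough : ∀ m', ∀ h ∈ H m', Ro (X ^ (1 / (t : ℝ))) ((A m' : ℤ) * n + h) := by
    intro m' h hh
    obtain ⟨l, hl1, hl2⟩ := hsurj m' h hh
    have h1 := p7 l
    simp only at h1
    rw [hl1, hl2] at h1
    exact h1
  refine ⟨?_, hrough m s, ?_⟩
  · have h2 : (0 : ℝ) < (A m : ℝ) * n + s := by
      have h3 : (1 : ℝ) ≤ A m := by exact_mod_cast hA m
      have h4 := abs_le.1 hs
      nlinarith
    exact_mod_cast h2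
  · intro hsH hRo
    by_cases hcase : ∀ m', ∀ h' ∈ H m', (qd A m : ℤ) * s ≠ qd A m' * h'
    · obtain ⟨q, hq, hqW, hqd⟩ := hwin m s hs hcase
      have h1 := hRo q hq ((hnX q hqW s).2 hqd)
      have h2 := hWs q hq hqW
      linarith
    · push Not at hcase
      obtain ⟨m', h', hh', hm'⟩ := hcase
      have h2 := heq m m' s h' hm'
      have hmm : m ≠ m' := by
        intro h3
        apply hsH
        rw [h3] at h2
        rw [mul_left_cancel₀ (hA0 _) h2, h3]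
        exact hh'
      have h2' : (A m' : ℤ) * (A m * n + s) = A m * (A m' * n + h') := by linear_combination h2
      have h3 : (A m').Coprime ((A m' : ℤ) * n + h').natAbs := by
        apply Nat.coprime_of_dvd
        intro q hq hqm hqd
        have h4 := hrough m' h' hh' q hq (Int.natCast_dvd.2 hqd)
        have h5 : q ≤ ∑ m, A m := (Nat.le_of_dvd (hA m') hqm).trans (hAS m')
        have h6 : (q : ℝ) ≤ ((∑ m, A m : ℕ) : ℝ) := by exact_mod_cast h5
        have h7 := h6.trans (hX10 X g10)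
        linarith
      have h4 : A m' ∣ A m := by
        have h5 : A m' ∣ A m * ((A m' : ℤ) * n + h').natAbs := by
          have h6 : (A m' : ℤ) ∣ A m * (A m' * n + h') := ⟨_, h2'.symm⟩
          have h7 := Int.natAbs_dvd_natAbs.2 h6
          rwa [Int.natAbs_mul, Int.natAbs_natCast, Int.natAbs_natCast] at h7
        exact h3.dvd_of_dvd_mul_right h5
      obtain ⟨e, he⟩ := h4
      have h5 : (A m : ℤ) * n + s = e * (A m' * n + h') := by
        apply mul_left_cancel₀ (hA0 m')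
        rw [h2', he]
        push_cast
        ring
      have he1 : e ≠ 1 := by
        intro h6
        rw [h6, mul_one] at he
        exact hmm (hAinj he)
      have he0 : e ≠ 0 := by
        intro h6
        have := hA m
        rw [he, h6] at this
        omega
      have h6 := hRo e.minFac (Nat.minFac_prime he1) (by
        rw [h5]
        exact (Int.natCast_dvd_natCast.2 (Nat.minFac_dvd e)).mul_right _)
      have h7 : e.minFac ≤ e := Nat.minFac_le (Nat.pos_of_ne_zero he0)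
      have h8 : e ≤ A m := by
        rw [he]
        exact Nat.le_mul_of_pos_left _ (hA m')
      have h9 : ((e.minFac : ℕ) : ℝ) ≤ ((∑ m, A m : ℕ) : ℝ) := by
        exact_mod_cast h7.trans (h8.trans (hAS m))
      have h10 := h9.trans ((le_max_left _ _).trans (hX11 X g11))
      linarith

end Pool.Agent.Q117.LF
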