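import Pool.Agent.Q117.LF.Stm6

/-!
Project LF (helper117), job FSC (helper208): from systems of forms to sets of shifts.
-/

set_option autoImplicit false

namespace Pool.Agent.Q117.LF

open Finset

/-! ### FSC: from forms to sets of shifts -/

/-- the enumeration of a set of shifts -/
noncomputable def fscE (E : Finset ℤ) : Fin E.card → ℤ := fun l => E.orderEmbOfFin rfl l

lemma fscE_mem (E : Finset ℤ) (l : Fin E.card) : fscE E l ∈ E := Finset.orderEmbOfFin_mem E rfl l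

lemma fscE_surj (E : Finset ℤ) {e : ℤ} (he : e ∈ E) : ∃ l, fscE E l = e := by
  have h := Finset.range_orderEmbOfFin E (rfl : E.card = E.card)
  have h1 : e ∈ Set.range (E.orderEmbOfFin rfl) := by
    rw [h]
    exact Finset.mem_coe.2 he
  exact h1

lemma fscE_inj (E : Finset ℤ) : Function.Injective (fscE E) := (E.orderEmbOfFin rfl).injective

lemma fsc_fm (E : Finset ℤ) (l : Fin E.card) (n : ℕ) :
    fm (fun _ => 1) (fscE E) l n = (n : ℤ) + fscE E l := by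
  unfold fm
  push_cast
  ring

lemma fsc_om (E : Finset ℤ) (p : ℕ) (hp : 0 < p) : om (fun _ => 1) (fscE E) p = oF E p := by
  classical
  have hp' : (0 : ℤ) < p := by exact_mod_cast hp
  unfold om oF
  rw [← Finset.card_image_of_injOn (f := fun n : ℕ => (-(n : ℤ)) % (p : ℤ))]
  · congr 1
    ext v
    simp only [Finset.mem_image, Finset.mem_filter, Finset.mem_range]
    constructor
    · rintro ⟨n, ⟨hn, l, hl⟩, rfl⟩
      refine ⟨fscE E l, fscE_mem E l, ?_⟩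
      rw [fsc_fm] at hl
      have h1 : fscE E l = ((n : ℤ) + fscE E l) + (-(n : ℤ)) := by ring
      rw [h1, Int.add_emod, Int.emod_eq_zero_of_dvd hl, zero_add, Int.emod_emod]
    · rintro ⟨e, he, rfl⟩
      obtain ⟨l, rfl⟩ := fscE_surj E he
      have h0 : 0 ≤ (-(fscE E l)) % (p : ℤ) := Int.emod_nonneg _ (by omega)
      have h1 : (-(fscE E l)) % (p : ℤ) < p := Int.emod_lt_of_pos _ hp'
      refine ⟨((-(fscE E l)) % (p : ℤ)).toNat, ⟨by omega, l, ?_⟩, ?_⟩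
      · rw [fsc_fm, Int.toNat_of_nonneg h0]
        apply Int.dvd_of_emod_eq_zero
        rw [Int.add_emod, Int.emod_emod, ← Int.add_emod, neg_add_cancel, Int.zero_emod]
      · rw [Int.toNat_of_nonneg h0]
        have h2 : (-((-(fscE E l)) % (p : ℤ))) % (p : ℤ) = (-(-(fscE E l))) % (p : ℤ) :=
          (Int.mod_modEq (-(fscE E l)) (p : ℤ)).neg
        rw [h2, neg_neg]
  · intro n hn m hm h
    simp only [Finset.coe_filter, Finset.mem_range, Set.mem_ofPred_eq] at hn hm h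
    have h1 : (p : ℤ) ∣ (-(n : ℤ)) - (-(m : ℤ)) := Int.ModEq.dvd (Eq.symm h)
    obtain ⟨q, hq⟩ := h1
    have hn1 : (n : ℤ) < p := by exact_mod_cast hn.1
    have hm1 : (m : ℤ) < p := by exact_mod_cast hm.1
    have hn0 : (0 : ℤ) ≤ n := Int.natCast_nonneg n
    have hm0 : (0 : ℤ) ≤ m := Int.natCast_nonneg m
    have h2 : q = 0 := by
      by_contra hq0
      rcases lt_or_gt_of_ne hq0 with h3 | h3
      · have : (p : ℤ) * q ≤ p * (-1) := mul_le_mul_of_nonneg_left (by omega) (by omega)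
        omega
      · have : (p : ℤ) * 1 ≤ p * q := mul_le_mul_of_nonneg_left (by omega) (by omega)
        omega
    rw [h2, mul_zero] at hq
    omega

lemma fsc_VN (E : Finset ℤ) (y : ℕ) : VN y (fun _ => 1) (fscE E) = VF y E := by
  classical
  unfold VN VF
  refine Finset.prod_congr ?_ ?_
  · ext p
    simp
  · intro p hp
    have hp0 : 0 < p := (Finset.mem_filter.1 hp).2.pos
    rw [fsc_om E p hp0]

lemma fsc_VF_nonneg (E : Finset ℤ) (y : ℕ) : 0 ≤ VF y E := by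
  classical
  unfold VF
  refine Finset.prod_nonneg fun p hp => ?_
  have hp0 : 0 < p := (Finset.mem_filter.1 hp).2.pos
  rw [← fsc_om E p hp0]
  have h1 : om (fun _ => 1) (fscE E) p ≤ p := by
    unfold om
    exact (Finset.card_filter_le _ _).trans (by simp)
  have h2 : (om (fun _ => 1) (fscE E) p : ℝ) / p ≤ 1 := by
    rw [div_le_one (by exact_mod_cast hp0)]
    exact_mod_cast h1
  linarith

lemma fsc_adm {E : Finset ℤ} (h : AdmZ E) : AdmS (fun _ => 1) (fscE E) := by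
  intro p hp
  obtain ⟨r, hr⟩ := h p hp
  have hp0 : (0 : ℤ) < p := by exact_mod_cast hp.pos
  have h0 : 0 ≤ r % (p : ℤ) := Int.emod_nonneg _ (by omega)
  refine ⟨(r % (p : ℤ)).toNat, fun l hl => ?_⟩
  apply hr _ (fscE_mem E l)
  rw [fsc_fm, Int.toNat_of_nonneg h0] at hl
  have h1 : r + fscE E l = (r % (p : ℤ) + fscE E l) + p * (r / p) := by
    have := Int.emod_add_mul_ediv r p
    linarith
  rw [h1]
  exact dvd_add hl (Dvd.intro _ rfl)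

/-- positive numbers on a finite type have a positive lower bound -/
lemma fsc_low {ι : Type} [Fintype ι] (f : ι → ℝ) (hf : ∀ x, 0 < f x) : ∃ c : ℝ, 0 < c ∧ ∀ x, c ≤ f x := by
  have h0 : 0 ≤ ∑ x, 1 / f x := Finset.sum_nonneg fun x _ => by have := hf x; positivity
  refine ⟨1 / (1 + ∑ x, 1 / f x), by positivity, fun x => ?_⟩
  have h1 : 1 / f x ≤ ∑ x, 1 / f x := Finset.single_le_sum (f := fun x => 1 / f x) (fun y _ => by have := hf y; positivity) (Finset.mem_univ x)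
  have h2 := hf x
  rw [div_le_iff₀ (by positivity)]
  have h3 : f x * (1 / f x) ≤ f x * (1 + ∑ x, 1 / f x) := mul_le_mul_of_nonneg_left (by linarith) h2.le
  rw [mul_one_div_cancel h2.ne'] at h3
  linarith

lemma fsc_up {ι : Type} [Fintype ι] (f : ι → ℝ) : ∃ c : ℝ, 1 ≤ c ∧ ∀ x, f x ≤ c := by
  have h0 : 0 ≤ ∑ x, |f x| := Finset.sum_nonneg fun x _ => abs_nonneg _
  refine ⟨1 + ∑ x, |f x|, by linarith, fun x => ?_⟩
  have h1 : |f x| ≤ ∑ x, |f x| := Finset.single_le_sum (f := fun x => |f x|) (fun y _ => abs_nonneg _) (Finset.mem_univ x)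
  have h2 := le_abs_self (f x)
  linarith

/-- the statement of `NSCc` for one datum, all slopes `1` -/
def FscQ (K g t T : ℕ) (c ν X0 : ℝ) (r : ℕ) (s : Fin g → ℕ) (i j : Fin r) : Prop := ∀ X : ℝ, X0 ≤ X →
    ∀ be : Fin r → ℤ, (∀ l, |(be l : ℝ)| ≤ K * X) → X / K ≤ X + be i → (∀ l m, l ≠ m → be m ≠ be l) → AdmS (fun _ => 1) be →
    ∀ be' : (γ : Fin g) → Fin (s γ) → ℤ, (∀ γ x, |(be' γ x : ℝ)| ≤ K * X) → (∀ γ, AdmS (fun _ => 1) (be' γ)) →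
    ∀ L : ℝ, 0 ≤ L → L ≤ X → (∀ γ, L * VN ⌊X⌋₊ (fun _ => 1) (be' γ) ≤ ν) → ∀ z : ℝ, X ^ (1 / (T : ℝ)) ≤ z → z ≤ X ^ (1 / (t : ℝ)) →
      c * (X * VN ⌊X⌋₊ (fun _ => 1) be) ≤ ((PtsN K z X L (fun _ => 1) be i j s (fun _ _ => 1) be').card : ℝ)

lemma fsc_one (h : NSCc) (K g : ℕ) (hK : 1 ≤ K) (r : ℕ) (s : Fin g → ℕ) (hs : ∀ γ, 1 ≤ s γ) (i j : Fin r) (hij : i ≠ j) :
    ∃ t : ℕ, 1 ≤ t ∧ ∀ T : ℕ, t ≤ T → ∃ c : ℝ, 0 < c ∧ ∃ ν : ℝ, 0 < ν ∧ ∃ X0 : ℝ, FscQ K g t T c ν X0 r s i j := by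
  obtain ⟨t, ht1, ht⟩ := h r (fun _ => 1) (fun _ => le_rfl) g s (fun _ _ => 1) hs (fun _ _ => le_rfl) K hK i j hij
  refine ⟨t, ht1, fun T hT => ?_⟩
  obtain ⟨c, hc, ν, hν, X0, h1⟩ := ht T hT
  refine ⟨c, hc, ν, hν, X0, fun X hX be hb1 hb2 hb3 hb4 be' hb5 hb6 L hL0 hLX hL z hz1 hz2 => ?_⟩
  refine h1 X hX be hb1 ?_ ?_ hb4 be' hb5 hb6 L hL0 hLX hL z hz1 hz2
  · push_cast
    linarith
  · intro l m hlm
    push_cast
    rw [one_mul, one_mul]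
    exact hb3 l m hlm

/-- the constants are uniform -/
lemma fsc_unif (h : NSCc) (k K g : ℕ) (hK : 1 ≤ K) :
    ∃ t : ℕ, 1 ≤ t ∧ ∀ T : ℕ, t ≤ T → ∃ c : ℝ, 0 < c ∧ ∃ ν : ℝ, 0 < ν ∧ ∃ X0 : ℝ, 1 ≤ X0 ∧
      ∀ (r : ℕ) (_ : r ≤ k) (s : Fin g → ℕ) (_ : ∀ γ, 1 ≤ s γ ∧ s γ ≤ k) (i j : Fin r), i ≠ j →
        ∃ t' : ℕ, 1 ≤ t' ∧ t' ≤ t ∧ ∃ c' ν' X0' : ℝ, c ≤ c' ∧ ν ≤ ν' ∧ X0' ≤ X0 ∧ FscQ K g t' T c' ν' X0' r s i j := by
  classical
  have h1 : ∀ x : (Σ r : Fin (k + 1), (Fin g → Fin (k + 1)) × Fin (r : ℕ) × Fin (r : ℕ)), ∃ t : ℕ, 1 ≤ t ∧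
      ((∀ γ, 1 ≤ (x.2.1 γ : ℕ)) → x.2.2.1 ≠ x.2.2.2 → ∀ T : ℕ, t ≤ T → ∃ c : ℝ, 0 < c ∧ ∃ ν : ℝ, 0 < ν ∧ ∃ X0 : ℝ,
        FscQ K g t T c ν X0 (x.1 : ℕ) (fun γ => (x.2.1 γ : ℕ)) x.2.2.1 x.2.2.2) := by
    intro x
    by_cases hx : (∀ γ, 1 ≤ (x.2.1 γ : ℕ)) ∧ x.2.2.1 ≠ x.2.2.2
    · obtain ⟨t, ht1, ht⟩ := fsc_one h K g hK (x.1 : ℕ) (fun γ => (x.2.1 γ : ℕ)) hx.1 x.2.2.1 x.2.2.2 hx.2
      exact ⟨t, ht1, fun _ _ => ht⟩
    · exact ⟨1, le_rfl, fun a b => absurd ⟨a, b⟩ hx⟩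
  choose t ht1 ht using h1
  refine ⟨1 + ∑ x, t x, by omega, fun T hT => ?_⟩
  have htT : ∀ x, t x ≤ ∑ x, t x := fun x => Finset.single_le_sum (f := t) (fun _ _ => Nat.zero_le _) (Finset.mem_univ x)
  have h2 : ∀ x : (Σ r : Fin (k + 1), (Fin g → Fin (k + 1)) × Fin (r : ℕ) × Fin (r : ℕ)), ∃ c ν X0 : ℝ, 0 < c ∧ 0 < ν ∧
      ((∀ γ, 1 ≤ (x.2.1 γ : ℕ)) → x.2.2.1 ≠ x.2.2.2 → 
        FscQ K g (t x) T c ν X0 (x.1 : ℕ) (fun γ => (x.2.1 γ : ℕ)) x.2.2.1 x.2.2.2) := by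
    intro x
    by_cases hx : (∀ γ, 1 ≤ (x.2.1 γ : ℕ)) ∧ x.2.2.1 ≠ x.2.2.2
    · obtain ⟨c, hc, ν, hν, X0, hQ⟩ := ht x hx.1 hx.2 T (by have := htT x; omega)
      exact ⟨c, ν, X0, hc, hν, fun _ _ => hQ⟩
    · exact ⟨1, 1, 1, one_pos, one_pos, fun a b => absurd ⟨a, b⟩ hx⟩
  choose c ν X0 hc hν hQ using h2
  obtain ⟨c₀, hc₀, hcc⟩ := fsc_low c hc
  obtain ⟨ν₀, hν₀, hνν⟩ := fsc_low ν hν
  obtain ⟨X₀, hX₀, hXX⟩ := fsc_up X0
  refine ⟨c₀, hc₀, ν₀, hν₀, X₀, hX₀, fun r hr s hs i j hij => ?_⟩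
  have hx := hQ ⟨⟨r, by omega⟩, (fun γ => ⟨s γ, by have := (hs γ).2; omega⟩, i, j)⟩ (fun γ => (hs γ).1) hij
  exact ⟨_, ht1 _, by have := htT ⟨⟨r, by omega⟩, (fun γ => ⟨s γ, by have := (hs γ).2; omega⟩, i, j)⟩; omega, _, _, _,
    hcc _, hνν _, hXX _, hx⟩

/-- **FSC.** -/
theorem fsc : St_FSC := by
  classical
  intro hN k K g hK
  obtain ⟨t, ht1, ht⟩ := fsc_unif hN k K g hK
  refine ⟨t, ht1, fun T hT => ?_⟩
  obtain ⟨c, hc, ν, hν, X0, hX0, hu⟩ := ht T hT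
  refine ⟨c, hc, ν, hν, X0, fun X hX E hEk hEK hEA e₁ he₁ e₂ he₂ he12 hXe F hF L hL0 hLX hL z hz1 hz2 => ?_⟩
  have hX1 : 1 ≤ X := hX0.trans hX
  obtain ⟨i, hi⟩ := fscE_surj E he₁
  obtain ⟨j, hj⟩ := fscE_surj E he₂
  have hij : i ≠ j := by
    rintro rfl
    exact he12 (hi.symm.trans hj)
  obtain ⟨t', ht'1, ht't, c', ν', X0', hcc, hνν, hXX, hQ⟩ := hu E.card hEk (fun γ => (F γ).card)
    (fun γ => ⟨Finset.card_pos.2 (hF γ).1, (hF γ).2.1⟩) i j hij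
  have hQ' := hQ X (hXX.trans hX) (fscE E) (fun l => hEK _ (fscE_mem E l)) (by rw [hi]; exact hXe)
    (fun l m hlm h => hlm (fscE_inj E h).symm) (fsc_adm hEA) (fun γ => fscE (F γ))
    (fun γ x => (hF γ).2.2.1 _ (fscE_mem (F γ) x)) (fun γ => fsc_adm (hF γ).2.2.2) L hL0 hLX
    (fun γ => by rw [fsc_VN]; exact (hL γ).trans hνν) z hz1
    (hz2.trans (Real.rpow_le_rpow_of_exponent_le hX1 (by
      apply one_div_le_one_div_of_le
      · exact_mod_cast (by omega : 0 < t')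
      · exact_mod_cast ht't)))
  rw [fsc_VN] at hQ'
  have h1 : c * (X * VF ⌊X⌋₊ E) ≤ c' * (X * VF ⌊X⌋₊ E) :=
    mul_le_mul_of_nonneg_right hcc (mul_nonneg (by linarith) (fsc_VF_nonneg _ _))
  refine (h1.trans hQ').trans ?_
  have h2 : PtsN K z X L (fun _ => 1) (fscE E) i j (fun γ => (F γ).card) (fun _ _ => 1) (fun γ => fscE (F γ)) ⊆
      PtsH K z X L E e₁ e₂ F := by
    intro n hn
    unfold PtsN at hn
    rw [Finset.mem_filter] at hn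
    obtain ⟨a0, a1, a2, a3, a4, a5, a6, a7⟩ := hn
    rw [fsc_fm, hi] at a3 a4
    rw [fsc_fm, hj] at a5
    unfold PtsH
    rw [Finset.mem_filter]
    refine ⟨a0, a1, a2, a3, a4, a5, ?_, ?_⟩
    · intro e he
      obtain ⟨l, rfl⟩ := fscE_surj E he
      have := a6 l
      rwa [fsc_fm] at this
    · intro γ d hd hf f hfF
      obtain ⟨x, rfl⟩ := fscE_surj (F γ) hfF
      obtain ⟨l, _, hl⟩ := a7 γ d hd (by
        intro x
        have := hf _ (fscE_mem (F γ) x)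
        have e1 : (((1 : ℕ) : ℤ)) * ((n : ℤ) + d) + fscE (F γ) x = (n : ℤ) + d + fscE (F γ) x := by
          push_cast; ring
        rw [e1]
        exact this) x
      have e2 : d + fscE (F γ) x = fscE E l := by
        rw [← hl]
        push_cast; ring
      rw [e2]
      exact fscE_mem E l
  exact_mod_cast Finset.card_le_card h2

end Pool.Agent.Q117.LF
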