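import Pool.Agent.Q117.LF.Stm3

/-! Project LF (helper117), job GRW (helper26): the weighted greedy choice. -/

set_option autoImplicit false

namespace Pool.Agent.Q117.LF

open Finset

lemma grw_mod {p c : ℕ} (hp : 0 < p) (hc : c < p) (k : ℤ) :
    k ≡ (c : ℤ) [ZMOD p] ↔ (k % (p : ℤ)).toNat = c := by
  have hp' : (0 : ℤ) < p := by exact_mod_cast hp
  have h1 : 0 ≤ k % (p : ℤ) := Int.emod_nonneg _ hp'.ne'
  have h2 : (c : ℤ) % (p : ℤ) = c := Int.emod_eq_of_lt (by positivity) (by exact_mod_cast hc)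
  unfold Int.ModEq
  rw [h2]
  omega

open Classical in
theorem grw : St_GRW := by
  intro P A hP R
  induction P using Finset.induction_on with
  | empty =>
    intro w hw
    refine ⟨fun _ => 0, fun p hp => absurd hp (Finset.notMem_empty _), ?_⟩
    refine (Finset.sum_le_sum_of_subset_of_nonneg (Finset.filter_subset _ _) fun k _ _ => hw k).trans
      (le_of_eq ?_)
    refine Finset.sum_congr rfl fun k _ => ?_
    rw [Finset.filter_empty, Finset.prod_empty, mul_one]
  | insert p P hpP ih =>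
    intro w hw
    have hPp := hP p (Finset.mem_insert_self p P)
    obtain ⟨F, hF⟩ : ∃ F : ℤ → ℝ, F = fun k => ∏ q ∈ P.filter (fun q : ℕ => (k % (q : ℤ)).toNat ∈ A q),
      (1 - 1 / ((A q).card : ℝ)) := ⟨_, rfl⟩
    have hcard : (0 : ℝ) < ((A p).card : ℝ) := by exact_mod_cast Finset.card_pos.2 hPp.2.2
    have hih := ih fun q hq => hP q (Finset.mem_insert_of_mem hq)
    -- the sum for the class `c`
    obtain ⟨T, hT⟩ : ∃ T : ℕ → ℝ, T = fun c : ℕ => ∑ k ∈ R, (if k ≡ (c : ℤ) [ZMOD p] then 0 else w k) * F k :=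
      ⟨_, rfl⟩
    have hmod : ∀ c ∈ A p, ∀ k : ℤ, k ≡ (c : ℤ) [ZMOD p] ↔ (k % (p : ℤ)).toNat = c := fun c hc k =>
      grw_mod hPp.1.pos (Finset.mem_range.1 (hPp.2.1 hc)) k
    have hsum : ∑ c ∈ A p, T c = ((A p).card : ℝ) * ∑ k ∈ R, w k *
        ∏ q ∈ (insert p P).filter (fun q : ℕ => (k % (q : ℤ)).toNat ∈ A q), (1 - 1 / ((A q).card : ℝ)) := by
      rw [hT]
      simp only
      rw [Finset.sum_comm, Finset.mul_sum]
      refine Finset.sum_congr rfl fun k _ => ?_
      have h1 : ∑ c ∈ A p, (if k ≡ (c : ℤ) [ZMOD p] then 0 else w k) * F k =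
          w k * F k * ∑ c ∈ A p, (1 - if (k % (p : ℤ)).toNat = c then (1 : ℝ) else 0) := by
        rw [Finset.mul_sum]
        refine Finset.sum_congr rfl fun c hc => ?_
        by_cases h : k ≡ (c : ℤ) [ZMOD p]
        · rw [if_pos h, if_pos ((hmod c hc k).1 h)]
          ring
        · rw [if_neg h, if_neg fun h2 => h ((hmod c hc k).2 h2)]
          ring
      rw [h1, Finset.sum_sub_distrib, Finset.sum_const, nsmul_eq_mul, mul_one, Finset.sum_ite_eq,
        Finset.filter_insert]
      by_cases h : (k % (p : ℤ)).toNat ∈ A p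
      · rw [if_pos h, if_pos h, Finset.prod_insert (fun h2 => hpP (Finset.mem_filter.1 h2).1), hF]
        field_simp
      · rw [if_neg h, if_neg h, hF]
        ring
    obtain ⟨c, hc, hcT⟩ : ∃ c ∈ A p, T c ≤ ∑ k ∈ R, w k *
        ∏ q ∈ (insert p P).filter (fun q : ℕ => (k % (q : ℤ)).toNat ∈ A q), (1 - 1 / ((A q).card : ℝ)) := by
      by_contra hcon
      push Not at hcon
      have h1 := Finset.sum_lt_sum_of_nonempty hPp.2.2 hcon
      rw [Finset.sum_const, nsmul_eq_mul, hsum] at h1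
      exact lt_irrefl _ h1
    obtain ⟨b, hb, hbs⟩ := hih (fun k => if k ≡ (c : ℤ) [ZMOD p] then 0 else w k) fun k => by
      split_ifs
      · exact le_rfl
      · exact hw k
    refine ⟨Function.update b p c, fun q hq => ?_, ?_⟩
    · rcases Finset.mem_insert.1 hq with rfl | hq
      · rw [Function.update_self]; exact hc
      · have hqp : q ≠ p := fun h => hpP (h ▸ hq)
        rw [Function.update_of_ne hqp]; exact hb q hq
    · refine le_trans (le_of_eq ?_) (hbs.trans (le_trans (le_of_eq ?_) hcT))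
      · rw [Finset.sum_filter, Finset.sum_filter]
        refine Finset.sum_congr rfl fun k _ => ?_
        have h1 : (∀ q ∈ insert p P, ¬ k ≡ ((Function.update b p c q : ℕ) : ℤ) [ZMOD q]) ↔
            (∀ q ∈ P, ¬ k ≡ (b q : ℤ) [ZMOD q]) ∧ ¬ k ≡ (c : ℤ) [ZMOD p] := by
          rw [Finset.forall_mem_insert, Function.update_self, and_comm]
          refine and_congr_left fun _ => ?_
          refine forall₂_congr fun q hq => ?_
          have hqp : q ≠ p := fun h => hpP (h ▸ hq)
          rw [Function.update_of_ne hqp]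
        by_cases h2 : ∀ q ∈ P, ¬ k ≡ (b q : ℤ) [ZMOD q]
        · by_cases h3 : k ≡ (c : ℤ) [ZMOD p]
          · rw [if_neg fun h => (h1.1 h).2 h3, if_pos h2, if_pos h3]
          · rw [if_pos (h1.2 ⟨h2, h3⟩), if_pos h2, if_neg h3]
        · rw [if_neg fun h => h2 (h1.1 h).1, if_neg h2]
      · rw [hT, hF]

end Pool.Agent.Q117.LF
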