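import Pool.Agent.Q117.LF.Stm3

/-!
# All the values are isolated, also if they are far apart

Project LF, part 3, job ISO. The file follows `Pool/Agent/Q117/LF/Famw.lean` and `Lpat.lean`.
-/

set_option autoImplicit false

namespace Pool.Agent.Q117.LF

open Finset Filter
open Pool.Agent.H378R2 (yy z2 GoodS GoodP WW)
open Pool.Agent.Q117.CR
open Pool.Agent.Q117.GP (Rk)

/-! ### Tools -/

lemma Sk_eq (a b K : ℕ) (X : ℝ) : Sk a b K X = Sc a (b * K) X := by
  unfold Sk Sc
  rw [mul_assoc a b K]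

/-- preimages of finite sets under linear maps -/
lemma exists_pre (ZZ : Finset ℤ) (N : ℤ) (q : ℕ) (hq : 0 < q) (D : ℝ) :
    ∃ Z : Finset ℤ, Z.card ≤ ZZ.card ∧ ∀ u : ℤ, u ∈ Z ↔ |(u : ℝ)| ≤ D ∧ N + q * u ∈ ZZ := by
  classical
  have hq0 : (q : ℤ) ≠ 0 := by
    have : q ≠ 0 := by omega
    exact_mod_cast this
  have hinj : Function.Injective (fun u : ℤ => N + q * u) := by
    intro u v h
    exact mul_left_cancel₀ hq0 (add_left_cancel h)
  refine ⟨(ZZ.preimage (fun u : ℤ => N + q * u) hinj.injOn).filter (fun u : ℤ => |(u : ℝ)| ≤ D), ?_, ?_⟩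
  · refine (card_filter_le _ _).trans ?_
    apply card_le_card_of_injOn (fun u : ℤ => N + q * u)
    · intro u hu
      rw [mem_coe, mem_preimage] at hu
      exact hu
    · exact hinj.injOn
  · intro u
    rw [mem_filter, mem_preimage]
    exact and_comm

/-- the number of the prime factors -/
lemma card_pf (n : ℕ) (hn : n ≠ 0) : (n.primeFactors.card : ℝ) * Real.log 2 ≤ Real.log n := by
  have h1 : 2 ^ n.primeFactors.card ≤ ∏ p ∈ n.primeFactors, p :=
    pow_card_le_prod _ _ _ fun p hp => (Nat.prime_of_mem_primeFactors hp).two_le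
  have h2 : ∏ p ∈ n.primeFactors, p ≤ n := Nat.le_of_dvd (Nat.pos_of_ne_zero hn) (Nat.prod_primeFactors_dvd n)
  have h3 : ((2 ^ n.primeFactors.card : ℕ) : ℝ) ≤ n := by exact_mod_cast h1.trans h2
  have h4 := Real.log_le_log (by positivity) h3
  push_cast at h4
  rwa [Real.log_pow] at h4

/-- the choice of the class -/
theorem choose_nI {r : ℕ} (A : Fin r → ℕ) (be : Fin r → ℤ) (hadm : AdmS A be) (i₀ : Fin r)
    (W : ℕ) (a : ℤ) (hW : 0 < W)
    (hcov : ∀ l, ∀ p : ℕ, p.Prime → ¬ p ∣ Qf A → p ∣ W → ¬ (p : ℤ) ∣ a + (qd A l * be l - qd A i₀ * be i₀)) :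
    ∃ n : ℕ, (∀ p : ℕ, p.Prime → p ∣ W → ∀ l, ¬ (p : ℤ) ∣ fm A be l n) ∧
      ∀ l, ∀ u : ℤ, ∀ p : ℕ, p.Prime → ¬ p ∣ Qf A → p ∣ W →
        (p : ℤ) ∣ a + (qd A l * be l - qd A i₀ * be i₀ + qd A l * u) → (p : ℤ) ∣ fm A be l n + u := by
  classical
  have hex : ∀ p : ℕ, ∃ c : ℕ, p.Prime → (p ∣ Qf A → ∀ l, ¬ (p : ℤ) ∣ fm A be l c) ∧
      (¬ p ∣ Qf A → (p : ℤ) ∣ (Qf A : ℤ) * c + qd A i₀ * be i₀ - a) := by
    intro p
    by_cases hp : p.Prime
    swap
    · exact ⟨0, fun h => absurd h hp⟩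
    by_cases hd : p ∣ Qf A
    · obtain ⟨n, hn⟩ := hadm p hp
      exact ⟨n, fun _ => ⟨fun _ => hn, fun h => absurd hd h⟩⟩
    · have := Fact.mk hp
      refine ⟨(((a - qd A i₀ * be i₀ : ℤ) : ZMod p) / (Qf A : ZMod p)).val, fun _ => ⟨fun h => absurd h hd, fun _ => ?_⟩⟩
      rw [← ZMod.intCast_zmod_eq_zero_iff_dvd]
      have h1 : ((Qf A : ℕ) : ZMod p) ≠ 0 := by
        rw [Ne, ZMod.natCast_eq_zero_iff]
        exact hd
      push_cast
      rw [ZMod.natCast_zmod_val]
      field_simp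
      ring
  choose c hc using hex
  obtain ⟨n, hn0⟩ := crt_primes W.primeFactors (fun p hp => Nat.prime_of_mem_primeFactors hp) c
  have hnc : ∀ p : ℕ, p.Prime → p ∣ W → (p : ℤ) ∣ (c p : ℤ) - n := by
    intro p hp hpW
    exact Nat.modEq_iff_dvd.1 (hn0 p (Nat.mem_primeFactors.2 ⟨hp, hpW, hW.ne'⟩))
  -- the primes outside of `Q`
  have hkey : ∀ p : ℕ, p.Prime → p ∣ W → ¬ p ∣ Qf A → ∀ l, ∀ u : ℤ,
      ((p : ℤ) ∣ fm A be l n + u ↔ (p : ℤ) ∣ a + (qd A l * be l - qd A i₀ * be i₀ + qd A l * u)) := by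
    intro p hp hpW hpQ l u
    have h2 : (p : ℤ) ∣ (Qf A : ℤ) * n + qd A i₀ * be i₀ - a := by
      have h3 := (hc p hp).2 hpQ
      have h4 : (Qf A : ℤ) * n + qd A i₀ * be i₀ - a =
          ((Qf A : ℤ) * c p + qd A i₀ * be i₀ - a) - Qf A * ((c p : ℤ) - n) := by ring
      rw [h4]
      exact dvd_sub h3 ((hnc p hp hpW).mul_left _)
    have h3 : (p : ℤ) ∣ fm A be l n + u ↔ (p : ℤ) ∣ (qd A l : ℤ) * (fm A be l n + u) := by
      constructor
      · intro h
        exact h.mul_left _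
      · intro h
        rcases (Nat.prime_iff_prime_int.1 hp).dvd_or_dvd h with h4 | h4
        · exfalso
          apply hpQ
          rw [← al_mul_qd A l]
          exact (Int.natCast_dvd_natCast.1 h4).mul_left _
        · exact h4
    rw [h3, qd_fm]
    have h5 : (Qf A : ℤ) * n + qd A l * (be l + u) =
        ((Qf A : ℤ) * n + qd A i₀ * be i₀ - a) +
          (a + (qd A l * be l - qd A i₀ * be i₀ + qd A l * u)) := by ring
    rw [h5]
    exact dvd_add_right h2
  refine ⟨n, ?_, ?_⟩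
  · intro p hp hpW l
    by_cases hpQ : p ∣ Qf A
    · intro hd
      apply (hc p hp).1 hpQ l
      have h3 : fm A be l (c p) = fm A be l n + A l * ((c p : ℤ) - n) := by
        unfold fm
        ring
      rw [h3]
      exact dvd_add hd ((hnc p hp hpW).mul_left _)
    · intro hd
      apply hcov l p hp hpQ hpW
      have h4 := (hkey p hp hpW hpQ l 0).1 (by rwa [add_zero])
      rwa [mul_zero, add_zero] at h4
  · intro l u p hp hpQ hpW hd
    exact (hkey p hp hpW hpQ l u).2 hd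

/-- all the values are isolated, also if they are far apart -/
theorem iso : St_ISO := by
  classical
  intro hCOV hLCK r A hA K hK i j i₀ hij
  obtain ⟨t, ht, c', hc', XL, hL⟩ := hLCK r (A i) (A j) K (hA i) (hA j) hK
  obtain ⟨Q, hQ⟩ : ∃ Q, Q = Qf A := ⟨_, rfl⟩
  have hQ1 : 1 ≤ Q := by rw [hQ]; exact Qf_pos hA
  have hQ1r : (1 : ℝ) ≤ Q := by exact_mod_cast hQ1
  have hr1 : 1 ≤ r := by have := i.2; omega
  obtain ⟨cC, hcC, XC, hC⟩ := hCOV r Q r hr1 hQ1
  have hg1 : 1 ≤ 2 * (A i * A j * K) :=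
    Nat.mul_pos (by norm_num) (Nat.mul_pos (Nat.mul_pos (hA i) (hA j)) hK)
  obtain ⟨XS, hXS⟩ := Rk_scaleL (2 * (A i * A j * K)) hg1
  obtain ⟨c1, hc1⟩ : ∃ c1 : ℝ, c1 = min cC 1 := ⟨_, rfl⟩
  have hc1pos : 0 < c1 := by rw [hc1]; exact lt_min hcC one_pos
  have hc1C : c1 ≤ cC := by rw [hc1]; exact min_le_left _ _
  have hc11 : c1 ≤ 1 := by rw [hc1]; exact min_le_right _ _
  obtain ⟨c, hc⟩ : ∃ c : ℝ, c = c1 / (400 * Q) := ⟨_, rfl⟩
  have hcpos : 0 < c := by rw [hc]; positivity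
  have ht0 : (0 : ℝ) < t := by exact_mod_cast ht
  obtain ⟨Xe, hev⟩ := Pool.Agent.Q117.GP.ev_all 1 one_pos 1 le_rfl (max 1 (800 * Q / c1)) 0 (le_max_left _ _)
  have hrp : Tendsto (fun X : ℝ => X ^ (1 / 100 : ℝ)) atTop atTop := tendsto_rpow_atTop (by norm_num)
  obtain ⟨X7, hX7⟩ := eventually_atTop.1 (hrp.eventually (eventually_ge_atTop XC))
  have hrt : Tendsto (fun X : ℝ => X ^ (1 / (t : ℝ))) atTop atTop := tendsto_rpow_atTop (by positivity)
  obtain ⟨X10, hX10⟩ := eventually_atTop.1 (hrt.eventually (eventually_ge_atTop ((∑ m, A m : ℕ) : ℝ)))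
  obtain ⟨X11, hX11⟩ := eventually_atTop.1 (Real.tendsto_log_atTop.eventually
    (eventually_ge_atTop (max ((∑ m, A m : ℕ) : ℝ) (Real.log (8 * (A i * (A j * K : ℕ) : ℝ))))))
  refine ⟨t, ht, c, hcpos, max (max XL XS) (max (max Xe X7) (max X10 (max X11 (max 100 Q)))), ?_⟩
  intro X hX be hbe hi hne hadm
  simp only [max_le_iff] at hX
  obtain ⟨⟨gL, gS⟩, ⟨ge, g7⟩, g10, g11, g100, gQ⟩ := hX
  have hX0 : 0 < X := by linarith
  have hX1 : 1 ≤ X := by linarith
  have hAS : ∀ m, A m ≤ ∑ m', A m' := fun m => single_le_sum (fun _ _ => Nat.zero_le _) (mem_univ m)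
  have hA0 : ∀ m, (A m : ℤ) ≠ 0 := by
    intro m
    have h1 := hA m
    have h2 : A m ≠ 0 := by omega
    exact_mod_cast h2
  have hqdQ : ∀ m, qd A m ≤ Q := by
    intro m
    rw [hQ, ← al_mul_qd A m]
    exact Nat.le_mul_of_pos_left _ (hA m)
  have hAQ : ∀ m, A m ≤ Q := by
    intro m
    rw [hQ, ← al_mul_qd A m]
    exact Nat.le_mul_of_pos_right _ (qd_pos hA m)
  -- the logarithms
  obtain ⟨T, hT⟩ : ∃ T, T = Real.log X := ⟨_, rfl⟩
  obtain ⟨L, hLd⟩ : ∃ L, L = Real.log T := ⟨_, rfl⟩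
  obtain ⟨L2, hL2⟩ : ∃ L2, L2 = Real.log L := ⟨_, rfl⟩
  obtain ⟨L3, hL3⟩ : ∃ L3, L3 = Real.log L2 := ⟨_, rfl⟩
  obtain ⟨a1, a2, a3, a4, a5, a6, a7, a8, a9, a10, a11, a12, a13, a14⟩ := hev X ge T L L2 L3 hT hLd hL2 hL3
  have hT0 : 0 < T := by linarith
  have hLpos : 0 < L := by linarith
  have hTL2 : 800 * Q / c1 * L ^ 2 ≤ T := by
    have h1 : T ^ (1 / ((1 : ℕ) : ℝ)) = T := by norm_num
    rw [h1] at a12
    refine le_trans ?_ a12
    exact mul_le_mul_of_nonneg_right (le_max_right _ _) (by positivity)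
  have hTL2' : 800 * Q * L ^ 2 ≤ c1 * T := by
    rw [div_mul_eq_mul_div, div_le_iff₀ hc1pos] at hTL2
    linarith
  have hTL1 : 800 * Q * L ≤ c1 * T := by
    refine le_trans ?_ hTL2'
    have h1 : L ≤ L ^ 2 := by nlinarith
    have h2 : (0 : ℝ) ≤ 800 * Q := by positivity
    exact mul_le_mul_of_nonneg_left h1 h2
  have hRk : Rk X ≤ T ^ 2 := by
    have hR : Rk X = T * L * L3 / L2 ^ 2 := by
      unfold Rk
      rw [← hT, ← hLd, ← hL2, ← hL3]
    rw [hR, div_le_iff₀ (by positivity)]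
    have h1 : L ≤ T := by nlinarith
    have h2 : T * L * L3 ≤ T * T * L2 := by gcongr
    refine h2.trans ?_
    have h3 : L2 ≤ L2 ^ 2 := by nlinarith
    calc T * T * L2 = T ^ 2 * L2 := by ring
      _ ≤ T ^ 2 * L2 ^ 2 := by gcongr
  -- the class form
  obtain ⟨S, ps, hps, hS, hmain⟩ := hL X gL A be i j hij rfl rfl
    (by
      intro l
      refine ⟨hA l, ?_⟩
      have h1 : (A l : ℝ) ≤ Q := by exact_mod_cast hAQ l
      exact h1.trans gQ) hbe hi hne hadm
  obtain ⟨M, hM⟩ : ∃ M : ℕ, M = Sk (A i) (A j) K X := ⟨_, rfl⟩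
  have hscb := Sc_bounds (A i) (A j * K) (hA i) (Nat.mul_pos (hA j) hK) X hX1
  have hWs : ∀ q : ℕ, q.Prime → q ∣ WX (Sk (A i) (A j) K X) S ps → (q : ℝ) ≤ Real.log X := by
    intro q hq hqW
    rw [Sk_eq] at hqW
    exact W_small (A i) (A j * K) (hA i) (Nat.mul_pos (hA j) hK) X hX1 ((le_max_right _ _).trans (hX11 X g11))
      S ps q hq hqW
  rw [← Sk_eq, ← hM] at hscb
  have hsc : Rk X ≤ 400 * Rk ((M : ℝ) ^ (1 / 100 : ℝ)) := by
    have h1 := hXS X gS
    rw [hM]
    exact h1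
  rw [← hM] at hS hmain hWs
  obtain ⟨W, hWd⟩ : ∃ W : ℕ, W = WX (M : ℝ) S ps := ⟨_, rfl⟩
  have hW0 : 0 < W := by rw [hWd]; exact WX_pos _ _ _
  have hWX : WW ((M : ℝ) ^ (1 / 100 : ℝ)) S ps = W := by rw [hWd]; rfl
  rw [← hWd] at hmain hWs
  have hXM : X ≤ M := hscb.1
  have hM0 : (0 : ℝ) < M := by linarith
  -- the logarithm of the small scale
  obtain ⟨T', hT'⟩ : ∃ T', T' = Real.log ((M : ℝ) ^ (1 / 100 : ℝ)) := ⟨_, rfl⟩
  have hT'e : T' = 1 / 100 * Real.log M := by rw [hT', Real.log_rpow hM0]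
  have hlM1 : T ≤ Real.log M := by rw [hT]; exact Real.log_le_log hX0 hXM
  have hlM2 : Real.log M ≤ 2 * T := by
    have h1 : Real.log M ≤ Real.log (8 * (A i * (A j * K : ℕ) : ℝ)) + Real.log X := by
      have e1 : (0 : ℝ) < 8 * (A i * (A j * K : ℕ) : ℝ) := by
        have b1 : (1 : ℝ) ≤ A i := by exact_mod_cast hA i
        have b2 : (1 : ℝ) ≤ (A j * K : ℕ) := by exact_mod_cast Nat.mul_pos (hA j) hK
        positivity
      rw [← Real.log_mul e1.ne' (by linarith)]
      exact Real.log_le_log hM0 hscb.2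
    have h2 := (le_max_right _ _).trans (hX11 X g11)
    rw [← hT] at h1 h2
    linarith
  have hT'1 : T / 100 ≤ T' := by rw [hT'e]; linarith
  have hT'2 : T' ≤ T := by rw [hT'e]; linarith
  have hT'L : T / (100 * L) ≤ T' / Real.log T' := by
    have h1 : Real.log T' ≤ L := by rw [hLd]; exact Real.log_le_log (by linarith) hT'2
    have h2 : 0 < Real.log T' := Real.log_pos (by linarith)
    calc T / (100 * L) = (T / 100) / L := by rw [div_div]
      _ ≤ T' / Real.log T' := div_le_div₀ (by linarith) hT'1 h2 h1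
  -- the covering
  obtain ⟨N, hN⟩ : ∃ N : Fin r → ℤ, N = fun l => (qd A l : ℤ) * be l - qd A i₀ * be i₀ := ⟨_, rfl⟩
  have hNl : ∀ l, N l = (qd A l : ℤ) * be l - qd A i₀ * be i₀ := fun l => by rw [hN]
  have hN0 : N i₀ = 0 := by rw [hNl]; ring
  obtain ⟨E, hE⟩ : ∃ E : Finset ℤ, E = univ.image N := ⟨_, rfl⟩
  have hEm : ∀ l, N l ∈ E := fun l => by rw [hE]; exact mem_image_of_mem N (mem_univ l)
  have hEx : ∀ e ∈ E, ∃ l, N l = e := by
    intro e he
    rw [hE, mem_image] at he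
    obtain ⟨l, _, hl⟩ := he
    exact ⟨l, hl⟩
  have hEc : E.card ≤ r := by
    rw [hE]
    refine card_image_le.trans ?_
    rw [card_univ, Fintype.card_fin]
  have hEA : AdmE Q E := by
    intro p hp hpQ
    obtain ⟨n, hn⟩ := hadm p hp
    refine ⟨(Q : ℤ) * n + qd A i₀ * be i₀, ?_⟩
    intro e he hd
    obtain ⟨l, rfl⟩ := hEx e he
    have h1 : (Q : ℤ) * n + qd A i₀ * be i₀ + N l = (qd A l : ℤ) * fm A be l n := by
      have h2 := qd_fm A be l n 0
      rw [add_zero, add_zero, ← hQ] at h2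
      rw [h2, hNl]
      ring
    rw [h1] at hd
    rcases (Nat.prime_iff_prime_int.1 hp).dvd_or_dvd hd with h4 | h4
    · apply hpQ
      rw [hQ, ← al_mul_qd A l]
      exact (Int.natCast_dvd_natCast.1 h4).mul_left _
    · exact hn l h4
  have hX3 : XC ≤ (M : ℝ) ^ (1 / 100 : ℝ) := hX7 M (g7.trans hXM)
  obtain ⟨a, Z0, Zw, hcov1, hZ0, hZw, hcov2, hcov3, hz⟩ := hC _ hX3 ps S hps hS E hEc hEA N
    (by rw [← hN0]; exact hEm i₀) hEm
  rw [hWX] at hcov1 hcov2 hcov3
  rw [← hT'] at hcov3 hz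
  obtain ⟨ZZ, hZZ⟩ : ∃ ZZ : Fin r → Finset ℤ, ZZ = fun l => if l = i₀ then Z0 else Zw l := ⟨_, rfl⟩
  obtain ⟨D, hD⟩ : ∃ D : Fin r → ℝ, D = fun l => if l = i₀ then c * Rk X else c * T := ⟨_, rfl⟩
  have hZZc : ∀ l, (ZZ l).card < r := by
    intro l
    rw [hZZ]
    simp only
    split_ifs with h
    · omega
    · have := hZw l
      omega
  have hZZz : ∀ l, ∀ z ∈ ZZ l, z ∈ Z0 ∨ ∃ w, z ∈ Zw w := by
    intro l z hzl
    rw [hZZ] at hzl
    simp only at hzl
    split_ifs at hzl with h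
    · exact Or.inl hzl
    · exact Or.inr ⟨l, hzl⟩
  have hqdu : ∀ l, ∀ u : ℤ, |(((qd A l : ℤ) * u : ℤ) : ℝ)| ≤ Q * |(u : ℝ)| := by
    intro l u
    push_cast
    rw [abs_mul, Nat.abs_cast]
    have h2 : (qd A l : ℝ) ≤ Q := by exact_mod_cast hqdQ l
    exact mul_le_mul_of_nonneg_right h2 (abs_nonneg _)
  have hRk0 : 0 ≤ Rk X := by
    have hR : Rk X = T * L * L3 / L2 ^ 2 := by
      unfold Rk
      rw [← hT, ← hLd, ← hL2, ← hL3]
    rw [hR]
    have : 0 ≤ L3 := by linarith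
    positivity
  have hcov : ∀ l, ∀ u : ℤ, |(u : ℝ)| ≤ D l → N l + qd A l * u ∉ E → N l + qd A l * u ∉ ZZ l →
      ∃ p : ℕ, p.Prime ∧ ¬ p ∣ Q ∧ p ∣ W ∧ (p : ℤ) ∣ a + (N l + qd A l * u) := by
    intro l u hu h1 h2
    rw [hD] at hu
    rw [hZZ] at h2
    simp only at hu h2
    by_cases h : l = i₀
    · rw [if_pos h] at hu h2
      apply hcov2 _ _ h1 h2
      rw [h, hN0, zero_add]
      refine (hqdu i₀ u).trans ?_
      calc (Q : ℝ) * |(u : ℝ)| ≤ Q * (c * (400 * Rk ((M : ℝ) ^ (1 / 100 : ℝ)))) := by gcongr; exact hu.trans (by gcongr)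
        _ = c1 * Rk ((M : ℝ) ^ (1 / 100 : ℝ)) := by
            rw [hc]
            field_simp
        _ ≤ cC * Rk ((M : ℝ) ^ (1 / 100 : ℝ)) := by
            apply mul_le_mul_of_nonneg_right hc1C
            linarith
    · rw [if_neg h] at hu h2
      apply hcov3 l _ _ h1 h2
      have e1 : N l + (qd A l : ℤ) * u - N l = (qd A l : ℤ) * u := by ring
      rw [e1]
      refine (hqdu l u).trans ?_
      calc (Q : ℝ) * |(u : ℝ)| ≤ Q * (c * T) := by gcongr
        _ = c1 / 400 * T := by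
            rw [hc]
            field_simp
        _ ≤ c1 * T' := by nlinarith
        _ ≤ cC * T' := by
            apply mul_le_mul_of_nonneg_right hc1C
            linarith
  have hDT : ∀ l, Q * D l ≤ T ^ 2 := by
    intro l
    rw [hD]
    simp only
    have hTT : T ≤ T ^ 2 := by nlinarith
    have h1 : (if l = i₀ then c * Rk X else c * T) ≤ c * T ^ 2 := by
      split_ifs with h
      · gcongr
      · gcongr
    calc (Q : ℝ) * (if l = i₀ then c * Rk X else c * T) ≤ Q * (c * T ^ 2) := by gcongr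
      _ = c1 / 400 * T ^ 2 := by
          rw [hc]
          field_simp
      _ ≤ T ^ 2 := by nlinarith
  choose Z hZc hZm using fun l : Fin r => exists_pre (ZZ l) (N l) (qd A l) (qd_pos hA l) (D l)
  -- equal points
  have heq : ∀ l m : Fin r, ∀ u : ℤ, (Q : ℤ) * (A m * (be l + u) - A l * be m) =
      A l * A m * (N l + qd A l * u - N m) := by
    intro l m u
    have e1 := al_mul_qdZ A l
    have e2 := al_mul_qdZ A m
    rw [hNl, hNl, hQ]
    calc (Qf A : ℤ) * (A m * (be l + u) - A l * be m)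
        = A m * (Qf A) * (be l + u) - A l * (Qf A) * be m := by ring
      _ = A m * (A l * qd A l) * (be l + u) - A l * (A m * qd A m) * be m := by rw [e1, e2]
      _ = _ := by ring
  have hQ0 : (Q : ℤ) ≠ 0 := by
    have : Q ≠ 0 := by omega
    exact_mod_cast this
  refine ⟨Z, fun l => (hZc l).trans_lt (hZZc l), ?_, ?_⟩
  · -- the exceptions
    intro l u hu
    obtain ⟨hu1, hu2⟩ := (hZm l u).1 hu
    obtain ⟨hzE, e, he, hcnt⟩ := hz _ (hZZz l _ hu2)
    obtain ⟨m, rfl⟩ := hEx e he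
    have hz0 : N l + (qd A l : ℤ) * u - N m ≠ 0 := by
      intro h
      apply hzE
      rw [sub_eq_zero.1 h]
      exact he
    have hcnt2 : c1 * (T / (100 * L)) ≤
        (((N l + (qd A l : ℤ) * u - N m).natAbs.primeFactors.filter (fun p : ℕ => (p : ℝ) ≤ T')).card : ℝ) := by
      refine le_trans ?_ hcnt
      apply mul_le_mul hc1C hT'L (by positivity) hcC.le
    refine ⟨m, ?_, ?_⟩
    · -- `m ≠ l`
      rintro rfl
      have e1 : N m + (qd A m : ℤ) * u - N m = (qd A m : ℤ) * u := by ring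
      rw [e1] at hz0 hcnt2
      have h1 : ((((qd A m : ℤ) * u).natAbs.primeFactors.filter (fun p : ℕ => (p : ℝ) ≤ T')).card : ℝ) ≤
          (((qd A m : ℤ) * u).natAbs.primeFactors.card : ℝ) := by exact_mod_cast card_filter_le _ _
      have h2 := card_pf ((qd A m : ℤ) * u).natAbs (Int.natAbs_ne_zero.2 hz0)
      have h3 : ((((qd A m : ℤ) * u).natAbs : ℕ) : ℝ) ≤ T ^ 2 := by
        rw [Nat.cast_natAbs, Int.cast_abs]
        refine (hqdu m u).trans (le_trans ?_ (hDT m))
        gcongr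
      have h4 : Real.log ((((qd A m : ℤ) * u).natAbs : ℕ) : ℝ) ≤ 2 * L := by
        have h5 : (0 : ℝ) < ((((qd A m : ℤ) * u).natAbs : ℕ) : ℝ) := by
          exact_mod_cast Nat.pos_of_ne_zero (Int.natAbs_ne_zero.2 hz0)
        refine (Real.log_le_log h5 h3).trans (le_of_eq ?_)
        rw [Real.log_pow, ← hLd]
        norm_num
      have h5 : c1 * (T / (100 * L)) * Real.log 2 ≤ 2 * L :=
        le_trans (mul_le_mul_of_nonneg_right (hcnt2.trans h1) (Real.log_nonneg (by norm_num))) (h2.trans h4)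
      have h6 : (1 / 2 : ℝ) ≤ Real.log 2 := by
        have := Real.log_two_gt_d9
        linarith
      have h7 : c1 * (T / (100 * L)) * (1 / 2) ≤ 2 * L :=
        le_trans (mul_le_mul_of_nonneg_left h6 (by positivity)) h5
      have h8 : c1 * (T / (100 * L)) * (1 / 2) = c1 * T / (200 * L) := by
        field_simp
        ring
      rw [h8, div_le_iff₀ (by positivity)] at h7
      have h9 : 800 * L ^ 2 ≤ 800 * Q * L ^ 2 := by
        have : 0 ≤ L ^ 2 := by positivity
        nlinarith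
      have h10 : 0 < L ^ 2 := by positivity
      nlinarith
    · -- the number of the common primes
      have hw0 : (A m : ℤ) * (be l + u) - A l * be m ≠ 0 := by
        intro h
        have h1 := heq l m u
        rw [h, mul_zero] at h1
        exact mul_ne_zero (mul_ne_zero (hA0 l) (hA0 m)) hz0 h1.symm
      have hsub : (N l + (qd A l : ℤ) * u - N m).natAbs.primeFactors.filter (fun p : ℕ => (p : ℝ) ≤ T') ⊆
          (((A m : ℤ) * (be l + u) - A l * be m).natAbs.primeFactors.filter (fun p : ℕ => (p : ℝ) ≤ Real.log X)) ∪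
            Q.primeFactors := by
        intro p hp
        rw [mem_filter, Nat.mem_primeFactors] at hp
        obtain ⟨⟨hp1, hp2, _⟩, hp3⟩ := hp
        rw [mem_union, mem_filter, Nat.mem_primeFactors, Nat.mem_primeFactors]
        by_cases hpQ : p ∣ Q
        · exact Or.inr ⟨hp1, hpQ, by omega⟩
        · left
          refine ⟨⟨hp1, ?_, Int.natAbs_ne_zero.2 hw0⟩, ?_⟩
          · have h1 : (p : ℤ) ∣ (Q : ℤ) * (A m * (be l + u) - A l * be m) := by
              rw [heq l m u]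
              exact (Int.natCast_dvd.2 hp2).mul_left _
            rcases (Nat.prime_iff_prime_int.1 hp1).dvd_or_dvd h1 with h4 | h4
            · exact absurd (Int.natCast_dvd_natCast.1 h4) hpQ
            · exact Int.natCast_dvd.1 h4
          · rw [← hT]
            linarith
      have h1 : (((N l + (qd A l : ℤ) * u - N m).natAbs.primeFactors.filter (fun p : ℕ => (p : ℝ) ≤ T')).card : ℝ) ≤
          ((((A m : ℤ) * (be l + u) - A l * be m).natAbs.primeFactors.filter
            (fun p : ℕ => (p : ℝ) ≤ Real.log X)).card : ℝ) + (Q.primeFactors.card : ℝ) := by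
        have := (card_le_card hsub).trans (card_union_le _ _)
        exact_mod_cast this
      have h2 : (Q.primeFactors.card : ℝ) ≤ Q := by
        have h3 : Q.primeFactors ⊆ Icc 1 Q := by
          intro p hp
          rw [Nat.mem_primeFactors] at hp
          rw [mem_Icc]
          exact ⟨hp.1.pos, Nat.le_of_dvd (by omega) hp.2.1⟩
        have h4 := card_le_card h3
        rw [Nat.card_Icc, Nat.add_sub_cancel] at h4
        exact_mod_cast h4
      rw [← hT, ← hLd]
      have h3 : c * (T / L) + Q ≤ c1 * (T / (100 * L)) := by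
        have e1 : c1 * (T / (100 * L)) = c1 / 100 * (T / L) := by
          field_simp
        have e2 : c ≤ c1 / 400 := by
          rw [hc]
          apply div_le_div_of_nonneg_left hc1pos.le (by norm_num)
          linarith
        have e3 : (0 : ℝ) ≤ T / L := by positivity
        have e4 : (Q : ℝ) ≤ c1 / 800 * (T / L) := by
          rw [← mul_div_assoc, le_div_iff₀ hLpos]
          linarith
        rw [e1]
        have e5 : c * (T / L) ≤ c1 / 400 * (T / L) := mul_le_mul_of_nonneg_right e2 e3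
        have e6 : 0 ≤ c1 * (T / L) := by positivity
        linarith
      rw [← hT] at h1
      linarith
  · -- the points
    have hcov1' : ∀ l, ∀ p : ℕ, p.Prime → ¬ p ∣ Qf A → p ∣ W →
        ¬ (p : ℤ) ∣ a + (qd A l * be l - qd A i₀ * be i₀) := by
      intro l p hp hpQ hpW
      rw [← hNl]
      exact hcov1 _ (hEm l) p hp (by rw [hQ]; exact hpQ) hpW
    obtain ⟨n₀, hno, hwin⟩ := choose_nI A be hadm i₀ W a hW0 hcov1'
    obtain ⟨hcard, -⟩ := hmain n₀ hno
    refine hcard.trans ?_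
    rw [Nat.cast_le]
    apply card_le_card
    intro n hn
    unfold PtsK at hn
    rw [mem_filter] at hn
    obtain ⟨p1, p2, p3, p4, p5, p6, p7, p8⟩ := hn
    unfold PtsI
    rw [mem_filter]
    refine ⟨p1, p2, p3, p5, p6, p7, p8, ?_⟩
    intro l u hu huZ hum hRo
    rw [← hT] at hu hRo
    have hu' : |(u : ℝ)| ≤ D l := by rw [hD]; exact hu
    have hnX : ∀ q : ℕ, q ∣ W → ((q : ℤ) ∣ fm A be l n + u ↔ (q : ℤ) ∣ fm A be l n₀ + u) := by
      intro q hqW
      have h2 : (n : ℤ) ≡ n₀ [ZMOD q] := ((Int.natCast_modEq_iff).2 p4).of_dvd (Int.natCast_dvd_natCast.2 hqW)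
      have h3 : fm A be l n + u ≡ fm A be l n₀ + u [ZMOD q] := by
        unfold fm
        exact ((h2.mul_left _).add_right _).add_right _
      exact h3.dvd_iff
    by_cases hcase : N l + (qd A l : ℤ) * u ∈ E
    · obtain ⟨m, hm⟩ := hEx _ hcase
      -- `A m (fm l n + u) = A l fm m n`
      have h1 := heq l m u
      rw [← hm, sub_self, mul_zero] at h1
      have h1' : (A m : ℤ) * (be l + u) - A l * be m = 0 := (mul_eq_zero.1 h1).resolve_left hQ0
      have h2 : (A m : ℤ) * (fm A be l n + u) = A l * fm A be m n := by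
        unfold fm
        linear_combination h1'
      have h3 : (A m).Coprime (fm A be m n).natAbs := by
        apply Nat.coprime_of_dvd
        intro q hq hqm hqd
        have h4 := p8 m q hq (Int.natCast_dvd.2 hqd)
        have h5 : q ≤ ∑ m, A m := (Nat.le_of_dvd (hA m) hqm).trans (hAS m)
        have h6 : (q : ℝ) ≤ ((∑ m, A m : ℕ) : ℝ) := by exact_mod_cast h5
        have h7 := h6.trans (hX10 X g10)
        linarith
      have h4 : A m ∣ A l := by
        have h5 : A m ∣ A l * (fm A be m n).natAbs := by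
          have h6 : (A m : ℤ) ∣ A l * fm A be m n := ⟨_, h2.symm⟩
          have h7 := Int.natAbs_dvd_natAbs.2 h6
          rwa [Int.natAbs_mul, Int.natAbs_natCast, Int.natAbs_natCast] at h7
        exact h3.dvd_of_dvd_mul_right h5
      obtain ⟨e, he⟩ := h4
      have h5 : fm A be l n + u = e * fm A be m n := by
        apply mul_left_cancel₀ (hA0 m)
        rw [h2, he]
        push_cast
        ring
      have he1 : e ≠ 1 := by
        intro h6
        apply hum m
        rw [h5, h6]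
        simp
      have he0 : e ≠ 0 := by
        intro h6
        have := hA l
        rw [he, h6] at this
        omega
      have h6 := hRo e.minFac (Nat.minFac_prime he1) (by
        rw [h5]
        exact (Int.natCast_dvd_natCast.2 (Nat.minFac_dvd e)).mul_right _)
      have h7 : e.minFac ≤ e := Nat.minFac_le (Nat.pos_of_ne_zero he0)
      have h8 : e ≤ A l := by
        rw [he]
        exact Nat.le_mul_of_pos_left _ (hA m)
      have h9 : ((e.minFac : ℕ) : ℝ) ≤ ((∑ m, A m : ℕ) : ℝ) := by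
        exact_mod_cast h7.trans (h8.trans (hAS l))
      have h10 := h9.trans ((le_max_left _ _).trans (hX11 X g11))
      rw [← hT] at h10
      linarith
    · have huZZ : N l + (qd A l : ℤ) * u ∉ ZZ l := by
        intro h
        exact huZ ((hZm l u).2 ⟨hu', h⟩)
      obtain ⟨q, hq, hqQ, hqW, hqd⟩ := hcov l u hu' hcase huZZ
      rw [hNl] at hqd
      have h1 := hwin l u q hq (by rw [← hQ]; exact hqQ) hqW hqd
      have h2 := hRo q hq ((hnX q hqW).2 h1)
      have h3 := hWs q hq hqW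
      rw [← hT] at h3
      linarith

end Pool.Agent.Q117.LF
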