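import Pool.Agent.Q117.LF.Stm2

/-!
# The class form of Chen's theorem in systems of linear forms

Project LF, job LCL. The file follows `Pool/Agent/Q117/LF/Lpat.lean`.
-/

set_option autoImplicit false

namespace Pool.Agent.Q117.LF

open Finset Filter
open Pool.Agent.Y843.HS (Pr VV Pr_mem Pr_prime)
open Pool.Agent.Y843.HG (Adm Z0 SP VV_low)
open Pool.Agent.Y843.CH
open Pool.Agent.H378R2 (yy z2 GoodS GoodP WW)
open Pool.Agent.Q117.CR
open Pool.Agent.Q117.GP (Rk)

/-- sizes -/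
theorem sizesC (a b : ℕ) (ha : 1 ≤ a) (hb : 1 ≤ b) (X : ℝ) (be : ℤ) (hX : 100 ≤ X) (hX2 : 512 * (a * b : ℝ) ≤ X)
    (hbe : |(be : ℝ)| ≤ X) (M A B : ℕ) (hM : M = Sc a b X) (hA : A = ⌈(a : ℝ) * (X + X / 8) + be⌉₊)
    (hB : B = ⌊2 * (a : ℝ) * X + be⌋₊) :
    4 * (a * b : ℝ) * X ≤ M ∧ (a : ℝ) * (X + X / 8) + be ≤ A ∧ (B : ℝ) ≤ 2 * a * X + be ∧ Nat.sqrt M ≤ A ∧ A ≤ B ∧
      b * B ≤ M ∧ 1 / (16 * (b : ℝ)) * M ≤ (B : ℝ) - A ∧ X / 2 ≤ (B : ℝ) - A ∧ (M : ℝ) ≤ 4 * (a * b) * (X + 1) := by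
  have hX0 : 0 < X := by linarith
  have ha1 : (1 : ℝ) ≤ a := by exact_mod_cast ha
  have hb1 : (1 : ℝ) ≤ b := by exact_mod_cast hb
  have hab : (1 : ℝ) ≤ a * b := by nlinarith
  have hbe' := abs_le.1 hbe
  have hce1 : X ≤ (⌈X⌉₊ : ℝ) := Nat.le_ceil X
  have hce2 : (⌈X⌉₊ : ℝ) < X + 1 := Nat.ceil_lt_add_one hX0.le
  have hMe : (M : ℝ) = 4 * (a * b) * (⌈X⌉₊ : ℝ) := by
    rw [hM]
    unfold Sc
    push_cast
    ring
  have hM1 : 4 * (a * b) * X ≤ M := by rw [hMe]; gcongr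
  have hM2 : (M : ℝ) ≤ 4 * (a * b) * (X + 1) := by rw [hMe]; gcongr
  have haX : X ≤ a * X := by nlinarith
  have hA0 : 0 ≤ (a : ℝ) * (X + X / 8) + be := by nlinarith
  have hB0 : 0 ≤ 2 * (a : ℝ) * X + be := by nlinarith
  have hA1 : (a : ℝ) * (X + X / 8) + be ≤ A := by rw [hA]; exact Nat.le_ceil _
  have hA2 : (A : ℝ) < (a : ℝ) * (X + X / 8) + be + 1 := by rw [hA]; exact Nat.ceil_lt_add_one hA0
  have hB1 : (B : ℝ) ≤ 2 * a * X + be := by rw [hB]; exact Nat.floor_le hB0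
  have hB2 : 2 * a * X + be < (B : ℝ) + 1 := by rw [hB]; exact Nat.lt_floor_add_one _
  have hAX : X / 8 ≤ A := by nlinarith
  have hAB : X / 2 ≤ (B : ℝ) - A := by nlinarith
  have hAB' : (A : ℝ) ≤ B := by linarith
  refine ⟨hM1, hA1, hB1, ?_, by exact_mod_cast hAB', ?_, ?_, hAB, hM2⟩
  · have h1 : M < (A + 1) ^ 2 := by
      have h2 : (M : ℝ) < ((A : ℝ) + 1) ^ 2 := by
        have h3 : X / 8 + 1 ≤ (A : ℝ) + 1 := by linarith
        have h4 : (X / 8 + 1) ^ 2 ≤ ((A : ℝ) + 1) ^ 2 := by gcongr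
        have h5 : 4 * (a * b : ℝ) * (X + 1) ≤ X / 128 * (X + 1) := by
          apply mul_le_mul_of_nonneg_right _ (by linarith)
          linarith
        nlinarith
      exact_mod_cast h2
    have := Nat.sqrt_lt'.2 h1
    omega
  · have h1 : ((b * B : ℕ) : ℝ) ≤ M := by
      push_cast
      have h2 : (b : ℝ) * B ≤ b * (3 * a * X) := by
        gcongr
        nlinarith
      have h3 : (b : ℝ) * (3 * a * X) ≤ 4 * (a * b) * X := by
        have : 0 ≤ (a : ℝ) * b * X := by positivity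
        nlinarith
      linarith
    exact_mod_cast h1
  · have h1 : 1 / (16 * (b : ℝ)) * M ≤ 1 / (16 * (b : ℝ)) * (4 * (a * b) * (X + 1)) := by gcongr
    have h2 : 1 / (16 * (b : ℝ)) * (4 * (a * b) * (X + 1)) = a * (X + 1) / 4 := by
      field_simp
      ring
    rw [h2] at h1
    nlinarith

/-- the classes of the primes and the classes of the integers `n` -/
theorem card_Z0_le_om {k : ℕ} {al : Fin k → ℕ} {be : Fin k → ℤ} {i : Fin k} {q : ℕ} (hq : q.Prime) (hqi : ¬ q ∣ al i)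
    (hlt : ∀ c ∈ OmL al be i q, c < q) : (Z0 (OmL al be i) q).card ≤ om al be q := by
  classical
  have hqZ := Nat.prime_iff_prime_int.1 hq
  have := Fact.mk hq
  unfold om
  have hsub : Z0 (OmL al be i) q ⊆ ((range q).filter (fun n : ℕ => ∃ l, (q : ℤ) ∣ fm al be l n)).image
      (fun n => hr (fm al be i n) q) := by
    intro c hc
    have hcq : c < q := by
      unfold Z0 at hc
      rw [mem_insert] at hc
      rcases hc with h | h
      · rw [h]; exact hq.pos
      · exact hlt c h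
    -- the preimage
    have hne : ((al i : ℕ) : ZMod q) ≠ 0 := by
      rw [Ne, ZMod.natCast_eq_zero_iff]
      exact hqi
    obtain ⟨n, hn⟩ : ∃ n : ℕ, n = ((((c : ℤ) - be i : ℤ) : ZMod q) / ((al i : ℕ) : ZMod q)).val := ⟨_, rfl⟩
    have hnq : n < q := by rw [hn]; exact ZMod.val_lt _
    have h1 : (q : ℤ) ∣ fm al be i n - c := by
      rw [← ZMod.intCast_zmod_eq_zero_iff_dvd] 
      unfold fm
      push_cast
      rw [hn, ZMod.natCast_zmod_val]
      push_cast
      field_simp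
      ring
    have h2 : hr (fm al be i n) q = c := by
      have h3 : ((hr (fm al be i n) q : ℕ) : ℤ) ≡ c [ZMOD q] := by
        rw [hr_cast _ hq.pos]
        refine (Int.mod_modEq _ _).trans ?_
        rw [Int.modEq_iff_dvd, ← dvd_neg]
        simpa using h1
      exact Nat.ModEq.eq_of_lt_of_lt ((Int.natCast_modEq_iff).1 h3) (hr_lt _ hq.pos) hcq
    rw [mem_image]
    refine ⟨n, mem_filter.2 ⟨mem_range.2 hnq, ?_⟩, h2⟩
    have h3 : c % q ∈ Z0 (OmL al be i) q := by rwa [Nat.mod_eq_of_lt hcq]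
    rw [mem_Z0_OmL hq.pos hqi] at h3
    rcases h3 with h4 | ⟨l, hl, h4⟩
    · refine ⟨i, ?_⟩
      have h5 : (q : ℤ) ∣ (c : ℤ) := Int.natCast_dvd_natCast.2 h4
      have h6 := dvd_add h1 h5
      rwa [sub_add_cancel] at h6
    · refine ⟨l, ?_⟩
      have h5 : (q : ℤ) ∣ al i * fm al be l n := by
        rw [← fm_rel al be i l n]
        have h6 : (al l : ℤ) * (fm al be i n - be i) + al i * be l =
            ((al l : ℤ) * ((c : ℤ) - be i) + al i * be l) + al l * (fm al be i n - c) := by ring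
        rw [h6]
        exact dvd_add h4 (h1.mul_left _)
      rcases hqZ.dvd_or_dvd h5 with h6 | h6
      · exact absurd (Int.natCast_dvd_natCast.1 h6) hqi
      · exact h6
  exact (card_le_card hsub).trans card_image_le

/-- the product over the primes `≤ X` is at most the product in `CWL` -/
theorem prod_le_VD {k : ℕ} {al : Fin k → ℕ} {be : Fin k → ℤ} {i : Fin k} {X : ℝ} {Y W ps : ℕ} (hYX : (Y : ℝ) ≤ X)
    (hW : ∀ q : ℕ, q.Prime → q ∣ al i → q ∣ W) (hlt : ∀ q ∈ Pr 0 Y, ∀ c ∈ OmL al be i q, c < q) :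
    ∏ q ∈ (Icc 1 ⌊X⌋₊).filter (fun q => q.Prime ∧ ¬ q ∣ W), (1 - (om al be q : ℝ) / q) ≤
      VD (OmL al be i) (W * ps) Y := by
  classical
  have hom : ∀ q : ℕ, q.Prime → 0 ≤ 1 - (om al be q : ℝ) / q ∧ 1 - (om al be q : ℝ) / q ≤ 1 := by
    intro q hq
    have h1 : (0 : ℝ) < q := by exact_mod_cast hq.pos
    have h2 : om al be q ≤ q := by
      unfold om
      refine (card_filter_le _ _).trans ?_
      rw [card_range]
    have h3 : (om al be q : ℝ) ≤ q := by exact_mod_cast h2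
    constructor
    · rw [sub_nonneg, div_le_one h1]
      exact h3
    · have : 0 ≤ (om al be q : ℝ) / q := by positivity
      linarith
  have hsub : (Pr 0 Y).filter (fun q => ¬ q ∣ W * ps) ⊆ (Icc 1 ⌊X⌋₊).filter (fun q => q.Prime ∧ ¬ q ∣ W) := by
    intro q hq
    rw [mem_filter, Pr_mem] at hq
    obtain ⟨⟨⟨h1, h2⟩, h3⟩, h4⟩ := hq
    rw [mem_filter, mem_Icc]
    refine ⟨⟨by omega, ?_⟩, h3, fun h => h4 (h.mul_right _)⟩
    apply Nat.le_floor
    refine le_trans ?_ hYX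
    exact_mod_cast h2
  rw [← prod_sdiff hsub]
  have h1 : ∏ q ∈ (Icc 1 ⌊X⌋₊).filter (fun q => q.Prime ∧ ¬ q ∣ W) \ (Pr 0 Y).filter (fun q => ¬ q ∣ W * ps),
      (1 - (om al be q : ℝ) / q) ≤ 1 := by
    apply prod_le_one
    · intro q hq
      rw [Finset.mem_sdiff, mem_filter] at hq
      exact (hom q hq.1.2.1).1
    · intro q hq
      rw [Finset.mem_sdiff, mem_filter] at hq
      exact (hom q hq.1.2.1).2
  have h2 : ∏ q ∈ (Pr 0 Y).filter (fun q => ¬ q ∣ W * ps), (1 - (om al be q : ℝ) / q) ≤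
      VD (OmL al be i) (W * ps) Y := by
    unfold VD
    apply Finset.prod_le_prod
    · intro q hq
      rw [mem_filter] at hq
      exact (hom q (Pr_prime hq.1)).1
    · intro q hq
      rw [mem_filter] at hq
      have hqp := Pr_prime hq.1
      have h3 : ¬ q ∣ al i := fun h => hq.2 ((hW q hqp h).mul_right _)
      have h4 := card_Z0_le_om hqp h3 (hlt q hq.1)
      have h5 : (0 : ℝ) < q := by exact_mod_cast hqp.pos
      have h6 : ((Z0 (OmL al be i) q).card : ℝ) / q ≤ (om al be q : ℝ) / q := by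
        gcongr
      linarith
  have h3 : 0 ≤ ∏ q ∈ (Pr 0 Y).filter (fun q => ¬ q ∣ W * ps), (1 - (om al be q : ℝ) / q) := by
    apply prod_nonneg
    intro q hq
    rw [mem_filter] at hq
    exact (hom q (Pr_prime hq.1)).1
  calc _ ≤ 1 * ∏ q ∈ (Pr 0 Y).filter (fun q => ¬ q ∣ W * ps), (1 - (om al be q : ℝ) / q) := by
        apply mul_le_mul_of_nonneg_right h1 h3
    _ ≤ _ := by rw [one_mul]; exact h2

/-- the class form -/
theorem lcl : St_LCL := by
  classical
  intro hCWL k a b ha hb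
  have har : (1 : ℝ) ≤ a := by exact_mod_cast ha
  have hbr : (1 : ℝ) ≤ b := by exact_mod_cast hb
  obtain ⟨t, ht, c, hc, X1, PP, hPP, hW⟩ := hCWL k b a hb ha
  have ht0 : (0 : ℝ) < t := by exact_mod_cast ht
  obtain ⟨X2, hX2⟩ := hW (1 / (16 * (b : ℝ))) (by positivity) (by
    rw [div_le_one (by positivity)]
    linarith)
  obtain ⟨cV, hcV, hV⟩ := VV_low (k + 1)
  obtain ⟨X5, hX5⟩ := ev_fin t (2 * (k + 1)) ht (c * (2 * (1 / (16 * (b : ℝ))))) cV (by positivity) hcV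
  obtain ⟨X9, hX9⟩ := ev_cond t (b * a + 2) 1 1 ht 1 one_pos 1
  refine ⟨t, ht, c / 2, by positivity, max (max X1 X2) (max (max X5 X9) (max 100 (512 * (a * b : ℝ)))), ?_⟩
  intro X hX al be i j hij hali halj hal0 hbe hne hadm
  simp only [max_le_iff] at hX
  obtain ⟨⟨g1, g2⟩, ⟨g5, g9⟩, g12, g13⟩ := hX
  have hX0 : 0 < X := by linarith
  have hal : ∀ l, 1 ≤ al l := fun l => (hal0 l).1
  obtain ⟨M, hM⟩ : ∃ M : ℕ, M = Sc a b X := ⟨_, rfl⟩
  obtain ⟨A, hA⟩ : ∃ A : ℕ, A = ⌈(a : ℝ) * (X + X / 8) + be i⌉₊ := ⟨_, rfl⟩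
  obtain ⟨B, hB⟩ : ∃ B : ℕ, B = ⌊2 * (a : ℝ) * X + be i⌋₊ := ⟨_, rfl⟩
  obtain ⟨s1, s2, s3, s4, s5, s6, s7, s8, s9⟩ := sizesC a b ha hb X (be i) g12 g13 (hbe i) M A B hM hA hB
  rw [← hM]
  have hab1 : (1 : ℝ) ≤ a * b := by nlinarith
  have hXM2 : 2 * X ≤ M := by nlinarith
  have hXM : X ≤ M := by linarith
  have hM0 : (0 : ℝ) < M := by linarith
  have hMX1 : X1 ≤ M := by exact_mod_cast g1.trans hXM
  have hMX2 : X2 ≤ M := by exact_mod_cast g2.trans hXM
  have hMX5 : X5 ≤ M := by exact_mod_cast g5.trans hXM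
  have hMX9 : X9 ≤ M := by exact_mod_cast g9.trans hXM
  -- the shift
  obtain ⟨h, hh⟩ : ∃ h : ℤ, h = (al j : ℤ) * be i - al i * be j := ⟨_, rfl⟩
  have hh0 : h ≠ 0 := by
    rw [hh]
    intro h0
    exact hne j i hij.symm (by linarith)
  have hhM : h.natAbs ≤ M := by
    have h1 : |(h : ℝ)| ≤ M := by
      rw [hh, hali, halj]
      push_cast
      have h2 : |(b : ℝ) * be i - a * be j| ≤ b * |(be i : ℝ)| + a * |(be j : ℝ)| := by
        have h3 := abs_sub ((b : ℝ) * be i) ((a : ℝ) * be j)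
        rw [abs_mul, abs_mul, Nat.abs_cast, Nat.abs_cast] at h3
        exact h3
      have h4 : (b : ℝ) * |(be i : ℝ)| ≤ b * X := by
        gcongr
        exact hbe i
      have h5 : (a : ℝ) * |(be j : ℝ)| ≤ a * X := by
        gcongr
        exact hbe j
      have h6 : ((a : ℝ) + b) * X ≤ 2 * (a * b) * X := by
        apply mul_le_mul_of_nonneg_right _ hX0.le
        nlinarith
      nlinarith
    have h2 : ((h.natAbs : ℕ) : ℝ) ≤ M := by
      rw [Nat.cast_natAbs]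
      push_cast
      exact h1
    exact_mod_cast h2
  obtain ⟨S, hS, hmain⟩ := hX2 M hMX2 h hh0 hhM A B s4 s5 s6 s7
  obtain ⟨hps, -⟩ := hPP M hMX1
  obtain ⟨ps, hpsd⟩ : ∃ ps : ℕ, ps = PP M := ⟨_, rfl⟩
  rw [← hpsd] at hps hmain
  have hps2 : GoodP 2 ps := by
    rcases hps with h1 | ⟨h1, h2⟩
    · exact Or.inl h1
    · exact Or.inr ⟨h1, by omega⟩
  refine ⟨S, ps, hps2, hS, ?_⟩
  obtain ⟨W, hWd⟩ : ∃ W : ℕ, W = WX M S ps := ⟨_, rfl⟩
  rw [← hWd] at hmain ⊢
  have hW0 : 0 < W := by rw [hWd]; exact WX_pos _ _ _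
  have hWa : ∀ q : ℕ, q.Prime → q ∣ al i → q ∣ W := by
    intro q hq hqi
    obtain ⟨_, _, e1, e2, _⟩ := hX9 M hMX9
    rw [hWd]
    apply small_dvd hq _ hS hps e1 e2
    rw [hali] at hqi
    have h3 := Nat.le_of_dvd (by omega) hqi
    have h4 : a ≤ b * a := Nat.le_mul_of_pos_left _ hb
    omega
  intro n₀ hn₀
  -- a positive value
  obtain ⟨n₁, hn₁⟩ : ∃ n : ℕ, n = n₀ + W * ((be i).natAbs + 1) := ⟨_, rfl⟩
  have hn₁W : n₁ ≡ n₀ [MOD W] := by
    rw [hn₁]
    have h2 : W * ((be i).natAbs + 1) ≡ 0 [MOD W] := (Nat.modEq_zero_iff_dvd).2 (dvd_mul_right _ _)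
    have h3 := Nat.ModEq.add_left n₀ h2
    rwa [add_zero] at h3
  have hno : ∀ p : ℕ, p.Prime → p ∣ W → ∀ l, ¬ (p : ℤ) ∣ fm al be l n₁ := by
    intro p hp hpW l hd
    apply hn₀ p hp hpW l
    have h2 : (n₁ : ℤ) ≡ n₀ [ZMOD p] := ((Int.natCast_modEq_iff).2 hn₁W).of_dvd (Int.natCast_dvd_natCast.2 hpW)
    have h3 : fm al be l n₁ ≡ fm al be l n₀ [ZMOD p] := by
      unfold fm
      exact (h2.mul_left _).add_right _
    exact h3.dvd_iff.1 hd
  have hpos : 0 < fm al be i n₁ := by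
    unfold fm
    have h1 : ((be i).natAbs : ℤ) + 1 ≤ n₁ := by
      rw [hn₁]
      have h2 : (be i).natAbs + 1 ≤ n₀ + W * ((be i).natAbs + 1) := by nlinarith
      exact_mod_cast h2
    have h3 : (n₁ : ℤ) ≤ al i * n₁ := by
      have h4 : n₁ ≤ al i * n₁ := Nat.le_mul_of_pos_left n₁ (hal i)
      exact_mod_cast h4
    have h5 : -((be i).natAbs : ℤ) ≤ be i := by omega
    linarith
  obtain ⟨a', ha'⟩ : ∃ a' : ℕ, a' = (fm al be i n₁).toNat := ⟨_, rfl⟩
  have han : (a' : ℤ) = fm al be i n₁ := by rw [ha']; exact Int.toNat_of_nonneg hpos.le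
  obtain ⟨Y, hYd⟩ : ∃ Y : ℕ, Y = ⌊(M : ℝ) ^ (1 / (t : ℝ))⌋₊ := ⟨_, rfl⟩
  rw [← hYd] at hmain
  have hDat := datL al be i j hij hadm Y
  rw [← hh] at hDat
  rw [← hali, ← halj] at hmain
  have hneg : h - (al j : ℤ) * a' = -(al i * fm al be j n₁) := by
    rw [han, hh]
    unfold fm
    ring
  have hγ1 : 1 ≤ al i := hal i
  have hγ0 : (al i : ℤ) ≠ 0 := by
    have : al i ≠ 0 := by omega
    exact_mod_cast this
  have h1 := hmain (OmL al be i) hDat a' (by
    intro q hq hqW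
    have hqp := Pr_prime hq
    have hqa : ¬ q ∣ a' := by
      intro hd
      apply hno q hqp hqW i
      rw [← han]
      exact Int.natCast_dvd_natCast.2 hd
    by_cases hqi : q ∣ al i
    · rw [mem_Z0_OmL' hqi]
      exact hqa
    · rw [mem_Z0_OmL hqp.pos hqi]
      rintro (h1 | ⟨l, hl, h1⟩)
      · exact hqa h1
      · rw [han, fm_rel] at h1
        rcases (Nat.prime_iff_prime_int.1 hqp).dvd_or_dvd h1 with h4 | h4
        · exact hqi (Int.natCast_dvd_natCast.1 h4)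
        · exact hno q hqp hqW l h4) (by
    rw [hneg]
    exact (Dvd.intro _ rfl : (al i : ℤ) ∣ al i * fm al be j n₁).neg_right) (by
    intro q hq hqW
    rw [hneg, ← mul_neg, Int.mul_ediv_cancel_left _ hγ0, dvd_neg]
    exact hno q hq hqW j)
  obtain ⟨q1, q2, q3, q4, q5⟩ := hX5 M hMX5
  rw [← hYd] at q2 q3
  have hWr : (0 : ℝ) < W := by exact_mod_cast hW0
  -- the size of the lower bound
  have hlow : X ^ (99 / 100 : ℝ) ≤ c * ((((B : ℝ) - A) / (W : ℝ)) * VD (OmL al be i) (W * ps) Y) := by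
    have hWle : (W : ℝ) ≤ (M : ℝ) ^ (1 / 50000 : ℝ) := by
      rw [hWd]
      exact WX_le (by linarith) _ _
    have hYM : (Y : ℝ) ≤ M := by
      have h2 : (Y : ℝ) ≤ (M : ℝ) ^ (1 / (t : ℝ)) := by rw [hYd]; exact Nat.floor_le (by positivity)
      refine h2.trans ?_
      calc (M : ℝ) ^ (1 / (t : ℝ)) ≤ (M : ℝ) ^ (1 : ℝ) := by
            apply Real.rpow_le_rpow_of_exponent_le (by linarith)
            rw [div_le_one ht0]
            exact_mod_cast ht
        _ = M := Real.rpow_one _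
    have hVX := VV_ge (K := 2 * (k + 1)) hDat.adm (hV Y (by omega)) hcV hYM (by omega)
    have hVD := hVX.trans (VV_le_VD hDat.adm (W * ps))
    have hlM : 0 < Real.log M := by linarith
    have h3 : X ^ (99 / 100 : ℝ) ≤ (M : ℝ) ^ (999 / 1000 : ℝ) := by
      calc X ^ (99 / 100 : ℝ) ≤ (M : ℝ) ^ (99 / 100 : ℝ) := Real.rpow_le_rpow hX0.le hXM (by norm_num)
        _ ≤ (M : ℝ) ^ (999 / 1000 : ℝ) := Real.rpow_le_rpow_of_exponent_le (by linarith) (by norm_num)
    refine h3.trans (q1.trans ?_)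
    have h4 : c * (2 * (1 / (16 * (b : ℝ)))) * ((M : ℝ) / 2 / (M : ℝ) ^ (1 / 50000 : ℝ) *
        (cV / Real.log M ^ (2 * (k + 1)))) =
        c * ((1 / (16 * (b : ℝ)) * M) / (M : ℝ) ^ (1 / 50000 : ℝ) * (cV / Real.log M ^ (2 * (k + 1)))) := by
      ring
    rw [h4]
    have hBA0 : (0 : ℝ) ≤ (B : ℝ) - A := le_trans (by positivity) s7
    apply mul_le_mul_of_nonneg_left _ hc.le
    apply mul_le_mul _ hVD (by positivity)
    · exact div_nonneg hBA0 hWr.le
    · exact div_le_div₀ hBA0 s7 hWr hWle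
  -- the level
  have ht2 : 2 ≤ t := by
    by_contra ht1
    have ht1' : t = 1 := by omega
    have hYM : Y = M := by
      rw [hYd, ht1']
      norm_num
    have h2 : (GWL (al j) (al i) A B (Nat.sqrt M) Y (W * al i) a' h (OmL al be i)).card = 0 := by
      rw [card_eq_zero, eq_empty_iff_forall_notMem]
      intro p hp
      unfold GWL at hp
      rw [mem_filter] at hp
      obtain ⟨hpP, _, hpZ, _⟩ := hp
      unfold PNX at hpP
      rw [mem_filter, mem_Ioc] at hpP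
      obtain ⟨⟨hpA, hpB⟩, hpp⟩ := hpP
      have hpM : p ≤ M := by
        have h3 : B ≤ b * B := Nat.le_mul_of_pos_left _ hb
        omega
      apply hpZ p
      · rw [Pr_mem, hYM]
        exact ⟨⟨hpp.pos, hpM⟩, hpp⟩
      · rw [Nat.mod_self]
        unfold Z0
        exact mem_insert_self _ _
    rw [h2] at h1
    have h3 : 0 < X ^ (99 / 100 : ℝ) := Real.rpow_pos_of_pos hX0 _
    have h4 := hlow.trans h1
    norm_num at h4
    linarith
  have hYX : (Y : ℝ) ≤ X := by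
    have h2 : (Y : ℝ) ≤ (M : ℝ) ^ (1 / (t : ℝ)) := by rw [hYd]; exact Nat.floor_le (by positivity)
    have h3 : (M : ℝ) ^ (1 / (t : ℝ)) ≤ (M : ℝ) ^ (1 / 2 : ℝ) := by
      apply Real.rpow_le_rpow_of_exponent_le (by linarith)
      apply one_div_le_one_div_of_le (by norm_num)
      exact_mod_cast ht2
    have h4 : (M : ℝ) ^ (1 / 2 : ℝ) ≤ X := by
      rw [← Real.sqrt_eq_rpow, Real.sqrt_le_left hX0.le]
      have h5 : 4 * (a * b : ℝ) * (X + 1) ≤ X / 128 * (X + 1) := by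
        apply mul_le_mul_of_nonneg_right _ (by linarith)
        linarith
      nlinarith
    linarith
  -- the points
  have hpt : ∀ p : ℕ, p ≡ a' [MOD W * al i] → ∃ z : ℤ, (p : ℤ) = al i * z + be i ∧ z ≡ n₁ [ZMOD W] := by
    intro p hp
    have h2 : ((W * al i : ℕ) : ℤ) ∣ (a' : ℤ) - p := Nat.modEq_iff_dvd.1 hp
    obtain ⟨w, hw⟩ := h2
    refine ⟨n₁ - W * w, ?_, ?_⟩
    · have h3 : (p : ℤ) = a' - ((W * al i : ℕ) : ℤ) * w := by linarith
      rw [h3, han]
      unfold fm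
      push_cast
      ring
    · rw [Int.modEq_iff_dvd]
      exact ⟨w, by ring⟩
  have hpt2 : ∀ p : ℕ, p ∈ GWL (al j) (al i) A B (Nat.sqrt M) Y (W * al i) a' h (OmL al be i) →
      ∃ n : ℕ, ((p : ℤ) - be i) / al i = n ∧ (p : ℤ) = fm al be i n ∧ n ≡ n₁ [MOD W] ∧ X < n ∧ (n : ℝ) ≤ 2 * X := by
    intro p hp
    unfold GWL at hp
    rw [mem_filter] at hp
    obtain ⟨hpP, hpa, _⟩ := hp
    unfold PNX at hpP
    rw [mem_filter, mem_Ioc] at hpP
    obtain ⟨⟨hpA, hpB⟩, hpp⟩ := hpP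
    obtain ⟨z, hz1, hz2⟩ := hpt p hpa
    have hpA' : (A : ℝ) + 1 ≤ p := by exact_mod_cast hpA
    have hpB' : (p : ℝ) ≤ B := by exact_mod_cast hpB
    have hz1' : (p : ℝ) = a * z + be i := by rw [← hali]; exact_mod_cast hz1
    have hz3 : X < z := by
      have h2 : (a : ℝ) * X < a * z := by nlinarith
      exact lt_of_mul_lt_mul_left h2 (by linarith)
    have hz4 : (z : ℝ) ≤ 2 * X := by
      have h2 : (a : ℝ) * z ≤ a * (2 * X) := by linarith
      exact le_of_mul_le_mul_left h2 (by linarith)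
    have hz0 : 0 ≤ z := by
      have : (0 : ℝ) ≤ z := by linarith
      exact_mod_cast this
    obtain ⟨n, rfl⟩ := Int.eq_ofNat_of_zero_le hz0
    refine ⟨n, ?_, ?_, (Int.natCast_modEq_iff).1 hz2, by exact_mod_cast hz3, by exact_mod_cast hz4⟩
    · have h2 : (p : ℤ) - be i = al i * n := by linarith
      rw [h2, Int.mul_ediv_cancel_left _ hγ0]
    · rw [hz1]
      rfl
  have hcard : (GWL (al j) (al i) A B (Nat.sqrt M) Y (W * al i) a' h (OmL al be i)).card ≤
      (PtsC t X al be i j W n₀).card := by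
    apply card_le_card_of_injOn (fun p : ℕ => (((p : ℤ) - be i) / al i).toNat)
    · intro p hp
      rw [mem_coe] at hp ⊢
      obtain ⟨n, hn1, hn2, hn3, hn4, hn5⟩ := hpt2 p hp
      show (((p : ℤ) - be i) / al i).toNat ∈ _
      rw [hn1, Int.toNat_natCast]
      unfold GWL at hp
      rw [mem_filter] at hp
      obtain ⟨hpP, _, hpZ, hpn0, hplen, hpfac⟩ := hp
      unfold PNX at hpP
      rw [mem_filter, mem_Ioc] at hpP
      have hnnj : nn (al j) (al i) h p = (fm al be j n).natAbs := by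
        unfold nn
        have h2 : h - (al j : ℤ) * p = -(al i * fm al be j n) := by
          rw [hn2, hh]
          unfold fm
          ring
        rw [h2, Int.natAbs_neg, Int.natAbs_mul, Int.natAbs_natCast, Nat.mul_div_cancel_left _ hγ1]
      rw [hnnj] at hpn0 hplen hpfac
      have hnX : ∀ q : ℕ, q ∣ W → ∀ l, ((q : ℤ) ∣ fm al be l n ↔ (q : ℤ) ∣ fm al be l n₁) := by
        intro q hqW l
        have h2 : (n : ℤ) ≡ n₁ [ZMOD q] := ((Int.natCast_modEq_iff).2 hn3).of_dvd (Int.natCast_dvd_natCast.2 hqW)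
        have h3 : fm al be l n ≡ fm al be l n₁ [ZMOD q] := by
          unfold fm
          exact (h2.mul_left _).add_right _
        exact h3.dvd_iff
      have hrough : ∀ l, ∀ q : ℕ, q.Prime → (q : ℝ) ≤ X ^ (1 / (t : ℝ)) → ¬ (q : ℤ) ∣ fm al be l n := by
        intro l q hq hqX hd
        have hqY : q ∈ Pr 0 Y := by
          rw [Pr_mem]
          refine ⟨⟨hq.pos, ?_⟩, hq⟩
          rw [hYd]
          apply Nat.le_floor
          exact hqX.trans (Real.rpow_le_rpow hX0.le hXM (by positivity))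
        have h2 := hpZ q hqY
        by_cases hqi : q ∣ al i
        · have hqW : q ∣ W := hWa q hq hqi
          exact hno q hq hqW l ((hnX q hqW l).1 hd)
        · rw [mem_Z0_OmL hq.pos hqi] at h2
          apply h2
          by_cases hli : l = i
          · left
            rw [hli, ← hn2] at hd
            exact Int.natCast_dvd_natCast.1 hd
          · right
            refine ⟨l, hli, ?_⟩
            rw [hn2, fm_rel]
            exact hd.mul_left _
      unfold PtsC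
      rw [mem_filter, mem_range]
      refine ⟨?_, hn4, hn3.trans hn₁W, ?_, ?_, ⟨hplen, ?_⟩, ?_⟩
      · have := Nat.le_floor hn5
        omega
      · intro l
        unfold fm
        have h2 : (0 : ℝ) < (al l : ℝ) * n + be l := by
          have h3 : (1 : ℝ) ≤ al l := by exact_mod_cast hal l
          have h4 := abs_le.1 (hbe l)
          nlinarith
        exact_mod_cast h2
      · rw [← hn2, Int.natAbs_natCast]
        exact hpP.2
      · intro q hq hd
        refine lt_of_lt_of_le ?_ (hpfac q hq (Int.natCast_dvd.1 hd))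
        refine lt_of_le_of_lt ?_ q5
        apply Real.rpow_le_rpow hX0.le _ (by norm_num)
        linarith
      · intro l q hq hd
        by_contra hcon
        exact hrough l q hq (not_lt.1 hcon) hd
    · intro p hp p' hp' he
      rw [mem_coe] at hp hp'
      obtain ⟨n, hn1, hn2, _⟩ := hpt2 p hp
      obtain ⟨n', hn1', hn2', _⟩ := hpt2 p' hp'
      simp only at he
      rw [hn1, hn1', Int.toNat_natCast, Int.toNat_natCast] at he
      rw [he, ← hn2'] at hn2
      exact_mod_cast hn2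
  have hcard' : ((GWL (al j) (al i) A B (Nat.sqrt M) Y (W * al i) a' h (OmL al be i)).card : ℝ) ≤
      ((PtsC t X al be i j W n₀).card : ℝ) := by exact_mod_cast hcard
  refine ⟨(hlow.trans h1).trans hcard', ?_⟩
  refine le_trans ?_ (h1.trans hcard')
  have hVD := prod_le_VD (al := al) (be := be) (i := i) (X := X) (Y := Y) (W := W) (ps := ps) hYX hWa
    (fun q hq c hc => (hDat.adm q hq).2.2.2 c hc)
  have hVD0 : 0 ≤ VD (OmL al be i) (W * ps) Y := by
    have hYM : (Y : ℝ) ≤ M := by linarith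
    have hVX := VV_ge (K := 2 * (k + 1)) hDat.adm (hV Y (by omega)) hcV hYM (by omega)
    have hlM : 0 < Real.log M := by linarith
    exact le_trans (by positivity) (hVX.trans (VV_le_VD hDat.adm (W * ps)))
  calc c / 2 * (X / (W : ℝ) * ∏ q ∈ (Icc 1 ⌊X⌋₊).filter (fun q => q.Prime ∧ ¬ q ∣ W), (1 - (om al be q : ℝ) / q))
      ≤ c / 2 * (X / (W : ℝ) * VD (OmL al be i) (W * ps) Y) := by gcongr
    _ = c * (X / 2 / (W : ℝ) * VD (OmL al be i) (W * ps) Y) := by ring
    _ ≤ c * ((((B : ℝ) - A) / (W : ℝ)) * VD (OmL al be i) (W * ps) Y) := by gcongr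

end Pool.Agent.Q117.LF
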