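import Pool.Agent.Q117.LF.Stm3
import Pool.Agent.Q117.LF.Lcl

/-!
# The class form of Chen's theorem in systems of linear forms, with large intercepts

Project LF, job LCK. The file follows `Pool/Agent/Q117/LF/Lcl.lean`.
-/

set_option autoImplicit false

namespace Pool.Agent.Q117.LF

open Finset Filter
open Pool.Agent.Y843.HS (Pr VV Pr_mem Pr_prime)
open Pool.Agent.Y843.HG (Adm Z0 SP VV_low)
open Pool.Agent.Y843.CH
open Pool.Agent.H378R2 (yy z2 GoodS GoodP WW)
open Pool.Agent.Q117.CR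
open Pool.Agent.Q117.GP (Rk)

/-- sizes -/
theorem sizesK (a b K : ℕ) (ha : 1 ≤ a) (hb : 1 ≤ b) (hK : 1 ≤ K) (X : ℝ) (be : ℤ) (hX : 100 ≤ X)
    (hX2 : 512 * (a * b * K ^ 3 : ℝ) ≤ X) (hbe : |(be : ℝ)| ≤ K * X) (hps : X / K ≤ a * X + be) (M A B : ℕ)
    (hM : M = Sk a b K X) (hA : A = ⌈(a : ℝ) * X + be⌉₊) (hB : B = ⌊(a : ℝ) * (X + X / K) + be⌋₊) :
    4 * (a * b * K : ℝ) * X ≤ M ∧ (a : ℝ) * X + be ≤ A ∧ (B : ℝ) ≤ a * (X + X / K) + be ∧ Nat.sqrt M ≤ A ∧ A ≤ B ∧
      b * B ≤ M ∧ 1 / (16 * (b * K ^ 2 : ℝ)) * M ≤ (B : ℝ) - A ∧ X / (2 * K) ≤ (B : ℝ) - A ∧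
      (M : ℝ) ≤ 4 * (a * b * K) * (X + 1) := by
  have hX0 : 0 < X := by linarith
  have ha1 : (1 : ℝ) ≤ a := by exact_mod_cast ha
  have hb1 : (1 : ℝ) ≤ b := by exact_mod_cast hb
  have hK1 : (1 : ℝ) ≤ K := by exact_mod_cast hK
  have hab : (1 : ℝ) ≤ a * b := by nlinarith
  have habK : (1 : ℝ) ≤ a * b * K := by nlinarith
  obtain ⟨y, hy⟩ : ∃ y : ℝ, y = X / K := ⟨_, rfl⟩
  have hXy : X = K * y := by
    rw [hy]
    field_simp
  have hy0 : 0 < y := by rw [hy]; positivity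
  have hy1 : 512 * (a * b * K ^ 2 : ℝ) ≤ y := by
    rw [hy, le_div_iff₀ (by linarith)]
    calc 512 * (a * b * K ^ 2 : ℝ) * K = 512 * (a * b * K ^ 3 : ℝ) := by ring
      _ ≤ X := hX2
  have hy2 : 512 ≤ y := by
    refine le_trans ?_ hy1
    have h1 : (1 : ℝ) ≤ a * b * K ^ 2 := by
      have h2 : (1 : ℝ) ≤ (K : ℝ) ^ 2 := one_le_pow₀ hK1
      nlinarith
    linarith
  have hyX : y ≤ X := by
    rw [hXy]
    nlinarith
  rw [← hy] at hps hB
  rw [show X / (2 * (K : ℝ)) = y / 2 by rw [hy]; field_simp]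
  rw [← hy]
  have hbe' := abs_le.1 hbe
  have hce1 : X ≤ (⌈X⌉₊ : ℝ) := Nat.le_ceil X
  have hce2 : (⌈X⌉₊ : ℝ) < X + 1 := Nat.ceil_lt_add_one hX0.le
  have hMe : (M : ℝ) = 4 * (a * b * K) * (⌈X⌉₊ : ℝ) := by
    rw [hM]
    unfold Sk
    push_cast
    ring
  have hM1 : 4 * (a * b * K) * X ≤ M := by rw [hMe]; gcongr
  have hM2 : (M : ℝ) ≤ 4 * (a * b * K) * (X + 1) := by rw [hMe]; gcongr
  have hay : y ≤ a * y := by nlinarith
  have hA0 : 0 ≤ (a : ℝ) * X + be := by linarith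
  have hB0 : 0 ≤ (a : ℝ) * (X + y) + be := by nlinarith
  have hA1 : (a : ℝ) * X + be ≤ A := by rw [hA]; exact Nat.le_ceil _
  have hA2 : (A : ℝ) < (a : ℝ) * X + be + 1 := by rw [hA]; exact Nat.ceil_lt_add_one hA0
  have hB1 : (B : ℝ) ≤ a * (X + y) + be := by rw [hB]; exact Nat.floor_le hB0
  have hB2 : a * (X + y) + be < (B : ℝ) + 1 := by rw [hB]; exact Nat.lt_floor_add_one _
  have hAX : y ≤ A := by linarith
  have hABe : a * y - 2 ≤ (B : ℝ) - A := by
    have h1 : (a : ℝ) * (X + y) = a * X + a * y := by ring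
    linarith
  have hAB : y / 2 ≤ (B : ℝ) - A := by linarith
  have hAB' : (A : ℝ) ≤ B := by linarith
  refine ⟨hM1, hA1, hB1, ?_, by exact_mod_cast hAB', ?_, ?_, hAB, hM2⟩
  · have h1 : M < (A + 1) ^ 2 := by
      have h2 : (M : ℝ) < ((A : ℝ) + 1) ^ 2 := by
        have h3 : (y + 1) ^ 2 ≤ ((A : ℝ) + 1) ^ 2 := by gcongr
        have h5 : 4 * (a * b * K : ℝ) * (X + 1) ≤ 4 * (a * b * K : ℝ) * (2 * X) := by
          gcongr
          linarith
        have h6 : 4 * (a * b * K : ℝ) * (2 * X) = (512 * (a * b * K ^ 2 : ℝ)) * y / 64 := by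
          rw [hXy]
          ring
        have h7 : (512 * (a * b * K ^ 2 : ℝ)) * y ≤ y * y := by gcongr
        nlinarith
      exact_mod_cast h2
    have := Nat.sqrt_lt'.2 h1
    omega
  · have h1 : ((b * B : ℕ) : ℝ) ≤ M := by
      push_cast
      have h3 : (B : ℝ) ≤ 3 * (a * K) * X := by
        have h4 : (a : ℝ) * (X + y) ≤ 2 * (a * K) * X := by
          calc (a : ℝ) * (X + y) ≤ a * (X + X) := by gcongr
            _ = 2 * (a * 1) * X := by ring
            _ ≤ 2 * (a * K) * X := by gcongr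
        have h5 : (K : ℝ) * X ≤ (a * K) * X := by
          have h6 : (K : ℝ) ≤ a * K := by nlinarith
          gcongr
        linarith
      have h2 : (b : ℝ) * B ≤ b * (3 * (a * K) * X) := by gcongr
      have h3 : (b : ℝ) * (3 * (a * K) * X) ≤ 4 * (a * b * K) * X := by
        have : 0 ≤ (a : ℝ) * b * K * X := by positivity
        nlinarith
      linarith
    exact_mod_cast h1
  · have h1 : 1 / (16 * (b * K ^ 2 : ℝ)) * M ≤ 1 / (16 * (b * K ^ 2 : ℝ)) * (4 * (a * b * K) * (X + 1)) := by gcongr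
    have h2 : 1 / (16 * (b * K ^ 2 : ℝ)) * (4 * (a * b * K) * (X + 1)) = a * (y + 1 / K) / 4 := by
      rw [hXy]
      field_simp
      ring
    rw [h2] at h1
    have h3 : 1 / (K : ℝ) ≤ 1 := by
      rw [div_le_one (by linarith)]
      exact hK1
    have h4 : (a : ℝ) * (y + 1 / K) ≤ a * (y + 1) := by gcongr
    have h5 : (0 : ℝ) ≤ (a - 1) * (3 * y / 4 - 1 / 4) := mul_nonneg (by linarith) (by linarith)
    nlinarith

/-- the class form -/
theorem lck : St_LCK := by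
  classical
  intro hCWL k a b K ha hb hK
  have hKr : (1 : ℝ) ≤ K := by exact_mod_cast hK
  have hK2 : (1 : ℝ) ≤ (K : ℝ) ^ 2 := one_le_pow₀ hKr
  have har : (1 : ℝ) ≤ a := by exact_mod_cast ha
  have hbr : (1 : ℝ) ≤ b := by exact_mod_cast hb
  obtain ⟨t, ht, c, hc, X1, PP, hPP, hW⟩ := hCWL k b a hb ha
  have ht0 : (0 : ℝ) < t := by exact_mod_cast ht
  obtain ⟨X2, hX2⟩ := hW (1 / (16 * (b * K ^ 2 : ℝ))) (by positivity) (by
    rw [div_le_one (by positivity)]
    nlinarith)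
  obtain ⟨cV, hcV, hV⟩ := VV_low (k + 1)
  obtain ⟨X5, hX5⟩ := ev_fin t (2 * (k + 1)) ht (c * (2 * (1 / (16 * (b * K ^ 2 : ℝ))))) cV (by positivity) hcV
  obtain ⟨X9, hX9⟩ := ev_cond t (b * a + 2) 1 1 ht 1 one_pos 1
  refine ⟨t, ht, c / (2 * K), by positivity, max (max X1 X2) (max (max X5 X9) (max 100 (512 * (a * b * K ^ 3 : ℝ)))), ?_⟩
  intro X hX al be i j hij hali halj hal0 hbe hbi hne hadm
  simp only [max_le_iff] at hX
  obtain ⟨⟨g1, g2⟩, ⟨g5, g9⟩, g12, g13⟩ := hX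
  have hX0 : 0 < X := by linarith
  have hal : ∀ l, 1 ≤ al l := fun l => (hal0 l).1
  obtain ⟨M, hM⟩ : ∃ M : ℕ, M = Sk a b K X := ⟨_, rfl⟩
  obtain ⟨A, hA⟩ : ∃ A : ℕ, A = ⌈(a : ℝ) * X + be i⌉₊ := ⟨_, rfl⟩
  obtain ⟨B, hB⟩ : ∃ B : ℕ, B = ⌊(a : ℝ) * (X + X / K) + be i⌋₊ := ⟨_, rfl⟩
  obtain ⟨s1, s2, s3, s4, s5, s6, s7, s8, s9⟩ := sizesK a b K ha hb hK X (be i) g12 g13 (hbe i) hbi M A B hM hA hB
  rw [← hM]
  have hab1 : (1 : ℝ) ≤ a * b := by nlinarith
  have habK : (1 : ℝ) ≤ a * b * K := by nlinarith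
  have hXM2 : 2 * X ≤ M := by nlinarith
  have hXM : X ≤ M := by linarith
  have hM0 : (0 : ℝ) < M := by linarith
  have hMX1 : X1 ≤ M := by exact_mod_cast g1.trans hXM
  have hMX2 : X2 ≤ M := by exact_mod_cast g2.trans hXM
  have hMX5 : X5 ≤ M := by exact_mod_cast g5.trans hXM
  have hMX9 : X9 ≤ M := by exact_mod_cast g9.trans hXM
  -- the shift
  obtain ⟨h, hh⟩ : ∃ h : ℤ, h = (al j : ℤ) * be i - al i * be j := ⟨_, rfl⟩
  have hh0 : h ≠ 0 := by
    rw [hh]
    intro h0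
    exact hne j i hij.symm (by linarith)
  have hhM : h.natAbs ≤ M := by
    have h1 : |(h : ℝ)| ≤ M := by
      rw [hh, hali, halj]
      push_cast
      have h2 : |(b : ℝ) * be i - a * be j| ≤ b * |(be i : ℝ)| + a * |(be j : ℝ)| := by
        have h3 := abs_sub ((b : ℝ) * be i) ((a : ℝ) * be j)
        rw [abs_mul, abs_mul, Nat.abs_cast, Nat.abs_cast] at h3
        exact h3
      have h4 : (b : ℝ) * |(be i : ℝ)| ≤ b * (K * X) := by
        gcongr
        exact hbe i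
      have h5 : (a : ℝ) * |(be j : ℝ)| ≤ a * (K * X) := by
        gcongr
        exact hbe j
      have hKX : 0 ≤ (K : ℝ) * X := by positivity
      have h6 : ((a : ℝ) + b) * (K * X) ≤ 2 * (a * b) * (K * X) := by
        apply mul_le_mul_of_nonneg_right _ hKX
        nlinarith
      nlinarith
    have h2 : ((h.natAbs : ℕ) : ℝ) ≤ M := by
      rw [Nat.cast_natAbs]
      push_cast
      exact h1
    exact_mod_cast h2
  obtain ⟨S, hS, hmain⟩ := hX2 M hMX2 h hh0 hhM A B s4 s5 s6 s7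
  obtain ⟨hps, -⟩ := hPP M hMX1
  obtain ⟨ps, hpsd⟩ : ∃ ps : ℕ, ps = PP M := ⟨_, rfl⟩
  rw [← hpsd] at hps hmain
  have hps2 : GoodP 2 ps := by
    rcases hps with h1 | ⟨h1, h2⟩
    · exact Or.inl h1
    · exact Or.inr ⟨h1, by omega⟩
  refine ⟨S, ps, hps2, hS, ?_⟩
  obtain ⟨W, hWd⟩ : ∃ W : ℕ, W = WX M S ps := ⟨_, rfl⟩
  rw [← hWd] at hmain ⊢
  have hW0 : 0 < W := by rw [hWd]; exact WX_pos _ _ _
  have hWa : ∀ q : ℕ, q.Prime → q ∣ al i → q ∣ W := by
    intro q hq hqi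
    obtain ⟨_, _, e1, e2, _⟩ := hX9 M hMX9
    rw [hWd]
    apply small_dvd hq _ hS hps e1 e2
    rw [hali] at hqi
    have h3 := Nat.le_of_dvd (by omega) hqi
    have h4 : a ≤ b * a := Nat.le_mul_of_pos_left _ hb
    omega
  intro n₀ hn₀
  -- a positive value
  obtain ⟨n₁, hn₁⟩ : ∃ n : ℕ, n = n₀ + W * ((be i).natAbs + 1) := ⟨_, rfl⟩
  have hn₁W : n₁ ≡ n₀ [MOD W] := by
    rw [hn₁]
    have h2 : W * ((be i).natAbs + 1) ≡ 0 [MOD W] := (Nat.modEq_zero_iff_dvd).2 (dvd_mul_right _ _)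
    have h3 := Nat.ModEq.add_left n₀ h2
    rwa [add_zero] at h3
  have hno : ∀ p : ℕ, p.Prime → p ∣ W → ∀ l, ¬ (p : ℤ) ∣ fm al be l n₁ := by
    intro p hp hpW l hd
    apply hn₀ p hp hpW l
    have h2 : (n₁ : ℤ) ≡ n₀ [ZMOD p] := ((Int.natCast_modEq_iff).2 hn₁W).of_dvd (Int.natCast_dvd_natCast.2 hpW)
    have h3 : fm al be l n₁ ≡ fm al be l n₀ [ZMOD p] := by
      unfold fm
      exact (h2.mul_left _).add_right _
    exact h3.dvd_iff.1 hd
  have hpos : 0 < fm al be i n₁ := by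
    unfold fm
    have h1 : ((be i).natAbs : ℤ) + 1 ≤ n₁ := by
      rw [hn₁]
      have h2 : (be i).natAbs + 1 ≤ n₀ + W * ((be i).natAbs + 1) := by nlinarith
      exact_mod_cast h2
    have h3 : (n₁ : ℤ) ≤ al i * n₁ := by
      have h4 : n₁ ≤ al i * n₁ := Nat.le_mul_of_pos_left n₁ (hal i)
      exact_mod_cast h4
    have h5 : -((be i).natAbs : ℤ) ≤ be i := by omega
    linarith
  obtain ⟨a', ha'⟩ : ∃ a' : ℕ, a' = (fm al be i n₁).toNat := ⟨_, rfl⟩
  have han : (a' : ℤ) = fm al be i n₁ := by rw [ha']; exact Int.toNat_of_nonneg hpos.le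
  obtain ⟨Y, hYd⟩ : ∃ Y : ℕ, Y = ⌊(M : ℝ) ^ (1 / (t : ℝ))⌋₊ := ⟨_, rfl⟩
  rw [← hYd] at hmain
  have hDat := datL al be i j hij hadm Y
  rw [← hh] at hDat
  rw [← hali, ← halj] at hmain
  have hneg : h - (al j : ℤ) * a' = -(al i * fm al be j n₁) := by
    rw [han, hh]
    unfold fm
    ring
  have hγ1 : 1 ≤ al i := hal i
  have hγ0 : (al i : ℤ) ≠ 0 := by
    have : al i ≠ 0 := by omega
    exact_mod_cast this
  have h1 := hmain (OmL al be i) hDat a' (by
    intro q hq hqW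
    have hqp := Pr_prime hq
    have hqa : ¬ q ∣ a' := by
      intro hd
      apply hno q hqp hqW i
      rw [← han]
      exact Int.natCast_dvd_natCast.2 hd
    by_cases hqi : q ∣ al i
    · rw [mem_Z0_OmL' hqi]
      exact hqa
    · rw [mem_Z0_OmL hqp.pos hqi]
      rintro (h1 | ⟨l, hl, h1⟩)
      · exact hqa h1
      · rw [han, fm_rel] at h1
        rcases (Nat.prime_iff_prime_int.1 hqp).dvd_or_dvd h1 with h4 | h4
        · exact hqi (Int.natCast_dvd_natCast.1 h4)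
        · exact hno q hqp hqW l h4) (by
    rw [hneg]
    exact (Dvd.intro _ rfl : (al i : ℤ) ∣ al i * fm al be j n₁).neg_right) (by
    intro q hq hqW
    rw [hneg, ← mul_neg, Int.mul_ediv_cancel_left _ hγ0, dvd_neg]
    exact hno q hq hqW j)
  obtain ⟨q1, q2, q3, q4, q5⟩ := hX5 M hMX5
  rw [← hYd] at q2 q3
  have hWr : (0 : ℝ) < W := by exact_mod_cast hW0
  -- the size of the lower bound
  have hlow : X ^ (99 / 100 : ℝ) ≤ c * ((((B : ℝ) - A) / (W : ℝ)) * VD (OmL al be i) (W * ps) Y) := by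
    have hWle : (W : ℝ) ≤ (M : ℝ) ^ (1 / 50000 : ℝ) := by
      rw [hWd]
      exact WX_le (by linarith) _ _
    have hYM : (Y : ℝ) ≤ M := by
      have h2 : (Y : ℝ) ≤ (M : ℝ) ^ (1 / (t : ℝ)) := by rw [hYd]; exact Nat.floor_le (by positivity)
      refine h2.trans ?_
      calc (M : ℝ) ^ (1 / (t : ℝ)) ≤ (M : ℝ) ^ (1 : ℝ) := by
            apply Real.rpow_le_rpow_of_exponent_le (by linarith)
            rw [div_le_one ht0]
            exact_mod_cast ht
        _ = M := Real.rpow_one _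
    have hVX := VV_ge (K := 2 * (k + 1)) hDat.adm (hV Y (by omega)) hcV hYM (by omega)
    have hVD := hVX.trans (VV_le_VD hDat.adm (W * ps))
    have hlM : 0 < Real.log M := by linarith
    have h3 : X ^ (99 / 100 : ℝ) ≤ (M : ℝ) ^ (999 / 1000 : ℝ) := by
      calc X ^ (99 / 100 : ℝ) ≤ (M : ℝ) ^ (99 / 100 : ℝ) := Real.rpow_le_rpow hX0.le hXM (by norm_num)
        _ ≤ (M : ℝ) ^ (999 / 1000 : ℝ) := Real.rpow_le_rpow_of_exponent_le (by linarith) (by norm_num)
    refine h3.trans (q1.trans ?_)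
    have h4 : c * (2 * (1 / (16 * (b * K ^ 2 : ℝ)))) * ((M : ℝ) / 2 / (M : ℝ) ^ (1 / 50000 : ℝ) *
        (cV / Real.log M ^ (2 * (k + 1)))) =
        c * ((1 / (16 * (b * K ^ 2 : ℝ)) * M) / (M : ℝ) ^ (1 / 50000 : ℝ) * (cV / Real.log M ^ (2 * (k + 1)))) := by
      ring
    rw [h4]
    have hBA0 : (0 : ℝ) ≤ (B : ℝ) - A := le_trans (by positivity) s7
    apply mul_le_mul_of_nonneg_left _ hc.le
    apply mul_le_mul _ hVD (by positivity)
    · exact div_nonneg hBA0 hWr.le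
    · exact div_le_div₀ hBA0 s7 hWr hWle
  -- the level
  have ht2 : 2 ≤ t := by
    by_contra ht1
    have ht1' : t = 1 := by omega
    have hYM : Y = M := by
      rw [hYd, ht1']
      norm_num
    have h2 : (GWL (al j) (al i) A B (Nat.sqrt M) Y (W * al i) a' h (OmL al be i)).card = 0 := by
      rw [card_eq_zero, eq_empty_iff_forall_notMem]
      intro p hp
      unfold GWL at hp
      rw [mem_filter] at hp
      obtain ⟨hpP, _, hpZ, _⟩ := hp
      unfold PNX at hpP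
      rw [mem_filter, mem_Ioc] at hpP
      obtain ⟨⟨hpA, hpB⟩, hpp⟩ := hpP
      have hpM : p ≤ M := by
        have h3 : B ≤ b * B := Nat.le_mul_of_pos_left _ hb
        omega
      apply hpZ p
      · rw [Pr_mem, hYM]
        exact ⟨⟨hpp.pos, hpM⟩, hpp⟩
      · rw [Nat.mod_self]
        unfold Z0
        exact mem_insert_self _ _
    rw [h2] at h1
    have h3 : 0 < X ^ (99 / 100 : ℝ) := Real.rpow_pos_of_pos hX0 _
    have h4 := hlow.trans h1
    norm_num at h4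
    linarith
  have hYX : (Y : ℝ) ≤ X := by
    have h2 : (Y : ℝ) ≤ (M : ℝ) ^ (1 / (t : ℝ)) := by rw [hYd]; exact Nat.floor_le (by positivity)
    have h3 : (M : ℝ) ^ (1 / (t : ℝ)) ≤ (M : ℝ) ^ (1 / 2 : ℝ) := by
      apply Real.rpow_le_rpow_of_exponent_le (by linarith)
      apply one_div_le_one_div_of_le (by norm_num)
      exact_mod_cast ht2
    have h4 : (M : ℝ) ^ (1 / 2 : ℝ) ≤ X := by
      rw [← Real.sqrt_eq_rpow, Real.sqrt_le_left hX0.le]
      have h5 : 4 * (a * b * K : ℝ) * (X + 1) ≤ X / 128 * (X + 1) := by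
        apply mul_le_mul_of_nonneg_right _ (by linarith)
        have h6 : (a * b * K : ℝ) ≤ a * b * K ^ 3 := by
          have h7 : (K : ℝ) ≤ (K : ℝ) ^ 3 := le_self_pow₀ hKr (by norm_num)
          gcongr
        linarith
      nlinarith
    linarith
  -- the points
  have hpt : ∀ p : ℕ, p ≡ a' [MOD W * al i] → ∃ z : ℤ, (p : ℤ) = al i * z + be i ∧ z ≡ n₁ [ZMOD W] := by
    intro p hp
    have h2 : ((W * al i : ℕ) : ℤ) ∣ (a' : ℤ) - p := Nat.modEq_iff_dvd.1 hp
    obtain ⟨w, hw⟩ := h2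
    refine ⟨n₁ - W * w, ?_, ?_⟩
    · have h3 : (p : ℤ) = a' - ((W * al i : ℕ) : ℤ) * w := by linarith
      rw [h3, han]
      unfold fm
      push_cast
      ring
    · rw [Int.modEq_iff_dvd]
      exact ⟨w, by ring⟩
  have hpt2 : ∀ p : ℕ, p ∈ GWL (al j) (al i) A B (Nat.sqrt M) Y (W * al i) a' h (OmL al be i) →
      ∃ n : ℕ, ((p : ℤ) - be i) / al i = n ∧ (p : ℤ) = fm al be i n ∧ n ≡ n₁ [MOD W] ∧ X < n ∧ (n : ℝ) ≤ X + X / K := by
    intro p hp
    unfold GWL at hp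
    rw [mem_filter] at hp
    obtain ⟨hpP, hpa, _⟩ := hp
    unfold PNX at hpP
    rw [mem_filter, mem_Ioc] at hpP
    obtain ⟨⟨hpA, hpB⟩, hpp⟩ := hpP
    obtain ⟨z, hz1, hz2⟩ := hpt p hpa
    have hpA' : (A : ℝ) + 1 ≤ p := by exact_mod_cast hpA
    have hpB' : (p : ℝ) ≤ B := by exact_mod_cast hpB
    have hz1' : (p : ℝ) = a * z + be i := by rw [← hali]; exact_mod_cast hz1
    have hz3 : X < z := by
      have h2 : (a : ℝ) * X < a * z := by nlinarith
      exact lt_of_mul_lt_mul_left h2 (by linarith)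
    have hz4 : (z : ℝ) ≤ X + X / K := by
      have h2 : (a : ℝ) * z ≤ a * (X + X / K) := by linarith
      exact le_of_mul_le_mul_left h2 (by linarith)
    have hz0 : 0 ≤ z := by
      have : (0 : ℝ) ≤ z := by linarith
      exact_mod_cast this
    obtain ⟨n, rfl⟩ := Int.eq_ofNat_of_zero_le hz0
    refine ⟨n, ?_, ?_, (Int.natCast_modEq_iff).1 hz2, by exact_mod_cast hz3, by exact_mod_cast hz4⟩
    · have h2 : (p : ℤ) - be i = al i * n := by linarith
      rw [h2, Int.mul_ediv_cancel_left _ hγ0]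
    · rw [hz1]
      rfl
  have hcard : (GWL (al j) (al i) A B (Nat.sqrt M) Y (W * al i) a' h (OmL al be i)).card ≤
      (PtsK t K X al be i j W n₀).card := by
    apply card_le_card_of_injOn (fun p : ℕ => (((p : ℤ) - be i) / al i).toNat)
    · intro p hp
      rw [mem_coe] at hp ⊢
      obtain ⟨n, hn1, hn2, hn3, hn4, hn5⟩ := hpt2 p hp
      show (((p : ℤ) - be i) / al i).toNat ∈ _
      rw [hn1, Int.toNat_natCast]
      unfold GWL at hp
      rw [mem_filter] at hp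
      obtain ⟨hpP, _, hpZ, hpn0, hplen, hpfac⟩ := hp
      unfold PNX at hpP
      rw [mem_filter, mem_Ioc] at hpP
      have hnnj : nn (al j) (al i) h p = (fm al be j n).natAbs := by
        unfold nn
        have h2 : h - (al j : ℤ) * p = -(al i * fm al be j n) := by
          rw [hn2, hh]
          unfold fm
          ring
        rw [h2, Int.natAbs_neg, Int.natAbs_mul, Int.natAbs_natCast, Nat.mul_div_cancel_left _ hγ1]
      rw [hnnj] at hpn0 hplen hpfac
      have hnX : ∀ q : ℕ, q ∣ W → ∀ l, ((q : ℤ) ∣ fm al be l n ↔ (q : ℤ) ∣ fm al be l n₁) := by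
        intro q hqW l
        have h2 : (n : ℤ) ≡ n₁ [ZMOD q] := ((Int.natCast_modEq_iff).2 hn3).of_dvd (Int.natCast_dvd_natCast.2 hqW)
        have h3 : fm al be l n ≡ fm al be l n₁ [ZMOD q] := by
          unfold fm
          exact (h2.mul_left _).add_right _
        exact h3.dvd_iff
      have hrough : ∀ l, ∀ q : ℕ, q.Prime → (q : ℝ) ≤ X ^ (1 / (t : ℝ)) → ¬ (q : ℤ) ∣ fm al be l n := by
        intro l q hq hqX hd
        have hqY : q ∈ Pr 0 Y := by
          rw [Pr_mem]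
          refine ⟨⟨hq.pos, ?_⟩, hq⟩
          rw [hYd]
          apply Nat.le_floor
          exact hqX.trans (Real.rpow_le_rpow hX0.le hXM (by positivity))
        have h2 := hpZ q hqY
        by_cases hqi : q ∣ al i
        · have hqW : q ∣ W := hWa q hq hqi
          exact hno q hq hqW l ((hnX q hqW l).1 hd)
        · rw [mem_Z0_OmL hq.pos hqi] at h2
          apply h2
          by_cases hli : l = i
          · left
            rw [hli, ← hn2] at hd
            exact Int.natCast_dvd_natCast.1 hd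
          · right
            refine ⟨l, hli, ?_⟩
            rw [hn2, fm_rel]
            exact hd.mul_left _
      unfold PtsK
      rw [mem_filter, mem_range]
      refine ⟨?_, hn4, hn5, hn3.trans hn₁W, ?_, ?_, ⟨hplen, ?_⟩, ?_⟩
      · have h2 : X / K ≤ X := div_le_self hX0.le hKr
        have := Nat.le_floor (hn5.trans (show X + X / K ≤ 2 * X by linarith))
        omega
      · rw [← hn2]
        exact_mod_cast hpP.2.pos
      · rw [← hn2, Int.natAbs_natCast]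
        exact hpP.2
      · intro q hq hd
        refine lt_of_lt_of_le ?_ (hpfac q hq (Int.natCast_dvd.1 hd))
        refine lt_of_le_of_lt ?_ q5
        apply Real.rpow_le_rpow hX0.le _ (by norm_num)
        linarith
      · intro l q hq hd
        by_contra hcon
        exact hrough l q hq (not_lt.1 hcon) hd
    · intro p hp p' hp' he
      rw [mem_coe] at hp hp'
      obtain ⟨n, hn1, hn2, _⟩ := hpt2 p hp
      obtain ⟨n', hn1', hn2', _⟩ := hpt2 p' hp'
      simp only at he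
      rw [hn1, hn1', Int.toNat_natCast, Int.toNat_natCast] at he
      rw [he, ← hn2'] at hn2
      exact_mod_cast hn2
  have hcard' : ((GWL (al j) (al i) A B (Nat.sqrt M) Y (W * al i) a' h (OmL al be i)).card : ℝ) ≤
      ((PtsK t K X al be i j W n₀).card : ℝ) := by exact_mod_cast hcard
  refine ⟨(hlow.trans h1).trans hcard', ?_⟩
  refine le_trans ?_ (h1.trans hcard')
  have hVD := prod_le_VD (al := al) (be := be) (i := i) (X := X) (Y := Y) (W := W) (ps := ps) hYX hWa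
    (fun q hq c hc => (hDat.adm q hq).2.2.2 c hc)
  have hVD0 : 0 ≤ VD (OmL al be i) (W * ps) Y := by
    have hYM : (Y : ℝ) ≤ M := by linarith
    have hVX := VV_ge (K := 2 * (k + 1)) hDat.adm (hV Y (by omega)) hcV hYM (by omega)
    have hlM : 0 < Real.log M := by linarith
    exact le_trans (by positivity) (hVX.trans (VV_le_VD hDat.adm (W * ps)))
  calc c / (2 * K) * (X / (W : ℝ) * ∏ q ∈ (Icc 1 ⌊X⌋₊).filter (fun q => q.Prime ∧ ¬ q ∣ W), (1 - (om al be q : ℝ) / q))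
      ≤ c / (2 * K) * (X / (W : ℝ) * VD (OmL al be i) (W * ps) Y) := by gcongr
    _ = c * (X / (2 * K) / (W : ℝ) * VD (OmL al be i) (W * ps) Y) := by ring
    _ ≤ c * ((((B : ℝ) - A) / (W : ℝ)) * VD (OmL al be i) (W * ps) Y) := by gcongr

end Pool.Agent.Q117.LF
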