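import Pool.Agent.Q117.LF.Stm2
import Pool.Agent.Q68.LF.Tools

/-! Project LF (helper117), part 2: job LINM (the theorem in a fixed class), by helper68. -/

set_option autoImplicit false

namespace Pool.Agent.Q117.LF

open Finset Filter
open Pool.Agent.Q117.GP (Rk)
open Pool.Agent.Q68.LF

theorem linm : St_RKM → St_LINM := by
  classical
  intro hRK k al hal i j hij M r hM
  have hM0 : (0 : ℝ) < M := by exact_mod_cast hM
  have hM1 : (1 : ℝ) ≤ M := by exact_mod_cast hM
  obtain ⟨t', ht', c', hc', X0, hX0⟩ := lin k (fun l => al l * M)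
    (fun l => Nat.mul_pos (hal l) hM) i j hij
  obtain ⟨X1, hX1⟩ := hRK M hM
  obtain ⟨X2, hX2⟩ := Rk_large (c' / 2) (by positivity) ((∑ l, al l * M : ℕ) : ℝ)
  obtain ⟨X3, hX3⟩ := pow_ev (98 / 100) (99 / 100) M 2 (by norm_num) hM0
  obtain ⟨X4, hX4⟩ := pow_ev (1 / 9) (1 / 8) M 1 (by norm_num) hM0
  have ht'0 : (0 : ℝ) < t' := by exact_mod_cast ht'
  obtain ⟨X5, hX5⟩ := pow_ev (1 / ((t' + 1 : ℕ) : ℝ)) (1 / (t' : ℝ)) M 1 (by
    push_cast
    exact one_div_lt_one_div_of_lt ht'0 (by linarith)) hM0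
  refine ⟨t' + 1, by omega, c' / 4, by positivity,
    max (max (max (M * X0) X1) (max (M * X2) X3)) (max (max X4 X5) (max M 1)), ?_⟩
  intro X hX be hbe hnp hadm
  have g0 : M * X0 ≤ X := (le_max_left _ _).trans ((le_max_left _ _).trans ((le_max_left _ _).trans hX))
  have g1 : X1 ≤ X := (le_max_right _ _).trans ((le_max_left _ _).trans ((le_max_left _ _).trans hX))
  have g2 : M * X2 ≤ X := (le_max_left _ _).trans ((le_max_right _ _).trans ((le_max_left _ _).trans hX))
  have g3 : X3 ≤ X := (le_max_right _ _).trans ((le_max_right _ _).trans ((le_max_left _ _).trans hX))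
  have g4 : X4 ≤ X := (le_max_left _ _).trans ((le_max_left _ _).trans ((le_max_right _ _).trans hX))
  have g5 : X5 ≤ X := (le_max_right _ _).trans ((le_max_left _ _).trans ((le_max_right _ _).trans hX))
  have g6 : (M : ℝ) ≤ X := (le_max_left _ _).trans ((le_max_right _ _).trans ((le_max_right _ _).trans hX))
  have g7 : 1 ≤ X := (le_max_right _ _).trans ((le_max_right _ _).trans ((le_max_right _ _).trans hX))
  have hX' : X0 ≤ X / M := by rw [le_div_iff₀ hM0]; linarith
  have hX2' : X2 ≤ X / M := by rw [le_div_iff₀ hM0]; linarith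
  have hXM1 : 1 ≤ X / M := by rw [le_div_iff₀ hM0]; linarith
  obtain ⟨hRpos, hR2⟩ := hX1 X g1
  have hsum := hX2 (X / M) hX2'
  have hpow := hX3 X g3
  have hp8 := hX4 X g4
  have hpt := hX5 X g5
  rw [one_mul] at hp8 hpt
  have hX0' : 0 < X := by linarith
  obtain ⟨r', hr'⟩ : ∃ r', r' = r % M := ⟨_, rfl⟩
  have hr'lt : r' < M := by rw [hr']; exact Nat.mod_lt _ hM
  -- the relation of the forms
  have hfm : ∀ l (m : ℕ), fm (fun l => al l * M) (fun l => (al l : ℤ) * r' + be l) l m =
      fm al be l (M * m + r') := by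
    intro l m
    unfold fm
    push_cast
    ring
  have hbe' : ∀ l, |(((al l : ℤ) * r' + be l : ℤ) : ℝ)| ≤ c' * Rk (X / M) := by
    intro l
    have h1 := hbe l
    have h2 : ((al l * M : ℕ) : ℝ) ≤ ((∑ l, al l * M : ℕ) : ℝ) := by
      exact_mod_cast Finset.single_le_sum (f := fun l => al l * M) (fun _ _ => Nat.zero_le _)
        (Finset.mem_univ l)
    push_cast
    refine (abs_add_le _ _).trans ?_
    have h3 : |(al l : ℝ) * r'| ≤ ((al l * M : ℕ) : ℝ) := by
      rw [abs_of_nonneg (by positivity)]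
      push_cast
      have : (r' : ℝ) ≤ M := by exact_mod_cast hr'lt.le
      exact mul_le_mul_of_nonneg_left this (by positivity)
    nlinarith
  have hnp' : ∀ l m, l ≠ m → (((al l * M : ℕ)) : ℤ) * ((al m : ℤ) * r' + be m) ≠
      ((al m * M : ℕ) : ℤ) * ((al l : ℤ) * r' + be l) := by
    intro l m hlm heq
    apply hnp l m hlm
    have h1 : (M : ℤ) * ((al l : ℤ) * be m) = M * (al m * be l) := by
      push_cast at heq
      linear_combination heq
    exact mul_left_cancel₀ (by exact_mod_cast (by omega : M ≠ 0)) h1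
  have hadm' : AdmS (fun l => al l * M) (fun l => (al l : ℤ) * r' + be l) := by
    intro p hp
    obtain ⟨n, hn1, hn2⟩ := hadm p hp
    refine ⟨n / M, ?_⟩
    intro l
    rw [hfm]
    have h1 : M * (n / M) + r' = n := by
      have h2 : n % M = r' := by rw [hr']; exact hn1
      rw [← h2]
      exact Nat.div_add_mod n M
    rw [h1]
    exact hn2 l
  have hmain := hX0 (X / M) hX' (fun l => (al l : ℤ) * r' + be l) hbe' hnp' hadm'
  -- all but one of the points
  obtain ⟨S, hS⟩ : ∃ S, S = PtsL t' (X / M) (c' * Rk (X / M)) (fun l => al l * M)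
    (fun l => (al l : ℤ) * r' + be l) i j := ⟨_, rfl⟩
  rw [← hS] at hmain
  have hsub : S ⊆ insert ⌊2 * (X / M)⌋₊ (S.filter (fun m => ((M * m + r' : ℕ) : ℝ) ≤ 2 * X)) := by
    intro m hm
    rw [mem_insert, mem_filter]
    by_cases hle : ((M * m + r' : ℕ) : ℝ) ≤ 2 * X
    · exact Or.inr ⟨hm, hle⟩
    · left
      push Not at hle
      have h1 : m < ⌊2 * (X / M)⌋₊ + 1 := by
        rw [hS] at hm
        unfold PtsL at hm
        exact mem_range.1 (mem_filter.1 hm).1
      have h2 : ⌊2 * (X / M)⌋₊ < m + 1 := by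
        rw [Nat.floor_lt (by positivity)]
        push_cast at hle ⊢
        have h3 : (r' : ℝ) < M := by exact_mod_cast hr'lt
        have h4 : 2 * X < M * (m + 1) := by nlinarith
        rw [← mul_div_assoc, div_lt_iff₀ hM0]
        linarith
      omega
  have hcard : (S.card : ℝ) ≤ ((S.filter (fun m => ((M * m + r' : ℕ) : ℝ) ≤ 2 * X)).card : ℝ) + 1 := by
    have h1 := (card_le_card hsub).trans (card_insert_le _ _)
    exact_mod_cast h1
  have hmap : (S.filter (fun m => ((M * m + r' : ℕ) : ℝ) ≤ 2 * X)).card ≤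
      (PtsR (t' + 1) X (c' / 4 * Rk X) al be i j M r).card := by
    refine card_le_card_of_injOn (fun m => M * m + r') ?_ ?_
    · intro m hm
      rw [mem_coe, mem_filter, hS] at hm
      obtain ⟨hm, hle⟩ := hm
      unfold PtsL at hm
      rw [mem_filter] at hm
      obtain ⟨-, hm1, hm2, hm3, hm4, hm5, hm6, hm7⟩ := hm
      simp only [hfm] at hm2 hm3 hm4 hm5 hm6 hm7
      unfold PtsR
      rw [mem_coe, mem_filter, mem_range]
      refine ⟨?_, ?_, ?_, hm2, hm3, ⟨hm4, ?_⟩, ?_, ?_⟩
      · exact Nat.lt_succ_of_le (Nat.le_floor hle)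
      · rw [div_lt_iff₀ hM0] at hm1
        push_cast
        have : (0 : ℝ) ≤ r' := Nat.cast_nonneg _
        nlinarith
      · have h1 : M * m + r' ≡ 0 + r' [MOD M] :=
          Nat.ModEq.add_right r' ((Nat.modEq_zero_iff_dvd).2 (Dvd.intro _ rfl))
        rw [zero_add] at h1
        refine h1.trans ?_
        rw [hr']
        exact Nat.mod_modEq r M
      · intro p hp hd
        exact lt_of_le_of_lt hp8 (hm5 p hp hd)
      · intro l p hp hd
        by_contra hle'
        push Not at hle'
        exact hm6 l p hp (hle'.trans hpt) hd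
      · intro l s hs hne
        obtain ⟨p, hp1, hp2, hp3⟩ := hm7 l s (hs.trans (by nlinarith)) hne
        refine ⟨p, hp1, hp2.trans ?_, hp3⟩
        exact Real.log_le_log (by positivity) (div_le_self hX0'.le hM1)
    · intro a _ b _ hab
      have h1 : M * a = M * b := by
        have : M * a + r' = M * b + r' := hab
        omega
      exact Nat.eq_of_mul_eq_mul_left hM h1
  have hmapR : ((S.filter (fun m => ((M * m + r' : ℕ) : ℝ) ≤ 2 * X)).card : ℝ) ≤
      ((PtsR (t' + 1) X (c' / 4 * Rk X) al be i j M r).card : ℝ) := by exact_mod_cast hmap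
  have h1 : (1 : ℝ) ≤ X ^ (98 / 100 : ℝ) := Real.one_le_rpow g7 (by norm_num)
  linarith

end Pool.Agent.Q117.LF
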