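import Pool.Agent.Q117.LF.Stm

/-! (helper24) JOB LSG of project LF: the large sieve bounds for `Tg`. -/

set_option autoImplicit false

namespace Pool.Agent.Q117.LF

open Finset Filter
open Pool.Agent.H378R2.LSBV (QQ wt wt_nonneg)
open Pool.Agent.H398R2.BV (Prim)
open Pool.Agent.Q117.CR

lemma lsg_LSat_Tg {g C : ℕ} (hg : 1 ≤ g) {X : ℝ} (hX1 : 1 ≤ X) (hXg : (g : ℝ) ^ 3 ≤ X)
    (hL : (g : ℝ) ^ 5 * 2 ^ C ≤ Real.log X) {T : ℕ → ℝ} (hT0 : ∀ f, 0 ≤ T f)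
    (hT : LSat C ((g : ℝ) ^ 3 * X) T) : LSat (C + 1) X (Tg g T) := by
  intro F hF
  have hg0 : (1 : ℝ) ≤ g := by exact_mod_cast hg
  have hgp : (0 : ℝ) < g := by linarith
  have hX0 : 0 < X := by linarith
  have hg3 : (1 : ℝ) ≤ (g : ℝ) ^ 3 := one_le_pow₀ hg0
  have hg5 : (1 : ℝ) ≤ (g : ℝ) ^ 5 := one_le_pow₀ hg0
  have h2C : (1 : ℝ) ≤ 2 ^ C := one_le_pow₀ (by norm_num)
  have hL1 : 1 ≤ Real.log X := by nlinarith
  -- the range
  have hgF : ((g * F : ℕ) : ℝ) ≤ ((g : ℝ) ^ 3 * X) ^ (49954 / 100000 : ℝ) := by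
    rw [Real.mul_rpow (by positivity) hX0.le]
    push_cast
    apply mul_le_mul _ hF (Nat.cast_nonneg _) (by positivity)
    calc (g : ℝ) = (g : ℝ) ^ (1 : ℝ) := (Real.rpow_one _).symm
      _ ≤ (g : ℝ) ^ (3 * (49954 / 100000) : ℝ) :=
          Real.rpow_le_rpow_of_exponent_le hg0 (by norm_num)
      _ = ((g : ℝ) ^ 3) ^ (49954 / 100000 : ℝ) := by
          rw [Real.rpow_mul hgp.le]
          norm_num
  have h1 := hT (g * F) hgF
  have h2 : ∀ e ∈ g.divisors, ∑ f ∈ Icc 2 F, T (e * f) ≤ ∑ f ∈ Icc 2 (g * F), T f := by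
    intro e he
    have he0 : 0 < e := Nat.pos_of_mem_divisors he
    have heg : e ≤ g := Nat.divisor_le he
    have e1 : ∑ f ∈ Icc 2 F, T (e * f) = ∑ f ∈ (Icc 2 F).image (fun f => e * f), T f := by
      rw [sum_image]
      intro a _ b _ hab
      exact Nat.eq_of_mul_eq_mul_left he0 hab
    rw [e1]
    apply sum_le_sum_of_subset_of_nonneg
    · intro f hf
      rw [mem_image] at hf
      obtain ⟨f0, hf0, rfl⟩ := hf
      rw [mem_Icc] at hf0 ⊢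
      refine ⟨?_, Nat.mul_le_mul heg hf0.2⟩
      calc 2 ≤ f0 := hf0.1
        _ = 1 * f0 := (one_mul _).symm
        _ ≤ e * f0 := Nat.mul_le_mul_right _ he0
    · intro f _ _
      exact hT0 f
  have h3 : ∑ f ∈ Icc 2 F, Tg g T f ≤ g * ∑ f ∈ Icc 2 (g * F), T f := by
    unfold Tg
    rw [sum_comm]
    calc ∑ e ∈ g.divisors, ∑ f ∈ Icc 2 F, T (e * f) ≤
          ∑ e ∈ g.divisors, ∑ f ∈ Icc 2 (g * F), T f := sum_le_sum h2
      _ = (g.divisors.card : ℝ) * ∑ f ∈ Icc 2 (g * F), T f := by rw [sum_const, nsmul_eq_mul]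
      _ ≤ g * ∑ f ∈ Icc 2 (g * F), T f := by
          apply mul_le_mul_of_nonneg_right _ (sum_nonneg fun _ _ => hT0 _)
          exact_mod_cast Nat.card_divisors_le_self g
  refine h3.trans ((mul_le_mul_of_nonneg_left h1 hgp.le).trans ?_)
  have h4 : ((g : ℝ) ^ 3 * X) ^ (9999 / 10000 : ℝ) ≤ (g : ℝ) ^ 3 * X ^ (9999 / 10000 : ℝ) := by
    rw [Real.mul_rpow (by positivity) hX0.le]
    apply mul_le_mul_of_nonneg_right _ (by positivity)
    calc ((g : ℝ) ^ 3) ^ (9999 / 10000 : ℝ) ≤ ((g : ℝ) ^ 3) ^ (1 : ℝ) :=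
          Real.rpow_le_rpow_of_exponent_le hg3 (by norm_num)
      _ = (g : ℝ) ^ 3 := Real.rpow_one _
  have hF0 : (0 : ℝ) ≤ F := Nat.cast_nonneg _
  have hXp : 0 ≤ X ^ (9999 / 10000 : ℝ) := by positivity
  have h5 : (g : ℝ) ^ 3 * X + ((g : ℝ) ^ 3 * X) ^ (9999 / 10000 : ℝ) * ((g * F : ℕ) : ℝ) ≤
      (g : ℝ) ^ 4 * (X + X ^ (9999 / 10000 : ℝ) * F) := by
    have e1 : ((g : ℝ) ^ 3 * X) ^ (9999 / 10000 : ℝ) * ((g * F : ℕ) : ℝ) ≤
        (g : ℝ) ^ 3 * X ^ (9999 / 10000 : ℝ) * (g * F) := by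
      push_cast
      exact mul_le_mul_of_nonneg_right h4 (by positivity)
    have e2 : (g : ℝ) ^ 3 * X ≤ (g : ℝ) ^ 4 * X := by
      apply mul_le_mul_of_nonneg_right _ hX0.le
      exact pow_le_pow_right₀ hg0 (by norm_num)
    calc _ ≤ (g : ℝ) ^ 4 * X + (g : ℝ) ^ 3 * X ^ (9999 / 10000 : ℝ) * (g * F) := add_le_add e2 e1
      _ = _ := by ring
  have h6 : Real.log ((g : ℝ) ^ 3 * X) ≤ 2 * Real.log X := by
    rw [Real.log_mul (by positivity) hX0.ne']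
    have : Real.log ((g : ℝ) ^ 3) ≤ Real.log X := Real.log_le_log (by positivity) hXg
    linarith
  have h7 : 0 ≤ Real.log ((g : ℝ) ^ 3 * X) := Real.log_nonneg (by nlinarith)
  have h8 : Real.log ((g : ℝ) ^ 3 * X) ^ C ≤ 2 ^ C * Real.log X ^ C := by
    rw [← mul_pow]
    exact pow_le_pow_left₀ h7 h6 C
  have hQ : 0 ≤ X + X ^ (9999 / 10000 : ℝ) * F := by positivity
  calc (g : ℝ) * (((g : ℝ) ^ 3 * X + ((g : ℝ) ^ 3 * X) ^ (9999 / 10000 : ℝ) * ((g * F : ℕ) : ℝ)) *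
          Real.log ((g : ℝ) ^ 3 * X) ^ C) ≤
        (g : ℝ) * (((g : ℝ) ^ 4 * (X + X ^ (9999 / 10000 : ℝ) * F)) * (2 ^ C * Real.log X ^ C)) := by
        apply mul_le_mul_of_nonneg_left _ hgp.le
        exact mul_le_mul h5 h8 (by positivity) (by positivity)
    _ = (X + X ^ (9999 / 10000 : ℝ) * F) * (((g : ℝ) ^ 5 * 2 ^ C) * Real.log X ^ C) := by ring
    _ ≤ (X + X ^ (9999 / 10000 : ℝ) * F) * (Real.log X * Real.log X ^ C) := by
        apply mul_le_mul_of_nonneg_left _ hQ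
        exact mul_le_mul_of_nonneg_right hL (by positivity)
    _ = _ := by rw [pow_succ]; ring

theorem lsg : St_LSG := by
  intro g A hg
  obtain ⟨C1, X1, h1⟩ := lsp
  obtain ⟨C2, X2, h2⟩ := Pool.Agent.Q117.CR.bls A
  have hg0 : (1 : ℝ) ≤ g := by exact_mod_cast hg
  have hg3 : (1 : ℝ) ≤ (g : ℝ) ^ 3 := one_le_pow₀ hg0
  have hlog : Tendsto (fun X : ℕ => Real.log (X : ℝ)) atTop atTop :=
    Real.tendsto_log_atTop.comp tendsto_natCast_atTop_atTop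
  obtain ⟨n1, hn1⟩ := eventually_atTop.1
    ((hlog.eventually_ge_atTop ((g : ℝ) ^ 5 * 2 ^ C1)).and
      (hlog.eventually_ge_atTop ((g : ℝ) ^ 5 * 2 ^ C2)))
  refine ⟨max C1 C2 + 1, max (max n1 (g ^ 9)) (max ⌈X1⌉₊ X2), fun X hX => ?_⟩
  have b1 : n1 ≤ X := ((le_max_left _ _).trans (le_max_left _ _)).trans hX
  have b2 : g ^ 9 ≤ X := ((le_max_right _ _).trans (le_max_left _ _)).trans hX
  have b3 : ⌈X1⌉₊ ≤ X := ((le_max_left _ _).trans (le_max_right _ _)).trans hX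
  have b4 : X2 ≤ X := ((le_max_right _ _).trans (le_max_right _ _)).trans hX
  obtain ⟨c1, c2⟩ := hn1 X b1
  have b2' : (g : ℝ) ^ 9 ≤ X := by exact_mod_cast b2
  have b3' : X1 ≤ X := Nat.ceil_le.1 b3
  have hXge : (1 : ℝ) ≤ X := (one_le_pow₀ hg0).trans b2'
  have hXg3 : (g : ℝ) ^ 3 ≤ X := (pow_le_pow_right₀ hg0 (by norm_num)).trans b2'
  have hX0 : (0 : ℝ) < X := by linarith
  have hL1 : 1 ≤ Real.log X := by
    have : (1 : ℝ) ≤ (g : ℝ) ^ 5 * 2 ^ C1 := by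
      have h5 : (1 : ℝ) ≤ (g : ℝ) ^ 5 := one_le_pow₀ hg0
      have h6 : (1 : ℝ) ≤ 2 ^ C1 := one_le_pow₀ (by norm_num)
      nlinarith
    linarith
  constructor
  · intro x hx1 hx2
    have h3 : LSat C1 ((g : ℝ) ^ 3 * X) (TT1 x) := by
      apply h1 ((g : ℝ) ^ 3 * X)
      · nlinarith
      · refine le_trans ?_ hx1
        have e1 : (g : ℝ) ^ 3 ≤ (X : ℝ) ^ (1 / 3 : ℝ) := by
          have e2 : (g : ℝ) ^ 3 = ((g : ℝ) ^ 9) ^ (1 / 3 : ℝ) := by
            rw [← Real.rpow_natCast, ← Real.rpow_natCast, ← Real.rpow_mul (by linarith)]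
            norm_num
          rw [e2]
          exact Real.rpow_le_rpow (by positivity) b2' (by norm_num)
        have e3 : (g : ℝ) ^ 3 * X ≤ (X : ℝ) ^ (4 / 3 : ℝ) := by
          calc (g : ℝ) ^ 3 * X ≤ (X : ℝ) ^ (1 / 3 : ℝ) * X := mul_le_mul_of_nonneg_right e1 hX0.le
            _ = (X : ℝ) ^ (1 / 3 : ℝ) * (X : ℝ) ^ (1 : ℝ) := by rw [Real.rpow_one]
            _ = (X : ℝ) ^ (4 / 3 : ℝ) := by
                rw [← Real.rpow_add hX0]
                norm_num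
        calc ((g : ℝ) ^ 3 * X) ^ (1 / 4 : ℝ) ≤ ((X : ℝ) ^ (4 / 3 : ℝ)) ^ (1 / 4 : ℝ) :=
              Real.rpow_le_rpow (by positivity) e3 (by norm_num)
          _ = (X : ℝ) ^ (1 / 3 : ℝ) := by
              rw [← Real.rpow_mul hX0.le]
              norm_num
      · nlinarith
    have h4 := lsg_LSat_Tg hg hXge hXg3 c1 (fun f => TT1_nonneg x f) h3
    exact LSat_mono (by have := le_max_left C1 C2; omega) hX0.le hL1 h4
  · intro M₀ M₁ Y T hB
    have h3 := h2 (g ^ 3 * X) (by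
      calc X2 ≤ X := b4
        _ = 1 * X := (one_mul _).symm
        _ ≤ g ^ 3 * X := Nat.mul_le_mul_right _ (Nat.one_le_pow _ _ hg)) M₀ M₁ Y T hB
    have ecast : ((g ^ 3 * X : ℕ) : ℝ) = (g : ℝ) ^ 3 * X := by push_cast; ring
    rw [ecast] at h3
    have h4 := lsg_LSat_Tg hg hXge hXg3 c2 (fun f => TB_nonneg _ _ _ _ _ _ f) h3
    have h5 := LSat_mono (C' := max C1 C2 + 1) (by have := le_max_right C1 C2; omega) hX0.le hL1 h4
    intro F hF
    refine le_trans ?_ (h5 F hF)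
    apply sum_le_sum
    intro f _
    unfold Tg
    apply sum_le_sum
    intro e _
    unfold TB
    apply sum_le_sum_of_subset_of_nonneg
    · apply Icc_subset_Icc_right
      unfold RX
      apply Nat.floor_le_floor
      apply Real.rpow_le_rpow hX0.le _ (by norm_num)
      nlinarith
    · intro i _ _
      exact mul_nonneg (wt_nonneg _ _) (Pool.Agent.Helper112.BLB.P_nonneg _ _ _ _ _)

end Pool.Agent.Q117.LF
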