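import Pool.Agent.Q117.LF.Cll
import Pool.Agent.Q117.CR.Pos

/-!
# Project LF (helper117), job POSL: Chen's weights, from the weighted sum to the good primes
-/

set_option autoImplicit false

namespace Pool.Agent.Q117.LF

open Finset Filter Pool.Agent.W23.DC Pool.Agent.Y660.RP
open Pool.Agent.Y843.HS (Pr Pr_mem Pr_prime)
open Pool.Agent.Y843.QD (vZ dvd_vZ)
open Pool.Agent.Y843.HG (Adm Z0 SP)
open Pool.Agent.Y843.CH hiding TB
open Pool.Agent.Q117.CR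

namespace POSLa

section
variable {r N X z Y M M2 ps a α γ : ℕ} {ε : ℝ} {h : ℤ} {Om : ℕ → Finset ℕ}

/-- the value of the form -/
theorem val (S : StL r N X z Y M M2 ps a α γ ε h Om) {p : ℕ} (hp : p ≡ a [MOD M]) :
    ∃ e k : ℤ, h - (α : ℤ) * p = γ * e ∧ nn α γ h p = e.natAbs ∧
      e = (h - (α : ℤ) * a) / γ - M2 * k := by
  have h1 : (M : ℤ) ∣ (p : ℤ) - a := by
    have h2 : (a : ℤ) ≡ p [ZMOD M] := by exact_mod_cast hp.symm
    exact Int.modEq_iff_dvd.1 h2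
  obtain ⟨k, hk⟩ := h1
  have hγ : (γ : ℤ) ≠ 0 := by
    have := S.γ0
    exact_mod_cast (by omega : γ ≠ 0)
  have hrel : (M : ℤ) * α = M2 * γ := by exact_mod_cast S.rel
  have h3 : (γ : ℤ) * ((h - (α : ℤ) * a) / γ) = h - (α : ℤ) * a := Int.mul_ediv_cancel' S.hd
  have h4 : h - (α : ℤ) * p = γ * ((h - (α : ℤ) * a) / γ - M2 * k) := by
    have h5 : (α : ℤ) * p = α * a + γ * (M2 * k) := by
      have : (p : ℤ) = a + M * k := by linarith
      rw [this]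
      linear_combination k * hrel
    rw [mul_sub, h3, h5]
    ring
  refine ⟨(h - (α : ℤ) * a) / γ - M2 * k, k, h4, ?_, rfl⟩
  unfold nn
  rw [h4, Int.natAbs_mul, Int.natAbs_natCast]
  exact Nat.mul_div_cancel_left _ S.γ0

theorem nn_le (S : StL r N X z Y M M2 ps a α γ ε h Om) {p : ℕ} (hp : p ≡ a [MOD M]) :
    nn α γ h p ∣ (h - (α : ℤ) * p).natAbs := by
  obtain ⟨e, k, h1, h2, -⟩ := val S hp
  rw [h1, h2, Int.natAbs_mul]
  exact dvd_mul_left _ _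

theorem nn_iff (S : StL r N X z Y M M2 ps a α γ ε h Om) {p q : ℕ} (hp : p ≡ a [MOD M])
    (hq : q.Prime) (hd : ¬ q ∣ M) : q ∣ nn α γ h p ↔ hr (h * iv α q) q = p % q := by
  obtain ⟨e, k, h1, h2, -⟩ := val S hp
  have hg : ¬ q ∣ α * γ := fun h3 => hd (S.g q hq h3)
  have hα : ¬ q ∣ α := fun h3 => hg (h3.mul_right _)
  have hγ : ¬ q ∣ γ := fun h3 => hg (h3.mul_left _)
  have hqi : Prime (q : ℤ) := Nat.prime_iff_prime_int.1 hq
  rw [h2, ← Int.natCast_dvd, ← hr_nat p hq.pos, hr_eq_iff _ _ hq.pos]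
  have hv := CLLa.iv_mul hq hα
  constructor
  · intro h3
    have h4 : (q : ℤ) ∣ h - (α : ℤ) * p := by
      rw [h1]
      exact h3.mul_left _
    have h5 : (α : ℤ) * p ≡ h [ZMOD q] := Int.modEq_iff_dvd.2 h4
    have h6 := (h5.symm.mul_right (iv α q))
    refine h6.trans ?_
    have h7 := hv.mul_right (p : ℤ)
    rw [one_mul] at h7
    calc (α : ℤ) * p * iv α q = (α : ℤ) * iv α q * p := by ring
      _ ≡ p [ZMOD q] := h7
  · intro h3
    have h4 : h ≡ (α : ℤ) * p [ZMOD q] := by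
      have h5 := h3.mul_left (α : ℤ)
      have h6 := hv.mul_right h
      rw [one_mul] at h6
      refine h6.symm.trans ?_
      calc (α : ℤ) * iv α q * h = α * (h * iv α q) := by ring
        _ ≡ (α : ℤ) * p [ZMOD q] := h5
    have h5 : (q : ℤ) ∣ h - (α : ℤ) * p := Int.modEq_iff_dvd.1 h4.symm
    rw [h1] at h5
    refine (hqi.dvd_or_dvd h5).resolve_left fun h6 => hγ ?_
    exact_mod_cast h6

theorem nn_ndvd (S : StL r N X z Y M M2 ps a α γ ε h Om) {p q : ℕ} (hp : p ≡ a [MOD M])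
    (hq : q.Prime) (hd : q ∣ M) : ¬ q ∣ nn α γ h p := by
  obtain ⟨e, k, h1, h2, h3⟩ := val S hp
  rw [h2, ← Int.natCast_dvd]
  intro h4
  apply S.hc q hq hd
  have h5 : (q : ℤ) ∣ (M2 : ℤ) * k := by
    have : (q : ℤ) ∣ (M2 : ℤ) := by exact_mod_cast (S.same q hq).1 hd
    exact this.mul_right _
  have h6 := dvd_add h4 h5
  rw [h3] at h6
  rwa [sub_add_cancel] at h6

end

open Classical in
/-- the primes of the sieve -/
noncomputable def O1L (α A B N z Y M ps a : ℕ) (ε : ℝ) (h : ℤ) (Om : ℕ → Finset ℕ) : Finset ℕ :=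
  (PNX A B).filter (fun p => p ≡ a [MOD M] ∧
    ∀ q ∈ P1 N z ε, ¬ q ∣ vZ (ZAL α (M * ps) h Y Om) z N p)

theorem lt_N {r N X z Y M M2 ps a α γ : ℕ} {ε : ℝ} {h : ℤ} {Om : ℕ → Finset ℕ}
    (S : StL r N X z Y M M2 ps a α γ ε h Om) {u : ℝ} (hu : u ≤ 1) {q : ℕ} (hq : (q : ℝ) < (N : ℝ) ^ u) : q ≤ N := by
  have hN1 : (1 : ℝ) ≤ N := by exact_mod_cast (by have := S.N8; omega : 1 ≤ N)
  have h1 : (N : ℝ) ^ u ≤ N := by
    calc (N : ℝ) ^ u ≤ (N : ℝ) ^ (1 : ℝ) := Real.rpow_le_rpow_of_exponent_le hN1 hu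
      _ = N := Real.rpow_one _
  have h2 : (q : ℝ) < N := lt_of_lt_of_le hq h1
  have : q < N := by exact_mod_cast h2
  omega

theorem F1 {r N X z Y M M2 ps a α γ A B : ℕ} {ε : ℝ} {h : ℤ} {Om : ℕ → Finset ℕ}
    (S : StL r N X z Y M M2 ps a α γ ε h Om) (hA : N ≤ A) {p : ℕ} (hp : p ∈ O1L α A B N z Y M ps a ε h Om) :
    ∀ q ∈ Pr 0 Y, q ≠ ps → p % q ∉ Z0 Om q := by
  classical
  intro q hq hqps
  unfold O1L at hp
  rw [mem_filter] at hp
  obtain ⟨hp1, hp2, hp3⟩ := hp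
  have hqp := Pr_prime hq
  by_cases hqW : q ∣ M
  · have h3 : p % q = a % q := hp2.of_dvd hqW
    rw [h3]
    exact S.ha q hq hqW
  · have hnd : ¬ q ∣ M * ps := by
      intro hd
      rcases (hqp.dvd_mul).1 hd with h1 | h1
      · exact hqW h1
      · rcases S.hp with h2 | ⟨h2, _, _⟩
        · rw [h2] at h1
          exact absurd (Nat.dvd_one.1 h1) hqp.one_lt.ne'
        · exact hqps ((Nat.prime_dvd_prime_iff_eq hqp h2).1 h1)
    have hzq : z < q := by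
      by_contra hcon
      exact hqW (S.hz q (Pr_mem.2 ⟨⟨hqp.pos, not_lt.1 hcon⟩, hqp⟩))
    have hqw : (q : ℝ) < (N : ℝ) ^ ε := by
      have : (q : ℝ) ≤ Y := by exact_mod_cast (Pr_mem.1 hq).1.2
      exact lt_of_le_of_lt this S.Yw
    have hqN := lt_N S (by have := S.e1; linarith) hqw
    have h2 := hp3 q (mem_P1.2 ⟨⟨hzq, hqN⟩, hqp, hqw⟩)
    rw [dvd_vZ hqp] at h2
    have h3 : p % q ∉ ZAL α (M * ps) h Y Om q := fun h3 => h2 ⟨Pr_mem.2 ⟨⟨hzq, hqN⟩, hqp⟩, h3⟩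
    unfold ZAL ZA at h3
    rw [if_neg hnd, if_pos (Pr_mem.1 hq).1.2] at h3
    unfold Z0
    rw [mem_insert, not_or]
    exact ⟨mod_neW hA hp1 hqp hqN, h3⟩

theorem F2 {r N X z Y M M2 ps a α γ A B : ℕ} {ε : ℝ} {h : ℤ} {Om : ℕ → Finset ℕ}
    (S : StL r N X z Y M M2 ps a α γ ε h Om) (hA : N ≤ A) {p : ℕ} (hp : p ∈ O1L α A B N z Y M ps a ε h Om)
    (hps : ps.Prime → p % ps ∉ Z0 Om ps)
    (hI : ∀ q ∈ pr N ε (1 / 4), ¬ q ∣ vZ (ZAL α (M * ps) h Y Om) z N p) :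
    ∀ q : ℕ, q.Prime → q ∣ nn α γ h p → (N : ℝ) ^ (1 / 4 : ℝ) ≤ q := by
  classical
  intro q hqp hd
  by_contra hcon
  rw [not_le] at hcon
  have hN2 : 2 ≤ N := by have := S.N8; omega
  have hqN := lt_N S (by norm_num) hcon
  have F1 := F1 S hA hp
  unfold O1L at hp
  rw [mem_filter] at hp
  obtain ⟨hp1, hp2, hp3⟩ := hp
  have hqM : ¬ q ∣ M := fun h1 => nn_ndvd S hp2 hqp h1 hd
  have hg : ¬ q ∣ α * γ := fun h1 => hqM (S.g q hqp h1)
  rw [nn_iff S hp2 hqp hqM] at hd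
  rcases Nat.lt_or_ge Y q with h1 | h1
  · have hzq : z < q := lt_of_le_of_lt S.zY h1
    have hnd' : ¬ q ∣ M * ps := fun hd' => by
      have := CLLa.dY S hqp hd'
      omega
    have hnd : ¬ q ∣ vZ (ZAL α (M * ps) h Y Om) z N p := by
      rcases lt_or_ge (q : ℝ) ((N : ℝ) ^ ε) with h2 | h2
      · exact hp3 q (mem_P1.2 ⟨⟨hzq, hqN⟩, hqp, h2⟩)
      · exact hI q (mem_pr.2 ⟨⟨hqp.one_lt.le, hqN⟩, hqp, (le_tt_iff hN2 hqp _).2 h2,
          (tt_lt_iff hN2 hqp _).2 hcon⟩)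
    apply hnd
    rw [dvd_vZ hqp]
    refine ⟨Pr_mem.2 ⟨⟨hzq, hqN⟩, hqp⟩, ?_⟩
    unfold ZAL ZA
    rw [if_neg hnd', if_neg (by omega), mem_erase, mem_singleton]
    exact ⟨mod_neW hA hp1 hqp hqN, hd.symm⟩
  · have h2 := Pr_mem.2 ⟨⟨hqp.pos, h1⟩, hqp⟩
    by_cases hqps : q = ps
    · apply hps (hqps ▸ hqp)
      rw [← hqps, ← hd]
      exact S.D.hm q h2 hg
    · apply F1 q h2 hqps
      rw [← hd]
      exact S.D.hm q h2 hg

theorem F3 {r N X z Y M M2 ps a α γ A B : ℕ} {ε : ℝ} {h : ℤ} {Om : ℕ → Finset ℕ}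
    (S : StL r N X z Y M M2 ps a α γ ε h Om) (hA : N ≤ A) {p : ℕ} (hp : p ∈ O1L α A B N z Y M ps a ε h Om)
    {q : ℕ} (hq : q ∈ pr N (1 / 4) (667 / 1000)) :
    q ∣ vZ (ZAL α (M * ps) h Y Om) z N p ↔ q ∣ nn α γ h p := by
  classical
  have hN2 : 2 ≤ N := by have := S.N8; omega
  have hN1 : (1 : ℝ) ≤ N := by exact_mod_cast (by omega : 1 ≤ N)
  unfold O1L at hp
  rw [mem_filter] at hp
  obtain ⟨hp1, hp2, hp3⟩ := hp
  have hqp := (mem_pr.1 hq).2.1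
  have hqN := (mem_pr.1 hq).1.2
  have h1 := (le_tt_iff hN2 hqp _).1 (mem_pr.1 hq).2.2.1
  have h2 : (Y : ℝ) < q := by
    calc (Y : ℝ) < (N : ℝ) ^ ε := S.Yw
      _ ≤ (N : ℝ) ^ (1 / 4 : ℝ) :=
          Real.rpow_le_rpow_of_exponent_le hN1 (by have := S.e1; linarith)
      _ ≤ q := h1
  have h3 : Y < q := by exact_mod_cast h2
  have hnd' : ¬ q ∣ M * ps := fun hd' => by
    have := CLLa.dY S hqp hd'
    omega
  rw [nn_iff S hp2 hqp (fun h5 => hnd' (h5.mul_right _)), dvd_vZ hqp]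
  unfold ZAL ZA
  rw [if_neg hnd', if_neg (by omega), mem_erase, mem_singleton]
  constructor
  · rintro ⟨-, -, h4⟩
    exact h4.symm
  · intro h4
    exact ⟨Pr_mem.2 ⟨⟨by have := S.zY; omega, hqN⟩, hqp⟩, mod_neW hA hp1 hqp hqN, h4.symm⟩

open Classical in
theorem point {r N X z Y M M2 ps a α γ A B : ℕ} {ε : ℝ} {h : ℤ} {Om : ℕ → Finset ℕ}
    (S : StL r N X z Y M M2 ps a α γ ε h Om) (hA : N ≤ A) (hB : α * B ≤ X)
    (hW : ∀ n : ℕ, 1 ≤ n → n ≤ 3 * N ^ 2 →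
      (∀ p : ℕ, p.Prime → p ∣ n → (N : ℝ) ^ (1 / 4 : ℝ) ≤ p) →
      (∀ p : ℕ, p.Prime → p ^ 2 ∣ n → (N : ℝ) ^ (667 / 1000 : ℝ) ≤ p) →
      n.primeFactorsList.length ≤ 2 ∨ 2 ≤ ((pr N (1 / 4) (667 / 1000)).filter (fun q => q ∣ n)).card ∨
      (((pr N (1 / 4) (667 / 1000)).filter (fun q => q ∣ n)).card = 1 ∧ Ty N n))
    {p : ℕ} (hp : p ∈ O1L α A B N z Y M ps a ε h Om) :
    II N ε (vZ (ZAL α (M * ps) h Y Om) z N p) *
      (1 - 1 / 2 * ∑ q ∈ pr N (1 / 4) (667 / 1000), (if q ∣ vZ (ZAL α (M * ps) h Y Om) z N p then 1 else 0)) ≤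
    (if p ∈ GWL α γ A B N Y M a h Om then (1 : ℝ) else 0) +
      1 / 2 * (if p ∈ TWL α γ A B N z Y M ps a h Om then (1 : ℝ) else 0) +
      (if p ∈ BWL α A B N M a h then (1 : ℝ) else 0) + (if p ∈ EW A B Y M ps a Om then (1 : ℝ) else 0) := by
  have hN2 : 2 ≤ N := by have := S.N8; omega
  have hrhs : (0 : ℝ) ≤ (if p ∈ GWL α γ A B N Y M a h Om then (1 : ℝ) else 0) +
      1 / 2 * (if p ∈ TWL α γ A B N z Y M ps a h Om then (1 : ℝ) else 0) +
      (if p ∈ BWL α A B N M a h then (1 : ℝ) else 0) + (if p ∈ EW A B Y M ps a Om then (1 : ℝ) else 0) := by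
    split_ifs <;> norm_num
  by_cases hI : ∀ q ∈ pr N ε (1 / 4), ¬ q ∣ vZ (ZAL α (M * ps) h Y Om) z N p
  swap
  · unfold II
    rw [if_neg hI, zero_mul]
    exact hrhs
  have hI1 : II N ε (vZ (ZAL α (M * ps) h Y Om) z N p) = 1 := by
    unfold II
    rw [if_pos hI]
  have F1 := F1 S hA hp
  have hp' := hp
  unfold O1L at hp'
  rw [mem_filter] at hp'
  obtain ⟨hp1, hp2, hp3⟩ := hp'
  have hp1' := mem_PNX.1 hp1
  have hsum0 : (0 : ℝ) ≤ ∑ q ∈ pr N (1 / 4) (667 / 1000),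
      (if q ∣ vZ (ZAL α (M * ps) h Y Om) z N p then (1 : ℝ) else 0) :=
    Finset.sum_nonneg fun q _ => by split_ifs <;> norm_num
  have hF1' : ∀ q ∈ Pr 0 Y, ¬ q ∣ M * ps → p % q ∉ Z0 Om q := by
    intro q hq hnd
    apply F1 q hq
    rintro rfl
    exact hnd (dvd_mul_left _ _)
  by_cases hE : ps.Prime ∧ p % ps ∈ Z0 Om ps
  · have hEW : p ∈ EW A B Y M ps a Om := by
      unfold EW
      rw [mem_filter]
      exact ⟨hp1, hp2, hE.1, hE.2, hF1'⟩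
    rw [if_pos hEW, hI1, one_mul]
    have h5 : (0 : ℝ) ≤ (if p ∈ GWL α γ A B N Y M a h Om then (1 : ℝ) else 0) +
      1 / 2 * (if p ∈ TWL α γ A B N z Y M ps a h Om then (1 : ℝ) else 0) +
      (if p ∈ BWL α A B N M a h then (1 : ℝ) else 0) := by split_ifs <;> norm_num
    linarith
  have hE' : ps.Prime → p % ps ∉ Z0 Om ps := fun h1 h2 => hE ⟨h1, h2⟩
  have hF1 : ∀ q ∈ Pr 0 Y, p % q ∉ Z0 Om q := by
    intro q hq
    by_cases hqps : q = ps
    · rw [hqps]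
      exact hE' (hqps ▸ Pr_prime hq)
    · exact F1 q hq hqps
  have F2 := F2 S hA hp hE' hI
  set n := nn α γ h p with hn
  have hsum : ∑ q ∈ pr N (1 / 4) (667 / 1000),
      (if q ∣ vZ (ZAL α (M * ps) h Y Om) z N p then (1 : ℝ) else 0) =
      (((pr N (1 / 4) (667 / 1000)).filter (fun q => q ∣ n)).card : ℝ) := by
    rw [← Finset.sum_boole]
    apply Finset.sum_congr rfl
    intro q hq
    rw [if_congr (F3 S hA hp hq) rfl rfl]
  rw [hI1, one_mul, hsum]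
  have h2n : ¬ 2 ∣ n := by
    intro hd
    have := F2 2 Nat.prime_two hd
    have h4 := S.N4
    push_cast at this
    linarith
  have hn0 : 1 ≤ n := by
    rcases Nat.eq_zero_or_pos n with h0 | h0
    · rw [h0] at h2n
      exact absurd (dvd_zero 2) h2n
    · exact h0
  have hn3 : n ≤ 3 * N ^ 2 := by
    have h1 := S.XN
    have h2 := S.hX
    have h3 := S.N8
    have h4 : n ≤ h.natAbs + α * p := by
      have h7 : n ≤ (h - (α : ℤ) * p).natAbs := Nat.div_le_self _ _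
      have h8 : (h - (α : ℤ) * p).natAbs ≤ h.natAbs + ((α : ℤ) * p).natAbs := Int.natAbs_sub_le _ _
      have h9 : ((α : ℤ) * p).natAbs = α * p := by
        rw [← Nat.cast_mul, Int.natAbs_natCast]
      omega
    have h5 := hp1'.1.2
    have h6 : α * p ≤ X := (Nat.mul_le_mul_left α h5).trans hB
    nlinarith
  have hcard0 : (0 : ℝ) ≤ (((pr N (1 / 4) (667 / 1000)).filter (fun q => q ∣ n)).card : ℝ) := Nat.cast_nonneg _
  have hE0 : (0 : ℝ) ≤ (if p ∈ EW A B Y M ps a Om then (1 : ℝ) else 0) := by split_ifs <;> norm_num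
  by_cases hB' : p ∈ BWL α A B N M a h
  · rw [if_pos hB']
    have h5 : (0 : ℝ) ≤ (if p ∈ GWL α γ A B N Y M a h Om then (1 : ℝ) else 0) +
      1 / 2 * (if p ∈ TWL α γ A B N z Y M ps a h Om then (1 : ℝ) else 0) := by split_ifs <;> norm_num
    linarith
  · have hsq : ∀ q : ℕ, q.Prime → q ^ 2 ∣ n → (N : ℝ) ^ (667 / 1000 : ℝ) ≤ q := by
      intro q hq hd
      by_contra hcon
      rw [not_le] at hcon
      apply hB'
      unfold BWL
      rw [mem_filter]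
      refine ⟨hp1, hp2, q, ?_, hq, hd.trans (nn_le S hp2)⟩
      rw [mem_Ioc, lo_lt_iff (by omega)]
      exact ⟨F2 q hq ((dvd_pow_self q two_ne_zero).trans hd), lt_N S (by norm_num) hcon⟩
    rcases hW n hn0 hn3 F2 hsq with h6 | h6 | ⟨h6, h7⟩
    · have hG : p ∈ GWL α γ A B N Y M a h Om := by
        unfold GWL
        rw [mem_filter]
        exact ⟨hp1, hp2, hF1, by omega, h6, F2⟩
      rw [if_pos hG]
      have h5 : (0 : ℝ) ≤ 1 / 2 * (if p ∈ TWL α γ A B N z Y M ps a h Om then (1 : ℝ) else 0) +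
        (if p ∈ BWL α A B N M a h then (1 : ℝ) else 0) := by split_ifs <;> norm_num
      linarith
    · have h8 : (2 : ℝ) ≤ (((pr N (1 / 4) (667 / 1000)).filter (fun q => q ∣ n)).card : ℝ) := by
        exact_mod_cast h6
      linarith
    · have hT : p ∈ TWL α γ A B N z Y M ps a h Om := by
        unfold TWL
        rw [mem_filter]
        refine ⟨hp1, hp2, fun q hq hnd => hF1' q ?_ hnd, h7⟩
        rw [Pr_mem] at hq ⊢
        exact ⟨⟨hq.2.pos, hq.1.2⟩, hq.2⟩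
      rw [if_pos hT, h6]
      have h5 : (0 : ℝ) ≤ (if p ∈ GWL α γ A B N Y M a h Om then (1 : ℝ) else 0) +
        (if p ∈ BWL α A B N M a h then (1 : ℝ) else 0) := by split_ifs <;> norm_num
      push_cast
      linarith

open Classical in
theorem sum {r N X z Y M M2 ps a α γ A B K : ℕ} {ε δ : ℝ} {h : ℤ} {Om : ℕ → Finset ℕ}
    (S : StL r N X z Y M M2 ps a α γ ε h Om) (hA : N ≤ A) (hB : α * B ≤ X) (hTZ : TZ1 δ X A B)
    (hW : ∀ n : ℕ, 1 ≤ n → n ≤ 3 * N ^ 2 →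
      (∀ p : ℕ, p.Prime → p ∣ n → (N : ℝ) ^ (1 / 4 : ℝ) ≤ p) →
      (∀ p : ℕ, p.Prime → p ^ 2 ∣ n → (N : ℝ) ^ (667 / 1000 : ℝ) ≤ p) →
      n.primeFactorsList.length ≤ 2 ∨ 2 ≤ ((pr N (1 / 4) (667 / 1000)).filter (fun q => q ∣ n)).card ∨
      (((pr N (1 / 4) (667 / 1000)).filter (fun q => q ∣ n)).card = 1 ∧ Ty N n)) :
    ∑ x ∈ (((OW K δ X A B).filter (fun x => x.1 ≡ a [MOD M])).filter
        (fun x => ∀ q ∈ P1 N z ε, ¬ q ∣ vZ (ZAL α (M * ps) h Y Om) z N x.1)),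
      II N ε (vZ (ZAL α (M * ps) h Y Om) z N x.1) *
      (1 - 1 / 2 * ∑ q ∈ pr N (1 / 4) (667 / 1000),
        (if q ∣ vZ (ZAL α (M * ps) h Y Om) z N x.1 then 1 else 0)) ≤
    K * (((GWL α γ A B N Y M a h Om).card : ℝ) + 1 / 2 * ((TWL α γ A B N z Y M ps a h Om).card : ℝ) +
      ((BWL α A B N M a h).card : ℝ) + ((EW A B Y M ps a Om).card : ℝ)) := by
  rw [filter_filter]
  have e1 := sum_OW (K := K) hTZ (fun p => p ≡ a [MOD M] ∧
    ∀ q ∈ P1 N z ε, ¬ q ∣ vZ (ZAL α (M * ps) h Y Om) z N p)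
    (fun p => II N ε (vZ (ZAL α (M * ps) h Y Om) z N p) *
      (1 - 1 / 2 * ∑ q ∈ pr N (1 / 4) (667 / 1000),
        (if q ∣ vZ (ZAL α (M * ps) h Y Om) z N p then 1 else 0)))
  refine le_trans (le_of_eq ?_) (le_trans (le_of_eq e1) ?_)
  · refine Finset.sum_congr ?_ fun _ _ => rfl
    ext x
    simp only [mem_filter]
  have hO : (PNX A B).filter (fun p => p ≡ a [MOD M] ∧
      ∀ q ∈ P1 N z ε, ¬ q ∣ vZ (ZAL α (M * ps) h Y Om) z N p) = O1L α A B N z Y M ps a ε h Om := by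
    unfold O1L
    ext x
    simp only [mem_filter]
  have hPN : ∀ p ∈ O1L α A B N z Y M ps a ε h Om, p ∈ PNX A B := by
    intro p hp
    unfold O1L at hp
    exact (mem_filter.1 hp).1
  have h1 : ∑ p ∈ O1L α A B N z Y M ps a ε h Om, (mu K δ X A B p : ℝ) *
      (II N ε (vZ (ZAL α (M * ps) h Y Om) z N p) *
      (1 - 1 / 2 * ∑ q ∈ pr N (1 / 4) (667 / 1000),
        (if q ∣ vZ (ZAL α (M * ps) h Y Om) z N p then 1 else 0))) ≤
      ∑ p ∈ O1L α A B N z Y M ps a ε h Om, (K : ℝ) * ((if p ∈ GWL α γ A B N Y M a h Om then (1 : ℝ) else 0) +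
      1 / 2 * (if p ∈ TWL α γ A B N z Y M ps a h Om then (1 : ℝ) else 0) +
      (if p ∈ BWL α A B N M a h then (1 : ℝ) else 0) + (if p ∈ EW A B Y M ps a Om then (1 : ℝ) else 0)) := by
    apply Finset.sum_le_sum
    intro p hp
    have h2 := point S hA hB hW hp
    have h3 : (mu K δ X A B p : ℝ) ≤ K := by exact_mod_cast mu_le hTZ (hPN p hp)
    have h4 : (0 : ℝ) ≤ (if p ∈ GWL α γ A B N Y M a h Om then (1 : ℝ) else 0) +
      1 / 2 * (if p ∈ TWL α γ A B N z Y M ps a h Om then (1 : ℝ) else 0) +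
      (if p ∈ BWL α A B N M a h then (1 : ℝ) else 0) + (if p ∈ EW A B Y M ps a Om then (1 : ℝ) else 0) := by
      split_ifs <;> norm_num
    calc _ ≤ (mu K δ X A B p : ℝ) * ((if p ∈ GWL α γ A B N Y M a h Om then (1 : ℝ) else 0) +
      1 / 2 * (if p ∈ TWL α γ A B N z Y M ps a h Om then (1 : ℝ) else 0) +
      (if p ∈ BWL α A B N M a h then (1 : ℝ) else 0) + (if p ∈ EW A B Y M ps a Om then (1 : ℝ) else 0)) :=
          mul_le_mul_of_nonneg_left h2 (Nat.cast_nonneg _)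
      _ ≤ _ := mul_le_mul_of_nonneg_right h3 h4
  refine le_trans (le_of_eq ?_) (h1.trans ?_)
  · rw [← hO]
  rw [← Finset.mul_sum, Finset.sum_add_distrib, Finset.sum_add_distrib, Finset.sum_add_distrib,
    ← Finset.mul_sum]
  apply mul_le_mul_of_nonneg_left _ (Nat.cast_nonneg _)
  have key : ∀ T : Finset ℕ, ∑ p ∈ O1L α A B N z Y M ps a ε h Om, (if p ∈ T then (1 : ℝ) else 0) ≤ T.card := by
    intro T
    rw [Finset.sum_boole]
    apply Nat.cast_le.2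
    apply card_le_card
    intro p hp
    exact (mem_filter.1 hp).2
  have h1 := key (GWL α γ A B N Y M a h Om)
  have h2 := key (TWL α γ A B N z Y M ps a h Om)
  have h3 := key (BWL α A B N M a h)
  have h4 := key (EW A B Y M ps a Om)
  linarith

end POSLa

theorem posl : St_POSL := by
  intro r N X z Y M M2 ps a α γ A B K ε δ h Om S hA hB hTZ hW
  exact POSLa.sum S hA hB hTZ hW

end Pool.Agent.Q117.LF
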