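import Pool.Agent.Q117.LF.Stm

/-! (helper24) JOB PRWL of project LF: the products of the local densities. -/

set_option autoImplicit false

namespace Pool.Agent.Q117.LF

open Finset Filter Pool.Agent.W23.DC Pool.Agent.Y660.RP
open Pool.Agent.Y843.HS (Pr Pr_mem Pr_prime)
open Pool.Agent.Y843.HG (Adm Z0 SP V1)
open Pool.Agent.Y843.CH hiding TB
open Pool.Agent.Y840.CI
open Pool.Agent.Q117.CR

theorem prwl : St_PRWL := by
  classical
  intro r N z Y M ps α γ ε h Om D hg hzY hYN hε hN hrz hY hM hzM hMY hps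
  -- the residues
  obtain ⟨res, hres⟩ : ∃ res : ℕ → ℕ, res = fun q => if q ∣ α * γ then 0 else hr (h * iv α q) q :=
    ⟨_, rfl⟩
  obtain ⟨t, ht⟩ : ∃ t : Finset ℕ, t = (Ioc 0 (max N Y)).filter Nat.Prime := ⟨_, rfl⟩
  obtain ⟨k, hk⟩ := Nat.chineseRemainderOfFinset res (fun q => q) t
    (by
      intro q hq
      rw [ht, mem_filter] at hq
      exact hq.2.ne_zero)
    (by
      intro p hp q hq hpq
      rw [ht, mem_coe, mem_filter] at hp hq
      exact (Nat.coprime_primes hp.2 hq.2).2 hpq)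
  have hk2 : ∀ q : ℕ, q.Prime → q ≤ max N Y → hr (k : ℤ) q = res q := by
    intro q hq hqm
    have h1 := hk q (by rw [ht, mem_filter, mem_Ioc]; exact ⟨⟨hq.pos, hqm⟩, hq⟩)
    rw [hr_nat k hq.pos]
    have h2 : res q < q := by
      rw [hres]
      simp only []
      split_ifs
      · exact hq.pos
      · exact hr_lt _ hq.pos
    have h3 : k % q = res q % q := h1
    rw [h3, Nat.mod_eq_of_lt h2]
  have hDat : Dat r Y (k : ℤ) Om := by
    refine ⟨D.adm, ?_⟩
    intro q hq
    have hqp := Pr_prime hq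
    have hqY := (Pr_mem.1 hq).1.2
    rw [hk2 q hqp (hqY.trans (le_max_right _ _)), hres]
    simp only []
    split_ifs with h1
    · unfold Z0
      exact mem_insert_self _ _
    · exact D.hm q hq h1
  have key := prw r N z Y M ps ε (k : ℤ) Om hDat hzY hYN hε hN hrz hY hM hzM hMY hps
  refine key.trans (le_of_eq ?_)
  refine prod_congr rfl fun p hp => ?_
  rw [mem_P1] at hp
  have hcl : ZAD (M * ps) (k : ℤ) Y Om p = ZAL α (M * ps) h Y Om p := by
    unfold ZAD ZAL
    split_ifs with h1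
    · rfl
    · have h2 : ¬ p ∣ α * γ := fun h3 => h1 (Dvd.dvd.mul_right (hg p hp.2.1 h3) _)
      have h3 : hr (k : ℤ) p = hr (h * iv α p) p := by
        rw [hk2 p hp.2.1 (hp.1.2.trans (le_max_left _ _)), hres]
        simp only []
        rw [if_neg h2]
      unfold ZA
      rw [h3]
  unfold gC
  rw [hcl]

end Pool.Agent.Q117.LF
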