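import Pool.Agent.Q117.LF.Stm

/-! JOB SCPG of project LF: the exceptional prime. -/

set_option autoImplicit false

namespace Pool.Agent.Q117.LF

open Finset Filter
open Pool.Agent.Q117.CR
open Pool.Agent.H378R2 (GoodS GoodP WW psiPhi)
open Pool.Agent.H410R2 (psiLog)

theorem exists_psG (Z g fs : ℕ) (hg1 : 1 ≤ g) (hgZ : g ≤ Z) (h : fs = 0 ∨ g * primorial Z < fs)
    (R : ℝ) (hR : 1 ≤ R) : ∃ ps, GoodP Z ps ∧ (ps : ℝ) ≤ R ∧
      ∀ e f : ℕ, e ∣ g → Squarefree f → (f : ℝ) ≤ R → f.Coprime ps → 1 < e * f → e * f ≠ fs := by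
  by_cases hc : ∃ e f : ℕ, e ∣ g ∧ Squarefree f ∧ 1 < f ∧ (f : ℝ) ≤ R ∧ e * f = fs
  · obtain ⟨e, f, heg, hsq, h1, hfR, hef⟩ := hc
    have he1 : 1 ≤ e := Nat.pos_of_dvd_of_pos heg hg1
    have heg' : e ≤ g := Nat.le_of_dvd hg1 heg
    have h0 : fs ≠ 0 := by
      rw [← hef]
      exact Nat.mul_ne_zero (by omega) (by omega)
    have h2 : primorial Z < f := by
      rcases h with h | h
      · exact absurd h h0
      · have h3 : g * primorial Z < g * f := by
          calc g * primorial Z < fs := h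
            _ = e * f := hef.symm
            _ ≤ g * f := Nat.mul_le_mul_right _ heg'
        exact lt_of_mul_lt_mul_left h3 (Nat.zero_le _)
    have h3 : ∃ p, p.Prime ∧ p ∣ f ∧ Z < p := by
      by_contra hcon
      push Not at hcon
      have h4 : f ∣ primorial Z := by
        rw [← Nat.prod_primeFactors_of_squarefree hsq]
        unfold primorial
        apply prod_dvd_prod_of_subset
        intro p hp
        rw [mem_filter, mem_range]
        have hp' := Nat.prime_of_mem_primeFactors hp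
        have := hcon p hp' (Nat.dvd_of_mem_primeFactors hp)
        exact ⟨by omega, hp'⟩
      have := Nat.le_of_dvd (primorial_pos Z) h4
      omega
    obtain ⟨p, hp, hpf, hpZ⟩ := h3
    refine ⟨p, Or.inr ⟨hp, hpZ⟩, ?_, ?_⟩
    · exact le_trans (by exact_mod_cast Nat.le_of_dvd (by omega) hpf) hfR
    · intro e' f' he' _ _ hf3 _ hff
      have hd : p ∣ e' * f' := by
        rw [hff, ← hef]
        exact hpf.mul_left _
      rcases (hp.dvd_mul).1 hd with hd | hd
      · have h5 := Nat.le_of_dvd (Nat.pos_of_dvd_of_pos he' hg1) hd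
        have h6 := Nat.le_of_dvd hg1 he'
        omega
      · have := Nat.Coprime.eq_one_of_dvd hf3.symm hd
        exact hp.one_lt.ne' this
  · refine ⟨1, Or.inl rfl, by push_cast; exact hR, ?_⟩
    intro e f he hf2 hf4 _ h1 hff
    by_cases hf1 : 1 < f
    · exact hc ⟨e, f, he, hf2, hf1, hf4, hff⟩
    · have hf0 : f ≠ 0 := hf2.ne_zero
      have hf1' : f = 1 := by omega
      rw [hf1', mul_one] at hff h1
      have h6 := Nat.le_of_dvd hg1 he
      have h7 : g ≤ g * primorial Z := Nat.le_mul_of_pos_right _ (primorial_pos Z)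
      omega

theorem scpg : St_SCPG := by
  intro Z g hg1 hgZ
  obtain ⟨X1, h1⟩ := sc0 (g * primorial Z)
  obtain ⟨X2, h2⟩ := pl
  obtain ⟨X3, h3⟩ := pr1
  set c : ℝ := Real.log (11 / 10) with hc
  have hc0 : 0 < c := Real.log_pos (by norm_num)
  have hll : Tendsto ll atTop atTop := Real.tendsto_log_atTop.comp Real.tendsto_log_atTop
  obtain ⟨X4, h4⟩ := eventually_atTop.1
    ((hll.eventually_ge_atTop (max 1 (Real.log g / c))).and
      ((Real.tendsto_log_atTop.eventually_ge_atTop (1 : ℝ)).and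
        (eventually_ge_atTop (max 1 (max X1 (max X2 X3))))))
  refine ⟨X4, fun X hX => ?_⟩
  obtain ⟨a1, a2, a3⟩ := h4 X hX
  have hX1 : 1 ≤ X := (le_max_left _ _).trans a3
  have hX0 : 0 < X := by linarith
  set X' : ℝ := X ^ (11 / 10 : ℝ) with hX'
  have hXX' : X ≤ X' := by
    calc X = X ^ (1 : ℝ) := (Real.rpow_one X).symm
      _ ≤ _ := Real.rpow_le_rpow_of_exponent_le hX1 (by norm_num)
  have b1 : X1 ≤ X' := ((le_max_left _ _).trans ((le_max_right _ _).trans a3)).trans hXX'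
  have b2 : X2 ≤ X' := ((le_max_left _ _).trans ((le_max_right _ _).trans
    ((le_max_right _ _).trans a3))).trans hXX'
  have b3 : X3 ≤ X' := ((le_max_right _ _).trans ((le_max_right _ _).trans
    ((le_max_right _ _).trans a3))).trans hXX'
  have hl' : ll X' = ll X + c := by
    unfold ll
    rw [hX', Real.log_rpow hX0, Real.log_mul (by norm_num) (by linarith), hc]
    ring
  have hl1 : 1 ≤ ll X := (le_max_left _ _).trans a1
  have hlg : Real.log g ≤ c * ll X := by
    have := (le_max_right _ _).trans a1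
    rw [div_le_iff₀ hc0] at this
    linarith
  have hgpos : (0 : ℝ) < g := by exact_mod_cast hg1
  have hbig : (g : ℝ) * Real.exp (ll X ^ 6) ≤ Real.exp (ll X' ^ 6) := by
    rw [← Real.exp_log hgpos, ← Real.exp_add, Real.exp_le_exp, hl']
    set l := ll X with hl
    have e1 : (l + c) ^ 6 = l ^ 6 + 6 * l ^ 5 * c + (15 * l ^ 4 * c ^ 2 + 20 * l ^ 3 * c ^ 3 +
      15 * l ^ 2 * c ^ 4 + 6 * l * c ^ 5 + c ^ 6) := by ring
    have e2 : 0 ≤ 15 * l ^ 4 * c ^ 2 + 20 * l ^ 3 * c ^ 3 +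
      15 * l ^ 2 * c ^ 4 + 6 * l * c ^ 5 + c ^ 6 := by positivity
    have e3 : l ≤ l ^ 5 := by
      calc l = l ^ 1 := (pow_one l).symm
        _ ≤ l ^ 5 := pow_le_pow_right₀ hl1 (by norm_num)
    have e4 : c * l ≤ 6 * l ^ 5 * c := by nlinarith
    linarith
  have hexp : ∀ k : ℝ, 0 < k → Real.exp (-(ll X') ^ 7 / k) ≤ Real.exp (-(ll X) ^ 7 / k) := by
    intro k hk
    rw [Real.exp_le_exp]
    have : (ll X) ^ 7 ≤ (ll X') ^ 7 := by
      rw [hl']
      exact pow_le_pow_left₀ (by linarith) (by linarith) 7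
    exact div_le_div_of_nonneg_right (by linarith) hk.le
  obtain ⟨fs, hfs, h5⟩ := h1 X' b1
  obtain ⟨ps, hps, hps1, hps2⟩ := exists_psG Z g fs hg1 hgZ hfs (Real.exp (ll X ^ 6))
    (Real.one_le_exp (by positivity))
  refine ⟨ps, hps, hps1, ?_⟩
  intro e f he hf1 hf2 hf3 hf4 χ hχ
  have hle : ((e * f : ℕ) : ℝ) ≤ Real.exp (ll X' ^ 6) := by
    refine le_trans ?_ hbig
    push_cast
    have h6 : (e : ℝ) ≤ g := by exact_mod_cast Nat.le_of_dvd hg1 he
    exact mul_le_mul h6 hf3 (Nat.cast_nonneg _) hgpos.le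
  have h6 := h2 X' b2 (e * f) χ (h5 (e * f) hf2 hle (hps2 e f he hf1 hf3 hf4 hf2) χ hχ)
  have h7 := h3 X' b3 (e * f) χ h6
  constructor
  · intro x hx1 hx2
    have hx0 : 0 ≤ x := le_trans (Real.rpow_nonneg hX0.le _) hx1
    refine (h6 x ?_ (by linarith)).trans (mul_le_mul_of_nonneg_left (hexp 2 (by norm_num)) hx0)
    refine le_trans ?_ hx1
    rw [hX', ← Real.rpow_mul hX0.le]
    exact Real.rpow_le_rpow_of_exponent_le hX1 (by norm_num)
  · intro u hu1 hu2
    refine (h7 u ?_ (by linarith)).trans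
      (mul_le_mul_of_nonneg_left (hexp 8 (by norm_num)) (Nat.cast_nonneg _))
    refine le_trans (le_of_eq ?_) hu1
    rw [hX', ← Real.rpow_mul hX0.le]
    norm_num

end Pool.Agent.Q117.LF
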