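import Pool.Agent.Q117.LF.Stm

/-!
Project LF of helper117, job TOPL (helper129): Chen's theorem for linear forms relative to a smooth modulus.
-/

set_option autoImplicit false

namespace Pool.Agent.Q117.LF

open Finset Filter Pool.Agent.W23.DC Pool.Agent.Y660.RP
open Pool.Agent.Y843.HS (Pr VV Pr_mem Pr_prime)
open Pool.Agent.Y843.QD (vZ dvd_vZ)
open Pool.Agent.Y843.HG (Adm Z0 SP V1 V1_bounds log_floor VV_low)
open Pool.Agent.Y843.CH hiding TB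
open Pool.Agent.Y840.CI
open Pool.Agent.H378R2 (yy z2 GoodS GoodP)
open Pool.Agent.Q117.CR

namespace TOPLa

/-- the totient of `W g` if the primes of `g` divide `W` -/
theorem tot_mul {W g : ℕ} (hW : 0 < W) (hg : 0 < g) (h : ∀ q : ℕ, q.Prime → q ∣ g → q ∣ W) :
    Nat.totient (W * g) = g * Nat.totient W := by
  have h1 : (W * g).primeFactors = W.primeFactors := by
    rw [Nat.primeFactors_mul hW.ne' hg.ne']
    apply Finset.union_eq_left.2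
    intro q hq
    rw [Nat.mem_primeFactors] at hq ⊢
    exact ⟨hq.1, h q hq.1 hq.2.1, hW.ne'⟩
  have h2 := Nat.totient_mul_prod_primeFactors (W * g)
  have h3 := Nat.totient_mul_prod_primeFactors W
  rw [h1] at h2
  have h4 : 0 < ∏ p ∈ W.primeFactors, p := Finset.prod_pos fun p hp => (Nat.prime_of_mem_primeFactors hp).pos
  apply Nat.eq_of_mul_eq_mul_right h4
  rw [h2]
  calc W * g * ∏ p ∈ W.primeFactors, (p - 1) = g * (W * ∏ p ∈ W.primeFactors, (p - 1)) := by ring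
    _ = g * Nat.totient W * ∏ p ∈ W.primeFactors, p := by rw [← h3]; ring

theorem num_half {X : ℝ} {N W e : ℝ} {K : ℕ} (hX : 1 ≤ X) (hN : N ≤ X ^ (1 / 2 : ℝ)) (hN0 : 0 ≤ N) (hW : 0 < W)
    (hWle : W ≤ X ^ (1 / 40000 : ℝ)) (h2 : 2 ≤ X ^ (1 / 1000 : ℝ)) (hl : 0 < Real.log X)
    (he : 0 ≤ e)
    (h8 : X ^ (51 / 100 : ℝ) ≤ e / 8 * X / Real.log X ^ K) :
    N + X ^ (1 / 2 : ℝ) ≤ e / 2 * (X / W) / Real.log X ^ K := by
  have hX0 : 0 < X := by linarith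
  have h2 : (N + X ^ (1 / 2 : ℝ)) * W ≤ X ^ (51 / 100 : ℝ) := by
    calc (N + X ^ (1 / 2 : ℝ)) * W ≤ (X ^ (1 / 1000 : ℝ) * X ^ (1 / 2 : ℝ)) * X ^ (1 / 40000 : ℝ) := by
          apply mul_le_mul _ hWle hW.le (by positivity)
          have : 0 < X ^ (1 / 2 : ℝ) := by positivity
          nlinarith
      _ = X ^ (1 / 1000 + 1 / 2 + 1 / 40000 : ℝ) := by
          rw [Real.rpow_add hX0, Real.rpow_add hX0]
      _ ≤ X ^ (51 / 100 : ℝ) := Real.rpow_le_rpow_of_exponent_le hX (by norm_num)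
  have h3 := h2.trans h8
  have h4 : e / 2 * (X / W) / Real.log X ^ K = (e / 2 * X / Real.log X ^ K) / W := by
    field_simp
  rw [h4, le_div_iff₀ hW]
  refine h3.trans ?_
  apply div_le_div_of_nonneg_right _ (by positivity)
  nlinarith

/-- the error of the bilinear sums, with the factor `γ` -/
theorem num_EB {X W φ lX γ : ℝ} {K : ℕ} (hX : 0 ≤ X) (hW : 0 < W) (hφ : 0 < φ) (h : W ≤ lX * φ) (hl : 3 ≤ lX)
    (hγ : γ ≤ lX) :
    3 * (γ * ((X / lX ^ (K + 7)) / φ)) ≤ (X / W) / lX ^ (K + 4) := by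
  have hlX : 0 < lX := by linarith
  have h1 := Pool.Agent.Q117.CR.num_EB (K := K) hX hW hφ h hl
  refine le_trans ?_ h1
  have h2 : γ * ((X / lX ^ (K + 7)) / φ) ≤ (X / lX ^ (K + 6)) / φ := by
    have h3 : (X / lX ^ (K + 6)) / φ = lX * ((X / lX ^ (K + 7)) / φ) := by
      rw [pow_succ lX (K + 6)]
      field_simp
    rw [h3]
    apply mul_le_mul_of_nonneg_right hγ
    positivity
  linarith

/-- the change of the modulus in the upper bound -/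
theorem num_up {α γ φ φ2 L J E T q1 sg ε V D : ℝ} (hα : 1 ≤ α) (hγ : 1 ≤ γ) (hφ : 0 < φ) (hφ2 : 0 < φ2)
    (htot : φ * α = φ2 * γ) (hL : 0 ≤ L) (hJ : 0 ≤ J) (hE : 0 ≤ E)
    (hup : T ≤ ε * (sg / φ2 * V) * q1 + 2 * (J * (L * (E / φ2))))
    (hM : sg ≤ 196 / 1000 * (α * D / γ / L)) :
    T ≤ ε * ((γ / α * sg) / φ * V) * q1 + 2 * (J * (L * (3 * (γ * (E / φ))))) ∧
      γ / α * sg ≤ 196 / 1000 * (D / L) := by
  have hα0 : 0 < α := by linarith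
  have hγ0 : 0 < γ := by linarith
  have e1 : φ2 = φ * α / γ := by
    rw [htot]
    field_simp
  constructor
  · have h1 : sg / φ2 = (γ / α * sg) / φ := by
      rw [e1]
      field_simp
    have h2 : E / φ2 ≤ 3 * (γ * (E / φ)) := by
      have h3 : E / φ2 = 1 / α * (γ * (E / φ)) := by
        rw [e1]
        field_simp
      rw [h3]
      have h4 : 1 / α ≤ 1 := by
        rw [div_le_one hα0]
        exact hα
      have h5 : 0 ≤ γ * (E / φ) := by positivity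
      nlinarith
    rw [h1] at hup
    have h3 : J * (L * (E / φ2)) ≤ J * (L * (3 * (γ * (E / φ)))) := by gcongr
    linarith
  · have h1 : γ / α * sg ≤ γ / α * (196 / 1000 * (α * D / γ / L)) :=
      mul_le_mul_of_nonneg_left hM (by positivity)
    refine h1.trans (le_of_eq ?_)
    field_simp

theorem fin_eq {γ W : ℝ} (hγ : 0 < γ) (hW : 0 < W) (c D V : ℝ) :
    c / (2 * γ) * (D / W * V) = c / 2 * (D / (W * γ) * V) := by
  field_simp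

/-- the main inequality -/
theorem step (hBLK : St_BLKL) (hBWL : St_BWL) (hPRW : St_PRWL) (hPOS : St_POSL) (hCLL : St_CLL) (hTY : St_TYPL)
    (hWP : St_WPG) (hST : St_STEPL) {r N X z Y t ps a α γ A B M M2 J K b Z Zf : ℕ}
    {ε A0 δ δ' θ E cV c1 C1 k cm CJ Cf e0 : ℝ} {h : ℤ} {Om : ℕ → Finset ℕ}
    (S : StL r N X z Y M M2 ps a α γ ε h Om)
    (hN4000 : 4000 ≤ N) (hNd : N = Nat.sqrt X) (hh : h ≠ 0) (hNA : N ≤ A) (hAB : A ≤ B) (hBX : α * B ≤ X)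
    (hθ : 0 < θ) (hθX : θ * X ≤ (B : ℝ) - A) (hθX4 : 4000 * γ ≤ θ * X)
    (hδ0 : 0 < δ) (hδ4 : δ ≤ 1 / 4000) (hδd : δ = θ / (8000 * γ)) (hJ1 : 1 ≤ J)
    (hlam : (N : ℝ) ^ (417 / 1000 / (J : ℝ)) ≤ 1 + δ) (hJ2 : (J : ℝ) ≤ CJ * Real.log N + 1)
    (hCJ0 : 0 < CJ) (hb1 : CJ + 2 ≤ b) (ht0 : (0 : ℝ) < t) (hYd : Y = ⌊(X : ℝ) ^ (1 / (t : ℝ))⌋₊)
    (hA0 : 0 < A0) (hCB : CB (r + 1) z N ε A0 (A0 / 10000)) (hMB : MB' N δ) (hNm : St_NUM)
    (hTZ : TZ1 δ' X A B) (hE : E = X / Real.log X ^ (K + 7))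
    (hBP : BPM (r + 1) δ' X A B M ps E)
    (hBB : ∀ i ∈ ({1, -1} : Finset ℤ) ×ˢ range J, BBM (r + 1) X (blkL α γ A B N X J δ h i) M2 ps E)
    (hφE : (M.totient : ℝ) ≤ E) (hWt : ∀ n : ℕ, 1 ≤ n → n ≤ 3 * N ^ 2 →
      (∀ p : ℕ, p.Prime → p ∣ n → (N : ℝ) ^ (1 / 4 : ℝ) ≤ p) →
      (∀ p : ℕ, p.Prime → p ^ 2 ∣ n → (N : ℝ) ^ (667 / 1000 : ℝ) ≤ p) →
      n.primeFactorsList.length ≤ 2 ∨ 2 ≤ ((pr N (1 / 4) (667 / 1000)).filter (fun q => q ∣ n)).card ∨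
      (((pr N (1 / 4) (667 / 1000)).filter (fun q => q ∣ n)).card = 1 ∧ Ty N n))
    (p1 : 4995 / 10000 * (((B : ℝ) - A) / Real.log N) ≤ PT1 δ' A B / Real.log X)
    (p2 : PT1 δ' A B / Real.log X ≤ ((B : ℝ) - A) / Real.log N)
    (hz2 : r + 2 ≤ z) (hY3 : 3 ≤ Y) (hZz : z ≤ Z)
    (hsd : ∀ q : ℕ, q.Prime → q ≤ Z → q ∣ M) (hps : GoodP Z ps)
    (hC1 : 0 < C1) (hc1 : 0 < c1) (y2 : Real.log X / (2 * t) ≤ Real.log Y)
    (hVbY : V1 Y ≤ C1 / Real.log Y) (hVbN : c1 / Real.log N ≤ V1 N)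
    (hk : k = (1 / 2) / (2 * t * C1) * (c1 / (t * C1)) ^ 2) (hcm : cm = 4 / 10000 * A0 * ε * k)
    (hcV : 0 < cV) (hVV : cV / Real.log X ^ K ≤ VV (Z0 Om) 0 Y)
    (hWphi : (M : ℝ) ≤ Real.log X * (M.totient : ℝ)) (hWle : (M : ℝ) ≤ (X : ℝ) ^ (1 / 40000 : ℝ))
    (hl3 : 3 ≤ Real.log X) (hlγ : (γ : ℝ) ≤ Real.log X) (he0 : e0 = cm * cV * θ / 8)
    (s3 : 2 ≤ lo N (1 / 4)) (s4 : lo N (1 / 4) ≤ N)
    (s8 : (X : ℝ) / lo N (1 / 4) + N ≤ e0 / 2 * X / Real.log X ^ K)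
    (s9 : b * Real.log X ^ K ≤ e0 / 2 * Real.log X ^ (K + 2))
    (q8 : (X : ℝ) ^ (51 / 100 : ℝ) ≤ e0 / 8 * X / Real.log X ^ K) (q9 : 2 ≤ (X : ℝ) ^ (1 / 1000 : ℝ))
    (hCf : 0 < Cf) (hZf : Zf ≤ Z) (hZc : 4 * Cf / cm ≤ Z)
    (H : ∀ (W ps a A B Y : ℕ) (Om : ℕ → Finset ℕ), Y = ⌊(X : ℝ) ^ (1 / (t : ℝ))⌋₊ → Adm r Y Om → 1 ≤ W →
      ps.Prime → ¬ ps ∣ W → Zf < ps → ps ≤ Y → (∀ q : ℕ, q.Prime → q ≤ Zf → q ∣ W) → A ≤ B → B ≤ X →
      (((Ioc A B).filter (fun n => n ≡ a [MOD W] ∧ n % ps ∈ Z0 Om ps ∧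
        ∀ q ∈ Pr 0 Y, ¬ q ∣ W * ps → n % q ∉ Z0 Om q)).card : ℝ) ≤
      Cf * ((((B : ℝ) - A) / ((W : ℝ) * ps)) * VD Om (W * ps) Y) + (X : ℝ) ^ (1 / 2 : ℝ)) :
    cm / 2 * ((((B : ℝ) - A) / (M : ℝ)) * VD Om (M * ps) Y) ≤
      ((GWL α γ A B N Y M a h Om).card : ℝ) := by
  classical
  have hNr : (4000 : ℝ) ≤ N := by exact_mod_cast hN4000
  have hL : 0 < Real.log N := Real.log_pos (by linarith)
  have hX4 : 4000 ≤ X := le_of_sq_le hN4000 S.NX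
  have hXr : (4000 : ℝ) ≤ X := by exact_mod_cast hX4
  have hX0 : (0 : ℝ) < X := by linarith
  obtain ⟨g1, g2⟩ := log_sq (show 4 ≤ N by omega) S.NX S.XN
  have hlX : 0 < Real.log X := by linarith
  have hlX1 : 1 ≤ Real.log X := by linarith
  have hLlX : Real.log N ≤ Real.log X := by linarith
  have hWr : (0 : ℝ) < M := by exact_mod_cast S.M0
  have hφ0 : (0 : ℝ) < M.totient := by exact_mod_cast Nat.totient_pos.2 S.M0
  have hφ20 : (0 : ℝ) < M2.totient := by exact_mod_cast Nat.totient_pos.2 S.M20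
  have hα1 : (1 : ℝ) ≤ α := by exact_mod_cast S.α0
  have hγ1 : (1 : ℝ) ≤ γ := by exact_mod_cast S.γ0
  have htot : (M.totient : ℝ) * α = (M2.totient : ℝ) * γ := by exact_mod_cast S.tot
  have hBX' : B ≤ X := le_trans (Nat.le_mul_of_pos_left B S.α0) hBX
  obtain ⟨P, hPd⟩ : ∃ P : ℝ, P = PT1 δ' A B / Real.log X := ⟨_, rfl⟩
  obtain ⟨V, hVd⟩ : ∃ V : ℝ, V = ∏ p ∈ P1 N z ε, (1 - gC (ZAL α (M * ps) h Y Om) p) := ⟨_, rfl⟩
  obtain ⟨G, hG⟩ : ∃ G : ℝ, G = ((GWL α γ A B N Y M a h Om).card : ℝ) := ⟨_, rfl⟩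
  obtain ⟨T, hT⟩ : ∃ T : ℝ, T = ((TWL α γ A B N z Y M ps a h Om).card : ℝ) := ⟨_, rfl⟩
  obtain ⟨Bd, hBd⟩ : ∃ Bd : ℝ, Bd = ((BWL α A B N M a h).card : ℝ) := ⟨_, rfl⟩
  obtain ⟨Ex, hEx⟩ : ∃ Ex : ℝ, Ex = ((EW A B Y M ps a Om).card : ℝ) := ⟨_, rfl⟩
  obtain ⟨EB, hEB⟩ : ∃ EB : ℝ, EB = 3 * ((γ : ℝ) * (E / (Nat.totient M : ℝ))) := ⟨_, rfl⟩
  obtain ⟨Q, hQd⟩ : ∃ Q : ℝ, Q = VD Om (M * ps) Y := ⟨_, rfl⟩
  obtain ⟨D, hDd⟩ : ∃ D : ℝ, D = (B : ℝ) - A := ⟨_, rfl⟩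
  have hE0 : 0 < E := by rw [hE]; positivity
  have hBA0 : 0 ≤ D := by
    have : (A : ℝ) ≤ B := by exact_mod_cast hAB
    rw [hDd]
    linarith
  have hε := S.e0
  have hk0 : 0 < k := by rw [hk]; positivity
  have hcm0 : 0 < cm := by rw [hcm]; positivity
  have he00 : 0 < e0 := by rw [he0]; positivity
  rw [← hPd] at p1 p2
  rw [← hDd] at p1 p2
  have hW0' : 0 ≤ D / Real.log N := by positivity
  have hP0 : 0 ≤ P := le_trans (by positivity) p1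
  obtain ⟨hlow0, hup0⟩ := hST hPOS hCLL hTY hWP r N X z Y M M2 ps a α γ A B J (X ^ ((r + 1) + 3)) ε A0 δ δ' E
    P V G T Bd Ex h Om S hN4000 hh hNA hBX hlX1 hδ0.le hJ1 hCB hTZ hBP hφE hBB rfl hWt hPd hP0 hVd hG hT hBd hEx
  have hlow2 : ε * (P / (Nat.totient M : ℝ) * V) * (A0 * (1000 / 998 * LBc) - A0 / 10000) -
      Real.log N * EB ≤ G + 1 / 2 * T + (Bd + Ex) := by
    have h1 : 3 * (E / (Nat.totient M : ℝ)) ≤ EB := by
      rw [hEB]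
      have : 0 ≤ E / (Nat.totient M : ℝ) := by positivity
      nlinarith
    have h2 := mul_le_mul_of_nonneg_left h1 hL.le
    linarith
  have hMs := (hBLK r N X z Y M M2 ps a α γ A B J ε δ θ h Om S hNA hAB hBX hN4000 hδ0 hδ4 hJ1 hlam).2 hθ hδd hθX
    hθX4 hMB
  rw [← hDd] at hMs
  obtain ⟨hup, hM2⟩ := num_up hα1 hγ1 hφ0 hφ20 htot hL.le (Nat.cast_nonneg J) hE0.le hup0 hMs
  rw [← hEB] at hup
  have hpsW := S.hp
  have hpl := hPRW r N z Y M ps α γ ε h Om S.D S.g S.zY S.Yw (by have := S.e1; linarith) (by omega)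
    hz2 hY3 S.M0 (fun q hq hqz => hsd q hq (hqz.trans hZz)) S.mY hpsW
  rw [← hVd, ← hQd] at hpl
  have hQ0 : 0 ≤ Q := by rw [hQd]; exact VD_nonneg S.D.adm _
  have hVY := V1_pos Y
  have hVN := V1_pos N
  have hQ' : 0 ≤ Q * ((Nat.totient M : ℝ) / M) := by positivity
  have hpl' : Q * ((Nat.totient M : ℝ) / M) * ((1 / 2) / V1 Y) * (V1 N / V1 Y) ^ 2 ≤ V := by
    refine le_trans (le_of_eq ?_) hpl
    have : (1 / 2 : ℝ) / V1 Y = 1 / (2 * V1 Y) := by rw [div_div]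
    rw [this]
  have hV0 : 0 ≤ V := le_trans (by positivity) hpl'
  have hfin := arith_final hε hV0 hφ0 hA0 hNm.1 hW0' p1 p2 hM2 hlow2 hup
  have hkf := kfac hQ' (by norm_num : (0 : ℝ) < 1 / 2) hVY hVN hC1 hc1 ht0 hlX hL y2 g1 hVbY hVbN hpl'
  rw [← hk] at hkf
  have hml := main_low hA0 hε hφ0 hBA0 hL g1 hk0 hQ' hkf
  have hml' : cm * (D / M * Q) ≤ 2 / 10000 * A0 * (ε * (V / (Nat.totient M : ℝ))) * (D / Real.log N) := by
    refine le_trans (le_of_eq ?_) hml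
    rw [hcm]
    field_simp
  have hQX : cV / Real.log X ^ K ≤ Q := by
    rw [hQd]
    exact hVV.trans (VV_le_VD S.D.adm _)
  -- the bad primes
  have hloY : ∀ q : ℕ, q.Prime → q ∣ M → q ≤ lo N (1 / 4) := by
    intro q hq hqW
    by_contra hcon
    rw [not_le, lo_lt_iff (by omega)] at hcon
    have h1 : (q : ℝ) ≤ Y := by exact_mod_cast S.mY q hq hqW
    have h2 : (N : ℝ) ^ ε ≤ (N : ℝ) ^ (1 / 4 : ℝ) :=
      Real.rpow_le_rpow_of_exponent_le (by linarith) (by have := S.e1; linarith)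
    have h3 := S.Yw
    linarith
  have hBW := hBWL α A B N X M a h hBX' S.M0 S.α0 hloY (fun q hq hqα => S.g q hq (hqα.mul_right γ)) s3 s4
  rw [← hBd] at hBW
  have hEW := EW_card (r := r) (X := X) (t := t) (Zf := Zf) (Z := Z) (a := a) hCf hcm0 hDd hBA0 hQd hQ0 hZf hZc
    hps hYd S.D.adm S.M0 (by
      rcases hpsW with h1 | h1
      · exact Or.inr h1
      · exact Or.inl h1.2.1) (by
      rcases hpsW with h1 | h1
      · rw [h1]; omega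
      · exact h1.2.2) hsd hAB hBX' H
  rw [← hEx] at hEW
  have hXW0 : (0 : ℝ) ≤ (X : ℝ) / M := by positivity
  have hEB' : EB ≤ ((X : ℝ) / M) / Real.log X ^ (K + 4) := by
    rw [hEB, hE]
    exact num_EB hX0.le hWr hφ0 hWphi hl3 hlγ
  have hEB0 : 0 ≤ EB := by rw [hEB]; positivity
  have hNh : (N : ℝ) ≤ (X : ℝ) ^ (1 / 2 : ℝ) := by
    rw [← Real.sqrt_eq_rpow, hNd]
    exact Real.nat_sqrt_le_real_sqrt
  have hXhalf := num_half (by linarith) hNh (Nat.cast_nonneg N) hWr hWle q9 hlX he00.le q8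
  have hlo' := num_lo (K := K) (Nat.cast_nonneg N) hWr hlX s8
  have hEr := errs_le (K := K) (c := e0) (CJ := CJ) (b := b) (lX := Real.log X) (X := (X : ℝ) / M)
    (EB := EB) (lo := (X : ℝ) / M / lo N (1 / 4)) (N := (N : ℝ) + (X : ℝ) ^ (1 / 2 : ℝ)) (J := J) hL hLlX hlX1
    hXW0 hJ2 (Nat.cast_nonneg J) hCJ0.le hb1 (by
      have : 0 ≤ e0 / 2 * Real.log X ^ (K + 2) := by positivity
      linarith) hEB' hEB0 (by
      have h1 : e0 * ((X : ℝ) / M) / Real.log X ^ K =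
        e0 / 2 * ((X : ℝ) / M) / Real.log X ^ K + e0 / 2 * ((X : ℝ) / M) / Real.log X ^ K := by ring
      linarith)
  have hθX' : θ * X ≤ D := by rw [hDd]; exact hθX
  have hE2 := num_err (X := (X : ℝ)) (W := (M : ℝ)) (θ := θ) (K := K) hWr hlX hcm0 hcV hθX' hBA0 hQX
  rw [← he0] at hE2
  rw [← hG, ← hQd, ← hDd]
  exact num_fin hml' hfin hBW hEW hEr hE2

/-- the new conditions on the size -/
theorem ev_top (g γ : ℕ) : ∃ X0 : ℕ, ∀ X : ℕ, X0 ≤ X →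
    (((g ^ 3 * X : ℕ) : ℕ) : ℝ) ^ (1 / 9 : ℝ) + 1 ≤ ((Nat.sqrt X : ℕ) : ℝ) ^ (1 / 4 : ℝ) ∧
    (X : ℝ) ^ (1 / 3 : ℝ) + 1 ≤ (X : ℝ) ^ (1 / 2 : ℝ) ∧ (γ : ℝ) ≤ Real.log X ∧
    (X : ℝ) ^ (1 / 50000 : ℝ) * γ ≤ (X : ℝ) ^ (1 / 40000 : ℝ) := by
  have hnat := tendsto_natCast_atTop_atTop (R := ℝ)
  have c1 : ∀ᶠ X : ℝ in atTop, (γ : ℝ) ≤ Real.log X :=
    Real.tendsto_log_atTop.eventually (eventually_ge_atTop _)
  have c2 : ∀ᶠ X : ℝ in atTop, (γ : ℝ) ≤ X ^ (1 / 200000 : ℝ) :=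
    (tendsto_rpow_atTop (by norm_num)).eventually (eventually_ge_atTop _)
  have c3 : ∀ᶠ X : ℝ in atTop, (2 : ℝ) ≤ X ^ (1 / 6 : ℝ) :=
    (tendsto_rpow_atTop (by norm_num)).eventually (eventually_ge_atTop _)
  have c4 : ∀ᶠ X : ℝ in atTop, 2 * ((g : ℝ) ^ (1 / 3 : ℝ) + 1) ≤ X ^ (1 / 72 : ℝ) :=
    (tendsto_rpow_atTop (by norm_num)).eventually (eventually_ge_atTop _)
  have call := hnat.eventually (c1.and (c2.and (c3.and (c4.and (eventually_ge_atTop 4)))))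
  obtain ⟨X1, hX1⟩ := eventually_atTop.1 call
  refine ⟨X1, fun X hX => ?_⟩
  obtain ⟨d1, d2, d3, d4, d5⟩ := hX1 X hX
  have hX0 : (0 : ℝ) < X := by linarith
  have hX1' : (1 : ℝ) ≤ X := by linarith
  refine ⟨?_, ?_, d1, ?_⟩
  · -- `√X ≥ X ^ (1/2) / 2`, so the fourth root is `≥ X ^ (1/8) / 2`
    have h1 : (X : ℝ) ^ (1 / 2 : ℝ) ≤ ((Nat.sqrt X : ℕ) : ℝ) + 1 := by
      rw [← Real.sqrt_eq_rpow]
      apply Real.sqrt_le_iff.2
      constructor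
      · positivity
      · exact_mod_cast (Nat.lt_succ_sqrt' X).le
    have h2 : (2 : ℝ) ≤ (X : ℝ) ^ (1 / 2 : ℝ) := by
      rw [← Real.sqrt_eq_rpow]
      apply Real.le_sqrt_of_sq_le
      linarith
    have h3 : (X : ℝ) ^ (1 / 2 : ℝ) / 2 ≤ ((Nat.sqrt X : ℕ) : ℝ) := by linarith
    have h4 : ((X : ℝ) ^ (1 / 2 : ℝ) / 2) ^ (1 / 4 : ℝ) ≤ ((Nat.sqrt X : ℕ) : ℝ) ^ (1 / 4 : ℝ) :=
      Real.rpow_le_rpow (by positivity) h3 (by norm_num)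
    refine le_trans ?_ h4
    rw [Real.div_rpow (by positivity) (by norm_num), ← Real.rpow_mul hX0.le]
    have h5 : (2 : ℝ) ^ (1 / 4 : ℝ) ≤ 2 := by
      calc (2 : ℝ) ^ (1 / 4 : ℝ) ≤ (2 : ℝ) ^ (1 : ℝ) := Real.rpow_le_rpow_of_exponent_le (by norm_num) (by norm_num)
        _ = 2 := Real.rpow_one _
    have h6 : (0 : ℝ) < (2 : ℝ) ^ (1 / 4 : ℝ) := by positivity
    rw [le_div_iff₀ h6]
    push_cast
    rw [Real.mul_rpow (by positivity) hX0.le]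
    have h7 : ((g : ℝ) ^ 3) ^ (1 / 9 : ℝ) = (g : ℝ) ^ (1 / 3 : ℝ) := by
      rw [← Real.rpow_natCast, ← Real.rpow_mul (Nat.cast_nonneg _)]
      norm_num
    rw [h7]
    have h8 : (X : ℝ) ^ (1 / 2 * (1 / 4) : ℝ) = (X : ℝ) ^ (1 / 72 : ℝ) * (X : ℝ) ^ (1 / 9 : ℝ) := by
      rw [← Real.rpow_add hX0]
      norm_num
    rw [h8]
    have h9 : (1 : ℝ) ≤ (X : ℝ) ^ (1 / 9 : ℝ) := Real.one_le_rpow hX1' (by norm_num)
    have h10 : (0 : ℝ) ≤ (g : ℝ) ^ (1 / 3 : ℝ) := by positivity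
    calc ((g : ℝ) ^ (1 / 3 : ℝ) * (X : ℝ) ^ (1 / 9 : ℝ) + 1) * (2 : ℝ) ^ (1 / 4 : ℝ)
        ≤ ((g : ℝ) ^ (1 / 3 : ℝ) * (X : ℝ) ^ (1 / 9 : ℝ) + (X : ℝ) ^ (1 / 9 : ℝ)) * 2 := by gcongr
      _ = 2 * ((g : ℝ) ^ (1 / 3 : ℝ) + 1) * (X : ℝ) ^ (1 / 9 : ℝ) := by ring
      _ ≤ (X : ℝ) ^ (1 / 72 : ℝ) * (X : ℝ) ^ (1 / 9 : ℝ) := by gcongr
  · have h1 : (X : ℝ) ^ (1 / 2 : ℝ) = (X : ℝ) ^ (1 / 6 : ℝ) * (X : ℝ) ^ (1 / 3 : ℝ) := by
      rw [← Real.rpow_add hX0]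
      norm_num
    have h2 : (1 : ℝ) ≤ (X : ℝ) ^ (1 / 3 : ℝ) := Real.one_le_rpow hX1' (by norm_num)
    rw [h1]
    nlinarith
  · have h1 : (X : ℝ) ^ (1 / 40000 : ℝ) = (X : ℝ) ^ (1 / 50000 : ℝ) * (X : ℝ) ^ (1 / 200000 : ℝ) := by
      rw [← Real.rpow_add hX0]
      norm_num
    rw [h1]
    gcongr

/-- the setting from the data of the theorem -/
theorem mkSt {r N X z Y Z t ps a α γ A : ℕ} {ε : ℝ} {h : ℤ} {Om : ℕ → Finset ℕ} {Sd : Finset ℕ}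
    (D : DatL r Y α γ h Om) (hN4000 : 4000 ≤ N) (s2 : (2 : ℝ) < (N : ℝ) ^ (1 / 4 : ℝ)) (hNX : N ^ 2 ≤ X)
    (hXN : X < (N + 1) ^ 2) (hhX : h.natAbs ≤ X) (hzY : z ≤ Y) (hYw : (Y : ℝ) < (N : ℝ) ^ ε) (hε : 0 < ε)
    (hε8 : ε ≤ 1 / 8) (hα : 1 ≤ α) (hγ : 1 ≤ γ) (hαγ : α * γ ≤ Z) (hZz : z ≤ Z)
    (hsd : ∀ q : ℕ, q.Prime → q ≤ Z → q ∣ WX X Sd ps) (hWY : ∀ q : ℕ, q.Prime → q ∣ WX X Sd ps → q ≤ Y)
    (hpsW : ps = 1 ∨ (ps.Prime ∧ ¬ ps ∣ WX X Sd ps ∧ ps ≤ Y))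
    (ha : ∀ q ∈ Pr 0 Y, q ∣ WX X Sd ps → a % q ∉ Z0 Om q) (hd : (γ : ℤ) ∣ h - (α : ℤ) * a)
    (hc : ∀ q : ℕ, q.Prime → q ∣ WX X Sd ps → ¬ (q : ℤ) ∣ (h - (α : ℤ) * a) / γ) :
    StL r N X z Y (WX X Sd ps * γ) (WX X Sd ps * α) ps a α γ ε h Om := by
  have hW0 : 0 < WX X Sd ps := WX_pos _ _ _
  have hsm : ∀ q : ℕ, q.Prime → q ∣ α * γ → q ∣ WX X Sd ps := fun q hq hqd =>
    hsd q hq ((Nat.le_of_dvd (Nat.mul_pos hα hγ) hqd).trans hαγ)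
  have hγW : ∀ q : ℕ, q.Prime → (q ∣ WX X Sd ps * γ ↔ q ∣ WX X Sd ps) := fun q hq =>
    ⟨fun h1 => (hq.dvd_mul.1 h1).elim id fun h2 => hsm q hq (h2.mul_left α), fun h1 => h1.mul_right γ⟩
  have hαW : ∀ q : ℕ, q.Prime → (q ∣ WX X Sd ps * α ↔ q ∣ WX X Sd ps) := fun q hq =>
    ⟨fun h1 => (hq.dvd_mul.1 h1).elim id fun h2 => hsm q hq (h2.mul_right γ), fun h1 => h1.mul_right α⟩
  exact {
    D := D
    N8 := by omega
    N4 := s2
    NX := hNX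
    XN := hXN
    hX := hhX
    zY := hzY
    Yw := hYw
    e0 := hε
    e1 := hε8
    α0 := hα
    γ0 := hγ
    M0 := Nat.mul_pos hW0 hγ
    M20 := Nat.mul_pos hW0 hα
    rel := by ring
    tot := by
      rw [tot_mul hW0 hγ fun q hq h1 => hsm q hq (h1.mul_left α),
        tot_mul hW0 hα fun q hq h1 => hsm q hq (h1.mul_right γ)]
      ring
    same := fun q hq => (hγW q hq).trans (hαW q hq).symm
    g := fun q hq h1 => (hsm q hq h1).mul_right γ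
    hz := fun q hq => (hsd q (Pr_prime hq) ((Pr_mem.1 hq).1.2.trans hZz)).mul_right γ
    mY := fun q hq h1 => hWY q hq ((hγW q hq).1 h1)
    ha := fun q hq h1 => ha q hq ((hγW q (Pr_prime hq)).1 h1)
    hp := by
      rcases hpsW with h1 | ⟨h1, h2, h3⟩
      · exact Or.inl h1
      · exact Or.inr ⟨h1, fun h4 => h2 ((hγW ps h1).1 h4), h3⟩
    hd := hd
    hc := fun q hq h1 => hc q hq ((hγW q hq).1 h1) }

end TOPLa

open TOPLa in
theorem topl_of (htz : St_TZ) (hms : St_MS) (hfb : St_FB) (hC : St_CORE) (hMa : St_MASS) (hNm : St_NUM)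
    (hWt : St_WT) : St_TOPL := by
  classical
  intro hBV hBLK hBWL hPRW hPOS hCLL hTY hWP hST r α γ hα hγ
  obtain ⟨A0, C0, hA0, hcore⟩ := hC (r + 1) (by omega)
  set z := max C0 (r + 5) with hz
  have hzC : C0 ≤ z := le_max_left _ _
  have hzr : r + 5 ≤ z := le_max_right _ _
  obtain ⟨ε, hε, hε8, N0, hN02, hN0⟩ := hcore z hzC (A0 / 10000) (by positivity)
  set t := ⌈4 / ε⌉₊ with ht
  have ht4 : 4 / ε ≤ t := Nat.le_ceil _
  have ht1 : 1 ≤ t := Nat.one_le_iff_ne_zero.2 (Nat.ceil_pos.2 (by positivity)).ne'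
  have ht0 : (0 : ℝ) < t := by exact_mod_cast ht1
  obtain ⟨Cf, Zf, hCf, Xf, hXf⟩ := hfb r t ht1
  set K := 2 * (r + 1) with hK
  obtain ⟨N4, hN4⟩ := hWt
  obtain ⟨cV, hcV, hV⟩ := VV_low (r + 1)
  obtain ⟨c1, C1, hc1, hC1, hVb⟩ := V1_bounds
  obtain ⟨X6, hX6⟩ := log_floor t ht1
  set k := (1 / 2) / (2 * t * C1) * (c1 / (t * C1)) ^ 2 with hk
  have hk0 : 0 < k := by positivity
  set cm := 4 / 10000 * A0 * ε * k with hcm
  have hcm0 : 0 < cm := by positivity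
  have hα1 : (1 : ℝ) ≤ α := by exact_mod_cast hα
  have hγ1 : (1 : ℝ) ≤ γ := by exact_mod_cast hγ
  have hγ0 : (0 : ℝ) < γ := by linarith
  set Z := max (max z Zf) (max ⌈4 * Cf / cm⌉₊ (α * γ + 2)) with hZ
  have hZz : z ≤ Z := (le_max_left _ _).trans (le_max_left _ _)
  have hZf : Zf ≤ Z := (le_max_right _ _).trans (le_max_left _ _)
  have hZc : 4 * Cf / cm ≤ Z := (Nat.le_ceil _).trans (by
    exact_mod_cast (le_max_left _ _).trans (le_max_right _ _))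
  have hZ2 : α * γ + 2 ≤ Z := (le_max_right _ _).trans (le_max_right _ _)
  set U := K + 7 with hU
  obtain ⟨Xb, PP, hPP, hbv⟩ := hBV (r + 1) U Z α γ (by omega) hα hγ (by omega)
  refine ⟨t, ht1, cm / (2 * γ), by positivity, Xb, PP, fun X hX => ?_, ?_⟩
  · obtain ⟨h1, h2⟩ := hPP X hX
    refine ⟨?_, h2⟩
    rcases h1 with h1 | ⟨h1, h3⟩
    · exact Or.inl h1
    · exact Or.inr ⟨h1, by omega⟩
  intro θ hθ hθ1
  obtain ⟨δ, hδd⟩ : ∃ δ : ℝ, δ = θ / (8000 * γ) := ⟨_, rfl⟩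
  obtain ⟨δ', hδ'd⟩ : ∃ δ' : ℝ, δ' = θ / 100000 := ⟨_, rfl⟩
  have hδ0 : 0 < δ := by rw [hδd]; positivity
  have hδ4 : δ ≤ 1 / 4000 := by
    rw [hδd, div_le_div_iff₀ (by positivity) (by norm_num)]
    nlinarith
  have hδ'0 : 0 < δ' := by rw [hδ'd]; positivity
  have hδ'1 : δ' ≤ 1 := by rw [hδ'd]; linarith
  obtain ⟨N3, hN3⟩ := hMa δ hδ0
  obtain ⟨N5, hN5⟩ := hms θ hθ hθ1
  obtain ⟨Xc, hXc⟩ := hbv δ' hδ'0 hδ'1
  set CJ := 1 / Real.log (1 + δ) with hCJ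
  have hCJ0 : 0 < CJ := by
    have : 0 < Real.log (1 + δ) := Real.log_pos (by linarith)
    positivity
  set e0 := cm * cV * θ / 8 with he0
  have he00 : 0 < e0 := by positivity
  set b := max (max ⌈CJ + 2⌉₊ (z + 5)) (max (2 * (r + 1) + 5) (max ⌈4000 * γ / θ⌉₊ 4000)) with hb
  have hb1 : CJ + 2 ≤ b := by
    have h1 : ((⌈CJ + 2⌉₊ : ℕ) : ℝ) ≤ b := by
      exact_mod_cast (le_max_left _ _).trans (le_max_left _ _)
    exact (Nat.le_ceil _).trans h1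
  have hb2 : z + 5 ≤ b := (le_max_right _ _).trans (le_max_left _ _)
  have hb3 : 2 * (r + 1) + 5 ≤ b := (le_max_left _ _).trans (le_max_right _ _)
  have hb4 : 4000 ≤ b := (le_max_right _ _).trans ((le_max_right _ _).trans (le_max_right _ _))
  have hb5 : 4000 * γ / θ ≤ b := by
    have h1 : ((⌈4000 * γ / θ⌉₊ : ℕ) : ℝ) ≤ b :=
      Nat.cast_le.2 ((le_max_left _ _).trans ((le_max_right _ _).trans (le_max_right _ _)))
    exact (Nat.le_ceil _).trans h1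
  obtain ⟨N7, hN7⟩ := sizes ε hε t ht4 K (e0 / 2) (by positivity) b
  obtain ⟨Xd, hXd⟩ := ev_cond t Z K (U + 1) ht1 (e0 / 8) (by positivity) CJ
  obtain ⟨Xe, hXe⟩ := ev_top (α * γ) γ
  set NM := max (max (max N0 N3) (max N4 N5)) N7 with hNM
  refine ⟨max (max (max Xb Xc) (max Xd Xf)) (max (max X6 Xe) ((NM + 1) ^ 2)), ?_⟩
  intro X hX h hh hhX A B hNA hAB hαB hθX
  have hXXb : Xb ≤ X := ((le_max_left _ _).trans ((le_max_left _ _).trans (le_max_left _ _))).trans hX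
  have hXXc : Xc ≤ X := ((le_max_right _ _).trans ((le_max_left _ _).trans (le_max_left _ _))).trans hX
  have hXXd : Xd ≤ X := ((le_max_left _ _).trans ((le_max_right _ _).trans (le_max_left _ _))).trans hX
  have hXXf : Xf ≤ X := ((le_max_right _ _).trans ((le_max_right _ _).trans (le_max_left _ _))).trans hX
  have hXX6 : X6 ≤ X := ((le_max_left _ _).trans ((le_max_left _ _).trans (le_max_right _ _))).trans hX
  have hXXe : Xe ≤ X := ((le_max_right _ _).trans ((le_max_left _ _).trans (le_max_right _ _))).trans hX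
  have hXX7 : (NM + 1) ^ 2 ≤ X := ((le_max_right _ _).trans (le_max_right _ _)).trans hX
  have hBX : B ≤ X := le_trans (Nat.le_mul_of_pos_left B hα) hαB
  set N := Nat.sqrt X with hN
  have hNX : N ^ 2 ≤ X := Nat.sqrt_le' X
  have hXN : X < (N + 1) ^ 2 := Nat.lt_succ_sqrt' X
  have hNMN : NM ≤ N := by
    exact le_sqrt_aux hXX7
  have hNN0 : N0 ≤ N := ((le_max_left _ _).trans ((le_max_left _ _).trans (le_max_left _ _))).trans hNMN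
  have hNN3 : N3 ≤ N := ((le_max_right _ _).trans ((le_max_left _ _).trans (le_max_left _ _))).trans hNMN
  have hNN4 : N4 ≤ N := ((le_max_left _ _).trans ((le_max_right _ _).trans (le_max_left _ _))).trans hNMN
  have hNN5 : N5 ≤ N := ((le_max_right _ _).trans ((le_max_right _ _).trans (le_max_left _ _))).trans hNMN
  have hNN7 : N7 ≤ N := (le_max_right _ _).trans hNMN
  obtain ⟨s1, s2, s3, s4, s5, s6, s7, s8, s9⟩ := hN7 N hNN7 X hNX hXN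
  obtain ⟨y1, y2⟩ := hX6 X hXX6
  obtain ⟨q1, q2, q3, q4, q5, q6, q7, q8, q9, q10, q11, q12⟩ := hXd X hXXd
  obtain ⟨u1, u2, u3, u4⟩ := hXe X hXXe
  set w := (X : ℝ) ^ (1 / (t : ℝ)) with hw
  set Y := ⌊w⌋₊ with hY
  have hw0 : 0 ≤ w := by positivity
  have hYw : (Y : ℝ) ≤ w := Nat.floor_le hw0
  have hbY : b ≤ Y := Nat.le_floor s5
  have hN4000 : 4000 ≤ N := hb4.trans s1
  have hNr : (4000 : ℝ) ≤ N := by exact_mod_cast hN4000
  have hX4 : 4000 ≤ X := le_of_sq_le hN4000 hNX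
  have hXr : (4000 : ℝ) ≤ X := by exact_mod_cast hX4
  have hX0 : (0 : ℝ) < X := by linarith
  have hbX : (b : ℝ) ≤ X := by exact_mod_cast le_of_sq_le s1 hNX
  have hθX4 : 4000 * γ ≤ θ * X := by
    have h1 := hb5.trans hbX
    rw [div_le_iff₀ hθ] at h1
    linarith
  have hL : 0 < Real.log N := Real.log_pos (by linarith)
  obtain ⟨g1, g2⟩ := log_sq (show 4 ≤ N by omega) hNX hXN
  have hlX : 0 < Real.log X := by linarith
  have hlX1 : 1 ≤ Real.log X := by linarith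
  have hLlX : Real.log N ≤ Real.log X := by linarith
  -- the number of blocks
  obtain ⟨J, hJd⟩ : ∃ J : ℕ, J = ⌈417 / 1000 * Real.log N / Real.log (1 + δ)⌉₊ := ⟨_, rfl⟩
  obtain ⟨hJ1, hlam, hJ2⟩ := lam_le' δ hδ0 N J (by omega) hJd
  rw [← hCJ] at hJ2
  obtain ⟨hps, hpsle⟩ := hPP X hXXb
  obtain ⟨ps, hpsd⟩ : ∃ ps : ℕ, ps = PP X := ⟨_, rfl⟩
  rw [← hpsd] at hps hpsle ⊢
  have hpsY : ps ≤ Y := Nat.le_floor (hpsle.trans q2)
  have hsd : ∀ Sd : Finset ℕ, GoodS ((X : ℝ) ^ (1 / 100 : ℝ)) Sd → ∀ q : ℕ, q.Prime → q ≤ Z → q ∣ WX X Sd ps :=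
    fun Sd hSd q hq hqZ => small_dvd hq hqZ hSd hps q3 q4
  have hWY : ∀ Sd : Finset ℕ, ∀ q : ℕ, q.Prime → q ∣ WX X Sd ps → q ≤ Y := by
    intro Sd q hq hqW
    rw [prime_dvd_WX hq] at hqW
    apply Nat.le_floor
    have h1 : (q : ℝ) ≤ (yy ((X : ℝ) ^ (1 / 100 : ℝ)) : ℝ) := by exact_mod_cast hqW.1
    exact h1.trans q5
  have hpsW : ∀ Sd : Finset ℕ, ps = 1 ∨ (ps.Prime ∧ ¬ ps ∣ WX X Sd ps ∧ ps ≤ Y) := by
    intro Sd
    rcases hps with h1 | ⟨h1, h2⟩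
    · exact Or.inl h1
    · exact Or.inr ⟨h1, ps_not_dvd h1, hpsY⟩
  -- the random modulus
  have hXA : (X : ℝ) ^ (1 / 3 : ℝ) ≤ A := by
    have h1 : (X : ℝ) ^ (1 / 2 : ℝ) ≤ (N : ℝ) + 1 := by
      rw [← Real.sqrt_eq_rpow]
      apply Real.sqrt_le_iff.2
      constructor
      · positivity
      · exact_mod_cast hXN.le
    have h2 : (N : ℝ) ≤ A := by exact_mod_cast hNA
    linarith
  have hAp : 0 < A := by omega
  have hAr : (0 : ℝ) < A := by exact_mod_cast hAp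
  have hAX : (A : ℝ) ≤ X := by exact_mod_cast hAB.trans hBX
  have hABδ : (A : ℝ) * Real.exp (2 * δ') ≤ B := by
    have h1 : Real.exp (2 * δ') ≤ 1 + 2 * (2 * δ') := exp_le_two_N (by positivity) (by rw [hδ'd]; linarith)
    have h2 : (A : ℝ) * Real.exp (2 * δ') ≤ A * (1 + 2 * (2 * δ')) := mul_le_mul_of_nonneg_left h1 hAr.le
    have h3 : (A : ℝ) * (4 * δ') ≤ θ * X := by
      calc (A : ℝ) * (4 * δ') ≤ X * (4 * δ') := by gcongr
        _ ≤ X * θ := by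
            apply mul_le_mul_of_nonneg_left _ hX0.le
            rw [hδ'd]
            linarith
        _ = θ * X := by ring
    nlinarith
  -- if the data do not exist there is nothing to prove
  by_cases hex : ∃ (Sd : Finset ℕ) (Om : ℕ → Finset ℕ) (a : ℕ), GoodS ((X : ℝ) ^ (1 / 100 : ℝ)) Sd ∧
      DatL r Y α γ h Om ∧ (∀ q ∈ Pr 0 Y, q ∣ WX X Sd ps → a % q ∉ Z0 Om q) ∧
      (γ : ℤ) ∣ h - (α : ℤ) * a ∧ (∀ q : ℕ, q.Prime → q ∣ WX X Sd ps → ¬ (q : ℤ) ∣ (h - (α : ℤ) * a) / γ)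
  swap
  · refine ⟨∅, ⟨fun q hq => absurd hq (Finset.notMem_empty q), ?_⟩, ?_⟩
    · rw [Finset.sum_empty]
      positivity
    · intro Om D a ha hd hc
      exact absurd ⟨∅, Om, a, ⟨fun q hq => absurd hq (Finset.notMem_empty q), by
        rw [Finset.sum_empty]
        positivity⟩, D, ha, hd, hc⟩ hex
  obtain ⟨S1, Om1, a1, hS1, D1, ha1, hd1, hc1'⟩ := hex
  have St1 := mkSt (A := A) (Z := Z) (t := t) (z := z) D1 hN4000 s2 hNX hXN hhX (by omega) (lt_of_le_of_lt hYw s6) hε hε8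
    hα hγ (by omega) hZz (hsd S1 hS1) (hWY S1) (hpsW S1) ha1 hd1 hc1'
  have hok := (hBLK r N X z Y (WX X S1 ps * γ) (WX X S1 ps * α) ps a1 α γ A B J ε δ θ h Om1 St1 hNA hAB hαB hN4000 hδ0
    hδ4 hJ1 hlam).1 s7 u1
  obtain ⟨Sd, hSd, hBP, hBB⟩ := hXc X hXXc A B hXA hABδ hBX (ℤ × ℕ) (({1, -1} : Finset ℤ) ×ˢ range J)
    (blkL α γ A B N X J δ h) (by
      rw [card_product, card_range]
      have h1 : ({1, -1} : Finset ℤ).card = 2 := by decide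
      rw [h1]
      push_cast
      have h2 : CJ * Real.log N ≤ CJ * Real.log X := mul_le_mul_of_nonneg_left hLlX hCJ0.le
      linarith) (by
      rintro ⟨s, j⟩ hi
      rw [mem_product, mem_range] at hi
      apply hok s _ j hi.2
      have := hi.1
      rw [mem_insert, mem_singleton] at this
      exact this)
  rw [← hpsd] at hBP hBB
  refine ⟨Sd, hSd, ?_⟩
  intro Om D a ha hd hc
  have S := mkSt (A := A) (Z := Z) (t := t) (z := z) D hN4000 s2 hNX hXN hhX (by omega) (lt_of_le_of_lt hYw s6) hε hε8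
    hα hγ (by omega) hZz (hsd Sd hSd) (hWY Sd) (hpsW Sd) ha hd hc
  obtain ⟨W, hWd⟩ : ∃ W : ℕ, W = WX X Sd ps := ⟨_, rfl⟩
  have hW0 : 0 < W := by rw [hWd]; exact WX_pos _ _ _
  have hWr : (0 : ℝ) < W := by exact_mod_cast hW0
  have hWle : (W : ℝ) ≤ (X : ℝ) ^ (1 / 50000 : ℝ) := by
    rw [hWd]
    exact WX_le (by linarith) _ _
  have hWphi : (W : ℝ) ≤ Real.log X * (W.totient : ℝ) := by
    rw [hWd]
    exact W_phi q7 q6
  have hsdW := hsd Sd hSd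
  have hWY' := hWY Sd
  rw [← hWd] at ha hc S hBP hBB hsdW hWY' ⊢
  have hsm : ∀ q : ℕ, q.Prime → q ∣ α * γ → q ∣ W := fun q hq hqd =>
    hsdW q hq ((Nat.le_of_dvd (Nat.mul_pos hα hγ) hqd).trans (by omega))
  have hφM : Nat.totient (W * γ) = γ * Nat.totient W :=
    tot_mul hW0 hγ fun q hq h1 => hsm q hq (h1.mul_left α)
  have hMle : ((W * γ : ℕ) : ℝ) ≤ (X : ℝ) ^ (1 / 50000 : ℝ) * γ := by
    push_cast
    gcongr
  have hφE : ((W * γ).totient : ℝ) ≤ X / Real.log X ^ U := by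
    have h1 : ((W * γ).totient : ℝ) ≤ ((W * γ : ℕ) : ℝ) := by exact_mod_cast Nat.totient_le _
    refine h1.trans (hMle.trans ?_)
    calc (X : ℝ) ^ (1 / 50000 : ℝ) * γ ≤ (X / Real.log X ^ (U + 1)) * Real.log X :=
          mul_le_mul q10 u3 (by positivity) (by positivity)
      _ = X / Real.log X ^ U := by
          rw [pow_succ]
          field_simp
  have hYX : (Y : ℝ) ≤ X := by
    have h1 : w ≤ X := by
      calc w ≤ (X : ℝ) ^ (1 : ℝ) := by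
            apply Real.rpow_le_rpow_of_exponent_le (by linarith)
            rw [div_le_one ht0]
            exact_mod_cast ht1
        _ = X := Real.rpow_one _
    linarith
  have hVX := VV_ge D.adm (hV Y (by omega)) hcV hYX (by omega)
  obtain ⟨p1, p2⟩ := hN5 N hNN5 X hNX hXN A B hNA hAB hBX hθX
  rw [← hδ'd] at p1 p2
  have hMphi : ((W * γ : ℕ) : ℝ) ≤ Real.log X * ((W * γ).totient : ℝ) := by
    rw [hφM]
    push_cast
    nlinarith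
  have hfin := step hBLK hBWL hPRW hPOS hCLL hTY hWP hST S hN4000 hN hh hNA hAB hαB hθ hθX hθX4 hδ0 hδ4 hδd
    hJ1 hlam hJ2 hCJ0 hb1 ht0 rfl hA0
    (hN0 N hNN0).2 (hN3 N hNN3) hNm (tz1 htz hδ'0 hAp hABδ hBX hlX) rfl hBP hBB hφE (hN4 N hNN4) p1 p2
    (by omega) (by omega) hZz (fun q hq h1 => (hsdW q hq h1).mul_right γ) hps hC1 hc1 y2
    (hVb Y (by omega)).2 (hVb N (by omega)).1 rfl rfl hcV hVX
    hMphi (hMle.trans u4) q1 u3 rfl s3 s4 s8 s9 q8 q9 hCf hZf hZc (hXf X hXXf)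
  have hVD : VD Om (W * γ * ps) Y = VD Om (W * ps) Y := by
    unfold VD
    apply Finset.prod_congr _ fun _ _ => rfl
    apply Finset.filter_congr
    intro q hq
    have hqp := Pr_prime hq
    apply not_congr
    rw [hqp.dvd_mul, hqp.dvd_mul, hqp.dvd_mul]
    constructor
    · rintro ((h1 | h1) | h1)
      · exact Or.inl h1
      · exact Or.inl (hsm q hqp (h1.mul_left α))
      · exact Or.inr h1
    · rintro (h1 | h1)
      · exact Or.inl (Or.inl h1)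
      · exact Or.inr h1
  rw [hVD] at hfin
  refine le_trans (le_of_eq ?_) hfin
  push_cast
  exact fin_eq hγ0 hWr _ _ _

theorem topl : St_TOPL := topl_of tz0 (ms tz0) fb Pool.Agent.Y261.CH.core
  (Pool.Agent.Y48.CH.mass Pool.Agent.Y484.CH.num) Pool.Agent.Y484.CH.num Pool.Agent.Y73.CH.wt

end Pool.Agent.Q117.LF
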