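import Pool.Agent.Q117.LF.Stm

/-!
# Project LF, job TYPL (helper299): the primes of the critical type are in the blocks

Adapted from `Pool/Agent/Q117/CR/Typ.lean`.
-/

set_option autoImplicit false

namespace Pool.Agent.Q117.LF

open Finset Filter Pool.Agent.W23.DC Pool.Agent.Y660.RP
open Pool.Agent.Y843.HS (Pr Pr_mem Pr_prime)
open Pool.Agent.Y843.QD (vZ dvd_vZ)
open Pool.Agent.Y843.HG (Adm Z0 SP V1)
open Pool.Agent.Y843.CH hiding TB
open Pool.Agent.Y840.CI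
open Pool.Agent.Q117.CR

/-- the values at the primes of the class -/
theorem StL.val {r N X z Y M M2 ps a α γ : ℕ} {ε : ℝ} {h : ℤ} {Om : ℕ → Finset ℕ}
    (S : StL r N X z Y M M2 ps a α γ ε h Om) {p : ℕ} (hpa : p ≡ a [MOD M]) :
    ∃ k : ℤ, (α : ℤ) * p - h = γ * (((α : ℤ) * a - h) / γ + M2 * k) := by
  have h1 : (M : ℤ) ∣ (p : ℤ) - a := (Int.natCast_modEq_iff.2 hpa).symm.dvd
  obtain ⟨k, hk⟩ := h1
  have h2 : (M : ℤ) * α = M2 * γ := by exact_mod_cast S.rel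
  have h3 : (γ : ℤ) ∣ (α : ℤ) * a - h := (dvd_sub_comm).1 S.hd
  obtain ⟨w, hw⟩ := h3
  have hγ : (γ : ℤ) ≠ 0 := by have := S.γ0; omega
  refine ⟨k, ?_⟩
  have h4 : ((α : ℤ) * a - h) / γ = w := by
    rw [hw, Int.mul_ediv_cancel_left _ hγ]
  rw [h4]
  linear_combination hw + α * hk + k * h2

theorem iv_mul {α q : ℕ} (hq : q.Prime) (h : ¬ q ∣ α) : (α : ℤ) * iv α q ≡ 1 [ZMOD q] := by
  have h1 : Nat.gcd α q = 1 := by
    rw [Nat.gcd_comm]
    exact (Nat.Prime.coprime_iff_not_dvd hq).2 h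
  have h2 := Nat.gcd_eq_gcd_ab α q
  rw [h1] at h2
  unfold iv
  refine (Int.modEq_iff_dvd).2 ⟨Nat.gcdB α q, ?_⟩
  push_cast at h2
  linarith

theorem StL.sgn {r N X z Y M M2 ps a α γ : ℕ} {ε : ℝ} {h : ℤ} {Om : ℕ → Finset ℕ}
    (S : StL r N X z Y M M2 ps a α γ ε h Om) {p : ℕ} (hpa : p ≡ a [MOD M]) {A B : ℕ}
    (hpA : A < p) (hpB : p ≤ B) (hn0 : 0 < nn α γ h p) :
    ∃ s : ℤ, (s = 1 ∨ s = -1) ∧ (α : ℤ) * p = h + s * (γ * (nn α γ h p : ℤ)) ∧
      aL α γ A B h s < nn α γ h p ∧ (nn α γ h p : ℝ) ≤ bL α γ A B h s := by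
  obtain ⟨k, hk⟩ := S.val hpa
  have hγ0 := S.γ0
  have hα0 := S.α0
  have hdv : (γ : ℤ) ∣ h - (α : ℤ) * p := (dvd_sub_comm).1 ⟨_, hk⟩
  have hdn : γ ∣ (h - (α : ℤ) * p).natAbs := Int.natCast_dvd.1 hdv
  have hn : (γ : ℤ) * (nn α γ h p : ℤ) = |h - (α : ℤ) * p| := by
    unfold nn
    rw [Int.abs_eq_natAbs]
    exact_mod_cast Nat.mul_div_cancel' hdn
  obtain ⟨n, hnd⟩ : ∃ n : ℕ, n = nn α γ h p := ⟨_, rfl⟩
  rw [← hnd] at hn0 hn ⊢
  have hγr : (0 : ℝ) < γ := by exact_mod_cast hγ0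
  have hαr : (1 : ℝ) ≤ α := by exact_mod_cast hα0
  have hpAr : (A : ℝ) < p := by exact_mod_cast hpA
  have hpBr : (p : ℝ) ≤ B := by exact_mod_cast hpB
  have hn0r : (0 : ℝ) < n := by exact_mod_cast hn0
  have e1 : (α : ℝ) * A < α * p := by
    apply mul_lt_mul_of_pos_left hpAr (by linarith)
  have e2 : (α : ℝ) * p ≤ α * B := by
    apply mul_le_mul_of_nonneg_left hpBr (by linarith)
  rcases lt_or_ge ((α : ℤ) * p) h with hlt | hge
  · have h1 : (γ : ℤ) * n = h - (α : ℤ) * p := by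
      rw [hn, abs_of_pos (by omega)]
    have h1r : (γ : ℝ) * n = h - (α : ℝ) * p := by exact_mod_cast h1
    refine ⟨-1, Or.inr rfl, by linarith, ?_, ?_⟩
    · unfold aL
      rw [if_neg (by norm_num)]
      apply max_lt
      · have : ((h : ℝ) - α * B) / γ ≤ n := by
          rw [div_le_iff₀ hγr]
          linarith
        linarith
      · exact hn0r
    · unfold bL
      rw [if_neg (by norm_num)]
      refine le_max_of_le_left ?_
      rw [le_div_iff₀ hγr]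
      linarith
  · have h1 : (γ : ℤ) * n = (α : ℤ) * p - h := by
      rw [hn, abs_of_nonpos (by omega)]
      ring
    have h1r : (γ : ℝ) * n = (α : ℝ) * p - h := by exact_mod_cast h1
    refine ⟨1, Or.inl rfl, by linarith, ?_, ?_⟩
    · unfold aL
      rw [if_pos rfl]
      apply max_lt
      · rw [div_lt_iff₀ hγr]
        linarith
      · exact hn0r
    · unfold bL
      rw [if_pos rfl]
      refine le_max_of_le_left ?_
      rw [le_div_iff₀ hγr]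
      linarith

theorem typ_memL {r N X z Y M M2 ps a α γ A B J : ℕ} {ε δ : ℝ} {h : ℤ} {Om : ℕ → Finset ℕ}
    (S : StL r N X z Y M M2 ps a α γ ε h Om)
    (hA : N ≤ A) (hJ : 1 ≤ J) (hδ : 0 ≤ δ) {p : ℕ} (hp : p ∈ TWL α γ A B N z Y M ps a h Om) :
    ∃ s : ℤ, (s = 1 ∨ s = -1) ∧ ∃ j < J, ∃ x ∈ FTL α γ A B N X J z Y M M2 ps a ε δ h Om s j,
      (α : ℤ) * p = h + s * (γ * ((x.1 * x.2 : ℕ) : ℤ)) := by
  classical
  unfold TWL at hp
  rw [mem_filter] at hp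
  obtain ⟨hpN, hpa, hpq, p₁, p₂, p₃, h1, h2, h3, h4, h5, h6⟩ := hp
  obtain ⟨⟨hpA, hpB⟩, hpp⟩ := mem_PNX.1 hpN
  have hN : 2 ≤ N := le_trans (by norm_num) S.N8
  have hNr : (1 : ℝ) < N := by exact_mod_cast (by omega : 1 < N)
  have hN0 : (0 : ℝ) < N := by linarith
  have h1p := (mem_pr.1 h1).2.1
  have hγ0 := S.γ0
  have hn0 : 0 < nn α γ h p := by
    rw [h6]
    exact Nat.mul_pos h1p.pos (Nat.mul_pos h2.pos h3.pos)
  obtain ⟨s, hs, hps, hsa, hsb⟩ := S.sgn hpa hpA hpB hn0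
  obtain ⟨k, hk⟩ := S.val hpa
  obtain ⟨n, hnd⟩ : ∃ n : ℕ, n = nn α γ h p := ⟨_, rfl⟩
  rw [← hnd] at hn0 hps hsa hsb h6
  have hn : n = p₁ * (p₂ * p₃) := h6
  obtain ⟨j, hj, hj1, hj2⟩ := exists_block hJ (mem_pr.1 h1).2.2.1 (mem_pr.1 h1).2.2.2
  refine ⟨s, hs, j, hj, (p₁, p₂ * p₃), ?_, by rw [← hn]; exact hps⟩
  have hu1 : uj J (j + 1) ≤ 1 := by
    have := uj_mono (J := J) (show j + 1 ≤ J by omega)
    rw [uj_last hJ] at this
    linarith
  have g1 := (le_tt_iff hN h1p _).1 hj1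
  have g2 := (tt_lt_iff hN h1p _).1 hj2
  have hpj : 0 < (N : ℝ) ^ uj J j := Real.rpow_pos_of_pos hN0 _
  have hpj1 : 0 < (N : ℝ) ^ uj J (j + 1) := Real.rpow_pos_of_pos hN0 _
  have h23 : (0 : ℝ) < (p₂ : ℝ) * p₃ := by
    have e1 : (0 : ℝ) < p₂ := by exact_mod_cast h2.pos
    have e2 : (0 : ℝ) < p₃ := by exact_mod_cast h3.pos
    positivity
  have hnr : (n : ℝ) = (p₁ : ℝ) * ((p₂ : ℝ) * p₃) := by rw [hn]; push_cast; ring
  have hlow : aL α γ A B h s / (N : ℝ) ^ uj J (j + 1) < (p₂ : ℝ) * p₃ := by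
    rw [div_lt_iff₀ hpj1]
    calc aL α γ A B h s < n := hsa
      _ = (p₁ : ℝ) * ((p₂ : ℝ) * p₃) := hnr
      _ ≤ (N : ℝ) ^ uj J (j + 1) * ((p₂ : ℝ) * p₃) := by gcongr
      _ = _ := by ring
  have hupp : (p₂ : ℝ) * p₃ ≤ (bL α γ A B h s + δ * X) / (N : ℝ) ^ uj J j := by
    rw [le_div_iff₀ hpj]
    calc (p₂ : ℝ) * p₃ * (N : ℝ) ^ uj J j ≤ (p₂ : ℝ) * p₃ * p₁ := by gcongr
      _ = n := by rw [hnr]; ring
      _ ≤ bL α γ A B h s + δ * X := by
          have : 0 ≤ δ * X := by positivity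
          linarith
  have hmul : (p₁ * (p₂ * p₃) : ℕ) = n := hn.symm
  have hfl : ∀ k : ℕ, k ≤ p₂ * p₃ → k ≤ ⌊(bL α γ A B h s + δ * X) / (N : ℝ) ^ uj J j⌋₊ := by
    intro k hk
    apply Nat.le_floor
    refine le_trans ?_ hupp
    exact_mod_cast hk
  unfold FTL
  rw [mem_filter, mem_filter]
  refine ⟨⟨?_, ?_⟩, ?_, ?_⟩
  · show (p₁, p₂ * p₃) ∈ MN (lo N (uj J j)) (lo N (uj J (j + 1)))
      (NN N (aL α γ A B h s / (N : ℝ) ^ uj J (j + 1)) ((bL α γ A B h s + δ * X) / (N : ℝ) ^ uj J j))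
    unfold MN
    rw [mem_product, block_eq hN hu1]
    refine ⟨mem_pr.2 ⟨(mem_pr.1 h1).1, h1p, hj1, hj2⟩, ?_⟩
    unfold NN PP
    rw [mem_image]
    refine ⟨(p₂, p₃), ?_, rfl⟩
    rw [mem_filter, mem_product, mem_Icc, mem_Icc]
    exact ⟨⟨⟨h2.pos, hfl _ (Nat.le_mul_of_pos_right _ h3.pos)⟩,
      h3.pos, hfl _ (Nat.le_mul_of_pos_left _ h2.pos)⟩, h2, h3, h4, h5, hlow, hupp⟩
  · simp only
    rw [hmul]
    have e1 : s * s = 1 := by
      rcases hs with rfl | rfl <;> norm_num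
    have hγz : (γ : ℤ) ≠ 0 := by omega
    have e5 : (n : ℤ) = s * (((α : ℤ) * a - h) / γ) + M2 * (s * k) := by
      apply mul_left_cancel₀ hγz
      have e7 : (γ : ℤ) * n = s * ((α : ℤ) * p - h) := by
        rw [hps]
        calc (γ : ℤ) * n = 1 * (γ * n) := by ring
          _ = s * s * (γ * n) := by rw [e1]
          _ = _ := by ring
      rw [e7, hk]
      ring
    have e2 : ((n : ℕ) : ℤ) ≡ s * (((α : ℤ) * a - h) / γ) [ZMOD M2] := by
      rw [e5]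
      exact (Int.modEq_iff_dvd.2 ⟨-(s * k), by ring⟩)
    have e6 : hr (n : ℤ) M2 = hr (s * (((α : ℤ) * a - h) / γ)) M2 := (hr_eq_iff _ _ S.M20).2 e2
    rw [hr_nat n S.M20] at e6
    unfold Nat.ModEq
    rw [← e6, Nat.mod_mod]
  all_goals
    intro q hq hdv
    simp only at hdv
    rw [hmul] at hdv
    have hqp : q.Prime := by
      first
      | exact (mem_P1.1 hq).2.1
      | exact (mem_pr.1 hq).2.1
    obtain ⟨hqz, hqm⟩ := (dvd_vZ hqp).1 hdv
    unfold ZTL at hqm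
    by_cases hD : q ∣ M * ps
    · rw [if_pos hD] at hqm
      simp at hqm
    rw [if_neg hD] at hqm
    have hqM : ¬ q ∣ M := fun hc => hD (hc.mul_right ps)
    have hqα : ¬ q ∣ α := fun hc => hqM (S.g q hqp (hc.mul_right γ))
    have hval : hr ((h + s * ((γ : ℤ) * ((n % q : ℕ) : ℤ))) * iv α q) q = p % q := by
      rw [← hr_nat p hqp.pos, hr_eq_iff _ _ hqp.pos]
      have f1 : ((n % q : ℕ) : ℤ) ≡ (n : ℤ) [ZMOD q] := by
        push_cast
        exact Int.mod_modEq _ _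
      have f2 : h + s * ((γ : ℤ) * ((n % q : ℕ) : ℤ)) ≡ h + s * (γ * n) [ZMOD q] :=
        ((f1.mul_left γ).mul_left s).add_left h
      rw [← hps] at f2
      have f3 := (f2.mul_right (iv α q))
      refine f3.trans ?_
      have f4 := (iv_mul hqp hqα).mul_right (p : ℤ)
      calc (α : ℤ) * p * iv α q = α * iv α q * p := by ring
        _ ≡ 1 * p [ZMOD q] := f4
        _ = p := one_mul _
    rw [mem_filter, hval] at hqm
    have hqm2 := hqm.2
    unfold ZTp at hqm2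
    split_ifs at hqm2 with hY
    · exact hpq q (Pr_mem.2 ⟨⟨(Pr_mem.1 hqz).1.1, hY⟩, hqp⟩) hD hqm2
    · rw [mem_singleton] at hqm2
      have h7 := (Nat.prime_dvd_prime_iff_eq hqp hpp).1 (Nat.dvd_of_mod_eq_zero hqm2)
      have h8 := (Pr_mem.1 hqz).1.2
      omega

/-- JOB TYPL -/
theorem typl : St_TYPL := by
  intro r N X z Y M M2 ps a α γ A B J ε δ h Om S hA hJ hδ
  classical
  set f : ℤ → ℕ × ℕ → ℕ := fun s x => ((h + s * (γ * ((x.1 * x.2 : ℕ) : ℤ))) / α).toNat with hf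
  have hsub : TWL α γ A B N z Y M ps a h Om ⊆
      ((range J).biUnion (fun j => (FTL α γ A B N X J z Y M M2 ps a ε δ h Om 1 j).image (f 1))) ∪
      ((range J).biUnion (fun j => (FTL α γ A B N X J z Y M M2 ps a ε δ h Om (-1) j).image (f (-1)))) := by
    intro p hp
    obtain ⟨s, hs, j, hj, x, hx, hpx⟩ := typ_memL S hA hJ hδ hp
    have hfp : f s x = p := by
      rw [hf]
      simp only
      rw [← hpx, Int.mul_ediv_cancel_left _ (by have := S.α0; omega)]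
      exact Int.toNat_natCast p
    rw [mem_union]
    rcases hs with rfl | rfl
    · left
      rw [mem_biUnion]
      exact ⟨j, mem_range.2 hj, mem_image.2 ⟨x, hx, hfp⟩⟩
    · right
      rw [mem_biUnion]
      exact ⟨j, mem_range.2 hj, mem_image.2 ⟨x, hx, hfp⟩⟩
  refine (card_le_card hsub).trans ((card_union_le _ _).trans ?_)
  exact add_le_add (card_biUnion_le.trans (sum_le_sum fun j _ => card_image_le))
    (card_biUnion_le.trans (sum_le_sum fun j _ => card_image_le))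

end Pool.Agent.Q117.LF
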