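import Pool.Agent.Q117.LF.Stm
import Pool.Agent.Q117.CR.Wp

/-!
# LF, job WPG: the remainders of the sieve (adapted from `Pool/Agent/Q117/CR/Wp.lean` by helper285)
-/

set_option autoImplicit false

namespace Pool.Agent.Q117.LF

open Finset Filter Pool.Agent.W23.DC Pool.Agent.Y660.RP
open Pool.Agent.Y843.HS (Pr Pr_mem Pr_prime)
open Pool.Agent.Y843.QD (vZ dvd_vZ)
open Pool.Agent.Y843.HG (Adm Z0)
open Pool.Agent.Y843.CH
open Pool.Agent.H378R2 (yy)
open Pool.Agent.H378R2.LSBV (QQ mem_QQ)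
open Pool.Agent.Q117.CR

open Classical in
/-- the remainders of the sieve for the primes -/
theorem aerM {κ z N X A B ps a M : ℕ} {δ E : ℝ} {cl : ℕ → Finset ℕ}
    (h : TZ1 δ X A B) (hB : B ≤ X) (hL : 1 ≤ Real.log X) (hN : 1 ≤ N) (hNX : N ^ 2 ≤ X)
    (hM : 0 < M) (hcl : ClD κ z N (M * ps) cl) (ha : a.Coprime M)
    (hBP : BPM κ δ X A B M ps E) (hE : (Nat.totient M : ℝ) ≤ E) :
    ∑ d ∈ Lv' z ((N : ℝ) ^ (999 / 1000 : ℝ)), Rr ((OW (X ^ (κ + 3)) δ X A B).filter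
        (fun x => x.1 ≡ a [MOD M])) (fun x => vZ cl z N x.1) (gC cl)
        ((((X ^ (κ + 3) : ℕ) : ℝ) * (PT1 δ A B / Real.log X)) / (Nat.totient M : ℝ)) d ≤
      ((X ^ (κ + 3) : ℕ) : ℝ) * (3 * (E / (Nat.totient M : ℝ))) := by
  obtain ⟨W, hW⟩ : ∃ W, W = M := ⟨_, rfl⟩
  rw [← hW] at hcl ha hBP hE hM ⊢
  set K := X ^ (κ + 3) with hK
  have hW0 : 0 < W := hM
  have hX1 : 1 ≤ X := by
    by_contra hcon
    have : X = 0 := by omega
    rw [this] at hL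
    simp at hL
    linarith
  have hXr : (1 : ℝ) ≤ X := by exact_mod_cast hX1
  obtain ⟨r, hr⟩ := exists_rmax (fun m c => |PT δ A B m c - PT1 δ A B / (Nat.totient m : ℝ)|)
  have h1 := rr_sumW (OW K δ X A B) (fun x => x.1) κ z N W ps a cl hcl hW0 ha
    (K * (PT1 δ A B / Real.log X))
    (fun d => K * |PT δ A B (W * d) (r (W * d)) - PT1 δ A B / (Nat.totient (W * d) : ℝ)| + (X + 1))
    (fun d => by positivity) ((N : ℝ) ^ (999 / 1000 : ℝ)) (by positivity) (level_le' hN) (RX X) (by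
      unfold RX
      exact Nat.floor_le_floor (level_le hNX)) (by
      intro d hd c hc hcd
      have hd1 := (mem_QQ.1 hd).1.1
      have hWd : 0 < W * d := Nat.mul_pos hW0 (by omega)
      refine (count_OW h hB hL hWd).trans ?_
      have := (hr (W * d) hWd).2 c hc hcd
      gcongr)
  refine h1.trans ?_
  have e1 : ∑ d ∈ QQ W ps (RX X), (κ : ℝ) ^ d.primeFactors.card *
      (K * |PT δ A B (W * d) (r (W * d)) - PT1 δ A B / (Nat.totient (W * d) : ℝ)| + (X + 1)) =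
      K * ∑ d ∈ QQ W ps (RX X), (κ : ℝ) ^ d.primeFactors.card *
        |PT δ A B (W * d) (r (W * d)) - PT1 δ A B / (Nat.totient (W * d) : ℝ)| +
      (X + 1) * ∑ d ∈ QQ W ps (RX X), (κ : ℝ) ^ d.primeFactors.card := by
    rw [mul_sum, mul_sum, ← sum_add_distrib]
    apply sum_congr rfl
    intro d _
    ring
  rw [e1]
  have h2 := hBP (fun q => r (W * q)) (fun q hq => (hr (W * q) (Nat.mul_pos hW0 hq)).1)
  have hRX : RX X ≤ X := by
    unfold RX
    apply Nat.floor_le_of_le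
    calc (X : ℝ) ^ (4995 / 10000 : ℝ) ≤ (X : ℝ) ^ (1 : ℝ) :=
          Real.rpow_le_rpow_of_exponent_le hXr (by norm_num)
      _ = X := Real.rpow_one _
  have h3 : ∑ d ∈ QQ W ps (RX X), (κ : ℝ) ^ d.primeFactors.card ≤ (X : ℝ) ^ (κ + 1) := by
    have h4 : ∀ d ∈ QQ W ps (RX X), (κ : ℝ) ^ d.primeFactors.card ≤ (X : ℝ) ^ κ := by
      intro d hd
      obtain ⟨⟨g1, g2⟩, -⟩ := mem_QQ.1 hd
      refine (pow_omega_le_pow κ d g1).trans ?_
      apply pow_le_pow_left₀ (Nat.cast_nonneg _)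
      exact_mod_cast g2.trans hRX
    refine (sum_le_sum h4).trans ?_
    rw [sum_const, nsmul_eq_mul, pow_succ, mul_comm]
    apply mul_le_mul_of_nonneg_left _ (by positivity)
    have h5 : (QQ W ps (RX X)).card ≤ X := by
      unfold QQ
      refine (card_filter_le _ _).trans ?_
      rw [Nat.card_Icc]
      omega
    exact_mod_cast h5
  have hφ : (0 : ℝ) < Nat.totient W := by exact_mod_cast Nat.totient_pos.2 hW0
  have h6 : 1 ≤ E / (Nat.totient W : ℝ) := by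
    rw [le_div_iff₀ hφ]
    linarith
  have hKr : ((K : ℕ) : ℝ) = (X : ℝ) ^ (κ + 3) := by
    rw [hK]
    push_cast
    rfl
  have h7 : ((X : ℝ) + 1) * ∑ d ∈ QQ W ps (RX X), (κ : ℝ) ^ d.primeFactors.card ≤ 2 * K := by
    calc ((X : ℝ) + 1) * ∑ d ∈ QQ W ps (RX X), (κ : ℝ) ^ d.primeFactors.card ≤ (2 * X) * (X : ℝ) ^ (κ + 1) := by
          gcongr
          linarith
      _ = 2 * (X : ℝ) ^ (κ + 2) := by ring
      _ ≤ 2 * (X : ℝ) ^ (κ + 3) := by
          apply mul_le_mul_of_nonneg_left _ (by norm_num)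
          exact pow_le_pow_right₀ hXr (by omega)
      _ = _ := by rw [hKr]
  have hK0 : (0 : ℝ) ≤ K := Nat.cast_nonneg _
  calc (K : ℝ) * ∑ d ∈ QQ W ps (RX X), (κ : ℝ) ^ d.primeFactors.card *
        |PT δ A B (W * d) (r (W * d)) - PT1 δ A B / (Nat.totient (W * d) : ℝ)| +
      (X + 1) * ∑ d ∈ QQ W ps (RX X), (κ : ℝ) ^ d.primeFactors.card ≤
        K * (E / (Nat.totient W : ℝ)) + 2 * K := by
        have := mul_le_mul_of_nonneg_left h2 hK0
        linarith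
    _ ≤ K * (3 * (E / (Nat.totient W : ℝ))) := by nlinarith

open Classical in
/-- the remainders of the sieve for the products -/
theorem terM {κ z N X ps a M : ℕ} {E : ℝ} {cl : ℕ → Finset ℕ} {b : Blk}
    (hN : 1 ≤ N) (hNX : N ^ 2 ≤ X)
    (hM : 0 < M) (hcl : ClD κ z N (M * ps) cl) (ha : a.Coprime M)
    (hBB : BBM κ X b M ps E) :
    ∑ d ∈ Lv' z ((N : ℝ) ^ (999 / 1000 : ℝ)), Rr ((MN b.M₀ b.M₁ b.T).filter
        (fun x => x.1 * x.2 ≡ a [MOD M])) (fun x => vZ cl z N (x.1 * x.2)) (gC cl)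
        ((((Ioc b.M₀ b.M₁).filter Nat.Prime).card * b.T.card : ℝ) / (Nat.totient M : ℝ)) d ≤
      E / (Nat.totient M : ℝ) := by
  obtain ⟨W, hW⟩ : ∃ W, W = M := ⟨_, rfl⟩
  rw [← hW] at hcl ha hBB hM ⊢
  have hW0 : 0 < W := hM
  obtain ⟨r, hr⟩ := exists_rmax (fun m c =>
    |(((((Ioc b.M₀ b.M₁).filter Nat.Prime) ×ˢ b.T).filter (fun x => x.1 * x.2 ≡ c [MOD m])).card : ℝ) -
        ((((Ioc b.M₀ b.M₁).filter Nat.Prime).card : ℝ) * b.T.card) / (Nat.totient m : ℝ)|)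
  have h1 := rr_sumW (MN b.M₀ b.M₁ b.T) (fun x => x.1 * x.2) κ z N W ps a cl hcl hW0 ha
    (((Ioc b.M₀ b.M₁).filter Nat.Prime).card * b.T.card : ℝ)
    (fun d => Pool.Agent.Y261.CH.EP b.M₀ b.M₁ b.T (r (W * d)) (W * d))
    (fun d => by unfold Pool.Agent.Y261.CH.EP; exact abs_nonneg _)
    ((N : ℝ) ^ (999 / 1000 : ℝ)) (by positivity) (level_le' hN) (RX X) (by
      unfold RX
      exact Nat.floor_le_floor (level_le hNX)) (by
      intro d hd c hc hcd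
      have hd1 := (mem_QQ.1 hd).1.1
      have hWd : 0 < W * d := Nat.mul_pos hW0 (by omega)
      have := (hr (W * d) hWd).2 c hc hcd
      rw [EP_eq]
      exact this)
  refine h1.trans ?_
  exact hBB (fun q => r (W * q)) (fun q hq => (hr (W * q) (Nat.mul_pos hW0 hq)).1)

theorem wpg : St_WPG :=
  ⟨fun _ _ _ _ _ _ _ _ _ _ _ _ h1 h2 h3 h4 h5 h6 h7 h8 h9 h10 => aerM h1 h2 h3 h4 h5 h6 h7 h8 h9 h10,
    fun _ _ _ _ _ _ _ _ _ _ h1 h2 h3 h4 h5 h6 => terM h1 h2 h3 h4 h5 h6⟩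

end Pool.Agent.Q117.LF
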