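import Pool.Agent.Q117.LF.Psg
import Pool.Agent.Q117.LF.Bvpg
import Pool.Agent.Q117.LF.Bvbg
import Pool.Agent.Q117.LF.Scpg
import Pool.Agent.Q117.LF.Bscg
import Pool.Agent.Q117.LF.Lsg
import Pool.Agent.Q117.LF.Bvrg
import Pool.Agent.Q117.LF.Posl
import Pool.Agent.Q117.LF.Cll
import Pool.Agent.Q117.LF.Typl
import Pool.Agent.Q117.LF.Blkl
import Pool.Agent.Q117.LF.Bwl
import Pool.Agent.Q117.LF.Prwl
import Pool.Agent.Q117.LF.Wpg
import Pool.Agent.Q117.LF.Stepl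
import Pool.Agent.Q117.LF.Topl
import Pool.Agent.Q117.LF.Rsa
import Pool.Agent.Q117.LF.Cova
import Pool.Agent.Q117.LF.Lpat

/-! Project LF (helper117): the theorems. -/

set_option autoImplicit false

namespace Pool.Agent.Q117.LF

open Finset Filter
open Pool.Agent.Q117.GP (Rk)

/-- Chen's theorem for linear forms relative to a smooth modulus -/
theorem chenL (r α γ : ℕ) (hα : 1 ≤ α) (hγ : 1 ≤ γ) :
    ∃ t : ℕ, 1 ≤ t ∧ ∃ c : ℝ, 0 < c ∧ CWL r t α γ c :=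
  topl (bvrg psg bvpg bvbg scpg bscg lsg) blkl bwl prwl posl cll typl wpg stepl r α γ hα hγ

/-- Chen's theorem in systems of linear forms, all the values isolated at Rankin's scale -/
theorem lin (k : ℕ) (al : Fin k → ℕ) (hal : ∀ l, 1 ≤ al l) (i j : Fin k) (hij : i ≠ j) :
    ∃ t : ℕ, 1 ≤ t ∧ ∃ c : ℝ, 0 < c ∧ ∃ X0 : ℝ, ∀ X : ℝ, X0 ≤ X → ∀ be : Fin k → ℤ,
      (∀ l, |(be l : ℝ)| ≤ c * Rk X) →
      (∀ l m, l ≠ m → (al l : ℤ) * be m ≠ al m * be l) → AdmS al be →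
      X ^ (99 / 100 : ℝ) ≤ ((PtsL t X (c * Rk X) al be i j).card : ℝ) :=
  lpat (cova rsa) chenL k al hal i j hij

end Pool.Agent.Q117.LF
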