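import Pool.Agent.Q117.LF.Famw

/-!
# The multiplier direction: exactly the prescribed multipliers

Project LF, job MUL.
-/

set_option autoImplicit false

namespace Pool.Agent.Q117.LF

open Finset Filter
open Pool.Agent.H378R2 (yy z2 GoodS GoodP WW)
open Pool.Agent.Q117.CR
open Pool.Agent.Q117.GP (Rk)

/-- the slope of the form with code `m` -/
def slo (m : ℕ) : ℕ := if m = 0 then 1 else m

/-- the intercept of the form with code `m` -/
def ico (e : ℤ) (m : ℕ) : ℤ := if m = 0 then 0 else e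

lemma vc_eq (e : ℤ) (m n : ℕ) : vc e m n = (slo m : ℤ) * n + ico e m := by
  unfold vc slo ico
  split_ifs with h
  · simp
  · rfl

lemma slo_pos (m : ℕ) : 1 ≤ slo m := by
  unfold slo
  split_ifs with h <;> omega

/-- a free class for the primes larger than the set -/
lemma admA_fact (k : ℕ) (H : Finset ℕ) (hH : H.card ≤ k) : AdmA (Nat.factorial k) H := by
  classical
  intro p hp hpk
  have := Fact.mk hp
  have hkp : k < p := by
    by_contra h
    exact hpk ((hp.dvd_factorial).2 (not_lt.1 h))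
  have h1 : (H.image (fun h : ℕ => -(h : ZMod p))).card < Fintype.card (ZMod p) := by
    rw [ZMod.card]
    exact lt_of_le_of_lt (card_image_le.trans hH) hkp
  obtain ⟨r, hr⟩ : ∃ r : ZMod p, r ∉ H.image (fun h : ℕ => -(h : ZMod p)) := by
    by_contra hcon
    push Not at hcon
    have h2 : H.image (fun h : ℕ => -(h : ZMod p)) = univ := eq_univ_iff_forall.2 hcon
    rw [h2, card_univ] at h1
    exact lt_irrefl _ h1
  refine ⟨r.val, ?_⟩
  intro h hh hd
  apply hr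
  rw [mem_image]
  refine ⟨h, hh, ?_⟩
  have h2 : ((r.val + h : ℕ) : ZMod p) = 0 := (ZMod.natCast_eq_zero_iff _ _).2 hd
  rw [Nat.cast_add, ZMod.natCast_zmod_val] at h2
  exact (eq_neg_of_add_eq_zero_left h2).symm

/-- the choice of the class -/
theorem choose_nM (e : ℤ) (he : e = 1 ∨ e = -1) (M : Finset ℕ)
    (hadm : ∀ p : ℕ, p.Prime → ∃ n : ℕ, ∀ m ∈ M, ¬ (p : ℤ) ∣ vc e m n)
    (A0 W a0 : ℕ) (hW : 0 < W) (D cR : ℝ) (hDc : D ≤ cR) (hc0 : 0 ≤ cR) (hMD : ∀ m ∈ M, (m : ℝ) ≤ D)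
    (hcov : ∀ s : ℕ, (s : ℝ) ≤ cR → ((∀ p : ℕ, p.Prime → ¬ p ∣ A0 → p ∣ W → ¬ p ∣ a0 + s) ↔ s ∈ insert 0 M)) :
    ∃ n : ℕ, (∀ p : ℕ, p.Prime → p ∣ W → ∀ m ∈ M, ¬ (p : ℤ) ∣ vc e m n) ∧
      ∀ m : ℕ, 1 ≤ m → (m : ℝ) ≤ D → m ∉ M → ∃ p : ℕ, p.Prime ∧ p ∣ W ∧ (p : ℤ) ∣ vc e m n := by
  classical
  have ha0 : ∀ p : ℕ, p.Prime → ¬ p ∣ A0 → p ∣ W → ¬ p ∣ a0 := by
    intro p hp hpA hpW
    have h1 := (hcov 0 (by simpa using hc0)).2 (mem_insert_self _ _) p hp hpA hpW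
    rwa [add_zero] at h1
  have hex : ∀ p : ℕ, ∃ c : ℕ, p.Prime → p ∣ W → (p ∣ A0 → ∀ m ∈ M, ¬ (p : ℤ) ∣ vc e m c) ∧
      (¬ p ∣ A0 → (p : ℤ) ∣ (a0 : ℤ) * c - e) := by
    intro p
    by_cases hp : p.Prime ∧ p ∣ W
    swap
    · exact ⟨0, fun h h' => absurd ⟨h, h'⟩ hp⟩
    obtain ⟨hp, hpW⟩ := hp
    by_cases hd : p ∣ A0
    · obtain ⟨n, hn⟩ := hadm p hp
      exact ⟨n, fun _ _ => ⟨fun _ => hn, fun h => absurd hd h⟩⟩
    · have := Fact.mk hp
      refine ⟨((e : ZMod p) / (a0 : ZMod p)).val, fun _ _ => ⟨fun h => absurd h hd, fun _ => ?_⟩⟩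
      have h1 : ((a0 : ℕ) : ZMod p) ≠ 0 := by
        rw [Ne, ZMod.natCast_eq_zero_iff]
        exact ha0 p hp hd hpW
      rw [← ZMod.intCast_zmod_eq_zero_iff_dvd]
      push_cast
      rw [ZMod.natCast_zmod_val]
      field_simp
      ring
  choose c hc using hex
  obtain ⟨n, hn0⟩ := crt_primes W.primeFactors (fun p hp => Nat.prime_of_mem_primeFactors hp) c
  have hnc : ∀ p : ℕ, p.Prime → p ∣ W → (p : ℤ) ∣ (c p : ℤ) - n := by
    intro p hp hpW
    exact Nat.modEq_iff_dvd.1 (hn0 p (Nat.mem_primeFactors.2 ⟨hp, hpW, hW.ne'⟩))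
  have hne : ∀ p : ℕ, p.Prime → ¬ (p : ℤ) ∣ e := by
    intro p hp hd
    rcases he with rfl | rfl
    · exact hp.one_lt.ne' (by exact_mod_cast Int.natCast_dvd_natCast.1 (by exact_mod_cast hd) |> Nat.dvd_one.1)
    · rw [dvd_neg] at hd
      exact hp.one_lt.ne' (by exact_mod_cast Int.natCast_dvd_natCast.1 (by exact_mod_cast hd) |> Nat.dvd_one.1)
  have hinv : ∀ p : ℕ, p.Prime → p ∣ W → ¬ p ∣ A0 → (p : ℤ) ∣ (a0 : ℤ) * n - e := by
    intro p hp hpW hpA
    have h1 := (hc p hp hpW).2 hpA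
    have h2 : (a0 : ℤ) * n - e = (a0 * c p - e) - a0 * ((c p : ℤ) - n) := by ring
    rw [h2]
    exact dvd_sub h1 ((hnc p hp hpW).mul_left _)
  -- the primes outside of `A0`
  have hkey : ∀ p : ℕ, p.Prime → p ∣ W → ¬ p ∣ A0 → ∀ m : ℕ, ((p : ℤ) ∣ (m : ℤ) * n + e ↔ p ∣ a0 + m) := by
    intro p hp hpW hpA m
    have hpZ := Nat.prime_iff_prime_int.1 hp
    have h1 := hinv p hp hpW hpA
    have h2 : (a0 : ℤ) * (m * n + e) = m * (a0 * n - e) + e * ((a0 + m : ℕ) : ℤ) := by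
      push_cast
      ring
    have h3 : (p : ℤ) ∣ (a0 : ℤ) * (m * n + e) ↔ (p : ℤ) ∣ e * ((a0 + m : ℕ) : ℤ) := by
      rw [h2]
      exact dvd_add_right (h1.mul_left _)
    constructor
    · intro h
      rcases hpZ.dvd_or_dvd (h3.1 (h.mul_left _)) with h4 | h4
      · exact absurd h4 (hne p hp)
      · exact Int.natCast_dvd_natCast.1 h4
    · intro h
      rcases hpZ.dvd_or_dvd (h3.2 ((Int.natCast_dvd_natCast.2 h).mul_left _)) with h4 | h4
      · exact absurd (Int.natCast_dvd_natCast.1 h4) (ha0 p hp hpA hpW)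
      · exact h4
  refine ⟨n, ?_, ?_⟩
  · intro p hp hpW m hm hd
    by_cases hpA : p ∣ A0
    · apply (hc p hp hpW).1 hpA m hm
      rw [vc_eq] at hd ⊢
      have h3 : (slo m : ℤ) * c p + ico e m = (slo m * n + ico e m) + slo m * ((c p : ℤ) - n) := by ring
      rw [h3]
      exact dvd_add hd ((hnc p hp hpW).mul_left _)
    · by_cases hm0 : m = 0
      · unfold vc at hd
        rw [if_pos hm0] at hd
        have h1 := hinv p hp hpW hpA
        have h2 := dvd_sub (hd.mul_left (a0 : ℤ)) h1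
        rw [sub_sub_cancel] at h2
        exact hne p hp h2
      · unfold vc at hd
        rw [if_neg hm0] at hd
        have h1 := (hkey p hp hpW hpA m).1 hd
        exact (hcov m ((hMD m hm).trans hDc)).2 (mem_insert_of_mem hm) p hp hpA hpW h1
  · intro m hm1 hmD hmM
    have h1 : m ∉ insert 0 M := by
      rw [mem_insert, not_or]
      exact ⟨by omega, hmM⟩
    have h2 := mt (hcov m (hmD.trans hDc)).1 h1
    push Not at h2
    obtain ⟨p, hp, hpA, hpW, hpd⟩ := h2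
    refine ⟨p, hp, hpW, ?_⟩
    unfold vc
    rw [if_neg (by omega)]
    exact (hkey p hp hpW hpA m).2 hpd

/-- the multiplier direction -/
theorem mul : St_MUL := by
  classical
  intro hCOVA hLCL e he k K
  choose tL htL cL hcL XL hL using fun (x : ℕ × ℕ × ℕ) =>
    hLCL x.1 (x.2.1 + 1) (x.2.2 + 1) (Nat.succ_pos _) (Nat.succ_pos _)
  obtain ⟨A0, hA0⟩ : ∃ A0, A0 = Nat.factorial (k + 1) := ⟨_, rfl⟩
  have hA01 : 1 ≤ A0 := by rw [hA0]; exact Nat.factorial_pos _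
  choose cC hcC XC hC using fun (N : ℕ) => hCOVA (N + 1) A0 (Nat.succ_pos N) hA01
  choose XS hXS using fun (x : ℕ × ℕ) =>
    Rk_scaleL (2 * ((x.1 + 1) * (x.2 + 1))) (Nat.mul_pos (by norm_num) (Nat.mul_pos (Nat.succ_pos _) (Nat.succ_pos _)))
  obtain ⟨t, ht, htm⟩ := exists_maxN ((range (k + 1)) ×ˢ ((range (K + 1)) ×ˢ (range (K + 1)))) tL
  obtain ⟨c0, hc0, hc0m⟩ := exists_posmin (range (k + 1)) cC (fun x _ => hcC x)
  obtain ⟨XA, hXA⟩ := exists_maxR ((range (k + 1)) ×ˢ ((range (K + 1)) ×ˢ (range (K + 1)))) XL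
  obtain ⟨XB, hXB⟩ := exists_maxR (range (k + 1)) XC
  obtain ⟨XD, hXD⟩ := exists_maxR ((range (K + 1)) ×ˢ (range (K + 1))) XS
  have ht0 : (0 : ℝ) < t := by exact_mod_cast ht
  obtain ⟨c, hc⟩ : ∃ c : ℝ, c = c0 / 400 := ⟨_, rfl⟩
  have hcpos : 0 < c := by rw [hc]; positivity
  obtain ⟨X6, hX6⟩ := Pool.Agent.Q117.GP.window_le (8 * c) (by positivity)
  obtain ⟨X8, hX8⟩ := Rk_large c hcpos 2
  have hrp : Tendsto (fun X : ℝ => X ^ (1 / 100 : ℝ)) atTop atTop := tendsto_rpow_atTop (by norm_num)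
  obtain ⟨X7, hX7⟩ := eventually_atTop.1 (hrp.eventually (eventually_ge_atTop XB))
  obtain ⟨X11, hX11⟩ := eventually_atTop.1 (Real.tendsto_log_atTop.eventually
    (eventually_ge_atTop (Real.log (8 * (((K : ℝ) + 1) * ((K : ℝ) + 1))))))
  refine ⟨t, ht, c, hcpos, max (max (max XA XD) (max X6 X8)) (max X7 (max X11 100)), ?_⟩
  intro X hX Ms hMk hMD hadm i hi j hj hij hiK hjK
  simp only [max_le_iff] at hX
  obtain ⟨⟨⟨gA, gD⟩, g6, g8⟩, g7, g11, g100⟩ := hX
  have hX0 : 0 < X := by linarith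
  have hX1 : 1 ≤ X := by linarith
  obtain ⟨D, hD⟩ : ∃ D : ℝ, D = c * Rk X := ⟨_, rfl⟩
  have hD2 : 2 ≤ D := by rw [hD]; exact hX8 X g8
  have hDX : D ≤ X / 8 := by
    have := hX6 X g6
    rw [mul_assoc, ← hD] at this
    linarith
  rw [← hD] at hMD ⊢
  -- the forms
  obtain ⟨f⟩ : Nonempty (Fin Ms.card ≃ Ms) := ⟨Ms.equivFin.symm⟩
  obtain ⟨g, hg⟩ : ∃ g : Fin Ms.card → ℕ, g = fun l => ((f l : Ms) : ℕ) := ⟨_, rfl⟩
  have hgM : ∀ l, g l ∈ Ms := fun l => by rw [hg]; exact (f l).2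
  have hgs : ∀ m ∈ Ms, ∃ l, g l = m := by
    intro m hm
    refine ⟨f.symm ⟨m, hm⟩, ?_⟩
    rw [hg]
    simp only
    rw [Equiv.apply_symm_apply]
  have hgi : Function.Injective g := by
    intro l l' hll
    rw [hg] at hll
    exact f.injective (Subtype.ext hll)
  obtain ⟨i', hi'⟩ := hgs i hi
  obtain ⟨j', hj'⟩ := hgs j hj
  have hij' : i' ≠ j' := by
    intro h
    apply hij
    rw [← hi', ← hj', h]
  obtain ⟨a, ha⟩ : ∃ a, slo i = a + 1 := ⟨slo i - 1, by have := slo_pos i; omega⟩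
  obtain ⟨b, hb⟩ : ∃ b, slo j = b + 1 := ⟨slo j - 1, by have := slo_pos j; omega⟩
  have haK : a ≤ K := by
    unfold slo at ha
    split_ifs at ha <;> omega
  have hbK : b ≤ K := by
    unfold slo at hb
    split_ifs at hb <;> omega
  have hmemx : ((Ms.card, a, b) : ℕ × ℕ × ℕ) ∈ (range (k + 1)) ×ˢ ((range (K + 1)) ×ˢ (range (K + 1))) := by
    rw [mem_product, mem_product, mem_range, mem_range, mem_range]
    exact ⟨by simp only; omega, by simp only; omega, by simp only; omega⟩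
  have hmemab : ((a, b) : ℕ × ℕ) ∈ (range (K + 1)) ×ˢ (range (K + 1)) := by
    rw [mem_product, mem_range, mem_range]
    exact ⟨by simp only; omega, by simp only; omega⟩
  have hXL := (hXA _ hmemx).trans gA
  have htt := htm _ hmemx
  have hslX : ∀ m ∈ Ms, (slo m : ℝ) ≤ X := by
    intro m hm
    unfold slo
    split_ifs with h
    · simpa using hX1
    · have := hMD m hm
      linarith
  have hL1 := hL (Ms.card, a, b) X hXL
  simp only at hL1
  obtain ⟨S, ps, hps, hS, hmain⟩ := hL1 (fun l => slo (g l)) (fun l => ico e (g l)) i' j' hij'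
    (by rw [hi', ha]) (by rw [hj', hb])
    (fun l => ⟨slo_pos _, hslX _ (hgM l)⟩)
    (by
      intro l
      unfold ico
      split_ifs with h
      · simpa using hX0.le
      · rcases he with rfl | rfl
        · simpa using hX1
        · simpa using hX1)
    (by
      intro l l' hll
      have h1 : g l ≠ g l' := fun h => hll (hgi h)
      have he0 : e ≠ 0 := by rcases he with rfl | rfl <;> norm_num
      unfold slo ico
      split_ifs with h2 h3 h3
      · exact absurd (h2.trans h3.symm) h1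
      · simpa using he0
      · simpa using he0.symm
      · intro h4
        have h5 := mul_right_cancel₀ he0 h4
        exact h1 (by exact_mod_cast h5))
    (by
      intro p hp
      obtain ⟨n, hn⟩ := hadm p hp
      refine ⟨n, fun l => ?_⟩
      have h1 := hn (g l) (hgM l)
      rw [vc_eq] at h1
      exact h1)
  obtain ⟨M, hM⟩ : ∃ M : ℕ, M = Sc (a + 1) (b + 1) X := ⟨_, rfl⟩
  have hscb := Sc_bounds (a + 1) (b + 1) (Nat.succ_pos _) (Nat.succ_pos _) X hX1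
  obtain ⟨W, hWd⟩ : ∃ W : ℕ, W = WX (Sc (a + 1) (b + 1) X) S ps := ⟨_, rfl⟩
  have hW0 : 0 < W := by rw [hWd]; exact WX_pos _ _ _
  have hWs : ∀ q : ℕ, q.Prime → q ∣ W → (q : ℝ) ≤ Real.log X := by
    intro q hq hqW
    rw [hWd] at hqW
    refine W_small (a + 1) (b + 1) (Nat.succ_pos _) (Nat.succ_pos _) X hX1 ?_ S ps q hq hqW
    refine le_trans ?_ (hX11 X g11)
    apply Real.log_le_log (by positivity)
    have b1 : (a : ℝ) ≤ K := by exact_mod_cast haK
    have b2 : (b : ℝ) ≤ K := by exact_mod_cast hbK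
    push_cast
    gcongr
  rw [← hWd] at hmain
  rw [← hM] at hS hscb
  have hsc : Rk X ≤ 400 * Rk ((M : ℝ) ^ (1 / 100 : ℝ)) := by
    have h1 := hXS (a, b) X ((hXD _ hmemab).trans gD)
    rw [hM]
    exact h1
  have hXM : X ≤ M := hscb.1
  have hRk0 : 0 ≤ Rk ((M : ℝ) ^ (1 / 100 : ℝ)) := by
    have h1 : 0 < c * Rk X := by rw [← hD]; linarith
    have h2 : 0 < Rk X := (mul_pos_iff_of_pos_left hcpos).1 h1
    linarith
  obtain ⟨N, hN⟩ : ∃ N : ℕ, N = (insert 0 Ms).card - 1 := ⟨_, rfl⟩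
  have hN1 : N + 1 = (insert 0 Ms).card := by
    have := card_pos.2 ⟨0, mem_insert_self 0 Ms⟩
    omega
  have hcard1 : (insert 0 Ms).card ≤ k + 1 := (card_insert_le _ _).trans (by omega)
  have hcN : c0 ≤ cC N := hc0m _ (by rw [mem_range]; omega)
  have hO4 : D ≤ cC N * Rk ((M : ℝ) ^ (1 / 100 : ℝ)) := by
    calc D = c * Rk X := hD
      _ ≤ c * (400 * Rk ((M : ℝ) ^ (1 / 100 : ℝ))) := by gcongr
      _ = c0 * Rk ((M : ℝ) ^ (1 / 100 : ℝ)) := by rw [hc]; ring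
      _ ≤ cC N * Rk ((M : ℝ) ^ (1 / 100 : ℝ)) := by gcongr
  have hX3 : XC N ≤ (M : ℝ) ^ (1 / 100 : ℝ) := by
    refine (hXB _ (by rw [mem_range]; omega)).trans (hX7 M (g7.trans hXM))
  obtain ⟨a0, ha0⟩ := hC N _ hX3 ps S hps hS (insert 0 Ms) hN1.symm (by
    intro h hh
    rw [mem_insert] at hh
    rcases hh with rfl | hh
    · have : (0 : ℝ) ≤ D := by linarith
      push_cast
      linarith
    · exact (hMD h hh).trans hO4) (by
    rw [hA0]
    exact admA_fact (k + 1) _ hcard1)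
  have hWX : WW ((M : ℝ) ^ (1 / 100 : ℝ)) S ps = W := by rw [hWd, hM]; rfl
  rw [hWX] at ha0
  obtain ⟨n₀, hno, hwin⟩ := choose_nM e he Ms hadm A0 W a0 hW0 D _ hO4 (le_trans (by linarith) hO4) hMD ha0
  obtain ⟨hcard, -⟩ := hmain n₀ (by
    intro p hp hpW l
    have h1 := hno p hp hpW (g l) (hgM l)
    rw [vc_eq] at h1
    exact h1)
  refine hcard.trans ?_
  rw [Nat.cast_le]
  apply card_le_card
  intro n hn
  have hn' := PtsC_mono (htL _) htt hX1 _ _ _ _ _ _ _ hn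
  unfold PtsC at hn'
  rw [mem_filter] at hn'
  obtain ⟨p1, p2, p3, p4, p5, p6, p7⟩ := hn'
  unfold PtsM
  rw [mem_filter]
  have hfm : ∀ l, fm (fun l => slo (g l)) (fun l => ico e (g l)) l n = vc e (g l) n := by
    intro l
    rw [vc_eq]
    rfl
  rw [hfm, hi'] at p5
  rw [hfm, hj'] at p6
  refine ⟨p1, p2, p5, p6, ?_, ?_⟩
  · intro m hm
    obtain ⟨l, hl⟩ := hgs m hm
    have h1 := p7 l
    rw [hfm, hl] at h1
    exact h1
  · intro m hm1 hmD hmM hRo
    obtain ⟨q, hq, hqW, hqd⟩ := hwin m hm1 hmD hmM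
    have h2 : (n : ℤ) ≡ n₀ [ZMOD q] := ((Int.natCast_modEq_iff).2 p3).of_dvd (Int.natCast_dvd_natCast.2 hqW)
    have h3 : (q : ℤ) ∣ vc e m n := by
      rw [vc_eq] at hqd ⊢
      exact ((h2.mul_left _).add_right _).dvd_iff.2 hqd
    have h4 := hRo q hq h3
    have h5 := hWs q hq hqW
    linarith

end Pool.Agent.Q117.LF
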