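import Pool.Agent.Q117.LF.Stm2

/-!
Project LF, job RKM: regularity of Rankin's function.
-/

set_option autoImplicit false

namespace Pool.Agent.Q117.LF

open Finset Filter
open Pool.Agent.Q117.GP (Rk)

theorem rkm : St_RKM := by
  intro g hg
  have hlog := Real.tendsto_log_atTop
  have h2 : Tendsto (fun X : ℝ => Real.log (Real.log X)) atTop atTop := hlog.comp hlog
  have h3 : Tendsto (fun X : ℝ => Real.log (Real.log (Real.log X))) atTop atTop := hlog.comp h2
  have h4 : Tendsto (fun X : ℝ => Real.log (Real.log (Real.log (Real.log X)))) atTop atTop :=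
    hlog.comp h3
  have hg0 : (1 : ℝ) ≤ g := by exact_mod_cast hg
  have hlg : 0 ≤ Real.log g := Real.log_nonneg hg0
  have h910 : -(1 / 9 : ℝ) ≤ Real.log (9 / 10) := by
    have := Real.one_sub_inv_le_log_of_pos (show (0 : ℝ) < 9 / 10 by norm_num)
    norm_num at this ⊢
    linarith
  have hev : ∀ᶠ X : ℝ in atTop, 0 < Rk X ∧ Rk X ≤ 2 * Rk (X / g) := by
    filter_upwards [eventually_ge_atTop (1 : ℝ), hlog.eventually_ge_atTop (max 10 (10 * Real.log g)),
      h2.eventually_ge_atTop 10, h3.eventually_ge_atTop 10, h4.eventually_ge_atTop 10]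
      with X g1 g2 g3 g4 g5
    obtain ⟨T, hT⟩ : ∃ T, T = Real.log X := ⟨_, rfl⟩
    obtain ⟨A, hA⟩ : ∃ A, A = Real.log T := ⟨_, rfl⟩
    obtain ⟨B, hB⟩ : ∃ B, B = Real.log A := ⟨_, rfl⟩
    obtain ⟨D, hD⟩ : ∃ D, D = Real.log B := ⟨_, rfl⟩
    obtain ⟨T', hT'⟩ : ∃ T', T' = Real.log (X / g) := ⟨_, rfl⟩
    obtain ⟨A', hA'⟩ : ∃ A', A' = Real.log T' := ⟨_, rfl⟩
    obtain ⟨B', hB'⟩ : ∃ B', B' = Real.log A' := ⟨_, rfl⟩
    obtain ⟨D', hD'⟩ : ∃ D', D' = Real.log B' := ⟨_, rfl⟩
    have hR : Rk X = T * A * D / B ^ 2 := by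
      unfold Rk
      rw [← hT, ← hA, ← hB, ← hD]
    have hR' : Rk (X / g) = T' * A' * D' / B' ^ 2 := by
      unfold Rk
      rw [← hT', ← hA', ← hB', ← hD']
    rw [← hT] at g2 g3 g4 g5
    rw [← hA] at g3 g4 g5
    rw [← hB] at g4 g5
    rw [← hD] at g5
    have e1 : 10 ≤ T := (le_max_left _ _).trans g2
    have e2 : 10 * Real.log g ≤ T := (le_max_right _ _).trans g2
    have step : ∀ u v : ℝ, 10 ≤ u → 9 / 10 * u ≤ v → Real.log u - 1 / 9 ≤ Real.log v := by
      intro u v hu huv
      have h5 : Real.log (9 / 10 * u) ≤ Real.log v := Real.log_le_log (by positivity) huv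
      rw [Real.log_mul (by norm_num) (by positivity)] at h5
      linarith
    have t1 : T' = T - Real.log g := by
      rw [hT', hT, Real.log_div (by positivity) (by positivity)]
    have t2 : 9 / 10 * T ≤ T' := by rw [t1]; linarith
    have t3 : T' ≤ T := by rw [t1]; linarith
    have a2 : 9 / 10 * A ≤ A' := by
      have := step T T' e1 t2
      rw [← hA, ← hA'] at this
      linarith
    have a3 : A' ≤ A := by
      rw [hA, hA']
      exact Real.log_le_log (by linarith) t3
    have b2 : 9 / 10 * B ≤ B' := by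
      have := step A A' g3 a2
      rw [← hB, ← hB'] at this
      linarith
    have b3 : B' ≤ B := by
      rw [hB, hB']
      exact Real.log_le_log (by linarith) a3
    have d2 : 9 / 10 * D ≤ D' := by
      have := step B B' g4 b2
      rw [← hD, ← hD'] at this
      linarith
    have hB0 : 0 < B' := by linarith
    have hnum : (9 / 10 * T) * (9 / 10 * A) * (9 / 10 * D) ≤ T' * A' * D' := by
      apply mul_le_mul
      · exact mul_le_mul t2 a2 (by linarith) (by linarith)
      · exact d2
      · linarith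
      · have h6 : 0 ≤ T' := by linarith
        have h7 : 0 ≤ A' := by linarith
        positivity
    have hpos : 0 < T * A * D := by
      have : 0 < T := by linarith
      have : 0 < A := by linarith
      have : 0 < D := by linarith
      positivity
    constructor
    · rw [hR]
      have : 0 < B := by linarith
      positivity
    · rw [hR, hR']
      have hB1 : (0 : ℝ) < B' ^ 2 := by positivity
      have hB2 : B' ^ 2 ≤ B ^ 2 := pow_le_pow_left₀ hB0.le b3 2
      calc T * A * D / B ^ 2 ≤ T * A * D / B' ^ 2 := div_le_div_of_nonneg_left hpos.le hB1 hB2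
        _ ≤ (2 * (T' * A' * D')) / B' ^ 2 := by
            apply div_le_div_of_nonneg_right _ hB1.le
            nlinarith
        _ = 2 * (T' * A' * D' / B' ^ 2) := by ring
  obtain ⟨X0, hX0⟩ := eventually_atTop.1 hev
  exact ⟨X0, fun X hX => hX0 X hX⟩

end Pool.Agent.Q117.LF
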