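import Pool.Agent.Q117.LF.Stm2

/-!
Project LF, job T1: prescribed surroundings of `p` and of `2 p - 1`.
-/

set_option autoImplicit false

namespace Pool.Agent.Q117.LF

open Finset Filter
open Pool.Agent.Q117.GP (Rk)

theorem t1 : T1 := by
  classical
  intro hF k
  obtain ⟨t, ht, c, hc, X0, h⟩ := hF 2 k ![1, 2] (by
    intro m
    fin_cases m <;> simp) (by
    intro m m' hmm
    fin_cases m <;> fin_cases m' <;> simp_all)
  obtain ⟨X1, hX1⟩ := Rk_large c hc 4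
  refine ⟨t, ht, c / 4, by positivity, max 1 (max X0 X1), ?_⟩
  intro X hX H K hHk hKk hH0 hK0 hHc hKc hadm
  have hX01 : 1 ≤ X := (le_max_left _ _).trans hX
  have hX0' : X0 ≤ X := ((le_max_left _ _).trans (le_max_right _ _)).trans hX
  have hbig : 4 ≤ c * Rk X := hX1 X (((le_max_right _ _).trans (le_max_right _ _)).trans hX)
  have hle : ∀ s : ℤ, |(s : ℝ)| ≤ c / 4 * Rk X → |(s : ℝ)| ≤ c * Rk X := by
    intro s hs
    linarith
  have hle' : ∀ s : ℤ, |(s : ℝ)| ≤ c / 4 * Rk X → |((s - 1 : ℤ) : ℝ)| ≤ c * Rk X := by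
    intro s hs
    push_cast
    have h1 : |(s : ℝ) - 1| ≤ |(s : ℝ)| + |(1 : ℝ)| := abs_sub _ _
    rw [abs_one] at h1
    linarith
  have himg : ∀ s : ℤ, s - 1 ∈ K.image (fun h => h - 1) ↔ s ∈ K := by
    intro s
    rw [mem_image]
    constructor
    · rintro ⟨a, ha, hs⟩
      have : a = s := by omega
      exact this ▸ ha
    · intro hs
      exact ⟨s, hs, rfl⟩
  have hprop : ∀ h₁ ∈ H, ∀ κ ∈ K, κ - 1 ≠ 2 * h₁ := by
    intro h₁ _ κ hκ heq
    obtain ⟨n, -, hn⟩ := hadm 2 Nat.prime_two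
    apply hn κ hκ
    refine ⟨n + h₁, ?_⟩
    push_cast
    linarith
  have hcard : ∀ m : Fin 2, ((![H, K.image (fun h => h - 1)] : Fin 2 → Finset ℤ) m).card ≤ k := by
    intro m
    fin_cases m
    · exact hHk
    · exact card_image_le.trans hKk
  have hsize : ∀ m : Fin 2, ∀ h ∈ (![H, K.image (fun h => h - 1)] : Fin 2 → Finset ℤ) m,
      |(h : ℝ)| ≤ c * Rk X := by
    intro m
    fin_cases m
    · intro h' hh'
      exact hle h' (hHc h' hh')
    · intro h' hh'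
      have hh'' : h' ∈ K.image (fun h => h - 1) := hh'
      rw [mem_image] at hh''
      obtain ⟨a, ha, rfl⟩ := hh''
      exact hle' a (hKc a ha)
  have hnon : ∀ m m' : Fin 2, m ≠ m' → ∀ h ∈ (![H, K.image (fun h => h - 1)] : Fin 2 → Finset ℤ) m,
      ∀ h' ∈ (![H, K.image (fun h => h - 1)] : Fin 2 → Finset ℤ) m',
      (((![1, 2] : Fin 2 → ℕ) m : ℕ) : ℤ) * h' ≠ ((![1, 2] : Fin 2 → ℕ) m' : ℕ) * h := by
    intro m m' hmm
    fin_cases m <;> fin_cases m'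
    · exact absurd rfl hmm
    · intro h₁ hh₁ h₂ hh₂ heq
      have hh₂' : h₂ ∈ K.image (fun h => h - 1) := hh₂
      rw [mem_image] at hh₂'
      obtain ⟨a, ha, rfl⟩ := hh₂'
      refine hprop h₁ hh₁ a ha ?_
      have heq' : (1 : ℤ) * (a - 1) = 2 * h₁ := heq
      linarith
    · intro h₁ hh₁ h₂ hh₂ heq
      have hh₁' : h₁ ∈ K.image (fun h => h - 1) := hh₁
      rw [mem_image] at hh₁'
      obtain ⟨a, ha, rfl⟩ := hh₁'
      refine hprop h₂ hh₂ a ha ?_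
      have heq' : (2 : ℤ) * h₂ = 1 * (a - 1) := heq
      linarith
    · exact absurd rfl hmm
  have hadmF : AdmF (![1, 2] : Fin 2 → ℕ) (![H, K.image (fun h => h - 1)] : Fin 2 → Finset ℤ) := by
    intro p hp
    obtain ⟨n, hn1, hn2⟩ := hadm p hp
    refine ⟨n, fun m => ?_⟩
    fin_cases m
    · intro h' hh' hdvd
      have hdvd' : (p : ℤ) ∣ (1 : ℤ) * n + h' := hdvd
      rw [one_mul] at hdvd'
      exact hn1 h' hh' hdvd'
    · intro h' hh' hdvd
      have hh'' : h' ∈ K.image (fun h => h - 1) := hh'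
      rw [mem_image] at hh''
      obtain ⟨a, ha, rfl⟩ := hh''
      have hdvd' : (p : ℤ) ∣ (2 : ℤ) * n + (a - 1) := hdvd
      apply hn2 a ha
      rwa [show (2 : ℤ) * n - 1 + a = 2 * n + (a - 1) by ring]
  have hwin : ∀ n : ℕ, (∀ m : Fin 2, ∀ s : ℤ, |(s : ℝ)| ≤ c * Rk X →
      0 < (((![1, 2] : Fin 2 → ℕ) m : ℕ) : ℤ) * n + s ∧
      (s ∈ (![H, K.image (fun h => h - 1)] : Fin 2 → Finset ℤ) m →
        Ro (X ^ (1 / (t : ℝ))) ((((![1, 2] : Fin 2 → ℕ) m : ℕ) : ℤ) * n + s)) ∧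
      (s ∉ (![H, K.image (fun h => h - 1)] : Fin 2 → Finset ℤ) m →
        ¬ Ro (Real.log X) ((((![1, 2] : Fin 2 → ℕ) m : ℕ) : ℤ) * n + s))) →
      ∀ s : ℤ, |(s : ℝ)| ≤ c / 4 * Rk X → (s ∈ H → Ro (X ^ (1 / (t : ℝ))) (n + s)) ∧
        (s ∉ H → ¬ Ro (Real.log X) (n + s)) ∧
        (s ∈ K → Ro (X ^ (1 / (t : ℝ))) (2 * n - 1 + s)) ∧
        (s ∉ K → ¬ Ro (Real.log X) (2 * n - 1 + s)) := by
    intro n hn s hs
    obtain ⟨-, a1, a2⟩ := hn 0 s (hle s hs)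
    obtain ⟨-, b1, b2⟩ := hn 1 (s - 1) (hle' s hs)
    have e1 : ((((![1, 2] : Fin 2 → ℕ) 0 : ℕ) : ℤ) * n + s) = n + s := by simp
    have e2 : ((((![1, 2] : Fin 2 → ℕ) 1 : ℕ) : ℤ) * n + (s - 1)) = 2 * n - 1 + s := by
      simp only [Matrix.cons_val_one, Matrix.cons_val_fin_one]
      push_cast
      ring
    rw [e1] at a1 a2
    rw [e2] at b1 b2
    exact ⟨a1, a2, fun hK => b1 ((himg s).2 hK), fun hK => b2 (fun h' => hK ((himg s).1 h'))⟩
  constructor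
  · refine (h X hX0' ![H, K.image (fun h => h - 1)] hcard hsize hnon hadmF 0 1 0 hH0 (0 - 1)
      ((himg 0).2 hK0) (by simp)).trans ?_
    refine Nat.cast_le.2 (card_le_card ?_)
    intro n hn
    unfold PtsF at hn
    rw [mem_filter] at hn ⊢
    obtain ⟨hr, h1, h3, h4, h5⟩ := hn
    have e3 : ((((![1, 2] : Fin 2 → ℕ) 0 : ℕ) : ℤ) * n + 0) = n := by simp
    have e4 : ((((![1, 2] : Fin 2 → ℕ) 1 : ℕ) : ℤ) * n + (0 - 1)) = 2 * n - 1 := by
      simp only [Matrix.cons_val_one, Matrix.cons_val_fin_one]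
      push_cast
      ring
    rw [e3, Int.natAbs_natCast] at h3
    rw [e4] at h4
    exact ⟨hr, h1, h3, h4, hwin n h5⟩
  · refine (h X hX0' ![H, K.image (fun h => h - 1)] hcard hsize hnon hadmF 1 0 (0 - 1)
      ((himg 0).2 hK0) 0 hH0 (by simp)).trans ?_
    refine Nat.cast_le.2 (card_le_card ?_)
    intro n hn
    unfold PtsF at hn
    rw [mem_filter] at hn ⊢
    obtain ⟨hr, h1, h3, h4, h5⟩ := hn
    have hn1 : 1 ≤ n := by
      have : (1 : ℝ) < n := by linarith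
      exact_mod_cast this.le
    have e3 : ((((![1, 2] : Fin 2 → ℕ) 0 : ℕ) : ℤ) * n + 0) = n := by simp
    have e4 : ((((![1, 2] : Fin 2 → ℕ) 1 : ℕ) : ℤ) * n + (0 - 1)) = ((2 * n - 1 : ℕ) : ℤ) := by
      simp only [Matrix.cons_val_one, Matrix.cons_val_fin_one]
      omega
    rw [e3] at h4
    rw [e4, Int.natAbs_natCast] at h3
    exact ⟨hr, h1, h3, h4, hwin n h5⟩

end Pool.Agent.Q117.LF
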