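import Pool.Agent.Q117.LF.Stm2

/-!
Project LF, job T10: a prime `n` and the numbers `a n + 1`.
-/

set_option autoImplicit false

namespace Pool.Agent.Q117.LF

open Finset Filter
open Pool.Agent.Q117.GP (Rk)

/-- the slopes `1` and the elements of `S` -/
noncomputable def AA10 (S : Finset ℕ) : Fin (S.card + 1) → ℕ :=
  Fin.cons 1 (fun i => ((S.equivFin.symm i : S) : ℕ))

/-- the intercepts `0` and `1` -/
def HH10 (r : ℕ) : Fin (r + 1) → Finset ℤ := Fin.cons {0} (fun _ => {1})

theorem AA10_zero (S : Finset ℕ) : AA10 S 0 = 1 := rfl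

theorem AA10_succ (S : Finset ℕ) (i : Fin S.card) : AA10 S i.succ = ((S.equivFin.symm i : S) : ℕ) := rfl

theorem AA10_idx (S : Finset ℕ) {a : ℕ} (ha : a ∈ S) :
    AA10 S (S.equivFin ⟨a, ha⟩).succ = a := by
  rw [AA10_succ, Equiv.symm_apply_apply]

theorem HH10_zero (r : ℕ) : HH10 r 0 = {0} := rfl

theorem HH10_succ (r : ℕ) (i : Fin r) : HH10 r i.succ = {1} := rfl

theorem t10 : T10 := by
  classical
  intro hF S h0 hadm b hb
  have h2 : ∀ a ∈ S, 2 ≤ a := by
    intro a ha
    obtain ⟨n, hn, hn'⟩ := hadm 2 Nat.prime_two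
    have ha0 : a ≠ 0 := fun h => h0 (h ▸ ha)
    by_contra h
    have : a = 1 := by omega
    subst this
    have := hn' 1 ha
    omega
  have hS2 : ∀ i : Fin S.card, 2 ≤ ((S.equivFin.symm i : S) : ℕ) :=
    fun i => h2 _ (S.equivFin.symm i).2
  have hinj' : Function.Injective (fun i => ((S.equivFin.symm i : S) : ℕ)) :=
    Subtype.val_injective.comp S.equivFin.symm.injective
  obtain ⟨t, ht, c, hc, X0, h⟩ := hF (S.card + 1) 1 (AA10 S) (by
    intro m
    refine Fin.cases ?_ (fun i => ?_) m
    · rw [AA10_zero]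
    · rw [AA10_succ]
      have := hS2 i
      omega) (by
    unfold AA10
    rw [Fin.cons_injective_iff]
    refine ⟨?_, hinj'⟩
    rintro ⟨i, hi⟩
    have := hS2 i
    simp only at hi
    omega)
  obtain ⟨X1, hX1⟩ := Rk_large c hc 1
  refine ⟨t, ht, c, hc, max X0 X1, ?_⟩
  intro X hX
  have hbig : 1 ≤ c * Rk X := hX1 X ((le_max_right _ _).trans hX)
  refine (h X ((le_max_left _ _).trans hX) (HH10 S.card) ?_ ?_ ?_ ?_ 0 (S.equivFin ⟨b, hb⟩).succ 0
    (by rw [HH10_zero]; simp) 1 (by rw [HH10_succ]; simp) ?_).trans ?_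
  · intro m
    refine Fin.cases ?_ (fun i => ?_) m
    · rw [HH10_zero]; simp
    · rw [HH10_succ]; simp
  · intro m
    refine Fin.cases ?_ (fun i => ?_) m
    · intro h' hh'
      rw [HH10_zero, mem_singleton] at hh'
      subst hh'
      simp only [Int.cast_zero, abs_zero]
      linarith
    · intro h' hh'
      rw [HH10_succ, mem_singleton] at hh'
      subst hh'
      simpa using hbig
  · intro m m'
    refine Fin.cases ?_ (fun i => ?_) m
    · refine Fin.cases ?_ (fun j => ?_) m'
      · intro hne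
        exact absurd rfl hne
      · intro _ h₁ hh₁ h₂ hh₂
        rw [HH10_zero, mem_singleton] at hh₁
        rw [HH10_succ, mem_singleton] at hh₂
        subst hh₁ hh₂
        rw [AA10_zero]
        simp
    · refine Fin.cases ?_ (fun j => ?_) m'
      · intro _ h₁ hh₁ h₂ hh₂
        rw [HH10_succ, mem_singleton] at hh₁
        rw [HH10_zero, mem_singleton] at hh₂
        subst hh₁ hh₂
        rw [AA10_zero]
        simp
      · intro hne h₁ hh₁ h₂ hh₂ heq
        rw [HH10_succ, mem_singleton] at hh₁ hh₂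
        subst hh₁ hh₂
        rw [mul_one, mul_one, AA10_succ, AA10_succ] at heq
        apply hne
        have h8 : ((S.equivFin.symm i : S) : ℕ) = ((S.equivFin.symm j : S) : ℕ) := by
          exact_mod_cast heq
        rw [hinj' h8]
  · intro p hp
    obtain ⟨n, hn, hn'⟩ := hadm p hp
    refine ⟨n, fun m => ?_⟩
    refine Fin.cases ?_ (fun i => ?_) m
    · intro h' hh'
      rw [HH10_zero, mem_singleton] at hh'
      subst hh'
      rw [AA10_zero, Nat.cast_one, one_mul, add_zero]
      exact_mod_cast hn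
    · intro h' hh'
      rw [HH10_succ, mem_singleton] at hh'
      subst hh'
      rw [AA10_succ]
      exact_mod_cast hn' _ (S.equivFin.symm i).2
  · rintro ⟨h1, -⟩
    exact (Fin.succ_ne_zero _) h1.symm
  · refine Nat.cast_le.2 (card_le_card ?_)
    intro n hn
    unfold PtsF at hn
    rw [mem_filter] at hn ⊢
    obtain ⟨hr, h1, h3, h4, h5⟩ := hn
    rw [AA10_zero, Nat.cast_one, one_mul, add_zero, Int.natAbs_natCast] at h3
    rw [AA10_idx] at h4
    refine ⟨hr, h1, h3, h4, fun a ha => ?_, fun s hs => ⟨fun hs0 => ?_, fun a ha hs1 => ?_⟩⟩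
    · have h6 := (h5 (S.equivFin ⟨a, ha⟩).succ 1 (by simpa using hbig)).2.1
        (by rw [HH10_succ]; simp)
      rwa [AA10_idx] at h6
    · have h6 := (h5 0 s hs).2.2 (by rw [HH10_zero, mem_singleton]; exact hs0)
      rwa [AA10_zero, Nat.cast_one, one_mul] at h6
    · have h6 := (h5 (S.equivFin ⟨a, ha⟩).succ s hs).2.2
        (by rw [HH10_succ, mem_singleton]; exact hs1)
      rwa [AA10_idx] at h6

end Pool.Agent.Q117.LF
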