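import Pool.Agent.Q117.LF.Stm2
import Pool.Agent.Q68.LF.Tools

/-! Project LF (helper117), part 2: job T2 (row `p` and `(p + 1) / 2`), by helper68. -/

set_option autoImplicit false

namespace Pool.Agent.Q117.LF

open Finset Filter
open Pool.Agent.Q117.GP (Rk)
open Pool.Agent.Q68.LF

theorem t2 : T2 := by
  classical
  intro hRK hMUL k
  obtain ⟨t', ht', c', hc', X0, hX0⟩ := hMUL (-1) (Or.inr rfl) (k + 1) 2
  obtain ⟨X1, hX1⟩ := hRK 2 (by norm_num)
  obtain ⟨X3, hX3⟩ := pow_ev (98 / 100) (99 / 100) 2 1 (by norm_num) (by norm_num)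
  obtain ⟨X4, hX4⟩ := pow_ev (1 / 9) (1 / 8) 2 1 (by norm_num) (by norm_num)
  have ht'0 : (0 : ℝ) < t' := by exact_mod_cast ht'
  obtain ⟨X5, hX5⟩ := pow_ev (1 / ((t' + 1 : ℕ) : ℝ)) (1 / (t' : ℝ)) 2 1 (by
    push_cast
    exact one_div_lt_one_div_of_lt ht'0 (by linarith)) (by norm_num)
  refine ⟨t' + 1, by omega, c' / 4, by positivity,
    ⌈max (max (2 * X0) X1) (max X3 (max X4 X5))⌉₊ + 1, ?_⟩
  intro N hN M hMk h2M h0M hM hadm
  have hNr : max (max (2 * X0) X1) (max X3 (max X4 X5)) ≤ (N : ℝ) := by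
    have h1 := Nat.le_ceil (max (max (2 * X0) X1) (max X3 (max X4 X5)))
    have h2 : ((⌈max (max (2 * X0) X1) (max X3 (max X4 X5))⌉₊ : ℕ) : ℝ) ≤ N := by
      exact_mod_cast (by omega : ⌈max (max (2 * X0) X1) (max X3 (max X4 X5))⌉₊ ≤ N)
    exact h1.trans h2
  have g0 : 2 * X0 ≤ (N : ℝ) := (le_max_left _ _).trans ((le_max_left _ _).trans hNr)
  have g1 : X1 ≤ (N : ℝ) := (le_max_right _ _).trans ((le_max_left _ _).trans hNr)
  have g3 : X3 ≤ (N : ℝ) := (le_max_left _ _).trans ((le_max_right _ _).trans hNr)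
  have g4 : X4 ≤ (N : ℝ) :=
    (le_max_left _ _).trans ((le_max_right _ _).trans ((le_max_right _ _).trans hNr))
  have g5 : X5 ≤ (N : ℝ) :=
    (le_max_right _ _).trans ((le_max_right _ _).trans ((le_max_right _ _).trans hNr))
  have hN1 : 1 ≤ N := by omega
  have hN0 : (0 : ℝ) < N := by exact_mod_cast hN1
  have hpow := hX3 N g3
  have hp8 := hX4 N g4
  have hpt := hX5 N g5
  rw [one_mul] at hpow hp8 hpt
  obtain ⟨hRpos, hR2⟩ := hX1 N g1
  have hR2' : Rk (N : ℝ) ≤ 2 * Rk ((N : ℝ) / 2) := by exact_mod_cast hR2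
  have hRpos' : 0 < Rk ((N : ℝ) / 2) := by linarith
  have hD : c' / 4 * Rk (N : ℝ) ≤ c' * Rk ((N : ℝ) / 2) := by nlinarith
  have hlog : Real.log ((N : ℝ) / 2) ≤ Real.log N := Real.log_le_log (by positivity) (by linarith)
  -- the application of MUL
  have hcard : (insert 0 M).card ≤ k + 1 := (card_insert_le _ _).trans (by omega)
  have hMM : ∀ m ∈ insert 0 M, (m : ℝ) ≤ c' * Rk ((N : ℝ) / 2) := by
    intro m hm
    rw [mem_insert] at hm
    rcases hm with rfl | hm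
    · push_cast
      positivity
    · exact (hM m hm).trans hD
  have hadm' : ∀ p : ℕ, p.Prime → ∃ n : ℕ, ∀ m ∈ insert 0 M, ¬ (p : ℤ) ∣ vc (-1) m n := by
    intro p hp
    obtain ⟨n, hn1, hn2⟩ := hadm p hp
    refine ⟨n, ?_⟩
    intro m hm
    unfold vc
    rw [mem_insert] at hm
    by_cases h0 : m = 0
    · rw [if_pos h0]
      intro hd
      exact hn1 (by exact_mod_cast hd)
    · rw [if_neg h0]
      have := hn2 m (hm.resolve_left h0)
      rw [sub_eq_add_neg] at this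
      exact this
  have hm0 : (0 : ℕ) ∈ insert 0 M := mem_insert_self _ _
  have hm2 : (2 : ℕ) ∈ insert 0 M := mem_insert_of_mem h2M
  have key := hX0 ((N : ℝ) / 2) (by linarith) (insert 0 M) hcard hMM hadm'
  have hrough : ∀ n : ℕ, (∀ m ∈ insert 0 M, Ro (((N : ℝ) / 2) ^ (1 / (t' : ℝ))) (vc (-1) m n)) →
      ∀ m ∈ M, Ro ((N : ℝ) ^ (1 / ((t' + 1 : ℕ) : ℝ))) ((m : ℤ) * n - 1) := by
    intro n hn m hm
    have h1 := hn m (mem_insert_of_mem hm)
    unfold vc at h1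
    rw [if_neg (by rintro rfl; exact h0M hm), ← sub_eq_add_neg] at h1
    exact Ro_mono hpt h1
  have hsmall : ∀ n : ℕ, (∀ m : ℕ, 1 ≤ m → (m : ℝ) ≤ c' * Rk ((N : ℝ) / 2) → m ∉ insert 0 M →
      ¬ Ro (Real.log ((N : ℝ) / 2)) (vc (-1) m n)) →
      ∀ m : ℕ, 1 ≤ m → (m : ℝ) ≤ c' / 4 * Rk N → m ∉ M → ¬ Ro (Real.log N) ((m : ℤ) * n - 1) := by
    intro n hn m hm1 hm2 hm3 hR
    have h1 := hn m hm1 (hm2.trans hD) (by
      rw [mem_insert]
      push Not
      exact ⟨by omega, hm3⟩)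
    unfold vc at h1
    rw [if_neg (by omega), ← sub_eq_add_neg] at h1
    exact h1 (Ro_mono hlog hR)
  have hfloor : ⌊2 * ((N : ℝ) / 2)⌋₊ = N := by
    rw [mul_div_cancel₀ _ (by norm_num : (2 : ℝ) ≠ 0)]
    exact Nat.floor_natCast N
  have hvc0 : ∀ n : ℕ, vc (-1) 0 n = n := fun n => if_pos rfl
  have hvc2 : ∀ n : ℕ, vc (-1) 2 n = 2 * (n : ℤ) - 1 := fun n => by
    unfold vc
    rw [if_neg (by norm_num)]
    push_cast
    ring
  constructor
  · refine hpow.trans ((key 0 hm0 2 hm2 (by norm_num) (by norm_num) le_rfl).trans ?_)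
    refine Nat.cast_le.2 (card_le_card ?_)
    intro n hn
    unfold PtsM at hn
    rw [mem_filter, mem_range, hfloor] at hn
    obtain ⟨h1, h2, h3, h4, h5, h6⟩ := hn
    rw [hvc0] at h3
    rw [hvc2] at h4
    have h7 : N < 2 * n := by
      have : (N : ℝ) < 2 * n := by linarith
      exact_mod_cast this
    rw [mem_filter, mem_Icc]
    refine ⟨⟨by omega, by omega⟩, by omega, by omega, ?_, Pt_mono hp8 h4, hrough n h5, hsmall n h6⟩
    simpa using h3
  · refine hpow.trans ((key 2 hm2 0 hm0 (by norm_num) le_rfl (by norm_num)).trans ?_)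
    refine Nat.cast_le.2 (card_le_card ?_)
    intro n hn
    unfold PtsM at hn
    rw [mem_filter, mem_range, hfloor] at hn
    obtain ⟨h1, h2, h3, h4, h5, h6⟩ := hn
    rw [hvc0] at h4
    rw [hvc2] at h3
    have h7 : N < 2 * n := by
      have : (N : ℝ) < 2 * n := by linarith
      exact_mod_cast this
    rw [mem_filter, mem_Icc]
    refine ⟨⟨by omega, by omega⟩, by omega, by omega, ?_, Pt_mono hp8 h4, hrough n h5, hsmall n h6⟩
    have h8 : (2 * (n : ℤ) - 1).natAbs = 2 * n - 1 := by omega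
    rw [h8] at h3
    exact h3

end Pool.Agent.Q117.LF
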