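import Pool.Agent.Q117.LF.Stm2

/-!
Project LF, job T3: exactly the prescribed multipliers in the row `2 k p + 1`.
-/

set_option autoImplicit false

namespace Pool.Agent.Q117.LF

open Finset Filter
open Pool.Agent.Q117.GP (Rk)

theorem vc_zero3 (e : ℤ) (n : ℕ) : vc e 0 n = n := by
  unfold vc
  rw [if_pos rfl]

theorem vc_two3 {m : ℕ} (hm : m ≠ 0) (n : ℕ) : vc 1 (2 * m) n = 2 * (m : ℤ) * n + 1 := by
  unfold vc
  rw [if_neg (by omega)]
  push_cast
  ring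

theorem t3 : T3 := by
  classical
  intro hM k K
  obtain ⟨t, ht, c, hc, X0, h⟩ := hM 1 (Or.inl rfl) (k + 1) (2 * K)
  refine ⟨t, ht, c / 2, by positivity, X0, ?_⟩
  intro X hX S hSk h0 hSc hadm κ₀ hκ₀ hκK
  have hne : ∀ m ∈ S, m ≠ 0 := fun m hm h => h0 (h ▸ hm)
  have hRk : 0 ≤ c * Rk X := by
    have h1 := hSc κ₀ hκ₀
    have h2 : (0 : ℝ) ≤ κ₀ := Nat.cast_nonneg _
    linarith
  have hmem : ∀ m, m ∈ insert 0 (S.image (2 * ·)) ↔ m = 0 ∨ ∃ κ ∈ S, 2 * κ = m := by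
    intro m
    rw [mem_insert, mem_image]
  refine (h X hX (insert 0 (S.image (2 * ·))) ?_ ?_ ?_ 0 (mem_insert_self _ _) (2 * κ₀)
    ((hmem _).2 (Or.inr ⟨κ₀, hκ₀, rfl⟩)) ?_ (Nat.zero_le _) (by omega)).trans ?_
  · exact (card_insert_le _ _).trans (Nat.add_le_add_right (card_image_le.trans hSk) 1)
  · intro m hm
    rcases (hmem m).1 hm with rfl | ⟨κ, hκ, rfl⟩
    · simpa using hRk
    · have := hSc κ hκ
      push_cast
      linarith
  · intro p hp
    obtain ⟨n, hn1, hn2⟩ := hadm p hp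
    refine ⟨n, fun m hm => ?_⟩
    rcases (hmem m).1 hm with rfl | ⟨κ, hκ, rfl⟩
    · rw [vc_zero3]
      exact_mod_cast hn1
    · rw [vc_two3 (hne κ hκ)]
      exact_mod_cast hn2 κ hκ
  · have := hne κ₀ hκ₀
    omega
  · refine Nat.cast_le.2 (card_le_card ?_)
    intro n hn
    unfold PtsM at hn
    rw [mem_filter] at hn ⊢
    obtain ⟨hr, h1, h2, h3, h4, h5⟩ := hn
    rw [vc_zero3, Int.natAbs_natCast] at h2
    rw [vc_two3 (hne κ₀ hκ₀)] at h3
    refine ⟨hr, h1, h2, h3, fun κ hκ => ?_, fun κ hκ1 hκD hκ => ?_⟩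
    · rw [← vc_two3 (hne κ hκ)]
      exact h4 _ ((hmem _).2 (Or.inr ⟨κ, hκ, rfl⟩))
    · rw [← vc_two3 (by omega)]
      refine h5 (2 * κ) (by omega) ?_ ?_
      · push_cast
        linarith
      · intro hm
        rcases (hmem _).1 hm with h6 | ⟨κ', hκ', h6⟩
        · omega
        · have : κ' = κ := by omega
          exact hκ (this ▸ hκ')

end Pool.Agent.Q117.LF
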