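import Pool.Agent.Q117.LF.Stm2
import Pool.Agent.Q68.LF.Tools

/-! Project LF (helper117), part 2: job T4 (row `4 p + 1`), by helper68. -/

set_option autoImplicit false

namespace Pool.Agent.Q117.LF

open Finset Filter
open Pool.Agent.Q117.GP (Rk)
open Pool.Agent.Q68.LF

namespace T4P

/-- the intercept -/
def ic (l : ℕ) : ℤ := (4 ^ l - 1) / 3

lemma ic3 (l : ℕ) : 3 * ic l = 4 ^ l - 1 := by
  unfold ic
  have h : (3 : ℤ) ∣ 4 ^ l - 1 := by
    have := sub_dvd_pow_sub_pow (4 : ℤ) 1 l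
    norm_num at this
    exact this
  exact Int.mul_ediv_cancel' h

lemma q4_3 (l : ℕ) (n : ℤ) : 3 * q4 l n + 1 = 4 ^ l * (3 * n + 1) := by
  have h := ic3 l
  unfold ic at h
  unfold q4
  linear_combination h

lemma q4_succ (l : ℕ) (n : ℤ) : q4 (l + 1) n = 4 * q4 l n + 1 := by
  have h1 := q4_3 l n
  have h2 := q4_3 (l + 1) n
  rw [pow_succ] at h2
  have h3 : 3 * q4 (l + 1) n + 1 = 4 * (3 * q4 l n + 1) := by
    rw [h2, h1]
    ring
  linarith

lemma q4_mod3 (l : ℕ) (n : ℤ) : (3 : ℤ) ∣ q4 l n - n - l := by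
  induction l with
  | zero => simp [q4]
  | succ l ih =>
    have h : q4 (l + 1) n - n - ((l + 1 : ℕ) : ℤ) = (q4 l n - n - l) + 3 * q4 l n := by
      rw [q4_succ]
      push_cast
      ring
    rw [h]
    exact dvd_add ih (Dvd.intro _ rfl)

lemma cast_ne (q : ℕ) (hq : q.Prime) (a : ℕ) (ha : 0 < a) (haq : a < q) : ((a : ℕ) : ZMod q) ≠ 0 := by
  intro h
  rw [ZMod.natCast_eq_zero_iff] at h
  exact absurd (Nat.le_of_dvd ha h) (by omega)

lemma ex_r (q : ℕ) (hq : q.Prime) (h4 : 4 < q) (l : ℕ) : ∃ r : ℕ, (q : ℤ) ∣ q4 l r := by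
  haveI := Fact.mk hq
  have h4' : (4 : ZMod q) ≠ 0 := by
    have := cast_ne q hq 4 (by norm_num) h4
    exact_mod_cast this
  refine ⟨(-((ic l : ℤ) : ZMod q) * ((4 : ZMod q) ^ l)⁻¹).val, ?_⟩
  rw [← ZMod.intCast_zmod_eq_zero_iff_dvd]
  have e : q4 l (((-((ic l : ℤ) : ZMod q) * ((4 : ZMod q) ^ l)⁻¹).val : ℕ) : ℤ) =
      4 ^ l * (((-((ic l : ℤ) : ZMod q) * ((4 : ZMod q) ^ l)⁻¹).val : ℕ) : ℤ) + ic l := rfl
  rw [e]
  push_cast
  rw [ZMod.natCast_zmod_val]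
  have h5 : ((4 : ZMod q) ^ l) ≠ 0 := pow_ne_zero _ h4'
  field_simp
  ring

lemma ex_s (p : ℕ) (hp : p.Prime) (h3 : p ≠ 3) : ∃ s : ℕ, (p : ℤ) ∣ 3 * s + 1 := by
  haveI := Fact.mk hp
  have h3' : (3 : ZMod p) ≠ 0 := by
    intro h
    have : ((3 : ℕ) : ZMod p) = 0 := by exact_mod_cast h
    rw [ZMod.natCast_eq_zero_iff] at this
    exact h3 ((Nat.prime_dvd_prime_iff_eq hp Nat.prime_three).1 this)
  refine ⟨(-(3 : ZMod p)⁻¹).val, ?_⟩
  rw [← ZMod.intCast_zmod_eq_zero_iff_dvd]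
  push_cast
  rw [ZMod.natCast_zmod_val]
  field_simp
  ring

lemma q4_congr (l : ℕ) {q a b : ℕ} (h : a ≡ b [MOD q]) (hd : (q : ℤ) ∣ q4 l b) : (q : ℤ) ∣ q4 l a := by
  have h1 : (q : ℤ) ∣ (b : ℤ) - a := (Nat.modEq_iff_dvd).1 h
  have h2 : q4 l a = q4 l b - 4 ^ l * ((b : ℤ) - a) := by
    unfold q4
    ring
  rw [h2]
  exact dvd_sub hd (h1.mul_left _)

/-- two different terms do not both vanish modulo a large prime -/
lemma not_both (p : ℕ) (hp : p.Prime) (L l m : ℕ) (hl : l ≤ L) (hm : m ≤ L) (hlm : l ≠ m)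
    (hpL : 4 ^ (L + 1) < p) (n : ℤ) (h1 : (p : ℤ) ∣ q4 l n) (h2 : (p : ℤ) ∣ q4 m n) : False := by
  have hpi : Prime (p : ℤ) := Nat.prime_iff_prime_int.1 hp
  -- `p ∣ 4 ^ l - 4 ^ m` times a unit
  have e1 : (p : ℤ) ∣ (4 ^ l - 4 ^ m) * (3 * n + 1) := by
    have : (4 ^ l - 4 ^ m) * (3 * n + 1) = 3 * q4 l n - 3 * q4 m n := by
      have a1 := q4_3 l n
      have a2 := q4_3 m n
      linear_combination -a1 + a2
    rw [this]
    exact dvd_sub (h1.mul_left _) (h2.mul_left _)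
  rcases hpi.dvd_or_dvd e1 with h3 | h3
  · have h4 : (4 : ℤ) ^ l - 4 ^ m ≠ 0 := by
      intro h0
      have : (4 : ℕ) ^ l = 4 ^ m := by exact_mod_cast sub_eq_zero.1 h0
      exact hlm (Nat.pow_right_injective (by norm_num) this)
    have h5 := Int.le_of_dvd (abs_pos.2 h4) ((dvd_abs _ _).2 h3)
    have h6 : (4 : ℤ) ^ l ≤ 4 ^ (L + 1) := pow_le_pow_right₀ (by norm_num) (by omega)
    have h7 : (4 : ℤ) ^ m ≤ 4 ^ (L + 1) := pow_le_pow_right₀ (by norm_num) (by omega)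
    have h8 : (0 : ℤ) < 4 ^ l := by positivity
    have h9 : (0 : ℤ) < 4 ^ m := by positivity
    have h10 : |(4 : ℤ) ^ l - 4 ^ m| < 4 ^ (L + 1) := by
      rw [abs_lt]
      constructor <;> linarith
    have h11 : ((4 ^ (L + 1) : ℕ) : ℤ) < p := by exact_mod_cast hpL
    push_cast at h11
    linarith
  · have h4 : (p : ℤ) ∣ 1 := by
      have h5 : (1 : ℤ) = 4 ^ l * (3 * n + 1) - 3 * q4 l n := by
        have := q4_3 l n
        linear_combination this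
      rw [h5]
      exact dvd_sub (h3.mul_left _) (h1.mul_left _)
    exact hpi.not_dvd_one h4

lemma ic_le (l L : ℕ) (h : l ≤ L) : |((ic l : ℤ) : ℝ)| ≤ 4 ^ L := by
  have h1 := ic3 l
  have h2 : (4 : ℤ) ^ l ≤ 4 ^ L := pow_le_pow_right₀ (by norm_num) h
  have h3 : (1 : ℤ) ≤ 4 ^ l := one_le_pow₀ (by norm_num)
  have h4 : |ic l| ≤ 4 ^ L := by
    rw [abs_le]
    constructor <;> linarith
  exact_mod_cast h4

end T4P

open T4P in
theorem t4 : T4 := by
  classical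
  intro hLIN L J hJL hJ3 i hi j hj hij
  obtain ⟨a, ha⟩ := hJ3
  -- the primes
  set qq : ℕ → ℕ := fun l => Nat.nth Nat.Prime (4 ^ (L + 1) + l) with hqq
  have hqp : ∀ l, (qq l).Prime := fun l => Nat.prime_nth_prime _
  have hqL : ∀ l, 4 ^ (L + 1) < qq l := by
    intro l
    have := Nat.add_two_le_nth_prime (4 ^ (L + 1) + l)
    simp only [hqq]
    omega
  have hqinj : Function.Injective qq := by
    intro l m hlm
    have := Nat.nth_injective Nat.infinite_setOf_prime hlm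
    omega
  have h4L : 4 ≤ 4 ^ (L + 1) := by
    rw [pow_succ]
    have : 1 ≤ 4 ^ L := Nat.one_le_pow _ _ (by norm_num)
    omega
  obtain ⟨T, hT⟩ : ∃ T, T = (range (L + 1)).filter (fun l => l ∉ J) := ⟨_, rfl⟩
  have hTm : ∀ l, l ∈ T ↔ l ≤ L ∧ l ∉ J := by
    intro l
    rw [hT, mem_filter, mem_range]
    constructor
    · rintro ⟨h1, h2⟩
      exact ⟨by omega, h2⟩
    · rintro ⟨h1, h2⟩
      exact ⟨by omega, h2⟩
  choose rl hrl using fun l => ex_r (qq l) (hqp l) (by have := hqL l; omega) l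
  obtain ⟨r, hr⟩ := Nat.chineseRemainderOfFinset rl qq T (fun l _ => (hqp l).ne_zero) (by
    intro l _ m _ hlm
    exact (Nat.coprime_primes (hqp l) (hqp m)).2 (fun h => hlm (hqinj h)))
  obtain ⟨M, hM⟩ : ∃ M, M = ∏ l ∈ T, qq l := ⟨_, rfl⟩
  have hMpos : 0 < M := by
    rw [hM]
    exact prod_pos (fun l _ => (hqp l).pos)
  have hdM : ∀ l ∈ T, qq l ∣ M := fun l hl => by rw [hM]; exact dvd_prod_of_mem qq hl
  have hpM : ∀ p : ℕ, p.Prime → p ∣ M → ∃ l ∈ T, p = qq l := by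
    intro p hp hd
    rw [hM] at hd
    obtain ⟨l, hl, h⟩ := (hp.prime.dvd_finset_prod_iff qq).1 hd
    exact ⟨l, hl, (Nat.prime_dvd_prime_iff_eq hp (hqp l)).1 h⟩
  have hr0 : ∀ l ∈ T, (qq l : ℤ) ∣ q4 l r := fun l hl => q4_congr l (hr l hl) (hrl l)
  -- the forms
  let σ : Fin J.card ≃ J := J.equivFin.symm
  let al : Fin J.card → ℕ := fun x => 4 ^ ((σ x : J) : ℕ)
  let be : Fin J.card → ℤ := fun x => ic ((σ x : J) : ℕ)
  have hfm : ∀ x n, fm al be x n = q4 ((σ x : J) : ℕ) n := by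
    intro x n
    show (((4 ^ ((σ x : J) : ℕ) : ℕ)) : ℤ) * n + ic ((σ x : J) : ℕ) = q4 ((σ x : J) : ℕ) n
    unfold q4 ic
    push_cast
    ring
  have hal1 : ∀ x, 1 ≤ al x := fun x => Nat.one_le_pow _ _ (by norm_num)
  have hij' : σ.symm ⟨i, hi⟩ ≠ σ.symm ⟨j, hj⟩ := by
    intro h
    exact hij (congrArg Subtype.val (σ.symm.injective h))
  obtain ⟨t, ht, c, hc, X0, hX0⟩ := hLIN J.card al hal1 (σ.symm ⟨i, hi⟩) (σ.symm ⟨j, hj⟩) hij' M r
    hMpos
  obtain ⟨X1, hX1⟩ := Rk_large c hc (4 ^ L)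
  obtain ⟨X2, hX2⟩ := Pool.Agent.Q117.GP.window_le c hc
  refine ⟨t, M, ht, c, hc, max X0 (max X1 X2), ?_⟩
  intro X hX
  have g0 : X0 ≤ X := (le_max_left _ _).trans hX
  have g1 : X1 ≤ X := (le_max_left _ _).trans ((le_max_right _ _).trans hX)
  have g2 : X2 ≤ X := (le_max_right _ _).trans ((le_max_right _ _).trans hX)
  have hR := hX1 X g1
  have hW := hX2 X g2
  have hmain := hX0 X g0 be (fun x => (ic_le _ L (hJL _ (σ x).2)).trans hR) (by
    intro x y hxy heq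
    have h1 : ((σ x : J) : ℕ) ≠ ((σ y : J) : ℕ) := fun h => hxy (σ.injective (Subtype.ext h))
    have h2 : (((4 ^ ((σ x : J) : ℕ) : ℕ)) : ℤ) * ic ((σ y : J) : ℕ) =
      (((4 ^ ((σ y : J) : ℕ) : ℕ)) : ℤ) * ic ((σ x : J) : ℕ) := heq
    push_cast at h2
    have h3 := ic3 ((σ x : J) : ℕ)
    have h4 := ic3 ((σ y : J) : ℕ)
    have h5 : (4 : ℤ) ^ ((σ x : J) : ℕ) = 4 ^ ((σ y : J) : ℕ) := by
      linear_combination (-3) * h2 + (4 : ℤ) ^ ((σ x : J) : ℕ) * h4 -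
        (4 : ℤ) ^ ((σ y : J) : ℕ) * h3
    have h6 : (4 : ℕ) ^ ((σ x : J) : ℕ) = 4 ^ ((σ y : J) : ℕ) := by exact_mod_cast h5
    exact h1 (Nat.pow_right_injective (by norm_num) h6)) (by
    intro p hp
    by_cases hpm : p ∣ M
    · obtain ⟨l₀, hl₀, rfl⟩ := hpM p hp hpm
      refine ⟨r, rfl, ?_⟩
      intro x hd
      rw [hfm] at hd
      have h1 : ((σ x : J) : ℕ) ≠ l₀ := by
        intro h
        exact ((hTm l₀).1 hl₀).2 (h ▸ (σ x).2)
      exact not_both _ hp L _ l₀ (hJL _ (σ x).2) ((hTm l₀).1 hl₀).1 h1 (hqL l₀) r hd (hr0 l₀ hl₀)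
    · have hcop : Nat.Coprime M p := ((Nat.Prime.coprime_iff_not_dvd hp).2 hpm).symm
      by_cases hp3 : p = 3
      · subst hp3
        obtain ⟨n, hn1, hn2⟩ := Nat.chineseRemainder hcop r (2 * a)
        refine ⟨n, hn1, ?_⟩
        intro x hd
        rw [hfm] at hd
        have h1 := q4_mod3 ((σ x : J) : ℕ) n
        have h2 : (3 : ℤ) ∣ ((2 * a : ℕ) : ℤ) - n := (Nat.modEq_iff_dvd).1 hn2
        apply ha _ (σ x).2
        rw [Nat.modEq_iff_dvd]
        push_cast at h2 hd ⊢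
        omega
      · obtain ⟨s, hs⟩ := ex_s p hp hp3
        obtain ⟨n, hn1, hn2⟩ := Nat.chineseRemainder hcop r s
        refine ⟨n, hn1, ?_⟩
        intro x hd
        rw [hfm] at hd
        have h2 : (p : ℤ) ∣ ((s : ℕ) : ℤ) - n := (Nat.modEq_iff_dvd).1 hn2
        have h3 : (p : ℤ) ∣ 3 * (n : ℤ) + 1 := by
          have : 3 * (n : ℤ) + 1 = 3 * s + 1 - 3 * ((s : ℤ) - n) := by ring
          rw [this]
          exact dvd_sub hs (h2.mul_left _)
        have h4 : (p : ℤ) ∣ 1 := by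
          have h5 : (1 : ℤ) = 4 ^ ((σ x : J) : ℕ) * (3 * (n : ℤ) + 1) - 3 * q4 ((σ x : J) : ℕ) n := by
            have := q4_3 ((σ x : J) : ℕ) (n : ℤ)
            linear_combination this
          rw [h5]
          exact dvd_sub (h3.mul_left _) (hd.mul_left _)
        exact (Nat.prime_iff_prime_int.1 hp).not_dvd_one h4)
  refine hmain.trans ?_
  refine Nat.cast_le.2 (card_le_card ?_)
  intro n hn
  unfold PtsR at hn
  rw [mem_filter] at hn
  simp only [hfm] at hn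
  obtain ⟨h0, h1, h2, h3, h4, h5, h6, h7⟩ := hn
  rw [Equiv.apply_symm_apply] at h4 h5
  rw [mem_filter]
  refine ⟨h0, h1, h4, h5, ?_, ?_⟩
  · intro l hl
    have e1 : ((σ (σ.symm ⟨l, hl⟩) : J) : ℕ) = l := by rw [Equiv.apply_symm_apply]
    refine ⟨?_, ?_⟩
    · have := h6 (σ.symm ⟨l, hl⟩)
      rw [e1] at this
      exact this
    · intro s hs0 hs hRo
      have hsn : |s| ≤ (n : ℤ) := by
        have : |(s : ℝ)| ≤ n := (hs.trans hW).trans h1.le
        exact_mod_cast this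
      obtain ⟨p, hp1, hp2, hp3⟩ := h7 (σ.symm ⟨l, hl⟩) s hs (by
        intro x heq
        rw [e1] at heq
        by_cases hx : ((σ x : J) : ℕ) = l
        · rw [hx] at heq
          exact hs0 (by linarith)
        · have a1 := q4_3 l (n : ℤ)
          have a2 := q4_3 ((σ x : J) : ℕ) (n : ℤ)
          have a3 : 3 * s = (4 ^ ((σ x : J) : ℕ) - 4 ^ l) * (3 * (n : ℤ) + 1) := by
            linear_combination 3 * heq - a1 + a2
          have a4 : (4 : ℤ) ^ ((σ x : J) : ℕ) - 4 ^ l ≠ 0 := by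
            intro h0
            have : (4 : ℕ) ^ ((σ x : J) : ℕ) = 4 ^ l := by exact_mod_cast sub_eq_zero.1 h0
            exact hx (Nat.pow_right_injective (by norm_num) this)
          have a5 : 1 ≤ |(4 : ℤ) ^ ((σ x : J) : ℕ) - 4 ^ l| := Int.one_le_abs a4
          have a6 : |3 * s| = |(4 : ℤ) ^ ((σ x : J) : ℕ) - 4 ^ l| * (3 * (n : ℤ) + 1) := by
            rw [a3, abs_mul, abs_of_nonneg (by positivity : (0 : ℤ) ≤ 3 * (n : ℤ) + 1)]
          rw [abs_mul] at a6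
          have a7 : |(3 : ℤ)| = 3 := by norm_num
          rw [a7] at a6
          nlinarith)
      rw [e1] at hp3
      exact absurd (hRo p hp1 hp3) (not_lt.2 hp2)
  · intro l hlL hlJ hRo
    have hlT : l ∈ T := (hTm l).2 ⟨hlL, hlJ⟩
    have a1 : n ≡ r [MOD qq l] := Nat.ModEq.of_dvd (hdM l hlT) h2
    have a2 := hRo (qq l) (hqp l) (q4_congr l a1 (hr0 l hlT))
    have a3 : (qq l : ℝ) ≤ M := by exact_mod_cast Nat.le_of_dvd hMpos (hdM l hlT)
    linarith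

end Pool.Agent.Q117.LF
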