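import Pool.Agent.Q117.LF.Stm2

/-! Project LF (helper117), part 2: job T5 (rows on Cunningham chains), by helper68. -/

set_option autoImplicit false

namespace Pool.Agent.Q117.LF

open Finset Filter
open Pool.Agent.Q117.GP (Rk)

namespace T5P

lemma np (i i' : ℕ) (h : i < i') (u : ℤ) (e : ℤ) (he : e = 1 ∨ e = -1) :
    (2 : ℤ) ^ (i + i') * u ≠ e * (2 ^ i - 2 ^ i') := by
  obtain ⟨j, rfl⟩ : ∃ j, i' = i + (j + 1) := ⟨i' - i - 1, by omega⟩
  intro heq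
  have h1 : (2 : ℤ) ^ i * (2 * (2 ^ (i + j) * u)) = 2 ^ i * (e * (1 - 2 * 2 ^ j)) := by
    have e1 : (2 : ℤ) ^ (i + (i + (j + 1))) * u = 2 ^ i * (2 * (2 ^ (i + j) * u)) := by ring
    have e2 : e * ((2 : ℤ) ^ i - 2 ^ (i + (j + 1))) = 2 ^ i * (e * (1 - 2 * 2 ^ j)) := by ring
    rw [← e1, ← e2, heq]
  have h2 := mul_left_cancel₀ (pow_ne_zero i (by norm_num : (2 : ℤ) ≠ 0)) h1
  generalize (2 : ℤ) ^ (i + j) * u = a at h2
  generalize (2 : ℤ) ^ j = b at h2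
  rcases he with rfl | rfl <;> omega

lemma np' (i i' : ℕ) (h : i ≠ i') (u : ℤ) (e : ℤ) (he : e = 1 ∨ e = -1) :
    (2 : ℤ) ^ (i + i') * u ≠ e * (2 ^ i - 2 ^ i') := by
  rcases Nat.lt_or_ge i i' with h1 | h1
  · exact np i i' h1 u e he
  · have h2 : i' < i := lt_of_le_of_ne h1 (Ne.symm h)
    intro heq
    apply np i' i h2 (-u) e he
    rw [add_comm i' i]
    linear_combination -heq

/-- the term of the chain, without `n` -/
def trm (e : ℤ) (i : ℕ) (s : ℤ) : ℤ := 2 ^ i * s + e * (2 ^ i - 1)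

lemma trm_inj (e : ℤ) (i : ℕ) {s s' : ℤ} (h : trm e i s = trm e i s') : s = s' := by
  unfold trm at h
  have h1 : (2 : ℤ) ^ i * s = 2 ^ i * s' := by linarith
  exact mul_left_cancel₀ (pow_ne_zero i (by norm_num : (2 : ℤ) ≠ 0)) h1

lemma trm_eq (e : ℤ) (i n : ℕ) (s : ℤ) :
    ((2 ^ i : ℕ) : ℤ) * n + trm e i s = 2 ^ i * ((n : ℤ) + s) + e * (2 ^ i - 1) := by
  unfold trm
  push_cast
  ring

lemma trm_abs (e : ℤ) (he : e = 1 ∨ e = -1) (L i : ℕ) (hi : i ≤ L) (s : ℤ) (B : ℝ)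
    (hs : |(s : ℝ)| ≤ B) : |((trm e i s : ℤ) : ℝ)| ≤ 2 ^ L * B + 2 ^ L := by
  unfold trm
  push_cast
  have h1 : (2 : ℝ) ^ i ≤ 2 ^ L := pow_le_pow_right₀ (by norm_num) hi
  have h2 : (1 : ℝ) ≤ 2 ^ i := one_le_pow₀ (by norm_num)
  have h3 : |(e : ℝ) * (2 ^ i - 1)| ≤ 2 ^ L := by
    rw [abs_mul]
    have : |(e : ℝ)| = 1 := by rcases he with rfl | rfl <;> simp
    rw [this, one_mul, abs_of_nonneg (by linarith)]
    linarith
  have h4 : |(2 : ℝ) ^ i * s| ≤ 2 ^ L * B := by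
    rw [abs_mul, abs_of_nonneg (by positivity)]
    exact mul_le_mul h1 hs (abs_nonneg _) (by positivity)
  exact (abs_add_le _ _).trans (add_le_add h4 h3)

end T5P

open T5P in
theorem t5 : T5 := by
  classical
  intro hF e he k L
  obtain ⟨t, ht, c', hc', X0, hX0⟩ := hF (L + 1) k (fun i => 2 ^ (i : ℕ))
    (fun i => Nat.one_le_two_pow) (by
      intro a b hab
      exact Fin.ext (Nat.pow_right_injective le_rfl hab))
  obtain ⟨X1, hX1⟩ := Rk_large (c' / 2) (by positivity) (2 ^ L)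
  refine ⟨t, ht, c' / 2 ^ (L + 1), by positivity, max X0 X1, ?_⟩
  intro X hX H lam hk hH hlam hlam0 hadm s₁ hs₁ i₁ hi₁ s₂ hs₂ i₂ hi₂ hne
  have hR := hX1 X ((le_max_right _ _).trans hX)
  have hbd : ∀ s : ℤ, |(s : ℝ)| ≤ c' / 2 ^ (L + 1) * Rk X → ∀ i ≤ L,
      |((trm e i s : ℤ) : ℝ)| ≤ c' * Rk X := by
    intro s hs i hi
    refine (trm_abs e he L i hi s _ hs).trans ?_
    have h1 : (2 : ℝ) ^ L * (c' / 2 ^ (L + 1) * Rk X) = c' / 2 * Rk X := by
      rw [pow_succ]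
      have : (2 : ℝ) ^ L ≠ 0 := by positivity
      field_simp
    rw [h1]
    linarith
  set H' : Fin (L + 1) → Finset ℤ := fun i =>
    (H.filter (fun s => (i : ℕ) < lam s)).image (fun s => trm e (i : ℕ) s) with hH'
  have hmem : ∀ (i : Fin (L + 1)) (h : ℤ), h ∈ H' i ↔ ∃ s ∈ H, (i : ℕ) < lam s ∧ trm e i s = h := by
    intro i h
    simp only [hH', mem_image, mem_filter]
    constructor
    · rintro ⟨s, ⟨h1, h2⟩, h3⟩
      exact ⟨s, h1, h2, h3⟩
    · rintro ⟨s, h1, h2, h3⟩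
      exact ⟨s, ⟨h1, h2⟩, h3⟩
  have hlt₁ : i₁ < L + 1 := by have := hlam s₁; omega
  have hlt₂ : i₂ < L + 1 := by have := hlam s₂; omega
  have hmain := hX0 X ((le_max_left _ _).trans hX) H' ?_ ?_ ?_ ?_ ⟨i₁, hlt₁⟩ ⟨i₂, hlt₂⟩
    (trm e i₁ s₁) ((hmem _ _).2 ⟨s₁, hs₁, hi₁, rfl⟩) (trm e i₂ s₂)
    ((hmem _ _).2 ⟨s₂, hs₂, hi₂, rfl⟩) ?_
  · refine hmain.trans ?_
    refine Nat.cast_le.2 (card_le_card ?_)
    intro n hn
    unfold PtsF at hn
    rw [mem_filter] at hn ⊢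
    obtain ⟨hn0, hn1, hn2, hn3, hn4⟩ := hn
    rw [trm_eq] at hn2 hn3
    refine ⟨hn0, hn1, hn2, hn3, ?_⟩
    intro s hs
    constructor
    · intro i hi
      have hsH : s ∈ H := by
        by_contra hsH
        rw [hlam0 s hsH] at hi
        omega
      have hiL : i < L + 1 := by have := hlam s; omega
      have h1 := (hn4 ⟨i, hiL⟩ (trm e i s) (hbd s hs i (by omega))).2.1
        ((hmem _ _).2 ⟨s, hsH, hi, rfl⟩)
      rw [trm_eq] at h1
      exact h1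
    · have hiL : lam s < L + 1 := by have := hlam s; omega
      have h1 := (hn4 ⟨lam s, hiL⟩ (trm e (lam s) s) (hbd s hs _ (by omega))).2.2 (by
        intro hmm
        obtain ⟨s', hs', hlt, heq⟩ := (hmem _ _).1 hmm
        have := trm_inj e _ heq
        subst this
        exact lt_irrefl _ hlt)
      rw [trm_eq] at h1
      exact h1
  · intro i
    exact (card_image_le.trans (card_filter_le _ _)).trans hk
  · intro i h hh
    obtain ⟨s, hs, -, rfl⟩ := (hmem _ _).1 hh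
    exact hbd s (hH s hs) i (by omega)
  · intro m m' hmm h hh h' hh' heq
    obtain ⟨s, -, -, rfl⟩ := (hmem _ _).1 hh
    obtain ⟨s', -, -, rfl⟩ := (hmem _ _).1 hh'
    have hmm' : (m : ℕ) ≠ m' := fun h => hmm (Fin.ext h)
    apply np' m m' hmm' (s' - s) e he
    unfold trm at heq
    push_cast at heq
    rw [pow_add]
    linear_combination heq
  · intro p hp
    obtain ⟨n, hn⟩ := hadm p hp
    refine ⟨n, ?_⟩
    intro m h hh
    obtain ⟨s, hs, hlt, rfl⟩ := (hmem _ _).1 hh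
    rw [trm_eq]
    exact hn s hs m hlt
  · rintro ⟨h1, h2⟩
    have h3 : i₁ = i₂ := congrArg Fin.val h1
    subst h3
    exact hne ⟨trm_inj e _ h2, rfl⟩

end Pool.Agent.Q117.LF
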