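import Pool.Agent.Q117.LF.Stm2

/-!
Project LF, job T7: exactly the prescribed multiples.
-/

set_option autoImplicit false

namespace Pool.Agent.Q117.LF

open Finset Filter
open Pool.Agent.Q117.GP (Rk)

theorem vc_neg7 (e : ℤ) {m : ℕ} (hm : m ≠ 0) (n : ℕ) : vc (-e) m n = (m : ℤ) * n - e := by
  unfold vc
  rw [if_neg hm, sub_eq_add_neg]

theorem t7 : T7 := by
  classical
  intro hM e he k K
  obtain ⟨t, ht, c, hc, X0, h⟩ := hM (-e) (by rcases he with rfl | rfl <;> simp) k K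
  refine ⟨t, ht, c, hc, X0, ?_⟩
  intro X hX M hMk h0 hMc i hi j hj hij hiK hjK
  have hne : ∀ m ∈ M, m ≠ 0 := fun m hm h => h0 (h ▸ hm)
  refine (h X hX M hMk hMc ?_ i hi j hj hij hiK hjK).trans ?_
  · intro p hp
    refine ⟨0, fun m hm hdvd => ?_⟩
    rw [vc_neg7 e (hne m hm)] at hdvd
    have h1 : (p : ℤ) ∣ 1 := by
      rcases he with rfl | rfl
      · simpa using hdvd
      · simpa using hdvd
    have h2 : (p : ℤ) ≤ 1 := Int.le_of_dvd one_pos h1
    have h3 := hp.two_le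
    omega
  · refine Nat.cast_le.2 (card_le_card ?_)
    intro n hn
    unfold PtsM at hn
    rw [mem_filter] at hn ⊢
    obtain ⟨hr, h1, h2, h3, h4, h5⟩ := hn
    rw [vc_neg7 e (hne i hi)] at h2
    rw [vc_neg7 e (hne j hj)] at h3
    refine ⟨hr, h1, h2, h3, fun m hm => ?_, fun m hm1 hmD hm => ?_⟩
    · rw [← vc_neg7 e (hne m hm)]
      exact h4 m hm
    · rw [← vc_neg7 e (by omega)]
      exact h5 m hm1 hmD hm

end Pool.Agent.Q117.LF
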