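import Pool.Agent.Q117.LF.Stm2

/-!
Project LF, job T9: isolated bitwin chains.
-/

set_option autoImplicit false

namespace Pool.Agent.Q117.LF

open Finset Filter
open Pool.Agent.Q117.GP (Rk)

/-- the intercepts of the bitwin chain -/
def HH9 (k : ℕ) (m : Fin (k + 1)) : Finset ℤ := if (m : ℕ) < k then {1, -1} else ∅

theorem mem_HH9 (k : ℕ) (m : Fin (k + 1)) (h : ℤ) :
    h ∈ HH9 k m ↔ (m : ℕ) < k ∧ (h = 1 ∨ h = -1) := by
  unfold HH9
  split_ifs with hm
  · rw [mem_insert, mem_singleton]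
    tauto
  · simp only [notMem_empty, false_iff, not_and]
    intro h
    exact absurd h hm

theorem t9 : T9 := by
  classical
  intro hF k
  obtain ⟨t, ht, c, hc, X0, h⟩ := hF (k + 1) 2 (fun m => 2 ^ (m : ℕ)) (fun m => Nat.one_le_two_pow)
    (by
      intro m m' hmm
      exact Fin.ext (Nat.pow_right_injective le_rfl hmm))
  obtain ⟨X1, hX1⟩ := Rk_large c hc 1
  refine ⟨t, ht, c, hc, max X0 X1, ?_⟩
  intro X hX i hi j hj ε η hε hη hne
  have hbig : 1 ≤ c * Rk X := hX1 X ((le_max_right _ _).trans hX)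
  refine (h X ((le_max_left _ _).trans hX) (HH9 k) ?_ ?_ ?_ ?_ ⟨i, by omega⟩ ⟨j, by omega⟩ ε
    ((mem_HH9 _ _ _).2 ⟨hi, hε⟩) η ((mem_HH9 _ _ _).2 ⟨hj, hη⟩) ?_).trans ?_
  · intro m
    unfold HH9
    split_ifs
    · exact card_le_two
    · simp
  · intro m h' hh'
    rcases ((mem_HH9 _ _ _).1 hh').2 with rfl | rfl
    · simpa using hbig
    · simpa using hbig
  · intro m m' hmm h₁ hh₁ h₂ hh₂ heq
    have e1 : ((2 : ℕ) ^ (m : ℕ) : ℤ).natAbs * h₂.natAbs = ((2 : ℕ) ^ (m' : ℕ) : ℤ).natAbs * h₁.natAbs := by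
      rw [← Int.natAbs_mul, ← Int.natAbs_mul]
      push_cast at heq ⊢
      rw [heq]
    have e2 : h₂.natAbs = 1 := by rcases ((mem_HH9 _ _ _).1 hh₂).2 with rfl | rfl <;> rfl
    have e3 : h₁.natAbs = 1 := by rcases ((mem_HH9 _ _ _).1 hh₁).2 with rfl | rfl <;> rfl
    rw [e2, e3, mul_one, mul_one, Int.natAbs_pow, Int.natAbs_pow] at e1
    exact hmm (Fin.ext (Nat.pow_right_injective le_rfl e1))
  · intro p hp
    refine ⟨0, fun m h' hh' hdvd => ?_⟩
    have h1 : (p : ℤ) ∣ 1 := by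
      rcases ((mem_HH9 _ _ _).1 hh').2 with rfl | rfl
      · simpa using hdvd
      · simpa using hdvd
    have h2 : (p : ℤ) ≤ 1 := Int.le_of_dvd one_pos h1
    have h3 := hp.two_le
    omega
  · rintro ⟨h1, h2⟩
    exact hne ⟨by simpa using congrArg Fin.val h1, h2⟩
  · refine Nat.cast_le.2 (card_le_card ?_)
    intro n hn
    unfold PtsF at hn
    rw [mem_filter] at hn ⊢
    obtain ⟨hr, h1, h2, h3, h4⟩ := hn
    push_cast at h2 h3 h4
    refine ⟨hr, h1, h2, h3, fun l hl => ?_, fun l hl s hs hls => ?_⟩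
    · have e1 := (h4 ⟨l, by omega⟩ (-1) (by simpa using hbig)).2.1
        ((mem_HH9 _ _ _).2 ⟨hl, Or.inr rfl⟩)
      have e2 := (h4 ⟨l, by omega⟩ 1 (by simpa using hbig)).2.1
        ((mem_HH9 _ _ _).2 ⟨hl, Or.inl rfl⟩)
      exact ⟨by rw [sub_eq_add_neg]; exact e1, e2⟩
    · refine (h4 ⟨l, by omega⟩ s hs).2.2 ?_
      intro hmem
      obtain ⟨e1, e2⟩ := (mem_HH9 _ _ _).1 hmem
      simp only at e1
      rcases hls with h5 | ⟨h5, h6⟩
      · omega
      · rcases e2 with h7 | h7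
        · exact h5 h7
        · exact h6 h7

end Pool.Agent.Q117.LF
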