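import Pool.Agent.Q117.LF.Lcl
import Pool.Agent.Q117.LF.Famw
import Pool.Agent.Q117.LF.Mul
import Pool.Agent.Q117.LF.Linm
import Pool.Agent.Q117.LF.Rkm
import Pool.Agent.Q117.LF.T1
import Pool.Agent.Q117.LF.T2
import Pool.Agent.Q117.LF.T3
import Pool.Agent.Q117.LF.T4
import Pool.Agent.Q117.LF.T5
import Pool.Agent.Q117.LF.T7
import Pool.Agent.Q117.LF.T9
import Pool.Agent.Q117.LF.T10

/-!
Project LF (helper117), part 2: the assembled theorems.
-/

set_option autoImplicit false

namespace Pool.Agent.Q117.LF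

theorem lclC : LCLc := lcl chenL

theorem famC : FAMc := famw (cova rsa) lclC

theorem mulC : MULc := mul (cova rsa) lclC

theorem linC : St_LINM := linm rkm

end Pool.Agent.Q117.LF
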