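import Pool.Agent.Q117.LF.Stm3
import Pool.Agent.H398R2.RK.Rec2

/-!
# Project LF (helper117), job RSF: Rankin's choice for a long interval and several distant ones
-/

set_option autoImplicit false
set_option maxHeartbeats 4000000

namespace Pool.Agent.Q117.LF

open Finset Pool.Agent.H318R2.Cr Pool.Agent.H398R2.RK

open scoped Classical

namespace RSFa

/-- integers of an interval in one residue class -/
theorem int_class_card (a : ℤ) (M : ℕ) (p : ℕ) (hp : 0 < p) (r : ℤ) :
    (((Icc a (a + M)).filter (fun k => k ≡ r [ZMOD p])).card : ℝ) ≤ ((M : ℝ) + 1) / p + 1 := by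
  have h1 : Icc a (a + M) = Ico a (a + M + 1) := by
    ext x
    rw [mem_Icc, mem_Ico]
    omega
  have hp' : (0 : ℤ) < p := by exact_mod_cast hp
  have h2 := Int.Ico_filter_modEq_card a (a + M + 1) hp' r
  have h3 : (⌈(((a + M + 1 : ℤ) : ℚ) - r) / ((p : ℤ) : ℚ)⌉ : ℚ) <
      (((a + M + 1 : ℤ) : ℚ) - r) / ((p : ℤ) : ℚ) + 1 := Int.ceil_lt_add_one _
  have h4 : ((a : ℚ) - r) / ((p : ℤ) : ℚ) ≤ (⌈((a : ℚ) - r) / ((p : ℤ) : ℚ)⌉ : ℚ) := Int.le_ceil _
  have hpq : (0 : ℚ) < p := by exact_mod_cast hp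
  have h5 : (((Icc a (a + M)).filter (fun k => k ≡ r [ZMOD p])).card : ℚ) ≤ ((M : ℚ) + 1) / p + 1 := by
    rw [h1]
    have h6 : (((Ico a (a + M + 1)).filter (fun k => k ≡ r [ZMOD p])).card : ℚ) =
        ((((Ico a (a + M + 1)).filter (fun k => k ≡ r [ZMOD p])).card : ℤ) : ℚ) := by push_cast; rfl
    rw [h6, h2]
    have h7 : (((a + M + 1 : ℤ) : ℚ) - r) / ((p : ℤ) : ℚ) - ((a : ℚ) - r) / ((p : ℤ) : ℚ) =
        ((M : ℚ) + 1) / p := by
      push_cast
      field_simp
      ring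
    rw [Int.cast_max]
    apply max_le
    · push_cast at h3 h4 h7 ⊢
      linarith
    · push_cast
      positivity
  have h6 : ((((Icc a (a + M)).filter (fun k => k ≡ r [ZMOD p])).card : ℚ) : ℝ) ≤
      ((((M : ℚ) + 1) / p + 1 : ℚ) : ℝ) := by exact_mod_cast h5
  push_cast at h6
  exact h6

theorem window {K : ℕ} (t : Fin K → ℤ) (P : Finset ℕ) (u v : ℕ) (hu : 1 ≤ u) (huv : u ≤ v)
    (hP : ∀ p ∈ P, u < p ∧ p ≤ v) (a : ℤ) (M : ℕ) :
    ∑ k ∈ Icc a (a + M), ∑ p ∈ P.filter (fun p : ℕ => ∃ j, k ≡ t j [ZMOD p]), 1 / (p : ℝ) ≤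
      K * (((M : ℝ) + 1) / u + (1 + Real.log v)) := by
  have hu0 : (0 : ℝ) < u := by exact_mod_cast hu
  have h1 : ∑ k ∈ Icc a (a + M), ∑ p ∈ P.filter (fun p : ℕ => ∃ j, k ≡ t j [ZMOD p]), 1 / (p : ℝ) =
      ∑ p ∈ P, (((Icc a (a + M)).filter (fun k => ∃ j, k ≡ t j [ZMOD p])).card : ℝ) * (1 / (p : ℝ)) := by
    simp_rw [sum_filter]
    rw [sum_comm]
    apply sum_congr rfl
    intro p _
    rw [← sum_filter, sum_const, nsmul_eq_mul]
  rw [h1]
  have h2 : ∀ p ∈ P, (((Icc a (a + M)).filter (fun k => ∃ j, k ≡ t j [ZMOD p])).card : ℝ) *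
      (1 / (p : ℝ)) ≤ K * (((M : ℝ) + 1) * ((p : ℝ) ^ 2)⁻¹ + (p : ℝ)⁻¹) := by
    intro p hp
    have hp0 : 0 < p := by
      have := (hP p hp).1
      omega
    have hp0' : (0 : ℝ) < p := by exact_mod_cast hp0
    have h3 : (Icc a (a + M)).filter (fun k => ∃ j, k ≡ t j [ZMOD p]) ⊆
        univ.biUnion (fun j : Fin K => (Icc a (a + M)).filter (fun k => k ≡ t j [ZMOD p])) := by
      intro k hk
      rw [mem_filter] at hk
      obtain ⟨hk1, j, hj⟩ := hk
      rw [mem_biUnion]
      exact ⟨j, mem_univ _, mem_filter.2 ⟨hk1, hj⟩⟩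
    have h4 : (((Icc a (a + M)).filter (fun k => ∃ j, k ≡ t j [ZMOD p])).card : ℝ) ≤
        K * (((M : ℝ) + 1) / p + 1) := by
      calc _ ≤ ((univ.biUnion (fun j : Fin K =>
            (Icc a (a + M)).filter (fun k => k ≡ t j [ZMOD p]))).card : ℝ) := by
            exact_mod_cast card_le_card h3
        _ ≤ ∑ j : Fin K, (((Icc a (a + M)).filter (fun k => k ≡ t j [ZMOD p])).card : ℝ) := by
            exact_mod_cast card_biUnion_le
        _ ≤ ∑ j : Fin K, (((M : ℝ) + 1) / p + 1) := sum_le_sum fun j _ => int_class_card a M p hp0 (t j)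
        _ = _ := by
            simp
            ring
    calc _ ≤ (K * (((M : ℝ) + 1) / p + 1)) * (1 / (p : ℝ)) :=
          mul_le_mul_of_nonneg_right h4 (by positivity)
      _ = _ := by
          rw [pow_two, mul_inv]
          ring
  refine (sum_le_sum h2).trans ?_
  rw [← mul_sum, sum_add_distrib, ← mul_sum]
  apply mul_le_mul_of_nonneg_left _ (Nat.cast_nonneg _)
  apply add_le_add
  · rw [div_eq_mul_inv]
    apply mul_le_mul_of_nonneg_left _ (by positivity)
    calc ∑ p ∈ P, ((p : ℝ) ^ 2)⁻¹ ≤ ∑ p ∈ Ioc u v, ((p : ℝ) ^ 2)⁻¹ := by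
          apply sum_le_sum_of_subset_of_nonneg
          · intro p hp
            rw [mem_Ioc]
            exact hP p hp
          · intro _ _ _
            positivity
      _ ≤ (u : ℝ)⁻¹ - (v : ℝ)⁻¹ := sum_Ioc_inv_sq_le_sub (by omega) huv
      _ ≤ (u : ℝ)⁻¹ := by
          have : (0 : ℝ) ≤ (v : ℝ)⁻¹ := by positivity
          linarith
  · refine le_trans ?_ (harmonic_le_one_add_log v)
    unfold harmonic
    push_cast
    have h3 : ∑ x ∈ range v, ((x : ℝ) + 1)⁻¹ = ∑ x ∈ Ico (0 + 1) (v + 1), (x : ℝ)⁻¹ := by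
      rw [← sum_Ico_add' (fun x : ℕ => (x : ℝ)⁻¹) 0 v 1, range_eq_Ico]
      apply sum_congr rfl
      intro x _
      push_cast
      rfl
    rw [h3]
    apply sum_le_sum_of_subset_of_nonneg
    · intro p hp
      rw [mem_Ico]
      have := hP p hp
      omega
    · intro _ _ _
      positivity

theorem inv_ge_one {p : ℕ} (hp : p.Prime) : 1 ≤ (1 - 1 / (p : ℝ))⁻¹ := by
  have h1 : (2 : ℝ) ≤ p := by exact_mod_cast hp.two_le
  have h2 : 1 / (p : ℝ) ≤ 1 / 2 := one_div_le_one_div_of_le (by norm_num) h1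
  have h3 : 0 ≤ 1 / (p : ℝ) := by positivity
  exact (one_le_inv₀ (by linarith)).2 (by linarith)

theorem prodinv_pos {X : Finset ℕ} (hX : ∀ p ∈ X, p.Prime) : 1 ≤ ∏ p ∈ X, (1 - 1 / (p : ℝ))⁻¹ :=
  Finset.one_le_prod fun p hp => inv_ge_one (hX p hp)

theorem prodinv_mono {X Y : Finset ℕ} (hY : ∀ p ∈ Y, p.Prime) (h : X ⊆ Y) :
    ∏ p ∈ X, (1 - 1 / (p : ℝ))⁻¹ ≤ ∏ p ∈ Y, (1 - 1 / (p : ℝ))⁻¹ := by
  rw [← prod_sdiff h]
  have h1 : 1 ≤ ∏ p ∈ Y \ X, (1 - 1 / (p : ℝ))⁻¹ := prodinv_pos fun p hp => hY p (mem_sdiff.1 hp).1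
  have h2 : 1 ≤ ∏ p ∈ X, (1 - 1 / (p : ℝ))⁻¹ := prodinv_pos fun p hp => hY p (h hp)
  nlinarith

theorem prodinv_union {X Y : Finset ℕ} (hX : ∀ p ∈ X, p.Prime) (hY : ∀ p ∈ Y, p.Prime) :
    ∏ p ∈ X ∪ Y, (1 - 1 / (p : ℝ))⁻¹ ≤ (∏ p ∈ X, (1 - 1 / (p : ℝ))⁻¹) * ∏ p ∈ Y, (1 - 1 / (p : ℝ))⁻¹ := by
  have h1 : X ∪ Y = X ∪ (Y \ X) := by rw [union_sdiff_self_eq_union]
  rw [h1, prod_union disjoint_sdiff]
  apply mul_le_mul_of_nonneg_left
  · exact prodinv_mono hY sdiff_subset
  · have := prodinv_pos hX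
    linarith

theorem prodinv_sum {X : Finset ℕ} (hX : ∀ p ∈ X, p.Prime) {x : ℝ} (hx : ∑ p ∈ X, (1 : ℝ) / p ≤ x) :
    ∏ p ∈ X, (1 - 1 / (p : ℝ))⁻¹ ≤ Real.exp (2 * x) := by
  calc ∏ p ∈ X, (1 - 1 / (p : ℝ))⁻¹ ≤ ∏ p ∈ X, Real.exp (2 * (1 / (p : ℝ))) := by
        apply Finset.prod_le_prod
        · intro p hp
          have := inv_ge_one (hX p hp)
          linarith
        · intro p hp
          have h1 : (2 : ℝ) ≤ p := by exact_mod_cast (hX p hp).two_le
          have h2 : 1 / (p : ℝ) ≤ 1 / 2 := one_div_le_one_div_of_le (by norm_num) h1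
          have h3 : 0 ≤ 1 / (p : ℝ) := by positivity
          generalize 1 / (p : ℝ) = s at h2 h3
          have h4 := Real.add_one_le_exp (2 * s)
          have h5 : 0 < 1 - s := by linarith
          rw [inv_le_comm₀ h5 (Real.exp_pos _), inv_le_comm₀ (Real.exp_pos _) h5]
          rw [inv_le_comm₀ h5 (Real.exp_pos _)]
          rw [inv_le_iff_one_le_mul₀ (Real.exp_pos _)]
          nlinarith
    _ = Real.exp (∑ p ∈ X, 2 * (1 / (p : ℝ))) := by rw [Real.exp_sum]
    _ ≤ Real.exp (2 * x) := by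
        apply Real.exp_le_exp.2
        rw [← mul_sum]
        linarith

theorem M_bound (z : ℕ) (M P0 Af Sf : Finset ℕ) (β : ℕ) (h0 : ∀ p ∈ P0, p.Prime) (h1 : ∀ p ∈ Af, p.Prime)
    (h2 : ∀ p ∈ Sf, p.Prime) (h3 : β.Prime) (hM : M ⊆ Pz z)
    (hcov : Pz z \ M ⊆ P0 ∪ (Af ∪ (Sf ∪ {β}))) :
    ∏ p ∈ M, (1 - 1 / (p : ℝ)) ≤ V z * ((∏ p ∈ P0, (1 - 1 / (p : ℝ))⁻¹) *
      ((∏ p ∈ Af, (1 - 1 / (p : ℝ))⁻¹) * ((∏ p ∈ Sf, (1 - 1 / (p : ℝ))⁻¹) * (1 - 1 / (β : ℝ))⁻¹))) := by
  have hVe : V z = (∏ p ∈ Pz z \ M, (1 - 1 / (p : ℝ))) * ∏ p ∈ M, (1 - 1 / (p : ℝ)) := by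
    unfold V
    rw [prod_sdiff hM]
  have hpos : 0 < ∏ p ∈ Pz z \ M, (1 - 1 / (p : ℝ)) :=
    prod_pos fun p hp => one_sub_inv_pos (mem_Pz.1 (mem_sdiff.1 hp).1).1
  have hβ : ∀ p ∈ ({β} : Finset ℕ), p.Prime := fun p hp => by
    rw [mem_singleton] at hp
    rw [hp]
    exact h3
  have hSβ : ∀ p ∈ Sf ∪ {β}, p.Prime := fun p hp => (mem_union.1 hp).elim (h2 p) (hβ p)
  have hASβ : ∀ p ∈ Af ∪ (Sf ∪ {β}), p.Prime := fun p hp => (mem_union.1 hp).elim (h1 p) (hSβ p)
  have hall : ∀ p ∈ P0 ∪ (Af ∪ (Sf ∪ {β})), p.Prime := fun p hp => (mem_union.1 hp).elim (h0 p) (hASβ p)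
  have h4 : ∏ p ∈ M, (1 - 1 / (p : ℝ)) = V z * ∏ p ∈ Pz z \ M, (1 - 1 / (p : ℝ))⁻¹ := by
    rw [hVe, prod_inv_distrib]
    field_simp
  rw [h4]
  apply mul_le_mul_of_nonneg_left _ (V_pos z).le
  have e1 := prodinv_mono hall hcov
  have e2 := prodinv_union h0 hASβ
  have e3 := prodinv_union h1 hSβ
  have e4 := prodinv_union h2 hβ
  rw [prod_singleton] at e4
  have f0 := prodinv_pos h0
  have f1 := prodinv_pos h1
  calc _ ≤ _ := e1
    _ ≤ _ := e2
    _ ≤ (∏ p ∈ P0, (1 - 1 / (p : ℝ))⁻¹) * ((∏ p ∈ Af, (1 - 1 / (p : ℝ))⁻¹) *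
        ∏ p ∈ Sf ∪ {β}, (1 - 1 / (p : ℝ))⁻¹) := mul_le_mul_of_nonneg_left e3 (by linarith)
    _ ≤ _ := mul_le_mul_of_nonneg_left (mul_le_mul_of_nonneg_left e4 (by linarith)) (by linarith)

theorem aux_sq {L : ℝ} (h : 100 ≤ L) : L ≤ L ^ 2 := by nlinarith

theorem aux_cu {L : ℝ} (h : 100 ≤ L) : L ≤ L ^ 3 := by
  have h1 := aux_sq h
  have h2 : L ^ 3 = L * L ^ 2 := by ring
  nlinarith

theorem aux_12 {H L : ℝ} (hH : 0 < H) (h : 100 ≤ L) : H * 12 * L ≤ H * L ^ 2 := by
  have h1 : 0 < H * L := mul_pos hH (by linarith)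
  nlinarith

theorem aux_e2 : Real.exp 2 ≤ 8 := by
  have h7 := Real.exp_one_lt_d9
  have h8 : Real.exp 2 = Real.exp 1 * Real.exp 1 := by rw [← Real.exp_add]; norm_num
  rw [h8]; nlinarith [Real.exp_pos 1]

theorem aux_CA {x C : ℝ} (hx : 0 ≤ x) (hC : 1 ≤ C) : x ≤ C * x := by nlinarith

theorem aux_kap {E t l : ℝ} (h : 20 * t ^ 2 ≤ E) (hl : 1 ≤ l) : t ^ 2 ≤ E * l := by
  have h1 := sq_nonneg t
  nlinarith

theorem aux_z {e z : ℝ} (hz : 2 ≤ z) (h : e < z + 1) : e ≤ z ^ 2 := by nlinarith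

theorem aux_v {L v : ℝ} (h : 100 ≤ L) (hv : v ≤ L) : 1 + v ≤ L ^ 2 ∧ 3 + v ≤ L ^ 2 := by
  constructor <;> nlinarith

theorem aux_t {l t : ℝ} (h1 : 1 ≤ t) (h : l ≤ t) : l ≤ t ^ 2 := by nlinarith

theorem aux_B {H L2 l t2 : ℝ} (h : l ≤ t2) (hp : 0 ≤ H * L2) : H * (L2 * l) ≤ H * t2 * L2 := by
  nlinarith

theorem aux_2 {L : ℝ} (h : 100 ≤ L) : 2 ≤ 2 * L ^ 2 := by nlinarith

end RSFa

theorem rsf : St_GRW → St_UPS → St_RSF := by
  intro hGRW hUPS K A0 m hA0
  obtain ⟨CU, hCU, hups⟩ := hUPS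
  set CA : ℝ := ∏ p ∈ A0.primeFactors, (1 - 1 / (p : ℝ))⁻¹ with hCA
  have hCA1 : 1 ≤ CA := RSFa.prodinv_pos fun p hp => Nat.prime_of_mem_primeFactors hp
  obtain ⟨c₁, c₂, hc₁, hc₁₂, hV⟩ := cz_bounds
  obtain ⟨y₁, hsm⟩ := smooth_count
  obtain ⟨t₀, hev⟩ := ev_rec K
  have hc₂ : 0 < c₂ := hc₁.trans_le hc₁₂
  obtain ⟨Fc, hFc⟩ : ∃ Fc : ℝ, Fc = 64 * (c₂ / c₁ * 40) := ⟨_, rfl⟩
  have hFc0 : 0 < Fc := by
    rw [hFc]
    positivity
  obtain ⟨C6, hC6⟩ : ∃ C6 : ℝ, C6 = CU * (16 * c₂) * (c₂ / c₁ / 10) * (6 * CA) := ⟨_, rfl⟩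
  have hC60 : 0 < C6 := by
    rw [hC6]
    positivity
  obtain ⟨Ct, hCt⟩ : ∃ Ct : ℝ, Ct = Fc * (60 * CA + m * (2 + C6)) := ⟨_, rfl⟩
  have hCt0 : 0 ≤ Ct := by
    rw [hCt]
    positivity
  refine ⟨Ct + 5 * K + 1, by positivity,
    ⌈max (max y₁ (Real.exp (Real.exp t₀))) (Real.exp (A0 + 1))⌉₊,
    fun y hyN S ps hS hSsum hps H hyH hHy t htj N D hDy => ?_⟩
  have hyA : max (max y₁ (Real.exp (Real.exp t₀))) (Real.exp (A0 + 1)) ≤ (y : ℝ) :=
    (Nat.le_ceil _).trans (by exact_mod_cast hyN)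
  have hy : max y₁ (Real.exp (Real.exp t₀)) ≤ (y : ℝ) := (le_max_left _ _).trans hyA
  have hyH' : (y : ℝ) ≤ H := by exact_mod_cast hyH
  have hsm' := hsm y ((le_max_left _ _).trans hy) H hyH'
  have hy' := (le_max_right _ _).trans hy
  have hy0 : (0 : ℝ) < y := (Real.exp_pos _).trans_le hy'
  have hL1' : Real.exp t₀ ≤ Real.log y := by
    rw [← Real.log_exp (Real.exp t₀)]; exact Real.log_le_log (Real.exp_pos _) hy'
  have hly : 0 < Real.log y := (Real.exp_pos _).trans_le hL1'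
  set τ := Real.log (Real.log y) with hτ
  have htt : t₀ ≤ τ := by
    rw [← Real.log_exp t₀]; exact Real.log_le_log (Real.exp_pos _) hL1'
  obtain ⟨h1, h2, h3, h4, h5, h6, h7K⟩ := hev τ htt
  have hLe : Real.log y = Real.exp τ := by rw [hτ, Real.exp_log hly]
  have hye : (y : ℝ) = Real.exp (Real.exp τ) := by rw [← hLe, Real.exp_log hy0]
  set V0 := Real.log y * Real.log τ / (10 * τ) with hV0
  have ht0 : 0 < τ := by linarith
  have hlt0 : 0 < Real.log τ := by linarith
  have hV1 : 2 * τ ≤ V0 := by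
    rw [hV0, le_div_iff₀ (by positivity), hLe]
    nlinarith [Real.exp_pos τ]
  have hV1le : V0 ≤ Real.log y := by
    rw [hV0, div_le_iff₀ (by positivity), hLe]
    nlinarith [Real.exp_pos τ]
  set v₀ : ℝ := (Real.log y) ^ 2 with hv₀
  have hv₀e : v₀ = Real.exp (2 * τ) := by
    rw [hv₀, hLe, ← Real.exp_nat_mul]; push_cast; ring_nf
  have hv₀0 : 0 < v₀ := by positivity
  have hL100 : 100 ≤ Real.log y := by rw [hLe]; exact h4
  have hLA : (A0 : ℝ) + 1 ≤ Real.log y := by
    rw [← Real.log_exp ((A0 : ℝ) + 1)]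
    exact Real.log_le_log (Real.exp_pos _) ((le_max_right _ _).trans hyA)
  have hv₀A : (A0 : ℝ) ≤ v₀ := by
    rw [hv₀]
    nlinarith
  have hv₀big : 10000 ≤ v₀ := by rw [hv₀]; nlinarith
  have hyL4 : (Real.log y) ^ 4 ≤ y := by
    have h8 : (Real.log y) ^ 4 = Real.exp (4 * τ) := by
      rw [hLe, ← Real.exp_nat_mul]; push_cast; ring_nf
    rw [h8, hye]
    exact Real.exp_le_exp.2 h6
  have hv₀y : v₀ ≤ y := by
    rw [hv₀e, hye]; apply Real.exp_le_exp.2; linarith
  set u : ℕ := ⌊v₀⌋₊ with hu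
  set v : ℕ := ⌊Real.exp V0⌋₊ with hv
  have huv : u ≤ v := by
    rw [hu, hv]; apply Nat.floor_le_floor; rw [hv₀e]; exact Real.exp_le_exp.2 hV1
  have hu2 : 2 ≤ u := by
    rw [hu, Nat.le_floor_iff hv₀0.le]; push_cast; linarith
  have hvle : (v : ℝ) ≤ Real.exp V0 := Nat.floor_le (Real.exp_pos _).le
  have hule : (u : ℝ) ≤ v₀ := Nat.floor_le hv₀0.le
  have huge : v₀ / 2 ≤ (u : ℝ) := by
    have h8 : v₀ < u + 1 := Nat.lt_floor_add_one _
    linarith
  have hv0 : (0 : ℝ) < v := by exact_mod_cast (by omega : 0 < v)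
  have hu0 : (0 : ℝ) < u := by exact_mod_cast (by omega : 0 < u)
  have hlu : Real.log u ≤ 2 * τ := by
    rw [← Real.log_exp (2 * τ), ← hv₀e]; exact Real.log_le_log hu0 hule
  have hlu1 : τ ≤ Real.log u := by
    have h8 : Real.log (v₀ / 2) ≤ Real.log u := Real.log_le_log (by positivity) huge
    rw [Real.log_div hv₀0.ne' two_ne_zero, hv₀e, Real.log_exp] at h8
    have := Real.log_two_lt_d9
    linarith
  have hlu0 : 0 < Real.log u := by linarith
  have hlv0 : 0 < Real.log v := Real.log_pos (by exact_mod_cast (by omega : 1 < v))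
  have hlv : V0 / 2 ≤ Real.log v := by
    have h7 : Real.exp V0 < v + 1 := Nat.lt_floor_add_one _
    have h8 : (2 : ℝ) ≤ v := by exact_mod_cast (by omega : 2 ≤ v)
    have h9 : Real.exp V0 ≤ (v : ℝ) ^ 2 := by nlinarith
    have h10 := Real.log_le_log (Real.exp_pos _) h9
    rw [Real.log_exp, Real.log_pow] at h10
    push_cast at h10; linarith
  have hlvV : Real.log v ≤ V0 := by
    have h8 := Real.log_le_log hv0 hvle
    rwa [Real.log_exp] at h8
  have hvy : (v : ℝ) ≤ y := hvle.trans (by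
    rw [← Real.exp_log hy0]; exact Real.exp_le_exp.2 hV1le)
  have hy2 : 2 ≤ y := by
    have : (2 : ℝ) ≤ y := by linarith
    exact_mod_cast this
  have hH0 : (0 : ℝ) < H := by linarith
  -- the primes of the greedy step
  set P0 : Finset ℕ := (Icc 1 v).filter (fun p : ℕ => p.Prime ∧ v₀ < (p : ℝ)) with hP0
  set E0 : Finset ℕ := P0.filter (fun p => p ∈ S ∨ p = ps) with hE0
  set P : Finset ℕ := P0 \ E0 with hPdef
  have hP0p : ∀ p ∈ P0, p.Prime ∧ 3 ≤ p := by
    intro p hp
    rw [hP0, mem_filter] at hp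
    refine ⟨hp.2.1, ?_⟩
    have : (3 : ℝ) < p := by linarith [hp.2.2]
    have : 3 < p := by exact_mod_cast this
    omega
  have hP0v : ∀ p ∈ P0, v₀ < (p : ℝ) := fun p hp => (mem_filter.1 hp).2.2
  have hP0v' : ∀ p ∈ P0, p ≤ v := fun p hp => (mem_Icc.1 (mem_filter.1 hp).1).2
  have hPP0 : P ⊆ P0 := sdiff_subset
  have hPmem : ∀ p : ℕ, p.Prime → (p ∈ P ↔ v₀ < (p : ℝ) ∧ Real.log p ≤ V0 ∧ p ∉ S ∧ p ≠ ps) := by
    intro p hp
    have hp0 : (0 : ℝ) < p := by exact_mod_cast hp.pos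
    have hm0 : p ∈ P0 ↔ (v₀ < (p : ℝ) ∧ Real.log p ≤ V0) := by
      rw [hP0, mem_filter, mem_Icc, Real.log_le_iff_le_exp hp0, hv,
        Nat.le_floor_iff (Real.exp_pos _).le]
      constructor
      · rintro ⟨⟨_, h⟩, _, h'⟩; exact ⟨h', h⟩
      · rintro ⟨h, h'⟩; exact ⟨⟨hp.pos, h'⟩, hp, h⟩
    have hmE : p ∈ E0 ↔ (p ∈ P0 ∧ (p ∈ S ∨ p = ps)) := by rw [hE0, mem_filter]
    have hmP : p ∈ P ↔ (p ∈ P0 ∧ p ∉ E0) := by rw [hPdef, mem_sdiff]
    rw [hmP, hmE, hm0]
    by_cases c1 : v₀ < (p : ℝ) <;> by_cases c2 : Real.log p ≤ V0 <;> by_cases c3 : p ∈ S <;>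
      by_cases c4 : p = ps <;> simp [c1, c2, c3, c4]
  have hAle : ∀ p : ℕ, p ∣ A0 → (p : ℝ) ≤ v₀ := by
    intro p hd
    have h7 : p ≤ A0 := Nat.le_of_dvd hA0 hd
    have : (p : ℝ) ≤ A0 := by exact_mod_cast h7
    linarith
  have hPA : ∀ p ∈ P, ¬ p ∣ A0 := by
    intro p hp hd
    have := hP0v p (hPP0 hp)
    linarith [hAle p hd]
  have hPav : ∀ p ∈ P, AvB A0 S ps y p := by
    intro p hp
    have hpp := (hP0p p (hPP0 hp)).1
    have hpm := (hPmem p hpp).1 hp
    have hpy : p ≤ y := by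
      have h7 := hP0v' p (hPP0 hp)
      have : (p : ℝ) ≤ y := le_trans (by exact_mod_cast h7) hvy
      exact_mod_cast this
    exact ⟨hpp, hpy, hpm.2.2.1, hpm.2.2.2, hPA p hp⟩
  -- allowed classes
  set A : ℕ → Finset ℕ := fun p => (range p) \ (univ.image (fun j : Fin K => (t j % (p : ℤ)).toNat)) with hA
  have hAmem : ∀ p : ℕ, 0 < p → ∀ k : ℤ, ((k % (p : ℤ)).toNat ∈ A p ↔ ¬ ∃ j, k ≡ t j [ZMOD p]) := by
    intro p hp k
    have hp' : (0 : ℤ) < p := by exact_mod_cast hp
    have hk0 := Int.emod_nonneg k hp'.ne'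
    have hk1 := Int.emod_lt_of_pos k hp'
    rw [hA]
    simp only [mem_sdiff, mem_range, mem_image, mem_univ, true_and, not_exists]
    constructor
    · rintro ⟨_, h8⟩ j hj
      apply h8 j
      have : t j % (p : ℤ) = k % (p : ℤ) := hj.symm
      rw [this]
    · intro h8
      refine ⟨by omega, fun j hj => h8 j ?_⟩
      have hj0 := Int.emod_nonneg (t j) hp'.ne'
      have : k % (p : ℤ) = t j % (p : ℤ) := by omega
      exact this
  have hAne : ∀ p ∈ P, p.Prime ∧ A p ⊆ range p ∧ (A p).Nonempty := by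
    intro p hp
    refine ⟨(hP0p p (hPP0 hp)).1, sdiff_subset, ?_⟩
    rw [← card_pos]
    have h7 : (univ.image (fun j : Fin K => (t j % (p : ℤ)).toNat)).card ≤ K :=
      card_image_le.trans (by simp)
    have h8 := le_card_sdiff (univ.image (fun j : Fin K => (t j % (p : ℤ)).toNat)) (range p)
    rw [card_range] at h8
    have h9 : K < p := by
      have h10 := hP0v p (hPP0 hp)
      have h11 : (K : ℝ) ≤ v₀ := by
        rw [hv₀]
        have : (K : ℝ) ≤ Real.log y := by rw [hLe]; linarith [(Nat.cast_nonneg K : (0 : ℝ) ≤ K)]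
        exact this.trans (RSFa.aux_sq hL100)
      have : (K : ℝ) < p := by linarith
      exact_mod_cast this
    show 0 < (A p).card
    rw [hA]
    simp only
    omega
  -- the exceptional sum
  set J : ℤ → ℝ := fun k => ∑ p ∈ P.filter (fun p : ℕ => ∃ j, k ≡ t j [ZMOD p]), 1 / (p : ℝ) with hJ
  have hJ0 : ∀ k, 0 ≤ J k := fun k => sum_nonneg fun _ _ => by positivity
  have hPuv : ∀ p ∈ P, u < p ∧ p ≤ v := by
    intro p hp
    refine ⟨?_, hP0v' p (hPP0 hp)⟩
    have h8 := hP0v p (hPP0 hp)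
    have : (u : ℝ) < p := by linarith
    exact_mod_cast this
  have hbig : ∀ (a : ℤ) (M : ℕ), (((Icc a (a + M)).filter (fun k => 1 < J k)).card : ℝ) ≤
      K * (((M : ℝ) + 1) / u + (1 + Real.log v)) := by
    intro a M
    refine le_trans ?_ (RSFa.window t P u v (by omega) huv hPuv a M)
    have h8 : ((((Icc a (a + M)).filter (fun k => 1 < J k)).card : ℕ) : ℝ) =
        ∑ k ∈ (Icc a (a + M)).filter (fun k => 1 < J k), (1 : ℝ) := by simp
    rw [h8]
    calc ∑ k ∈ (Icc a (a + M)).filter (fun k => 1 < J k), (1 : ℝ)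
        ≤ ∑ k ∈ (Icc a (a + M)).filter (fun k => 1 < J k), J k :=
          sum_le_sum fun k hk => (mem_filter.1 hk).2.le
      _ ≤ ∑ k ∈ Icc a (a + M), J k :=
          sum_le_sum_of_subset_of_nonneg (filter_subset _ _) fun k _ _ => hJ0 k
      _ = _ := rfl
  -- the sets
  obtain ⟨good, hgood⟩ : ∃ good : ℤ → Prop, ∀ k, good k ↔ ((∀ j, k ≠ t j) ∧
      ∀ p : ℕ, AvB A0 S ps y p → p ∉ P → ¬ (p : ℤ) ∣ k) := ⟨_, fun k => Iff.rfl⟩
  set R0 : Finset ℤ := (Icc (0 : ℤ) H).filter (fun k => good k ∧ J k ≤ 1) with hR0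
  set Rw : Fin m → Finset ℤ := fun w => (Icc (N w) (N w + D)).filter (fun k => good k ∧ J k ≤ 1) with hRw
  set R : Finset ℤ := R0 ∪ univ.biUnion Rw with hR
  set B0 : ℝ := H * τ ^ 2 / ((Real.log y) ^ 2 * Real.log τ) with hB0
  set B1 : ℝ := D / Real.log y + y / (Real.log y) ^ 2 with hB1
  have hB0pos : 0 < B0 := by positivity
  have hB1pos : 0 < B1 := by positivity
  set wt : ℤ → ℝ := fun k => (if k ∈ R0 then 1 / B0 else 0) +
    ∑ w : Fin m, (if k ∈ Rw w then 1 / B1 else 0) with hwt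
  have hwt0 : ∀ k, 0 ≤ wt k := by
    intro k
    rw [hwt]
    apply add_nonneg
    · split_ifs <;> positivity
    · apply sum_nonneg
      intro w _
      split_ifs <;> positivity
  obtain ⟨b, hb, hbc⟩ := hGRW P A hAne R wt hwt0

  have hinv1 : ∀ p : ℕ, p.Prime → 1 ≤ (1 - 1 / (p : ℝ))⁻¹ := fun p hp => RSFa.inv_ge_one hp
  set β : ℕ := if ps = 1 then 2 else ps with hβ
  have hβ2 : 2 ≤ β := by
    rw [hβ]; split_ifs with h
    · exact le_rfl
    · rcases hps with h' | h'
      · exact absurd h' h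
      · omega
  have hβp : β.Prime := by
    rw [hβ]; split_ifs with h
    · exact Nat.prime_two
    · rcases hps with h' | h'
      · exact absurd h' h
      · exact h'.1
  set sβ : Finset ℕ := insert β A0.primeFactors with hsβ
  have hsβp : ∀ p ∈ sβ, p.Prime := by
    intro p hp
    rw [hsβ, mem_insert] at hp
    rcases hp with rfl | hp
    · exact hβp
    · exact Nat.prime_of_mem_primeFactors hp
  have hsβprod : ∏ p ∈ sβ, (1 - 1 / (p : ℝ))⁻¹ ≤ 2 * CA := by
    have hβ1 : (1 - 1 / (β : ℝ))⁻¹ ≤ 2 := by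
      have h1 : (2 : ℝ) ≤ β := by exact_mod_cast hβ2
      have h2 : 1 / (β : ℝ) ≤ 1 / 2 := one_div_le_one_div_of_le (by norm_num) h1
      calc (1 - 1 / (β : ℝ))⁻¹ ≤ (1 / 2 : ℝ)⁻¹ := inv_anti₀ (by norm_num) (by linarith)
        _ = 2 := by norm_num
    by_cases hβA : β ∈ A0.primeFactors
    · rw [hsβ, insert_eq_of_mem hβA]
      linarith
    · rw [hsβ, prod_insert hβA]
      gcongr

  have hR0card : (R0.card : ℝ) ≤ 60 * CA * H / Real.log y := by
    set Rn : Finset ℕ := (range (H + 1)).filter (fun k : ℕ => ∀ p : ℕ, p.Prime → p ≤ y → p ∉ S → p ≠ ps →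
      ¬ p ∣ A0 → p ∉ P → ¬ p ∣ k) with hRn
    have hsub : R0 ⊆ Rn.image (fun k : ℕ => (k : ℤ)) := by
      intro k hk
      rw [hR0, mem_filter, mem_Icc] at hk
      obtain ⟨⟨hk0, hkH⟩, hg, _⟩ := hk
      rw [hgood] at hg
      obtain ⟨n, rfl⟩ := Int.eq_ofNat_of_zero_le hk0
      rw [mem_image]
      refine ⟨n, ?_, rfl⟩
      rw [hRn, mem_filter, mem_range]
      refine ⟨by omega, fun p hp hpy hpS hpps hpA hpP hd => hg.2 p ⟨hp, hpy, hpS, hpps, hpA⟩ hpP ?_⟩
      exact_mod_cast hd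
    have hcard : (R0.card : ℝ) ≤ Rn.card := by
      exact_mod_cast (card_le_card hsub).trans card_image_le
    refine hcard.trans ?_
    have hRsub : Rn ⊆ {0} ∪ (((Icc 1 H).filter (fun k => ∃ s ∈ S, s ∣ k)) ∪
        (((Icc 1 H).filter (fun k => ∃ q m : ℕ, q.Prime ∧ y < q ∧ k = q * m ∧
          ∀ p : ℕ, p.Prime → p ∣ m → p ∈ sβ)) ∪
        (((Icc 1 H).filter (fun k => ∃ s ∈ (if v₀ < (ps : ℝ) then {ps} else ∅ : Finset ℕ), s ∣ k)) ∪
        (Finset.Icc 1 H).filter (fun m => ∀ p : ℕ, p.Prime → p ∣ m → Real.log p ≤ V0)))) := by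
      intro k hk
      rw [hRn, mem_filter, mem_range] at hk
      obtain ⟨hkH, hk2⟩ := hk
      rw [mem_union]
      by_cases hk0 : k = 0
      · left
        rw [hk0]
        exact mem_singleton_self _
      right
      have hk1 : 1 ≤ k := by omega
      have hkI : k ∈ Icc 1 H := by rw [mem_Icc]; omega
      simp only [mem_union, mem_filter]
      by_cases hA1 : ∃ s ∈ S, s ∣ k
      · exact Or.inl ⟨hkI, hA1⟩
      right
      push Not at hA1
      have hfac : ∀ q : ℕ, q.Prime → q ∣ k → (q = ps ∨ q ∣ A0 ∨ q ∈ P ∨ y < q) := by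
        intro q hq hd
        by_contra hcon
        push Not at hcon
        have hqS : q ∉ S := fun h => hA1 q h hd
        exact hk2 q hq hcon.2.2.2 hqS hcon.1 hcon.2.1 hcon.2.2.1 hd
      by_cases hB1 : ∃ q : ℕ, q.Prime ∧ q ∣ k ∧ y < q
      · left
        refine ⟨hkI, ?_⟩
        obtain ⟨q, hq, ⟨m, rfl⟩, hyq⟩ := hB1
        have hm0 : m ≠ 0 := by rintro rfl; simp at hk0
        have hmv : (m : ℝ) < v₀ := by
          have h7 : (q : ℝ) * m ≤ H := by exact_mod_cast (by omega : q * m ≤ H)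
          have h8 : (0 : ℝ) < m := by exact_mod_cast Nat.pos_of_ne_zero hm0
          have h10 : (y : ℝ) < q := by exact_mod_cast hyq
          have h9 : (y : ℝ) * m < y * v₀ := by
            calc (y : ℝ) * m < q * m := by gcongr
              _ ≤ H := h7
              _ ≤ _ := hHy
          exact lt_of_mul_lt_mul_left h9 hy0.le
        refine ⟨q, m, hq, hyq, rfl, fun r hr hrd => ?_⟩
        have hrm : (r : ℝ) ≤ m := by exact_mod_cast Nat.le_of_dvd (Nat.pos_of_ne_zero hm0) hrd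
        rw [hsβ, mem_insert, Nat.mem_primeFactors]
        rcases hfac r hr (hrd.mul_left q) with h | h | h | h
        · left
          rw [hβ, h, if_neg]
          intro h1
          rw [h, h1] at hr
          exact Nat.not_prime_one hr
        · exact Or.inr ⟨hr, h, by omega⟩
        · have := hP0v r (hPP0 h); linarith
        · have : (y : ℝ) < r := by exact_mod_cast h
          linarith
      · right
        push Not at hB1
        have hfac' : ∀ q : ℕ, q.Prime → q ∣ k → (q = ps ∨ q ∣ A0 ∨ q ∈ P) := by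
          intro q hq hd
          rcases hfac q hq hd with h | h | h | h
          · exact Or.inl h
          · exact Or.inr (Or.inl h)
          · exact Or.inr (Or.inr h)
          · have := hB1 q hq hd; omega
        have hsmall : ∀ q : ℕ, q.Prime → (q : ℝ) ≤ v₀ → Real.log q ≤ V0 := by
          intro q hq h8
          have hq0 : (0 : ℝ) < q := by exact_mod_cast hq.pos
          calc Real.log q ≤ Real.log v₀ := Real.log_le_log hq0 h8
            _ = 2 * τ := by rw [hv₀e, Real.log_exp]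
            _ ≤ V0 := hV1
        by_cases hC : ps ∣ k ∧ v₀ < (ps : ℝ)
        · left
          exact ⟨hkI, ps, by rw [if_pos hC.2]; simp, hC.1⟩
        · right
          refine ⟨hkI, fun q hq hd => ?_⟩
          rcases hfac' q hq hd with h | h | h
          · subst h
            apply hsmall q hq
            by_contra h9
            exact hC ⟨hd, not_le.1 h9⟩
          · exact hsmall q hq (hAle q h)
          · exact ((hPmem q hq).1 h).2.1
    have hRcard : (Rn.card : ℝ) ≤ 60 * CA * H / Real.log y := by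
      have e1 := mult_count S (fun q hq => (hS q hq).1.pos) H
      have e2 := RSAa.qm_count sβ hsβp y H hy2
      have e2' : 10 * (H : ℝ) / Real.log y * ∏ p ∈ sβ, (1 - 1 / (p : ℝ))⁻¹ ≤
          10 * H / Real.log y * (2 * CA) := by gcongr
      have e3 : (((Icc 1 H).filter (fun k => ∃ s ∈ (if v₀ < (ps : ℝ) then {ps} else ∅ : Finset ℕ), s ∣ k)).card : ℝ)
          ≤ H / v₀ := by
        split_ifs with h
        · have h7 := mult_count {ps} (fun q hq => by
            rw [mem_singleton] at hq; subst hq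
            have : (0 : ℝ) < q := by linarith
            have : 0 < q := by exact_mod_cast this
            omega) H
          rw [sum_singleton] at h7
          calc _ ≤ _ := h7
            _ ≤ H * (1 / v₀) := by gcongr
            _ = _ := by ring
        · have h7 := mult_count ∅ (by simp) H
          rw [sum_empty, mul_zero] at h7
          have : 0 ≤ (H : ℝ) / v₀ := by positivity
          linarith
      have h7 : Rn.card ≤ 1 + (((Icc 1 H).filter (fun k => ∃ s ∈ S, s ∣ k)).card +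
        (((Icc 1 H).filter (fun k => ∃ q m : ℕ, q.Prime ∧ y < q ∧ k = q * m ∧
          ∀ p : ℕ, p.Prime → p ∣ m → p ∈ sβ)).card +
        (((Icc 1 H).filter (fun k => ∃ s ∈ (if v₀ < (ps : ℝ) then {ps} else ∅ : Finset ℕ), s ∣ k)).card +
        ((Finset.Icc 1 H).filter (fun m => ∀ p : ℕ, p.Prime → p ∣ m → Real.log p ≤ V0)).card))) := by
        refine (card_le_card hRsub).trans ((card_union_le _ _).trans ?_)
        rw [card_singleton]
        apply Nat.add_le_add_left
        refine (card_union_le _ _).trans ?_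
        apply Nat.add_le_add_left
        refine (card_union_le _ _).trans ?_
        apply Nat.add_le_add_left
        exact card_union_le _ _
      have h8 : (Rn.card : ℝ) ≤ 1 + ((((Icc 1 H).filter (fun k => ∃ s ∈ S, s ∣ k)).card : ℝ) +
        ((((Icc 1 H).filter (fun k => ∃ q m : ℕ, q.Prime ∧ y < q ∧ k = q * m ∧
          ∀ p : ℕ, p.Prime → p ∣ m → p ∈ sβ)).card : ℝ) +
        ((((Icc 1 H).filter (fun k => ∃ s ∈ (if v₀ < (ps : ℝ) then {ps} else ∅ : Finset ℕ), s ∣ k)).card : ℝ) +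
        (((Finset.Icc 1 H).filter (fun m => ∀ p : ℕ, p.Prime → p ∣ m → Real.log p ≤ V0)).card : ℝ)))) := by
        exact_mod_cast h7
      have h9 : (H : ℝ) * ∑ q ∈ S, (1 : ℝ) / q ≤ H / Real.log y := by
        calc (H : ℝ) * ∑ q ∈ S, (1 : ℝ) / q ≤ H * (12 / (Real.log y) ^ 2) := by gcongr
          _ ≤ H / Real.log y := by
            rw [mul_div_assoc', div_le_div_iff₀ (by positivity) hly]
            exact RSFa.aux_12 hH0 hL100
      have h10 : (H : ℝ) / v₀ ≤ H / Real.log y := by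
        apply div_le_div_of_nonneg_left hH0.le hly
        rw [hv₀]
        exact RSFa.aux_sq hL100
      have h11 : (H : ℝ) / (Real.log y) ^ 3 ≤ H / Real.log y := by
        apply div_le_div_of_nonneg_left hH0.le hly
        exact RSFa.aux_cu hL100
      have h13 : 0 < (H : ℝ) / Real.log y := by positivity
      have h14 : 1 ≤ (H : ℝ) / Real.log y := by
        rw [one_le_div hly]
        have := Real.log_le_self hy0.le
        linarith
      have h15 : (H : ℝ) / Real.log y ≤ CA * (H / Real.log y) := RSFa.aux_CA h13.le hCA1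
      have h12 : 60 * CA * (H : ℝ) / Real.log y = 10 * H / Real.log y * (2 * CA) +
        40 * (CA * (H / Real.log y)) := by ring
      linarith

    exact hRcard
  have hPv : V v = V u * ∏ p ∈ P0, (1 - 1 / (p : ℝ)) := by
    have h7 : Pz v = Pz u ∪ P0 := by
      ext p
      rw [mem_union, mem_Pz, mem_Pz, hP0, mem_filter, mem_Icc, hu, Nat.le_floor_iff hv₀0.le]
      constructor
      · rintro ⟨hp, hpv⟩
        by_cases h : (p : ℝ) ≤ v₀
        · exact Or.inl ⟨hp, h⟩
        · exact Or.inr ⟨⟨hp.pos, hpv⟩, hp, not_le.1 h⟩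
      · rintro (⟨hp, hpu⟩ | ⟨⟨_, hpv⟩, hp, _⟩)
        · refine ⟨hp, ?_⟩
          have : p ≤ u := by rw [hu, Nat.le_floor_iff hv₀0.le]; exact hpu
          omega
        · exact ⟨hp, hpv⟩
    have h8 : Disjoint (Pz u) P0 := by
      rw [Finset.disjoint_left]
      intro p hp hpS
      have h9 := (mem_Pz.1 hp).2
      rw [hu, Nat.le_floor_iff hv₀0.le] at h9
      have := hP0v p hpS
      linarith
    unfold V
    rw [h7, prod_union h8]
  have hP0prod : ∏ p ∈ P0, (1 - 1 / (p : ℝ)) ≤ c₂ / c₁ * 40 * (τ ^ 2 / (Real.log y * Real.log τ)) := by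
    have h7 := (hV v (by omega)).2
    have h8 := (hV u hu2).1
    rw [hPv] at h7
    have hVu := V_pos u
    have h9 : c₁ * (∏ p ∈ P0, (1 - 1 / (p : ℝ))) * (V0 / 2) ≤ c₂ * (2 * τ) := by
      have hnn : 0 ≤ ∏ p ∈ P0, (1 - 1 / (p : ℝ)) :=
        Finset.prod_nonneg fun p hp => (one_sub_inv_pos (hP0p p hp).1).le
      calc c₁ * (∏ p ∈ P0, (1 - 1 / (p : ℝ))) * (V0 / 2)
          ≤ (V u * Real.log u) * (∏ p ∈ P0, (1 - 1 / (p : ℝ))) * Real.log v := by
            gcongr
        _ = (V u * (∏ p ∈ P0, (1 - 1 / (p : ℝ))) * Real.log v) * Real.log u := by ring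
        _ ≤ c₂ * Real.log u := by gcongr
        _ ≤ _ := by gcongr
    have hV0pos : 0 < V0 := by linarith
    have h10 : ∏ p ∈ P0, (1 - 1 / (p : ℝ)) ≤ c₂ * (2 * τ) / (c₁ * (V0 / 2)) := by
      rw [le_div_iff₀ (by positivity)]
      linarith
    refine h10.trans (le_of_eq ?_)
    rw [hV0]
    field_simp
    ring
  have hE0sum : ∑ p ∈ E0, 1 / (p : ℝ) ≤ 1 := by
    have h7 : E0 ⊆ S ∪ (if v₀ < (ps : ℝ) then {ps} else ∅ : Finset ℕ) := by
      intro p hp
      rw [hE0, mem_filter] at hp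
      rw [mem_union]
      rcases hp.2 with h | h
      · exact Or.inl h
      · right
        have := hP0v p hp.1
        rw [h] at this
        rw [if_pos this, h]; simp
    calc ∑ p ∈ E0, 1 / (p : ℝ) ≤ ∑ p ∈ S ∪ (if v₀ < (ps : ℝ) then {ps} else ∅ : Finset ℕ), 1 / (p : ℝ) :=
          sum_le_sum_of_subset_of_nonneg h7 (fun _ _ _ => by positivity)
      _ ≤ ∑ p ∈ S, 1 / (p : ℝ) + ∑ p ∈ (if v₀ < (ps : ℝ) then {ps} else ∅ : Finset ℕ), 1 / (p : ℝ) := by
          rw [← sum_union_inter]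
          have : 0 ≤ ∑ p ∈ S ∩ (if v₀ < (ps : ℝ) then {ps} else ∅ : Finset ℕ), 1 / (p : ℝ) :=
            sum_nonneg fun _ _ => by positivity
          linarith
      _ ≤ 1 / 2 + 1 / 2 := by
          apply add_le_add
          · refine hSsum.trans ?_
            rw [div_le_div_iff₀ (by positivity) (by norm_num)]
            have : v₀ = (Real.log y) ^ 2 := hv₀
            linarith
          · split_ifs with h
            · rw [sum_singleton]
              exact one_div_le_one_div_of_le (by norm_num) (by linarith)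
            · simp
      _ = 1 := by norm_num
  have hexp2 : Real.exp 2 ≤ 8 := RSFa.aux_e2
  have hPprod : ∏ p ∈ P, (1 - 1 / (p : ℝ)) ≤ (∏ p ∈ P0, (1 - 1 / (p : ℝ))) * 8 := by
    have h7 := prod_drop' P0 E0 hP0p (filter_subset _ _) 1 hE0sum
    rw [mul_one] at h7
    refine h7.trans ?_
    have hnn : 0 ≤ ∏ p ∈ P0, (1 - 1 / (p : ℝ)) :=
      Finset.prod_nonneg fun p hp => (one_sub_inv_pos (hP0p p hp).1).le
    gcongr
  have hPnn : 0 ≤ ∏ p ∈ P, (1 - 1 / (p : ℝ)) :=
    Finset.prod_nonneg fun p hp => (one_sub_inv_pos (hP0p p (hPP0 hp)).1).le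

  set κ : ℝ := τ ^ 2 / (Real.log y * Real.log τ) with hκ
  have hκ0 : 0 < κ := by positivity
  have hκ1 : κ ≤ 1 := by
    rw [hκ, div_le_one (by positivity), hLe]
    exact RSFa.aux_kap h3 h2
  have hfac : ∀ k : ℤ, J k ≤ 1 → ∏ p ∈ P.filter (fun p : ℕ => (k % (p : ℤ)).toNat ∈ A p),
      (1 - 1 / ((A p).card : ℝ)) ≤ Fc * κ := by
    intro k hk
    set E : Finset ℕ := P.filter (fun p : ℕ => ¬ (k % (p : ℤ)).toNat ∈ A p) with hE
    have hEsum : ∑ p ∈ E, 1 / (p : ℝ) ≤ 1 := by
      refine le_trans (le_of_eq ?_) hk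
      rw [hJ, hE]
      apply sum_congr _ (fun _ _ => rfl)
      apply filter_congr
      intro p hp
      rw [hAmem p (hP0p p (hPP0 hp)).1.pos k, not_not]
    have h7 : P.filter (fun p : ℕ => (k % (p : ℤ)).toNat ∈ A p) = P \ E := by
      ext p
      have hmE : p ∈ E ↔ (p ∈ P ∧ ¬ (k % (p : ℤ)).toNat ∈ A p) := by rw [hE, mem_filter]
      have hmPE : p ∈ P \ E ↔ (p ∈ P ∧ p ∉ E) := Finset.mem_sdiff
      rw [mem_filter, hmPE, hmE]
      by_cases c1 : p ∈ P <;> by_cases c2 : (k % (p : ℤ)).toNat ∈ A p <;> simp only [c1, c2, true_and,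
        false_and, and_true, not_true, not_false_iff, and_self, and_false]
    have h8 : ∏ p ∈ P.filter (fun p : ℕ => (k % (p : ℤ)).toNat ∈ A p), (1 - 1 / ((A p).card : ℝ)) ≤
        ∏ p ∈ P.filter (fun p : ℕ => (k % (p : ℤ)).toNat ∈ A p), (1 - 1 / (p : ℝ)) := by
      apply Finset.prod_le_prod
      · intro p hp
        have h9 : 1 ≤ (A p).card := card_pos.2 (hAne p (mem_filter.1 hp).1).2.2
        have h10 : (1 : ℝ) ≤ (A p).card := by exact_mod_cast h9
        have : 1 / ((A p).card : ℝ) ≤ 1 := by rw [div_le_one (by linarith)]; exact h10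
        linarith
      · intro p hp
        have h9 : 1 ≤ (A p).card := card_pos.2 (hAne p (mem_filter.1 hp).1).2.2
        have h10 : (1 : ℝ) ≤ (A p).card := by exact_mod_cast h9
        have h11 : (A p).card ≤ p := by
          have := card_le_card (hAne p (mem_filter.1 hp).1).2.1
          rwa [card_range] at this
        have h12 : ((A p).card : ℝ) ≤ p := by exact_mod_cast h11
        have : 1 / (p : ℝ) ≤ 1 / ((A p).card : ℝ) := one_div_le_one_div_of_le (by linarith) h12
        linarith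
    refine h8.trans ?_
    rw [h7]
    have h9 := prod_drop' P E (fun p hp => hP0p p (hPP0 hp)) (filter_subset _ _) 1 hEsum
    rw [mul_one] at h9
    refine h9.trans ?_
    have h10 : ∏ p ∈ P, (1 - 1 / (p : ℝ)) ≤ (c₂ / c₁ * 40 * κ) * 8 :=
      hPprod.trans (mul_le_mul_of_nonneg_right hP0prod (by norm_num))
    calc (∏ p ∈ P, (1 - 1 / (p : ℝ))) * Real.exp 2 ≤ ((c₂ / c₁ * 40 * κ) * 8) * 8 :=
          mul_le_mul h10 hexp2 (Real.exp_pos _).le (by positivity)
      _ = Fc * κ := by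
          rw [hFc]
          ring
  -- the short intervals
  have hRwcard : ∀ w, ((Rw w).card : ℝ) * (Fc * κ) ≤ Fc * (2 + C6) * B1 := by
    intro w
    by_cases hD : (D : ℝ) < y / (Real.log y) ^ 2
    · have h8 : ((Rw w).card : ℝ) ≤ D + 1 := by
        have h9 : (Rw w).card ≤ D + 1 := by
          refine (card_le_card (filter_subset _ _)).trans ?_
          rw [Int.card_Icc]
          omega
        exact_mod_cast h9
      have h9 : (1 : ℝ) ≤ y / (Real.log y) ^ 2 := by
        rw [one_le_div (by positivity)]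
        exact hv₀y
      have h10 : ((Rw w).card : ℝ) ≤ 2 * B1 := by
        rw [hB1]
        have : 0 ≤ (D : ℝ) / Real.log y := by positivity
        linarith
      calc ((Rw w).card : ℝ) * (Fc * κ) ≤ (2 * B1) * (Fc * 1) := by gcongr
        _ ≤ Fc * (2 + C6) * B1 := by
            have := mul_pos (mul_pos hFc0 hC60) hB1pos
            linarith
    · rw [not_lt] at hD
      set z : ℕ := ⌊Real.exp (Real.log y / 8)⌋₊ with hz
      have hze : Real.exp (Real.log y / 8) < z + 1 := Nat.lt_floor_add_one _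
      have hzle : (z : ℝ) ≤ Real.exp (Real.log y / 8) := Nat.floor_le (Real.exp_pos _).le
      have hz2' : (2 : ℝ) ≤ z := by
        have := Real.add_one_le_exp (Real.log y / 8)
        linarith
      have hz2 : 2 ≤ z := by exact_mod_cast hz2'
      have hz4 : z ^ 4 ≤ D := by
        have h8 : ((z : ℝ)) ^ 4 ≤ D := by
          calc ((z : ℝ)) ^ 4 ≤ (Real.exp (Real.log y / 8)) ^ 4 := pow_le_pow_left₀ (by positivity) hzle 4
            _ = Real.exp (Real.log y / 2) := by
                rw [← Real.exp_nat_mul]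
                congr 1
                push_cast
                ring
            _ ≤ y / (Real.log y) ^ 2 := by
                have h9 : (y : ℝ) / (Real.log y) ^ 2 = Real.exp (Real.log y - 2 * τ) := by
                  rw [Real.exp_sub, Real.exp_log hy0, ← hv₀e]
                rw [h9]
                apply Real.exp_le_exp.2
                rw [hLe]
                linarith
            _ ≤ D := hD
        exact_mod_cast h8
      have hlz : Real.log y / 16 ≤ Real.log z := by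
        have h9 : Real.exp (Real.log y / 8) ≤ (z : ℝ) ^ 2 := RSFa.aux_z hz2' hze
        have h10 := Real.log_le_log (Real.exp_pos _) h9
        rw [Real.log_exp, Real.log_pow] at h10
        push_cast at h10
        linarith
      have hzy : z ≤ y := by
        have h8 : (z : ℝ) ≤ y := by
          refine hzle.trans ?_
          rw [← Real.exp_log hy0, Real.log_exp]
          apply Real.exp_le_exp.2
          linarith
        exact_mod_cast h8
      set M : Finset ℕ := (Pz z).filter (fun p => AvB A0 S ps y p ∧ p ∉ P) with hM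
      have h8 := hups (N w) D z hz2 hz4 M (fun p hp => mem_Pz.1 (mem_filter.1 hp).1)
      have h9 : Rw w ⊆ (Icc (N w) (N w + D)).filter (fun k => ∀ p ∈ M, ¬ (p : ℤ) ∣ k) := by
        intro k hk
        rw [hRw] at hk
        simp only [mem_filter] at hk ⊢
        refine ⟨hk.1, fun p hp => ?_⟩
        have h10 := (hgood k).1 hk.2.1
        have h11 := (mem_filter.1 hp).2
        exact h10.2 p h11.1 h11.2
      have h10 : ((Rw w).card : ℝ) ≤ CU * D * ∏ p ∈ M, (1 - 1 / (p : ℝ)) :=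
        le_trans (by exact_mod_cast card_le_card h9) h8
      have hcov : Pz z \ M ⊆ P0 ∪ (A0.primeFactors ∪ (S ∪ {β})) := by
        intro p hp
        rw [mem_sdiff] at hp
        obtain ⟨hp1, hp2⟩ := hp
        have hpp := mem_Pz.1 hp1
        simp only [mem_union, mem_singleton]
        by_cases hpP : p ∈ P
        · exact Or.inl (hPP0 hpP)
        right
        by_cases hpA : p ∣ A0
        · left
          rw [Nat.mem_primeFactors]
          exact ⟨hpp.1, hpA, by omega⟩
        right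
        by_cases hpS : p ∈ S
        · exact Or.inl hpS
        right
        by_cases hpps : p = ps
        · rw [hβ, if_neg]
          · exact hpps
          · intro h1
            rw [hpps, h1] at hpp
            exact Nat.not_prime_one hpp.1
        · exfalso
          apply hp2
          rw [hM, mem_filter]
          exact ⟨hp1, ⟨hpp.1, hpp.2.trans hzy, hpS, hpps, hpA⟩, hpP⟩
      have h11 := RSFa.M_bound z M P0 A0.primeFactors S β (fun p hp => (hP0p p hp).1)
        (fun p hp => Nat.prime_of_mem_primeFactors hp) (fun p hp => (hS p hp).1) hβp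
        (filter_subset _ _) hcov
      rw [← hCA] at h11
      have f1 : V z ≤ 16 * c₂ / Real.log y := by
        rw [le_div_iff₀ hly]
        have h12 := (hV z hz2).2
        have h13 : V z * (Real.log y / 16) ≤ V z * Real.log z :=
          mul_le_mul_of_nonneg_left hlz (V_pos z).le
        linarith
      have f2 : ∏ p ∈ P0, (1 - 1 / (p : ℝ))⁻¹ ≤ c₂ / c₁ / 10 / κ := by
        rw [prod_inv_distrib]
        have hP0pos : 0 < ∏ p ∈ P0, (1 - 1 / (p : ℝ)) := prod_pos fun p hp => one_sub_inv_pos (hP0p p hp).1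
        have h12 := (hV u hu2).2
        have h13 := (hV v (by omega)).1
        rw [hPv] at h13
        have hVu := V_pos u
        have h14 : V u * τ ≤ c₂ := (mul_le_mul_of_nonneg_left hlu1 hVu.le).trans h12
        have h15 : c₁ ≤ (V u * ∏ p ∈ P0, (1 - 1 / (p : ℝ))) * V0 :=
          h13.trans (mul_le_mul_of_nonneg_left hlvV (by positivity))
        have h16 : c₁ * τ ≤ c₂ * (∏ p ∈ P0, (1 - 1 / (p : ℝ))) * V0 := by
          calc c₁ * τ ≤ ((V u * ∏ p ∈ P0, (1 - 1 / (p : ℝ))) * V0) * τ :=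
                mul_le_mul_of_nonneg_right h15 ht0.le
            _ = (V u * τ) * ((∏ p ∈ P0, (1 - 1 / (p : ℝ))) * V0) := by ring
            _ ≤ c₂ * ((∏ p ∈ P0, (1 - 1 / (p : ℝ))) * V0) :=
                mul_le_mul_of_nonneg_right h14 (by positivity)
            _ = _ := by ring
        rw [inv_le_iff_one_le_mul₀ hP0pos]
        have h17 : c₂ / c₁ / 10 / κ = c₂ * V0 / (c₁ * τ) := by
          rw [hκ, hV0]
          field_simp
        rw [h17, div_mul_eq_mul_div, le_div_iff₀ (by positivity)]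
        linarith
      have f3 : ∏ p ∈ S, (1 - 1 / (p : ℝ))⁻¹ ≤ 3 := by
        refine (RSFa.prodinv_sum (fun p hp => (hS p hp).1) hSsum).trans ?_
        have h12 : 2 * (12 / (Real.log y) ^ 2) ≤ 1 := by
          have h13 : 12 / (Real.log y) ^ 2 ≤ 1 / 2 := by
            rw [div_le_div_iff₀ (by positivity) (by norm_num)]
            have : v₀ = (Real.log y) ^ 2 := hv₀
            linarith
          linarith
        calc _ ≤ Real.exp 1 := Real.exp_le_exp.2 h12
          _ ≤ 3 := by have := Real.exp_one_lt_d9; linarith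
      have f4 : (1 - 1 / (β : ℝ))⁻¹ ≤ 2 := by
        have h1 : (2 : ℝ) ≤ β := by exact_mod_cast hβ2
        have h2 : 1 / (β : ℝ) ≤ 1 / 2 := one_div_le_one_div_of_le (by norm_num) h1
        calc (1 - 1 / (β : ℝ))⁻¹ ≤ (1 / 2 : ℝ)⁻¹ := inv_anti₀ (by norm_num) (by linarith)
          _ = 2 := by norm_num
      have g3 : 1 ≤ ∏ p ∈ S, (1 - 1 / (p : ℝ))⁻¹ := RSFa.prodinv_pos fun p hp => (hS p hp).1
      have g4 : 1 ≤ (1 - 1 / (β : ℝ))⁻¹ := RSFa.inv_ge_one hβp
      have g2 : 1 ≤ ∏ p ∈ P0, (1 - 1 / (p : ℝ))⁻¹ := RSFa.prodinv_pos fun p hp => (hP0p p hp).1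
      have h18 : ∏ p ∈ M, (1 - 1 / (p : ℝ)) ≤ (16 * c₂ / Real.log y) * ((c₂ / c₁ / 10 / κ) *
          (CA * (3 * 2))) := by
        refine h11.trans ?_
        apply mul_le_mul f1 _ (by positivity) (by positivity)
        apply mul_le_mul f2 _ (by positivity) (by positivity)
        apply mul_le_mul_of_nonneg_left _ (by linarith)
        exact mul_le_mul f3 f4 (by linarith) (by norm_num)
      calc ((Rw w).card : ℝ) * (Fc * κ)
          ≤ (CU * D * ((16 * c₂ / Real.log y) * ((c₂ / c₁ / 10 / κ) * (CA * (3 * 2))))) * (Fc * κ) := by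
            apply mul_le_mul_of_nonneg_right _ (by positivity)
            exact h10.trans (mul_le_mul_of_nonneg_left h18 (by positivity))
        _ = Fc * C6 * (D / Real.log y) := by
            rw [hC6]
            field_simp
            ring
        _ ≤ Fc * (2 + C6) * B1 := by
            have h19 : (D : ℝ) / Real.log y ≤ B1 := by
              rw [hB1]
              have : 0 ≤ (y : ℝ) / (Real.log y) ^ 2 := by positivity
              linarith
            have h20 : Fc * C6 * (D / Real.log y) ≤ Fc * C6 * B1 :=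
              mul_le_mul_of_nonneg_left h19 (by positivity)
            have h21 := mul_pos hFc0 hB1pos
            linarith
  -- the total weight
  have hR0R : R0 ⊆ R := subset_union_left
  have hRwR : ∀ w, Rw w ⊆ R := fun w => (subset_biUnion_of_mem Rw (mem_univ w)).trans subset_union_right
  have hJR : ∀ k ∈ R, J k ≤ 1 := by
    intro k hk
    rw [hR, mem_union, mem_biUnion] at hk
    rcases hk with hk | ⟨w, _, hk⟩
    · rw [hR0, mem_filter] at hk
      exact hk.2.2
    · rw [hRw] at hk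
      simp only [mem_filter] at hk
      exact hk.2.2
  have htot : ∑ k ∈ R, wt k = R0.card / B0 + ∑ w : Fin m, ((Rw w).card : ℝ) / B1 := by
    rw [hwt]
    simp only
    rw [sum_add_distrib]
    congr 1
    · rw [← sum_filter, filter_mem_eq_inter, inter_eq_right.2 hR0R, sum_const, nsmul_eq_mul, mul_one_div]
    · rw [sum_comm]
      apply sum_congr rfl
      intro w _
      rw [← sum_filter, filter_mem_eq_inter, inter_eq_right.2 (hRwR w), sum_const, nsmul_eq_mul,
        mul_one_div]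
  have hB0κ : B0 = H * κ / Real.log y := by
    rw [hB0, hκ]
    field_simp
  have hsum : ∑ k ∈ R.filter (fun k => ∀ p ∈ P, ¬ k ≡ b p [ZMOD p]), wt k ≤ Ct := by
    refine hbc.trans ?_
    calc ∑ k ∈ R, wt k * ∏ p ∈ P.filter (fun p : ℕ => (k % (p : ℤ)).toNat ∈ A p),
          (1 - 1 / ((A p).card : ℝ))
        ≤ ∑ k ∈ R, wt k * (Fc * κ) := sum_le_sum fun k hk =>
          mul_le_mul_of_nonneg_left (hfac k (hJR k hk)) (hwt0 k)
      _ = (R0.card / B0 + ∑ w : Fin m, ((Rw w).card : ℝ) / B1) * (Fc * κ) := by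
          rw [← sum_mul, htot]
      _ = (R0.card * (Fc * κ)) / B0 + ∑ w : Fin m, (((Rw w).card : ℝ) * (Fc * κ)) / B1 := by
          rw [add_mul, sum_mul]
          congr 1
          · ring
          · apply sum_congr rfl
            intro w _
            ring
      _ ≤ Fc * (60 * CA) + ∑ w : Fin m, Fc * (2 + C6) := by
          apply add_le_add
          · rw [div_le_iff₀ hB0pos, hB0κ]
            calc (R0.card : ℝ) * (Fc * κ) ≤ (60 * CA * H / Real.log y) * (Fc * κ) :=
                  mul_le_mul_of_nonneg_right hR0card (by positivity)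
              _ = _ := by ring
          · apply sum_le_sum
            intro w _
            rw [div_le_iff₀ hB1pos]
            exact hRwcard w
      _ = Ct := by
          rw [hCt, sum_const, card_univ, Fintype.card_fin, nsmul_eq_mul]
          ring
  have hcount : ∀ (T : Finset ℤ) (B : ℝ), 0 < B →
      T ⊆ R.filter (fun k => ∀ p ∈ P, ¬ k ≡ b p [ZMOD p]) → (∀ k ∈ T, 1 / B ≤ wt k) →
      (T.card : ℝ) ≤ Ct * B := by
    intro T B hB hT hw
    have h8 : (T.card : ℝ) * (1 / B) ≤ Ct := by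
      calc (T.card : ℝ) * (1 / B) = ∑ k ∈ T, 1 / B := by rw [sum_const, nsmul_eq_mul]
        _ ≤ ∑ k ∈ T, wt k := sum_le_sum hw
        _ ≤ ∑ k ∈ R.filter (fun k => ∀ p ∈ P, ¬ k ≡ b p [ZMOD p]), wt k :=
            sum_le_sum_of_subset_of_nonneg hT fun k _ _ => hwt0 k
        _ ≤ Ct := hsum
    rw [mul_one_div, div_le_iff₀ hB] at h8
    exact h8
  -- the classes
  refine ⟨fun p => if p ∈ P then b p else 0, ?_, ?_, ?_⟩
  · intro p hp j hj
    by_cases hpP : p ∈ P
    · simp only [hpP, if_true] at hj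
      have h7 := hb p hpP
      have hpp := (hP0p p (hPP0 hpP)).1
      have h8 : b p < p := by
        have := (hAne p hpP).2.1 h7
        rwa [mem_range] at this
      have h9 : (((b p : ℤ)) % (p : ℤ)).toNat = b p := by
        have : ((b p : ℤ)) % (p : ℤ) = b p := Int.emod_eq_of_lt (by positivity) (by exact_mod_cast h8)
        rw [this, Int.toNat_natCast]
      have h10 := (hAmem p hpp.pos (b p : ℤ)).1 (by rw [h9]; exact h7)
      exact h10 ⟨j, hj.symm⟩
    · simp only [hpP, if_false] at hj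
      apply htj j p hp
      have h8 : t j ≡ 0 [ZMOD p] := by exact_mod_cast hj
      exact Int.modEq_zero_iff_dvd.1 h8
  · intro U hU
    have hUsub : U ⊆ (U.filter (fun k => J k ≤ 1)) ∪ ((Icc (0 : ℤ) (0 + H)).filter (fun k => 1 < J k)) := by
      intro k hk
      rw [mem_union, mem_filter, mem_filter, mem_Icc]
      rcases le_or_gt (J k) 1 with h | h
      · exact Or.inl ⟨hk, h⟩
      · have := hU k hk
        exact Or.inr ⟨⟨this.1, by linarith [this.2.1]⟩, h⟩
    have h8 := hcount (U.filter (fun k => J k ≤ 1)) B0 hB0pos (by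
      intro k hk
      rw [mem_filter] at hk
      obtain ⟨hk1, hk2⟩ := hk
      obtain ⟨hk3, hk4, hk5, hk6⟩ := hU k hk1
      rw [mem_filter]
      refine ⟨hR0R ?_, fun p hp h9 => ?_⟩
      · rw [hR0, mem_filter, mem_Icc, hgood]
        refine ⟨⟨hk3, hk4⟩, ⟨hk5, fun p hp hpP hd => ?_⟩, hk2⟩
        have := hk6 p hp
        simp only [hpP, if_false] at this
        apply this
        have h9 : k ≡ 0 [ZMOD p] := Int.modEq_zero_iff_dvd.2 hd
        exact_mod_cast h9
      · have := hk6 p (hPav p hp)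
        simp only [hp, if_true] at this
        exact this h9) (by
      intro k hk
      rw [mem_filter] at hk
      obtain ⟨hk1, hk2⟩ := hk
      obtain ⟨hk3, hk4, hk5, hk6⟩ := hU k hk1
      have h9 : k ∈ R0 := by
        rw [hR0, mem_filter, mem_Icc, hgood]
        refine ⟨⟨hk3, hk4⟩, ⟨hk5, fun p hp hpP hd => ?_⟩, hk2⟩
        have := hk6 p hp
        simp only [hpP, if_false] at this
        apply this
        have h9 : k ≡ 0 [ZMOD p] := Int.modEq_zero_iff_dvd.2 hd
        exact_mod_cast h9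
      rw [hwt]
      simp only [h9, if_true]
      have : 0 ≤ ∑ w : Fin m, (if k ∈ Rw w then 1 / B1 else 0) := by
        apply sum_nonneg
        intro w _
        split_ifs <;> positivity
      linarith)
    have h9 := hbig 0 H
    have h10 : (U.card : ℝ) ≤ ((U.filter (fun k => J k ≤ 1)).card : ℝ) +
        (((Icc (0 : ℤ) (0 + H)).filter (fun k => 1 < J k)).card : ℝ) := by
      exact_mod_cast (card_le_card hUsub).trans (card_union_le _ _)
    have h11 : ((H : ℝ) + 1) / u + (1 + Real.log v) ≤ 5 * B0 := by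
      have h12 : ((H : ℝ) + 1) / u ≤ 4 * (H / (Real.log y) ^ 2) := by
        calc ((H : ℝ) + 1) / u ≤ (2 * H) / (v₀ / 2) := by
              apply div_le_div₀ (by positivity) _ (by positivity) huge
              linarith
          _ = _ := by
              rw [hv₀]
              field_simp
              ring
      have h13 : 1 + Real.log v ≤ H / (Real.log y) ^ 2 := by
        have h14 : 1 + Real.log v ≤ (Real.log y) ^ 2 := (RSFa.aux_v hL100 (hlvV.trans hV1le)).1
        refine h14.trans ?_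
        rw [le_div_iff₀ (by positivity)]
        have : (Real.log y) ^ 2 * (Real.log y) ^ 2 = (Real.log y) ^ 4 := by ring
        rw [this]
        linarith
      have h14 : (H : ℝ) / (Real.log y) ^ 2 ≤ B0 := by
        rw [hB0, div_le_div_iff₀ (by positivity) (by positivity)]
        have h15 : Real.log τ ≤ τ ^ 2 := RSFa.aux_t h1 h5
        have h16 : 0 < (H : ℝ) * (Real.log y) ^ 2 := by positivity
        exact RSFa.aux_B h15 h16.le
      linarith
    have h12 : (K : ℝ) * (((H : ℝ) + 1) / u + (1 + Real.log v)) ≤ K * (5 * B0) :=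
      mul_le_mul_of_nonneg_left h11 (Nat.cast_nonneg _)
    have h13 : (Ct + 5 * K + 1) * H * τ ^ 2 / ((Real.log y) ^ 2 * Real.log τ) = (Ct + 5 * K + 1) * B0 := by
      rw [hB0]
      ring
    rw [h13]
    linarith
  · intro w U hU
    have hUsub : U ⊆ (U.filter (fun k => J k ≤ 1)) ∪
        ((Icc (N w) (N w + D)).filter (fun k => 1 < J k)) := by
      intro k hk
      rw [mem_union, mem_filter, mem_filter, mem_Icc]
      rcases le_or_gt (J k) 1 with h | h
      · exact Or.inl ⟨hk, h⟩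
      · have := hU k hk
        exact Or.inr ⟨⟨this.1, this.2.1⟩, h⟩
    have hmem : ∀ k ∈ U.filter (fun k => J k ≤ 1), k ∈ Rw w := by
      intro k hk
      rw [mem_filter] at hk
      obtain ⟨hk1, hk2⟩ := hk
      obtain ⟨hk3, hk4, hk5, hk6⟩ := hU k hk1
      rw [hRw]
      simp only [mem_filter, mem_Icc]
      rw [hgood]
      refine ⟨⟨hk3, hk4⟩, ⟨hk5, fun p hp hpP hd => ?_⟩, hk2⟩
      have := hk6 p hp
      simp only [hpP, if_false] at this
      apply this
      have h9 : k ≡ 0 [ZMOD p] := Int.modEq_zero_iff_dvd.2 hd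
      exact_mod_cast h9
    have h8 := hcount (U.filter (fun k => J k ≤ 1)) B1 hB1pos (by
      intro k hk
      have h9 := hmem k hk
      rw [mem_filter] at hk
      obtain ⟨hk1, hk2⟩ := hk
      obtain ⟨hk3, hk4, hk5, hk6⟩ := hU k hk1
      rw [mem_filter]
      refine ⟨hRwR w h9, fun p hp h9 => ?_⟩
      have := hk6 p (hPav p hp)
      simp only [hp, if_true] at this
      exact this h9) (by
      intro k hk
      have h9 := hmem k hk
      rw [hwt]
      simp only
      have h10 : (if k ∈ Rw w then 1 / B1 else 0) ≤ ∑ w : Fin m, (if k ∈ Rw w then 1 / B1 else 0) := by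
        apply single_le_sum (f := fun w => if k ∈ Rw w then 1 / B1 else 0) _ (mem_univ w)
        intro w' _
        show (0 : ℝ) ≤ if k ∈ Rw w' then 1 / B1 else 0
        split_ifs <;> positivity
      rw [if_pos h9] at h10
      have h11 : 0 ≤ (if k ∈ R0 then 1 / B0 else 0) := by
        split_ifs <;> positivity
      linarith)
    have h9 := hbig (N w) D
    have h10 : (U.card : ℝ) ≤ ((U.filter (fun k => J k ≤ 1)).card : ℝ) +
        (((Icc (N w) (N w + D)).filter (fun k => 1 < J k)).card : ℝ) := by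
      exact_mod_cast (card_le_card hUsub).trans (card_union_le _ _)
    have h11 : ((D : ℝ) + 1) / u + (1 + Real.log v) ≤ 5 * B1 := by
      have h12 : ((D : ℝ) + 1) / u ≤ 2 * (D / Real.log y) + 2 := by
        have hD0 : (0 : ℝ) ≤ D := Nat.cast_nonneg D
        calc ((D : ℝ) + 1) / u ≤ (D + 1) / (v₀ / 2) := by
              apply div_le_div_of_nonneg_left (by positivity) (by positivity) huge
          _ = 2 * (D / (Real.log y) ^ 2) + 2 / (Real.log y) ^ 2 := by
              rw [hv₀]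
              field_simp
          _ ≤ 2 * (D / Real.log y) + 2 := by
              apply add_le_add
              · apply mul_le_mul_of_nonneg_left _ (by norm_num)
                apply div_le_div_of_nonneg_left hD0 hly
                exact RSFa.aux_sq hL100
              · rw [div_le_iff₀ (by positivity)]
                exact RSFa.aux_2 hL100
      have h13 : 3 + Real.log v ≤ y / (Real.log y) ^ 2 := by
        have h14 : 3 + Real.log v ≤ (Real.log y) ^ 2 := (RSFa.aux_v hL100 (hlvV.trans hV1le)).2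
        refine h14.trans ?_
        rw [le_div_iff₀ (by positivity)]
        have : (Real.log y) ^ 2 * (Real.log y) ^ 2 = (Real.log y) ^ 4 := by ring
        rw [this]
        linarith
      have h14 : 0 ≤ (D : ℝ) / Real.log y := by positivity
      have h15 : 0 ≤ (y : ℝ) / (Real.log y) ^ 2 := by positivity
      rw [hB1]
      linarith
    have h12 : (K : ℝ) * (((D : ℝ) + 1) / u + (1 + Real.log v)) ≤ K * (5 * B1) :=
      mul_le_mul_of_nonneg_left h11 (Nat.cast_nonneg _)
    linarith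

end Pool.Agent.Q117.LF
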