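import Pool.Agent.Q117.LF.Stm3
import Pool.Agent.Q117.LF.Cova

/-!
Project LF (helper117), job SHF (helper66): a translate of a finite set of integers without small prime
factors and with few prime factors up to `y`.
-/

set_option autoImplicit false
set_option maxHeartbeats 4000000

namespace Pool.Agent.Q117.LF

open Finset Filter
open Pool.Agent.Q253.Thin (SysZ VZ_low int_lower IS)
open Pool.Agent.Y843.HS (Pr VV Pr_mem Pr_prime)

namespace ShfP

open Classical in
/-- the classes to be avoided, none for the primes that divide `A0` -/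
noncomputable def cl (A0 : ℕ) (E : Finset ℤ) (p : ℕ) : Finset ℕ :=
  if p ∣ A0 then ∅ else (range p).filter (fun c : ℕ => ∃ e ∈ E, (p : ℤ) ∣ c + e)

lemma not_mem_cl {A0 : ℕ} {E : Finset ℤ} {p n : ℕ} (hp : 0 < p) (hA : ¬ p ∣ A0) :
    n % p ∉ cl A0 E p ↔ ∀ e ∈ E, ¬ (p : ℤ) ∣ n + e := by
  unfold cl
  rw [if_neg hA, mem_filter, mem_range]
  have h1 : (p : ℤ) ∣ (n : ℤ) - ((n % p : ℕ) : ℤ) := by
    rw [Int.natCast_mod]
    exact Int.dvd_self_sub_emod
  have h2 : ∀ e : ℤ, (p : ℤ) ∣ ((n % p : ℕ) : ℤ) + e ↔ (p : ℤ) ∣ n + e := by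
    intro e
    have h3 : (n : ℤ) + e = ((n : ℤ) - ((n % p : ℕ) : ℤ)) + (((n % p : ℕ) : ℤ) + e) := by ring
    rw [h3]
    exact ((dvd_add_right h1)).symm
  constructor
  · intro h e he hd
    exact h ⟨Nat.mod_lt _ hp, e, he, (h2 e).2 hd⟩
  · rintro h ⟨_, e, he, hd⟩
    exact h e he ((h2 e).1 hd)

lemma cl_sys {k A0 : ℕ} {E : Finset ℤ} (hc : E.card ≤ k) (ha : AdmE A0 E) : SysZ k (cl A0 E) where
  card := by
    intro p hp
    unfold cl
    split_ifs with h
    · simp
    · have hsub : (range p).filter (fun c : ℕ => ∃ e ∈ E, (p : ℤ) ∣ c + e) ⊆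
          E.image (fun e : ℤ => ((-e) % (p : ℤ)).toNat) := by
        intro c hc
        rw [mem_filter, mem_range] at hc
        obtain ⟨hcp, e, he, hd⟩ := hc
        rw [mem_image]
        refine ⟨e, he, ?_⟩
        have h2 : (-e) % (p : ℤ) = (c : ℤ) := by
          have h3 : ((c : ℤ)) % (p : ℤ) = (-e) % (p : ℤ) := by
            apply Int.emod_eq_emod_iff_emod_sub_eq_zero.2
            apply Int.emod_eq_zero_of_dvd
            rwa [sub_neg_eq_add]
          rw [← h3]
          exact Int.emod_eq_of_lt (by positivity) (by exact_mod_cast hcp)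
        rw [h2]
        simp
      exact ((card_le_card hsub).trans card_image_le).trans hc
  loc := by
    intro p hp
    by_cases h : p ∣ A0
    · unfold cl
      rw [if_pos h]
      simpa using hp.pos
    obtain ⟨r, hr⟩ := ha p hp h
    have hpz : (0 : ℤ) < p := by exact_mod_cast hp.pos
    have hr0 : 0 ≤ r % (p : ℤ) := Int.emod_nonneg _ hpz.ne'
    have hr1 : r % (p : ℤ) < p := Int.emod_lt_of_pos _ hpz
    obtain ⟨m, hm⟩ : ∃ m : ℕ, (m : ℤ) = r % (p : ℤ) := ⟨(r % (p : ℤ)).toNat, Int.toNat_of_nonneg hr0⟩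
    have hmp : m < p := by
      have : (m : ℤ) < p := by rw [hm]; exact hr1
      exact_mod_cast this
    have hsub : cl A0 E p ⊆ range p := by
      unfold cl
      rw [if_neg h]
      exact filter_subset _ _
    have hnot : m ∉ cl A0 E p := by
      have h1 := (not_mem_cl (A0 := A0) (E := E) (n := m) hp.pos h).2 (by
        intro e he hd
        apply hr e he
        have h2 : (p : ℤ) ∣ r - (m : ℤ) := by
          rw [hm]
          exact Int.dvd_self_sub_emod
        have h3 : r + e = (r - (m : ℤ)) + ((m : ℤ) + e) := by ring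
        rw [h3]
        exact dvd_add h2 hd)
      rwa [Nat.mod_eq_of_lt hmp] at h1
    have h1 : cl A0 E p ⊂ range p :=
      (Finset.ssubset_iff_of_subset hsub).2 ⟨m, mem_range.2 hmp, hnot⟩
    have := card_lt_card h1
    rwa [card_range] at this
  lt := by
    intro p hp c hc
    unfold cl at hc
    split_ifs at hc with h
    · simp at hc
    · exact mem_range.1 (mem_filter.1 hc).1

/-- the number of the multiples in a window -/
lemma card_dvd_le (L p : ℕ) (hp : 0 < p) (e : ℤ) :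
    (((Ioc 0 L).filter (fun n : ℕ => (p : ℤ) ∣ n + e)).card : ℝ) ≤ L / p + 1 := by
  have h1 : ((Ioc 0 L).filter (fun n : ℕ => (p : ℤ) ∣ n + e)).card ≤
      ((Ioc (0 : ℤ) L).filter (fun x : ℤ => x ≡ -e [ZMOD p])).card := by
    apply card_le_card_of_injOn (fun n : ℕ => (n : ℤ))
    · intro n hn
      have hn' := mem_filter.1 (mem_coe.1 hn)
      rw [mem_Ioc] at hn'
      apply mem_coe.2
      rw [mem_filter, mem_Ioc]
      refine ⟨⟨Int.natCast_pos.2 hn'.1.1, Int.ofNat_le.2 hn'.1.2⟩, ?_⟩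
      apply Int.ModEq.symm
      rw [Int.modEq_iff_dvd]
      simpa using hn'.2
    · intro a _ b _ h
      exact Int.ofNat_inj.1 h
  have hpz : (0 : ℤ) < p := by exact_mod_cast hp
  have h2 := Int.Ioc_filter_modEq_card (0 : ℤ) (L : ℤ) hpz (-e)
  obtain ⟨A, hA⟩ : ∃ A : ℤ, A = ⌊(((L : ℤ) : ℚ) - ((-e : ℤ) : ℚ)) / ((p : ℤ) : ℚ)⌋ := ⟨_, rfl⟩
  obtain ⟨B, hB⟩ : ∃ B : ℤ, B = ⌊(((0 : ℤ) : ℚ) - ((-e : ℤ) : ℚ)) / ((p : ℤ) : ℚ)⌋ := ⟨_, rfl⟩
  rw [← hA, ← hB] at h2
  have h4 : (A : ℚ) ≤ (((L : ℤ) : ℚ) - ((-e : ℤ) : ℚ)) / ((p : ℤ) : ℚ) := by rw [hA]; exact Int.floor_le _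
  have h5 : (((0 : ℤ) : ℚ) - ((-e : ℤ) : ℚ)) / ((p : ℤ) : ℚ) < (B : ℚ) + 1 := by
    rw [hB]; exact Int.lt_floor_add_one _
  have h6 : (((A - B : ℤ)) : ℚ) ≤ (L : ℚ) / p + 1 := by
    push_cast at h4 h5 ⊢
    have h7 : ((L : ℚ) - -(e : ℚ)) / (p : ℚ) = (L : ℚ) / p + (0 - -(e : ℚ)) / p := by ring
    linarith
  have h8 : (((A - B : ℤ)) : ℝ) ≤ (L : ℝ) / p + 1 := by
    have h9 : ((((A - B : ℤ)) : ℚ) : ℝ) ≤ (((L : ℚ) / p + 1 : ℚ) : ℝ) := by exact_mod_cast h6
    push_cast at h9 ⊢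
    exact h9
  have h3 : ((((Ioc (0 : ℤ) L).filter (fun x : ℤ => x ≡ -e [ZMOD p])).card : ℤ) : ℝ) ≤ L / p + 1 := by
    rw [h2]
    have hpr : (0 : ℝ) < p := by exact_mod_cast hp
    rcases le_total (A - B) 0 with h | h
    · rw [max_eq_right h]
      push_cast
      positivity
    · rw [max_eq_left h]
      exact h8
  calc (((Ioc 0 L).filter (fun n : ℕ => (p : ℤ) ∣ n + e)).card : ℝ)
      ≤ ((((Ioc (0 : ℤ) L).filter (fun x : ℤ => x ≡ -e [ZMOD p])).card : ℤ) : ℝ) := by exact_mod_cast h1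
    _ ≤ L / p + 1 := h3

/-- the harmonic sum over primes, trivially bounded -/
lemma sum_inv_le (L : ℕ) (hL : 1 ≤ L) (P : Finset ℕ) (hP : P ⊆ Icc 1 L) :
    ∑ p ∈ P, ((L : ℝ) / p + 1) ≤ L * (Real.log L + 2) := by
  have h1 : ∑ p ∈ P, ((L : ℝ) / p + 1) ≤ ∑ p ∈ Icc 1 L, ((L : ℝ) / p + 1) :=
    sum_le_sum_of_subset_of_nonneg hP (fun i _ _ => by positivity)
  have h2 : ∑ p ∈ Icc 1 L, (1 : ℝ) / p ≤ 1 + Real.log L := by
    have h3 := harmonic_le_one_add_log L
    rw [harmonic_eq_sum_Icc] at h3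
    push_cast at h3
    simpa [one_div] using h3
  have h4 : ∑ p ∈ Icc 1 L, ((L : ℝ) / p + 1) = L * ∑ p ∈ Icc 1 L, (1 : ℝ) / p + L := by
    rw [sum_add_distrib, mul_sum]
    congr 1
    · exact sum_congr rfl (fun p _ => by ring)
    · simp
  rw [h4] at h1
  have hL0 : (0 : ℝ) ≤ L := by positivity
  nlinarith

end ShfP

open ShfP in
/-- **SHF** -/
theorem shf : St_SHF := by
  classical
  intro k A0 hk hA0
  obtain ⟨t, ht, c, hc, G⟩ := int_lower k hk
  obtain ⟨X₀, H1⟩ := G 1 one_pos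
  obtain ⟨cV, hcV, hV⟩ := VZ_low k hk
  have hkr : (0 : ℝ) < k := by exact_mod_cast hk
  obtain ⟨M, hM⟩ : ∃ M : ℝ, M = 3 * k / (c * cV) + 1 := ⟨_, rfl⟩
  have hM1 : 1 ≤ M := by rw [hM]; have : 0 < 3 * k / (c * cV) := by positivity
                         linarith
  refine ⟨t, ht, max X₀ (⌈Real.exp M⌉₊ + 2), ?_⟩
  intro L hL y hy E hE hadm
  have hL2 : 2 ≤ L := by have := (le_max_right _ _).trans hL; omega
  have hLM : M ≤ Real.log L := by
    have h1 : ⌈Real.exp M⌉₊ ≤ L := by have := (le_max_right _ _).trans hL; omega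
    have h2 : Real.exp M ≤ L := (Nat.le_ceil _).trans (by exact_mod_cast h1)
    have h3 := Real.log_le_log (Real.exp_pos _) h2
    rwa [Real.log_exp] at h3
  have sys := cl_sys hE hadm
  have h1 := H1 L ((le_max_left _ _).trans hL) (cl A0 E) sys 0 L (by simp)
  have h2 := hV L hL2 (cl A0 E) sys
  have hlL : 0 < Real.log L := by linarith
  have hlL1 : 1 ≤ Real.log L := by linarith
  have hL0 : (0 : ℝ) < L := by exact_mod_cast (by omega : 0 < L)
  obtain ⟨I, hI⟩ : ∃ I, I = IS t L 0 L (cl A0 E) := ⟨_, rfl⟩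
  rw [← hI] at h1
  have h3 : c * cV * L / Real.log L ^ k ≤ (I.card : ℝ) := by
    refine le_trans ?_ h1
    push_cast
    rw [sub_zero]
    have : c * cV * L / Real.log L ^ k = c * (L * (cV / Real.log L ^ k)) := by ring
    rw [this]
    gcongr
  -- the primes
  obtain ⟨P, hPd⟩ : ∃ P : Finset ℕ, P = (range (y + 1)).filter (fun p : ℕ => p.Prime ∧ ¬ p ∣ A0) := ⟨_, rfl⟩
  have hPI : P ⊆ Icc 1 L := by
    intro p hp
    rw [hPd, mem_filter, mem_range] at hp
    rw [mem_Icc]
    exact ⟨hp.2.1.pos, by omega⟩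
  have hPp : ∀ p ∈ P, p.Prime := by
    intro p hp
    rw [hPd, mem_filter] at hp
    exact hp.2.1
  obtain ⟨cnt, hcnt⟩ : ∃ cnt : ℕ → ℕ, cnt = fun n : ℕ => ((range (y + 1)).filter (fun p : ℕ => p.Prime ∧ ¬ p ∣ A0 ∧ ∃ e ∈ E, (p : ℤ) ∣ n + e)).card := ⟨_, rfl⟩
  have hsum : ∑ n ∈ I, (cnt n : ℝ) ≤ k * (L * (Real.log L + 2)) := by
    have ha : ∀ n : ℕ, (cnt n : ℝ) ≤ ∑ p ∈ P, ∑ e ∈ E, (if (p : ℤ) ∣ n + e then (1 : ℝ) else 0) := by
      intro n
      have hb : (range (y + 1)).filter (fun p : ℕ => p.Prime ∧ ¬ p ∣ A0 ∧ ∃ e ∈ E, (p : ℤ) ∣ n + e) =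
          P.filter (fun p : ℕ => ∃ e ∈ E, (p : ℤ) ∣ n + e) := by
        rw [hPd, filter_filter]
        apply filter_congr
        intro p _
        tauto
      rw [hcnt]
      simp only
      rw [hb, card_filter]
      push_cast
      apply sum_le_sum
      intro p _
      split_ifs with h
      · obtain ⟨e, he, hd⟩ := h
        have h5 : (if (p : ℤ) ∣ n + e then (1 : ℝ) else 0) ≤ ∑ e ∈ E, (if (p : ℤ) ∣ n + e then (1 : ℝ) else 0) :=
          single_le_sum (f := fun e : ℤ => (if (p : ℤ) ∣ n + e then (1 : ℝ) else 0))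
            (fun i _ => by split_ifs <;> norm_num) he
        rw [if_pos hd] at h5
        exact h5
      · exact sum_nonneg (fun i _ => by split_ifs <;> norm_num)
    calc ∑ n ∈ I, (cnt n : ℝ) ≤ ∑ n ∈ I, ∑ p ∈ P, ∑ e ∈ E, (if (p : ℤ) ∣ n + e then (1 : ℝ) else 0) :=
          sum_le_sum (fun n _ => ha n)
      _ ≤ ∑ n ∈ Ioc 0 L, ∑ p ∈ P, ∑ e ∈ E, (if (p : ℤ) ∣ n + e then (1 : ℝ) else 0) := by
          apply sum_le_sum_of_subset_of_nonneg
          · rw [hI]
            exact filter_subset _ _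
          · intro n _ _
            exact sum_nonneg (fun p _ => sum_nonneg (fun e _ => by split_ifs <;> norm_num))
      _ = ∑ p ∈ P, ∑ e ∈ E, ∑ n ∈ Ioc 0 L, (if (p : ℤ) ∣ n + e then (1 : ℝ) else 0) := by
          rw [sum_comm]
          apply sum_congr rfl
          intro p _
          exact sum_comm
      _ ≤ ∑ p ∈ P, ∑ e ∈ E, ((L : ℝ) / p + 1) := by
          apply sum_le_sum
          intro p hp
          apply sum_le_sum
          intro e _
          have h5 := card_dvd_le L p (hPp p hp).pos e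
          rw [card_filter] at h5
          push_cast at h5
          exact h5
      _ = ∑ p ∈ P, (E.card : ℝ) * ((L : ℝ) / p + 1) := by
          apply sum_congr rfl
          intro p _
          rw [sum_const, nsmul_eq_mul]
      _ = (E.card : ℝ) * ∑ p ∈ P, ((L : ℝ) / p + 1) := by rw [mul_sum]
      _ ≤ k * (L * (Real.log L + 2)) := by
          apply mul_le_mul
          · exact_mod_cast hE
          · exact sum_inv_le L (by omega) P hPI
          · exact sum_nonneg (fun p _ => by positivity)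
          · positivity
  -- one good translate
  have hex : ∃ n ∈ I, (cnt n : ℝ) ≤ Real.log L ^ (2 * k + 4) := by
    by_contra hcon
    push Not at hcon
    have h5 : (I.card : ℝ) * Real.log L ^ (2 * k + 4) ≤ ∑ n ∈ I, (cnt n : ℝ) := by
      have := card_nsmul_le_sum I (fun n => (cnt n : ℝ)) (Real.log L ^ (2 * k + 4)) (fun n hn => (hcon n hn).le)
      rwa [nsmul_eq_mul] at this
    have h6 : c * cV * L / Real.log L ^ k * Real.log L ^ (2 * k + 4) ≤ k * (L * (Real.log L + 2)) :=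
      (mul_le_mul_of_nonneg_right h3 (by positivity)).trans (h5.trans hsum)
    have h7 : c * cV * L / Real.log L ^ k * Real.log L ^ (2 * k + 4) = c * cV * L * Real.log L ^ (k + 4) := by
      have : Real.log L ^ (2 * k + 4) = Real.log L ^ k * Real.log L ^ (k + 4) := by
        rw [← pow_add]
        congr 1
        ring
      rw [this]
      field_simp
    rw [h7] at h6
    have h8 : k * (L * (Real.log L + 2)) ≤ 3 * k * L * Real.log L := by
      have : Real.log L + 2 ≤ 3 * Real.log L := by linarith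
      calc k * (L * (Real.log L + 2)) ≤ k * (L * (3 * Real.log L)) := by gcongr
        _ = 3 * k * L * Real.log L := by ring
    have h9 : Real.log L * Real.log L ≤ Real.log L ^ (k + 4) := by
      have : Real.log L ^ 2 ≤ Real.log L ^ (k + 4) := pow_le_pow_right₀ hlL1 (by omega)
      rwa [pow_two] at this
    have h10 : 3 * k < c * cV * Real.log L := by
      have h11 : 3 * k / (c * cV) < Real.log L := by linarith
      rw [div_lt_iff₀ (by positivity)] at h11
      linarith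
    have h12 : 3 * k * L * Real.log L < c * cV * L * Real.log L ^ (k + 4) := by
      calc 3 * k * L * Real.log L = (3 * k) * (L * Real.log L) := by ring
        _ < (c * cV * Real.log L) * (L * Real.log L) := by
            apply mul_lt_mul_of_pos_right h10
            positivity
        _ = c * cV * L * (Real.log L * Real.log L) := by ring
        _ ≤ c * cV * L * Real.log L ^ (k + 4) := by gcongr
    linarith
  obtain ⟨n, hn, hn2⟩ := hex
  rw [hI] at hn
  unfold IS at hn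
  rw [mem_filter, mem_Ioc] at hn
  refine ⟨n, hn.1.1, hn.1.2, ?_, ?_⟩
  · intro e he p hp hpA hpL
    have h5 := hn.2 p hp hpL
    exact (not_mem_cl hp.pos hpA).1 h5 e he
  · rw [hcnt] at hn2
    exact hn2

end Pool.Agent.Q117.LF
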