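import Pool.Agent.Q117.LF.Stm3

/-!
# Project LF, job UNQ (helper53): every class of every divisor
-/

set_option autoImplicit false

namespace Pool.Agent.Q117.LF

open Finset Filter
open Pool.Agent.Q117.CR (WX WX_size WX_pos prime_dvd_WX yy_scale)
open Pool.Agent.H378R2 (GoodS GoodP WW)

namespace UNQJ

/-- the classes modulo `W` in a class modulo `q` -/
theorem sum_le (t K : ℕ) (X : ℝ) {k : ℕ} (al : Fin k → ℕ) (be : Fin k → ℤ) (i j : Fin k)
    (W q u : ℕ) (hqW : q ∣ W) (G : Finset ℕ) (hG : ∀ n₀ ∈ G, n₀ < W ∧ n₀ ≡ u [MOD q]) :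
    ∑ n₀ ∈ G, (PtsK t K X al be i j W n₀).card ≤ (PtsK t K X al be i j q u).card := by
  classical
  rw [← Finset.card_biUnion]
  · apply Finset.card_le_card
    intro n hn
    rw [Finset.mem_biUnion] at hn
    obtain ⟨n₀, h0, h1⟩ := hn
    unfold PtsK at h1 ⊢
    rw [Finset.mem_filter] at h1 ⊢
    obtain ⟨h1, h2, h3, h4, h5⟩ := h1
    exact ⟨h1, h2, h3, (h4.of_dvd hqW).trans (hG n₀ h0).2, h5⟩
  · intro a ha b hb hab
    rw [Function.onFun, Finset.disjoint_left]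
    intro n hn hn'
    unfold PtsK at hn hn'
    rw [Finset.mem_filter] at hn hn'
    have h1 := hn.2.2.2.1
    have h2 := hn'.2.2.2.1
    exact hab ((h1.symm.trans h2).eq_of_lt_of_lt (hG a ha).1 (hG b hb).1)

theorem WX_squarefree (X : ℝ) (S : Finset ℕ) (ps : ℕ) : Squarefree (WX X S ps) := by
  unfold WX
  exact Pool.Agent.H378R2.LSBV.WW_squarefree _ _ _

theorem Sk_bounds (a b K : ℕ) (ha : 1 ≤ a) (hb : 1 ≤ b) (hK : 1 ≤ K) (X : ℝ) (hX : 1 ≤ X)
    (hX2 : (8 * (a * b * K) : ℝ) ≤ X) : X ≤ (Sk a b K X : ℝ) ∧ (Sk a b K X : ℝ) ≤ X ^ 2 := by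
  have h1 : X ≤ (⌈X⌉₊ : ℝ) := Nat.le_ceil X
  have h2 : (⌈X⌉₊ : ℝ) < X + 1 := Nat.ceil_lt_add_one (by linarith)
  have h3 : (1 : ℝ) ≤ a * b * K := by
    have : 1 ≤ a * b * K := Nat.mul_pos (Nat.mul_pos ha hb) hK
    exact_mod_cast this
  have h4 : (Sk a b K X : ℝ) = 4 * (a * b * K) * ⌈X⌉₊ := by
    unfold Sk
    push_cast
    ring
  rw [h4]
  constructor
  · nlinarith
  · nlinarith

end UNQJ

theorem unq : St_UNQ := by
  intro hCRC hL k a b K ha hb hK
  obtain ⟨t, ht, c, hc, X1, h1⟩ := hL k a b K ha hb hK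
  obtain ⟨X2, h2⟩ := WX_size
  refine ⟨t, ht, c, hc, max (max X1 X2) (max 3 (8 * (a * b * K))), ?_⟩
  intro X hX al be i j hij hi hj hal hbe hpos hdet hadm
  have hX1 : X1 ≤ X := (le_max_left _ _).trans ((le_max_left _ _).trans hX)
  have hX2 : X2 ≤ X := (le_max_right _ _).trans ((le_max_left _ _).trans hX)
  have hX3 : 3 ≤ X := (le_max_left _ _).trans ((le_max_right _ _).trans hX)
  have hX4 : (8 * (a * b * K) : ℝ) ≤ X := (le_max_right _ _).trans ((le_max_right _ _).trans hX)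
  have hX0 : 0 < X := by linarith
  obtain ⟨s1, s2⟩ := UNQJ.Sk_bounds a b K ha hb hK X (by linarith) hX4
  obtain ⟨S, ps, hps, hS, hmain⟩ := h1 X hX1 al be i j hij hi hj hal hbe hpos hdet hadm
  obtain ⟨-, -, hsize⟩ := h2 (Sk a b K X : ℝ) (hX2.trans s1) S ps hS
  have hlog : 1 ≤ Real.log X := by
    rw [Real.le_log_iff_exp_le hX0]
    linarith [Real.exp_one_lt_d9]
  have hprime : ∀ p : ℕ, p.Prime → p ∣ WX (Sk a b K X) S ps → (p : ℝ) ≤ Real.log X := by
    intro p hp hpW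
    have h3 := ((prime_dvd_WX hp).1 hpW).1
    rw [yy_scale (by linarith)] at h3
    have h4 : (p : ℝ) ≤ Real.log (Sk a b K X) / 100000 := by
      refine le_trans (by exact_mod_cast h3) (Nat.floor_le ?_)
      have : 0 ≤ Real.log (Sk a b K X) := Real.log_nonneg (by linarith)
      positivity
    have h5 : Real.log (Sk a b K X) ≤ 2 * Real.log X := by
      have := Real.log_le_log (by linarith) s2
      rw [Real.log_pow] at this
      exact_mod_cast this
    linarith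
  have hWpos : 0 < WX (Sk a b K X) S ps := WX_pos _ _ _
  refine ⟨WX (Sk a b K X) S ps, UNQJ.WX_squarefree _ _ _, ?_, hprime, ?_⟩
  · refine le_trans ?_ hsize
    exact Real.rpow_le_rpow hX0.le s1 (by norm_num)
  intro q hq u hu
  set W := WX (Sk a b K X) S ps with hW
  classical
  set G := (range W).filter (fun n₀ => n₀ ≡ u [MOD q] ∧
    ∀ p : ℕ, p.Prime → p ∣ W → ∀ l, ¬ (p : ℤ) ∣ fm al be l n₀) with hG
  have hGmem : ∀ n₀, n₀ ∈ G ↔ n₀ < W ∧ n₀ ≡ u [MOD q] ∧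
      ∀ p : ℕ, p.Prime → p ∣ W → ∀ l, ¬ (p : ℤ) ∣ fm al be l n₀ := by
    intro n₀
    rw [hG, Finset.mem_filter, Finset.mem_range]
  have hcard := hCRC k al be W q u hWpos (UNQJ.WX_squarefree _ _ _) hq hu G hGmem
  have hle := UNQJ.sum_le t K X al be i j W q u hq G
    (fun n₀ h => ⟨((hGmem n₀).1 h).1, ((hGmem n₀).1 h).2.1⟩)
  have hle' : (∑ n₀ ∈ G, ((PtsK t K X al be i j W n₀).card : ℝ)) ≤
      ((PtsK t K X al be i j q u).card : ℝ) := by
    exact_mod_cast hle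
  refine le_trans ?_ hle'
  set A := ∏ p ∈ (Icc 1 ⌊X⌋₊).filter (fun p => p.Prime ∧ ¬ p ∣ W), (1 - (om al be p : ℝ) / p)
    with hA
  set B := ∏ p ∈ W.primeFactors.filter (fun p => ¬ p ∣ q), (1 - (om al be p : ℝ) / p) with hB
  have hAB : ∏ p ∈ (Icc 1 ⌊X⌋₊).filter (fun p => p.Prime ∧ ¬ p ∣ q),
      (1 - (om al be p : ℝ) / p) = B * A := by
    rw [hA, hB, ← Finset.prod_union]
    · refine Finset.prod_congr ?_ (fun _ _ => rfl)
      ext p
      simp only [Finset.mem_filter, Finset.mem_union, Finset.mem_Icc, Nat.mem_primeFactors]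
      constructor
      · rintro ⟨h3, h4, h5⟩
        by_cases h6 : p ∣ W
        · exact Or.inl ⟨⟨h4, h6, by omega⟩, h5⟩
        · exact Or.inr ⟨h3, h4, h6⟩
      · rintro (⟨⟨h3, h4, h5⟩, h6⟩ | ⟨h3, h4, h5⟩)
        · refine ⟨⟨h3.one_lt.le, ?_⟩, h3, h6⟩
          have h7 := hprime p h3 h4
          have h8 : Real.log X ≤ X := by
            have := Real.log_le_sub_one_of_pos hX0
            linarith
          exact Nat.le_floor (h7.trans h8)
        · exact ⟨h3, h4, fun h6 => h5 (h6.trans hq)⟩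
    · rw [Finset.disjoint_left]
      intro p hp hp'
      rw [Finset.mem_filter] at hp hp'
      exact hp'.2.2 (Nat.dvd_of_mem_primeFactors hp.1)
  rw [hAB]
  have hq0 : (q : ℝ) ≠ 0 := by
    have : 0 < q := Nat.pos_of_dvd_of_pos hq hWpos
    exact_mod_cast this.ne'
  have hW0 : (W : ℝ) ≠ 0 := by exact_mod_cast hWpos.ne'
  have e1 : c * (X / (q : ℝ) * (B * A)) = (G.card : ℝ) * (c * (X / (W : ℝ) * A)) := by
    rw [hcard]
    field_simp
  rw [e1, ← nsmul_eq_mul, ← Finset.sum_const]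
  refine Finset.sum_le_sum (fun n₀ h => ?_)
  exact (hmain n₀ ((hGmem n₀).1 h).2.2).2

end Pool.Agent.Q117.LF
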