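import Pool.Agent.Q117.LF.Stm3
import Pool.Agent.H307R2.OP.BT4
import Pool.Agent.Helper256.KM.Mertens

/-!
# An upper bound sieve for intervals

Project LF, job UPS.
-/

set_option autoImplicit false

namespace Pool.Agent.Q117.LF

open Finset

/-- an upper bound for the Euler product -/
theorem euler_le : ∃ C : ℝ, 0 < C ∧ ∀ z : ℕ, 2 ≤ z →
    ∏ p ∈ (Icc 1 z).filter Nat.Prime, (1 - 1 / (p : ℝ))⁻¹ ≤ C * Real.log z := by
  obtain ⟨C, hC⟩ := Pool.Agent.Helper256.KM.mertens_inv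
  refine ⟨2 * Real.exp (C + 1), by positivity, fun z hz => ?_⟩
  have hz' : (2 : ℝ) ≤ z := by exact_mod_cast hz
  have h1 := (abs_le.1 (hC (z + 1) (by omega))).2
  have hsub : (Icc 1 z).filter Nat.Prime ⊆ (Icc 1 (z + 1)).filter Nat.Prime := by
    apply filter_subset_filter
    apply Icc_subset_Icc_right
    omega
  have h2 : ∑ p ∈ (Icc 1 z).filter Nat.Prime, (1 : ℝ) / p ≤ Real.log (Real.log ((z + 1 : ℕ) : ℝ)) + C := by
    have h3 : ∑ p ∈ (Icc 1 z).filter Nat.Prime, (1 : ℝ) / p ≤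
        ∑ p ∈ (Icc 1 (z + 1)).filter Nat.Prime, (1 : ℝ) / p :=
      sum_le_sum_of_subset_of_nonneg hsub fun _ _ _ => by positivity
    linarith
  have h3 : ∀ n : ℕ, ∑ k ∈ Icc 2 n, (1 : ℝ) / (k * (k - 1)) ≤ 1 := by
    intro n
    have h4 : ∀ n : ℕ, 1 ≤ n → ∑ k ∈ Icc 2 n, (1 : ℝ) / (k * (k - 1)) = 1 - 1 / n := by
      intro n hn
      induction n, hn using Nat.le_induction with
      | base => norm_num
      | succ n hn ih =>
        rw [Finset.sum_Icc_succ_top (by omega), ih]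
        have hn' : (1 : ℝ) ≤ n := by exact_mod_cast hn
        push_cast
        rw [add_sub_cancel_right]
        have hn0 : (n : ℝ) ≠ 0 := by linarith
        field_simp
        ring
    rcases Nat.eq_zero_or_pos n with h0 | h0
    · subst h0
      norm_num
    · rw [h4 n h0]
      have : (0 : ℝ) ≤ 1 / n := by positivity
      linarith
  have h4 : ∑ p ∈ (Icc 1 z).filter Nat.Prime, (1 : ℝ) / (p * (p - 1)) ≤ 1 := by
    refine le_trans ?_ (h3 z)
    apply sum_le_sum_of_subset_of_nonneg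
    · intro p hp
      rw [mem_filter, mem_Icc] at hp
      rw [mem_Icc]
      exact ⟨hp.2.two_le, hp.1.2⟩
    · intro k hk _
      rw [mem_Icc] at hk
      have : (2 : ℝ) ≤ k := by exact_mod_cast hk.1
      have h5 : (0 : ℝ) ≤ k * (k - 1) := by nlinarith
      positivity
  have h5 : ∏ p ∈ (Icc 1 z).filter Nat.Prime, (1 - 1 / (p : ℝ))⁻¹ ≤
      Real.exp (∑ p ∈ (Icc 1 z).filter Nat.Prime, ((1 : ℝ) / p + 1 / (p * (p - 1)))) := by
    rw [Real.exp_sum]
    apply Finset.prod_le_prod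
    · intro p hp
      have h6 : (2 : ℝ) ≤ p := by exact_mod_cast (mem_filter.1 hp).2.two_le
      have h7 : 1 / (p : ℝ) ≤ 1 := by
        rw [div_le_one (by linarith)]
        linarith
      exact inv_nonneg.2 (by linarith)
    · intro p hp
      have h6 : (2 : ℝ) ≤ p := by exact_mod_cast (mem_filter.1 hp).2.two_le
      have h7 : (1 - 1 / (p : ℝ))⁻¹ = 1 / (p - 1) + 1 := by
        have h8 : (p : ℝ) - 1 ≠ 0 := by linarith
        have h9 : (p : ℝ) ≠ 0 := by linarith
        have h10 : 1 - 1 / (p : ℝ) = (p - 1) / p := by field_simp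
        rw [h10, inv_div]
        field_simp
        ring
      have h8 : (1 : ℝ) / p + 1 / (p * (p - 1)) = 1 / (p - 1) := by
        have h8 : (p : ℝ) - 1 ≠ 0 := by linarith
        have h9 : (p : ℝ) ≠ 0 := by linarith
        field_simp
        ring
      rw [h7, h8]
      exact Real.add_one_le_exp _
  rw [sum_add_distrib] at h5
  have hlog : Real.log ((z + 1 : ℕ) : ℝ) ≤ 2 * Real.log z := by
    have h6 : Real.log ((z : ℝ) ^ 2) = 2 * Real.log z := by
      rw [Real.log_pow]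
      norm_num
    rw [← h6]
    apply Real.log_le_log (by positivity)
    push_cast
    nlinarith
  have hlog0 : 0 < Real.log ((z + 1 : ℕ) : ℝ) := by
    apply Real.log_pos
    push_cast
    linarith
  calc ∏ p ∈ (Icc 1 z).filter Nat.Prime, (1 - 1 / (p : ℝ))⁻¹
      ≤ Real.exp (Real.log (Real.log ((z + 1 : ℕ) : ℝ)) + C + 1) := h5.trans (Real.exp_le_exp.2 (by linarith))
    _ = Real.log ((z + 1 : ℕ) : ℝ) * Real.exp (C + 1) := by
        rw [add_assoc, Real.exp_add, Real.exp_log hlog0]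
    _ ≤ 2 * Real.log z * Real.exp (C + 1) := by gcongr
    _ = 2 * Real.exp (C + 1) * Real.log z := by ring

open Pool.Agent.Helper923.PPS in
/-- the sifted set of a progression -/
theorem sifted_le_gen {a q N R : ℕ} (hq : 1 ≤ q) (hR : 1 ≤ R) :
    (((range N).filter (fun k => Nat.Coprime (PP q R) (a + k * q))).card : ℝ) ≤
      ((q : ℝ) / Nat.totient q) * N / Real.log ((R : ℝ) + 1) + (R : ℝ) ^ 4 := by
  have hR' : (1 : ℝ) ≤ R := by exact_mod_cast hR
  have hq' : (0 : ℝ) < q := by exact_mod_cast hq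
  have ht' : (0 : ℝ) < Nat.totient q := by exact_mod_cast Nat.totient_pos.2 hq
  have hinj : ∀ x ∈ Finset.range N, ∀ y ∈ Finset.range N,
      (fun k => a + k * q) x = (fun k => a + k * q) y → x = y := by
    intro x _ y _ hxy
    simp only at hxy
    have h1 : x * q = y * q := by omega
    exact Nat.eq_of_mul_eq_mul_right (by omega) h1
  have e : (apSieve a q N R).siftedSum =
      (((Finset.range N).filter (fun k => Nat.Coprime (PP q R) (a + k * q))).card : ℝ) := by
    unfold BoundingSieve.siftedSum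
    have h0 : (apSieve a q N R).support = (Finset.range N).image (fun k => a + k * q) := rfl
    rw [h0, Finset.sum_image hinj, Finset.card_filter]
    push_cast
    apply Finset.sum_congr rfl
    intro k _
    have h : (apSieve a q N R).prodPrimes = PP q R := rfl
    have h' : (apSieve a q N R).weights (a + k * q) = 1 := rfl
    by_cases hc : Nat.Coprime (PP q R) (a + k * q)
    · rw [if_pos hc, if_pos (by rw [h]; exact hc), h']
    · rw [if_neg hc, if_neg (by rw [h]; exact hc)]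
  rw [← e]
  have h2 := siftedSum_le_selberg (apSieve a q N R) (R : ℝ) hR' 1 zero_le_one
    (fun d hd => apSieve_rem hq hd)
  have h3 := Pool.Agent.H307R2.OP.BT4P.selS_ge2 (a := a) (N := N) (R := R) hq
  have hlog : 0 < Real.log ((R : ℝ) + 1) := Real.log_pos (by linarith)
  have h4 : (apSieve a q N R).totalMass / selS (apSieve a q N R) R ≤
      ((q : ℝ) / Nat.totient q) * N / Real.log ((R : ℝ) + 1) := by
    change (N : ℝ) / _ ≤ _
    have : (N : ℝ) / selS (apSieve a q N R) R ≤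
        (N : ℝ) / (((Nat.totient q : ℝ) / q) * Real.log ((R : ℝ) + 1)) := by
      apply div_le_div_of_nonneg_left (by positivity) (by positivity) h3
    refine this.trans (le_of_eq ?_)
    field_simp
  have h5 : (∑ d ∈ (Nat.divisors (apSieve a q N R).prodPrimes).filter
      (fun d : ℕ => (d : ℝ) ≤ R), ((apSieve a q N R).nu d)⁻¹) ≤ (R : ℝ) ^ 2 := by
    have h6 : (Nat.divisors (apSieve a q N R).prodPrimes).filter (fun d : ℕ => (d : ℝ) ≤ R) ⊆
        Finset.Icc 1 R := by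
      intro d hd
      rw [Finset.mem_filter, Nat.mem_divisors] at hd
      rw [Finset.mem_Icc]
      refine ⟨Nat.pos_of_ne_zero (ne_zero_of_dvd_ne_zero hd.1.2 hd.1.1),
        by exact_mod_cast hd.2⟩
    calc (∑ d ∈ (Nat.divisors (apSieve a q N R).prodPrimes).filter
          (fun d : ℕ => (d : ℝ) ≤ R), ((apSieve a q N R).nu d)⁻¹)
        = ∑ d ∈ (Nat.divisors (apSieve a q N R).prodPrimes).filter
          (fun d : ℕ => (d : ℝ) ≤ R), (d : ℝ) := by
          apply Finset.sum_congr rfl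
          intro d _
          change ((d : ℝ)⁻¹)⁻¹ = d
          rw [inv_inv]
      _ ≤ ∑ d ∈ Finset.Icc 1 R, (d : ℝ) :=
          Finset.sum_le_sum_of_subset_of_nonneg h6 (fun _ _ _ => by positivity)
      _ ≤ ∑ d ∈ Finset.Icc 1 R, (R : ℝ) := by
          apply Finset.sum_le_sum
          intro d hd
          exact_mod_cast (Finset.mem_Icc.mp hd).2
      _ = (R : ℝ) ^ 2 := by simp; ring
  have h7 : 0 ≤ (∑ d ∈ (Nat.divisors (apSieve a q N R).prodPrimes).filter
      (fun d : ℕ => (d : ℝ) ≤ R), ((apSieve a q N R).nu d)⁻¹) := by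
    apply Finset.sum_nonneg
    intro d _
    change 0 ≤ ((d : ℝ)⁻¹)⁻¹
    positivity
  have h8 : (∑ d ∈ (Nat.divisors (apSieve a q N R).prodPrimes).filter
      (fun d : ℕ => (d : ℝ) ≤ R), ((apSieve a q N R).nu d)⁻¹) ^ 2 ≤ (R : ℝ) ^ 4 := by
    calc _ ≤ ((R : ℝ) ^ 2) ^ 2 := by gcongr
      _ = (R : ℝ) ^ 4 := by ring
  linarith

open Pool.Agent.Helper923.PPS in
/-- the upper bound sieve for intervals -/
theorem ups : St_UPS := by
  classical
  obtain ⟨C1, hC1, hE⟩ := euler_le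
  refine ⟨5 * C1, by positivity, ?_⟩
  intro N D z hz hzD M hM
  have hz' : (2 : ℝ) ≤ z := by exact_mod_cast hz
  have hlogz : 0 < Real.log z := Real.log_pos (by linarith)
  have hD1 : 1 ≤ D := le_trans (Nat.one_le_pow _ _ (by omega)) hzD
  have hD' : (1 : ℝ) ≤ D := by exact_mod_cast hD1
  obtain ⟨F, hF⟩ : ∃ F : Finset ℕ, F = (Icc 1 z).filter Nat.Prime := ⟨_, rfl⟩
  have hFp : ∀ p ∈ F, p.Prime ∧ p ≤ z := by
    intro p hp
    rw [hF, mem_filter, mem_Icc] at hp
    exact ⟨hp.2, hp.1.2⟩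
  have hMF : M ⊆ F := by
    intro p hp
    rw [hF, mem_filter, mem_Icc]
    exact ⟨⟨(hM p hp).1.one_lt.le, (hM p hp).2⟩, (hM p hp).1⟩
  obtain ⟨q, hq⟩ : ∃ q : ℕ, q = ∏ p ∈ F \ M, p := ⟨_, rfl⟩
  have hq0 : 0 < q := by
    rw [hq]
    exact prod_pos fun p hp => (hFp p (sdiff_subset hp)).1.pos
  have hpq : ∀ p : ℕ, p.Prime → (p ∣ q ↔ p ∈ F \ M) := by
    intro p hp
    rw [hq, Prime.dvd_finsetProd_iff hp.prime]
    constructor
    · rintro ⟨r, hr, hpr⟩
      have : p = r := (Nat.prime_dvd_prime_iff_eq hp (hFp r (sdiff_subset hr)).1).1 hpr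
      rwa [this]
    · intro h
      exact ⟨p, h, dvd_rfl⟩
  have hqf : q.primeFactors = F \ M := by
    ext p
    rw [Nat.mem_primeFactors]
    constructor
    · rintro ⟨h1, h2, -⟩
      exact (hpq p h1).1 h2
    · intro h
      have h1 := (hFp p (sdiff_subset h)).1
      exact ⟨h1, (hpq p h1).2 h, hq0.ne'⟩
  -- the Euler product
  have hpos : ∀ p ∈ F, (0 : ℝ) < 1 - 1 / (p : ℝ) ∧ 1 - 1 / (p : ℝ) ≤ 1 := by
    intro p hp
    have h6 : (2 : ℝ) ≤ p := by exact_mod_cast (hFp p hp).1.two_le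
    have h7 : 1 / (p : ℝ) ≤ 1 / 2 := one_div_le_one_div_of_le (by norm_num) h6
    have h8 : 0 ≤ 1 / (p : ℝ) := by positivity
    constructor <;> linarith
  obtain ⟨V, hV⟩ : ∃ V : ℝ, V = ∏ p ∈ M, (1 - 1 / (p : ℝ)) := ⟨_, rfl⟩
  have hV0 : 0 < V := by
    rw [hV]
    exact prod_pos fun p hp => (hpos p (hMF hp)).1
  have hEz := hE z hz
  rw [← hF] at hEz
  have hsplit : (∏ p ∈ F \ M, (1 - 1 / (p : ℝ))⁻¹) * V⁻¹ = ∏ p ∈ F, (1 - 1 / (p : ℝ))⁻¹ := by
    rw [hV, ← prod_inv_distrib, prod_sdiff hMF]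
  have hqt : (q : ℝ) / Nat.totient q = ∏ p ∈ F \ M, (1 - 1 / (p : ℝ))⁻¹ := by
    have h2 : (Nat.totient q : ℝ) = q * ∏ p ∈ q.primeFactors, (1 - (p : ℝ)⁻¹) := by
      have h3 := congrArg (fun z : ℚ => (z : ℝ)) (Nat.totient_eq_mul_prod_factors q)
      push_cast at h3
      exact h3
    rw [h2, hqf]
    have hq' : (q : ℝ) ≠ 0 := by exact_mod_cast hq0.ne'
    have h3 : ∏ p ∈ F \ M, (1 - 1 / (p : ℝ))⁻¹ = (∏ p ∈ F \ M, (1 - (p : ℝ)⁻¹))⁻¹ := by
      rw [← prod_inv_distrib]
      exact prod_congr rfl fun p _ => by rw [one_div]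
    rw [h3]
    rw [div_mul_eq_div_div, div_self hq', one_div]
  have hqV : (q : ℝ) / Nat.totient q ≤ C1 * Real.log z * V := by
    rw [hqt]
    have h1 : (∏ p ∈ F \ M, (1 - 1 / (p : ℝ))⁻¹) = (∏ p ∈ F, (1 - 1 / (p : ℝ))⁻¹) * V := by
      rw [← hsplit, mul_assoc, inv_mul_cancel₀ hV0.ne', mul_one]
    rw [h1]
    gcongr
  -- lower bound for `V`
  have hVlow : 1 ≤ C1 * Real.log z * V := by
    refine le_trans ?_ hqV
    rw [hqt]
    have h1 : ∏ p ∈ F \ M, (1 : ℝ) ≤ ∏ p ∈ F \ M, (1 - 1 / (p : ℝ))⁻¹ := by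
      apply Finset.prod_le_prod
      · intro _ _
        norm_num
      · intro p hp
        have h2 := hpos p (sdiff_subset hp)
        exact (one_le_inv₀ h2.1).2 h2.2
    rwa [prod_const_one] at h1
  -- the sieve
  obtain ⟨R, hR⟩ : ∃ R : ℕ, R = Nat.sqrt z := ⟨_, rfl⟩
  have hR1 : 1 ≤ R := by
    rw [hR, Nat.le_sqrt]
    omega
  have hRz : R ≤ z := by
    rw [hR]
    exact Nat.sqrt_le_self z
  have hR2 : R ^ 2 ≤ z := by
    rw [hR]
    exact Nat.sqrt_le' z
  have hR3 : z < (R + 1) ^ 2 := by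
    rw [hR]
    exact Nat.lt_succ_sqrt' z
  have hlogR : Real.log z / 2 ≤ Real.log ((R : ℝ) + 1) := by
    have h1 : Real.log z ≤ Real.log (((R : ℝ) + 1) ^ 2) := by
      apply Real.log_le_log (by linarith)
      have h2 : (z : ℝ) < ((R : ℝ) + 1) ^ 2 := by exact_mod_cast hR3
      exact h2.le
    rw [Real.log_pow] at h1
    push_cast at h1
    linarith
  obtain ⟨U, hU⟩ : ∃ U : ℕ, U = ∏ p ∈ M, p := ⟨_, rfl⟩
  have hU0 : 0 < U := by
    rw [hU]
    exact prod_pos fun p hp => (hM p hp).1.pos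
  obtain ⟨a, ha⟩ : ∃ a : ℕ, (a : ℤ) = (q * N) % U :=
    ⟨((q * N) % U).toNat, Int.toNat_of_nonneg (Int.emod_nonneg _ (by omega))⟩
  have hcard : (((Icc N (N + D)).filter (fun k => ∀ p ∈ M, ¬ (p : ℤ) ∣ k)).card : ℝ) ≤
      (((range (D + 1)).filter (fun k => Nat.Coprime (PP q R) (a + k * q))).card : ℝ) := by
    have h1 : ((Icc N (N + D)).filter (fun k => ∀ p ∈ M, ¬ (p : ℤ) ∣ k)).card ≤
        ((range (D + 1)).filter (fun k => Nat.Coprime (PP q R) (a + k * q))).card := by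
      apply card_le_card_of_injOn (fun k : ℤ => (k - N).toNat)
      · intro k hk
        rw [mem_coe, mem_filter, mem_Icc] at hk
        obtain ⟨⟨hk1, hk2⟩, hk3⟩ := hk
        obtain ⟨i, hi⟩ : ∃ i : ℕ, k - N = i := Int.eq_ofNat_of_zero_le (by omega)
        have hi' : (k - N).toNat = i := by
          rw [hi]
          rfl
        rw [mem_coe, mem_filter, mem_range]
        show (k - N).toNat < D + 1 ∧ Nat.Coprime (PP q R) (a + (k - N).toNat * q)
        rw [hi']
        refine ⟨by omega, ?_⟩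
        by_contra hc
        obtain ⟨p, hp, hp1, hp2⟩ := Nat.Prime.not_coprime_iff_dvd.mp hc
        obtain ⟨h2, h3⟩ := (prime_dvd_PP hp).mp hp1
        have hpM : p ∈ M := by
          by_contra hpM
          apply h3
          rw [hpq p hp, mem_sdiff]
          refine ⟨?_, hpM⟩
          rw [hF, mem_filter, mem_Icc]
          exact ⟨⟨hp.one_lt.le, h2.trans hRz⟩, hp⟩
        have hpU : (p : ℤ) ∣ U := by
          have h4 : p ∣ U := by
            rw [hU]
            exact dvd_prod_of_mem _ hpM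
          exact_mod_cast h4
        have h4 : (p : ℤ) ∣ (a : ℤ) + i * q := by exact_mod_cast hp2
        have h5 : (p : ℤ) ∣ q * N - a := by
          rw [ha]
          exact hpU.trans (Int.dvd_self_sub_emod)
        have h6 : (p : ℤ) ∣ q * k := by
          have h7 := dvd_add h4 h5
          have h8 : (a : ℤ) + i * q + (q * N - a) = q * k := by
            rw [← hi]
            ring
          rwa [h8] at h7
        rcases (Nat.prime_iff_prime_int.1 hp).dvd_or_dvd h6 with h7 | h7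
        · exact h3 (Int.natCast_dvd_natCast.1 h7)
        · exact hk3 p hpM h7
      · intro k hk k' hk' he
        rw [mem_coe, mem_filter, mem_Icc] at hk hk'
        have he' : (k - N).toNat = (k' - N).toNat := he
        omega
    exact_mod_cast h1
  have h1 := sifted_le_gen (a := a) (q := q) (N := D + 1) (R := R) hq0 hR1
  rw [← hV]
  refine hcard.trans (h1.trans ?_)
  have h2 : ((q : ℝ) / Nat.totient q) * ((D + 1 : ℕ) : ℝ) / Real.log ((R : ℝ) + 1) ≤ 4 * C1 * D * V := by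
    rw [div_le_iff₀ (by linarith)]
    have h3 : ((D + 1 : ℕ) : ℝ) ≤ 2 * D := by
      push_cast
      linarith
    calc ((q : ℝ) / Nat.totient q) * ((D + 1 : ℕ) : ℝ) ≤ (C1 * Real.log z * V) * (2 * D) := by gcongr
      _ = 4 * C1 * D * V * (Real.log z / 2) := by ring
      _ ≤ 4 * C1 * D * V * Real.log ((R : ℝ) + 1) := by gcongr
  have h3 : (R : ℝ) ^ 4 ≤ C1 * D * V := by
    have h4 : (R : ℝ) ^ 4 ≤ (z : ℝ) ^ 2 := by
      have h5 : (R : ℝ) ^ 2 ≤ z := by exact_mod_cast hR2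
      calc (R : ℝ) ^ 4 = ((R : ℝ) ^ 2) ^ 2 := by ring
        _ ≤ (z : ℝ) ^ 2 := by gcongr
    have h5 : (z : ℝ) ^ 4 ≤ D := by exact_mod_cast hzD
    have h6 : Real.log z ≤ z := by
      have := Real.log_le_sub_one_of_pos (show (0 : ℝ) < z by linarith)
      linarith
    have h7 : 1 ≤ C1 * z * V := hVlow.trans (by gcongr)
    have h8 : (z : ℝ) ^ 2 ≤ (z : ℝ) ^ 3 := pow_le_pow_right₀ (by linarith) (by norm_num)
    have h9 : (z : ℝ) ^ 3 ≤ (z : ℝ) ^ 3 * (C1 * z * V) := le_mul_of_one_le_right (by positivity) h7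
    have h10 : (z : ℝ) ^ 3 * (C1 * z * V) = C1 * (z : ℝ) ^ 4 * V := by ring
    have h11 : C1 * (z : ℝ) ^ 4 * V ≤ C1 * D * V := by gcongr
    linarith
  have h4 : 5 * C1 * D * V = 4 * C1 * D * V + C1 * D * V := by ring
  linarith

end Pool.Agent.Q117.LF
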