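import Pool.Agent.Q117.LF.Main2
import Pool.Agent.Q117.LF.Rsf
import Pool.Agent.Q117.LF.Covb
import Pool.Agent.Q117.LF.Iso
import Pool.Agent.Q117.LF.Lck
import Pool.Agent.Q117.LF.Crc
import Pool.Agent.Q117.LF.Unq
import Pool.Agent.Q117.LF.Ssy
import Pool.Agent.Q117.LF.Grw
import Pool.Agent.Q117.LF.Ups
import Pool.Agent.Q117.LF.Shf
import Pool.Agent.Q117.LF.Asg

/-!
Project LF (helper117), part 3: the assembled theorems.
-/

set_option autoImplicit false

namespace Pool.Agent.Q117.LF

theorem lckC : LCKc := lck chenL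

theorem unqC : UNQc := unq crc lckC

theorem covbC : COVBc := covb (rsf grw ups) shf asg

theorem isoC : ISOc := iso covbC lckC

end Pool.Agent.Q117.LF
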