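import Pool.Agent.Q117.LF.Stm4

/-!
Project LF (helper117), job RAR (written by helper148): few integers have many small prime factors.
-/

set_option autoImplicit false

namespace Pool.Agent.Q117.LF

open Finset Filter

namespace RarAux

/-- the number of the multiples of a product of different primes -/
lemma cnt_mult (N : ℕ) (T : Finset ℕ) (hT : ∀ p ∈ T, p.Prime) :
    (((Icc 1 N).filter (fun m : ℕ => T ⊆ m.primeFactors)).card : ℝ) ≤ (N : ℝ) * ∏ p ∈ T, (1 / (p : ℝ)) := by
  have hdvd : ((Icc 1 N).filter (fun m : ℕ => T ⊆ m.primeFactors)) ⊆ (Ioc 0 N).filter (fun m => (∏ p ∈ T, p) ∣ m) := by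
    intro m hm
    simp only [mem_filter, mem_Icc, mem_Ioc] at hm ⊢
    refine ⟨⟨by omega, hm.1.2⟩, ?_⟩
    apply Finset.prod_primes_dvd
    · intro p hp; exact (hT p hp).prime
    · intro p hp; exact Nat.dvd_of_mem_primeFactors (hm.2 hp)
  have h1 : (((Icc 1 N).filter (fun m : ℕ => T ⊆ m.primeFactors)).card : ℝ) ≤ ((N / (∏ p ∈ T, p) : ℕ) : ℝ) := by
    have := Finset.card_le_card hdvd
    rw [Nat.Ioc_filter_dvd_card_eq_div] at this
    exact_mod_cast this
  refine h1.trans ((Nat.cast_div_le).trans (le_of_eq ?_))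
  rw [Nat.cast_prod, div_eq_mul_inv, ← Finset.prod_inv_distrib]
  simp

open Classical in
lemma moment (N : ℕ) (P : Finset ℕ) (hP : ∀ p ∈ P, p.Prime) (y : ℝ) (hy : 1 ≤ y) :
    ∑ m ∈ Icc 1 N, y ^ (m.primeFactors.filter (fun p => p ∈ P)).card ≤ N * ∏ p ∈ P, (1 + (y - 1) / (p : ℝ)) := by
  have h0 : ∀ m : ℕ, y ^ (m.primeFactors.filter (fun p => p ∈ P)).card =
      ∑ T ∈ P.powerset, if T ⊆ m.primeFactors then (y - 1) ^ T.card else 0 := by
    intro m
    have e1 : y ^ (m.primeFactors.filter (fun p => p ∈ P)).card =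
        ∏ p ∈ m.primeFactors.filter (fun p => p ∈ P), (1 + (y - 1)) := by
      rw [Finset.prod_const]; congr 1; ring
    rw [e1, Finset.prod_one_add, ← Finset.sum_filter]
    have e2 : (m.primeFactors.filter (fun p => p ∈ P)).powerset = P.powerset.filter (fun T => T ⊆ m.primeFactors) := by
      ext T
      simp only [mem_powerset, mem_filter, Finset.subset_iff]
      constructor
      · intro h; exact ⟨fun x hx => (h hx).2, fun x hx => (h hx).1⟩
      · rintro ⟨h1, h2⟩ x hx; exact ⟨h2 hx, h1 hx⟩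
    rw [e2]
    apply Finset.sum_congr rfl
    intro T _
    rw [Finset.prod_const]
  calc ∑ m ∈ Icc 1 N, y ^ (m.primeFactors.filter (fun p => p ∈ P)).card
      = ∑ m ∈ Icc 1 N, ∑ T ∈ P.powerset, (if T ⊆ m.primeFactors then (y - 1) ^ T.card else 0) := by
        apply Finset.sum_congr rfl; intro m _; exact h0 m
    _ = ∑ T ∈ P.powerset, ∑ m ∈ Icc 1 N, (if T ⊆ m.primeFactors then (y - 1) ^ T.card else 0) := Finset.sum_comm
    _ = ∑ T ∈ P.powerset, (y - 1) ^ T.card * (((Icc 1 N).filter (fun m : ℕ => T ⊆ m.primeFactors)).card : ℝ) := by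
        apply Finset.sum_congr rfl; intro T _
        rw [← Finset.sum_filter, Finset.sum_const, nsmul_eq_mul, mul_comm]
    _ ≤ ∑ T ∈ P.powerset, (y - 1) ^ T.card * ((N : ℝ) * ∏ p ∈ T, (1 / (p : ℝ))) := by
        apply Finset.sum_le_sum; intro T hT
        apply mul_le_mul_of_nonneg_left _ (pow_nonneg (by linarith) _)
        exact cnt_mult N T (fun p hp => hP p (mem_powerset.1 hT hp))
    _ = N * ∑ T ∈ P.powerset, ∏ p ∈ T, ((y - 1) / (p : ℝ)) := by
        rw [Finset.mul_sum]
        apply Finset.sum_congr rfl; intro T _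
        rw [← Finset.prod_const, mul_left_comm, ← Finset.prod_mul_distrib]
        congr 1
        apply Finset.prod_congr rfl; intro p _; ring
    _ = N * ∏ p ∈ P, (1 + (y - 1) / (p : ℝ)) := by rw [Finset.prod_one_add]

lemma recip (z : ℝ) (hz : 1 ≤ z) : ∑ p ∈ (Icc 1 ⌊z⌋₊).filter Nat.Prime, (1 / (p : ℝ)) ≤ 1 + Real.log z := by
  have h1 : ∑ p ∈ (Icc 1 ⌊z⌋₊).filter Nat.Prime, (1 / (p : ℝ)) ≤ ∑ n ∈ Icc 1 ⌊z⌋₊, (1 / (n : ℝ)) := by
    apply Finset.sum_le_sum_of_subset_of_nonneg (filter_subset _ _)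
    intro i _ _; positivity
  have h2 : ∑ n ∈ Icc 1 ⌊z⌋₊, (1 / (n : ℝ)) = ((harmonic ⌊z⌋₊ : ℚ) : ℝ) := by
    rw [harmonic_eq_sum_Icc]; push_cast; simp
  have h3 := harmonic_floor_le_one_add_log z hz
  rw [h2] at h1
  exact h1.trans h3

end RarAux

open RarAux

theorem rar : St_RAR := by
  classical
  intro c hc
  refine ⟨c / 4, by positivity, ?_⟩
  -- the conditions on `M`
  have hlog : Tendsto Real.log atTop atTop := Real.tendsto_log_atTop
  have hev : ∀ᶠ L : ℝ in atTop, Real.sqrt L * (1 + Real.log L) ≤ c / 4 * L := by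
    have h1 : (fun L : ℝ => Real.log L) =o[atTop] (fun L : ℝ => L ^ (1 / 4 : ℝ)) := isLittleO_log_rpow_atTop (by norm_num)
    have h2 := h1.bound (show (0 : ℝ) < 1 by norm_num)
    have h3 : Tendsto (fun L : ℝ => L ^ (1 / 4 : ℝ)) atTop atTop := tendsto_rpow_atTop (by norm_num)
    filter_upwards [h2, h3.eventually_ge_atTop (8 / c), h3.eventually_ge_atTop 1, eventually_ge_atTop (1 : ℝ)] with L hL h4 h5 h6
    have hL0 : 0 < L := by linarith
    rw [Real.norm_of_nonneg (Real.log_nonneg h6), Real.norm_of_nonneg (by positivity), one_mul] at hL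
    set r := L ^ (1 / 4 : ℝ) with hr
    have hr4 : r ^ 4 = L := by
      rw [hr, ← Real.rpow_natCast, ← Real.rpow_mul hL0.le]; norm_num
    have hs : Real.sqrt L = r ^ 2 := by
      rw [← hr4, show r ^ 4 = (r ^ 2) ^ 2 by ring, Real.sqrt_sq (by positivity)]
    rw [hs, ← hr4]
    have h7 : 8 ≤ c * r := by rw [div_le_iff₀ hc] at h4; linarith
    have hr1 : 0 < r := by linarith
    calc r ^ 2 * (1 + Real.log (r ^ 4)) ≤ r ^ 2 * (r + r) := by
          apply mul_le_mul_of_nonneg_left _ (by positivity)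
          rw [hr4]; linarith
      _ = 1 / 4 * 8 * r ^ 3 := by ring
      _ ≤ 1 / 4 * (c * r) * r ^ 3 := by
          apply mul_le_mul_of_nonneg_right _ (by positivity); linarith
      _ = c / 4 * r ^ 4 := by ring
  have hev2 := hlog.eventually hev
  obtain ⟨M0, hM0⟩ := eventually_atTop.1 (hev2.and ((hlog.eventually_ge_atTop 3)))
  refine ⟨max M0 3, ?_⟩
  intro M hM
  obtain ⟨hA, hB⟩ := hM0 M (le_trans (le_max_left _ _) hM)
  have hM3 : (3 : ℝ) ≤ M := le_trans (le_max_right _ _) hM
  have hMpos : 0 < M := by linarith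
  set L := Real.log M with hL
  have hLpos : 0 < L := by linarith
  have hlogL : 0 < Real.log L := Real.log_pos (by linarith)
  set y := Real.sqrt L with hy
  have hy1 : 1 ≤ y := by rw [hy, Real.one_le_sqrt]; linarith
  set P := (Icc 1 ⌊L⌋₊).filter Nat.Prime with hPdef
  have hP : ∀ p ∈ P, p.Prime := fun p hp => (mem_filter.1 hp).2
  set w := c * (L / Real.log L) with hw
  set S := ((Icc 1 ⌊M⌋₊).filter (fun m : ℕ => w ≤
    ((m.primeFactors.filter (fun p : ℕ => (p : ℝ) ≤ L)).card : ℝ))) with hS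
  have hfe : ∀ m : ℕ, m.primeFactors.filter (fun p : ℕ => (p : ℝ) ≤ L) = m.primeFactors.filter (fun p => p ∈ P) := by
    intro m
    apply Finset.filter_congr
    intro p hp
    have hpp := Nat.prime_of_mem_primeFactors hp
    simp only [hPdef, mem_filter, mem_Icc]
    constructor
    · intro h; exact ⟨⟨hpp.one_lt.le, Nat.le_floor h⟩, hpp⟩
    · intro h; exact (Nat.le_floor_iff hLpos.le).1 h.1.2
  have hmom := moment ⌊M⌋₊ P hP y hy1
  have hlow : (S.card : ℝ) * y ^ w ≤ ∑ m ∈ Icc 1 ⌊M⌋₊, y ^ (m.primeFactors.filter (fun p => p ∈ P)).card := by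
    calc (S.card : ℝ) * y ^ w = ∑ m ∈ S, y ^ w := by rw [Finset.sum_const, nsmul_eq_mul]
      _ ≤ ∑ m ∈ S, y ^ (m.primeFactors.filter (fun p => p ∈ P)).card := by
          apply Finset.sum_le_sum
          intro m hm
          rw [← Real.rpow_natCast]
          apply Real.rpow_le_rpow_of_exponent_le hy1
          rw [← hfe m]
          exact (mem_filter.1 hm).2
      _ ≤ _ := by
          apply Finset.sum_le_sum_of_subset_of_nonneg (filter_subset _ _)
          intro i _ _; positivity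
  have hprod : ∏ p ∈ P, (1 + (y - 1) / (p : ℝ)) ≤ Real.exp (y * (1 + Real.log L)) := by
    calc ∏ p ∈ P, (1 + (y - 1) / (p : ℝ)) ≤ ∏ p ∈ P, Real.exp ((y - 1) / (p : ℝ)) := by
          apply Finset.prod_le_prod
          · intro p hp
            have : 0 ≤ (y - 1) / (p : ℝ) := div_nonneg (by linarith) (Nat.cast_nonneg _)
            linarith
          · intro p hp
            have := Real.add_one_le_exp ((y - 1) / (p : ℝ))
            linarith
      _ = Real.exp ((y - 1) * ∑ p ∈ P, (1 / (p : ℝ))) := by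
          rw [← Real.exp_sum, Finset.mul_sum]
          congr 1
          apply Finset.sum_congr rfl; intro p _; ring
      _ ≤ Real.exp (y * (1 + Real.log L)) := by
          apply Real.exp_le_exp.2
          have h := recip L (by linarith)
          have h0 : 0 ≤ ∑ p ∈ P, (1 / (p : ℝ)) := Finset.sum_nonneg (fun _ _ => by positivity)
          calc (y - 1) * ∑ p ∈ P, (1 / (p : ℝ)) ≤ y * ∑ p ∈ P, (1 / (p : ℝ)) := by
                apply mul_le_mul_of_nonneg_right (by linarith) h0
            _ ≤ y * (1 + Real.log L) := mul_le_mul_of_nonneg_left h (by linarith)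
  have hyw : y ^ w = Real.exp (c / 2 * L) := by
    rw [Real.rpow_def_of_pos (by linarith), hy, Real.log_sqrt hLpos.le, hw]
    congr 1
    field_simp
  have hfin : (S.card : ℝ) * Real.exp (c / 2 * L) ≤ M * Real.exp (c / 4 * L) := by
    rw [← hyw]
    refine hlow.trans (hmom.trans ?_)
    apply mul_le_mul (Nat.floor_le hMpos.le) _ (Finset.prod_nonneg ?_) hMpos.le
    · exact hprod.trans (Real.exp_le_exp.2 hA)
    · intro p _
      have : 0 ≤ (y - 1) / (p : ℝ) := div_nonneg (by linarith) (Nat.cast_nonneg _)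
      linarith
  have hME : M ^ (1 - c / 4) = M * Real.exp (-(c / 4 * L)) := by
    rw [Real.rpow_sub hMpos, Real.rpow_one, Real.rpow_def_of_pos hMpos, Real.exp_neg, ← hL, div_eq_mul_inv, mul_comm L]
  rw [hME]
  have hE : M * Real.exp (c / 4 * L) = (M * Real.exp (-(c / 4 * L))) * Real.exp (c / 2 * L) := by
    rw [mul_assoc, ← Real.exp_add]; congr 2; ring
  rw [hE] at hfin
  exact le_of_mul_le_mul_right hfin (Real.exp_pos _)

end Pool.Agent.Q117.LF
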