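import Pool.Agent.Q117.LF.Stm4
import Pool.Agent.Q117.LF.Rkm

/-!
Project LF (helper117), job T44 (helper150): all admissible tuples with shifts up to `X`.
-/

set_option autoImplicit false

namespace Pool.Agent.Q117.LF

open Finset Filter
open Pool.Agent.Q117.GP (Rk)

/-- uniform constants over a finite index type -/
lemma t44_unif {ι : Type*} [Finite ι] (P : ι → ℕ → ℝ → ℝ → Prop)
    (h : ∀ i, ∃ t : ℕ, 1 ≤ t ∧ ∃ c : ℝ, 0 < c ∧ ∃ X0 : ℝ, P i t c X0) :
    ∃ t : ℕ, 1 ≤ t ∧ ∃ c : ℝ, 0 < c ∧ ∃ X0 : ℝ, ∀ i, ∃ t' : ℕ, ∃ c' X0' : ℝ, 1 ≤ t' ∧ t' ≤ t ∧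
      0 < c' ∧ c ≤ c' ∧ X0' ≤ X0 ∧ P i t' c' X0' := by
  choose t ht c hc X0 hP using h
  obtain ⟨T, hT⟩ := (Set.finite_range t).bddAbove
  obtain ⟨C, hC⟩ := (Set.finite_range (fun i => 1 / c i)).bddAbove
  obtain ⟨Y, hY⟩ := (Set.finite_range X0).bddAbove
  have hC1 : 0 < max 1 C := lt_max_of_lt_left one_pos
  refine ⟨max 1 T, le_max_left _ _, 1 / max 1 C, by positivity, Y, fun i =>
    ⟨t i, c i, X0 i, ht i, (hT ⟨i, rfl⟩).trans (le_max_right _ _), hc i, ?_, hY ⟨i, rfl⟩, hP i⟩⟩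
  have h1 : 1 / c i ≤ max 1 C := (hC ⟨i, rfl⟩).trans (le_max_right _ _)
  rw [div_le_iff₀ hC1]
  rw [div_le_iff₀ (hc i)] at h1
  linarith

lemma t44_fact (S : Finset ℕ) (h : ∀ x ∈ S, 1 ≤ x) : S.card.factorial ≤ ∏ x ∈ S, x := by
  induction S using Finset.induction_on_max with
  | empty => simp
  | insert a s ha ih =>
    have hna : a ∉ s := fun h' => lt_irrefl _ (ha a h')
    rw [card_insert_of_notMem hna, prod_insert hna, Nat.factorial_succ]
    have h1 : s.card + 1 ≤ a := by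
      have h2 : insert a s ⊆ Icc 1 a := by
        intro x hx
        rw [mem_Icc]
        refine ⟨h x hx, ?_⟩
        rcases mem_insert.mp hx with rfl | hx
        · exact le_rfl
        · exact (ha x hx).le
      have h3 := card_le_card h2
      rw [card_insert_of_notMem hna, Nat.card_Icc] at h3
      omega
    exact Nat.mul_le_mul h1 (ih fun x hx => h x (mem_insert_of_mem hx))

/-- an integer with `w` different prime factors is large -/
lemma t44_large (v : ℕ) (hv : v ≠ 0) (z : ℝ) :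
    ((v.primeFactors.filter (fun p : ℕ => (p : ℝ) ≤ z)).card : ℝ) *
      (Real.log ((v.primeFactors.filter (fun p : ℕ => (p : ℝ) ≤ z)).card) - 1) ≤ Real.log v := by
  set S := v.primeFactors.filter (fun p : ℕ => (p : ℝ) ≤ z) with hS
  rcases Nat.eq_zero_or_pos S.card with h0 | h0
  · rw [h0]
    simp only [Nat.cast_zero, zero_mul]
    exact Real.log_natCast_nonneg v
  have h1 : S.card.factorial ≤ ∏ x ∈ S, x :=
    t44_fact S fun x hx => (Nat.prime_of_mem_primeFactors (mem_filter.mp hx).1).one_lt.le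
  have h2 : ∏ x ∈ S, x ∣ v :=
    (prod_dvd_prod_of_subset _ _ _ (filter_subset _ _)).trans (Nat.prod_primeFactors_dvd v)
  have h3 : S.card.factorial ≤ v := h1.trans (Nat.le_of_dvd (Nat.pos_of_ne_zero hv) h2)
  have h4 := Real.pow_div_factorial_le_exp (S.card : ℝ) (Nat.cast_nonneg _) S.card
  have hf : (0 : ℝ) < S.card.factorial := by exact_mod_cast Nat.factorial_pos _
  have hc : (0 : ℝ) < S.card := by exact_mod_cast h0
  rw [div_le_iff₀ hf] at h4
  have h5 := Real.log_le_log (by positivity) h4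
  rw [Real.log_pow, Real.log_mul (Real.exp_pos _).ne' hf.ne', Real.log_exp] at h5
  have h6 : Real.log S.card.factorial ≤ Real.log v :=
    Real.log_le_log hf (by exact_mod_cast h3)
  linarith

/-- the lower bound for the logarithm -/
lemma t44_ev (c : ℝ) (hc : 0 < c) : ∃ X0 : ℝ, ∀ X : ℝ, X0 ≤ X → ∀ v : ℕ, ∀ z : ℝ,
    c * (Real.log X / Real.log (Real.log X)) ≤
      ((v.primeFactors.filter (fun p : ℕ => (p : ℝ) ≤ z)).card : ℝ) →
    v ≠ 0 ∧ c / 2 * Real.log X ≤ Real.log v := by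
  have hlog := Real.tendsto_log_atTop
  have h2 : Tendsto (fun X : ℝ => Real.log (Real.log X)) atTop atTop := hlog.comp hlog
  have h3 : Tendsto (fun X : ℝ => Real.log (Real.log (Real.log X)) / Real.log (Real.log X))
      atTop (nhds 0) := by
    have h4 : Tendsto (fun x : ℝ => Real.log x / x) atTop (nhds 0) := by
      have := Real.isLittleO_log_id_atTop.tendsto_div_nhds_zero
      simpa using this
    exact h4.comp h2
  have hev : ∀ᶠ X : ℝ in atTop, 1 ≤ Real.log (Real.log X) ∧ 1 ≤ Real.log X ∧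
      Real.log (Real.log (Real.log X)) / Real.log (Real.log X) ≤ 1 / 4 ∧
      4 * (1 - Real.log c) ≤ Real.log (Real.log X) := by
    filter_upwards [h2.eventually_ge_atTop 1, hlog.eventually_ge_atTop 1,
      h3.eventually (gt_mem_nhds (show (0 : ℝ) < 1 / 4 by norm_num)),
      h2.eventually_ge_atTop (4 * (1 - Real.log c))] with X g1 g2 g3 g4
    exact ⟨g1, g2, g3.le, g4⟩
  obtain ⟨X0, hX0⟩ := eventually_atTop.1 hev
  refine ⟨X0, fun X hX v z hw => ?_⟩
  obtain ⟨g1, g2, g3, g4⟩ := hX0 X hX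
  set w0 : ℝ := c * (Real.log X / Real.log (Real.log X)) with hw0
  have hlX : 0 < Real.log X := by linarith
  have hllX : 0 < Real.log (Real.log X) := by linarith
  have hw0p : 0 < w0 := by positivity
  set w := (v.primeFactors.filter (fun p : ℕ => (p : ℝ) ≤ z)).card with hwd
  have hwp : (0 : ℝ) < w := lt_of_lt_of_le hw0p hw
  have hv : v ≠ 0 := by
    rintro rfl
    rw [hwd] at hwp
    simp at hwp
  refine ⟨hv, ?_⟩
  have h5 : Real.log w0 = Real.log c + Real.log (Real.log X) -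
      Real.log (Real.log (Real.log X)) := by
    rw [hw0, Real.log_mul hc.ne' (by positivity), Real.log_div hlX.ne' hllX.ne']
    ring
  have h6 : 1 / 2 * Real.log (Real.log X) ≤ Real.log w0 - 1 := by
    rw [div_le_iff₀ hllX] at g3
    rw [h5]
    linarith
  have h7 : Real.log w0 ≤ Real.log w := Real.log_le_log hw0p hw
  have h8 := t44_large v hv z
  rw [← hwd] at h8
  calc c / 2 * Real.log X = w0 * (1 / 2 * Real.log (Real.log X)) := by
        rw [hw0]; field_simp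
    _ ≤ w * (Real.log w - 1) := by
        apply mul_le_mul hw (by linarith) (by positivity) hwp.le
    _ ≤ _ := h8

lemma t44_Rk_le : ∃ X0 : ℝ, ∀ X : ℝ, X0 ≤ X → 0 < Rk X ∧ Rk X ≤ (Real.log X) ^ 2 ∧
    Real.log X ≤ (Real.log X) ^ 2 ∧ 1 ≤ Real.log X := by
  obtain ⟨X1, hX1⟩ := rkm 1 le_rfl
  have hlog := Real.tendsto_log_atTop
  have h2 : Tendsto (fun X : ℝ => Real.log (Real.log X)) atTop atTop := hlog.comp hlog
  have h3 : Tendsto (fun X : ℝ => Real.log (Real.log (Real.log X))) atTop atTop := hlog.comp h2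
  have hev : ∀ᶠ X : ℝ in atTop, 0 < Rk X ∧ Rk X ≤ (Real.log X) ^ 2 ∧
      Real.log X ≤ (Real.log X) ^ 2 ∧ 1 ≤ Real.log X := by
    filter_upwards [eventually_ge_atTop X1, hlog.eventually_ge_atTop 1,
      h2.eventually_ge_atTop 1, h3.eventually_ge_atTop 1] with X g0 g1 g2 g3
    refine ⟨(hX1 X g0).1, ?_, by nlinarith, g1⟩
    unfold Rk
    rw [div_le_iff₀ (by positivity)]
    set T := Real.log X
    set A := Real.log T
    set B := Real.log A
    have a1 : A ≤ T := (Real.log_le_sub_one_of_pos (by linarith)).trans (by linarith)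
    have a2 : Real.log B ≤ B := (Real.log_le_sub_one_of_pos (by linarith)).trans (by linarith)
    have a3 : 0 ≤ Real.log B := Real.log_nonneg g3
    have a4 : Real.log B ≤ B ^ 2 := by nlinarith
    calc T * A * Real.log B ≤ T * T * B ^ 2 := by gcongr
      _ = _ := by ring
  obtain ⟨X0, hX0⟩ := eventually_atTop.1 hev
  exact ⟨X0, fun X hX => hX0 X hX⟩

open Classical in
theorem t44 : St_T44 := by
  intro hI k
  obtain ⟨t, ht, c, hc, X1, hun⟩ := t44_unif
    (ι := Σ r : Fin (k + 1), {q : Fin (r : ℕ) × Fin (r : ℕ) × Fin (r : ℕ) // q.1 ≠ q.2.1})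
    (fun x t c X0 => ∀ X : ℝ, X0 ≤ X → ∀ be : Fin (x.1 : ℕ) → ℤ,
      (∀ l, |(be l : ℝ)| ≤ ((1 : ℕ) : ℝ) * X) →
      X / ((1 : ℕ) : ℝ) ≤ ((1 : ℕ) : ℝ) * X + be x.2.1.1 →
      (∀ l m, l ≠ m → ((1 : ℕ) : ℤ) * be m ≠ ((1 : ℕ) : ℤ) * be l) → AdmS (fun _ => 1) be →
      ∃ Z : Fin (x.1 : ℕ) → Finset ℤ, (∀ l, (Z l).card < x.1) ∧
      (∀ l, ∀ u ∈ Z l, ∃ m, m ≠ l ∧ c * (Real.log X / Real.log (Real.log X)) ≤
        (((((1 : ℕ) : ℤ) * (be l + u) - ((1 : ℕ) : ℤ) * be m).natAbs.primeFactors.filter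
          (fun p : ℕ => (p : ℝ) ≤ Real.log X)).card : ℝ)) ∧
      X ^ (99 / 100 : ℝ) ≤
        ((PtsI t 1 X c (fun _ => 1) be x.2.1.1 x.2.1.2.1 x.2.1.2.2 Z).card : ℝ))
    (fun x => hI x.1 (fun _ => 1) (fun _ => le_rfl) 1 le_rfl x.2.1.1 x.2.1.2.1 x.2.1.2.2 x.2.2)
  obtain ⟨X2, hX2⟩ := t44_ev c hc
  obtain ⟨X3, hX3⟩ := t44_Rk_le
  -- growth for the second part
  have hev : ∀ᶠ X : ℝ in atTop, 1 ≤ X ∧ c * (Real.log X) ^ 2 ≤ X ^ (c / 4) ∧
      Real.log 2 < c / 4 * Real.log X := by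
    have hlog := Real.tendsto_log_atTop
    have h1 : ∀ᶠ X : ℝ in atTop, ‖(Real.log X) ^ 2‖ ≤ 1 / c * ‖X ^ (c / 4)‖ := by
      have h2 : (fun x : ℝ => (Real.log x) ^ (2 : ℝ)) =o[atTop] fun x => x ^ (c / 4) :=
        isLittleO_log_rpow_rpow_atTop (s := c / 4) 2 (by positivity)
      have h3 := h2.def (show (0 : ℝ) < 1 / c by positivity)
      filter_upwards [h3] with X hX
      simpa using hX
    filter_upwards [eventually_ge_atTop 1, h1,
      hlog.eventually_gt_atTop (Real.log 2 / (c / 4))] with X g1 g2 g3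
    refine ⟨g1, ?_, ?_⟩
    · rw [Real.norm_of_nonneg (by positivity), Real.norm_of_nonneg (by positivity)] at g2
      calc c * (Real.log X) ^ 2 ≤ c * (1 / c * X ^ (c / 4)) := by gcongr
        _ = _ := by field_simp
    · rw [div_lt_iff₀ (by positivity)] at g3
      linarith
  obtain ⟨X4, hX4⟩ := eventually_atTop.1 hev
  refine ⟨t, ht, c, hc, c / 4, by positivity, max (max X1 X2) (max X3 X4), ?_⟩
  intro X hX H hcard hHX hadm h₁ hh₁ h₂ hh₂ h₀ hh₀ hne
  have g1 : X1 ≤ X := ((le_max_left _ _).trans (le_max_left _ _)).trans hX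
  have g2 : X2 ≤ X := ((le_max_right _ _).trans (le_max_left _ _)).trans hX
  have g3 : X3 ≤ X := ((le_max_left _ _).trans (le_max_right _ _)).trans hX
  have g4 : X4 ≤ X := ((le_max_right _ _).trans (le_max_right _ _)).trans hX
  obtain ⟨r1, r2, r3, r4⟩ := hX3 X g3
  obtain ⟨s1, s2, s3⟩ := hX4 X g4
  set e := H.orderIsoOfFin rfl with he
  have hes : ∀ (h : ℕ) (hh : h ∈ H), ((e (e.symm ⟨h, hh⟩) : H) : ℕ) = h := by
    intro h hh
    rw [OrderIso.apply_symm_apply]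
  have hij : e.symm ⟨h₁, hh₁⟩ ≠ e.symm ⟨h₂, hh₂⟩ := by
    intro hc'
    have := e.symm.injective hc'
    exact hne (Subtype.mk.inj this)
  obtain ⟨t', c', X0', ht'1, ht't, hc'0, hcc', hX0', hP⟩ := hun ⟨⟨H.card, Nat.lt_succ_of_le hcard⟩,
    ⟨(e.symm ⟨h₁, hh₁⟩, e.symm ⟨h₂, hh₂⟩, e.symm ⟨h₀, hh₀⟩), hij⟩⟩
  have hbe : ∀ l, |((((e l : H) : ℕ) : ℤ) : ℝ)| ≤ ((1 : ℕ) : ℝ) * X := by
    intro l
    have h1 := hHX _ (e l).2
    have h2 : (0 : ℝ) ≤ (((e l : H) : ℕ) : ℝ) := Nat.cast_nonneg _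
    rw [Int.cast_natCast, abs_of_nonneg h2, Nat.cast_one, one_mul]
    exact h1
  obtain ⟨Z0, hZ1, hZ2, hZ3⟩ := hP X (hX0'.trans g1) (fun l => (((e l : H) : ℕ) : ℤ)) hbe
    (by
      rw [Nat.cast_one, div_one, one_mul]
      simp only [Int.cast_natCast]
      have : (0 : ℝ) ≤ (((e (e.symm ⟨h₁, hh₁⟩) : H) : ℕ) : ℝ) := Nat.cast_nonneg _
      linarith)
    (by
      intro l m hlm h
      rw [Nat.cast_one, one_mul, one_mul] at h
      have h3 : ((e m : H) : ℕ) = ((e l : H) : ℕ) := by exact_mod_cast h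
      exact hlm (e.injective (Subtype.ext h3)).symm)
    (by
      intro p hp
      obtain ⟨r, hr⟩ := hadm p hp
      refine ⟨r, fun l h => hr _ (e l).2 ?_⟩
      simp only [fm, Nat.cast_one, one_mul] at h
      exact_mod_cast h)
  set Z : ℕ → Finset ℤ := fun h => if hh : h ∈ H then Z0 (e.symm ⟨h, hh⟩) else ∅ with hZdef
  have hZh : ∀ (h : ℕ) (hh : h ∈ H), Z h = Z0 (e.symm ⟨h, hh⟩) := fun h hh => by
    rw [hZdef]; simp only [dif_pos hh]
  have hlX0 : 0 < Real.log X := by linarith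
  have hll : 0 ≤ Real.log X / Real.log (Real.log X) :=
    div_nonneg hlX0.le (Real.log_nonneg r4)
  have hfm : ∀ (h : ℕ) (hh : h ∈ H) (n : ℕ), fm (fun _ => 1)
      (fun l => (((e l : H) : ℕ) : ℤ)) (e.symm ⟨h, hh⟩) n = (n : ℤ) + h := by
    intro h hh n
    simp only [fm, Nat.cast_one, one_mul, hes]
  -- the exceptional shifts
  have hZbad : ∀ h ∈ H, (Z h).card < H.card ∧ ∀ s ∈ Z h, ∃ h' ∈ H, h' ≠ h ∧
      c * (Real.log X / Real.log (Real.log X)) ≤
        ((((h : ℤ) + s - h').natAbs.primeFactors.filter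
          (fun p : ℕ => (p : ℝ) ≤ Real.log X)).card : ℝ) := by
    intro h hh
    rw [hZh h hh]
    refine ⟨hZ1 _, fun s hs => ?_⟩
    obtain ⟨m, hm, hcm⟩ := hZ2 _ s hs
    refine ⟨((e m : H) : ℕ), (e m).2, ?_, ?_⟩
    · intro h2
      apply hm
      apply e.injective
      rw [OrderIso.apply_symm_apply]
      exact Subtype.ext h2
    · simp only [Nat.cast_one, one_mul, hes] at hcm
      exact (mul_le_mul_of_nonneg_right hcc' hll).trans hcm
  -- the inclusion
  have hX1' : (1 : ℝ) ≤ X := s1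
  have hsub : PtsI t' 1 X c' (fun _ => 1) (fun l => (((e l : H) : ℕ) : ℤ)) (e.symm ⟨h₁, hh₁⟩)
      (e.symm ⟨h₂, hh₂⟩) (e.symm ⟨h₀, hh₀⟩) Z0 ⊆ PtsU t X c H h₁ h₂ h₀ Z := by
    intro n hn
    simp only [PtsI, PtsU, mem_filter, mem_range] at hn ⊢
    obtain ⟨n1, n2, n3, n4, n5, n6, n7, n8⟩ := hn
    rw [hfm] at n5 n6
    refine ⟨n1, n2, ?_, n6, fun h hh => ?_, fun h hh s hs hsZ hsH => ?_⟩
    · have : ((n : ℤ) + h₁).natAbs = n + h₁ := by omega
      rwa [this] at n5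
    · have h7 := n7 (e.symm ⟨h, hh⟩)
      rw [hfm] at h7
      refine fun p hp hpm => lt_of_le_of_lt ?_ (h7 p hp hpm)
      apply Real.rpow_le_rpow_of_exponent_le hX1'
      apply one_div_le_one_div_of_le
      · exact_mod_cast ht'1
      · exact_mod_cast ht't
    · have h8 := n8 (e.symm ⟨h, hh⟩) s (by
        by_cases h0 : h = h₀
        · subst h0
          rw [if_pos rfl] at hs ⊢
          exact hs.trans (mul_le_mul_of_nonneg_right hcc' r1.le)
        · rw [if_neg h0] at hs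
          rw [if_neg (by
            intro h'
            exact h0 (Subtype.mk.inj (e.symm.injective h')))]
          exact hs.trans (mul_le_mul_of_nonneg_right hcc' hlX0.le))
        (by rwa [hZh h hh] at hsZ) (by
        intro m hm
        have hm' : fm (fun _ => 1) (fun l => (((e l : H) : ℕ) : ℤ)) m n =
            (n : ℤ) + ((e m : H) : ℕ) := by
          simp only [fm, Nat.cast_one, one_mul]
        rw [hfm, hm'] at hm
        exact hsH _ (e m).2 (by linarith))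
      rw [hfm] at h8
      exact h8
  have hfirst : X ^ (99 / 100 : ℝ) ≤ ((PtsU t X c H h₁ h₂ h₀ Z).card : ℝ) :=
    hZ3.trans (by exact_mod_cast card_le_card hsub)
  refine ⟨⟨Z, hZbad, hfirst⟩, fun hsmall => hfirst.trans ?_⟩
  have hsub2 : PtsU t X c H h₁ h₂ h₀ Z ⊆ PtsU t X c H h₁ h₂ h₀ (fun _ => ∅) := by
    intro n hn
    simp only [PtsU, mem_filter, mem_range] at hn ⊢
    obtain ⟨n1, n2, n3, n4, n5, n6⟩ := hn
    refine ⟨n1, n2, n3, n4, n5, fun h hh s hs _ hsH => n6 h hh s hs ?_ hsH⟩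
    intro hsZ
    obtain ⟨h', hh', hne', hbig⟩ := (hZbad h hh).2 s hsZ
    obtain ⟨hv0, hv⟩ := hX2 X g2 _ _ hbig
    have hsX : |(s : ℝ)| ≤ c * (Real.log X) ^ 2 := by
      split_ifs at hs
      · exact hs.trans (mul_le_mul_of_nonneg_left r2 hc.le)
      · exact hs.trans (mul_le_mul_of_nonneg_left r3 hc.le)
    have hvX : ((((h : ℤ) + s - h').natAbs : ℕ) : ℝ) ≤ 2 * X ^ (c / 4) := by
      rw [Nat.cast_natAbs, Int.cast_abs]
      push_cast
      have a1 := hsmall h hh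
      have a2 := hsmall h' hh'
      have a3 : (0 : ℝ) ≤ h := Nat.cast_nonneg _
      have a4 : (0 : ℝ) ≤ h' := Nat.cast_nonneg _
      have a5 := abs_le.mp (hsX.trans s2)
      rw [abs_le]
      constructor <;> linarith
    have hvpos : (0 : ℝ) < ((((h : ℤ) + s - h').natAbs : ℕ) : ℝ) := by
      exact_mod_cast Nat.pos_of_ne_zero hv0
    have h9 := Real.log_le_log hvpos hvX
    rw [Real.log_mul (by norm_num) (by positivity), Real.log_rpow (by linarith)] at h9
    linarith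
  exact_mod_cast card_le_card hsub2

end Pool.Agent.Q117.LF
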