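import Pool.Agent.Q117.LF.Stm4
import Pool.Agent.Q117.LF.T44

/-!
Project LF (helper117), job T43 (helper150): Goldbach, isolated summands.
-/

set_option autoImplicit false

namespace Pool.Agent.Q117.LF

open Finset Filter
open Pool.Agent.Q117.GP (Rk)

/-- the intercepts -/
def t43be (n : ℕ) : Fin 2 → ℤ := ![0, -(2 * (n : ℤ))]

lemma t43_fm0 (n x : ℕ) : fm (fun _ => 1) (t43be n) 0 x = x := by
  simp [fm, t43be]

lemma t43_fm1 (n x : ℕ) : fm (fun _ => 1) (t43be n) 1 x = (x : ℤ) - 2 * n := by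
  simp [fm, t43be]; ring

lemma t43_adm (n : ℕ) : AdmS (fun _ => 1) (t43be n) := by
  intro p hp
  have key : ∀ x : ℕ, ¬ (p : ℤ) ∣ x → ¬ (p : ℤ) ∣ (x : ℤ) - 2 * n →
      ∀ l, ¬ (p : ℤ) ∣ fm (fun _ => 1) (t43be n) l x := by
    intro x h0 h1 l
    fin_cases l
    · rw [show ((⟨0, by omega⟩ : Fin 2)) = 0 from rfl, t43_fm0]; exact h0
    · rw [show ((⟨1, by omega⟩ : Fin 2)) = 1 from rfl, t43_fm1]; exact h1
  have hp1 : ¬ (p : ℤ) ∣ 1 := by
    intro h
    have : p ∣ 1 := by exact_mod_cast h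
    exact hp.one_lt.ne' (Nat.dvd_one.mp this)
  by_cases h : (p : ℤ) ∣ 1 - 2 * n
  · refine ⟨2, key 2 ?_ ?_⟩
    · intro h2
      push_cast at h2
      apply hp1
      have h3 : (p : ℤ) ∣ 2 * n := h2.mul_right _
      have h4 := dvd_add h h3
      rwa [sub_add_cancel] at h4
    · intro h2
      apply hp1
      have h3 := dvd_sub h2 h
      push_cast at h3
      have e : ((2 : ℤ) - 2 * n) - (1 - 2 * n) = 1 := by ring
      rwa [e] at h3
  · refine ⟨1, key 1 ?_ ?_⟩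
    · exact_mod_cast hp1
    · push_cast
      exact h

lemma t43_Ro_neg {z : ℝ} {m : ℤ} (h : Ro z m) : Ro z (-m) :=
  fun p hp hpm => h p hp ((dvd_neg).mp hpm)

/-- the eventual inequalities -/
lemma t43_ev (t : ℕ) (ht : 1 ≤ t) (c : ℝ) : ∃ N : ℕ, ∀ n : ℕ, N ≤ n → ∀ g : ℕ, 1 ≤ g → g ≤ 2 →
    1 ≤ (n : ℝ) / g ∧ (n : ℝ) ^ (1 / 9 : ℝ) ≤ ((n : ℝ) / g) ^ (1 / 8 : ℝ) ∧
    (n : ℝ) ^ (1 / ((t + 1 : ℕ) : ℝ)) ≤ ((n : ℝ) / g) ^ (1 / (t : ℝ)) ∧
    (n : ℝ) ^ (98 / 100 : ℝ) ≤ ((n : ℝ) / g) ^ (99 / 100 : ℝ) ∧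
    Real.log n ≤ 2 * Real.log ((n : ℝ) / g) ∧ 1 ≤ Real.log (Real.log ((n : ℝ) / g)) ∧
    1 ≤ Real.log ((n : ℝ) / g) ∧
    c * (Real.log n) ^ 2 < 2 * n ∧ 0 < Rk n ∧ Rk n ≤ (Real.log n) ^ 2 ∧
    Real.log n ≤ (Real.log n) ^ 2 ∧ Rk n ≤ 2 * Rk ((n : ℝ) / g) ∧ 0 < Rk ((n : ℝ) / g) := by
  obtain ⟨X1, hX1⟩ := rkm 1 le_rfl
  obtain ⟨X2, hX2⟩ := rkm 2 (by norm_num)
  obtain ⟨X3, hX3⟩ := t44_Rk_le
  have hlog := Real.tendsto_log_atTop
  have h2 : Tendsto (fun X : ℝ => Real.log (Real.log X)) atTop atTop := hlog.comp hlog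
  have ht0 : (0 : ℝ) < t := by exact_mod_cast ht
  -- powers
  have hpow : ∀ a b : ℝ, a < b → 0 < b → ∀ᶠ X : ℝ in atTop, X ^ a ≤ (X / 2) ^ b := by
    intro a b hab hb
    have h3 : Tendsto (fun X : ℝ => X ^ (b - a)) atTop atTop := tendsto_rpow_atTop (by linarith)
    filter_upwards [eventually_gt_atTop 0, h3.eventually_ge_atTop ((2 : ℝ) ^ b)] with X g1 g2
    rw [Real.div_rpow g1.le (by norm_num), le_div_iff₀ (by positivity)]
    calc X ^ a * 2 ^ b ≤ X ^ a * X ^ (b - a) := by gcongr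
      _ = X ^ b := by rw [← Real.rpow_add g1]; congr 1; ring
  have hlogsq : ∀ᶠ X : ℝ in atTop, c * (Real.log X) ^ 2 < 2 * X := by
    have h3 : Tendsto (fun X : ℝ => c * ((Real.log X) ^ 2 / X)) atTop (nhds 0) := by
      have h4 : Tendsto (fun X : ℝ => (Real.log X) ^ 2 / (1 * X + 0)) atTop (nhds 0) :=
        Real.tendsto_pow_log_div_mul_add_atTop 1 0 2 one_ne_zero
      have h5 := h4.const_mul c
      simpa using h5
    filter_upwards [eventually_gt_atTop 0, h3.eventually (gt_mem_nhds (show (0 : ℝ) < 2 by norm_num))]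
      with X g1 g2
    rw [← mul_div_assoc, div_lt_iff₀ g1] at g2
    exact g2
  have hdiv : Tendsto (fun X : ℝ => X / 2) atTop atTop := tendsto_id.atTop_div_const (by norm_num)
  have hev : ∀ᶠ X : ℝ in atTop, 4 ≤ X ∧ X ^ (1 / 9 : ℝ) ≤ (X / 2) ^ (1 / 8 : ℝ) ∧
      X ^ (1 / ((t + 1 : ℕ) : ℝ)) ≤ (X / 2) ^ (1 / (t : ℝ)) ∧
      X ^ (98 / 100 : ℝ) ≤ (X / 2) ^ (99 / 100 : ℝ) ∧
      1 ≤ Real.log (Real.log (X / 2)) ∧ 1 ≤ Real.log (X / 2) ∧
      c * (Real.log X) ^ 2 < 2 * X ∧ max (max X1 X2) (2 * X3) ≤ X ∧ X1 ≤ X / 2 := by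
    filter_upwards [eventually_ge_atTop 4, hpow (1 / 9) (1 / 8) (by norm_num) (by norm_num),
      hpow (1 / ((t + 1 : ℕ) : ℝ)) (1 / (t : ℝ)) (by
        apply one_div_lt_one_div_of_lt ht0
        push_cast; linarith) (by positivity),
      hpow (98 / 100) (99 / 100) (by norm_num) (by norm_num),
      (h2.comp hdiv).eventually_ge_atTop 1, (hlog.comp hdiv).eventually_ge_atTop 1, hlogsq,
      eventually_ge_atTop (max (max X1 X2) (2 * X3)), hdiv.eventually_ge_atTop X1]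
      with X g1 g2 g3 g4 g5 g6 g7 g8 g9
    exact ⟨g1, g2, g3, g4, g5, g6, g7, g8, g9⟩
  obtain ⟨X0, hX0⟩ := eventually_atTop.1 hev
  refine ⟨⌈X0⌉₊, fun n hn g hg1 hg2 => ?_⟩
  obtain ⟨k1, k2, k3, k4, k5, k6, k7, k8, k9⟩ := hX0 n ((Nat.le_ceil _).trans (by exact_mod_cast hn))
  have hg0 : (0 : ℝ) < g := by exact_mod_cast hg1
  have hg2' : (g : ℝ) ≤ 2 := by exact_mod_cast hg2
  have hgn : (n : ℝ) / 2 ≤ (n : ℝ) / g := by gcongr
  have hn0 : (0 : ℝ) < (n : ℝ) / 2 := by linarith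
  have hlg : Real.log ((n : ℝ) / 2) ≤ Real.log ((n : ℝ) / g) := Real.log_le_log hn0 hgn
  have m1 : X1 ≤ n := ((le_max_left _ _).trans (le_max_left _ _)).trans k8
  have m2 : X2 ≤ n := ((le_max_right _ _).trans (le_max_left _ _)).trans k8
  have m3 : 2 * X3 ≤ n := (le_max_right _ _).trans k8
  have hR : 0 < Rk n ∧ Rk n ≤ (Real.log n) ^ 2 ∧ Real.log n ≤ (Real.log n) ^ 2 ∧
      1 ≤ Real.log (n : ℝ) := by
    by_cases h : X3 ≤ n
    · exact hX3 n h
    · exfalso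
      have : (0 : ℝ) ≤ n := Nat.cast_nonneg n
      have : X3 < 0 ∨ 0 ≤ X3 := lt_or_ge _ _
      rcases this with h' | h' <;> linarith
  have hg12 : g = 1 ∨ g = 2 := by omega
  refine ⟨by linarith, k2.trans (Real.rpow_le_rpow hn0.le hgn (by norm_num)),
    k3.trans (Real.rpow_le_rpow hn0.le hgn (by positivity)),
    k4.trans (Real.rpow_le_rpow hn0.le hgn (by norm_num)), ?_,
    k5.trans (Real.log_le_log (by linarith) hlg), k6.trans hlg, k7, hR.1, hR.2.1, hR.2.2.1, ?_, ?_⟩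
  · have h4 : Real.log n ≤ Real.log (((n : ℝ) / 2) ^ 2) := by
      apply Real.log_le_log (by linarith)
      nlinarith
    rw [Real.log_pow, Nat.cast_ofNat] at h4
    linarith
  · rcases hg12 with rfl | rfl
    · exact (hX1 n m1).2
    · exact (hX2 n m2).2
  · rcases hg12 with rfl | rfl
    · rw [Nat.cast_one, div_one]; exact hR.1
    · exact (hX1 _ (by push_cast; exact k9)).1

open Classical in
/-- the first part -/
lemma t43_first (hI : ISOc) : ∃ t : ℕ, 1 ≤ t ∧ ∃ c : ℝ, 0 < c ∧ ∃ N : ℕ, ∀ n : ℕ, N ≤ n →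
    (c * Rk n ≤ c * (Real.log n) ^ 2 ∧ c * Real.log n ≤ c * (Real.log n) ^ 2 ∧
      c * (Real.log n) ^ 2 < 2 * n) ∧ ∀ D D' : ℝ,
    (D = c * Rk n ∧ D' = c * Real.log n ∨ D = c * Real.log n ∧ D' = c * Rk n) → ∀ e : ℕ, e ≤ 1 →
      ∃ Z Z' : Finset ℤ, FewG c n Z ∧ FewG c n Z' ∧
        (n : ℝ) ^ (98 / 100 : ℝ) ≤ ((PtsG t e n D D' Z Z').card : ℝ) := by
  obtain ⟨T, hT, C, hC, X1, hun⟩ := t44_unif (ι := Fin 2)
    (fun i₀ t c X0 => ∀ X : ℝ, X0 ≤ X → ∀ be : Fin 2 → ℤ,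
      (∀ l, |(be l : ℝ)| ≤ ((8 : ℕ) : ℝ) * X) →
      X / ((8 : ℕ) : ℝ) ≤ ((1 : ℕ) : ℝ) * X + be 0 →
      (∀ l m, l ≠ m → ((1 : ℕ) : ℤ) * be m ≠ ((1 : ℕ) : ℤ) * be l) → AdmS (fun _ => 1) be →
      ∃ Z : Fin 2 → Finset ℤ, (∀ l, (Z l).card < 2) ∧
      (∀ l, ∀ u ∈ Z l, ∃ m, m ≠ l ∧ c * (Real.log X / Real.log (Real.log X)) ≤
        (((((1 : ℕ) : ℤ) * (be l + u) - ((1 : ℕ) : ℤ) * be m).natAbs.primeFactors.filter
          (fun p : ℕ => (p : ℝ) ≤ Real.log X)).card : ℝ)) ∧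
      X ^ (99 / 100 : ℝ) ≤ ((PtsI t 8 X c (fun _ => 1) be 0 1 i₀ Z).card : ℝ))
    (fun i₀ => hI 2 (fun _ => 1) (fun _ => le_rfl) 8 (by norm_num) 0 1 i₀ (by decide))
  obtain ⟨N1, hN1⟩ := t43_ev T hT (C / 2)
  refine ⟨T + 1, by omega, C / 2, by positivity, max N1 (⌈2 * |X1|⌉₊ + 1), fun n hn => ?_⟩
  have hnN1 : N1 ≤ n := (le_max_left _ _).trans hn
  have hnX : 2 * |X1| ≤ n :=
    (Nat.le_ceil _).trans (by exact_mod_cast (Nat.le_succ _).trans ((le_max_right _ _).trans hn))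
  have hn1 : 1 ≤ n := by
    have := (le_max_right _ _).trans hn
    omega
  have hn0 : (0 : ℝ) < n := by exact_mod_cast hn1
  constructor
  · obtain ⟨-, -, -, -, -, -, -, q8, q9, q10, q11, -, -⟩ := hN1 n hnN1 1 le_rfl (by norm_num)
    exact ⟨by gcongr, by gcongr, q8⟩
  intro D D' hD e he
  obtain ⟨g, hg⟩ : ∃ g : ℕ, g = 2 - e := ⟨_, rfl⟩
  have hg1 : 1 ≤ g := by omega
  have hg2 : g ≤ 2 := by omega
  obtain ⟨q1, q2, q3, q4, q5, q6, q7, q8, q9, q10, q11, q12, q13⟩ := hN1 n hnN1 g hg1 hg2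
  obtain ⟨X, hXdef⟩ : ∃ X : ℝ, X = (n : ℝ) / g := ⟨_, rfl⟩
  rw [← hXdef] at q1 q2 q3 q4 q5 q6 q7 q12 q13
  have hg0 : (0 : ℝ) < g := by exact_mod_cast hg1
  have hg2' : (g : ℝ) ≤ 2 := by exact_mod_cast hg2
  have hXn : X ≤ n := by
    rw [hXdef]
    exact div_le_self hn0.le (by exact_mod_cast hg1)
  have hnX2 : (n : ℝ) ≤ 2 * X := by
    rw [hXdef, ← mul_div_assoc, le_div_iff₀ hg0]
    nlinarith
  have hX1X : X1 ≤ X := by
    have := le_abs_self X1
    linarith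
  have hlogXn : Real.log X ≤ Real.log n := Real.log_le_log (by linarith) hXn
  have hlX : 0 < Real.log X := by linarith
  have hllX : 0 < Real.log (Real.log X) := by linarith
  have hDn : D < 2 * n ∧ D' < 2 * n := by
    rcases hD with ⟨h1, h2⟩ | ⟨h1, h2⟩
    · rw [h1, h2]
      exact ⟨lt_of_le_of_lt (by gcongr) q8, lt_of_le_of_lt (by gcongr) q8⟩
    · rw [h1, h2]
      exact ⟨lt_of_le_of_lt (by gcongr) q8, lt_of_le_of_lt (by gcongr) q8⟩
  have e1 : C / 2 * Rk n ≤ C * Rk X := by nlinarith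
  have e2 : C / 2 * Real.log n ≤ C * Real.log X := by nlinarith
  have hcase : ∃ i₀ : Fin 2, (D ≤ if (0 : Fin 2) = i₀ then C * Rk X else C * Real.log X) ∧
      (D' ≤ if (1 : Fin 2) = i₀ then C * Rk X else C * Real.log X) := by
    rcases hD with ⟨h1, h2⟩ | ⟨h1, h2⟩
    · refine ⟨0, ?_, ?_⟩
      · rw [if_pos rfl, h1]; exact e1
      · rw [if_neg (by decide), h2]; exact e2
    · refine ⟨1, ?_, ?_⟩
      · rw [if_neg (by decide), h1]; exact e2
      · rw [if_pos rfl, h2]; exact e1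
  obtain ⟨i₀, hD0, hD1⟩ := hcase
  obtain ⟨t', c', X0', ht'1, ht't, hc'0, hcc', hX0', hP⟩ := hun i₀
  have hmono : ∀ b : Prop, ∀ _ : Decidable b, (if b then C * Rk X else C * Real.log X) ≤
      if b then c' * Rk X else c' * Real.log X := by
    intro b _
    split_ifs
    · exact mul_le_mul_of_nonneg_right hcc' q13.le
    · exact mul_le_mul_of_nonneg_right hcc' hlX.le
  obtain ⟨Z0, hZ1, hZ2, hZ3⟩ := hP X (hX0'.trans hX1X) (t43be n)
    (by
      intro l
      fin_cases l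
      · simp [t43be]; linarith
      · simp [t43be]; linarith)
    (by
      simp [t43be]
      linarith)
    (by
      intro l m hlm
      fin_cases l <;> fin_cases m <;> simp [t43be] at hlm ⊢ <;> omega)
    (t43_adm n)
  have hb0 : t43be n 0 = 0 := rfl
  have hb1 : t43be n 1 = -(2 * (n : ℤ)) := rfl
  -- comparison of the number of prime factors
  have hfew : ∀ v : ℕ, c' * (Real.log X / Real.log (Real.log X)) ≤
      ((v.primeFactors.filter (fun p : ℕ => (p : ℝ) ≤ Real.log X)).card : ℝ) →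
      C / 2 * (Real.log n / Real.log (Real.log n)) ≤
      ((v.primeFactors.filter (fun p : ℕ => (p : ℝ) ≤ Real.log n)).card : ℝ) := by
    intro v hv
    have f1 : Real.log (Real.log X) ≤ Real.log (Real.log n) := Real.log_le_log hlX hlogXn
    calc C / 2 * (Real.log n / Real.log (Real.log n))
        ≤ C / 2 * (2 * Real.log X / Real.log (Real.log X)) := by
          gcongr
      _ = C * (Real.log X / Real.log (Real.log X)) := by ring
      _ ≤ c' * (Real.log X / Real.log (Real.log X)) := by gcongr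
      _ ≤ _ := hv
      _ ≤ _ := by
          apply Nat.cast_le.mpr
          apply card_le_card
          intro p hp
          rw [mem_filter] at hp ⊢
          exact ⟨hp.1, hp.2.trans hlogXn⟩
  refine ⟨(Z0 0).erase 0, ((Z0 1).erase 0).image (fun u => -u), ⟨?_, ?_⟩, ⟨?_, ?_⟩, ?_⟩
  · exact (card_erase_le).trans (Nat.lt_succ_iff.mp (hZ1 0))
  · intro s hs
    rw [mem_erase] at hs
    refine ⟨hs.1, ?_⟩
    obtain ⟨m, hm, hcm⟩ := hZ2 0 s hs.2
    have hm1 : m = 1 := by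
      fin_cases m
      · exact absurd rfl hm
      · rfl
    subst hm1
    have := hfew _ hcm
    rw [hb0, hb1] at this
    have e3 : ((1 : ℕ) : ℤ) * (0 + s) - ((1 : ℕ) : ℤ) * (-(2 * (n : ℤ))) = 2 * (n : ℤ) + s := by
      push_cast; ring
    rw [e3] at this
    exact this
  · exact (card_image_le).trans ((card_erase_le).trans (Nat.lt_succ_iff.mp (hZ1 1)))
  · intro s hs
    rw [mem_image] at hs
    obtain ⟨u, hu, rfl⟩ := hs
    rw [mem_erase] at hu
    refine ⟨neg_ne_zero.mpr hu.1, ?_⟩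
    obtain ⟨m, hm, hcm⟩ := hZ2 1 u hu.2
    have hm1 : m = 0 := by
      fin_cases m
      · rfl
      · exact absurd rfl hm
    subst hm1
    have := hfew _ hcm
    rw [hb0, hb1] at this
    have e3 : ((1 : ℕ) : ℤ) * (-(2 * (n : ℤ)) + u) - ((1 : ℕ) : ℤ) * 0 =
        -(2 * (n : ℤ) + -u) := by
      push_cast; ring
    rw [e3, Int.natAbs_neg] at this
    exact this
  · refine q4.trans (hZ3.trans ?_)
    apply Nat.cast_le.mpr
    apply card_le_card
    intro x hx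
    simp only [PtsI, PtsG, mem_filter, mem_range, mem_Icc] at hx ⊢
    obtain ⟨n1, n2, n3, n4, n5, n6, n7, n8⟩ := hx
    have hxpos : (0 : ℝ) < x := by linarith
    have hx0 : 1 ≤ x := by exact_mod_cast hxpos
    push_cast at n3
    have hge : ((g : ℝ)) * X = n := by rw [hXdef]; field_simp
    have hgee : (g : ℝ) = 2 - e := by
      rw [hg, Nat.cast_sub (by omega)]; norm_num
    have he1 : (e : ℝ) ≤ 1 := by exact_mod_cast he
    have he0 : (0 : ℝ) ≤ e := Nat.cast_nonneg e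
    have he01 : e = 0 ∨ e = 1 := by omega
    have w1 : ((1 + e : ℕ) : ℝ) * n < 2 * x := by
      rcases he01 with h0 | h0
      · have g2 : (g : ℝ) = 2 := by rw [hgee, h0]; norm_num
        rw [g2] at hge
        rw [h0]; push_cast; linarith
      · have g2 : (g : ℝ) = 1 := by rw [hgee, h0]; norm_num
        rw [g2] at hge
        rw [h0]; push_cast; linarith
    have w2 : 2 * (x : ℝ) < ((2 + e : ℕ) : ℝ) * n := by
      rcases he01 with h0 | h0
      · have g2 : (g : ℝ) = 2 := by rw [hgee, h0]; norm_num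
        rw [g2] at hge
        rw [h0]; push_cast; linarith
      · have g2 : (g : ℝ) = 1 := by rw [hgee, h0]; norm_num
        rw [g2] at hge
        rw [h0]; push_cast; linarith
    have w1' : (1 + e) * n < 2 * x := by exact_mod_cast w1
    have w2' : 2 * x < (2 + e) * n := by exact_mod_cast w2
    have w3 : x ≤ 2 * n := by
      have : (2 + e) * n ≤ 3 * n := Nat.mul_le_mul_right _ (by omega)
      omega
    rw [t43_fm0, Int.natAbs_natCast] at n5
    rw [t43_fm1] at n6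
    have n7' := n7 1
    rw [t43_fm1] at n7'
    have hneg : (2 * (n : ℤ) - x) = -((x : ℤ) - 2 * n) := by ring
    have hexp : (n : ℝ) ^ (1 / ((T + 1 : ℕ) : ℝ)) ≤ X ^ (1 / (t' : ℝ)) := by
      refine q3.trans (Real.rpow_le_rpow_of_exponent_le q1 ?_)
      apply one_div_le_one_div_of_le
      · exact_mod_cast ht'1
      · exact_mod_cast ht't
    refine ⟨⟨hx0, w3⟩, w1', w2', n5, ⟨?_, ?_⟩, ?_, ?_, ?_⟩
    · rw [hneg, Int.natAbs_neg]; exact n6.1
    · rw [hneg]
      exact t43_Ro_neg fun p hp hpm => lt_of_le_of_lt q2 (n6.2 p hp hpm)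
    · rw [hneg]
      exact t43_Ro_neg fun p hp hpm => lt_of_le_of_lt hexp (n7' p hp hpm)
    · intro s hs hs0 hsZ hRo
      have hsn : |(s : ℝ)| < 2 * n := lt_of_le_of_lt hs hDn.1
      refine n8 0 s ((hs.trans hD0).trans (hmono _ _)) ?_ ?_ ?_
      · intro h; exact hsZ (mem_erase.mpr ⟨hs0, h⟩)
      · intro m
        fin_cases m
        · intro h
          apply hs0
          have h' : fm (fun _ => 1) (t43be n) 0 x + s = fm (fun _ => 1) (t43be n) 0 x := h
          linarith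
        · intro h
          have h' : fm (fun _ => 1) (t43be n) 0 x + s = fm (fun _ => 1) (t43be n) 1 x := h
          rw [t43_fm0, t43_fm1] at h'
          have h3 : s = -(2 * (n : ℤ)) := by linarith
          rw [h3] at hsn
          push_cast at hsn
          rw [abs_neg, abs_of_nonneg (by positivity)] at hsn
          exact lt_irrefl _ hsn
      · rw [t43_fm0]
        exact fun p hp hpm => lt_of_le_of_lt hlogXn (hRo p hp hpm)
    · intro s hs hs0 hsZ hRo
      have hsn : |(s : ℝ)| < 2 * n := lt_of_le_of_lt hs hDn.2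
      refine n8 1 (-s) (le_trans (by push_cast; rw [abs_neg]; exact hs.trans hD1) (hmono _ _))
        ?_ ?_ ?_
      · intro h
        apply hsZ
        rw [mem_image]
        exact ⟨-s, mem_erase.mpr ⟨neg_ne_zero.mpr hs0, h⟩, neg_neg s⟩
      · intro m
        fin_cases m
        · intro h
          have h' : fm (fun _ => 1) (t43be n) 1 x + -s = fm (fun _ => 1) (t43be n) 0 x := h
          rw [t43_fm0, t43_fm1] at h'
          have h3 : s = -(2 * (n : ℤ)) := by linarith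
          rw [h3] at hsn
          push_cast at hsn
          rw [abs_neg, abs_of_nonneg (by positivity)] at hsn
          exact lt_irrefl _ hsn
        · intro h
          apply hs0
          have h' : fm (fun _ => 1) (t43be n) 1 x + -s = fm (fun _ => 1) (t43be n) 1 x := h
          linarith
      · rw [t43_fm1]
        have e4 : (x : ℤ) - 2 * n + -s = -(2 * (n : ℤ) - x + s) := by ring
        rw [e4]
        exact t43_Ro_neg fun p hp hpm => lt_of_le_of_lt hlogXn (hRo p hp hpm)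

/-- eventual inequalities for the second part -/
lemma t43_ev2 (c δ₀ : ℝ) (hc : 0 < c) (hδ₀ : 0 < δ₀) (B : ℝ) : ∃ M0 : ℝ, ∀ M : ℝ, M0 ≤ M →
    B ≤ √M ∧ B ≤ M ∧ c * (Real.log M) ^ 2 ≤ M ∧
    √M + (2 * (c * (Real.log M) ^ 2) + 1) * (3 * M) ^ (1 - δ₀) ≤ M ^ (1 - min δ₀ (1 / 2) / 2) ∧
    ∀ x : ℝ, √M ≤ x → x ≤ M → 1 ≤ x ∧ 0 ≤ Real.log x ∧ Real.log x ≤ Real.log M ∧
      Real.log x ≤ Real.log (3 * M) ∧
      c / 4 * (Real.log (3 * M) / Real.log (Real.log (3 * M))) ≤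
        c * (Real.log x / Real.log (Real.log x)) := by
  set δ : ℝ := min δ₀ (1 / 2) with hδ
  have hδ0 : 0 < δ := lt_min hδ₀ (by norm_num)
  have hδ1 : δ ≤ δ₀ := min_le_left _ _
  have hδ2 : δ ≤ 1 / 2 := min_le_right _ _
  have hlog := Real.tendsto_log_atTop
  have hsq : Tendsto (fun M : ℝ => √M) atTop atTop := Real.tendsto_sqrt_atTop
  have h1 : ∀ᶠ M : ℝ in atTop, ‖(Real.log M) ^ (2 : ℝ)‖ ≤ 1 / (12 * c) * ‖M ^ (δ / 2)‖ :=
    (isLittleO_log_rpow_rpow_atTop (s := δ / 2) 2 (by positivity)).def (by positivity)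
  have h2 : ∀ᶠ M : ℝ in atTop, ‖(Real.log M) ^ (2 : ℝ)‖ ≤ 1 / c * ‖M ^ (1 : ℝ)‖ :=
    (isLittleO_log_rpow_rpow_atTop (s := 1) 2 (by positivity)).def (by positivity)
  have h3 : ∀ᶠ M : ℝ in atTop, 8 ≤ M ^ (δ / 2) :=
    (tendsto_rpow_atTop (by positivity)).eventually_ge_atTop 8
  have hev : ∀ᶠ M : ℝ in atTop, 9 ≤ M ∧ B ≤ √M ∧ B ≤ M ∧ c * (Real.log M) ^ 2 ≤ M ∧
      12 * c * (Real.log M) ^ 2 ≤ M ^ (δ / 2) ∧ 8 ≤ M ^ (δ / 2) ∧ 4 ≤ Real.log M := by
    filter_upwards [eventually_ge_atTop 9, hsq.eventually_ge_atTop B, eventually_ge_atTop B,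
      h1, h2, h3, hlog.eventually_ge_atTop 4] with M g1 g2 g3 g4 g5 g6 g7
    rw [Real.rpow_two, Real.norm_of_nonneg (by positivity), Real.norm_of_nonneg (by positivity)]
      at g4 g5
    rw [Real.rpow_one] at g5
    refine ⟨g1, g2, g3, ?_, ?_, g6, g7⟩
    · calc c * (Real.log M) ^ 2 ≤ c * (1 / c * M) := by gcongr
        _ = M := by field_simp
    · calc 12 * c * (Real.log M) ^ 2 ≤ 12 * c * (1 / (12 * c) * M ^ (δ / 2)) := by gcongr
        _ = _ := by field_simp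
  obtain ⟨M0, hM0⟩ := eventually_atTop.1 hev
  refine ⟨M0, fun M hM => ?_⟩
  obtain ⟨g1, g2, g3, g4, g5, g6, g7⟩ := hM0 M hM
  have hM1 : (1 : ℝ) ≤ M := by linarith
  have hMp : (0 : ℝ) < M := by linarith
  refine ⟨g2, g3, g4, ?_, fun x hx1 hx2 => ?_⟩
  · have a1 : √M ≤ M ^ (1 - δ) := by
      rw [Real.sqrt_eq_rpow]
      exact Real.rpow_le_rpow_of_exponent_le hM1 (by linarith)
    have a2 : (3 * M) ^ (1 - δ₀) ≤ 3 * M ^ (1 - δ) := by
      calc (3 * M) ^ (1 - δ₀) ≤ (3 * M) ^ (1 - δ) :=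
            Real.rpow_le_rpow_of_exponent_le (by linarith) (by linarith)
        _ = 3 ^ (1 - δ) * M ^ (1 - δ) := Real.mul_rpow (by norm_num) hMp.le
        _ ≤ 3 ^ (1 : ℝ) * M ^ (1 - δ) := by
            gcongr
            · norm_num
            · linarith
        _ = _ := by rw [Real.rpow_one]
    have hP : 0 < M ^ (1 - δ) := Real.rpow_pos_of_pos hMp _
    calc √M + (2 * (c * (Real.log M) ^ 2) + 1) * (3 * M) ^ (1 - δ₀)
        ≤ M ^ (1 - δ) + (2 * (c * (Real.log M) ^ 2) + 1) * (3 * M ^ (1 - δ)) := by gcongr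
      _ = M ^ (1 - δ) * (4 + 6 * c * (Real.log M) ^ 2) := by ring
      _ ≤ M ^ (1 - δ) * M ^ (δ / 2) := by
          gcongr
          linarith
      _ = M ^ (1 - δ / 2) := by
          rw [← Real.rpow_add hMp]
          congr 1
          ring
  · have hs3 : (3 : ℝ) ≤ √M := by
      rw [Real.le_sqrt' (by norm_num)]
      linarith
    have hx0 : (0 : ℝ) < x := by linarith
    have b1 : 1 / 2 * Real.log M ≤ Real.log x := by
      have := Real.log_le_log (by positivity) hx1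
      rw [Real.log_sqrt hMp.le] at this
      linarith
    have b2 : Real.log x ≤ Real.log M := Real.log_le_log hx0 hx2
    have b3 : Real.log M ≤ Real.log (3 * M) := Real.log_le_log hMp (by linarith)
    have b4 : Real.log (3 * M) ≤ 2 * Real.log M := by
      have : Real.log (3 * M) ≤ Real.log (M ^ 2) :=
        Real.log_le_log (by positivity) (by nlinarith)
      rwa [Real.log_pow, Nat.cast_ofNat] at this
    have b5 : 0 < Real.log (Real.log M) := Real.log_pos (by linarith)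
    have b6 : 0 < Real.log (Real.log x) := Real.log_pos (by linarith)
    have b7 : Real.log (Real.log x) ≤ Real.log (Real.log M) :=
      Real.log_le_log (by linarith) b2
    have b8 : Real.log (Real.log M) ≤ Real.log (Real.log (3 * M)) :=
      Real.log_le_log (by linarith) b3
    refine ⟨by linarith, by linarith, b2, by linarith, ?_⟩
    calc c / 4 * (Real.log (3 * M) / Real.log (Real.log (3 * M)))
        ≤ c / 4 * (2 * Real.log M / Real.log (Real.log M)) := by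
          gcongr
      _ = c * (1 / 2 * Real.log M / Real.log (Real.log M)) := by ring
      _ ≤ c * (Real.log x / Real.log (Real.log x)) := by
          have b9 : 0 ≤ Real.log x := by linarith
          exact mul_le_mul_of_nonneg_left (div_le_div₀ b9 b1 b6 b7) hc.le

open Classical in
theorem t43 : St_T43 := by
  intro hI hR
  obtain ⟨t, ht, c, hc, N, hN⟩ := t43_first hI
  refine ⟨t, ht, c, hc, ⟨N, fun n hn => (hN n hn).2⟩, ?_⟩
  obtain ⟨δ₀, hδ₀, M1, hM1⟩ := hR (c / 4) (by positivity)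
  obtain ⟨M2, hM2⟩ := t43_ev2 c δ₀ hc hδ₀ (max N M1)
  refine ⟨min δ₀ (1 / 2) / 2, by positivity, ⌈M2⌉₊, fun M hM => ?_⟩
  obtain ⟨k1, k2, k3, k4, k5⟩ := hM2 M ((Nat.le_ceil _).trans (by exact_mod_cast hM))
  have kN : (N : ℝ) ≤ √(M : ℝ) := (le_max_left _ _).trans k1
  have kM1 : M1 ≤ 3 * (M : ℝ) := by
    have h1 := (le_max_right _ _).trans k2
    have h2 : (0 : ℝ) ≤ M := Nat.cast_nonneg M
    linarith
  have hRc := hM1 (3 * M) kM1
  set Bad : Finset ℕ := (Icc 1 ⌊3 * (M : ℝ)⌋₊).filter (fun m : ℕ =>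
    c / 4 * (Real.log (3 * M) / Real.log (Real.log (3 * M))) ≤
    ((m.primeFactors.filter (fun p : ℕ => (p : ℝ) ≤ Real.log (3 * M))).card : ℝ)) with hBad
  set L : ℤ := ⌊c * (Real.log M) ^ 2⌋ with hL
  have hL0 : 0 ≤ L := Int.floor_nonneg.mpr (by positivity)
  have hLc : (L : ℝ) ≤ c * (Real.log M) ^ 2 := Int.floor_le _
  refine ⟨Icc 1 ⌊√(M : ℝ)⌋₊ ∪ (Bad ×ˢ Icc (-L) L).image (fun q => (((q.1 : ℤ) - q.2) / 2).toNat),
    ?_, ?_⟩
  · calc (((Icc 1 ⌊√(M : ℝ)⌋₊ ∪ (Bad ×ˢ Icc (-L) L).image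
          (fun q => (((q.1 : ℤ) - q.2) / 2).toNat)).card : ℕ) : ℝ)
        ≤ (⌊√(M : ℝ)⌋₊ : ℝ) + (Bad.card : ℝ) * (2 * L + 1) := by
          have h1 := card_union_le (Icc 1 ⌊√(M : ℝ)⌋₊) ((Bad ×ˢ Icc (-L) L).image
            (fun q => (((q.1 : ℤ) - q.2) / 2).toNat))
          have h2 : ((Bad ×ˢ Icc (-L) L).image
            (fun q => (((q.1 : ℤ) - q.2) / 2).toNat)).card ≤ Bad.card * (Icc (-L) L).card := by
            rw [← card_product]
            exact card_image_le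
          have h3 : (((Icc (-L) L).card : ℕ) : ℝ) = 2 * L + 1 := by
            rw [Int.card_Icc]
            have : (((L + 1 - -L).toNat : ℕ) : ℤ) = 2 * L + 1 := by omega
            have h4 : ((((L + 1 - -L).toNat : ℕ) : ℤ) : ℝ) = ((2 * L + 1 : ℤ) : ℝ) := by rw [this]
            push_cast at h4 ⊢
            exact h4
          rw [Nat.card_Icc, Nat.add_sub_cancel] at h1
          have h5 := h1.trans (Nat.add_le_add_left h2 _)
          calc _ ≤ ((⌊√(M : ℝ)⌋₊ + Bad.card * (Icc (-L) L).card : ℕ) : ℝ) := by exact_mod_cast h5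
            _ = _ := by rw [Nat.cast_add, Nat.cast_mul, h3]
      _ ≤ √(M : ℝ) + (3 * (M : ℝ)) ^ (1 - δ₀) * (2 * (c * (Real.log M) ^ 2) + 1) := by
          have h6 : (0 : ℝ) ≤ L := by exact_mod_cast hL0
          gcongr
          exact Nat.floor_le (Real.sqrt_nonneg _)
      _ = √(M : ℝ) + (2 * (c * (Real.log M) ^ 2) + 1) * (3 * (M : ℝ)) ^ (1 - δ₀) := by ring
      _ ≤ _ := k4
  · intro n hn1 hnM hnE D D' hD e he
    rw [mem_union, not_or] at hnE
    obtain ⟨hE1, hE2⟩ := hnE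
    have hns : √(M : ℝ) < n := by
      apply Nat.lt_of_floor_lt
      by_contra h
      exact hE1 (mem_Icc.mpr ⟨hn1, not_lt.mp h⟩)
    have hnMr : (n : ℝ) ≤ M := by exact_mod_cast hnM
    obtain ⟨x1, x2, x3, x4, x5⟩ := k5 n hns.le hnMr
    have hnN : N ≤ n := by exact_mod_cast kN.trans hns.le
    obtain ⟨⟨y1, y2, y3⟩, hmain⟩ := hN n hnN
    obtain ⟨Z, Z', hZ, hZ', hcard⟩ := hmain D D' hD e he
    refine hcard.trans ?_
    have hDc : D ≤ c * (Real.log n) ^ 2 ∧ D' ≤ c * (Real.log n) ^ 2 := by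
      rcases hD with ⟨h1, h2⟩ | ⟨h1, h2⟩
      · rw [h1, h2]; exact ⟨y1, y2⟩
      · rw [h1, h2]; exact ⟨y2, y1⟩
    have hlM : c * (Real.log n) ^ 2 ≤ c * (Real.log M) ^ 2 := by gcongr
    -- no exceptional shift
    have hno : ∀ (Y : Finset ℤ), FewG c n Y → ∀ s ∈ Y, ∀ D0 : ℝ, D0 ≤ c * (Real.log n) ^ 2 →
        ¬ |(s : ℝ)| ≤ D0 := by
      intro Y hY s hs D0 hD0 hsD
      obtain ⟨hs0, hbig⟩ := hY.2 s hs
      have hsa := abs_le.mp (hsD.trans hD0)
      have hpos : (0 : ℝ) < 2 * (n : ℝ) + s := by linarith [hsa.1]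
      have hposz : 0 < 2 * (n : ℤ) + s := by exact_mod_cast hpos
      apply hE2
      rw [mem_image]
      refine ⟨((2 * (n : ℤ) + s).natAbs, s), ?_, ?_⟩
      · rw [mem_product, hBad, mem_filter, mem_Icc, mem_Icc]
        have hcast : (((2 * (n : ℤ) + s).natAbs : ℕ) : ℝ) = 2 * (n : ℝ) + s := by
          rw [Nat.cast_natAbs, abs_of_pos hposz]
          push_cast
          ring
        refine ⟨⟨⟨?_, ?_⟩, ?_⟩, ?_, ?_⟩
        · simp only
          omega
        · apply Nat.le_floor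
          simp only
          rw [hcast]
          linarith [hsa.2]
        · refine x5.trans (hbig.trans ?_)
          apply Nat.cast_le.mpr
          apply card_le_card
          intro p hp
          rw [mem_filter] at hp ⊢
          exact ⟨hp.1, hp.2.trans x4⟩
        · have : ((-s : ℤ) : ℝ) ≤ c * (Real.log M) ^ 2 := by push_cast; linarith [hsa.1]
          have := Int.le_floor.mpr this
          simp only
          omega
        · exact Int.le_floor.mpr (by linarith [hsa.2])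
      · simp only
        have : (((2 * (n : ℤ) + s).natAbs : ℕ) : ℤ) = 2 * n + s := by omega
        rw [this]
        omega
    apply Nat.cast_le.mpr
    apply card_le_card
    intro x hx
    simp only [PtsG, mem_filter, mem_Icc] at hx ⊢
    obtain ⟨n1, n2, n3, n4, n5, n6, n7, n8⟩ := hx
    refine ⟨n1, n2, n3, n4, n5, n6, ?_, ?_⟩
    · intro s hs hs0 _
      exact n7 s hs hs0 fun hsZ => hno Z hZ s hsZ D hDc.1 hs
    · intro s hs hs0 _
      exact n8 s hs hs0 fun hsZ => hno Z' hZ' s hsZ D' hDc.2 hs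

end Pool.Agent.Q117.LF
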