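import Pool.Agent.Q117.LF.Stm6
import Pool.Agent.Q117.LF.T43

/-!
Project LF (helper117), job T52 (helper66): Goldbach, prescribed surroundings of both summands.
-/

set_option autoImplicit false

namespace Pool.Agent.Q117.LF

open Finset Filter
open Pool.Agent.Q117.GP (Rk)

open Classical in
/-- the good points for a finite set of shifts -/
noncomputable def t52P (t K : ℕ) (X c : ℝ) (B : Finset ℤ) (b₁ b₂ b₀ : ℤ) (Z : ℤ → Finset ℤ) : Finset ℕ :=
  (range (⌊2 * X⌋₊ + 1)).filter (fun n : ℕ => X < n ∧ (n : ℝ) ≤ X + X / K ∧ 0 < (n : ℤ) + b₁ ∧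
    ((n : ℤ) + b₁).natAbs.Prime ∧ Pt (X ^ (1 / 8 : ℝ)) ((n : ℤ) + b₂) ∧
    (∀ b ∈ B, Ro (X ^ (1 / (t : ℝ))) ((n : ℤ) + b)) ∧
    ∀ b ∈ B, ∀ u : ℤ, |(u : ℝ)| ≤ (if b = b₀ then c * Rk X else c * Real.log X) → u ∉ Z b →
      (∀ b' ∈ B, b + u ≠ b') → ¬ Ro (Real.log X) ((n : ℤ) + b + u))

open Classical in
/-- isolated values for a finite set of shifts, uniformly -/
lemma t52_iso (hI : ISOc) (k K : ℕ) (hK : 1 ≤ K) : ∃ t : ℕ, 1 ≤ t ∧ ∃ c : ℝ, 0 < c ∧ ∃ X0 : ℝ,
    ∀ X : ℝ, X0 ≤ X → ∀ B : Finset ℤ, B.card ≤ k → (∀ b ∈ B, |(b : ℝ)| ≤ K * X) → AdmZ B →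
    ∀ b₁ ∈ B, ∀ b₂ ∈ B, ∀ b₀ ∈ B, b₁ ≠ b₂ → X / K ≤ X + b₁ →
    ∃ Z : ℤ → Finset ℤ, (∀ b ∈ B, (Z b).card < B.card ∧ ∀ u ∈ Z b, ∃ b' ∈ B, b' ≠ b ∧
      c * (Real.log X / Real.log (Real.log X)) ≤
        (((b + u - b').natAbs.primeFactors.filter (fun p : ℕ => (p : ℝ) ≤ Real.log X)).card : ℝ)) ∧
      X ^ (99 / 100 : ℝ) ≤ ((t52P t K X c B b₁ b₂ b₀ Z).card : ℝ) := by
  obtain ⟨t, ht, c, hc, X1, hun⟩ := t44_unif
    (ι := Σ r : Fin (k + 1), {q : Fin (r : ℕ) × Fin (r : ℕ) × Fin (r : ℕ) // q.1 ≠ q.2.1})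
    (fun x t c X0 => ∀ X : ℝ, X0 ≤ X → ∀ be : Fin (x.1 : ℕ) → ℤ,
      (∀ l, |(be l : ℝ)| ≤ (K : ℝ) * X) →
      X / (K : ℝ) ≤ ((1 : ℕ) : ℝ) * X + be x.2.1.1 →
      (∀ l m, l ≠ m → ((1 : ℕ) : ℤ) * be m ≠ ((1 : ℕ) : ℤ) * be l) → AdmS (fun _ => 1) be →
      ∃ Z : Fin (x.1 : ℕ) → Finset ℤ, (∀ l, (Z l).card < x.1) ∧
      (∀ l, ∀ u ∈ Z l, ∃ m, m ≠ l ∧ c * (Real.log X / Real.log (Real.log X)) ≤
        (((((1 : ℕ) : ℤ) * (be l + u) - ((1 : ℕ) : ℤ) * be m).natAbs.primeFactors.filter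
          (fun p : ℕ => (p : ℝ) ≤ Real.log X)).card : ℝ)) ∧
      X ^ (99 / 100 : ℝ) ≤
        ((PtsI t K X c (fun _ => 1) be x.2.1.1 x.2.1.2.1 x.2.1.2.2 Z).card : ℝ))
    (fun x => hI x.1 (fun _ => 1) (fun _ => le_rfl) K hK x.2.1.1 x.2.1.2.1 x.2.1.2.2 x.2.2)
  obtain ⟨X3, hX3⟩ := t44_Rk_le
  refine ⟨t, ht, c, hc, max X1 (max X3 1), ?_⟩
  intro X hX B hcard hBX hadm b₁ hb₁ b₂ hb₂ b₀ hb₀ hne hXb
  have g1 : X1 ≤ X := (le_max_left _ _).trans hX
  have g3 : X3 ≤ X := ((le_max_left _ _).trans (le_max_right _ _)).trans hX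
  have g4 : 1 ≤ X := ((le_max_right _ _).trans (le_max_right _ _)).trans hX
  obtain ⟨r1, r2, r3, r4⟩ := hX3 X g3
  set e := B.orderIsoOfFin rfl with he
  have hes : ∀ (b : ℤ) (hb : b ∈ B), ((e (e.symm ⟨b, hb⟩) : B) : ℤ) = b := by
    intro b hb
    rw [OrderIso.apply_symm_apply]
  have hij : e.symm ⟨b₁, hb₁⟩ ≠ e.symm ⟨b₂, hb₂⟩ := by
    intro hc'
    have := e.symm.injective hc'
    exact hne (Subtype.mk.inj this)
  obtain ⟨t', c', X0', ht'1, ht't, hc'0, hcc', hX0', hP⟩ := hun ⟨⟨B.card, Nat.lt_succ_of_le hcard⟩,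
    ⟨(e.symm ⟨b₁, hb₁⟩, e.symm ⟨b₂, hb₂⟩, e.symm ⟨b₀, hb₀⟩), hij⟩⟩
  have hfm : ∀ (b : ℤ) (hb : b ∈ B) (n : ℕ), fm (fun _ => 1)
      (fun l => ((e l : B) : ℤ)) (e.symm ⟨b, hb⟩) n = (n : ℤ) + b := by
    intro b hb n
    simp only [fm, Nat.cast_one, one_mul, hes]
  obtain ⟨Z0, hZ1, hZ2, hZ3⟩ := hP X (hX0'.trans g1) (fun l => ((e l : B) : ℤ))
    (fun l => hBX _ (e l).2)
    (by
      have e1 : (((e (e.symm ⟨b₁, hb₁⟩) : B) : ℤ) : ℝ) = b₁ := by rw [hes]
      have e2 : ((((fun l => ((e l : B) : ℤ)) (e.symm ⟨b₁, hb₁⟩) : ℤ)) : ℝ) = b₁ := e1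
      rw [Nat.cast_one, one_mul]
      exact hXb.trans (by rw [← e1]))
    (by
      intro l m hlm h
      rw [Nat.cast_one, one_mul, one_mul] at h
      exact hlm (e.injective (Subtype.ext h)).symm)
    (by
      intro p hp
      obtain ⟨r, hr⟩ := hadm p hp
      have hp0 : (p : ℤ) ≠ 0 := by exact_mod_cast hp.ne_zero
      refine ⟨(r % p).toNat, fun l h => hr _ (e l).2 ?_⟩
      have h1 : (((r % p).toNat : ℕ) : ℤ) = r % p := Int.toNat_of_nonneg (Int.emod_nonneg _ hp0)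
      simp only [fm, Nat.cast_one, one_mul, h1] at h
      have h2 : r + ((e l : B) : ℤ) = (p : ℤ) * (r / p) + (r % p + ((e l : B) : ℤ)) := by
        have := Int.emod_add_mul_ediv r p
        linarith
      rw [h2]
      exact dvd_add (dvd_mul_right _ _) h)
  set Z : ℤ → Finset ℤ := fun b => if hb : b ∈ B then Z0 (e.symm ⟨b, hb⟩) else ∅ with hZdef
  have hZh : ∀ (b : ℤ) (hb : b ∈ B), Z b = Z0 (e.symm ⟨b, hb⟩) := fun b hb => by
    rw [hZdef]; simp only [dif_pos hb]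
  have hlX0 : 0 < Real.log X := by linarith
  have hll : 0 ≤ Real.log X / Real.log (Real.log X) :=
    div_nonneg hlX0.le (Real.log_nonneg r4)
  refine ⟨Z, ?_, hZ3.trans ?_⟩
  · intro b hb
    rw [hZh b hb]
    refine ⟨hZ1 _, fun s hs => ?_⟩
    obtain ⟨m, hm, hcm⟩ := hZ2 _ s hs
    refine ⟨((e m : B) : ℤ), (e m).2, ?_, ?_⟩
    · intro h2
      apply hm
      apply e.injective
      rw [OrderIso.apply_symm_apply]
      exact Subtype.ext h2
    · simp only [Nat.cast_one, one_mul, hes] at hcm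
      exact (mul_le_mul_of_nonneg_right hcc' hll).trans hcm
  · apply Nat.cast_le.mpr
    apply card_le_card
    intro n hn
    simp only [PtsI, t52P, mem_filter, mem_range] at hn ⊢
    obtain ⟨n1, n2, n3, n4, n5, n6, n7, n8⟩ := hn
    rw [hfm] at n4 n5 n6
    refine ⟨n1, n2, n3, n4, n5, n6, fun b hb => ?_, fun b hb s hs hsZ hsB => ?_⟩
    · have h7 := n7 (e.symm ⟨b, hb⟩)
      rw [hfm] at h7
      refine fun p hp hpm => lt_of_le_of_lt ?_ (h7 p hp hpm)
      apply Real.rpow_le_rpow_of_exponent_le g4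
      apply one_div_le_one_div_of_le
      · exact_mod_cast ht'1
      · exact_mod_cast ht't
    · have h8 := n8 (e.symm ⟨b, hb⟩) s (by
        by_cases h0 : b = b₀
        · subst h0
          rw [if_pos rfl] at hs ⊢
          exact hs.trans (mul_le_mul_of_nonneg_right hcc' r1.le)
        · rw [if_neg h0] at hs
          rw [if_neg (by
            intro h'
            exact h0 (Subtype.mk.inj (e.symm.injective h')))]
          exact hs.trans (mul_le_mul_of_nonneg_right hcc' hlX0.le))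
        (by rwa [hZh b hb] at hsZ) (by
        intro m hm
        have hm' : fm (fun _ => 1) (fun l => ((e l : B) : ℤ)) m n =
            (n : ℤ) + ((e m : B) : ℤ) := by
          simp only [fm, Nat.cast_one, one_mul]
        rw [hfm, hm'] at hm
        exact hsB _ (e m).2 (by linarith))
      rw [hfm] at h8
      exact h8

/-- small numbers have few prime factors -/
lemma t52_small (c : ℝ) (hc : 0 < c) (a : ℝ) : ∃ N : ℕ, ∀ n : ℕ, N ≤ n → ∀ v : ℤ, ∀ z : ℝ,
    |(v : ℝ)| ≤ a * (Real.log n) ^ 2 →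
    ¬ c * (Real.log ((n : ℝ) / 2) / Real.log (Real.log ((n : ℝ) / 2))) ≤
      ((v.natAbs.primeFactors.filter (fun p : ℕ => (p : ℝ) ≤ z)).card : ℝ) := by
  obtain ⟨X2, hX2⟩ := t44_ev c hc
  have hdiv : Tendsto (fun X : ℝ => X / 2) atTop atTop := tendsto_id.atTop_div_const (by norm_num)
  have h1 : ∀ᶠ X : ℝ in atTop, ‖(Real.log X) ^ (2 : ℝ)‖ ≤ 1 / (4 * (|a| + 1)) * ‖X ^ (c / 4)‖ :=
    (isLittleO_log_rpow_rpow_atTop (s := c / 4) 2 (by positivity)).def (by positivity)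
  have h3 : Tendsto (fun X : ℝ => X ^ (c / 4)) atTop atTop := tendsto_rpow_atTop (by positivity)
  have hev : ∀ᶠ X : ℝ in atTop, 1 ≤ X ∧ X2 ≤ X / 2 ∧ a * (Real.log X) ^ 2 < (X / 2) ^ (c / 2) := by
    filter_upwards [eventually_ge_atTop 1, hdiv.eventually_ge_atTop X2, h1,
      h3.eventually_ge_atTop ((2 : ℝ) ^ (c / 2))] with X g1 g2 g3 g4
    refine ⟨g1, g2, ?_⟩
    rw [Real.rpow_two, Real.norm_of_nonneg (by positivity), Real.norm_of_nonneg (by positivity)] at g3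
    have hX0 : 0 < X := by linarith
    have h2 : (0 : ℝ) < (2 : ℝ) ^ (c / 2) := by positivity
    rw [Real.div_rpow hX0.le (by norm_num), lt_div_iff₀ h2]
    have hP : 0 < X ^ (c / 4) := by positivity
    have e1 : a * (Real.log X) ^ 2 ≤ (|a| + 1) * (Real.log X) ^ 2 := by
      have := le_abs_self a
      have h5 : 0 ≤ (Real.log X) ^ 2 := by positivity
      nlinarith
    have e2 : (|a| + 1) * (Real.log X) ^ 2 ≤ 1 / 4 * X ^ (c / 4) := by
      have h6 : 0 < |a| + 1 := by positivity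
      calc (|a| + 1) * (Real.log X) ^ 2 ≤ (|a| + 1) * (1 / (4 * (|a| + 1)) * X ^ (c / 4)) := by
            gcongr
        _ = _ := by field_simp
    calc a * (Real.log X) ^ 2 * 2 ^ (c / 2) ≤ (1 / 4 * X ^ (c / 4)) * X ^ (c / 4) := by
          exact mul_le_mul (e1.trans e2) g4 h2.le (by positivity)
      _ < X ^ (c / 4) * X ^ (c / 4) := by nlinarith
      _ = X ^ (c / 2) := by rw [← Real.rpow_add hX0]; congr 1; ring
  obtain ⟨X0, hX0⟩ := eventually_atTop.1 hev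
  refine ⟨⌈X0⌉₊, fun n hn v z hv hbig => ?_⟩
  obtain ⟨g1, g2, g3⟩ := hX0 n ((Nat.le_ceil _).trans (by exact_mod_cast hn))
  obtain ⟨hv0, hlv⟩ := hX2 _ g2 _ _ hbig
  have hn0 : (0 : ℝ) < (n : ℝ) / 2 := by linarith
  have hvpos : (0 : ℝ) < ((v.natAbs : ℕ) : ℝ) := by exact_mod_cast Nat.pos_of_ne_zero hv0
  have hva : ((v.natAbs : ℕ) : ℝ) < ((n : ℝ) / 2) ^ (c / 2) := by
    rw [Nat.cast_natAbs, Int.cast_abs]
    exact lt_of_le_of_lt hv g3
  have h9 := Real.log_lt_log hvpos hva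
  rw [Real.log_rpow hn0] at h9
  linarith

open Classical in
/-- the first part -/
lemma t52_first (hI : ISOc) (k : ℕ) : ∃ t : ℕ, 1 ≤ t ∧ ∃ c : ℝ, 0 < c ∧ ∃ N : ℕ, ∀ n : ℕ, N ≤ n →
    (c * Rk n ≤ c * (Real.log n) ^ 2 ∧ c * Real.log n ≤ c * (Real.log n) ^ 2 ∧
      2 * c * (Real.log n) ^ 2 < 2 * n) ∧ ∀ D D' : ℝ,
    (D = c * Rk n ∧ D' = c * Real.log n ∨ D = c * Real.log n ∧ D' = c * Rk n) → ∀ H H' : Finset ℤ,
    H.card ≤ k → H'.card ≤ k →
    0 ∈ H → 0 ∈ H' → (∀ h ∈ H, |(h : ℝ)| ≤ D) → (∀ h ∈ H', |(h : ℝ)| ≤ D') →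
    (∀ p : ℕ, p.Prime → ∃ r : ℤ, (∀ h ∈ H, ¬ (p : ℤ) ∣ r + h) ∧ ∀ h ∈ H', ¬ (p : ℤ) ∣ 2 * n - r + h) →
    ∃ Z Z' : Finset ℤ, Exc k c n H' Z ∧ Exc k c n H Z' ∧ (∀ s ∈ Z, |(s : ℝ)| ≤ D) ∧
      (∀ s ∈ Z', |(s : ℝ)| ≤ D') ∧
      (n : ℝ) ^ (98 / 100 : ℝ) ≤ ((PtsB t n D D' H H' Z Z').card : ℝ) := by
  obtain ⟨T, hT, C, hC, X1, hun⟩ := t52_iso hI (2 * k) 10 (by norm_num)
  obtain ⟨N1, hN1⟩ := t43_ev T hT (2 * (C / 2))
  obtain ⟨N2, hN2⟩ := t52_small C hC (2 * (C / 2))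
  refine ⟨T + 1, by omega, C / 2, by positivity, max (max N1 N2) (⌈2 * |X1|⌉₊ + 1), fun n hn => ?_⟩
  have hnN1 : N1 ≤ n := ((le_max_left _ _).trans (le_max_left _ _)).trans hn
  have hnN2 : N2 ≤ n := ((le_max_right _ _).trans (le_max_left _ _)).trans hn
  have hnX : 2 * |X1| ≤ n :=
    (Nat.le_ceil _).trans (by exact_mod_cast (Nat.le_succ _).trans ((le_max_right _ _).trans hn))
  have hn1 : 1 ≤ n := by
    have := (le_max_right _ _).trans hn
    omega
  have hn0 : (0 : ℝ) < n := by exact_mod_cast hn1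
  obtain ⟨q1, q2, q3, q4, q5, q6, q7, q8, q9, q10, q11, q12, q13⟩ := hN1 n hnN1 2 (by norm_num) le_rfl
  constructor
  · exact ⟨by gcongr, by gcongr, q8⟩
  intro D D' hD H H' hHk hHk' hH0 hH0' hHD hHD' hadm
  have hsm := hN2 n hnN2
  obtain ⟨X, hXdef⟩ : ∃ X : ℝ, X = (n : ℝ) / 2 := ⟨_, rfl⟩
  rw [Nat.cast_ofNat, ← hXdef] at q1 q2 q3 q4 q5 q6 q7 q12 q13
  rw [← hXdef] at hsm
  have hXn : X ≤ n := by rw [hXdef]; linarith
  have hnX2 : (n : ℝ) = 2 * X := by rw [hXdef]; ring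
  have hX1X : X1 ≤ X := by
    have := le_abs_self X1
    linarith
  have hlogXn : Real.log X ≤ Real.log n := Real.log_le_log (by linarith) hXn
  have hlX : 0 < Real.log X := by linarith
  have hllX : 0 < Real.log (Real.log X) := by linarith
  have hDc : D ≤ C / 2 * (Real.log n) ^ 2 ∧ D' ≤ C / 2 * (Real.log n) ^ 2 := by
    rcases hD with ⟨h1, h2⟩ | ⟨h1, h2⟩
    · rw [h1, h2]; exact ⟨by gcongr, by gcongr⟩
    · rw [h1, h2]; exact ⟨by gcongr, by gcongr⟩
  have hDD : D + D' < 2 * n := by linarith [hDc.1, hDc.2]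
  have hD0 : 0 ≤ D := by
    have := hHD 0 hH0
    exact (abs_nonneg _).trans this
  have hD0' : 0 ≤ D' := by
    have := hHD' 0 hH0'
    exact (abs_nonneg _).trans this
  have e1 : C / 2 * Rk n ≤ C * Rk X := by nlinarith
  have e2 : C / 2 * Real.log n ≤ C * Real.log X := by nlinarith
  -- the set of the shifts
  set m0 : ℤ := -(2 * (n : ℤ)) with hm0
  set B : Finset ℤ := H ∪ H'.image (fun h => m0 - h) with hB
  have hBcard : B.card ≤ 2 * k := by
    refine (card_union_le _ _).trans ?_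
    have := card_image_le (s := H') (f := fun h : ℤ => m0 - h)
    omega
  have h0B : (0 : ℤ) ∈ B := mem_union_left _ hH0
  have hmB : m0 ∈ B := mem_union_right _ (mem_image.mpr ⟨0, hH0', by ring⟩)
  have hBX : ∀ b ∈ B, |(b : ℝ)| ≤ ((10 : ℕ) : ℝ) * X := by
    intro b hb
    rcases mem_union.mp hb with hb | hb
    · refine (hHD b hb).trans ?_
      push_cast
      linarith
    · obtain ⟨h, hh, rfl⟩ := mem_image.mp hb
      have h1 := abs_le.mp (hHD' h hh)
      rw [hm0]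
      push_cast
      rw [abs_le]
      constructor <;> linarith [h1.1, h1.2]
  have hBadm : AdmZ B := by
    intro p hp
    obtain ⟨r, hr1, hr2⟩ := hadm p hp
    refine ⟨r, fun b hb h => ?_⟩
    rcases mem_union.mp hb with hb | hb
    · exact hr1 b hb h
    · obtain ⟨h', hh', rfl⟩ := mem_image.mp hb
      apply hr2 h' hh'
      have e3 : 2 * (n : ℤ) - r + h' = -(r + (m0 - h')) := by rw [hm0]; ring
      rw [e3]
      exact (dvd_neg).mpr h
  have hne : (0 : ℤ) ≠ m0 := by rw [hm0]; omega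
  have hcase : ∃ b₀ ∈ B, (D ≤ if (0 : ℤ) = b₀ then C * Rk X else C * Real.log X) ∧
      (D' ≤ if m0 = b₀ then C * Rk X else C * Real.log X) := by
    rcases hD with ⟨h1, h2⟩ | ⟨h1, h2⟩
    · refine ⟨0, h0B, ?_, ?_⟩
      · rw [if_pos rfl, h1]; exact e1
      · rw [if_neg hne.symm, h2]; exact e2
    · refine ⟨m0, hmB, ?_, ?_⟩
      · rw [if_neg hne, h1]; exact e2
      · rw [if_pos rfl, h2]; exact e1
  obtain ⟨b₀, hb₀, hDa, hDb⟩ := hcase
  obtain ⟨Z0, hZ1, hZ3⟩ := hun X hX1X B hBcard hBX hBadm 0 h0B m0 hmB b₀ hb₀ hne (by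
    push_cast
    linarith)
  -- comparison of the number of prime factors
  have hfew : ∀ v : ℕ, C * (Real.log X / Real.log (Real.log X)) ≤
      ((v.primeFactors.filter (fun p : ℕ => (p : ℝ) ≤ Real.log X)).card : ℝ) →
      C / 2 * (Real.log n / Real.log (Real.log n)) ≤
      ((v.primeFactors.filter (fun p : ℕ => (p : ℝ) ≤ Real.log n)).card : ℝ) := by
    intro v hv
    have f1 : Real.log (Real.log X) ≤ Real.log (Real.log n) := Real.log_le_log hlX hlogXn
    calc C / 2 * (Real.log n / Real.log (Real.log n))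
        ≤ C / 2 * (2 * Real.log X / Real.log (Real.log X)) := by
          gcongr
      _ = C * (Real.log X / Real.log (Real.log X)) := by ring
      _ ≤ _ := hv
      _ ≤ _ := by
          apply Nat.cast_le.mpr
          apply card_le_card
          intro p hp
          rw [mem_filter] at hp ⊢
          exact ⟨hp.1, hp.2.trans hlogXn⟩
  refine ⟨(Z0 0).filter (fun s : ℤ => |(s : ℝ)| ≤ D),
    ((Z0 m0).filter (fun s : ℤ => |(s : ℝ)| ≤ D')).image (fun u => -u), ⟨?_, ?_⟩, ⟨?_, ?_⟩, ?_, ?_, ?_⟩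
  · exact ((card_filter_le _ _).trans (hZ1 0 h0B).1.le).trans hBcard
  · intro s hs
    rw [mem_filter] at hs
    obtain ⟨b', hb', hbne, hcm⟩ := (hZ1 0 h0B).2 s hs.1
    rcases mem_union.mp hb' with hb' | hb'
    · exfalso
      apply hsm _ _ ?_ hcm
      have a1 := abs_le.mp hs.2
      have a2 := abs_le.mp (hHD b' hb')
      push_cast
      rw [abs_le]
      constructor <;> linarith [a1.1, a1.2, a2.1, a2.2, hDc.1]
    · obtain ⟨h, hh, rfl⟩ := mem_image.mp hb'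
      refine ⟨h, hh, ?_⟩
      have := hfew _ hcm
      have e3 : (0 : ℤ) + s - (m0 - h) = 2 * (n : ℤ) + s + h := by rw [hm0]; ring
      rw [e3] at this
      exact this
  · exact (card_image_le.trans ((card_filter_le _ _).trans (hZ1 m0 hmB).1.le)).trans hBcard
  · intro s hs
    rw [mem_image] at hs
    obtain ⟨u, hu, rfl⟩ := hs
    rw [mem_filter] at hu
    obtain ⟨b', hb', hbne, hcm⟩ := (hZ1 m0 hmB).2 u hu.1
    rcases mem_union.mp hb' with hb' | hb'
    · refine ⟨b', hb', ?_⟩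
      have := hfew _ hcm
      have e3 : m0 + u - b' = -(2 * (n : ℤ) + -u + b') := by rw [hm0]; ring
      rw [e3, Int.natAbs_neg] at this
      exact this
    · exfalso
      obtain ⟨h, hh, rfl⟩ := mem_image.mp hb'
      apply hsm _ _ ?_ hcm
      have a1 := abs_le.mp hu.2
      have a2 := abs_le.mp (hHD' h hh)
      push_cast
      rw [abs_le]
      constructor <;> linarith [a1.1, a1.2, a2.1, a2.2, hDc.2]
  · intro s hs
    exact (mem_filter.mp hs).2
  · intro s hs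
    obtain ⟨u, hu, rfl⟩ := mem_image.mp hs
    push_cast
    rw [abs_neg]
    exact (mem_filter.mp hu).2
  · refine q4.trans (hZ3.trans ?_)
    apply Nat.cast_le.mpr
    apply card_le_card
    intro x hx
    simp only [t52P, PtsB, mem_filter, mem_range] at hx ⊢
    obtain ⟨n1, n2, n3, n4, n5, n6, n7, n8⟩ := hx
    push_cast at n3
    have w0 : (x : ℝ) < n := by linarith
    have w1 : (n : ℝ) < 2 * x := by linarith
    have w0' : x < n := by exact_mod_cast w0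
    have w1' : n < 2 * x := by exact_mod_cast w1
    rw [add_zero, Int.natAbs_natCast] at n5
    have hneg : (2 * (n : ℤ) - x) = -((x : ℤ) + m0) := by rw [hm0]; ring
    refine ⟨w0', w1', n5, ⟨?_, ?_⟩, ?_, ?_, ?_, ?_⟩
    · rw [hneg, Int.natAbs_neg]; exact n6.1
    · rw [hneg]
      exact t43_Ro_neg fun p hp hpm => lt_of_le_of_lt q2 (n6.2 p hp hpm)
    · intro h hh p hp hpm
      exact lt_of_le_of_lt q3 (n7 h (mem_union_left _ hh) p hp hpm)
    · intro h hh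
      have e4 : 2 * (n : ℤ) - x + h = -((x : ℤ) + (m0 - h)) := by rw [hm0]; ring
      rw [e4]
      exact t43_Ro_neg fun p hp hpm => lt_of_le_of_lt q3
        (n7 _ (mem_union_right _ (mem_image_of_mem _ hh)) p hp hpm)
    · intro s hs hsH hsZ hRo
      refine n8 0 h0B s (hs.trans hDa) ?_ ?_ ?_
      · intro h; exact hsZ ⟨h, hs⟩
      · intro b' hb' h
        rcases mem_union.mp hb' with hb' | hb'
        · apply hsH
          have : s = b' := by linarith
          rw [this]; exact hb'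
        · obtain ⟨h', hh', rfl⟩ := mem_image.mp hb'
          have a1 := abs_le.mp hs
          have a2 := abs_le.mp (hHD' h' hh')
          have h3 : (s : ℝ) = -(2 * (n : ℝ)) - h' := by
            have h4 : s = -(2 * (n : ℤ)) - h' := by rw [hm0] at h; linarith
            rw [h4]; push_cast; ring
          linarith [a1.1, a2.2]
      · rw [add_zero]
        exact fun p hp hpm => lt_of_le_of_lt hlogXn (hRo p hp hpm)
    · intro s hs hsH hsZ hRo
      refine n8 m0 hmB (-s) (le_trans (by push_cast; rw [abs_neg]; exact hs) hDb) ?_ ?_ ?_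
      · intro h
        apply hsZ
        rw [mem_image]
        refine ⟨-s, mem_filter.mpr ⟨h, ?_⟩, neg_neg s⟩
        push_cast
        rw [abs_neg]
        exact hs
      · intro b' hb' h
        rcases mem_union.mp hb' with hb' | hb'
        · have a1 := abs_le.mp hs
          have a2 := abs_le.mp (hHD b' hb')
          have h3 : (b' : ℝ) = -(2 * (n : ℝ)) - s := by
            rw [← h, hm0]; push_cast; ring
          linarith [a1.2, a2.1]
        · obtain ⟨h', hh', h3⟩ := mem_image.mp hb'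
          apply hsH
          have : s = h' := by
            have h4 : m0 + -s = m0 - h' := by rw [h]; exact h3.symm
            linarith
          rw [this]; exact hh'
      · have e4 : (x : ℤ) + m0 + -s = -(2 * (n : ℤ) - x + s) := by rw [hm0]; ring
        rw [e4]
        exact t43_Ro_neg fun p hp hpm => lt_of_le_of_lt hlogXn (hRo p hp hpm)

open Classical in
theorem t52 : St_T52 := by
  intro hI hR k
  obtain ⟨t, ht, c, hc, N, hN⟩ := t52_first hI k
  refine ⟨t, ht, c, hc, ⟨N, fun n hn D D' hD H H' h1 h2 h3 h4 h5 h6 h7 => ?_⟩, ?_⟩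
  · obtain ⟨Z, Z', z1, z2, z3, z4, z5⟩ := (hN n hn).2 D D' hD H H' h1 h2 h3 h4 h5 h6 h7
    exact ⟨Z, Z', z1, z2, z5⟩
  obtain ⟨δ₀, hδ₀, M1, hM1⟩ := hR (c / 4) (by positivity)
  obtain ⟨M2, hM2⟩ := t43_ev2 (2 * c) δ₀ (by positivity) hδ₀ (max N M1)
  refine ⟨min δ₀ (1 / 2) / 2, by positivity, ⌈M2⌉₊, fun M hM => ?_⟩
  obtain ⟨k1, k2, k3, k4, k5⟩ := hM2 M ((Nat.le_ceil _).trans (by exact_mod_cast hM))
  have kN : (N : ℝ) ≤ √(M : ℝ) := (le_max_left _ _).trans k1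
  have kM1 : M1 ≤ 3 * (M : ℝ) := by
    have h1 := (le_max_right _ _).trans k2
    have h2 : (0 : ℝ) ≤ M := Nat.cast_nonneg M
    linarith
  have hRc := hM1 (3 * M) kM1
  set Bad : Finset ℕ := (Icc 1 ⌊3 * (M : ℝ)⌋₊).filter (fun m : ℕ =>
    c / 4 * (Real.log (3 * M) / Real.log (Real.log (3 * M))) ≤
    ((m.primeFactors.filter (fun p : ℕ => (p : ℝ) ≤ Real.log (3 * M))).card : ℝ)) with hBad
  set L : ℤ := ⌊2 * c * (Real.log M) ^ 2⌋ with hL
  have hL0 : 0 ≤ L := Int.floor_nonneg.mpr (by positivity)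
  have hLc : (L : ℝ) ≤ 2 * c * (Real.log M) ^ 2 := Int.floor_le _
  refine ⟨Icc 1 ⌊√(M : ℝ)⌋₊ ∪ (Bad ×ˢ Icc (-L) L).image (fun q => (((q.1 : ℤ) - q.2) / 2).toNat),
    ?_, ?_⟩
  · calc (((Icc 1 ⌊√(M : ℝ)⌋₊ ∪ (Bad ×ˢ Icc (-L) L).image
          (fun q => (((q.1 : ℤ) - q.2) / 2).toNat)).card : ℕ) : ℝ)
        ≤ (⌊√(M : ℝ)⌋₊ : ℝ) + (Bad.card : ℝ) * (2 * L + 1) := by
          have h1 := card_union_le (Icc 1 ⌊√(M : ℝ)⌋₊) ((Bad ×ˢ Icc (-L) L).image
            (fun q => (((q.1 : ℤ) - q.2) / 2).toNat))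
          have h2 : ((Bad ×ˢ Icc (-L) L).image
            (fun q => (((q.1 : ℤ) - q.2) / 2).toNat)).card ≤ Bad.card * (Icc (-L) L).card := by
            rw [← card_product]
            exact card_image_le
          have h3 : (((Icc (-L) L).card : ℕ) : ℝ) = 2 * L + 1 := by
            rw [Int.card_Icc]
            have : (((L + 1 - -L).toNat : ℕ) : ℤ) = 2 * L + 1 := by omega
            have h4 : ((((L + 1 - -L).toNat : ℕ) : ℤ) : ℝ) = ((2 * L + 1 : ℤ) : ℝ) := by rw [this]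
            push_cast at h4 ⊢
            exact h4
          rw [Nat.card_Icc, Nat.add_sub_cancel] at h1
          have h5 := h1.trans (Nat.add_le_add_left h2 _)
          calc _ ≤ ((⌊√(M : ℝ)⌋₊ + Bad.card * (Icc (-L) L).card : ℕ) : ℝ) := by exact_mod_cast h5
            _ = _ := by rw [Nat.cast_add, Nat.cast_mul, h3]
      _ ≤ √(M : ℝ) + (3 * (M : ℝ)) ^ (1 - δ₀) * (2 * (2 * c * (Real.log M) ^ 2) + 1) := by
          have h6 : (0 : ℝ) ≤ L := by exact_mod_cast hL0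
          gcongr
          exact Nat.floor_le (Real.sqrt_nonneg _)
      _ = √(M : ℝ) + (2 * (2 * c * (Real.log M) ^ 2) + 1) * (3 * (M : ℝ)) ^ (1 - δ₀) := by ring
      _ ≤ _ := k4
  · intro n hn1 hnM hnE D D' hD H H' hHk hHk' hH0 hH0' hHD hHD' hadm
    rw [mem_union, not_or] at hnE
    obtain ⟨hE1, hE2⟩ := hnE
    have hns : √(M : ℝ) < n := by
      apply Nat.lt_of_floor_lt
      by_contra h
      exact hE1 (mem_Icc.mpr ⟨hn1, not_lt.mp h⟩)
    have hnMr : (n : ℝ) ≤ M := by exact_mod_cast hnM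
    obtain ⟨x1, x2, x3, x4, x5⟩ := k5 n hns.le hnMr
    have hnN : N ≤ n := by exact_mod_cast kN.trans hns.le
    obtain ⟨⟨y1, y2, y3⟩, hmain⟩ := hN n hnN
    obtain ⟨Z, Z', hZ, hZ', hZD, hZD', hcard⟩ := hmain D D' hD H H' hHk hHk' hH0 hH0' hHD hHD' hadm
    have hDc : D ≤ c * (Real.log n) ^ 2 ∧ D' ≤ c * (Real.log n) ^ 2 := by
      rcases hD with ⟨h1, h2⟩ | ⟨h1, h2⟩
      · rw [h1, h2]; exact ⟨y1, y2⟩
      · rw [h1, h2]; exact ⟨y2, y1⟩
    have hlM : c * (Real.log n) ^ 2 ≤ c * (Real.log M) ^ 2 := by gcongr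
    -- no exceptional shift
    have hno : ∀ (F Y : Finset ℤ), Exc k c n F Y → (∀ h ∈ F, |(h : ℝ)| ≤ c * (Real.log n) ^ 2) →
        (∀ s ∈ Y, |(s : ℝ)| ≤ c * (Real.log n) ^ 2) → Y = ∅ := by
      intro F Y hY hF hYb
      rw [eq_empty_iff_forall_notMem]
      intro s hs
      obtain ⟨h, hh, hbig⟩ := hY.2 s hs
      have hsa := abs_le.mp (hYb s hs)
      have hha := abs_le.mp (hF h hh)
      have hpos : (0 : ℝ) < 2 * (n : ℝ) + s + h := by linarith [hsa.1, hha.1]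
      have hposz : 0 < 2 * (n : ℤ) + s + h := by exact_mod_cast hpos
      apply hE2
      rw [mem_image]
      refine ⟨((2 * (n : ℤ) + s + h).natAbs, s + h), ?_, ?_⟩
      · rw [mem_product, hBad, mem_filter, mem_Icc, mem_Icc]
        have hcast : (((2 * (n : ℤ) + s + h).natAbs : ℕ) : ℝ) = 2 * (n : ℝ) + s + h := by
          rw [Nat.cast_natAbs, abs_of_pos hposz]
          push_cast
          ring
        refine ⟨⟨⟨?_, ?_⟩, ?_⟩, ?_, ?_⟩
        · simp only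
          omega
        · apply Nat.le_floor
          simp only
          rw [hcast]
          linarith [hsa.2, hha.2]
        · have x5' : c / 4 * (Real.log (3 * M) / Real.log (Real.log (3 * M))) ≤
              c * (Real.log n / Real.log (Real.log n)) := by linarith
          refine x5'.trans (hbig.trans ?_)
          apply Nat.cast_le.mpr
          apply card_le_card
          intro p hp
          rw [mem_filter] at hp ⊢
          exact ⟨hp.1, hp.2.trans x4⟩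
        · have : ((-(s + h) : ℤ) : ℝ) ≤ 2 * c * (Real.log M) ^ 2 := by
            push_cast; linarith [hsa.1, hha.1]
          have := Int.le_floor.mpr this
          simp only
          omega
        · refine Int.le_floor.mpr ?_
          simp only
          push_cast
          linarith [hsa.2, hha.2]
      · simp only
        have : (((2 * (n : ℤ) + s + h).natAbs : ℕ) : ℤ) = 2 * n + s + h := by omega
        rw [this]
        omega
    have hZ0 : Z = ∅ := hno H' Z hZ (fun h hh => (hHD' h hh).trans hDc.2)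
      (fun s hs => (hZD s hs).trans hDc.1)
    have hZ0' : Z' = ∅ := hno H Z' hZ' (fun h hh => (hHD h hh).trans hDc.1)
      (fun s hs => (hZD' s hs).trans hDc.2)
    rw [hZ0, hZ0'] at hcard
    exact hcard

end Pool.Agent.Q117.LF
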