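import Pool.Agent.Q117.LF.Main3
import Pool.Agent.Q117.LF.Rar
import Pool.Agent.Q117.LF.T52

/-!
Project LF (helper117), part 6: the theorem on the surroundings of both summands.
-/

set_option autoImplicit false

namespace Pool.Agent.Q117.LF

theorem t52C : St_T52 := t52

end Pool.Agent.Q117.LF
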