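import Pool.Agent.Q117.LF.Stm7
import Pool.Agent.Q117.LF.Fsc

/-!
Project LF (helper117), job SSF (helper208): the singular series of a set of shifts.
-/

set_option autoImplicit false

namespace Pool.Agent.Q117.LF

open Finset Filter

/-! ### SSF: the singular series of a set of shifts -/

lemma ssf_oF_le (E : Finset ℤ) (p : ℕ) (hp : 0 < p) : (oF E p : ℝ) / p ≤ 1 := by
  classical
  rw [← fsc_om E p hp]
  have h1 : om (fun _ => 1) (fscE E) p ≤ p := by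
    unfold om
    exact (Finset.card_filter_le _ _).trans (by simp)
  rw [div_le_one (by exact_mod_cast hp)]
  exact_mod_cast h1

/-- **SSF.** -/
theorem ssf : St_SSF := by
  classical
  intro hS k
  have h1 : ∀ r : Fin (k + 1), ∃ c X0 : ℝ, 0 < c ∧ ∀ X : ℝ, X0 ≤ X → ∀ (al : Fin (r : ℕ) → ℕ) (be : Fin (r : ℕ) → ℤ),
      (∀ l, 1 ≤ al l ∧ (al l : ℝ) ≤ X) → (∀ l, |(be l : ℝ)| ≤ ((1 : ℕ) : ℝ) * X) →
      (∀ l m, l ≠ m → (al l : ℤ) * be m ≠ al m * be l) → AdmS al be →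
      ∀ y : ℕ, X ≤ y →
        c * (1 / Real.log X ^ (r : ℕ) * ∏ p ∈ (Icc 1 y).filter Nat.Prime,
          ((1 - (om al be p : ℝ) / p) / (1 - 1 / (p : ℝ)) ^ (r : ℕ))) ≤
          ∏ q ∈ (Icc 1 ⌊X⌋₊).filter Nat.Prime, (1 - (om al be q : ℝ) / q) := by
    intro r
    obtain ⟨c, hc, X0, h⟩ := hS r 1 le_rfl
    exact ⟨c, X0, hc, h⟩
  choose c X0 hc h using h1
  obtain ⟨c₀, hc₀, hcc⟩ := fsc_low c hc
  obtain ⟨Y, hY, hXY⟩ := fsc_up X0
  refine ⟨c₀, hc₀, Y, fun X hX E hEk hE hA y hy => ?_⟩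
  have hX1 : 1 ≤ X := hY.trans hX
  have h2 := h ⟨E.card, by omega⟩ X ((hXY _).trans hX) (fun _ => 1) (fscE E)
    (fun l => ⟨le_rfl, by push_cast; exact hX1⟩) (fun l => by
      have := hE _ (fscE_mem E l)
      push_cast
      linarith) (fun l m hlm h => by
      rw [Nat.cast_one, one_mul, one_mul] at h
      exact hlm (fscE_inj E h).symm) (fsc_adm hA) y hy
  have e1 : ∏ q ∈ (Icc 1 ⌊X⌋₊).filter Nat.Prime, (1 - (om (fun _ => 1) (fscE E) q : ℝ) / q) =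
      VF ⌊X⌋₊ E := by
    unfold VF
    refine Finset.prod_congr ?_ fun q hq => ?_
    · ext p; simp
    · rw [fsc_om E q (Finset.mem_filter.1 hq).2.pos]
  have e2 : ∏ p ∈ (Icc 1 y).filter Nat.Prime,
      ((1 - (om (fun _ => 1) (fscE E) p : ℝ) / p) / (1 - 1 / (p : ℝ)) ^ E.card) =
      ∏ p ∈ (Icc 1 y).filter Nat.Prime, ((1 - (oF E p : ℝ) / p) / (1 - 1 / (p : ℝ)) ^ E.card) := by
    refine Finset.prod_congr rfl fun q hq => ?_
    rw [fsc_om E q (Finset.mem_filter.1 hq).2.pos]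
  have h3 : c ⟨E.card, by omega⟩ * (1 / Real.log X ^ E.card * ∏ p ∈ (Icc 1 y).filter Nat.Prime,
      ((1 - (oF E p : ℝ) / p) / (1 - 1 / (p : ℝ)) ^ E.card)) ≤ VF ⌊X⌋₊ E := by
    rw [← e1, ← e2]
    exact h2
  refine le_trans ?_ h3
  apply mul_le_mul_of_nonneg_right (hcc _)
  apply mul_nonneg
  · have : 0 ≤ Real.log X := Real.log_nonneg hX1
    positivity
  · refine Finset.prod_nonneg fun p hp => ?_
    have hp0 : 0 < p := (Finset.mem_filter.1 hp).2.pos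
    have hp1 : (1 : ℝ) ≤ p := by exact_mod_cast hp0
    have h4 := ssf_oF_le E p hp0
    have h5 : 1 / (p : ℝ) ≤ 1 := by rw [div_le_one (by linarith)]; exact hp1
    apply div_nonneg
    · linarith
    · exact pow_nonneg (by linarith) _

end Pool.Agent.Q117.LF
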