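import Pool.Agent.Q117.LF.Fsc
import Pool.Agent.Q117.LF.T44
import Pool.Agent.H141R2.FS.Main1

/-!
Project LF (helper117), job T51 (helper208): four squares and prescribed surroundings.
-/

set_option autoImplicit false

namespace Pool.Agent.Q117.LF

open Finset Filter
open Pool.Agent.Q117.GP (Rk)

/-! ### T51: four squares and prescribed surroundings -/

lemma t51_step (u v : ℝ) (hu : 10 ≤ u) (h : u / 2 ≤ v) : Real.log u - 7 / 10 ≤ Real.log v := by
  have h5 : Real.log (u / 2) ≤ Real.log v := Real.log_le_log (by positivity) h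
  rw [Real.log_div (by positivity) (by norm_num)] at h5
  have := Real.log_two_lt_d9
  linarith

/-- regularity of Rankin's function under square roots -/
lemma t51_rk (T T' : ℝ) (h1 : T / 2 ≤ T') (h2 : T' ≤ T) (h3 : 10 ≤ T) (h4 : 10 ≤ Real.log T)
    (h5 : 10 ≤ Real.log (Real.log T)) (h6 : 10 ≤ Real.log (Real.log (Real.log T))) :
    0 < T' * Real.log T' * Real.log (Real.log (Real.log T')) / Real.log (Real.log T') ^ 2 ∧
    T * Real.log T * Real.log (Real.log (Real.log T)) / Real.log (Real.log T) ^ 2 ≤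
      8 * (T' * Real.log T' * Real.log (Real.log (Real.log T')) / Real.log (Real.log T') ^ 2) := by
  obtain ⟨A, hA⟩ : ∃ A, A = Real.log T := ⟨_, rfl⟩
  obtain ⟨B, hB⟩ : ∃ B, B = Real.log A := ⟨_, rfl⟩
  obtain ⟨D, hD⟩ : ∃ D, D = Real.log B := ⟨_, rfl⟩
  obtain ⟨A', hA'⟩ : ∃ A', A' = Real.log T' := ⟨_, rfl⟩
  obtain ⟨B', hB'⟩ : ∃ B', B' = Real.log A' := ⟨_, rfl⟩
  obtain ⟨D', hD'⟩ : ∃ D', D' = Real.log B' := ⟨_, rfl⟩
  rw [← hA] at h4 h5 h6
  rw [← hB] at h5 h6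
  rw [← hD] at h6
  rw [← hA, ← hA', ← hB, ← hB', ← hD, ← hD']
  have a2 : A / 2 ≤ A' := by
    have := t51_step T T' h3 h1
    rw [← hA, ← hA'] at this
    linarith
  have b2 : B / 2 ≤ B' := by
    have := t51_step A A' h4 a2
    rw [← hB, ← hB'] at this
    linarith
  have b3 : B' ≤ B := by
    rw [hB, hB']
    apply Real.log_le_log (by linarith)
    rw [hA, hA']
    exact Real.log_le_log (by linarith) h2
  have d2 : D / 2 ≤ D' := by
    have := t51_step B B' h5 b2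
    rw [← hD, ← hD'] at this
    linarith
  have hB0 : 0 < B' := by linarith
  have hT0 : 0 < T' := by linarith
  have hA0 : 0 < A' := by linarith
  have hD0 : 0 < D' := by linarith
  have hnum : (T / 2) * (A / 2) * (D / 2) ≤ T' * A' * D' := by
    apply mul_le_mul
    · exact mul_le_mul h1 a2 (by linarith) (by linarith)
    · exact d2
    · linarith
    · positivity
  have hpos : 0 < T * A * D := by
    have : 0 < T := by linarith
    have : 0 < A := by linarith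
    have : 0 < D := by linarith
    positivity
  refine ⟨by positivity, ?_⟩
  have hB1 : (0 : ℝ) < B' ^ 2 := by positivity
  have hB2 : B' ^ 2 ≤ B ^ 2 := pow_le_pow_left₀ hB0.le b3 2
  calc T * A * D / B ^ 2 ≤ T * A * D / B' ^ 2 := div_le_div_of_nonneg_left hpos.le hB1 hB2
    _ ≤ (8 * (T' * A' * D')) / B' ^ 2 := by
        apply div_le_div_of_nonneg_right _ hB1.le
        linarith
    _ = 8 * (T' * A' * D' / B' ^ 2) := by ring

/-- all the growth conditions -/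
lemma t51_ev (X1 X2 X3 c : ℝ) (hc : 0 < c) (t : ℕ) (ht : 1 ≤ t) : ∃ N : ℕ, ∀ n : ℕ, N ≤ n → ∃ X : ℝ,
    X ^ 2 = 29 * n ∧ X1 ≤ X ∧ X2 ≤ X ∧ 1 ≤ X ∧ (n : ℝ) ^ (1 / 2 : ℝ) ≤ X ∧ X ≤ n ∧ X3 ≤ (n : ℝ) ∧ 900 ≤ (n : ℝ) ∧
    5 ≤ X ^ (1 / (t : ℝ)) ∧ 0 < Rk X ∧ Rk n ≤ 8 * Rk X ∧ c * (Real.log n) ^ 2 ≤ X / 2 ∧
    Real.log (2 * (c * (Real.log n) ^ 2)) < c / 2 * Real.log X ∧ 1 ≤ Real.log n := by
  have hlog := Real.tendsto_log_atTop
  have h2 : Tendsto (fun X : ℝ => Real.log (Real.log X)) atTop atTop := hlog.comp hlog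
  have h3 : Tendsto (fun X : ℝ => Real.log (Real.log (Real.log X))) atTop atTop := hlog.comp h2
  have h4 : Tendsto (fun X : ℝ => Real.log (Real.log (Real.log (Real.log X)))) atTop atTop :=
    hlog.comp h3
  have hsq : Tendsto (fun y : ℝ => y ^ (1 / 2 : ℝ)) atTop atTop := tendsto_rpow_atTop (by norm_num)
  have hpt : Tendsto (fun y : ℝ => y ^ (1 / (2 * (t : ℝ)))) atTop atTop := tendsto_rpow_atTop (by
    have : (0 : ℝ) < t := by exact_mod_cast ht
    positivity)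
  have hA : ∀ᶠ y : ℝ in atTop, ‖(Real.log y) ^ 2‖ ≤ 1 / (2 * c) * ‖y ^ (1 / 2 : ℝ)‖ := by
    have h2 : (fun x : ℝ => (Real.log x) ^ (2 : ℝ)) =o[atTop] fun x => x ^ (1 / 2 : ℝ) :=
      isLittleO_log_rpow_rpow_atTop (s := 1 / 2) 2 (by positivity)
    have h3 := h2.def (show (0 : ℝ) < 1 / (2 * c) by positivity)
    filter_upwards [h3] with X hX
    simpa using hX
  have hB : ∀ᶠ y : ℝ in atTop, ‖(Real.log y) ^ 2‖ ≤ 1 / (4 * c) * ‖y ^ (c / 4 : ℝ)‖ := by
    have h2 : (fun x : ℝ => (Real.log x) ^ (2 : ℝ)) =o[atTop] fun x => x ^ (c / 4 : ℝ) :=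
      isLittleO_log_rpow_rpow_atTop (s := c / 4) 2 (by positivity)
    have h3 := h2.def (show (0 : ℝ) < 1 / (4 * c) by positivity)
    filter_upwards [h3] with X hX
    simpa using hX
  have hev : ∀ᶠ y : ℝ in atTop, X1 ≤ y ^ (1 / 2 : ℝ) ∧ X2 ≤ y ^ (1 / 2 : ℝ) ∧ X3 ≤ y ∧ 900 ≤ y ∧
      5 ≤ y ^ (1 / (2 * (t : ℝ))) ∧ ‖(Real.log y) ^ 2‖ ≤ 1 / (2 * c) * ‖y ^ (1 / 2 : ℝ)‖ ∧
      ‖(Real.log y) ^ 2‖ ≤ 1 / (4 * c) * ‖y ^ (c / 4 : ℝ)‖ ∧
      10 ≤ Real.log y ∧ 10 ≤ Real.log (Real.log y) ∧ 10 ≤ Real.log (Real.log (Real.log y)) ∧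
      10 ≤ Real.log (Real.log (Real.log (Real.log y))) := by
    filter_upwards [hsq.eventually_ge_atTop X1, hsq.eventually_ge_atTop X2, eventually_ge_atTop X3,
      eventually_ge_atTop 900, hpt.eventually_ge_atTop 5, hA, hB, hlog.eventually_ge_atTop 10,
      h2.eventually_ge_atTop 10, h3.eventually_ge_atTop 10, h4.eventually_ge_atTop 10] with
      y g1 g2 g3 g4 g5 g6 g7 g8 g9 g10 g11
    exact ⟨g1, g2, g3, g4, g5, g6, g7, g8, g9, g10, g11⟩
  obtain ⟨Y, hY⟩ := eventually_atTop.1 hev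
  refine ⟨⌈Y⌉₊, fun n hn => ?_⟩
  have hYn : Y ≤ (n : ℝ) := (Nat.le_ceil Y).trans (by exact_mod_cast hn)
  obtain ⟨g1, g2, g3, g4, g5, g6, g7, g8, g9, g10, g11⟩ := hY n hYn
  have hn0 : (0 : ℝ) < n := by linarith
  have hs : ((n : ℝ) ^ (1 / 2 : ℝ)) ^ 2 = n := by
    rw [← Real.sqrt_eq_rpow, Real.sq_sqrt hn0.le]
  have hs0 : 0 < (n : ℝ) ^ (1 / 2 : ℝ) := Real.rpow_pos_of_pos hn0 _
  obtain ⟨X, hX⟩ : ∃ X, X = Real.sqrt (29 * n) := ⟨_, rfl⟩
  have hX2 : X ^ 2 = 29 * n := by rw [hX, Real.sq_sqrt (by positivity)]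
  have hXpos : 0 < X := by rw [hX]; positivity
  have hXs : (n : ℝ) ^ (1 / 2 : ℝ) ≤ X := by
    rw [← Real.sqrt_eq_rpow, hX]
    exact Real.sqrt_le_sqrt (by linarith)
  have hXn : X ≤ n := by
    rw [hX]
    apply Real.sqrt_le_iff.2
    constructor
    · exact hn0.le
    · nlinarith
  have hlX : 2 * Real.log X = Real.log 29 + Real.log n := by
    rw [← Real.log_mul (by norm_num) hn0.ne', ← hX2, Real.log_pow]
    norm_num
  have h29 : 0 ≤ Real.log 29 := Real.log_nonneg (by norm_num)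
  have hlX1 : Real.log n / 2 ≤ Real.log X := by linarith
  have hlX2 : Real.log X ≤ Real.log n := Real.log_le_log hXpos hXn
  obtain ⟨k1, k2⟩ := t51_rk (Real.log n) (Real.log X) hlX1 hlX2 g8 g9 g10 g11
  refine ⟨X, hX2, g1.trans hXs, g2.trans hXs, ?_, hXs, hXn, g3, g4, ?_, k1, k2, ?_, ?_, by linarith⟩
  · nlinarith
  · have ht0 : (0 : ℝ) < t := by exact_mod_cast ht
    have e1 : (n : ℝ) ^ (1 / (2 * (t : ℝ))) = ((n : ℝ) ^ (1 / 2 : ℝ)) ^ (1 / (t : ℝ)) := by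
      rw [← Real.rpow_mul hn0.le]
      congr 1
      field_simp
    rw [e1] at g5
    exact g5.trans (Real.rpow_le_rpow hs0.le hXs (by positivity))
  · rw [Real.norm_of_nonneg (by positivity), Real.norm_of_nonneg (by positivity)] at g6
    have e1 : c * (Real.log n) ^ 2 ≤ c * (1 / (2 * c) * (n : ℝ) ^ (1 / 2 : ℝ)) :=
      mul_le_mul_of_nonneg_left g6 hc.le
    have e2 : c * (1 / (2 * c) * (n : ℝ) ^ (1 / 2 : ℝ)) = (n : ℝ) ^ (1 / 2 : ℝ) / 2 := by
      field_simp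
    linarith
  · rw [Real.norm_of_nonneg (by positivity), Real.norm_of_nonneg (by positivity)] at g7
    have hl0 : 0 < Real.log n := by linarith
    have e1 : 2 * (c * (Real.log n) ^ 2) ≤ (n : ℝ) ^ (c / 4 : ℝ) / 2 := by
      have e3 : c * (Real.log n) ^ 2 ≤ c * (1 / (4 * c) * (n : ℝ) ^ (c / 4 : ℝ)) :=
        mul_le_mul_of_nonneg_left g7 hc.le
      have e2 : c * (1 / (4 * c) * (n : ℝ) ^ (c / 4 : ℝ)) = (n : ℝ) ^ (c / 4 : ℝ) / 4 := by
        field_simp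
      linarith
    have e4 := Real.log_le_log (by positivity) e1
    rw [Real.log_div (Real.rpow_pos_of_pos hn0 _).ne' (by norm_num), Real.log_rpow hn0] at e4
    have e5 : c / 4 * Real.log n ≤ c / 2 * Real.log X := by nlinarith
    have := Real.log_pos (show (1 : ℝ) < 2 by norm_num)
    linarith

lemma t51_Ro_anti {z z' : ℝ} {m : ℤ} (h : Ro z m) (hz : z' ≤ z) : Ro z' m :=
  fun p hp hm => lt_of_le_of_lt hz (h p hp hm)

lemma t51_coprime {X : ℝ} (hX : 5 ≤ X) {p : ℕ} (h : Ro X (p : ℤ)) : Nat.Coprime p 30 := by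
  rw [Nat.coprime_iff_gcd_eq_one]
  by_contra hg
  obtain ⟨q, hq, hqd⟩ := Nat.exists_prime_and_dvd hg
  have h1 : q ∣ p := hqd.trans (Nat.gcd_dvd_left _ _)
  have h2 : q ∣ 30 := hqd.trans (Nat.gcd_dvd_right _ _)
  have h3 := h q hq (by exact_mod_cast h1)
  have h4 : (5 : ℝ) < q := lt_of_le_of_lt hX h3
  have h5 : 5 < q := by exact_mod_cast h4
  have h6 : q ∣ 2 * 3 * 5 := h2
  rcases (hq.dvd_mul).1 h6 with h7 | h7
  · rcases (hq.dvd_mul).1 h7 with h8 | h8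
    · have := Nat.le_of_dvd (by norm_num) h8
      omega
    · have := Nat.le_of_dvd (by norm_num) h8
      omega
  · have := Nat.le_of_dvd (by norm_num) h7
    omega

/-- **T51.** -/
theorem t51 : St_T51 := by
  classical
  intro hI k
  obtain ⟨t, ht, c, hc, X1, hun⟩ := t44_unif
    (ι := Σ r : Fin (k + 1), {q : Fin (r : ℕ) × Fin (r : ℕ) × Fin (r : ℕ) // q.1 ≠ q.2.1})
    (fun x t c X0 => ∀ X : ℝ, X0 ≤ X → ∀ be : Fin (x.1 : ℕ) → ℤ,
      (∀ l, |(be l : ℝ)| ≤ ((60 : ℕ) : ℝ) * X) →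
      X / ((60 : ℕ) : ℝ) ≤ ((1 : ℕ) : ℝ) * X + be x.2.1.1 →
      (∀ l m, l ≠ m → ((1 : ℕ) : ℤ) * be m ≠ ((1 : ℕ) : ℤ) * be l) → AdmS (fun _ => 1) be →
      ∃ Z : Fin (x.1 : ℕ) → Finset ℤ, (∀ l, (Z l).card < x.1) ∧
      (∀ l, ∀ u ∈ Z l, ∃ m, m ≠ l ∧ c * (Real.log X / Real.log (Real.log X)) ≤
        (((((1 : ℕ) : ℤ) * (be l + u) - ((1 : ℕ) : ℤ) * be m).natAbs.primeFactors.filter
          (fun p : ℕ => (p : ℝ) ≤ Real.log X)).card : ℝ)) ∧
      X ^ (99 / 100 : ℝ) ≤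
        ((PtsI t 60 X c (fun _ => 1) be x.2.1.1 x.2.1.2.1 x.2.1.2.2 Z).card : ℝ))
    (fun x => hI x.1 (fun _ => 1) (fun _ => le_rfl) 60 (by norm_num) x.2.1.1 x.2.1.2.1 x.2.1.2.2 x.2.2)
  obtain ⟨X2, hX2⟩ := t44_ev c hc
  obtain ⟨X3, hX3⟩ := t44_Rk_le
  obtain ⟨N, hN⟩ := t51_ev X1 X2 X3 c hc t ht
  refine ⟨2 * t + 1, by omega, c / 8, by positivity, N, ?_⟩
  intro n hn h4 H hcard h0 hH hadm h₁ hh₁ h₂ hh₂ hne
  obtain ⟨X, e1, e2, e3, e4, e5, e6, e7, e8, e9, e10, e11, e12, e13, e14⟩ := hN n hn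
  obtain ⟨r1, r2, r3, r4⟩ := hX3 n e7
  have hn0 : (0 : ℝ) < n := by linarith
  have hX0 : 0 < X := by linarith
  have hD1 : c / 8 * Rk n ≤ c * (Real.log n) ^ 2 := by
    have q1 : c * Rk n ≤ c * (Real.log n) ^ 2 := mul_le_mul_of_nonneg_left r2 hc.le
    have q2 : 0 ≤ c * Rk n := by positivity
    linarith
  have hD2 : c / 8 * Rk n ≤ c * Rk X := by
    have q1 : c * Rk n ≤ c * (8 * Rk X) := mul_le_mul_of_nonneg_left e11 hc.le
    linarith
  obtain ⟨i, hi⟩ := fscE_surj H hh₁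
  obtain ⟨j, hj⟩ := fscE_surj H hh₂
  obtain ⟨i₀, hi₀⟩ := fscE_surj H h0
  have hij : i ≠ j := by
    rintro rfl
    exact hne (hi.symm.trans hj)
  obtain ⟨t', c', X0', ht'1, ht't, hc'0, hcc', hX0', hP⟩ := hun ⟨⟨H.card, Nat.lt_succ_of_le hcard⟩,
    ⟨(i, j, i₀), hij⟩⟩
  have hHX : ∀ h ∈ H, |(h : ℝ)| ≤ X / 2 := fun h hh => (hH h hh).trans (hD1.trans e12)
  obtain ⟨Z0, hZ1, hZ2, hZ3⟩ := hP X (hX0'.trans e2) (fscE H) (fun l => by
      have := hHX _ (fscE_mem H l)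
      push_cast
      linarith) (by
      have := abs_le.1 (hHX _ hh₁)
      rw [← hi] at this
      push_cast
      linarith [this.1]) (fun l m hlm h => by
      rw [Nat.cast_one, one_mul, one_mul] at h
      exact hlm (fscE_inj H h).symm) (fsc_adm hadm)
  have hlog : Real.log X ≤ Real.log n := Real.log_le_log hX0 e6
  -- the exceptional set has no small elements
  have hZbad : ∀ u : ℤ, |(u : ℝ)| ≤ c / 8 * Rk n → u ∉ Z0 i₀ := by
    intro u hu hZ
    obtain ⟨m, hm, hcm⟩ := hZ2 _ u hZ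
    rw [hi₀, Nat.cast_one, one_mul, one_mul, zero_add] at hcm
    have hlX0 : 0 ≤ Real.log X / Real.log (Real.log X) := by
      have q0 : (0 : ℝ) < Rk X := e10
      have q1 : 0 ≤ Real.log X := Real.log_nonneg e4
      rcases le_or_gt 1 (Real.log X) with q2 | q2
      · exact div_nonneg q1 (Real.log_nonneg q2)
      · exfalso
        have q3 : (n : ℝ) ^ (1 / 2 : ℝ) ≤ X := e5
        have q4 := Real.log_le_log (by positivity) q3
        rw [Real.log_rpow hn0] at q4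
        have q5 : Real.log 900 ≤ Real.log n := Real.log_le_log (by norm_num) e8
        have q6 : (2 : ℝ) < Real.log 900 := by
          rw [Real.lt_log_iff_exp_lt (by norm_num)]
          have := Real.exp_one_lt_d9
          have q7 : Real.exp 2 = Real.exp 1 * Real.exp 1 := by
            rw [← Real.exp_add]; norm_num
          have q8 := Real.exp_pos 1
          rw [q7]
          nlinarith
        linarith
    have hcm' := (mul_le_mul_of_nonneg_right hcc' hlX0).trans hcm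
    obtain ⟨hv0, hv⟩ := hX2 X e3 _ _ hcm'
    have hvX : (((u - fscE H m).natAbs : ℕ) : ℝ) ≤ 2 * (c * (Real.log n) ^ 2) := by
      rw [Nat.cast_natAbs, Int.cast_abs]
      push_cast
      have a1 := abs_le.1 (hu.trans hD1)
      have a2 := abs_le.1 ((hH _ (fscE_mem H m)).trans hD1)
      rw [abs_le]
      constructor <;> linarith [a1.1, a1.2, a2.1, a2.2]
    have hvpos : (0 : ℝ) < (((u - fscE H m).natAbs : ℕ) : ℝ) := by
      exact_mod_cast Nat.pos_of_ne_zero hv0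
    have h9 := Real.log_le_log hvpos hvX
    linarith
  have hsub : PtsI t' 60 X c' (fun _ => 1) (fscE H) i j i₀ Z0 ⊆
      Pts4 (2 * t + 1) n (c / 8 * Rk n) H h₁ h₂ := by
    intro p hp
    unfold PtsI at hp
    rw [mem_filter] at hp
    obtain ⟨p1, p2, p3, p4, p5, p6, p7, p8⟩ := hp
    rw [fsc_fm, hi] at p4 p5
    rw [fsc_fm, hj] at p6
    have hpp : (p : ℝ) ≤ X * (61 / 60) := by
      push_cast at p3
      linarith
    have hp0 : (0 : ℝ) ≤ p := Nat.cast_nonneg _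
    have hsq1 : 29 * n ≤ p ^ 2 := by
      have q1 : X ^ 2 ≤ (p : ℝ) ^ 2 := pow_le_pow_left₀ hX0.le p2.le 2
      rw [e1] at q1
      exact_mod_cast q1
    have hsq2 : p ^ 2 ≤ 30 * n := by
      have q1 : (p : ℝ) ^ 2 ≤ (X * (61 / 60)) ^ 2 := pow_le_pow_left₀ hp0 hpp 2
      rw [mul_pow, e1] at q1
      have q2 : (p : ℝ) ^ 2 ≤ 30 * n := by linarith
      exact_mod_cast q2
    have hXt : X ^ (1 / (t : ℝ)) ≤ X ^ (1 / (t' : ℝ)) := by
      apply Real.rpow_le_rpow_of_exponent_le e4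
      apply one_div_le_one_div_of_le
      · exact_mod_cast ht'1
      · exact_mod_cast ht't
    have hRo : ∀ h ∈ H, Ro (X ^ (1 / (t : ℝ))) ((p : ℤ) + h) := by
      intro h hh
      obtain ⟨l, rfl⟩ := fscE_surj H hh
      have := p7 l
      rw [fsc_fm] at this
      exact t51_Ro_anti this hXt
    have hcop : Nat.Coprime p 30 := by
      have := hRo 0 h0
      rw [add_zero] at this
      exact t51_coprime e9 this
    obtain ⟨x, y, z, w, v1, v2⟩ := Pool.Agent.H141R2.FS.rep h4 hcop hsq1 hsq2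
    have hn1 : (1 : ℝ) ≤ n := by linarith
    unfold Pts4
    rw [mem_filter]
    refine ⟨?_, ⟨x, y, z, w, v1, v2.symm⟩, ?_, ?_, ?_, ?_⟩
    · rw [mem_range]
      have q1 : 1 ≤ n := by exact_mod_cast hn1
      by_contra hcon
      push Not at hcon
      have q2 : (6 * n) ^ 2 ≤ p ^ 2 := Nat.pow_le_pow_left (by omega) 2
      nlinarith
    · have q1 : ((p : ℤ) + h₁).toNat = ((p : ℤ) + h₁).natAbs := by omega
      rw [q1]
      exact p5
    · refine ⟨p6.1, t51_Ro_anti p6.2 ?_⟩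
      have q1 : ((n : ℝ) ^ (1 / 2 : ℝ)) ^ (1 / 8 : ℝ) ≤ X ^ (1 / 8 : ℝ) :=
        Real.rpow_le_rpow (by positivity) e5 (by norm_num)
      rw [← Real.rpow_mul hn0.le] at q1
      refine le_trans ?_ q1
      apply Real.rpow_le_rpow_of_exponent_le hn1
      norm_num
    · intro h hh
      refine t51_Ro_anti (hRo h hh) ?_
      have ht0 : (0 : ℝ) < t := by exact_mod_cast ht
      have q1 : ((n : ℝ) ^ (1 / 2 : ℝ)) ^ (1 / (t : ℝ)) ≤ X ^ (1 / (t : ℝ)) :=
        Real.rpow_le_rpow (by positivity) e5 (by positivity)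
      rw [← Real.rpow_mul hn0.le] at q1
      refine le_trans ?_ q1
      apply Real.rpow_le_rpow_of_exponent_le hn1
      rw [div_mul_div_comm, one_mul]
      apply one_div_le_one_div_of_le (by positivity)
      push_cast
      linarith
    · intro s hs hsH hRs
      have h8 := p8 i₀ s (by
        rw [if_pos rfl]
        exact (hs.trans hD2).trans (mul_le_mul_of_nonneg_right hcc' e10.le)) (hZbad s hs) (by
        intro m hm
        rw [fsc_fm, fsc_fm, hi₀, add_zero] at hm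
        apply hsH
        have : s = fscE H m := by linarith
        rw [this]
        exact fscE_mem H m)
      rw [fsc_fm, hi₀, add_zero] at h8
      exact h8 (t51_Ro_anti hRs hlog)
  have hfin : (n : ℝ) ^ (49 / 100 : ℝ) ≤ X ^ (99 / 100 : ℝ) := by
    have q1 : ((n : ℝ) ^ (1 / 2 : ℝ)) ^ (99 / 100 : ℝ) ≤ X ^ (99 / 100 : ℝ) :=
      Real.rpow_le_rpow (by positivity) e5 (by norm_num)
    rw [← Real.rpow_mul hn0.le] at q1
    refine le_trans ?_ q1
    apply Real.rpow_le_rpow_of_exponent_le (by linarith)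
    norm_num
  exact (hfin.trans hZ3).trans (by exact_mod_cast card_le_card hsub)

end Pool.Agent.Q117.LF
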