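import Pool.Agent.Q117.LF.Stm6
import Pool.Agent.Y843.HG.Prs

/-!
Project LF (helper117), job T59 (helper66): consecutive representations `N = n + (N - n)` at the natural scale.
-/

set_option autoImplicit false

namespace Pool.Agent.Q117.LF

open Finset Filter

open Classical in
lemma t59_oF_card (E : Finset ℤ) (p : ℕ) : oF E p ≤ E.card := card_image_le

open Classical in
lemma t59_oF_le (E : Finset ℤ) (p : ℕ) (hp : 0 < p) : oF E p ≤ p := by
  have hp0 : (0 : ℤ) < p := by exact_mod_cast hp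
  have h : E.image (fun e : ℤ => e % (p : ℤ)) ⊆ Ico 0 (p : ℤ) := by
    intro x hx
    obtain ⟨e, _, rfl⟩ := mem_image.mp hx
    exact mem_Ico.mpr ⟨Int.emod_nonneg _ hp0.ne', Int.emod_lt_of_pos _ hp0⟩
  have h1 := card_le_card h
  rw [Int.card_Ico] at h1
  unfold oF
  omega

open Classical in
lemma t59_oF_lt (E : Finset ℤ) (p : ℕ) (hp : 0 < p) (h : ∃ r : ℤ, ∀ e ∈ E, ¬ (p : ℤ) ∣ r + e) :
    oF E p < p := by
  obtain ⟨r, hr⟩ := h
  have hp0 : (0 : ℤ) < p := by exact_mod_cast hp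
  have hs : E.image (fun e : ℤ => e % (p : ℤ)) ⊆ (Ico 0 (p : ℤ)).erase ((-r) % p) := by
    intro x hx
    obtain ⟨e, he, rfl⟩ := mem_image.mp hx
    refine mem_erase.mpr ⟨fun h => hr e he ?_,
      mem_Ico.mpr ⟨Int.emod_nonneg _ hp0.ne', Int.emod_lt_of_pos _ hp0⟩⟩
    have h2 : (p : ℤ) ∣ e - -r :=
      Int.dvd_of_emod_eq_zero (Int.emod_eq_emod_iff_emod_sub_eq_zero.mp h)
    have e3 : e - -r = r + e := by ring
    rwa [e3] at h2
  have h1 := card_le_card hs
  rw [card_erase_of_mem (mem_Ico.mpr ⟨Int.emod_nonneg _ hp0.ne', Int.emod_lt_of_pos _ hp0⟩),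
    Int.card_Ico] at h1
  unfold oF
  omega

lemma t59_fac (E : Finset ℤ) (p : ℕ) (hp : 0 < p) :
    0 ≤ 1 - (oF E p : ℝ) / p ∧ 1 - (oF E p : ℝ) / p ≤ 1 := by
  have hp0 : (0 : ℝ) < p := by exact_mod_cast hp
  have h1 : (oF E p : ℝ) ≤ p := by exact_mod_cast t59_oF_le E p hp
  have h2 : (0 : ℝ) ≤ (oF E p : ℝ) := Nat.cast_nonneg _
  constructor
  · rw [sub_nonneg, div_le_one hp0]; exact h1
  · have := div_nonneg h2 hp0.le
    linarith

lemma t59_VF_nonneg (y : ℕ) (E : Finset ℤ) : 0 ≤ VF y E :=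
  prod_nonneg fun p hp => (t59_fac E p (mem_filter.mp hp).2.pos).1

lemma t59_split (E : Finset ℤ) {M N : ℕ} (h : M ≤ N) :
    VF N E = VF M E * ∏ p ∈ (Ioc M N).filter Nat.Prime, (1 - (oF E p : ℝ) / p) := by
  unfold VF
  have e1 : (Icc 1 N).filter Nat.Prime = (Icc 1 M).filter Nat.Prime ∪ (Ioc M N).filter Nat.Prime := by
    ext p
    simp only [mem_filter, mem_union, mem_Icc, mem_Ioc]
    constructor
    · rintro ⟨⟨h1, h2⟩, h3⟩
      by_cases h4 : p ≤ M
      · exact Or.inl ⟨⟨h1, h4⟩, h3⟩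
      · exact Or.inr ⟨⟨by omega, h2⟩, h3⟩
    · rintro (⟨⟨h1, h2⟩, h3⟩ | ⟨⟨h1, h2⟩, h3⟩)
      · exact ⟨⟨h1, by omega⟩, h3⟩
      · exact ⟨⟨by omega, h2⟩, h3⟩
  rw [e1, prod_union]
  rw [disjoint_left]
  intro p h1 h2
  rw [mem_filter, mem_Icc] at h1
  rw [mem_filter, mem_Ioc] at h2
  omega

lemma t59_mono (E : Finset ℤ) {M N : ℕ} (h : M ≤ N) : VF N E ≤ VF M E := by
  rw [t59_split E h]
  have h1 : ∏ p ∈ (Ioc M N).filter Nat.Prime, (1 - (oF E p : ℝ) / p) ≤ 1 :=
    prod_le_one (fun p hp => (t59_fac E p (mem_filter.mp hp).2.pos).1)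
      (fun p hp => (t59_fac E p (mem_filter.mp hp).2.pos).2)
  exact mul_le_of_le_one_right (t59_VF_nonneg M E) h1

lemma t59_ratio (E : Finset ℤ) (hE : E.card ≤ 2) (N : ℕ) (hN : 16 ≤ N) :
    VF ⌊(N : ℝ) / 4⌋₊ E ≤ Real.exp 16 * VF N E := by
  have hN0 : (16 : ℝ) ≤ N := by exact_mod_cast hN
  have hle : ⌊(N : ℝ) / 4⌋₊ ≤ N := by
    have h1 : ((⌊(N : ℝ) / 4⌋₊ : ℕ) : ℝ) ≤ (N : ℝ) / 4 := Nat.floor_le (by positivity)
    have h2 : ((⌊(N : ℝ) / 4⌋₊ : ℕ) : ℝ) ≤ N := by linarith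
    exact_mod_cast h2
  rw [t59_split E hle]
  set S := (Ioc ⌊(N : ℝ) / 4⌋₊ N).filter Nat.Prime with hS
  have hScard : S.card ≤ N := by
    refine (card_filter_le _ _).trans ?_
    rw [Nat.card_Ioc]
    omega
  have hx : ∀ p ∈ S, Real.exp (-(16 / (N : ℝ))) ≤ 1 - (oF E p : ℝ) / p := by
    intro p hp
    rw [hS, mem_filter, mem_Ioc] at hp
    have hp1 : (N : ℝ) / 4 < p := Nat.lt_of_floor_lt hp.1.1
    have hp0 : (0 : ℝ) < p := by linarith
    have h2 : (oF E p : ℝ) ≤ 2 := by exact_mod_cast (t59_oF_card E p).trans hE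
    have h3 : (oF E p : ℝ) / p ≤ 8 / N := by
      rw [div_le_div_iff₀ hp0 (by linarith)]
      nlinarith
    have h4 : (8 : ℝ) / N ≤ 1 / 2 := by
      rw [div_le_div_iff₀ (by linarith) (by norm_num)]
      linarith
    have h4' : 0 ≤ (8 : ℝ) / N := by positivity
    have h5 : Real.exp (-(16 / (N : ℝ))) ≤ 1 - 8 / N := by
      have h6 : 1 + 16 / (N : ℝ) ≤ Real.exp (16 / (N : ℝ)) := by
        have := Real.add_one_le_exp (16 / (N : ℝ))
        linarith
      rw [Real.exp_neg]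
      rw [inv_le_iff_one_le_mul₀ (Real.exp_pos _)]
      have e1 : (16 : ℝ) / N = 2 * (8 / N) := by ring
      rw [e1] at h6 ⊢
      have h7 : 0 ≤ 1 - (8 : ℝ) / N := by linarith
      calc (1 : ℝ) ≤ (1 - 8 / N) * (1 + 2 * (8 / N)) := by nlinarith
        _ ≤ (1 - 8 / N) * Real.exp (2 * (8 / N)) := mul_le_mul_of_nonneg_left h6 h7
    linarith
  have hprod : Real.exp (-16) ≤ ∏ p ∈ S, (1 - (oF E p : ℝ) / p) := by
    calc Real.exp (-16) ≤ Real.exp (-(16 / (N : ℝ))) ^ S.card := by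
          rw [← Real.exp_nat_mul]
          apply Real.exp_le_exp.mpr
          have h6 : (S.card : ℝ) ≤ N := by exact_mod_cast hScard
          have h7 : (S.card : ℝ) * (16 / N) ≤ N * (16 / N) :=
            mul_le_mul_of_nonneg_right h6 (by positivity)
          have h8 : (N : ℝ) * (16 / N) = 16 := by field_simp
          linarith
      _ = ∏ p ∈ S, Real.exp (-(16 / (N : ℝ))) := by rw [prod_const]
      _ ≤ _ := prod_le_prod (fun p _ => (Real.exp_pos _).le) hx
  have h1 : 1 ≤ Real.exp 16 * ∏ p ∈ S, (1 - (oF E p : ℝ) / p) := by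
    calc (1 : ℝ) = Real.exp 16 * Real.exp (-16) := by rw [← Real.exp_add]; norm_num
      _ ≤ _ := mul_le_mul_of_nonneg_left hprod (Real.exp_pos _).le
  calc VF ⌊(N : ℝ) / 4⌋₊ E = VF ⌊(N : ℝ) / 4⌋₊ E * 1 := by ring
    _ ≤ VF ⌊(N : ℝ) / 4⌋₊ E * (Real.exp 16 * ∏ p ∈ S, (1 - (oF E p : ℝ) / p)) :=
        mul_le_mul_of_nonneg_left h1 (t59_VF_nonneg _ _)
    _ = _ := by ring

open Classical in
lemma t59_low : ∃ c : ℝ, 0 < c ∧ ∀ N : ℕ, 7 ≤ N → ∀ E : Finset ℤ, E.card ≤ 2 → AdmZ E →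
    c / Real.log N ^ 4 ≤ VF N E := by
  obtain ⟨c, hc, h⟩ := Pool.Agent.Y843.HG.VV_low 2
  refine ⟨c, hc, fun N hN E hE hadm => ?_⟩
  set Z : ℕ → Finset ℕ := fun p => (E.image (fun e : ℤ => e % (p : ℤ))).image Int.toNat with hZ
  have hcard : ∀ p : ℕ, p.Prime → (Z p).card = oF E p := by
    intro p hp
    have hp0 : (0 : ℤ) < p := by exact_mod_cast hp.pos
    rw [hZ]
    simp only
    unfold oF
    apply card_image_of_injOn
    intro a ha b hb hab
    rw [mem_coe] at ha hb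
    obtain ⟨e, _, rfl⟩ := mem_image.mp ha
    obtain ⟨f, _, rfl⟩ := mem_image.mp hb
    have h1 := Int.emod_nonneg e hp0.ne'
    have h2 := Int.emod_nonneg f hp0.ne'
    omega
  have h1 := h N (by omega) Z (by
    intro p hp
    have hpp := Pool.Agent.Y843.HS.Pr_prime hp
    have hp0 : (0 : ℤ) < p := by exact_mod_cast hpp.pos
    rw [hcard p hpp]
    refine ⟨(t59_oF_card E p).trans hE, t59_oF_lt E p hpp.pos (hadm p hpp), ?_⟩
    intro a ha
    rw [hZ] at ha
    simp only [mem_image] at ha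
    obtain ⟨b, ⟨e, _, rfl⟩, rfl⟩ := ha
    have h1 := Int.emod_nonneg e hp0.ne'
    have h2 := Int.emod_lt_of_pos e hp0
    omega)
  refine h1.trans (le_of_eq ?_)
  unfold Pool.Agent.Y843.HS.VV VF
  have e1 : Pool.Agent.Y843.HS.Pr 0 N = (Icc 1 N).filter Nat.Prime := by
    ext p
    unfold Pool.Agent.Y843.HS.Pr
    simp only [mem_filter, mem_Icc, mem_Ioc]
    constructor <;> rintro ⟨⟨h1, h2⟩, h3⟩ <;> exact ⟨⟨by omega, h2⟩, h3⟩
  rw [e1]
  refine prod_congr rfl fun p hp => ?_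
  rw [hcard p (mem_filter.mp hp).2]

/-- eventual inequalities -/
lemma t59_ev (t : ℕ) (ht : 1 ≤ t) (a X0 : ℝ) : ∃ N0 : ℕ, ∀ N : ℕ, N0 ≤ N →
    16 ≤ N ∧ X0 ≤ (N : ℝ) / 4 ∧ a * Real.log N ^ 4 ≤ (N : ℝ) / 8 ∧
    (N : ℝ) ^ (1 / 9 : ℝ) ≤ ((N : ℝ) / 4) ^ (1 / 8 : ℝ) ∧
    (N : ℝ) ^ (1 / ((t + 1 : ℕ) : ℝ)) ≤ ((N : ℝ) / 4) ^ (1 / (t : ℝ)) := by
  have ht0 : (0 : ℝ) < t := by exact_mod_cast ht
  have hpow : ∀ a b : ℝ, a < b → 0 < b → ∀ᶠ X : ℝ in atTop, X ^ a ≤ (X / 4) ^ b := by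
    intro a b hab hb
    have h3 : Tendsto (fun X : ℝ => X ^ (b - a)) atTop atTop := tendsto_rpow_atTop (by linarith)
    filter_upwards [eventually_gt_atTop 0, h3.eventually_ge_atTop ((4 : ℝ) ^ b)] with X g1 g2
    rw [Real.div_rpow g1.le (by norm_num), le_div_iff₀ (by positivity)]
    calc X ^ a * 4 ^ b ≤ X ^ a * X ^ (b - a) := by gcongr
      _ = X ^ b := by rw [← Real.rpow_add g1]; congr 1; ring
  have hlogsq : ∀ᶠ X : ℝ in atTop, a * (Real.log X) ^ 4 ≤ X / 8 := by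
    have h3 : Tendsto (fun X : ℝ => a * ((Real.log X) ^ 4 / X)) atTop (nhds 0) := by
      have h4 : Tendsto (fun X : ℝ => (Real.log X) ^ 4 / (1 * X + 0)) atTop (nhds 0) :=
        Real.tendsto_pow_log_div_mul_add_atTop 1 0 4 one_ne_zero
      have h5 := h4.const_mul a
      simpa using h5
    filter_upwards [eventually_gt_atTop 0,
      h3.eventually (gt_mem_nhds (show (0 : ℝ) < 1 / 8 by norm_num))] with X g1 g2
    rw [← mul_div_assoc, div_lt_iff₀ g1] at g2
    linarith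
  have hdiv : Tendsto (fun X : ℝ => X / 4) atTop atTop := tendsto_id.atTop_div_const (by norm_num)
  have hev : ∀ᶠ X : ℝ in atTop, 16 ≤ X ∧ X0 ≤ X / 4 ∧ a * Real.log X ^ 4 ≤ X / 8 ∧
      X ^ (1 / 9 : ℝ) ≤ (X / 4) ^ (1 / 8 : ℝ) ∧
      X ^ (1 / ((t + 1 : ℕ) : ℝ)) ≤ (X / 4) ^ (1 / (t : ℝ)) := by
    filter_upwards [eventually_ge_atTop 16, hdiv.eventually_ge_atTop X0, hlogsq,
      hpow (1 / 9) (1 / 8) (by norm_num) (by norm_num),
      hpow (1 / ((t + 1 : ℕ) : ℝ)) (1 / (t : ℝ)) (by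
        apply one_div_lt_one_div_of_lt ht0
        push_cast; linarith) (by positivity)] with X g1 g2 g3 g4 g5
    exact ⟨g1, g2, g3, g4, g5⟩
  obtain ⟨Y0, hY0⟩ := eventually_atTop.1 hev
  refine ⟨⌈Y0⌉₊, fun N hN => ?_⟩
  obtain ⟨k1, k2, k3, k4, k5⟩ := hY0 N ((Nat.le_ceil _).trans (by exact_mod_cast hN))
  exact ⟨by exact_mod_cast k1, k2, k3, k4, k5⟩

/-- the conditions on the shifts -/
def t59C (J N : ℕ) (ν : ℝ) (D : Fin (J + 1) → ℕ) : Prop :=
  StrictMono D ∧ D 0 = 0 ∧ (∀ j, D j * VF N {0, -(N : ℤ)} ≤ ν) ∧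
    ∀ p : ℕ, p.Prime → ∃ r : ℤ, ∀ j, ¬ (p : ℤ) ∣ r + D j ∧ ¬ (p : ℤ) ∣ N - r - D j

open Classical in
/-- the first case -/
lemma t59_core (hF : FSCc) (J : ℕ) : ∃ t : ℕ, 1 ≤ t ∧ ∃ c : ℝ, 0 < c ∧ ∃ ν : ℝ, 0 < ν ∧ ∃ N0 : ℕ,
    ∀ N : ℕ, N0 ≤ N → ∀ D : Fin (J + 1) → ℕ, t59C J N ν D → ∀ (j₁ : Fin (J + 1))
    (w₂ : Fin (J + 1) × Bool), w₂ ≠ (j₁, false) → c * (N * VF N (gE N D)) ≤
      ((((PtsQ N ((N : ℝ) ^ (1 / (t : ℝ))) (2 * (ν / VF N {0, -(N : ℤ)})) D (j₁, false) w₂).filter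
        (fun n => 0 < n ∧ n + D (Fin.last J) < N)).card : ℕ) : ℝ) ∧ 0 < VF N {0, -(N : ℤ)} := by
  obtain ⟨t, ht, hFt⟩ := hF (2 * (J + 1)) 9 1 (by norm_num)
  obtain ⟨c₁, hc₁, ν₁, hν₁, X0, hX⟩ := hFt (t + 1) (by omega)
  obtain ⟨cV, hcV, hlow⟩ := t59_low
  set ν : ℝ := ν₁ / (2 * Real.exp 16) with hν
  have hexp : 0 < Real.exp 16 := Real.exp_pos _
  have hν0 : 0 < ν := by positivity
  obtain ⟨N1, hN1⟩ := t59_ev t ht (ν / cV) X0
  refine ⟨t + 1, by omega, c₁ / 4, by positivity, ν, hν0, N1, fun N hN D hD j₁ w₂ hw => ?_⟩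
  obtain ⟨q1, q2, q3, q4, q5⟩ := hN1 N hN
  obtain ⟨hDm, hD0, hDν, hDadm⟩ := hD
  have hN0 : (16 : ℝ) ≤ N := by exact_mod_cast q1
  have hlog : 0 < Real.log N := Real.log_pos (by linarith)
  -- the reference set
  set F0 : Finset ℤ := {0, -(N : ℤ)} with hF0
  have hF0card : F0.card ≤ 2 := card_le_two
  have hF0adm : AdmZ F0 := by
    intro p hp
    obtain ⟨r, hr⟩ := hDadm p hp
    have h0 := hr 0
    rw [hD0] at h0
    refine ⟨r, fun e he h => ?_⟩
    rw [hF0, mem_insert, mem_singleton] at he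
    rcases he with rfl | rfl
    · exact h0.1 (by simpa using h)
    · apply h0.2
      have e1 : (N : ℤ) - r - ((0 : ℕ) : ℤ) = -(r + -(N : ℤ)) := by push_cast; ring
      rw [e1]
      exact (dvd_neg).mpr h
  set V : ℝ := VF N F0 with hV
  have hVlow : cV / Real.log N ^ 4 ≤ V := hlow N (by omega) F0 hF0card hF0adm
  have hV0 : 0 < V := lt_of_lt_of_le (by positivity) hVlow
  refine ⟨?_, hV0⟩
  have hL8 : ν / V ≤ (N : ℝ) / 8 := by
    refine le_trans ?_ q3
    rw [div_le_iff₀ hV0]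
    rw [div_le_iff₀ (by positivity)] at hVlow
    calc ν = ν / cV * cV := by field_simp
      _ ≤ ν / cV * (V * Real.log N ^ 4) := mul_le_mul_of_nonneg_left hVlow (by positivity)
      _ = _ := by ring
  have hDj : ∀ j, (D j : ℝ) ≤ (N : ℝ) / 8 := by
    intro j
    refine le_trans ?_ hL8
    rw [le_div_iff₀ hV0]
    exact hDν j
  have hX4 : (0 : ℝ) ≤ (N : ℝ) / 4 := by positivity
  -- the set of the shifts
  set E : Finset ℤ := gE N D with hE
  have hmem1 : ∀ j, (D j : ℤ) ∈ E := fun j => by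
    rw [hE]; unfold gE
    exact mem_union_left _ (mem_image.mpr ⟨j, mem_univ _, rfl⟩)
  have hmem2 : ∀ j, (D j : ℤ) - N ∈ E := fun j => by
    rw [hE]; unfold gE
    exact mem_union_right _ (mem_image.mpr ⟨j, mem_univ _, rfl⟩)
  have hEcases : ∀ e ∈ E, (∃ j, e = (D j : ℤ)) ∨ ∃ j, e = (D j : ℤ) - N := by
    intro e he
    rw [hE] at he
    unfold gE at he
    rcases mem_union.mp he with he | he
    · obtain ⟨j, _, rfl⟩ := mem_image.mp he
      exact Or.inl ⟨j, rfl⟩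
    · obtain ⟨j, _, rfl⟩ := mem_image.mp he
      exact Or.inr ⟨j, rfl⟩
  have hEcard : E.card ≤ 2 * (J + 1) := by
    rw [hE]; unfold gE
    refine (card_union_le _ _).trans ?_
    have h1 := card_image_le (s := (univ : Finset (Fin (J + 1)))) (f := fun j => (D j : ℤ))
    have h2 := card_image_le (s := (univ : Finset (Fin (J + 1)))) (f := fun j => (D j : ℤ) - N)
    rw [card_univ, Fintype.card_fin] at h1 h2
    omega
  have hEK : ∀ e ∈ E, |(e : ℝ)| ≤ ((9 : ℕ) : ℝ) * ((N : ℝ) / 4) := by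
    intro e he
    rcases hEcases e he with ⟨j, rfl⟩ | ⟨j, rfl⟩
    · have h1 := hDj j
      have h2 : (0 : ℝ) ≤ D j := Nat.cast_nonneg _
      push_cast
      rw [abs_of_nonneg h2]
      linarith
    · have h1 := hDj j
      have h2 : (0 : ℝ) ≤ D j := Nat.cast_nonneg _
      push_cast
      rw [abs_le]
      constructor <;> linarith
  have hEadm : AdmZ E := by
    intro p hp
    obtain ⟨r, hr⟩ := hDadm p hp
    refine ⟨r, fun e he h => ?_⟩
    rcases hEcases e he with ⟨j, rfl⟩ | ⟨j, rfl⟩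
    · exact (hr j).1 h
    · apply (hr j).2
      have e1 : (N : ℤ) - r - D j = -(r + ((D j : ℤ) - N)) := by ring
      rw [e1]
      exact (dvd_neg).mpr h
  -- the second place
  set e₂ : ℤ := if w₂.2 then (D w₂.1 : ℤ) - N else (D w₂.1 : ℤ) with he₂
  have he₂E : e₂ ∈ E := by
    rw [he₂]
    split_ifs
    · exact hmem2 _
    · exact hmem1 _
  have hDN : ∀ j, D j < N := by
    intro j
    have h1 := hDj j
    have h2 : (D j : ℝ) < N := by linarith
    exact_mod_cast h2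
  have hne : (D j₁ : ℤ) ≠ e₂ := by
    rw [he₂]
    split_ifs with h
    · have := hDN w₂.1
      omega
    · intro h1
      have h2 : D j₁ = D w₂.1 := by exact_mod_cast h1
      have h3 := hDm.injective h2
      apply hw
      ext
      · rw [h3]
      · simpa using h
  have hmain := hX ((N : ℝ) / 4) q2 E hEcard hEK hEadm (D j₁) (hmem1 j₁) e₂ he₂E hne
    (by
      push_cast
      have : (0 : ℝ) ≤ D j₁ := Nat.cast_nonneg _
      linarith)
    (fun _ => F0)
    (fun γ => ⟨⟨0, by rw [hF0]; exact mem_insert_self _ _⟩, hF0card.trans (by omega), by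
      intro f hf
      rw [hF0, mem_insert, mem_singleton] at hf
      rcases hf with rfl | rfl
      · push_cast
        rw [abs_zero]
        linarith
      · push_cast
        rw [abs_neg, abs_of_nonneg (by linarith)]
        linarith, hF0adm⟩)
    (2 * (ν / V)) (by positivity) (by linarith)
    (fun γ => by
      have h1 := t59_ratio F0 hF0card N q1
      calc 2 * (ν / V) * VF ⌊(N : ℝ) / 4⌋₊ F0 ≤ 2 * (ν / V) * (Real.exp 16 * V) :=
            mul_le_mul_of_nonneg_left h1 (by positivity)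
        _ = ν₁ := by rw [hν]; field_simp)
    ((N : ℝ) ^ (1 / ((t + 1 : ℕ) : ℝ)))
    (Real.rpow_le_rpow hX4 (by linarith) (by positivity)) q5
  have hVF : VF N E ≤ VF ⌊(N : ℝ) / 4⌋₊ E := t59_mono E (by
    have h1 : ((⌊(N : ℝ) / 4⌋₊ : ℕ) : ℝ) ≤ (N : ℝ) / 4 := Nat.floor_le (by positivity)
    have h2 : ((⌊(N : ℝ) / 4⌋₊ : ℕ) : ℝ) ≤ N := by linarith
    exact_mod_cast h2)
  calc c₁ / 4 * (N * VF N E) = c₁ * ((N : ℝ) / 4 * VF N E) := by ring
    _ ≤ c₁ * ((N : ℝ) / 4 * VF ⌊(N : ℝ) / 4⌋₊ E) := by gcongr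
    _ ≤ _ := hmain
    _ ≤ _ := by
      apply Nat.cast_le.mpr
      apply card_le_card
      intro n hn
      simp only [PtsH, PtsQ, mem_filter, mem_range] at hn ⊢
      obtain ⟨n1, n2, n3, n4, n5, n6, n7, n8⟩ := hn
      push_cast at n3
      have hnN : ∀ j, (n : ℝ) + D j < N := by
        intro j
        have := hDj j
        linarith
      have hnN' : ∀ j, n + D j < N := fun j => by exact_mod_cast hnN j
      have hn0 : 0 < n := by
        have : (0 : ℝ) < n := by linarith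
        exact_mod_cast this
      have hgv1 : ∀ j, gv N n D (j, false) = (n : ℤ) + D j := fun j => by simp [gv]
      have hgv2 : ∀ j, gv N n D (j, true) = -((n : ℤ) + ((D j : ℤ) - N)) := fun j => by
        simp [gv]; ring
      refine ⟨⟨by have := hnN' 0; omega, ?_, ?_, ?_, ?_⟩, hn0, hnN' _⟩
      · rw [hgv1]
        have h1 : ((n : ℤ) + D j₁).natAbs = ((n : ℤ) + D j₁).toNat := by omega
        rw [← h1]
        exact n5
      · have hRo : Ro ((N : ℝ) ^ (1 / 9 : ℝ)) ((n : ℤ) + e₂) :=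
          fun p hp hpm => lt_of_le_of_lt q4 (n6.2 p hp hpm)
        obtain ⟨j₂, σ⟩ := w₂
        cases σ
        · have e1 : e₂ = (D j₂ : ℤ) := by rw [he₂]; simp
          rw [hgv1, ← e1]
          exact ⟨n6.1, hRo⟩
        · have e1 : e₂ = (D j₂ : ℤ) - N := by rw [he₂]; simp
          rw [hgv2, ← e1]
          refine ⟨by rw [Int.natAbs_neg]; exact n6.1, fun p hp hpm => hRo p hp ((dvd_neg).mp hpm)⟩
      · rintro ⟨j, σ⟩
        cases σ
        · rw [hgv1]
          exact ⟨by omega, n7 _ (hmem1 j)⟩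
        · rw [hgv2]
          have := hnN' j
          exact ⟨by omega, fun p hp hpm => n7 _ (hmem2 j) p hp ((dvd_neg).mp hpm)⟩
      · intro k hk hk1 hk2
        have h1 := n8 0 (k - n) hk (by
          intro f hf
          rw [hF0, mem_insert, mem_singleton] at hf
          rcases hf with rfl | rfl
          · have e1 : (n : ℤ) + (k - n) + 0 = k := by ring
            rw [e1]; exact hk1
          · have e1 : (n : ℤ) + (k - n) + -(N : ℤ) = -((N : ℤ) - k) := by ring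
            rw [e1]
            exact fun p hp hpm => hk2 p hp ((dvd_neg).mp hpm)) 0
          (by rw [hF0]; exact mem_insert_self _ _)
        rw [add_zero] at h1
        rcases hEcases _ h1 with ⟨j, hj⟩ | ⟨j, hj⟩
        · exact ⟨j, by linarith⟩
        · exfalso
          have h2 : ((k - n : ℤ) : ℝ) = (D j : ℝ) - N := by rw [hj]; push_cast; ring
          rw [h2] at hk
          have h3 := (abs_le.mp hk).1
          have := hDj j
          linarith

/-- the reflected shifts -/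
def t59R {J : ℕ} (D : Fin (J + 1) → ℕ) : Fin (J + 1) → ℕ := fun j => D (Fin.last J) - D (Fin.rev j)

lemma t59R_cast {J : ℕ} (D : Fin (J + 1) → ℕ) (hD : StrictMono D) (j : Fin (J + 1)) :
    (t59R D j : ℤ) = D (Fin.last J) - D (Fin.rev j) := by
  unfold t59R
  have := hD.monotone (Fin.le_last (Fin.rev j))
  rw [Nat.cast_sub this]

lemma t59R_mono {J : ℕ} (D : Fin (J + 1) → ℕ) (hD : StrictMono D) : StrictMono (t59R D) := by
  intro i j hij
  have h1 : D (Fin.rev j) < D (Fin.rev i) := hD (Fin.rev_lt_rev.mpr hij)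
  have h2 := hD.monotone (Fin.le_last (Fin.rev i))
  unfold t59R
  omega

open Classical in
lemma t59R_gE {J : ℕ} (N : ℕ) (D : Fin (J + 1) → ℕ) (hD : StrictMono D) :
    gE N (t59R D) = (gE N D).image (fun e => (D (Fin.last J) : ℤ) - N - e) := by
  unfold gE
  ext x
  simp only [mem_union, mem_image, mem_univ, true_and]
  constructor
  · rintro (⟨j, rfl⟩ | ⟨j, rfl⟩)
    · refine ⟨(D (Fin.rev j) : ℤ) - N, Or.inr ⟨Fin.rev j, rfl⟩, ?_⟩
      rw [t59R_cast D hD]; ring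
    · refine ⟨(D (Fin.rev j) : ℤ), Or.inl ⟨Fin.rev j, rfl⟩, ?_⟩
      rw [t59R_cast D hD]; ring
  · rintro ⟨e, (⟨j, rfl⟩ | ⟨j, rfl⟩), rfl⟩
    · right
      refine ⟨Fin.rev j, ?_⟩
      rw [t59R_cast D hD, Fin.rev_rev]; ring
    · left
      refine ⟨Fin.rev j, ?_⟩
      rw [t59R_cast D hD, Fin.rev_rev]; ring

open Classical in
lemma t59_oF_refl (E : Finset ℤ) (a : ℤ) (p : ℕ) : oF (E.image (fun e => a - e)) p = oF E p := by
  unfold oF
  rw [image_image]
  have h1 : ((fun e : ℤ => e % (p : ℤ)) ∘ fun e => a - e) =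
      (fun e => (a - e) % (p : ℤ)) ∘ (fun e : ℤ => e % (p : ℤ)) := by
    funext e
    simp only [Function.comp]
    rw [Int.sub_emod, Int.sub_emod a (e % p), Int.emod_emod_of_dvd _ dvd_rfl]
  rw [h1, ← image_image]
  apply card_image_of_injOn
  intro x hx y hy hxy
  rw [mem_coe] at hx hy
  obtain ⟨e, _, rfl⟩ := mem_image.mp hx
  obtain ⟨f, _, rfl⟩ := mem_image.mp hy
  simp only at hxy
  have h2 : (p : ℤ) ∣ (a - e % p) - (a - f % p) :=
    Int.dvd_of_emod_eq_zero (Int.emod_eq_emod_iff_emod_sub_eq_zero.mp hxy)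
  have h3 : (p : ℤ) ∣ f % p - e % p := by
    have e1 : (a - e % p) - (a - f % p) = f % p - e % p := by ring
    rwa [e1] at h2
  have h4 := Int.emod_emod_of_dvd e (dvd_refl (p : ℤ))
  have h5 := Int.emod_emod_of_dvd f (dvd_refl (p : ℤ))
  have h6 : (f % p) % p = (e % p) % p := Int.emod_eq_emod_iff_emod_sub_eq_zero.mpr
    (Int.emod_eq_zero_of_dvd h3)
  rw [h4, h5] at h6
  exact h6.symm

lemma t59R_VF {J : ℕ} (N : ℕ) (D : Fin (J + 1) → ℕ) (hD : StrictMono D) :
    VF N (gE N (t59R D)) = VF N (gE N D) := by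
  classical
  unfold VF
  refine prod_congr rfl fun p _ => ?_
  rw [t59R_gE N D hD, t59_oF_refl]

open Classical in
theorem t59 : St_T59 := by
  intro hF J
  obtain ⟨t, ht, c, hc, ν, hν, N0, hcore⟩ := t59_core hF J
  refine ⟨t, ht, c, hc, ν, hν, N0, fun N hN _ D hDm hD0 hDν hDadm w₁ w₂ hw => ?_⟩
  have hD : t59C J N ν D := ⟨hDm, hD0, hDν, hDadm⟩
  obtain ⟨j₁, σ₁⟩ := w₁
  cases σ₁
  · obtain ⟨h1, hV0⟩ := hcore N hN D hD j₁ w₂ hw.symm
    refine h1.trans ?_
    apply Nat.cast_le.mpr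
    apply card_le_card
    intro n hn
    simp only [PtsQ, mem_filter, mem_range] at hn ⊢
    obtain ⟨⟨n1, n2, n3, n4, n5⟩, -⟩ := hn
    refine ⟨n1, n2, n3, n4, fun k hk => n5 k (hk.trans ?_)⟩
    have : 0 ≤ ν / VF N {0, -(N : ℤ)} := by positivity
    linarith
  · -- reflection
    have hlast : ∀ j, D j ≤ D (Fin.last J) := fun j => hDm.monotone (Fin.le_last j)
    have hR : t59C J N ν (t59R D) := by
      refine ⟨t59R_mono D hDm, ?_, ?_, ?_⟩
      · unfold t59R
        rw [Fin.rev_zero]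
        omega
      · intro j
        refine le_trans ?_ (hDν (Fin.last J))
        apply mul_le_mul_of_nonneg_right _ (t59_VF_nonneg _ _)
        have : t59R D j ≤ D (Fin.last J) := Nat.sub_le _ _
        exact_mod_cast this
      · intro p hp
        obtain ⟨r, hr⟩ := hDadm p hp
        refine ⟨N - r - D (Fin.last J), fun j => ⟨?_, ?_⟩⟩
        · rw [t59R_cast D hDm]
          have e1 : (N : ℤ) - r - D (Fin.last J) + (D (Fin.last J) - D (Fin.rev j)) =
              N - r - D (Fin.rev j) := by ring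
          rw [e1]
          exact (hr (Fin.rev j)).2
        · rw [t59R_cast D hDm]
          have e1 : (N : ℤ) - (N - r - D (Fin.last J)) - (D (Fin.last J) - D (Fin.rev j)) =
              r + D (Fin.rev j) := by ring
          rw [e1]
          exact (hr (Fin.rev j)).1
    obtain ⟨h1, hV0⟩ := hcore N hN (t59R D) hR (Fin.rev j₁) (Fin.rev w₂.1, !w₂.2) (by
      intro h
      apply hw
      have h2 := congrArg Prod.fst h
      have h3 := congrArg Prod.snd h
      simp only at h2 h3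
      ext
      · rw [Fin.rev_injective h2]
      · simp only
        have : w₂.2 = true := by simpa using h3
        rw [this])
    rw [t59R_VF N D hDm] at h1
    refine h1.trans ?_
    have hdl : t59R D (Fin.last J) = D (Fin.last J) := by
      unfold t59R
      rw [Fin.rev_last, hD0]
      omega
    rw [hdl]
    apply Nat.cast_le.mpr
    refine card_le_card_of_injOn (fun n' => N - n' - D (Fin.last J)) ?_ ?_
    · intro n' hn'
      rw [mem_coe] at hn' ⊢
      simp only [PtsQ, mem_filter, mem_range] at hn' ⊢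
      obtain ⟨⟨n1, n2, n3, n4, n5⟩, n6, n7⟩ := hn'
      set n : ℕ := N - n' - D (Fin.last J) with hn
      have hnz : (n : ℤ) = N - n' - D (Fin.last J) := by omega
      have hg1 : ∀ j, gv N n D (j, false) = gv N n' (t59R D) (Fin.rev j, true) := by
        intro j
        have := t59R_cast D hDm (Fin.rev j)
        rw [Fin.rev_rev] at this
        simp only [gv, Bool.false_eq_true, if_false, if_true, this, hnz]
        ring
      have hg2 : ∀ j, gv N n D (j, true) = gv N n' (t59R D) (Fin.rev j, false) := by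
        intro j
        have := t59R_cast D hDm (Fin.rev j)
        rw [Fin.rev_rev] at this
        simp only [gv, Bool.false_eq_true, if_false, if_true, this, hnz]
        ring
      refine ⟨by omega, ?_, ?_, ?_, ?_⟩
      · rw [hg2]; exact n2
      · obtain ⟨j₂, σ⟩ := w₂
        cases σ
        · rw [hg1]; exact n3
        · rw [hg2]; exact n3
      · rintro ⟨j, σ⟩
        cases σ
        · rw [hg1]; exact n4 _
        · rw [hg2]; exact n4 _
      · intro k hk hk1 hk2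
        obtain ⟨j, hj⟩ := n5 (N - k) (by
          have e1 : (((N : ℤ) - k - n' : ℤ) : ℝ) = -((k - n : ℤ) : ℝ) + D (Fin.last J) := by
            rw [hnz]; push_cast; ring
          rw [e1]
          have h2 := abs_le.mp hk
          have h3 : (D (Fin.last J) : ℝ) ≤ ν / VF N {0, -(N : ℤ)} := by
            rw [le_div_iff₀ hV0]
            exact hDν _
          have h4 : (0 : ℝ) ≤ D (Fin.last J) := Nat.cast_nonneg _
          rw [abs_le]
          constructor <;> linarith [h2.1, h2.2]) hk2 (by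
          have e1 : (N : ℤ) - (N - k) = k := by ring
          rw [e1]; exact hk1)
        refine ⟨Fin.rev j, ?_⟩
        rw [t59R_cast D hDm] at hj
        rw [hnz]
        linarith
    · intro a ha b hb hab
      rw [mem_coe] at ha hb
      simp only [PtsQ, mem_filter, mem_range] at ha hb
      simp only at hab
      omega

end Pool.Agent.Q117.LF
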