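import Pool.Agent.Q117.LF.Main5
import Pool.Agent.Q117.LF.Fsc
import Pool.Agent.Q117.LF.Ssf
import Pool.Agent.Q117.LF.T51
import Pool.Agent.Q117.LF.T59

/-!
Project LF (helper117), parts 6 and 7: the assembled theorems.
-/

set_option autoImplicit false

namespace Pool.Agent.Q117.LF

theorem fscC : FSCc := fsc nscC

theorem ssfC : ∀ k : ℕ, ∃ c : ℝ, 0 < c ∧ ∃ X0 : ℝ, ∀ X : ℝ, X0 ≤ X → ∀ E : Finset ℤ, E.card ≤ k → (∀ e ∈ E, |(e : ℝ)| ≤ X) → AdmZ E → ∀ y : ℕ, X ≤ y →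
  c * (1 / Real.log X ^ E.card * ∏ p ∈ (Finset.Icc 1 y).filter Nat.Prime, ((1 - (oF E p : ℝ) / p) / (1 - 1 / (p : ℝ)) ^ E.card)) ≤ VF ⌊X⌋₊ E := ssf ssy

theorem t51C : St_T51 := t51

theorem t59M : St_T59 := t59

end Pool.Agent.Q117.LF
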