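import Pool.Agent.Q117.LF.Main5

/-!
Project LF (helper117), part 9: the theorem at the natural scale for finite types of places and fixed patterns.
-/

set_option autoImplicit false

namespace Pool.Agent.Q117.LF

open Finset Filter

open Classical in
/-- the number of the residues `n` modulo `p` for which `p` divides the value of one of the forms -/
noncomputable def omI {ι : Type} (A : ι → ℕ) (be : ι → ℤ) (p : ℕ) : ℕ :=
  ((range p).filter (fun n : ℕ => ∃ l, (p : ℤ) ∣ (A l : ℤ) * n + be l)).card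

/-- the `n ∈ (X, 2X]` with a prime at the place `i`, at most two prime factors at the place `j`, all the values rough, and such that all the patterns `γ` which are rough at
some `m`, `|m - n| ≤ L`, consist of the given values -/
def SetI {ι : Type} (z X L : ℝ) (A : ι → ℕ) (be : ι → ℤ) (i j : ι) {Γ : Type} (s : Γ → ℕ) (A' : (γ : Γ) → Fin (s γ) → ℕ) (b' : (γ : Γ) → Fin (s γ) → ℤ) : Set ℕ :=
  {n : ℕ | X < n ∧ (n : ℝ) ≤ 2 * X ∧ ((A i : ℤ) * n + be i).toNat.Prime ∧ Pt (X ^ (1 / 9 : ℝ)) ((A j : ℤ) * n + be j) ∧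
    (∀ l, Ro z ((A l : ℤ) * n + be l)) ∧
    ∀ γ, ∀ m : ℤ, |((m - n : ℤ) : ℝ)| ≤ L → (∀ x, Ro z ((A' γ x : ℤ) * m + b' γ x)) → ∀ x, ∃ l, A' γ x = A l ∧ (A' γ x : ℤ) * (m - n) + b' γ x = be l}

theorem nsf {ι : Type} [Fintype ι] (A : ι → ℕ) (hA : ∀ l, 1 ≤ A l) {Γ : Type} [Fintype Γ] (s : Γ → ℕ) (A' : (γ : Γ) → Fin (s γ) → ℕ)
    (b' : (γ : Γ) → Fin (s γ) → ℤ) (κ : ℕ) (hs : ∀ γ, 1 ≤ s γ) (hκ : ∀ γ, κ ≤ s γ) (hA' : ∀ γ x, 1 ≤ A' γ x)
    (hnp : ∀ γ x y, x ≠ y → (A' γ x : ℤ) * b' γ y ≠ A' γ y * b' γ x)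
    (hadm' : ∀ γ, ∀ p : ℕ, p.Prime → ∃ n : ℕ, ∀ x, ¬ (p : ℤ) ∣ (A' γ x : ℤ) * n + b' γ x) (i j : ι) (hij : i ≠ j) :
    ∃ t : ℕ, 1 ≤ t ∧ ∃ c : ℝ, 0 < c ∧ ∃ ν : ℝ, 0 < ν ∧ ∃ X0 : ℝ, ∀ X : ℝ, X0 ≤ X → ∀ be : ι → ℤ, (∀ l, |(be l : ℝ)| ≤ X / 2) →
      (∀ l m, l ≠ m → (A l : ℤ) * be m ≠ A m * be l) → (∀ p : ℕ, p.Prime → ∃ n : ℕ, ∀ l, ¬ (p : ℤ) ∣ (A l : ℤ) * n + be l) →
        c * (X * ∏ p ∈ (Icc 1 ⌊X⌋₊).filter Nat.Prime, (1 - (omI A be p : ℝ) / p)) ≤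
          ((SetI (X ^ (1 / (t : ℝ))) X (ν * Real.log X ^ κ) A be i j s A' b').ncard : ℝ) := by
  classical
  obtain ⟨e, he⟩ : ∃ e : Fin (Fintype.card ι) ≃ ι, e = (Fintype.equivFin ι).symm := ⟨_, rfl⟩
  obtain ⟨e', he'⟩ : ∃ e' : Fin (Fintype.card Γ) ≃ Γ, e' = (Fintype.equivFin Γ).symm := ⟨_, rfl⟩
  obtain ⟨t, ht, hT⟩ := nscC (Fintype.card ι) (fun l => A (e l)) (fun l => hA _) (Fintype.card Γ) (fun γ => s (e' γ)) (fun γ => A' (e' γ)) (fun γ => hs _)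
    (fun γ x => hA' _ x) 2 (by norm_num) (e.symm i) (e.symm j) (fun h => hij (e.symm.injective h))
  obtain ⟨c, hc, ν₁, hν₁, X1, hX⟩ := hT t le_rfl
  choose C hC hCV using fun γ => vupC (s γ) (A' γ) (b' γ) (hA' γ) (fun l m hlm => hnp γ l m hlm)
  obtain ⟨C', hC'⟩ : ∃ C' : ℝ, ∀ γ, C γ * 2 ^ s γ ≤ C' := ⟨∑ γ, C γ * 2 ^ s γ, fun γ =>
    Finset.single_le_sum (f := fun γ => C γ * 2 ^ s γ) (fun γ _ => by have := hC γ; positivity) (Finset.mem_univ γ)⟩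
  obtain ⟨ν, hνe⟩ : ∃ ν : ℝ, ν = ν₁ / (1 + |C'|) := ⟨_, rfl⟩
  have hν : 0 < ν := by rw [hνe]; positivity
  obtain ⟨b0, hb0⟩ : ∃ b0 : ℝ, ∀ γ x, |(b' γ x : ℝ)| ≤ b0 := ⟨∑ γ, ∑ x, |(b' γ x : ℝ)|, fun γ x =>
    (Finset.single_le_sum (f := fun x => |(b' γ x : ℝ)|) (fun _ _ => abs_nonneg _) (Finset.mem_univ x)).trans
      (Finset.single_le_sum (f := fun γ => ∑ x, |(b' γ x : ℝ)|) (fun _ _ => Finset.sum_nonneg fun _ _ => abs_nonneg _) (Finset.mem_univ γ))⟩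
  obtain ⟨X0, hX0⟩ := eventually_atTop.1 ((Pool.Agent.Q257.LF.ev_log κ ν).and ((eventually_ge_atTop (2 * b0)).and
    ((eventually_ge_atTop X1).and ((eventually_ge_atTop (Real.exp 1)).and (eventually_ge_atTop (4 : ℝ))))))
  refine ⟨t, ht, c, hc, ν, hν, X0, fun X hXX be hbe hnp2 hadm => ?_⟩
  obtain ⟨hL, hXb, hX1, hXe, hX4⟩ := hX0 X hXX
  have hX0' : 0 < X := by linarith
  have hl : 1 ≤ Real.log X := by rw [Real.le_log_iff_exp_le hX0']; exact hXe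
  have hbl : ∀ γ x, |(b' γ x : ℝ)| ≤ X / 2 := fun γ x => (hb0 γ x).trans (by linarith)
  have hVN : ∀ y : ℕ, VN y (fun l => A (e l)) (fun l => be (e l)) = ∏ p ∈ (Icc 1 y).filter Nat.Prime, (1 - (omI A be p : ℝ) / p) := by
    intro y
    unfold VN
    refine Finset.prod_congr rfl fun p _ => ?_
    have : om (fun l => A (e l)) (fun l => be (e l)) p = omI A be p := by
      unfold om omI fm
      congr 1
      ext n
      simp only [Finset.mem_filter]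
      refine and_congr_right fun _ => ⟨?_, ?_⟩
      · rintro ⟨l, hl⟩
        exact ⟨_, hl⟩
      · rintro ⟨l, hl⟩
        refine ⟨e.symm l, ?_⟩
        rw [Equiv.apply_symm_apply]
        exact hl
    rw [this]
  have h1 := hX X hX1 (fun l => be (e l)) (fun l => (hbe _).trans (by push_cast; linarith))
    (by
      simp only [Equiv.apply_symm_apply]
      push_cast
      have h2 : (1 : ℝ) ≤ A i := by exact_mod_cast hA i
      have h3 := (abs_le.1 (hbe i)).1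
      nlinarith)
    (fun l m hlm => hnp2 _ _ (fun h => hlm (e.injective h)))
    (fun p hp => by
      obtain ⟨n, hn⟩ := hadm p hp
      exact ⟨n, fun l => hn _⟩)
    (fun γ => b' (e' γ)) (fun γ x => (hbl _ x).trans (by push_cast; linarith)) (fun γ => hadm' _)
    (ν * Real.log X ^ κ) (by positivity) hL (fun γ => by
      have h2 : 2 ≤ ⌊X⌋₊ := Nat.le_floor (by push_cast; linarith)
      refine (Pool.Agent.Q257.LF.LV_le hν.le (hC (e' γ)).le hXe hX4 (hκ (e' γ)) (hCV (e' γ) _ h2)).trans ?_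
      calc ν * (C (e' γ) * 2 ^ s (e' γ)) ≤ ν * (1 + |C'|) := mul_le_mul_of_nonneg_left (by linarith [hC' (e' γ), le_abs_self C']) hν.le
        _ = ν₁ := by rw [hνe]; field_simp) (X ^ (1 / (t : ℝ))) le_rfl le_rfl
  rw [hVN] at h1
  refine h1.trans ?_
  have hfin : (SetI (X ^ (1 / (t : ℝ))) X (ν * Real.log X ^ κ) A be i j s A' b').Finite := by
    refine (Finset.finite_toSet (range (⌊2 * X⌋₊ + 1))).subset fun n hn => ?_
    rw [Finset.mem_coe, Finset.mem_range, Nat.lt_succ_iff]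
    exact Nat.le_floor hn.2.1
  rw [Nat.cast_le, ← Set.ncard_coe_finset]
  apply Set.ncard_le_ncard _ hfin
  intro n hn
  unfold PtsN at hn
  rw [Finset.mem_coe, Finset.mem_filter] at hn
  obtain ⟨-, n1, n2, n3, n4, n5, n6, n7⟩ := hn
  unfold fm at n3 n4 n5 n6
  simp only [Equiv.apply_symm_apply] at n3 n4 n5
  refine ⟨n1, by push_cast at n2; linarith, Pool.Agent.Q257.LF.toNat_prime n3 n4, Pool.Agent.Q257.LF.Pt_mono ?_ n5, fun l => ?_, fun γ m hm hro x => ?_⟩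
  · exact Real.rpow_le_rpow_of_exponent_le (by linarith) (by norm_num)
  · have h2 := n6 (e.symm l)
    simp only [Equiv.apply_symm_apply] at h2
    exact h2
  · obtain ⟨γ', rfl⟩ := e'.surjective γ
    obtain ⟨l, hl1, hl2⟩ := n7 γ' (m - n) hm (fun x => by
      have : (n : ℤ) + (m - n) = m := by ring
      rw [this]
      exact hro x) x
    exact ⟨e l, hl1, hl2⟩

end Pool.Agent.Q117.LF
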