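import Pool.Agent.Q117.LF.Stm

/-!
Project LF (helper117), job PSG: from the modulus `W g` to the modulus `W`.
-/

set_option autoImplicit false

namespace Pool.Agent.Q117.LF

open Finset Filter Pool.Agent.W23.DC Pool.Agent.Y660.RP
open Pool.Agent.H378R2.LSBV (QQ wt mem_QQ wt_nonneg)


private lemma div_gcd_dvd_psg {d W g : ℕ} (hW : 1 ≤ W) (h : d ∣ W * g) : d / Nat.gcd d W ∣ g := by
  obtain ⟨m, n, hmn, h1, h2⟩ := Nat.exists_coprime d W
  have hg : 0 < Nat.gcd d W := Nat.gcd_pos_of_pos_right _ (by omega)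
  have h3 : d / Nat.gcd d W = m := Nat.div_eq_of_eq_mul_left hg h1
  rw [h3]
  have h4 : m * Nat.gcd d W ∣ (n * g) * Nat.gcd d W := by
    rw [← h1]
    calc d ∣ W * g := h
      _ = n * Nat.gcd d W * g := by rw [← h2]
      _ = n * g * Nat.gcd d W := by ring
  exact hmn.dvd_of_dvd_mul_left (Nat.dvd_of_mul_dvd_mul_right hg h4)

private lemma QQ_eq_psg {W g ps R : ℕ} (h : ∀ q : ℕ, q.Prime → q ∣ g → q ∣ W) :
    QQ (W * g) ps R = QQ W ps R := by
  ext b
  rw [mem_QQ, mem_QQ]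
  refine and_congr_right fun _ => and_congr_right fun _ => ⟨fun hb => ?_, fun hb => ?_⟩
  · refine hb.coprime_dvd_right ?_
    exact Nat.mul_dvd_mul_right (Dvd.intro _ rfl) ps
  · refine Nat.coprime_of_dvd fun q hq h1 h2 => ?_
    have h3 : q ∣ W * ps := by
      rw [hq.dvd_mul, hq.dvd_mul] at h2
      rcases h2 with (h2 | h2) | h2
      · exact h2.mul_right _
      · exact (h q hq h2).mul_right _
      · exact h2.mul_left _
    exact hq.one_lt.ne' (Nat.eq_one_of_dvd_coprimes hb h1 h3)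

theorem psg : St_PSG := by
  intro κ g W ps R T hT hg hW hp
  have hgcd : ∀ d : ℕ, 0 < Nat.gcd d W := fun d => Nat.gcd_pos_of_pos_right _ (by omega)
  have hfac : ∀ d : ℕ, d / Nat.gcd d W * Nat.gcd d W = d := fun d =>
    Nat.div_mul_cancel (Nat.gcd_dvd_left d W)
  unfold PSW
  rw [QQ_eq_psg hp, ← Finset.sum_filter_add_sum_filter_not _ (fun p : ℕ × ℕ => Nat.gcd p.1 W * p.2 ≠ 1)]
  refine add_le_add ?_ ?_
  · -- the pairs with `a b ≠ 1`
    have h1 : ∀ p : ℕ × ℕ, wt κ p.2 * Tg g T (p.1 * p.2) =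
        ∑ e ∈ g.divisors, wt κ p.2 * T (e * (p.1 * p.2)) := fun p => by
      unfold Tg; rw [Finset.mul_sum]
    rw [Finset.sum_congr rfl fun p _ => h1 p, ← Finset.sum_product']
    have h2 : ∀ p ∈ (((W * g).divisors ×ˢ QQ W ps R).filter (fun p => p.1 * p.2 ≠ 1)).filter
        (fun p : ℕ × ℕ => Nat.gcd p.1 W * p.2 ≠ 1), wt κ p.2 * T (p.1 * p.2) =
        (fun x : (ℕ × ℕ) × ℕ => wt κ x.1.2 * T (x.2 * (x.1.1 * x.1.2)))
          ((Nat.gcd p.1 W, p.2), p.1 / Nat.gcd p.1 W) := by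
      intro p _
      simp only
      rw [← mul_assoc, hfac]
    rw [Finset.sum_congr rfl h2, ← Finset.sum_image
      (g := fun p : ℕ × ℕ => ((Nat.gcd p.1 W, p.2), p.1 / Nat.gcd p.1 W))
      (f := fun x : (ℕ × ℕ) × ℕ => wt κ x.1.2 * T (x.2 * (x.1.1 * x.1.2)))]
    · refine Finset.sum_le_sum_of_subset_of_nonneg ?_
        fun x _ _ => mul_nonneg (wt_nonneg _ _) (hT _)
      intro x hx
      rw [mem_image] at hx
      obtain ⟨p, hp1, rfl⟩ := hx
      simp only [mem_filter, mem_product, Nat.mem_divisors] at hp1 ⊢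
      obtain ⟨⟨⟨⟨hd, -⟩, hb⟩, -⟩, hne⟩ := hp1
      exact ⟨⟨⟨⟨Nat.gcd_dvd_right _ _, by omega⟩, hb⟩, hne⟩, div_gcd_dvd_psg hW hd, by omega⟩
    · intro p _ q _ hpq
      simp only [Prod.mk.injEq] at hpq
      obtain ⟨⟨h3, h4⟩, h5⟩ := hpq
      ext
      · calc p.1 = p.1 / Nat.gcd p.1 W * Nat.gcd p.1 W := (hfac p.1).symm
          _ = q.1 / Nat.gcd q.1 W * Nat.gcd q.1 W := by rw [h5, h3]
          _ = q.1 := hfac q.1
      · exact h4
  · -- the pairs with `a b = 1`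
    have h2 : ∀ p ∈ (((W * g).divisors ×ˢ QQ W ps R).filter (fun p => p.1 * p.2 ≠ 1)).filter
        (fun p : ℕ × ℕ => ¬ Nat.gcd p.1 W * p.2 ≠ 1), wt κ p.2 * T (p.1 * p.2) = T p.1 := by
      intro p hp1
      rw [mem_filter, not_not] at hp1
      have h3 : p.2 = 1 := Nat.eq_one_of_mul_eq_one_left hp1.2
      rw [h3]
      have h4 : wt κ 1 = 1 := by unfold wt; simp
      rw [h4, mul_one, one_mul]
    rw [Finset.sum_congr rfl h2, ← Finset.sum_image (g := fun p : ℕ × ℕ => p.1) (f := T)]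
    · refine Finset.sum_le_sum_of_subset_of_nonneg ?_ fun x _ _ => hT _
      intro x hx
      rw [mem_image] at hx
      obtain ⟨p, hp1, rfl⟩ := hx
      simp only [mem_filter, mem_product, Nat.mem_divisors, not_not] at hp1 ⊢
      obtain ⟨⟨⟨⟨hd, -⟩, hb⟩, hne⟩, h1⟩ := hp1
      have h3 : p.2 = 1 := Nat.eq_one_of_mul_eq_one_left h1
      have h4 : Nat.gcd p.1 W = 1 := Nat.eq_one_of_mul_eq_one_right h1
      have h5 := div_gcd_dvd_psg hW hd
      rw [h4, Nat.div_one] at h5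
      refine ⟨⟨h5, by omega⟩, fun h6 => hne ?_⟩
      rw [h6, h3]
    · intro p hp1 q hq1 hpq
      rw [Finset.mem_coe, mem_filter, not_not] at hp1 hq1
      have h3 : p.2 = 1 := Nat.eq_one_of_mul_eq_one_left hp1.2
      have h4 : q.2 = 1 := Nat.eq_one_of_mul_eq_one_left hq1.2
      exact Prod.ext hpq (h3.trans h4.symm)

end Pool.Agent.Q117.LF
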