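import Pool.Agent.Q117.LF.Main7
import Pool.Agent.Q253.Thin.Int

/-! Project LF (helper117): the forms of the natural scale theorems used for the rows. -/

set_option autoImplicit false

namespace Pool.Agent.Q117.LF

open Finset Filter

open Classical in
/-- the singular series of `E`, truncated at `y` -/
noncomputable def sgF (y : ℕ) (E : Finset ℤ) : ℝ :=
  ∏ p ∈ (Icc 1 y).filter Nat.Prime, ((1 - ((E.image (fun e : ℤ => e % (p : ℤ))).card : ℝ) / p) / (1 - 1 / (p : ℝ)) ^ E.card)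

/-- a fixed family of patterns, with the singular series -/
theorem fswS (k g : ℕ) (F : Fin g → Finset ℤ) (hF : ∀ γ, (F γ).Nonempty) : ∃ t : ℕ, 1 ≤ t ∧ ∃ c : ℝ, 0 < c ∧ ∃ ν : ℝ, 0 < ν ∧ ∃ X0 : ℝ, ∀ X : ℝ, X0 ≤ X →
    ∀ E : Finset ℤ, E.card ≤ k → (∀ e ∈ E, 0 ≤ e ∧ (e : ℝ) ≤ X) → AdmZ E → ∀ e₁ ∈ E, ∀ e₂ ∈ E, e₁ ≠ e₂ → ∀ y : ℕ, X ≤ y →
      c * (X / Real.log X ^ E.card * sgF y E) ≤ ((SetW (X ^ (1 / (t : ℝ))) X ν E e₁ e₂ F).ncard : ℝ) := by
  classical
  obtain ⟨t, ht, c, hc, ν, hν, X0, h⟩ := fswC k g F hF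
  obtain ⟨c', hc', X1, h'⟩ := ssfC k
  refine ⟨t, ht, c * c', by positivity, ν, hν, max X0 (max X1 1), fun X hX E hk hE ha e₁ m₁ e₂ m₂ hne y hy => ?_⟩
  have hX0 : X0 ≤ X := (le_max_left _ _).trans hX
  have hX1 : X1 ≤ X := (le_max_left _ _).trans ((le_max_right _ _).trans hX)
  have hX2 : (1 : ℝ) ≤ X := (le_max_right _ _).trans ((le_max_right _ _).trans hX)
  refine le_trans ?_ (h X hX0 E hk hE ha e₁ m₁ e₂ m₂ hne)
  have h1 := h' X hX1 E hk (fun e he => by
    rw [abs_of_nonneg (by exact_mod_cast (hE e he).1)]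
    exact (hE e he).2) ha y hy
  have h2 : c * c' * (X / Real.log X ^ E.card * sgF y E) = c * (X * (c' * (1 / Real.log X ^ E.card * sgF y E))) := by ring
  rw [h2]
  apply mul_le_mul_of_nonneg_left _ hc.le
  apply mul_le_mul_of_nonneg_left _ (by linarith)
  exact h1

open Classical in
/-- a lower bound for the sieve product of an admissible set -/
theorem VF_low (r : ℕ) (hr : 1 ≤ r) : ∃ c : ℝ, 0 < c ∧ ∀ y : ℕ, 2 ≤ y → ∀ E : Finset ℤ, E.card ≤ r → AdmZ E → c / Real.log y ^ r ≤ VF y E := by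
  obtain ⟨c, hc, h⟩ := Pool.Agent.Q253.Thin.VZ_low r hr
  refine ⟨c, hc, fun y hy E hE ha => ?_⟩
  have hinj : ∀ p : ℕ, 0 < p → Set.InjOn (fun x : ℤ => x.toNat) ((E.image (fun e : ℤ => e % (p : ℤ)) : Finset ℤ) : Set ℤ) := by
    intro p hp a ha b hb hab
    rw [Finset.mem_coe, Finset.mem_image] at ha hb
    obtain ⟨a', -, rfl⟩ := ha
    obtain ⟨b', -, rfl⟩ := hb
    have hp0 : (p : ℤ) ≠ 0 := by exact_mod_cast hp.ne'
    have h1 := Int.emod_nonneg a' hp0
    have h2 := Int.emod_nonneg b' hp0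
    simp only at hab
    omega
  have h1 := h y hy (fun p => (E.image (fun e : ℤ => e % (p : ℤ))).image (fun x : ℤ => x.toNat)) ⟨?_, ?_, ?_⟩
  · refine h1.trans (le_of_eq ?_)
    unfold Pool.Agent.Y843.HS.VV VF
    apply Finset.prod_congr
    · ext p
      rw [Pool.Agent.Y843.HS.Pr_mem, Finset.mem_filter, Finset.mem_Icc]
      constructor
      · rintro ⟨⟨a, b⟩, d⟩
        exact ⟨⟨a, b⟩, d⟩
      · rintro ⟨⟨a, b⟩, d⟩
        exact ⟨⟨a, b⟩, d⟩
    · intro p hp
      have hpp : p.Prime := (Finset.mem_filter.1 hp).2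
      rw [Finset.card_image_of_injOn (hinj p hpp.pos)]
      rfl
  · intro p _
    exact (Finset.card_image_le.trans Finset.card_image_le).trans hE
  · intro p hp
    obtain ⟨s, hs⟩ := ha p hp
    have hp0 : (p : ℤ) ≠ 0 := by exact_mod_cast hp.pos.ne'
    have hsub : (E.image (fun e : ℤ => e % (p : ℤ))).image (fun x : ℤ => x.toNat) ⊆ (Finset.range p).erase ((-s) % p).toNat := by
      intro x hx
      rw [Finset.mem_image] at hx
      obtain ⟨z, hz, rfl⟩ := hx
      rw [Finset.mem_image] at hz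
      obtain ⟨e, he, rfl⟩ := hz
      have h2 := Int.emod_nonneg e hp0
      have h3 := Int.emod_lt_of_pos e (show (0 : ℤ) < p by exact_mod_cast hp.pos)
      have h4 := Int.emod_nonneg (-s) hp0
      rw [Finset.mem_erase, Finset.mem_range]
      refine ⟨fun hcon => hs e he ?_, by omega⟩
      have h5 : e % (p : ℤ) = (-s) % p := by omega
      have h6 : (p : ℤ) ∣ e - (-s) := Int.ModEq.dvd (show (-s) ≡ e [ZMOD p] from h5.symm)
      have h7 : e - (-s) = s + e := by ring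
      rwa [h7] at h6
    have h8 := Finset.card_le_card hsub
    have h9 : ((-s) % p).toNat ∈ Finset.range p := by
      have h4 := Int.emod_nonneg (-s) hp0
      have h3 := Int.emod_lt_of_pos (-s) (show (0 : ℤ) < p by exact_mod_cast hp.pos)
      rw [Finset.mem_range]
      omega
    rw [Finset.card_erase_of_mem h9, Finset.card_range] at h8
    have := hp.pos
    omega
  · intro p hp x hx
    have hp0 : (p : ℤ) ≠ 0 := by exact_mod_cast hp.pos.ne'
    rw [Finset.mem_image] at hx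
    obtain ⟨z, hz, rfl⟩ := hx
    rw [Finset.mem_image] at hz
    obtain ⟨e, he, rfl⟩ := hz
    have h2 := Int.emod_nonneg e hp0
    have h3 := Int.emod_lt_of_pos e (show (0 : ℤ) < p by exact_mod_cast hp.pos)
    omega

end Pool.Agent.Q117.LF
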