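import Pool.Agent.Q117.LF.Stm

/-!
# Project LF, job STEPL (helper299): the two bounds

Adapted from `Pool/Agent/Q117/CR/Typ.lean` and `Pool/Agent/Q117/CR/Step.lean`.
-/

set_option autoImplicit false

namespace Pool.Agent.Q117.LF

open Finset Filter Pool.Agent.W23.DC Pool.Agent.Y660.RP
open Pool.Agent.Y843.HS (Pr Pr_mem Pr_prime)
open Pool.Agent.Y843.QD (vZ dvd_vZ)
open Pool.Agent.Y843.HG (Adm Z0 SP V1)
open Pool.Agent.Y843.CH hiding TB
open Pool.Agent.Y840.CI
open Pool.Agent.Q117.CR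

open Classical in
theorem blockL (hC : St_CLL) (hW : St_WPG) {r N X z Y M M2 ps a α γ A B : ℕ} {ε A0 η δ E : ℝ}
    {h : ℤ} {Om : ℕ → Finset ℕ}
    (S : StL r N X z Y M M2 ps a α γ ε h Om) (hh : h ≠ 0) (hN4 : 4000 ≤ N)
    (hCB : CB (r + 1) z N ε A0 η) {J : ℕ} {s : ℤ} (hs : s = 1 ∨ s = -1) {j : ℕ}
    (hBB : BBM (r + 1) X (blkL α γ A B N X J δ h (s, j)) M2 ps E) :
    ((FTL α γ A B N X J z Y M M2 ps a ε δ h Om s j).card : ℝ) ≤
      ε * (msL α γ A B N X J δ h s j / (Nat.totient M2 : ℝ) *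
        ∏ p ∈ P1 N z ε, (1 - gC (ZAL α (M * ps) h Y Om) p)) *
        (1000 / 998 * A0 + η) + Real.log N * (E / (Nat.totient M2 : ℝ)) := by
  have hNr : (4000 : ℝ) ≤ N := by exact_mod_cast hN4
  have hL : 0 < Real.log N := Real.log_pos (by linarith)
  obtain ⟨hcl, hcop, hgT, hdg⟩ := (hC r N X z Y M M2 ps a α γ ε h Om S).2.2.2 s hs
  have hter := hW.2 (r + 1) z N X ps (hr (s * (((α : ℤ) * a - h) / γ)) M2) M2 E
    (ZTL α γ (M * ps) h s Y Om) (blkL α γ A B N X J δ h (s, j)) (by omega) S.NX S.M20 hcl hcop hBB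
  have hh0 : h.natAbs ≠ 0 := Int.natAbs_ne_zero.2 hh
  have hhN : h.natAbs ≤ N ^ 3 := by
    have h5 := S.hX
    have h6 := S.XN
    have h7 : (N + 1) ^ 2 ≤ N ^ 3 := by nlinarith
    omega
  have hms0 : 0 ≤ msL α γ A B N X J δ h s j := by
    unfold msL
    positivity
  have hcb := (hCB (ℕ × ℕ) ((MN (blkL α γ A B N X J δ h (s, j)).M₀ (blkL α γ A B N X J δ h (s, j)).M₁
      (blkL α γ A B N X J δ h (s, j)).T).filter
    (fun x => x.1 * x.2 ≡ hr (s * (((α : ℤ) * a - h) / γ)) M2 [MOD M2]))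
    (fun x => vZ (ZTL α γ (M * ps) h s Y Om) z N (x.1 * x.2))
    (gC (ZTL α γ (M * ps) h s Y Om)) (msL α γ A B N X J δ h s j / (Nat.totient M2 : ℝ)) h.natAbs
    (by positivity) hh0 hhN (by
      push_cast at hdg ⊢
      exact hdg)).2
  have hprod : ∏ p ∈ P1 N z ε, (1 - gC (ZTL α γ (M * ps) h s Y Om) p) =
      ∏ p ∈ P1 N z ε, (1 - gC (ZAL α (M * ps) h Y Om) p) := by
    apply Finset.prod_congr rfl
    intro p hp
    rw [hgT p (mem_P1.1 hp).2.1]
  rw [hprod] at hcb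
  refine le_trans (le_of_eq ?_) (hcb.trans ?_)
  · unfold FTL
    congr!
  have h9 : Real.log N * ∑ q ∈ Lv' z ((N : ℝ) ^ (999 / 1000 : ℝ)),
      Rr ((MN (blkL α γ A B N X J δ h (s, j)).M₀ (blkL α γ A B N X J δ h (s, j)).M₁
      (blkL α γ A B N X J δ h (s, j)).T).filter
        (fun x => x.1 * x.2 ≡ hr (s * (((α : ℤ) * a - h) / γ)) M2 [MOD M2]))
      (fun x => vZ (ZTL α γ (M * ps) h s Y Om) z N (x.1 * x.2)) (gC (ZTL α γ (M * ps) h s Y Om))
      (msL α γ A B N X J δ h s j / (Nat.totient M2 : ℝ)) q ≤ Real.log N * (E / (Nat.totient M2 : ℝ)) := by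
    apply mul_le_mul_of_nonneg_left _ hL.le
    exact hter
  linarith

/-- JOB STEPL -/
theorem stepl : St_STEPL := by
  intro hPos hC hTy hWp r N X z Y M M2 ps a α γ A B J Km ε A0 δ δ' E P V G T Bd Ex h Om S hN4000 hh
    hNA hαB hlX1 hδ0 hJ1 hCB hTZ hBP hφE hBB hKm hWt hP hP0 hVd hG hT hBd hEx
  classical
  have hNr : (4000 : ℝ) ≤ N := by exact_mod_cast hN4000
  have hL : 0 < Real.log N := Real.log_pos (by linarith)
  have hα := S.α0
  have hBX : B ≤ X := le_trans (Nat.le_mul_of_pos_left _ hα) hαB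
  have hX0 : 0 < X := by
    have := S.NX
    have h1 : 0 < N ^ 2 := by positivity
    omega
  obtain ⟨hclA, hcopA, hdg, -⟩ := hC r N X z Y M M2 ps a α γ ε h Om S
  have hh0 : h.natAbs ≠ 0 := Int.natAbs_ne_zero.2 hh
  have hhN : h.natAbs ≤ N ^ 3 := by
    have h5 := S.hX
    have h6 := S.XN
    have h7 : (N + 1) ^ 2 ≤ N ^ 3 := by nlinarith
    omega
  constructor
  · have hKm0 : (0 : ℝ) < Km := by
      have : 0 < Km := by rw [hKm]; exact pow_pos hX0 _
      exact_mod_cast this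
    have hEA : ∑ d ∈ Lv' z ((N : ℝ) ^ (999 / 1000 : ℝ)), Rr ((OW Km δ' X A B).filter
          (fun x => x.1 ≡ a [MOD M])) (fun x => vZ (ZAL α (M * ps) h Y Om) z N x.1)
          (gC (ZAL α (M * ps) h Y Om))
          (((Km : ℝ) * P) / (Nat.totient M : ℝ)) d ≤ (Km : ℝ) * (3 * (E / (Nat.totient M : ℝ))) := by
      have h1 := hWp.1 (r + 1) z N X A B ps a M δ' E (ZAL α (M * ps) h Y Om) hTZ hBX hlX1 (by omega)
        S.NX S.M0 hclA hcopA hBP hφE
      rw [← hKm, ← hP] at h1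
      exact h1
    have hlow := (hCB (ℕ × ℕ) ((OW Km δ' X A B).filter (fun x => x.1 ≡ a [MOD M]))
      (fun x => vZ (ZAL α (M * ps) h Y Om) z N x.1)
      (gC (ZAL α (M * ps) h Y Om)) (((Km : ℝ) * P) / (Nat.totient M : ℝ)) h.natAbs (by positivity) hh0 hhN
      (by exact_mod_cast hdg)).1
    rw [← hVd] at hlow
    have hsum := hPos r N X z Y M M2 ps a α γ A B Km ε δ' h Om S hNA hαB hTZ hWt
    rw [← hG, ← hT, ← hBd, ← hEx] at hsum
    have h1 : ε * (((Km : ℝ) * P) / (Nat.totient M : ℝ) * V) * (A0 * (1000 / 998 * LBc) - A0 / 10000) -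
        Real.log N * ((Km : ℝ) * (3 * (E / (Nat.totient M : ℝ)))) ≤ Km * (G + 1 / 2 * T + Bd + Ex) := by
      refine le_trans ?_ hsum
      refine le_trans ?_ hlow
      have := mul_le_mul_of_nonneg_left hEA hL.le
      linarith
    have h2 : ε * (((Km : ℝ) * P) / (Nat.totient M : ℝ) * V) * (A0 * (1000 / 998 * LBc) - A0 / 10000) -
        Real.log N * ((Km : ℝ) * (3 * (E / (Nat.totient M : ℝ)))) = Km * (ε * (P / (Nat.totient M : ℝ) * V) *
          (A0 * (1000 / 998 * LBc) - A0 / 10000) - Real.log N * (3 * (E / (Nat.totient M : ℝ)))) := by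
      ring
    rw [h2] at h1
    have h3 := le_of_mul_le_mul_left h1 hKm0
    linarith
  · have hty := hTy r N X z Y M M2 ps a α γ A B J ε δ h Om S hNA hJ1 hδ0
    have hbl : ∀ s : ℤ, (s = 1 ∨ s = -1) →
        ∑ j ∈ range J, ((FTL α γ A B N X J z Y M M2 ps a ε δ h Om s j).card : ℝ) ≤
        ε * ((∑ j ∈ range J, msL α γ A B N X J δ h s j) / (Nat.totient M2 : ℝ) * V) *
          (1000 / 998 * A0 + A0 / 10000) + J * (Real.log N * (E / (Nat.totient M2 : ℝ))) := by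
      intro s hs
      have h1 : ∀ j ∈ range J, ((FTL α γ A B N X J z Y M M2 ps a ε δ h Om s j).card : ℝ) ≤
          ε * (msL α γ A B N X J δ h s j / (Nat.totient M2 : ℝ) * V) * (1000 / 998 * A0 + A0 / 10000) +
            Real.log N * (E / (Nat.totient M2 : ℝ)) := by
        intro j hj
        have h2 := blockL hC hWp S hh hN4000 hCB hs (j := j) (hBB (s, j) (by
            rw [mem_product]
            refine ⟨?_, hj⟩
            rcases hs with rfl | rfl <;> simp))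
        rw [← hVd] at h2
        exact h2
      refine (Finset.sum_le_sum h1).trans (le_of_eq ?_)
      rw [Finset.sum_add_distrib, Finset.sum_const, card_range, nsmul_eq_mul]
      congr 1
      rw [Finset.sum_div, Finset.sum_mul, Finset.mul_sum, Finset.sum_mul]
    have h1 := hbl 1 (Or.inl rfl)
    have h2 := hbl (-1) (Or.inr rfl)
    have h3 : T ≤
        ∑ j ∈ range J, ((FTL α γ A B N X J z Y M M2 ps a ε δ h Om 1 j).card : ℝ) +
        ∑ j ∈ range J, ((FTL α γ A B N X J z Y M M2 ps a ε δ h Om (-1) j).card : ℝ) := by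
      rw [hT]
      exact_mod_cast hty
    have h4 : ε * ((∑ j ∈ range J, msL α γ A B N X J δ h 1 j + ∑ j ∈ range J, msL α γ A B N X J δ h (-1) j) /
        (Nat.totient M2 : ℝ) * V) * (1000 / 998 * A0 + A0 / 10000) =
        ε * ((∑ j ∈ range J, msL α γ A B N X J δ h 1 j) / (Nat.totient M2 : ℝ) * V) *
          (1000 / 998 * A0 + A0 / 10000) +
        ε * ((∑ j ∈ range J, msL α γ A B N X J δ h (-1) j) / (Nat.totient M2 : ℝ) * V) *
          (1000 / 998 * A0 + A0 / 10000) := by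
      ring
    linarith

end Pool.Agent.Q117.LF
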