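import Pool.Agent.Q117.CR.Main

/-!
Project LF (helper117): Chen's theorem for linear forms, relative to a large smooth modulus: `p` prime, `|h - α p| / γ` a product of at most
two primes, `p` in a class modulo `W γ`, `W` a product of almost all primes `≤ log X / 100000`.

Every `St_X` below is the statement of one job; the doc comment is its complete proof. The file of a job is
`Pool/Agent/Q117/LF/<Name>.lean`, the theorem has the name given in the comment (namespace `Pool.Agent.Q117.LF`). All jobs are adaptations of files of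
`Pool/Agent/Q117/CR/` (the case `α = γ = 1`): copy the file, rename, and make the changes described.
-/

set_option autoImplicit false

namespace Pool.Agent.Q117.LF

open Finset Filter Pool.Agent.W23.DC Pool.Agent.Y660.RP
open Pool.Agent.Y843.HS (Pr Pr_mem Pr_prime)
open Pool.Agent.Y843.QD (vZ dvd_vZ)
open Pool.Agent.Y843.HG (Adm Z0 SP V1)
open Pool.Agent.Y843.CH hiding TB
open Pool.Agent.Y840.CI
open Pool.Agent.H378R2 (GoodS GoodP WW psiPhi)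
open Pool.Agent.H378R2.LSBV (QQ wt)
open Pool.Agent.H398R2.BV (Prim)
open Pool.Agent.H410R2 (psiLog)
open Pool.Agent.Q117.CR
open Pool.Agent.Q117.GP (Rk)

/-! ### Part 1: primes and bilinear sums modulo `W g q` -/

/-- the function of the conductor with the divisors of `g` put in -/
noncomputable def Tg (g : ℕ) (T : ℕ → ℝ) (f : ℕ) : ℝ := ∑ e ∈ g.divisors, T (e * f)

/-- the sum over the conductors `a b`, `a ∣ W`, `b ≤ R` (`PS A X S ps T` is `PSW A (WX X S ps) ps (RX X) T`) -/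
noncomputable def PSW (κ W ps R : ℕ) (T : ℕ → ℝ) : ℝ :=
  ∑ p ∈ (W.divisors ×ˢ QQ W ps R).filter (fun p => p.1 * p.2 ≠ 1), wt κ p.2 * T (p.1 * p.2)

/-- the conclusion for the primes, modulus `M` -/
def BPM (κ : ℕ) (δ : ℝ) (X A B M ps : ℕ) (E : ℝ) : Prop :=
  ∀ r : ℕ → ℕ, (∀ q, 1 ≤ q → (r q).Coprime (M * q)) →
  ∑ q ∈ QQ M ps (RX X), (κ : ℝ) ^ q.primeFactors.card *
      |PT δ A B (M * q) (r q) - PT1 δ A B / (Nat.totient (M * q) : ℝ)| ≤ E / (Nat.totient M : ℝ)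

/-- the conclusion for a block, modulus `M` -/
def BBM (κ X : ℕ) (b : Blk) (M ps : ℕ) (E : ℝ) : Prop :=
  ∀ r : ℕ → ℕ, (∀ q, 1 ≤ q → (r q).Coprime (M * q)) →
  ∑ q ∈ QQ M ps (RX X), (κ : ℝ) ^ q.primeFactors.card *
      Pool.Agent.Y261.CH.EP b.M₀ b.M₁ b.T (r q) (M * q) ≤ E / (Nat.totient M : ℝ)

/-- **PSG** (theorem `psg : St_PSG`): from the modulus `W g` to the modulus `W`.

Proof. `QQ (W g) ps R = QQ W ps R` (`LSBV.mem_QQ`: `b` is prime to `W g ps` iff it is prime to `W ps`, the primes of `g` divide `W`). For `d ∣ W g` let `a = gcd (d, W) ∣ W`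
and `e = d / a`: `e ∣ g` (`d / a` divides `(W / a) g` and is prime to `W / a`). So `(d, b) ↦ (e, (a, b))` is injective (`d = e a`) and `T (d b) = T (e (a b))`. The pairs with
`a b ≠ 1` contribute at most `∑_{(a, b), a b ≠ 1} wt κ b ∑_{e ∣ g} T (e (a b)) = PSW κ W ps R (Tg g T)`; if `a b = 1` then `a = b = 1`, `e = d ≠ 1`, and
`wt κ 1 = 1` (all terms are nonnegative, `LSBV.wt_nonneg`). -/
def St_PSG : Prop := ∀ (κ g W ps R : ℕ) (T : ℕ → ℝ), (∀ f, 0 ≤ T f) → 1 ≤ g → 1 ≤ W → (∀ q : ℕ, q.Prime → q ∣ g → q ∣ W) →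
  PSW κ (W * g) ps R T ≤ PSW κ W ps R (Tg g T) + ∑ e ∈ g.divisors.filter (fun e => e ≠ 1), T e

/-- **BVPG** (theorem `bvpg : St_BVPG`): the weighted primes modulo `M q` on average over `q`, for every modulus `M ≤ X ^ (1/40000)`.

Proof. Copy `Pool/Agent/Q153/CR/BVP.lean` (theorem `bvp : St_TRAP → St_BVP`; use it with `Pool.Agent.Q153.CR.trap Pool.Agent.Q117.CR.tz0`, see the end of `CR/Main.lean`) and
replace `WX X S ps` by `M`; the only properties used there are `1 ≤ W` and `W ≤ X ^ (1/50000)`; here `M ≤ X ^ (1/40000)` and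
`0.4995 + 0.5001 + 0.00005 + 0.000025 < 0.9998`. (`LSBV.main_swap` is for a general modulus.) -/
def St_BVPG : Prop := ∀ (κ : ℕ) (δ : ℝ), 1 ≤ κ → 0 < δ → δ ≤ 1 → ∃ X0 : ℕ, ∀ X : ℕ, X0 ≤ X → ∀ A B : ℕ, 1 ≤ A →
  (A : ℝ) * Real.exp (2 * δ) ≤ B → B ≤ X → ∀ M ps : ℕ, 1 ≤ M → (M : ℝ) ≤ (X : ℝ) ^ (1 / 40000 : ℝ) → ∀ r : ℕ → ℕ,
  (∀ q, 1 ≤ q → (r q).Coprime (M * q)) →
  ∑ q ∈ QQ M ps (RX X), (κ : ℝ) ^ q.primeFactors.card *
      |PT δ A B (M * q) (r q) - PT1 δ A B / (Nat.totient (M * q) : ℝ)| ≤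
    (1 / (Nat.totient M : ℝ)) *
      (Real.log X ^ (2 ^ (κ + 2)) * PSW κ M ps (RX X) (TP δ A B) + (X : ℝ) ^ (9998 / 10000 : ℝ))

/-- **BVBG** (theorem `bvbg : St_BVBG`): a block modulo `M q` on average over `q`.

Proof. Copy `Pool/Agent/Q117/CR/Bvb.lean` (theorem `bvb : St_SWB → St_BVB`; `Pool.Agent.Q237.CR.swb : St_SWB` is for a general modulus) and replace `WX X S ps` by `M`; the
properties used there: `1 ≤ W`, `W ≤ X ^ (1/50000)`, the primes `p ∣ W` are `≤ log X < X ^ (1/9)`. -/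
def St_BVBG : Prop := ∀ κ : ℕ, 1 ≤ κ → ∃ X0 : ℕ, ∀ X : ℕ, X0 ≤ X → ∀ (M₀ M₁ Y : ℕ) (T : Finset ℕ), BlkOK X M₀ M₁ Y T →
  ∀ M ps : ℕ, 1 ≤ M → (M : ℝ) ≤ (X : ℝ) ^ (1 / 40000 : ℝ) → (∀ p : ℕ, p.Prime → p ∣ M → (p : ℝ) ≤ Real.log X) →
  ∀ r : ℕ → ℕ, (∀ q, 1 ≤ q → (r q).Coprime (M * q)) →
  ∑ q ∈ QQ M ps (RX X), (κ : ℝ) ^ q.primeFactors.card * Pool.Agent.Y261.CH.EP M₀ M₁ T (r q) (M * q) ≤
    (1 / (Nat.totient M : ℝ)) *
      (PSW κ M ps (RX X) (TB κ (RX X) M₀ M₁ Y T) + (X : ℝ) ^ (95 / 100 : ℝ))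

/-- the bounds for the small conductors `e f`, `e ∣ g` -/
def SCG (g : ℕ) (X : ℝ) (ps : ℕ) : Prop := ∀ e f : ℕ, e ∣ g → Squarefree f → 1 < e * f → (f : ℝ) ≤ Real.exp (ll X ^ 6) →
  f.Coprime ps → ∀ χ : DirichletCharacter ℂ (e * f), χ.IsPrimitive →
    (∀ x : ℝ, X ^ (1 / 18 : ℝ) ≤ x → x ≤ 3 * X → ‖psiLog x (e * f) χ‖ ≤ x * Real.exp (-(ll X) ^ 7 / 2)) ∧
    ∀ u : ℕ, X ^ (11 / 100 : ℝ) ≤ (u : ℝ) → (u : ℝ) ≤ X →
      ‖∑ p ∈ (Icc 1 u).filter Nat.Prime, χ (p : ZMod (e * f))‖ ≤ u * Real.exp (-(ll X) ^ 7 / 8)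

/-- **SCPG** (theorem `scpg : St_SCPG`): the exceptional prime.

Proof. Adapt `Pool/Agent/Q117/CR/Scp.lean` (theorem `scp`; `sc0 : St_SC0`, `pl : St_PL`, `pr1 : St_PR` are in `CR/Main.lean`'s imports). Put `X' = X ^ (11/10)`,
`R = exp (ll X ^ 6)`. Apply `sc0 (g * primorial Z)` at `X'`: a number `fs` with `fs = 0` or `g * primorial Z < fs`. CHOICE OF `ps`: if there are `e ∣ g` and `f` squarefree,
`1 < f`, `f ≤ R`, `e f = fs`, then `f = fs / e > primorial Z`, so (as in `exists_psR`) `f` has a prime factor `> Z`; let `ps` be it (`ps ≤ f ≤ R`); otherwise `ps = 1`. CLAIM: for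
`e ∣ g`, `f` squarefree, `f ≤ R`, `f` prime to `ps`, `1 < e f`: `e f ≠ fs`. If `f = 1` then `e f = e ≤ g < fs` or `fs = 0 ≠ e f`. If `1 < f` and `e f = fs` then we are in the first case and
`ps ∣ fs = e f`; `ps > Z ≥ g ≥ e` is a prime so it does not divide `e` (`0 < e`), so `ps ∣ f`, against `f` prime to `ps`. BOUNDS: for `X` large `g exp (ll X ^ 6) ≤ exp (ll X' ^ 6)`
(`ll X' = ll X + log (11/10)`, `(l + c) ^ 6 ≥ l ^ 6 + 6 c l ^ 5 ≥ l ^ 6 + log g`), so `sc0`, `pl`, `pr1` at `X'` apply to the conductor `e f`, and give the bounds for `x ≥ X' ^ (1/20) = X ^ (11/200)`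
(`≤ X ^ (1/18)`), `u ≥ X' ^ (1/10) = X ^ (11/100)`, with `exp (- ll X' ^ 7 / 2) ≤ exp (- ll X ^ 7 / 2)` and the same with `8` (`0 ≤ ll X ≤ ll X'`); `X ≤ X'`. -/
def St_SCPG : Prop := ∀ Z g : ℕ, 1 ≤ g → g ≤ Z → ∃ X0 : ℝ, ∀ X : ℝ, X0 ≤ X →
    ∃ ps : ℕ, GoodP Z ps ∧ (ps : ℝ) ≤ Real.exp (ll X ^ 6) ∧ SCG g X ps

/-- **BSCG** (theorem `bscg : St_BSCG`): one small conductor for a block.

Proof. Copy `Pool/Agent/Q117/CR/Bsc.lean` (theorem `bsc`): its proof is for one conductor `f` at a time; `BSC.A_al`, `BSC.P_le` can be imported. Changes: `f ≤ g exp (l ^ 6)` in place of `exp (l ^ 6)` (an additional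
term `log g` in the exponents, harmless for `l` large), and the character sums are known for `u ≥ X ^ (11/100)` (`X ^ (11/100) ≤ X ^ (1/9) ≤ M₀`). -/
def St_BSCG : Prop := ∀ A g : ℕ, 1 ≤ g → ∃ X0 : ℕ, ∀ X : ℕ, X0 ≤ X → ∀ f : ℕ, 1 < f → (f : ℝ) ≤ g * Real.exp (ll X ^ 6) →
  (∀ χ : DirichletCharacter ℂ f, χ.IsPrimitive → ∀ u : ℕ, (X : ℝ) ^ (11 / 100 : ℝ) ≤ (u : ℝ) → (u : ℝ) ≤ X →
      ‖∑ p ∈ (Icc 1 u).filter Nat.Prime, χ (p : ZMod f)‖ ≤ u * Real.exp (-(ll X) ^ 7 / 8)) →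
  ∀ (M₀ M₁ Y : ℕ) (T : Finset ℕ), BlkOK X M₀ M₁ Y T → TB A (RX X) M₀ M₁ Y T f ≤ X * Real.exp (-(ll X) ^ 7 / 12)

/-- **LSG** (theorem `lsg : St_LSG`): the large sieve bounds for `Tg`.

Proof. `lsp : St_LSP` and `bls : St_BLS A` (imports of `CR/Main.lean`) at `X' = g ^ 3 X` (`x ≥ X ^ (1/3) ≥ X' ^ (1/4)` for `X` large, `x ≤ 3 X ≤ 3 X'`). For `F ≤ X ^ 0.49954`:
`∑_{2 ≤ f ≤ F} Tg g T f = ∑_{e ∣ g} ∑_{2 ≤ f ≤ F} T (e f) ≤ ∑_{e ∣ g} ∑_{2 ≤ f' ≤ g F} T f'` (`f ↦ e f` is injective, `T ≥ 0`), and `g F ≤ X' ^ 0.49954` (`(g ^ 3) ^ 0.49954 ≥ g`), so this is at most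
`g (X' + X' ^ 0.9999 g F) log X' ^ C ≤ g ^ 5 (X + X ^ 0.9999 F) (2 log X) ^ C ≤ (X + X ^ 0.9999 F) log X ^ (C + 1)` for `X` large. For the blocks: `TB A (RX X) .. f ≤ TB A (RX X') .. f`
(`RX X ≤ RX X'`, the terms are nonnegative: `TB_nonneg`), then the same with `T = TB A (RX X') M₀ M₁ Y T`. -/
def St_LSG : Prop := ∀ g A : ℕ, 1 ≤ g → ∃ (C X0 : ℕ), ∀ X : ℕ, X0 ≤ X →
  (∀ x : ℝ, (X : ℝ) ^ (1 / 3 : ℝ) ≤ x → x ≤ 3 * X → LSat C X (Tg g (TT1 x))) ∧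
  ∀ (M₀ M₁ Y : ℕ) (T : Finset ℕ), BlkOK (g ^ 3 * X) M₀ M₁ Y T → LSat C X (Tg g (TB A (RX X) M₀ M₁ Y T))

/-- the conclusion of `bvrg` -/
def BVRG (κ U Z α γ : ℕ) : Prop := ∃ X1 : ℕ, ∃ PP : ℕ → ℕ,
    (∀ X : ℕ, X1 ≤ X → GoodP Z (PP X) ∧ (PP X : ℝ) ≤ Real.exp (ll X ^ 6)) ∧
    ∀ δ : ℝ, 0 < δ → δ ≤ 1 → ∃ X0 : ℕ, ∀ X : ℕ, X0 ≤ X → ∀ A B : ℕ,
      (X : ℝ) ^ (1 / 3 : ℝ) ≤ A → (A : ℝ) * Real.exp (2 * δ) ≤ B → B ≤ X →
      ∀ (ι : Type) (I : Finset ι) (b : ι → Blk), (I.card : ℝ) ≤ Real.log X ^ 2 →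
        (∀ i ∈ I, (b i).OK X ∧ (b i).OK ((α * γ) ^ 3 * X)) →
      ∃ S : Finset ℕ, GoodS ((X : ℝ) ^ (1 / 100 : ℝ)) S ∧
        BPM κ δ X A B (WX X S (PP X) * γ) (PP X) (X / Real.log X ^ U) ∧
        ∀ i ∈ I, BBM κ X (b i) (WX X S (PP X) * α) (PP X) (X / Real.log X ^ U)

/-- **BVRG** (theorem `bvrg : St_BVRG`): the random modulus.

Proof. Adapt `theorem bvr` at the end of `Pool/Agent/Q117/CR/Bvr.lean` (the lemmas before it, `pts`, `TF`, `LSat_mono`, `SCat_TF` .. can be imported or copied). `g = α γ`. The function of the conductor for which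
`rel : St_REL` is used is `Tg g (TF κ δ X A B I b)` (`TF` of `Bvr.lean`). `LSat`: as `LSat_TF`, from `St_LSG` (`Tg g` is additive). `SCat 16 X ps (Tg g TF)`: for `f` squarefree, `1 < f ≤ exp (l ^ 6)`, prime to `ps`, every
`T (e f)`, `e ∣ g`, is estimated as in `SCat_TF` (`TT1_le` with the conductor `e f`: at most `g exp (l ^ 6)` characters; the blocks by `St_BSCG`), with the hypothesis `SCG g X ps`; there is room for the factor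
`g ^ 2` (`l` large). `rel` gives `S` with `PS κ X S ps (Tg g TF) ≤ X / log X ^ U'`. Then `St_BVPG` with `M = W γ`, `St_BVBG` with `M = W α` (`W = WX X S ps ≤ X ^ (1/50000)` by `WX_le`, so `M ≤ X ^ (1/40000)` for `X` large;
the primes dividing `W` are `≤ yy (X ^ (1/100)) ≤ log X` by `prime_dvd_WX` and `ev_cond` in `CR/Cond.lean`), and for `g₁ ∈ {α, γ}`: `PSW κ (W g₁) ps R T ≤ PSW κ W ps R (Tg g₁ T) + ∑_{1 ≠ e ∣ g₁} T e`
by `St_PSG` (the primes of `g ≤ Z` divide `W`: `small_dvd` in `CR/Cond.lean`, for `X` large: `ev_cond`), `Tg g₁ T ≤ Tg g T` (`T ≥ 0`, `g₁ ∣ g`), `T ≤ TF`, and `T e ≤ X exp (- l ^ 7 / 16)` for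
`1 ≠ e ∣ g` as above (`SCG` with `f = 1`), `∑ ≤ g X exp (- l ^ 7 / 16) ≤ X / log X ^ U'`. The rest as in `bvr`. -/
def St_BVRG : Prop := St_PSG → St_BVPG → St_BVBG → St_SCPG → St_BSCG → St_LSG →
  ∀ κ U Z α γ : ℕ, 1 ≤ κ → 1 ≤ α → 1 ≤ γ → α * γ ≤ Z → BVRG κ U Z α γ

/-! ### Part 2: Chen's sieve for the linear form -/

/-- an inverse of `α` modulo `q` (for `α` prime to `q`) -/
def iv (α q : ℕ) : ℤ := Nat.gcdA α q

/-- the value `|h - α p| / γ` -/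
def nn (α γ : ℕ) (h : ℤ) (p : ℕ) : ℕ := (h - (α : ℤ) * p).natAbs / γ

/-- the data -/
structure DatL (r Y α γ : ℕ) (h : ℤ) (Om : ℕ → Finset ℕ) : Prop where
  adm : Adm r Y Om
  hm : ∀ q ∈ Pr 0 Y, ¬ q ∣ α * γ → hr (h * iv α q) q ∈ Z0 Om q

/-- the setting (`M = W γ`, `M2 = W α`) -/
structure StL (r N X z Y M M2 ps a α γ : ℕ) (ε : ℝ) (h : ℤ) (Om : ℕ → Finset ℕ) : Prop where
  D : DatL r Y α γ h Om
  N8 : 8 ≤ N
  N4 : (2 : ℝ) < (N : ℝ) ^ (1 / 4 : ℝ)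
  NX : N ^ 2 ≤ X
  XN : X < (N + 1) ^ 2
  hX : h.natAbs ≤ X
  zY : z ≤ Y
  Yw : (Y : ℝ) < (N : ℝ) ^ ε
  e0 : 0 < ε
  e1 : ε ≤ 1 / 8
  α0 : 1 ≤ α
  γ0 : 1 ≤ γ
  M0 : 0 < M
  M20 : 0 < M2
  rel : M * α = M2 * γ
  tot : Nat.totient M * α = Nat.totient M2 * γ
  same : ∀ q : ℕ, q.Prime → (q ∣ M ↔ q ∣ M2)
  g : ∀ q : ℕ, q.Prime → q ∣ α * γ → q ∣ M
  hz : ∀ q ∈ Pr 0 z, q ∣ M
  mY : ∀ q : ℕ, q.Prime → q ∣ M → q ≤ Y
  ha : ∀ q ∈ Pr 0 Y, q ∣ M → a % q ∉ Z0 Om q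
  hp : ps = 1 ∨ (ps.Prime ∧ ¬ ps ∣ M ∧ ps ≤ Y)
  hd : (γ : ℤ) ∣ h - (α : ℤ) * a
  hc : ∀ q : ℕ, q.Prime → q ∣ M → ¬ (q : ℤ) ∣ (h - (α : ℤ) * a) / γ

/-- the classes for the primes, none for the primes that divide `D` (`D = M ps`) -/
noncomputable def ZAL (α D : ℕ) (h : ℤ) (Y : ℕ) (Om : ℕ → Finset ℕ) (q : ℕ) : Finset ℕ :=
  if q ∣ D then ∅ else ZA (h * iv α q) Y Om q

/-- the classes for the products -/
noncomputable def ZTL (α γ D : ℕ) (h s : ℤ) (Y : ℕ) (Om : ℕ → Finset ℕ) (q : ℕ) : Finset ℕ :=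
  if q ∣ D then ∅ else
    ((range q).erase 0).filter (fun x : ℕ => hr ((h + s * ((γ : ℤ) * x)) * iv α q) q ∈ ZTp Y Om q)

open Classical in
/-- the good primes of the interval `(A, B]` in the class `a` modulo `M` -/
noncomputable def GWL (α γ A B N Y M a : ℕ) (h : ℤ) (Om : ℕ → Finset ℕ) : Finset ℕ :=
  (PNX A B).filter (fun p => p ≡ a [MOD M] ∧ (∀ q ∈ Pr 0 Y, p % q ∉ Z0 Om q) ∧ nn α γ h p ≠ 0 ∧
    (nn α γ h p).primeFactorsList.length ≤ 2 ∧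
    ∀ q : ℕ, q.Prime → q ∣ nn α γ h p → (N : ℝ) ^ (1 / 4 : ℝ) ≤ q)

open Classical in
/-- the primes of the critical type -/
noncomputable def TWL (α γ A B N z Y M ps a : ℕ) (h : ℤ) (Om : ℕ → Finset ℕ) : Finset ℕ :=
  (PNX A B).filter (fun p => p ≡ a [MOD M] ∧ (∀ q ∈ Pr z Y, ¬ q ∣ M * ps → p % q ∉ Z0 Om q) ∧
    Ty N (nn α γ h p))

open Classical in
/-- the bad primes -/
noncomputable def BWL (α A B N M a : ℕ) (h : ℤ) : Finset ℕ :=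
  (PNX A B).filter (fun p => p ≡ a [MOD M] ∧
    ∃ q : ℕ, q ∈ Ioc (lo N (1 / 4)) N ∧ q.Prime ∧ q ^ 2 ∣ (h - (α : ℤ) * p).natAbs)

open Classical in
/-- **POSL** (theorem `posl : St_POSL`): Chen's weights, from the weighted sum to the number of the good primes.

Proof. Adapt `Pool/Agent/Q117/CR/Pos.lean` (`StW.clA` .. `StW.sum`; the final statement is the last theorem `StW.sum`). The lemmas `StW.dY`, `F1`, `lt_N` are word for word the same with `M` in place of `W` (`EW` is the old one,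
with the modulus `M`). New: for a prime `q` with `¬ q ∣ α`: `α iv α q ≡ 1 (mod q)` (`Nat.gcd_eq_gcd_ab`), so for `p ≡ a (mod M)` and a prime `q ∤ M ps` (then `q ∤ α γ` by `g`): `q ∣ nn α γ h p` iff
`q ∣ (h - α p).natAbs` (`γ ∣ h - α p` because `h - α p = (h - α a) - α (p - a)`, `γ ∣ α (p - a)` because `M α = M2 γ` divides `α (p - a)`; `(h - α p).natAbs = γ nn α γ h p`) iff `hr (h * iv α q) q = p % q`
(this replaces `natAbs_dvd_iff`). For a prime `q ∣ M`: `¬ q ∣ nn α γ h p`, since `(h - α p) / γ = (h - α a) / γ - k M2` (`α (p - a) = k M2 γ`), `q ∣ M2` and `StL.hc`. So `F2`: every prime `q ∣ nn` is `≥ N ^ (1/4)`: if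
`q ∣ M` impossible; if `q = ps`: `hr (h * iv α ps) ps = p % ps ∈ Z0 Om ps` by `DatL.hm` (`ps ∤ α γ`), excluded; otherwise as in the file, with `ZAL` in place of `ZAD`. `F3` (for `q ∈ pr N (1/4) (667/1000)`, `q > Y`, so `q ∤ M ps`) as in the file.
`point`: `n = nn α γ h p`, `n ≤ (h - α p).natAbs ≤ |h| + α p ≤ X + α B ≤ 2 X ≤ 3 N ^ 2`; `1 ≤ n` since `2 ∤ n` as in the file; `q ^ 2 ∣ n → q ^ 2 ∣ (h - α p).natAbs`. -/
def St_POSL : Prop := ∀ (r N X z Y M M2 ps a α γ A B K : ℕ) (ε δ : ℝ) (h : ℤ) (Om : ℕ → Finset ℕ),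
  StL r N X z Y M M2 ps a α γ ε h Om → N ≤ A → α * B ≤ X → TZ1 δ X A B →
  (∀ n : ℕ, 1 ≤ n → n ≤ 3 * N ^ 2 →
      (∀ p : ℕ, p.Prime → p ∣ n → (N : ℝ) ^ (1 / 4 : ℝ) ≤ p) →
      (∀ p : ℕ, p.Prime → p ^ 2 ∣ n → (N : ℝ) ^ (667 / 1000 : ℝ) ≤ p) →
      n.primeFactorsList.length ≤ 2 ∨ 2 ≤ ((pr N (1 / 4) (667 / 1000)).filter (fun q => q ∣ n)).card ∨
      (((pr N (1 / 4) (667 / 1000)).filter (fun q => q ∣ n)).card = 1 ∧ Ty N n)) →
    ∑ x ∈ (((OW K δ X A B).filter (fun x => x.1 ≡ a [MOD M])).filter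
        (fun x => ∀ q ∈ P1 N z ε, ¬ q ∣ vZ (ZAL α (M * ps) h Y Om) z N x.1)),
      II N ε (vZ (ZAL α (M * ps) h Y Om) z N x.1) *
      (1 - 1 / 2 * ∑ q ∈ pr N (1 / 4) (667 / 1000),
        (if q ∣ vZ (ZAL α (M * ps) h Y Om) z N x.1 then 1 else 0)) ≤
    K * (((GWL α γ A B N Y M a h Om).card : ℝ) + 1 / 2 * ((TWL α γ A B N z Y M ps a h Om).card : ℝ) +
      ((BWL α A B N M a h).card : ℝ) + ((EW A B Y M ps a Om).card : ℝ))

/-- **CLL** (theorem `cll : St_CLL`): the properties of the classes.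

Proof. Adapt `StW.clA`, `clT`, `gT`, `dg`, `dgT`, `cop_a`, `cop` in `Pool/Agent/Q117/CR/Pos.lean` and `inj_hr`, `card_pre`, `card_ZT`, `Dat.cA`, `Dat.cT`, `Dat.dg` in `Pool/Agent/Y843/CH/Enc.lean`. For a prime `q ∤ M ps` we have `q ∤ α`, `q ∤ γ`
(`StL.g`), `α iv α q ≡ 1 (mod q)`, so `iv α q` is a unit modulo `q` and `x ↦ hr ((h + s γ x) iv α q) q` is a bijection of `range q` (injective: `s γ iv α q` is a unit); so `|{x < q : .. ∈ ZTp}| = |ZTp|` and, removing `x = 0` (whose image is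
`hr (h * iv α q) q`, which is in `Z0 Om q` for `q ≤ Y` by `DatL.hm`), `|ZTL q| = |ZAL q|` exactly as in `card_ZT` (with `h * iv α q` in place of `h`). `Dg`: for `q ≥ N ^ ε > Y`: `q ∤ M ps` (`StL.mY`, `StL.hp`), and `hr (h * iv α q) q = 0` iff
`q ∣ h iv α q` iff `q ∣ h`. `cop`: if `q ∣ M2` and `q ∣ hr (s ((α a - h) / γ)) M2` then `q ∣ (h - α a) / γ`, against `StL.hc` (`(α a - h) / γ = - ((h - α a) / γ)` as `γ` divides). -/
def St_CLL : Prop := ∀ (r N X z Y M M2 ps a α γ : ℕ) (ε : ℝ) (h : ℤ) (Om : ℕ → Finset ℕ),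
  StL r N X z Y M M2 ps a α γ ε h Om →
    ClD (r + 1) z N (M * ps) (ZAL α (M * ps) h Y Om) ∧ a.Coprime M ∧
    Dg (r + 1) z ((N : ℝ) ^ ε) h.natAbs (gC (ZAL α (M * ps) h Y Om)) ∧
    ∀ s : ℤ, (s = 1 ∨ s = -1) →
      ClD (r + 1) z N (M2 * ps) (ZTL α γ (M * ps) h s Y Om) ∧
      (hr (s * (((α : ℤ) * a - h) / γ)) M2).Coprime M2 ∧
      (∀ q : ℕ, q.Prime → gC (ZTL α γ (M * ps) h s Y Om) q = gC (ZAL α (M * ps) h Y Om) q) ∧
      Dg (r + 1) z ((N : ℝ) ^ ε) h.natAbs (gC (ZTL α γ (M * ps) h s Y Om))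

/-- the interval of the products -/
noncomputable def aL (α γ A B : ℕ) (h s : ℤ) : ℝ :=
  if s = 1 then max (((α : ℝ) * A - h) / γ) 0 else max (((h : ℝ) - α * B) / γ - 1) 0
noncomputable def bL (α γ A B : ℕ) (h s : ℤ) : ℝ :=
  if s = 1 then max (((α : ℝ) * B - h) / γ) 0 else max (((h : ℝ) - α * A) / γ) 0

/-- the block `(s, j)` -/
noncomputable def blkL (α γ A B N X J : ℕ) (δ : ℝ) (h : ℤ) (i : ℤ × ℕ) : Blk :=
  ⟨lo N (uj J i.2), lo N (uj J (i.2 + 1)), ⌊(bL α γ A B h i.1 + δ * X) / (N : ℝ) ^ uj J i.2⌋₊,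
    NN N (aL α γ A B h i.1 / (N : ℝ) ^ uj J (i.2 + 1)) ((bL α γ A B h i.1 + δ * X) / (N : ℝ) ^ uj J i.2)⟩

/-- the mass of the block `(s, j)` -/
noncomputable def msL (α γ A B N X J : ℕ) (δ : ℝ) (h s : ℤ) (j : ℕ) : ℝ :=
  (((Ioc (lo N (uj J j)) (lo N (uj J (j + 1)))).filter Nat.Prime).card : ℝ) *
    ((NN N (aL α γ A B h s / (N : ℝ) ^ uj J (j + 1)) ((bL α γ A B h s + δ * X) / (N : ℝ) ^ uj J j)).card : ℝ)

open Classical in
/-- the sifted block -/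
noncomputable def FTL (α γ A B N X J z Y M M2 ps a : ℕ) (ε δ : ℝ) (h : ℤ) (Om : ℕ → Finset ℕ) (s : ℤ) (j : ℕ) :
    Finset (ℕ × ℕ) :=
  ((MN (blkL α γ A B N X J δ h (s, j)).M₀ (blkL α γ A B N X J δ h (s, j)).M₁
      (blkL α γ A B N X J δ h (s, j)).T).filter
      (fun x => x.1 * x.2 ≡ hr (s * (((α : ℤ) * a - h) / γ)) M2 [MOD M2])).filter
    (fun x => (∀ p ∈ P1 N z ε, ¬ p ∣ vZ (ZTL α γ (M * ps) h s Y Om) z N (x.1 * x.2)) ∧
      ∀ p ∈ pr N ε (7 / 20), ¬ p ∣ vZ (ZTL α γ (M * ps) h s Y Om) z N (x.1 * x.2))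

/-- **TYPL** (theorem `typl : St_TYPL`): the primes of the critical type are in the blocks.

Proof. Adapt `typ_memW`, `typ_leW` in `Pool/Agent/Q117/CR/Typ.lean`. For `p ∈ TWL`: `n = nn α γ h p = p₁ (p₂ p₃)`, `γ ∣ h - α p` (see POSL), so `α p = h + s γ n` with `s = ± 1` (`s = -1` if `α p < h`) and `aL < n ≤ bL`
(`s = 1`: `γ n = α p - h > α A - h`, `≤ α B - h`; `s = -1`: `γ n = h - α p ≥ h - α B > h - α B - γ`, `≤ h - α A`). Class: `n ≡ s (α a - h) / γ (mod M2)` because `γ n = s (α p - h)`, `(α p - h) / γ = (α a - h) / γ + k M2`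
(`α (p - a) = k M2 γ`), `s s = 1`. Sifting: for a prime `q ∤ M ps` (so `q ∤ α γ`) with `n % q ∈ ZTL`: `hr ((h + s (γ (n % q))) iv α q) q = hr (α p iv α q) q = p % q`, then as in the file. Injectivity: `p` is determined by `x` and `s`
(`α p = h + s γ x.1 x.2`): use `f s x = ((h + s * (γ * (x.1 * x.2))) / α).toNat`. -/
def St_TYPL : Prop := ∀ (r N X z Y M M2 ps a α γ A B J : ℕ) (ε δ : ℝ) (h : ℤ) (Om : ℕ → Finset ℕ),
  StL r N X z Y M M2 ps a α γ ε h Om → N ≤ A → 1 ≤ J → 0 ≤ δ →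
    (TWL α γ A B N z Y M ps a h Om).card ≤ ∑ j ∈ range J, (FTL α γ A B N X J z Y M M2 ps a ε δ h Om 1 j).card +
      ∑ j ∈ range J, (FTL α γ A B N X J z Y M M2 ps a ε δ h Om (-1) j).card

/-- **BLKL** (theorem `blkl : St_BLKL`): the blocks satisfy the conditions, and their total mass.

Proof. First part: adapt `blk_ok` in `Pool/Agent/Q117/CR/Typ.lean`, using it for `X` and for `g ^ 3 X` (`Sz N X` and the hypothesis on `g ^ 3 X` give the two lower bounds for `M₀`; the upper bounds for `g ^ 3 X` follow from those for `X`);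
`0 ≤ aL ≤ bL ≤ 2 X` as in `aI_le` (`Y840/CI/Fin1.lean`): `α B ≤ X`, `|h| ≤ X`, `1 ≤ γ`. Second part: adapt `mass'`, `mass2'`, `abI_sum` in `Y840/CI/Fin1.lean`: with `L0 = α (B - A) / γ`: the sum of the lengths is `≤ L0 + 1` (the point `h / α` in
place of `h`), `δ X = θ X / (8000 γ) ≤ (B - A) / (8000 γ) ≤ L0 / 8000` (`1 ≤ α`) and `1 ≤ θ X / (4000 γ) ≤ L0 / 4000`, so the total is `≤ (195 / 1000 (L0 + 1 + 12 δ X) + 2 δ X) / log N ≤ 196 / 1000 L0 / log N`. -/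
def St_BLKL : Prop := ∀ (r N X z Y M M2 ps a α γ A B J : ℕ) (ε δ θ : ℝ) (h : ℤ) (Om : ℕ → Finset ℕ),
  StL r N X z Y M M2 ps a α γ ε h Om → N ≤ A → A ≤ B → α * B ≤ X → 4000 ≤ N → 0 < δ → δ ≤ 1 / 4000 → 1 ≤ J →
  (N : ℝ) ^ (417 / 1000 / (J : ℝ)) ≤ 1 + δ →
  (Sz N X → (((α * γ) ^ 3 * X : ℕ) : ℝ) ^ (1 / 9 : ℝ) + 1 ≤ (N : ℝ) ^ (1 / 4 : ℝ) →
    ∀ s : ℤ, (s = 1 ∨ s = -1) → ∀ j < J, (blkL α γ A B N X J δ h (s, j)).OK X ∧
      (blkL α γ A B N X J δ h (s, j)).OK ((α * γ) ^ 3 * X)) ∧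
  (0 < θ → δ = θ / (8000 * γ) → θ * X ≤ (B : ℝ) - A → 4000 * γ ≤ θ * X → MB' N δ →
    ∑ j ∈ range J, msL α γ A B N X J δ h 1 j + ∑ j ∈ range J, msL α γ A B N X J δ h (-1) j ≤
      196 / 1000 * ((α : ℝ) * ((B : ℝ) - A) / γ / Real.log N))

/-- **BWL** (theorem `bwl : St_BWL`): the number of the bad primes.

Proof. Adapt `BW_card` in `Pool/Agent/Q117/CR/Cond.lean`: for a prime `q > lo N (1/4)` we have `q ∤ α` (`hWN`, `hα`), so `q ^ 2 ∣ h - α p` fixes the class of `p` modulo `q ^ 2` (the set of these `p` is contained in a class modulo `q ^ 2`; take any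
solution `c₀` of `α c₀ ≡ h`, for instance `c₀ = hr (h * Nat.gcdA α (q ^ 2)) (q ^ 2)`). -/
def St_BWL : Prop := ∀ (α A B N X M a : ℕ) (h : ℤ), B ≤ X → 0 < M → 1 ≤ α →
  (∀ q : ℕ, q.Prime → q ∣ M → q ≤ lo N (1 / 4)) → (∀ q : ℕ, q.Prime → q ∣ α → q ∣ M) →
  2 ≤ lo N (1 / 4) → lo N (1 / 4) ≤ N →
    ((BWL α A B N M a h).card : ℝ) ≤ (X : ℝ) / M / lo N (1 / 4) + N

/-- **PRWL** (theorem `prwl : St_PRWL`): the products of the local densities.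

Proof. From `prw : St_PRW` (imported by `CR/Main.lean`) by the Chinese remainder theorem: let `h' : ℤ` with `h' ≡ h * iv α q (mod q)` for the primes `q ≤ max N Y` with `q ∤ α γ`, `h' ≡ 0 (mod q)` for the primes `q ≤ max N Y` with `q ∣ α γ`
(e.g. `Nat.chineseRemainderOfFinset` applied to the residues `hr (h * iv α q) q`, resp. `0`). Then `Dat r Y h' Om` (`adm`; `hr h' q = hr (h * iv α q) q ∈ Z0 Om q`, or `= 0 ∈ Z0 Om q`), and for the primes `p ∈ P1 N z ε` (`p ≤ N`) the factor for `ZAD (M * ps) h' Y Om` is the factor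
for `ZAL α (M * ps) h Y Om`: both `1` if `p ∣ M ps`, otherwise `p ∤ α γ` and `ZA h' Y Om p = ZA (h * iv α p) Y Om p` since `hr h' p = hr (h * iv α p) p`. Apply `prw r N z Y M ps ε h' Om`. -/
def St_PRWL : Prop := ∀ (r N z Y M ps α γ : ℕ) (ε : ℝ) (h : ℤ) (Om : ℕ → Finset ℕ), DatL r Y α γ h Om →
  (∀ q : ℕ, q.Prime → q ∣ α * γ → q ∣ M) → z ≤ Y →
  (Y : ℝ) < (N : ℝ) ^ ε → ε ≤ 1 → 8 ≤ N → r + 2 ≤ z → 3 ≤ Y → 1 ≤ M → (∀ q : ℕ, q.Prime → q ≤ z → q ∣ M) →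
  (∀ q : ℕ, q.Prime → q ∣ M → q ≤ Y) → (ps = 1 ∨ (ps.Prime ∧ ¬ ps ∣ M ∧ ps ≤ Y)) →
  VD Om (M * ps) Y * ((Nat.totient M : ℝ) / M) * (1 / (2 * V1 Y)) * (V1 N / V1 Y) ^ 2 ≤
    ∏ p ∈ P1 N z ε, (1 - gC (ZAL α (M * ps) h Y Om) p)

open Classical in
/-- **WPG** (theorem `wpg : St_WPG`): the remainders of the sieve.

Proof. Copy `aerW`, `terW` in `Pool/Agent/Q117/CR/Wp.lean` and replace `WX X S ps` by `M` (only `0 < M` is used); `rr_sumW`, `exists_rmax`, `count_OW`, `EP_eq` are general. -/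
def St_WPG : Prop :=
  (∀ (κ z N X A B ps a M : ℕ) (δ E : ℝ) (cl : ℕ → Finset ℕ), TZ1 δ X A B → B ≤ X → 1 ≤ Real.log X → 1 ≤ N →
    N ^ 2 ≤ X → 0 < M → ClD κ z N (M * ps) cl → a.Coprime M → BPM κ δ X A B M ps E → (Nat.totient M : ℝ) ≤ E →
    ∑ d ∈ Lv' z ((N : ℝ) ^ (999 / 1000 : ℝ)), Rr ((OW (X ^ (κ + 3)) δ X A B).filter
        (fun x => x.1 ≡ a [MOD M])) (fun x => vZ cl z N x.1) (gC cl)
        ((((X ^ (κ + 3) : ℕ) : ℝ) * (PT1 δ A B / Real.log X)) / (Nat.totient M : ℝ)) d ≤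
      ((X ^ (κ + 3) : ℕ) : ℝ) * (3 * (E / (Nat.totient M : ℝ)))) ∧
  ∀ (κ z N X ps a M : ℕ) (E : ℝ) (cl : ℕ → Finset ℕ) (b : Blk), 1 ≤ N → N ^ 2 ≤ X → 0 < M →
    ClD κ z N (M * ps) cl → a.Coprime M → BBM κ X b M ps E →
    ∑ d ∈ Lv' z ((N : ℝ) ^ (999 / 1000 : ℝ)), Rr ((MN b.M₀ b.M₁ b.T).filter
        (fun x => x.1 * x.2 ≡ a [MOD M])) (fun x => vZ cl z N (x.1 * x.2)) (gC cl)
        ((((Ioc b.M₀ b.M₁).filter Nat.Prime).card * b.T.card : ℝ) / (Nat.totient M : ℝ)) d ≤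
      E / (Nat.totient M : ℝ)

/-- **STEPL** (theorem `stepl : St_STEPL`): the two bounds.

Proof. Adapt `blockW` in `CR/Typ.lean` and `lowX`, `upX` in `Pool/Agent/Q117/CR/Step.lean`, with `M` (for the primes) and `M2` (for the products) in place of `W`. First part: `hW.1` for `ZAL` (class properties from `hC`), `CB` (its first bound), and `hP` (`St_POSL`).
Second part: `hT` (`St_TYPL`), `hW.2` and the second bound of `CB` for every block (`(gC (ZTL ..))` and `(gC (ZAL ..))` agree at the primes, so the products over `P1` agree); the mass of the block `(s, j)` is `msL .. s j` (by definition of `blkL`).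
`h.natAbs ≤ X < (N + 1) ^ 2 ≤ N ^ 3`. -/
def St_STEPL : Prop := St_POSL → St_CLL → St_TYPL → St_WPG →
  ∀ (r N X z Y M M2 ps a α γ A B J Km : ℕ) (ε A0 δ δ' E P V G T Bd Ex : ℝ) (h : ℤ) (Om : ℕ → Finset ℕ),
  StL r N X z Y M M2 ps a α γ ε h Om → 4000 ≤ N → h ≠ 0 → N ≤ A → α * B ≤ X → 1 ≤ Real.log X → 0 ≤ δ → 1 ≤ J →
  CB (r + 1) z N ε A0 (A0 / 10000) → TZ1 δ' X A B → BPM (r + 1) δ' X A B M ps E → (Nat.totient M : ℝ) ≤ E →
  (∀ i ∈ ({1, -1} : Finset ℤ) ×ˢ range J, BBM (r + 1) X (blkL α γ A B N X J δ h i) M2 ps E) →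
  Km = X ^ ((r + 1) + 3) → (∀ n : ℕ, 1 ≤ n → n ≤ 3 * N ^ 2 →
      (∀ p : ℕ, p.Prime → p ∣ n → (N : ℝ) ^ (1 / 4 : ℝ) ≤ p) →
      (∀ p : ℕ, p.Prime → p ^ 2 ∣ n → (N : ℝ) ^ (667 / 1000 : ℝ) ≤ p) →
      n.primeFactorsList.length ≤ 2 ∨ 2 ≤ ((pr N (1 / 4) (667 / 1000)).filter (fun q => q ∣ n)).card ∨
      (((pr N (1 / 4) (667 / 1000)).filter (fun q => q ∣ n)).card = 1 ∧ Ty N n)) →
  P = PT1 δ' A B / Real.log X → 0 ≤ P → V = ∏ p ∈ P1 N z ε, (1 - gC (ZAL α (M * ps) h Y Om) p) →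
  G = ((GWL α γ A B N Y M a h Om).card : ℝ) → T = ((TWL α γ A B N z Y M ps a h Om).card : ℝ) →
  Bd = ((BWL α A B N M a h).card : ℝ) → Ex = ((EW A B Y M ps a Om).card : ℝ) →
    ε * (P / (Nat.totient M : ℝ) * V) * (A0 * (1000 / 998 * LBc) - A0 / 10000) -
      Real.log N * (3 * (E / (Nat.totient M : ℝ))) ≤ G + 1 / 2 * T + (Bd + Ex) ∧
    T ≤ ε * ((∑ j ∈ range J, msL α γ A B N X J δ h 1 j + ∑ j ∈ range J, msL α γ A B N X J δ h (-1) j) /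
        (Nat.totient M2 : ℝ) * V) *
        (1000 / 998 * A0 + A0 / 10000) + 2 * (J * (Real.log N * (E / (Nat.totient M2 : ℝ))))

/-- the conclusion -/
def CWL (r t α γ : ℕ) (c : ℝ) : Prop := ∃ X1 : ℕ, ∃ PP : ℕ → ℕ,
    (∀ X : ℕ, X1 ≤ X → GoodP (α * γ + 2) (PP X) ∧ (PP X : ℝ) ≤ Real.exp (ll X ^ 6)) ∧
    ∀ θ : ℝ, 0 < θ → θ ≤ 1 → ∃ X₀ : ℕ, ∀ X : ℕ, X₀ ≤ X → ∀ h : ℤ, h ≠ 0 → h.natAbs ≤ X →
      ∀ A B : ℕ, Nat.sqrt X ≤ A → A ≤ B → α * B ≤ X → θ * X ≤ (B : ℝ) - A →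
      ∃ S : Finset ℕ, GoodS ((X : ℝ) ^ (1 / 100 : ℝ)) S ∧
        ∀ Om : ℕ → Finset ℕ, DatL r ⌊(X : ℝ) ^ (1 / (t : ℝ))⌋₊ α γ h Om → ∀ a : ℕ,
          (∀ q ∈ Pr 0 ⌊(X : ℝ) ^ (1 / (t : ℝ))⌋₊, q ∣ WX X S (PP X) → a % q ∉ Z0 Om q) →
          (γ : ℤ) ∣ h - (α : ℤ) * a →
          (∀ q : ℕ, q.Prime → q ∣ WX X S (PP X) → ¬ (q : ℤ) ∣ (h - (α : ℤ) * a) / γ) →
          c * ((((B : ℝ) - A) / (WX X S (PP X) : ℝ)) *
            VD Om (WX X S (PP X) * PP X) ⌊(X : ℝ) ^ (1 / (t : ℝ))⌋₊) ≤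
          ((GWL α γ A B (Nat.sqrt X) ⌊(X : ℝ) ^ (1 / (t : ℝ))⌋₊ (WX X S (PP X) * γ) a h Om).card : ℝ)

/-- **TOPL** (theorem `topl : St_TOPL`): Chen's theorem for linear forms relative to a smooth modulus.

Proof. Adapt `stepX` (`CR/Step.lean`) and `chenW_of` (`CR/Top.lean`), with `M = W γ`, `M2 = W α`, `W = WX X S (PP X)`. All the other ingredients are theorems (see `CR/Main.lean`): `ms tz0 : St_MS`, `fb : St_FB`, `Pool.Agent.Y261.CH.core : St_CORE`,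
`Pool.Agent.Y48.CH.mass Pool.Agent.Y484.CH.num : St_MASS`, `Pool.Agent.Y484.CH.num : St_NUM`, `Pool.Agent.Y73.CH.wt : St_WT`. Changes: `Z` is enlarged so that `α γ + 2 ≤ Z` (then the primes of `α γ` divide `W` by `small_dvd`); `δ = θ / (8000 γ)`; `B ≤ α B ≤ X`;
`StL`: `rel`: `W γ α = W α γ`; `tot`: `φ(W g) = g φ(W)` for `g ∈ {α, γ}` as the primes of `g` divide `W` (`Nat.totient_mul_of_prime_of_dvd` repeatedly or `Nat.totient_mul_left..`; or from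
`Nat.totient_eq_mul_prod_factors`); `a`, `c`, `same`: a prime divides `W γ` iff it divides `W`. New size conditions: `((α γ) ^ 3 X) ^ (1/9) + 1 ≤ N ^ (1/4)`, `4000 γ ≤ θ X`, `X ^ (1/3) ≤ A`, `γ X ^ (1/50000) ≤ X / log X ^ U`. Masses: `M' = (γ / α) ∑ msL ≤ 196 / 1000 (B - A) / log N` by
`St_BLKL` and `∑ msL / φ(M2) = M' / φ(M)` by `tot`, so `arith_final` applies with `φ(M)`; `E / φ(M2) = (γ / α) E / φ(M) ≤ γ E / φ(M)`: use `EB = 3 γ (E / φ(M))` in both bounds. `W_phi` gives `M ≤ log X φ(M)` (`M / φ(M) = W / φ(W)`). `St_PRWL` in place of `prw`,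
`St_BWL` in place of `BW_card`, `EW_card` with the modulus `M`. The result for `M` is `cm / 2 ((B - A) / M) VD Om (M ps) Y ≤ |GWL|`, and `VD Om (M ps) Y = VD Om (W ps) Y` (same primes), `M = W γ`: the constant is `cm / (2 γ)`. -/
def St_TOPL : Prop := (∀ κ U Z α γ : ℕ, 1 ≤ κ → 1 ≤ α → 1 ≤ γ → α * γ ≤ Z → BVRG κ U Z α γ) →
  St_BLKL → St_BWL → St_PRWL → St_POSL → St_CLL → St_TYPL → St_WPG → St_STEPL →
  ∀ r α γ : ℕ, 1 ≤ α → 1 ≤ γ → ∃ t : ℕ, 1 ≤ t ∧ ∃ c : ℝ, 0 < c ∧ CWL r t α γ c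

/-! ### Part 3: the covering for several slopes, and the theorem for systems of linear forms -/

/-- **RSA** (theorem `rsa : St_RSA`): Rankin's choice of residue classes without the primes that divide `A0`.

Proof. Copy `Pool/Agent/Q117/GP/Rsurv.lean` (theorem `rsurvG`) and exclude everywhere the primes `p ∣ A0` (put them into `E0`: `P = P0 \ E0` with `E0 = P0.filter (p ∈ S ∨ p = ps ∨ p ∣ A0)`; for `y` large no prime `p ∣ A0` is `> v₀ = (log y) ^ 2`, so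
nothing changes there). Only the bound for `R.card` changes. `k = 0` is now possible: it costs `1 ≤ H / log y`. For `k ≥ 1` in `R`, not divisible by an element of `S`, nor by `ps` if `ps > v₀`: write `k = d k'`, `d` composed of primes `∣ A0`, `k'` prime to `A0`. If `k` has a prime factor
`q > y`: then `k / q < v₀` is composed of primes `∣ A0` and of `ps`, so `k' = q β ^ a` and `d < v₀`; the number of these `k` is `≤ ∑_{d < v₀, d composed of primes ∣ A0} #{k' ≤ H / d : k' = q β ^ a} ≤ ∑_d (20 (H / d) / log y + .. )` by `primepow_count β y (H / d)` (look at its exact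
statement; `∑_d 1 / d ≤ ∏_{p ∣ A0} (1 - 1 / p)⁻¹ ≤ C(A0)`, and the number of the `d < v₀` is `≤ v₀`, so error terms `≤ v₀ ^ 2` are harmless). If not, all prime factors of `k` are `≤ v` or in `{ps}` or `∣ A0`, so `log p ≤ V0` for all of them (the primes `∣ A0` are bounded, `V0` is large),
which is the last set of the union as before. So `R.card ≤ C' H / log y`. -/
def St_RSA : Prop := ∀ K A0 : ℕ, 1 ≤ A0 → ∃ C : ℝ, 0 < C ∧ ∃ y₀ : ℕ, ∀ y : ℕ, y₀ ≤ y → ∀ (S : Finset ℕ) (ps : ℕ),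
    (∀ q ∈ S, q.Prime ∧ 2 < q) → ∑ q ∈ S, (1 : ℝ) / q ≤ 12 / (Real.log y) ^ 2 →
    (ps = 1 ∨ (ps.Prime ∧ 2 < ps)) → ∀ H : ℕ, y ≤ H → (H : ℝ) ≤ y * (Real.log y) ^ 2 →
    ∀ t : Fin K → ℕ, (∀ j, (∀ p : ℕ, p.Prime → p ≤ y → p ∉ S → p ≠ ps → ¬ p ∣ A0 → ¬ p ∣ t j) ∧ t j ≤ H) →
    ∃ b : ℕ → ℕ, (∀ p : ℕ, p.Prime → p ≤ y → p ∉ S → p ≠ ps → ¬ p ∣ A0 → b p < p ∧ ∀ j, ¬ t j ≡ b p [MOD p]) ∧
      ∀ U : Finset ℕ, (∀ k ∈ U, k ≤ H ∧ (∀ j, k ≠ t j) ∧ ∀ p : ℕ, p.Prime → p ≤ y → p ∉ S → p ≠ ps → ¬ p ∣ A0 →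
        ¬ k ≡ b p [MOD p]) → (U.card : ℝ) ≤
      C * H * (Real.log (Real.log y)) ^ 2 /
        ((Real.log y) ^ 2 * Real.log (Real.log (Real.log y)))

/-- for every prime `p ∤ A0` some translate of `H` avoids the multiples of `p` -/
def AdmA (A0 : ℕ) (H : Finset ℕ) : Prop := ∀ p : ℕ, p.Prime → ¬ p ∣ A0 → ∃ r : ℕ, ∀ h ∈ H, ¬ p ∣ r + h

/-- **COVA** (theorem `cova : St_RSA → St_COVA`): covering `[0, c R(X)]` except for a prescribed set, without the primes that divide `A0`.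

Proof. Copy `Pool/Agent/Q117/GP/Cover.lean` (theorem `cover`, with `shift_ex`), excluding everywhere the primes `p ∣ A0`. `shift_ex`: use the classes `fun q => if q ∣ A0 then ∅ else shiftZ H q` (a `SysZ k`), so that no prime `p ≤ L ^ (1/t)`, `p ∤ A0`, divides `t₀ + h`.
`S'` = the primes `∤ A0` which divide some `t₀ + h`, `h ∈ H` (all `> L ^ (1/t)`, at most `2 t` for each `h`: apply `omega_le` to the part of `t₀ + h` prime to `A0`). `St_RSA` in place of `rsurvG`, and the lemma `classes` of `GP/Classes.lean` with `S ∪ A0.primeFactors` in place of `S` (it has no condition on `S`); the primes of `(y', y]`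
do not divide `A0` for `X` large. -/
def St_COVA : Prop := ∀ k A0 : ℕ, 1 ≤ k → 1 ≤ A0 → ∃ c : ℝ, 0 < c ∧ ∃ X0 : ℝ, ∀ X : ℝ, X0 ≤ X → ∀ (ps : ℕ) (S : Finset ℕ),
    GoodP 2 ps → GoodS X S → ∀ H : Finset ℕ, H.card = k → (∀ h ∈ H, (h : ℝ) ≤ c * Rk X) → AdmA A0 H →
    ∃ a : ℕ, ∀ s : ℕ, (s : ℝ) ≤ c * Rk X →
      ((∀ p : ℕ, p.Prime → ¬ p ∣ A0 → p ∣ WW X S ps → ¬ p ∣ a + s) ↔ s ∈ H)

/-- the value of the form `l` -/
def fm {k : ℕ} (al : Fin k → ℕ) (be : Fin k → ℤ) (l : Fin k) (n : ℕ) : ℤ := (al l : ℤ) * n + be l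

/-- the system has no fixed prime divisor -/
def AdmS {k : ℕ} (al : Fin k → ℕ) (be : Fin k → ℤ) : Prop :=
  ∀ p : ℕ, p.Prime → ∃ n : ℕ, ∀ l, ¬ (p : ℤ) ∣ fm al be l n

open Classical in
/-- the integers `n ∈ (X, 2X]` for which the form `i` is a prime, the form `j` is a product of at most two primes, all `> X ^ (1/8)`, no form has a prime factor
`≤ X ^ (1/t)`, and every integer at distance `≤ D` from one of the values which is not one of the values has a prime factor `≤ log X` -/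
noncomputable def PtsL (t : ℕ) (X D : ℝ) {k : ℕ} (al : Fin k → ℕ) (be : Fin k → ℤ) (i j : Fin k) : Finset ℕ :=
  (range (⌊2 * X⌋₊ + 1)).filter (fun n : ℕ => X < n ∧ (∀ l, 0 < fm al be l n) ∧ (fm al be i n).natAbs.Prime ∧
    (fm al be j n).natAbs.primeFactorsList.length ≤ 2 ∧
    (∀ p : ℕ, p.Prime → (p : ℤ) ∣ fm al be j n → X ^ (1 / 8 : ℝ) < p) ∧
    (∀ l, ∀ p : ℕ, p.Prime → (p : ℝ) ≤ X ^ (1 / (t : ℝ)) → ¬ (p : ℤ) ∣ fm al be l n) ∧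
    ∀ l, ∀ s : ℤ, |(s : ℝ)| ≤ D → (∀ m, fm al be l n + s ≠ fm al be m n) →
      ∃ p : ℕ, p.Prime ∧ (p : ℝ) ≤ Real.log X ∧ (p : ℤ) ∣ fm al be l n + s)

/-- **LPAT** (theorem `lpat : St_LPAT`): Chen's theorem in systems of linear forms, all the values isolated at Rankin's scale.

Proof. Adapt `pattern_of` in `Pool/Agent/Q117/CR/Fin.lean` (with `Pat.lean`). `r = k`; `t, c` from the hypothesis for `k`, `α = al j`, `γ = al i`. Let `Q = ∏ l, al l`, `X1 = 2 α γ ⌈X⌉` (the scale; `W = WX X1 S (PP X1)`, `Y = ⌊X1 ^ (1/t)⌋`), `h = α be i - γ be j` (`≠ 0`, `|h| ≤ X1`), `K = ⌈D⌉`, `D = c' Rk X`,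
the interval of the primes `p = fm i n`: `A = ⌈γ X⌉ + K`, `B = ⌊2 γ X⌋ - K` (so that `n = (p - be i) / γ ∈ (X, 2 X]`), `α B ≤ X1`, `√X1 ≤ A`, `θ = 1 / (8 α)`.
COVERING (`St_COVA` with `A0 = Q`, at the scale `X1 ^ (1/100)`; `Rk X ≤ 400 Rk (X1 ^ (1/100))` as in `Rk_scale`, `Pat.lean`; `c'` small): the integer points `s_{l,u} = (Q / al l) (be l + u)`, `|u| ≤ D`, satisfy
`(Q / al l) (fm l n + u) = Q n + s_{l,u}` and `|s_{l,u}| ≤ 2 Q D`; let `O = ⌈2 Q D⌉` and `H` = the `k` natural numbers `O + s_{l,0}` (distinct: `al l be m ≠ al m be l`), `≤ 2 O ≤ c Rk (X1 ^ (1/100))`; `AdmA Q H`: for a prime `p ∤ Q` take `n_p` from `AdmS` and `r ≡ Q n_p - O`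
(then `r + O + s_{l,0} ≡ (Q / al l) fm l n_p`, a unit times a nonzero class). COVA gives `a₀`; by the Chinese remainder theorem there is `n*` with `Q n* ≡ a₀ + O (mod p)` for the primes `p ∣ W`, `p ∤ Q`, and `n* ≡ n_p (mod p)` for the primes `p ∣ W`, `p ∣ Q` (`n_p` from `AdmS`); add a multiple of
`W` so that `fm i n* > 0`, and put `a = fm i n*`. For a prime `p ∣ W`, `p ∤ Q`, and `|u| ≤ D`: `p ∣ fm l n* + u` iff `p ∣ a₀ + (O + s_{l,u})`. So (1) no prime of `W` divides any `fm l n*` (for `p ∣ Q` by the choice of `n_p`); (2) if `O + s_{l,u} ∉ H` then some prime `p ∣ W` divides `fm l n* + u`.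
SIEVE: `Om q = ∅` if `q ∣ γ`, otherwise the set of the `c < q`, `c ≠ 0`, such that `(q : ℤ) ∣ al l (c - be i) + γ be l` for some `l ≠ i` (`γ fm l n = al l (p - be i) + γ be l` for `p = fm i n`): at most `k - 1 ≤ k` classes (for each `l`: if `q ∣ al l` none, since otherwise `q ∣ γ fm l n` for all `n`,
against `AdmS`; else one), and the class of `fm i n_q` (`n_q` from `AdmS`) is not in `{0} ∪ Om q`, so `Adm k Y Om`. `DatL.hm`: `c₀ = hr (h * iv α q) q` satisfies `α c₀ ≡ h = α be i - γ be j`, i.e. `q ∣ al j (c₀ - be i) + γ be j` (`q ∤ α γ`), so `c₀ = 0` or `c₀ ∈ Om q`. The hypotheses on `a`: for `q ∣ W`: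
`a % q ∉ Z0 Om q` by (1) (if `q ∣ γ`: `q ∤ a = fm i n*`); `h - α a = - γ fm j n*`, so `γ` divides it and the quotient `- fm j n*` is prime to `W` by (1).
CONCLUSION: the good primes `p ≡ a (mod W γ)`, `A < p ≤ B`, give `n = (p - be i) / γ` with `n ≡ n* (mod W)` (`p - be i ≡ γ n* (mod W γ)`), `X < n ≤ 2 X`, `fm i n = p`, `nn α γ h p = |fm j n|`, no `q ≤ Y` divides `fm l n` (`q ∤ γ`: from `p % q ∉ Z0 Om q`; `q ∣ γ`: then `q ∣ W`, `n ≡ n* (mod q)` and (1)),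
`N ^ (1/4) > X ^ (1/8)` (`N = √X1`). The last condition: if `O + s_{l,u} ∉ H` by (2) (`n ≡ n* (mod W)`; primes of `W` are `≤ log X1 / 100000 ≤ log X`). If `O + s_{l,u} = O + s_{m,0}` then `al m (fm l n + u) = al l fm m n`: with `d = al m / gcd (al l, al m)`: `d ∣ fm m n`, so `d = 1` (no small prime factors), `fm l n + u = c fm m n` with `c = al l / al m`, and `c ≠ 1` by
hypothesis, so a prime `p ∣ c` (`≤ al l ≤ log X`) divides it. The map `p ↦ n` is injective. SIZE of the lower bound: as in `ev_fin`, `pattern_of`: `≥ X1 ^ (999/1000) ≥ X ^ (99/100)`. -/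
def St_LPAT : Prop := St_COVA → (∀ r α γ : ℕ, 1 ≤ α → 1 ≤ γ → ∃ t : ℕ, 1 ≤ t ∧ ∃ c : ℝ, 0 < c ∧ CWL r t α γ c) →
  ∀ (k : ℕ) (al : Fin k → ℕ), (∀ l, 1 ≤ al l) → ∀ i j : Fin k, i ≠ j →
    ∃ t : ℕ, 1 ≤ t ∧ ∃ c : ℝ, 0 < c ∧ ∃ X0 : ℝ, ∀ X : ℝ, X0 ≤ X → ∀ be : Fin k → ℤ, (∀ l, |(be l : ℝ)| ≤ c * Rk X) →
      (∀ l m, l ≠ m → (al l : ℤ) * be m ≠ al m * be l) → AdmS al be →
      X ^ (99 / 100 : ℝ) ≤ ((PtsL t X (c * Rk X) al be i j).card : ℝ)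

end Pool.Agent.Q117.LF
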