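import Pool.Agent.Q117.LF.Main

/-!
Project LF (helper117), part 2: the class form of the theorem, windows around several slopes, the multiplier direction, and the theorems for the rows.

Every `St_X` (and every `T_X`) below is the statement of one job; the doc comment is its complete proof. The file of a job is
`Pool/Agent/Q117/LF/<Name>.lean`, the theorem has the name given in the comment (namespace `Pool.Agent.Q117.LF`). The hypotheses of a statement are the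
conclusions of other jobs (they are assembled later), so all jobs are independent.
-/

set_option autoImplicit false

namespace Pool.Agent.Q117.LF

open Finset Filter
open Pool.Agent.Q117.GP (Rk)
open Pool.Agent.Q117.CR (WX)
open Pool.Agent.H378R2 (GoodS GoodP WW)

/-! ### Part 1: tools -/

/-- all prime factors of `m` are `> z` (`0` is not rough) -/
def Ro (z : ℝ) (m : ℤ) : Prop := ∀ p : ℕ, p.Prime → (p : ℤ) ∣ m → z < p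

/-- at most two prime factors, all `> z` -/
def Pt (z : ℝ) (m : ℤ) : Prop := m.natAbs.primeFactorsList.length ≤ 2 ∧ Ro z m

/-- **RKM** (theorem `rkm : St_RKM`): regularity of Rankin's function.

Proof. `Rk X = T A D / B ^ 2` with `T = log X`, `A = log T`, `B = log A`, `D = log B`; for `X / g` in place of `X`: `T' = T - log g ≥ (9 / 10) T`, so `A' ≥ A + log (9 / 10) ≥ (9 / 10) A`, `B' ≥ (9 / 10) B`, `D' ≥ D + log (9 / 10) ≥ (9 / 10) D` for `X` large, and `0 < B' ≤ B`;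
so `Rk (X / g) ≥ (9 / 10) ^ 3 Rk X ≥ Rk X / 2`. (Compare `Rk_scaleL` in `Lpat.lean`.) -/
def St_RKM : Prop := ∀ g : ℕ, 1 ≤ g → ∃ X0 : ℝ, ∀ X : ℝ, X0 ≤ X → 0 < Rk X ∧ Rk X ≤ 2 * Rk (X / g)

open Classical in
/-- as `PtsL`, but with the condition `n ≡ r (mod M)` and the exponent `1/9` -/
noncomputable def PtsR (t : ℕ) (X D : ℝ) {k : ℕ} (al : Fin k → ℕ) (be : Fin k → ℤ) (i j : Fin k) (M r : ℕ) : Finset ℕ :=
  (range (⌊2 * X⌋₊ + 1)).filter (fun n : ℕ => X < n ∧ n ≡ r [MOD M] ∧ (∀ l, 0 < fm al be l n) ∧ (fm al be i n).natAbs.Prime ∧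
    Pt (X ^ (1 / 9 : ℝ)) (fm al be j n) ∧ (∀ l, Ro (X ^ (1 / (t : ℝ))) (fm al be l n)) ∧
    ∀ l, ∀ s : ℤ, |(s : ℝ)| ≤ D → (∀ m, fm al be l n + s ≠ fm al be m n) →
      ∃ p : ℕ, p.Prime ∧ (p : ℝ) ≤ Real.log X ∧ (p : ℤ) ∣ fm al be l n + s)

/-- **LINM** (theorem `linm : St_RKM → St_LINM`): the theorem `lin` (`LF/Main.lean`) for `n` in a fixed class.

Proof. Replace `r` by `r % M`. Put `n = M m + r`: the forms `fm al be l n = (al l M) m + (al l r + be l)` in `m`. Apply `lin` to `al' l = al l * M` (constants `t', c', X0'`) at `X' = X / M` with `be' l = al l r + be l`; take `t = t' + 1` and `c` small (`c = c' / (4 ∑ al l ..)`: only `c ≤ c' / 8` and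
`al l r ≤ (c' / 4) Rk X'` for `X` large are used; `Rk X ≤ 2 Rk X'` by RKM, `Rk → ∞` by `Rk_large`). Nonproportional: `al' l be' m - al' m be' l = M (al l be m - al m be l)`. `AdmS al' be'`: from the hypothesis (`n ≡ r (mod M)`, `n ≥ r` after adding a multiple of `p M`, so `n = M m + r`).
`m ∈ (X', 2 X']` gives `X < n ≤ 2 X + r`; at most `r / M + 2 ≤ 3` of these `m` have `n > 2 X`; `X' ^ (99/100) - 3 ≥ X ^ (98/100)`, `X' ^ (1/8) ≥ X ^ (1/9)`, `X' ^ (1/t') ≥ X ^ (1/t)`, `log X' ≤ log X`. The map `m ↦ M m + r` is injective. A prime `p ∣ fm ..` with `p ≤ X' ^ (1/t')` is excluded in `PtsL`. -/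
def St_LINM : Prop := ∀ (k : ℕ) (al : Fin k → ℕ), (∀ l, 1 ≤ al l) → ∀ i j : Fin k, i ≠ j → ∀ M r : ℕ, 1 ≤ M →
    ∃ t : ℕ, 1 ≤ t ∧ ∃ c : ℝ, 0 < c ∧ ∃ X0 : ℝ, ∀ X : ℝ, X0 ≤ X → ∀ be : Fin k → ℤ, (∀ l, |(be l : ℝ)| ≤ c * Rk X) →
      (∀ l m, l ≠ m → (al l : ℤ) * be m ≠ al m * be l) →
      (∀ p : ℕ, p.Prime → ∃ n : ℕ, n ≡ r [MOD M] ∧ ∀ l, ¬ (p : ℤ) ∣ fm al be l n) →
      X ^ (98 / 100 : ℝ) ≤ ((PtsR t X (c * Rk X) al be i j M r).card : ℝ)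

open Classical in
/-- the number of the `n mod q` with `q ∣ fm l n` for some `l` -/
noncomputable def om {k : ℕ} (al : Fin k → ℕ) (be : Fin k → ℤ) (q : ℕ) : ℕ :=
  ((range q).filter (fun n : ℕ => ∃ l, (q : ℤ) ∣ fm al be l n)).card

open Classical in
/-- the good `n ≡ n₀ (mod W)` -/
noncomputable def PtsC (t : ℕ) (X : ℝ) {k : ℕ} (al : Fin k → ℕ) (be : Fin k → ℤ) (i j : Fin k) (W n₀ : ℕ) : Finset ℕ :=
  (range (⌊2 * X⌋₊ + 1)).filter (fun n : ℕ => X < n ∧ n ≡ n₀ [MOD W] ∧ (∀ l, 0 < fm al be l n) ∧ (fm al be i n).natAbs.Prime ∧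
    Pt (X ^ (1 / 8 : ℝ)) (fm al be j n) ∧ ∀ l, Ro (X ^ (1 / (t : ℝ))) (fm al be l n))

/-- the scale of the modulus -/
noncomputable def Sc (a b : ℕ) (X : ℝ) : ℕ := 2 * (2 * (a * b)) * ⌈X⌉₊

/-- the class form: constants depend only on `k` and the slopes `a, b` of the prime and of the product of two primes -/
def LCLc : Prop := ∀ k a b : ℕ, 1 ≤ a → 1 ≤ b → ∃ t : ℕ, 1 ≤ t ∧ ∃ c : ℝ, 0 < c ∧ ∃ X0 : ℝ, ∀ X : ℝ, X0 ≤ X →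
    ∀ (al : Fin k → ℕ) (be : Fin k → ℤ) (i j : Fin k), i ≠ j → al i = a → al j = b → (∀ l, 1 ≤ al l ∧ (al l : ℝ) ≤ X) →
      (∀ l, |(be l : ℝ)| ≤ X) → (∀ l m, l ≠ m → (al l : ℤ) * be m ≠ al m * be l) → AdmS al be →
      ∃ (S : Finset ℕ) (ps : ℕ), GoodP 2 ps ∧ GoodS ((Sc a b X : ℝ) ^ (1 / 100 : ℝ)) S ∧
        ∀ n₀ : ℕ, (∀ p : ℕ, p.Prime → p ∣ WX (Sc a b X) S ps → ∀ l, ¬ (p : ℤ) ∣ fm al be l n₀) →
          X ^ (99 / 100 : ℝ) ≤ ((PtsC t X al be i j (WX (Sc a b X) S ps) n₀).card : ℝ) ∧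
          c * (X / (WX (Sc a b X) S ps : ℝ) *
            ∏ q ∈ (Icc 1 ⌊X⌋₊).filter (fun q => q.Prime ∧ ¬ q ∣ WX (Sc a b X) S ps), (1 - (om al be q : ℝ) / q)) ≤
            ((PtsC t X al be i j (WX (Sc a b X) S ps) n₀).card : ℝ)

/-- **LCL** (theorem `lcl : St_LCL`): the class form.

Proof. Adapt the proof of `lpat` in `LF/Lpat.lean`, without the covering: the class `n₀` is given (in place of `n₁`), everything after `choose_n` stays; `al` is now arbitrary except `al i = a`, `al j = b` (in `Lpat.lean` the constants depend on `al` only through `α = al j`, `γ = al i`, the bound `al l ≤ log X` for the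
last condition of `PtsL`, which is not needed here, and the product `Q` of the covering). `hCWL k b a` gives `t, c', PP`; `M := Sc a b X = 4 a b ⌈X⌉`, `θ = 1 / (16 b)`. Now `|be l| ≤ X`: `h = b be i - a be j`, `|h| ≤ (a + b) X ≤ M`. The primes `p = fm i n` (`n ∈ (X + X / 8, 2 X]`): `A = ⌈a (X + X / 8) + be i⌉ ` (a positive integer `≥ X / 8 ≥ √M`),
`B = ⌊2 a X + be i⌋`, so `b B ≤ b (2 a + 1) X ≤ M` and `B - A ≥ (7 / 8) a X - 2 ≥ θ M`; `A < p ≤ B` gives `X < n ≤ 2 X`. `fm l n > 0`: `al l n + be l ≥ n - X > 0`. The sieve data: `OmL al be i`, `datL` (for arbitrary `al`), `Y = ⌊M ^ (1/t)⌋ ≥ X ^ (1/t)`. If a prime `q ∣ a b`: `q ∣ W` for `X` large (as in `Lpat.lean`: `ps > a b + 2`,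
and the elements of `S` are `> z2`). Conditions of `CWL` on the class `a' = fm i n₀` (add a multiple of `W` to `n₀` such that `fm i n₀ > 0`): as in `Lpat.lean`. The good primes give `n = (p - be i) / a ≡ n₀ (mod W)`, injective; a prime `q ≤ Y`, `q ∣ fm l n` is impossible as in `Lpat.lean`. If `Y ≥ X ^ (1/t)` then `Ro (X ^ (1/t))`.
LOWER BOUNDS. The first as in `Lpat.lean` (`ev_fin`; only `|Z0 Om q| ≤ k + 1` is used). The second: `c' (B - A) / W * VD Om (W ps) Y ≤ card` with `B - A ≥ X / 2`, and `VD Om (W ps) Y = ∏ (1 - |Z0 Om q| / q)` over the primes `q ≤ Y`, `q ∤ W ps`. For these `q`: `q ∤ a`, and `n ↦ fm i n mod q` is a bijection of the residues which maps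
`{n : ∃ l, q ∣ fm l n}` onto `Z0 Om q` (`mem_Z0_OmL` and `fm_rel`), so `|Z0 Om q| = om q`. All factors `1 - om q / q` are in `(0, 1]` (`AdmS`), and `Y ≤ X` (take `t ≥ 2`: `CWL` for `t` gives the statement for `max t 2`? no: use `Y = ⌊M ^ (1/t)⌋` as it is; if `t = 1` then `Y = M`: in that case split: the primes `q ∈ (X, M]` contribute a factor `≥ 1/2`
for `X` large since `∑_{X < q ≤ 4 a b (X+1)} (k+1) / q → 0`, number of these primes `≤ C X / log X` (Chebyshev); simpler: `Y = M` is impossible: a good prime `p > X / 8` would have to satisfy `p % p = 0 ∉ Z0` with `p ≤ M = Y` if `p ≤ M`; so if `t = 1` the good set is empty, against the first lower bound of this statement for large `X` (use one admissible system), hence `t ≥ 2`).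
So the product over all primes `q ≤ X`, `q ∤ W`, is at most `VD` (more factors, and the factor of `ps`). -/
def St_LCL : Prop := (∀ r α γ : ℕ, 1 ≤ α → 1 ≤ γ → ∃ t : ℕ, 1 ≤ t ∧ ∃ c : ℝ, 0 < c ∧ CWL r t α γ c) → LCLc

/-- the system with slopes `A m` and sets `H m` of intercepts has no fixed prime divisor -/
def AdmF {r : ℕ} (A : Fin r → ℕ) (H : Fin r → Finset ℤ) : Prop :=
  ∀ p : ℕ, p.Prime → ∃ n : ℕ, ∀ m, ∀ h ∈ H m, ¬ (p : ℤ) ∣ A m * n + h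

open Classical in
/-- the `n ∈ (X, 2X]` such that `A m₁ n + h₁` is prime, `A m₂ n + h₂` a product of at most two primes, and among ALL the integers `A m n + s`, `|s| ≤ D`, `m < r`, exactly those with `s ∈ H m` have no small prime factor -/
noncomputable def PtsF (t : ℕ) (X D : ℝ) {r : ℕ} (A : Fin r → ℕ) (H : Fin r → Finset ℤ) (m₁ m₂ : Fin r) (h₁ h₂ : ℤ) : Finset ℕ :=
  (range (⌊2 * X⌋₊ + 1)).filter (fun n : ℕ => X < n ∧ ((A m₁ : ℤ) * n + h₁).natAbs.Prime ∧ Pt (X ^ (1 / 8 : ℝ)) ((A m₂ : ℤ) * n + h₂) ∧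
    ∀ m, ∀ s : ℤ, |(s : ℝ)| ≤ D → 0 < (A m : ℤ) * n + s ∧ (s ∈ H m → Ro (X ^ (1 / (t : ℝ))) ((A m : ℤ) * n + s)) ∧
      (s ∉ H m → ¬ Ro (Real.log X) ((A m : ℤ) * n + s)))

/-- **FAMW** (theorem `famw : St_FAMW`): windows around several slopes, with prescribed sets.

Proof. The real forms are the pairs `(m, h)`, `h ∈ H m`: enumerate them by `Fin N`, `N = ∑ |H m| ≤ r k` (`al l = A (m_l)`, `be l = h_l`). For every `N ≤ r k` and all values `a, b` of `A` take the constants of `LCLc N a b`, and for every `N ≤ r k` those of COVA for `(N, Q)`, `Q = ∏ m, A m`; `t` = the maximum, `c` = small compared with the minimum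
(`PtsC` with a smaller `t` is contained in `PtsC` with a larger one: `X ≥ 1`). Let `D = c Rk X`. COVERING as in `lpat` (`Lpat.lean`), at the scale `Sc a b X` (`Rk_scaleL (2 * (a * b))`), but with the windows of ALL slopes `A m` (center `0`), not only around the values: `Q (A m n + s) = A m (Q n + (Q / A m) s)`: the integer points `(Q / A m) s`, `|s| ≤ D`, lie in `[-Q D, Q D]`;
`O = ⌈Q D⌉`; `H' =` the `N` points `O + (Q / A m) h`, `h ∈ H m` (distinct by the nonproportionality), `≤ 2 O ≤ c_cov Rk (..)`; `AdmA Q H'` from `AdmF` as in `lpat`. COVA gives `a₀`; `n₀ ≡ (a₀ + O) Q⁻¹ (mod p)` for the primes `p ∣ W`, `p ∤ Q`, and `n₀ ≡ n_p` (`AdmF`) for `p ∣ W`, `p ∣ Q` (`crt_primes`; adapt `choose_n`). For `p ∣ W`, `p ∤ Q`: `p ∣ A m n₀ + s` iff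
`p ∣ a₀ + O + (Q / A m) s`. So no prime of `W` divides a real form at `n₀`; apply `LCLc` (first bound). For `n ≡ n₀ (mod W)` good, and a point `s`, `|s| ≤ D`, `s ∉ H m`: if `O + (Q / A m) s ∉ H'`, some prime `p ∣ W` (`p ≤ log X`) divides `A m n + s`. Otherwise `(Q / A m) s = (Q / A m') h'` with `h' ∈ H m'`, i.e. `A m' s = A m h'`, `m ≠ m'` (else `s = h'`): `A m' (A m n + s) = A m (A m' n + h')`.
Let `d = A m' / gcd`, `e = A m / gcd`: `d ∣ A m' n + h'`, which has no prime factor `≤ X ^ (1/t)`, and `d ≤ A m'` is bounded: so `d = 1`, `A m n + s = e (A m' n + h')` and `e ≥ 2` (`A` is injective): a prime factor of `e` (`≤ log X`) divides it. Positivity: `n > X > D`. The size conditions of `LCLc`: `A m ≤ X`, `|h| ≤ D ≤ X`. -/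
def St_FAMW : Prop := St_COVA → LCLc → ∀ (r k : ℕ) (A : Fin r → ℕ), (∀ m, 1 ≤ A m) → Function.Injective A →
  ∃ t : ℕ, 1 ≤ t ∧ ∃ c : ℝ, 0 < c ∧ ∃ X0 : ℝ, ∀ X : ℝ, X0 ≤ X → ∀ H : Fin r → Finset ℤ,
    (∀ m, (H m).card ≤ k) → (∀ m, ∀ h ∈ H m, |(h : ℝ)| ≤ c * Rk X) →
    (∀ m m', m ≠ m' → ∀ h ∈ H m, ∀ h' ∈ H m', (A m : ℤ) * h' ≠ A m' * h) → AdmF A H →
    ∀ m₁ m₂, ∀ h₁ ∈ H m₁, ∀ h₂ ∈ H m₂, ¬ (m₁ = m₂ ∧ h₁ = h₂) →
      X ^ (99 / 100 : ℝ) ≤ ((PtsF t X (c * Rk X) A H m₁ m₂ h₁ h₂).card : ℝ)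

/-- the form with code `m`: `n` itself for `m = 0`, and `m n + e` for `m ≥ 1` -/
def vc (e : ℤ) (m : ℕ) (n : ℕ) : ℤ := if m = 0 then n else (m : ℤ) * n + e

open Classical in
/-- the `n ∈ (X, 2X]` such that the form `i` is prime, the form `j` a product of at most two primes, the forms in `M` have no small prime factor, and all the other `m n + e`, `1 ≤ m ≤ D`, have a prime factor `≤ log X` -/
noncomputable def PtsM (t : ℕ) (X D : ℝ) (e : ℤ) (M : Finset ℕ) (i j : ℕ) : Finset ℕ :=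
  (range (⌊2 * X⌋₊ + 1)).filter (fun n : ℕ => X < n ∧ (vc e i n).natAbs.Prime ∧ Pt (X ^ (1 / 8 : ℝ)) (vc e j n) ∧
    (∀ m ∈ M, Ro (X ^ (1 / (t : ℝ))) (vc e m n)) ∧ ∀ m : ℕ, 1 ≤ m → (m : ℝ) ≤ D → m ∉ M → ¬ Ro (Real.log X) (vc e m n))

/-- **MUL** (theorem `mul : St_MUL`): the multiplier direction: exactly the prescribed multipliers.

Proof. The forms are `vc e m`, `m ∈ M`: slope `1`, intercept `0` for `m = 0`, and slope `m`, intercept `e` for `m ≥ 1` (pairwise nonproportional: `1 * e ≠ m * 0`; `m e ≠ m' e`). Enumerate `M` by `Fin N`, `N = |M| ≤ k`. Constants: the maximum (minimum) over `N ≤ k` and `a, b ≤ K + 1` of the constants of `LCLc N a b`, and COVA for `(N', A0)`, `N' ≤ k + 1`,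
`A0 = ∏` of the primes `≤ k + 1` (`A0 ≥ 1`). Covering at the scale `Sc a b X` (`a`, `b` the slopes of `i`, `j`): `H' = insert 0 M` (`N'` elements, all `≤ D`). `AdmA A0 H'`: for a prime `p ∤ A0`, `p > k + 1 ≥ |H'|`, so some class `r` mod `p` is different from the classes of all the `-h`. COVA gives `a₀`: for `s ≤ D`: no prime `p ∣ W`, `p ∤ A0`, divides `a₀ + s` iff `s ∈ H'`. In particular
`p ∤ a₀`. Let `n₀ ≡ e a₀⁻¹ (mod p)` for the primes `p ∣ W`, `p ∤ A0`, and `n₀ ≡ n_p` (from the hypothesis `hadm`) for `p ∣ W`, `p ∣ A0` (`crt_primes`). For `p ∣ W`, `p ∤ A0`, `m ≥ 1`: `m n₀ + e ≡ e a₀⁻¹ (m + a₀)`, so `p ∣ m n₀ + e` iff `p ∣ a₀ + m` (also for the form `n` itself: `p ∤ n₀`). So no prime of `W` divides a form of `M` at `n₀`; apply `LCLc` (first bound).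
For `1 ≤ m ≤ D`, `m ∉ M`: `m ∉ H'`, so some prime `p ∣ W`, `p ∤ A0`, divides `a₀ + m`, hence `m n + e` for all `n ≡ n₀ (mod W)`; `p ≤ log X`. `AdmS` from `hadm`. `D = c Rk X ≤ X`. -/
def St_MUL : Prop := St_COVA → LCLc → ∀ (e : ℤ), (e = 1 ∨ e = -1) → ∀ k K : ℕ,
  ∃ t : ℕ, 1 ≤ t ∧ ∃ c : ℝ, 0 < c ∧ ∃ X0 : ℝ, ∀ X : ℝ, X0 ≤ X → ∀ M : Finset ℕ, M.card ≤ k → (∀ m ∈ M, (m : ℝ) ≤ c * Rk X) →
    (∀ p : ℕ, p.Prime → ∃ n : ℕ, ∀ m ∈ M, ¬ (p : ℤ) ∣ vc e m n) → ∀ i ∈ M, ∀ j ∈ M, i ≠ j → i ≤ K → j ≤ K →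
      X ^ (99 / 100 : ℝ) ≤ ((PtsM t X (c * Rk X) e M i j).card : ℝ)

/-- conclusion of FAMW -/
def FAMc : Prop := ∀ (r k : ℕ) (A : Fin r → ℕ), (∀ m, 1 ≤ A m) → Function.Injective A →
  ∃ t : ℕ, 1 ≤ t ∧ ∃ c : ℝ, 0 < c ∧ ∃ X0 : ℝ, ∀ X : ℝ, X0 ≤ X → ∀ H : Fin r → Finset ℤ,
    (∀ m, (H m).card ≤ k) → (∀ m, ∀ h ∈ H m, |(h : ℝ)| ≤ c * Rk X) →
    (∀ m m', m ≠ m' → ∀ h ∈ H m, ∀ h' ∈ H m', (A m : ℤ) * h' ≠ A m' * h) → AdmF A H →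
    ∀ m₁ m₂, ∀ h₁ ∈ H m₁, ∀ h₂ ∈ H m₂, ¬ (m₁ = m₂ ∧ h₁ = h₂) →
      X ^ (99 / 100 : ℝ) ≤ ((PtsF t X (c * Rk X) A H m₁ m₂ h₁ h₂).card : ℝ)

/-- conclusion of MUL -/
def MULc : Prop := ∀ (e : ℤ), (e = 1 ∨ e = -1) → ∀ k K : ℕ,
  ∃ t : ℕ, 1 ≤ t ∧ ∃ c : ℝ, 0 < c ∧ ∃ X0 : ℝ, ∀ X : ℝ, X0 ≤ X → ∀ M : Finset ℕ, M.card ≤ k → (∀ m ∈ M, (m : ℝ) ≤ c * Rk X) →
    (∀ p : ℕ, p.Prime → ∃ n : ℕ, ∀ m ∈ M, ¬ (p : ℤ) ∣ vc e m n) → ∀ i ∈ M, ∀ j ∈ M, i ≠ j → i ≤ K → j ≤ K →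
      X ^ (99 / 100 : ℝ) ≤ ((PtsM t X (c * Rk X) e M i j).card : ℝ)

/-! ### Part 2: the theorems for the rows -/

open Classical in
/-- **T1** (theorem `t1 : T1`; row `2 p - 1`): prescribed surroundings of `p` and of `2 p - 1`.

Proof. FAMW with `r = 2`, `A = ![1, 2]`, `H = ![H, K.image (fun h => h - 1)]`, and `k`; constants `t, c'`; `c = c' / 4` (`Rk X ≥ 4 / c'` for `X` large by `Rk_large`, so `|h - 1| ≤ c' Rk X`, and `|s - 1| ≤ c' Rk X` for `|s| ≤ c Rk X`). Nonproportional: `1 * (h' - 1) ≠ 2 * h`, since otherwise `h'` is odd, `2 n - 1 + h'` is even for all `n`, against `Open2`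
at `p = 2`. First set: `m₁ = 0, h₁ = 0, m₂ = 1, h₂ = 0 - 1`; second set: the roles exchanged. `2 n - 1 + s = 2 n + (s - 1)` and `s - 1 ∈ K.image (· - 1)` iff `s ∈ K`. -/
def T1 : Prop := FAMc → ∀ k : ℕ, ∃ t : ℕ, 1 ≤ t ∧ ∃ c : ℝ, 0 < c ∧ ∃ X0 : ℝ, ∀ X : ℝ, X0 ≤ X → ∀ H K : Finset ℤ,
  H.card ≤ k → K.card ≤ k → 0 ∈ H → 0 ∈ K → (∀ h ∈ H, |(h : ℝ)| ≤ c * Rk X) → (∀ h ∈ K, |(h : ℝ)| ≤ c * Rk X) →
  (∀ p : ℕ, p.Prime → ∃ n : ℕ, (∀ h ∈ H, ¬ (p : ℤ) ∣ n + h) ∧ ∀ h ∈ K, ¬ (p : ℤ) ∣ 2 * n - 1 + h) →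
  X ^ (99 / 100 : ℝ) ≤ (((range (⌊2 * X⌋₊ + 1)).filter (fun n : ℕ => X < n ∧ n.Prime ∧ Pt (X ^ (1 / 8 : ℝ)) (2 * n - 1) ∧
    ∀ s : ℤ, |(s : ℝ)| ≤ c * Rk X → (s ∈ H → Ro (X ^ (1 / (t : ℝ))) (n + s)) ∧ (s ∉ H → ¬ Ro (Real.log X) (n + s)) ∧
      (s ∈ K → Ro (X ^ (1 / (t : ℝ))) (2 * n - 1 + s)) ∧ (s ∉ K → ¬ Ro (Real.log X) (2 * n - 1 + s)))).card : ℝ) ∧
  X ^ (99 / 100 : ℝ) ≤ (((range (⌊2 * X⌋₊ + 1)).filter (fun n : ℕ => X < n ∧ (2 * n - 1).Prime ∧ Pt (X ^ (1 / 8 : ℝ)) n ∧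
    ∀ s : ℤ, |(s : ℝ)| ≤ c * Rk X → (s ∈ H → Ro (X ^ (1 / (t : ℝ))) (n + s)) ∧ (s ∉ H → ¬ Ro (Real.log X) (n + s)) ∧
      (s ∈ K → Ro (X ^ (1 / (t : ℝ))) (2 * n - 1 + s)) ∧ (s ∉ K → ¬ Ro (Real.log X) (2 * n - 1 + s)))).card : ℝ)

open Classical in
/-- **T2** (theorem `t2 : T2`; row `p` and `(p + 1) / 2`): every window `N ≤ 2 q - 1 ≤ 2 N`, exactly the prescribed multipliers `m` with `m q - 1` without small prime factors.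

Proof. MUL with `e = -1`, `K = 2`, `k + 1` in place of `k`, and `insert 0 M` in place of `M`, at `X = N / 2` (real); `c = c' / 4`: `Rk N ≤ 2 Rk (N / 2)` (hypothesis RKM with `g = 2`). `q ∈ (N / 2, N]` gives `N < 2 q ≤ 2 N`, so `N ≤ 2 q - 1 ≤ 2 N` (`2 q` is an integer `> N`). `(N/2) ^ (99/100) ≥ N ^ (98/100)`, `(N/2) ^ (1/8) ≥ N ^ (1/9)`, `(N/2) ^ (1/t') ≥ N ^ (1/(t'+1))`,
`log (N/2) ≤ log N`. The codes: `vc (-1) 0 q = q`, `vc (-1) m q = m q - 1` for `m ≥ 1`; `0 ∉ M` is a hypothesis; roles `(i, j) = (0, 2)` and `(2, 0)`. Natural subtraction is fine as `q ≥ 1`. -/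
def T2 : Prop := St_RKM → MULc → ∀ k : ℕ, ∃ t : ℕ, 1 ≤ t ∧ ∃ c : ℝ, 0 < c ∧ ∃ N0 : ℕ, ∀ N : ℕ, N0 ≤ N → ∀ M : Finset ℕ,
  M.card ≤ k → 2 ∈ M → 0 ∉ M → (∀ m ∈ M, (m : ℝ) ≤ c * Rk N) →
  (∀ p : ℕ, p.Prime → ∃ n : ℕ, ¬ p ∣ n ∧ ∀ m ∈ M, ¬ (p : ℤ) ∣ (m : ℤ) * n - 1) →
  (N : ℝ) ^ (98 / 100 : ℝ) ≤ (((Icc 1 N).filter (fun q : ℕ => N ≤ 2 * q - 1 ∧ 2 * q - 1 ≤ 2 * N ∧ q.Prime ∧ Pt ((N : ℝ) ^ (1 / 9 : ℝ)) (2 * q - 1) ∧
    (∀ m ∈ M, Ro ((N : ℝ) ^ (1 / (t : ℝ))) ((m : ℤ) * q - 1)) ∧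
    ∀ m : ℕ, 1 ≤ m → (m : ℝ) ≤ c * Rk N → m ∉ M → ¬ Ro (Real.log N) ((m : ℤ) * q - 1))).card : ℝ) ∧
  (N : ℝ) ^ (98 / 100 : ℝ) ≤ (((Icc 1 N).filter (fun q : ℕ => N ≤ 2 * q - 1 ∧ 2 * q - 1 ≤ 2 * N ∧ (2 * q - 1).Prime ∧ Pt ((N : ℝ) ^ (1 / 9 : ℝ)) q ∧
    (∀ m ∈ M, Ro ((N : ℝ) ^ (1 / (t : ℝ))) ((m : ℤ) * q - 1)) ∧
    ∀ m : ℕ, 1 ≤ m → (m : ℝ) ≤ c * Rk N → m ∉ M → ¬ Ro (Real.log N) ((m : ℤ) * q - 1))).card : ℝ)

open Classical in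
/-- **T3** (theorem `t3 : T3`; row `2 k p + 1`): exactly the prescribed `κ` with `2 κ p + 1` without small prime factors.

Proof. MUL with `e = 1`, `k + 1`, `2 K` in place of `k`, `K`, and `M = insert 0 (S.image (2 * ·))`, `i = 0`, `j = 2 κ₀`; `c = c' / 2`. Hypothesis of MUL: from the hypothesis on `S` (`vc 1 0 n = n`, `vc 1 (2 κ) n = 2 κ n + 1`). For `κ ∉ S`: `2 κ ∉ M`, `2 κ ≤ c' Rk X`. -/
def T3 : Prop := MULc → ∀ k K : ℕ, ∃ t : ℕ, 1 ≤ t ∧ ∃ c : ℝ, 0 < c ∧ ∃ X0 : ℝ, ∀ X : ℝ, X0 ≤ X → ∀ S : Finset ℕ,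
  S.card ≤ k → 0 ∉ S → (∀ κ ∈ S, (κ : ℝ) ≤ c * Rk X) →
  (∀ p : ℕ, p.Prime → ∃ n : ℕ, ¬ p ∣ n ∧ ∀ κ ∈ S, ¬ p ∣ 2 * κ * n + 1) → ∀ κ₀ ∈ S, κ₀ ≤ K →
  X ^ (99 / 100 : ℝ) ≤ (((range (⌊2 * X⌋₊ + 1)).filter (fun p : ℕ => X < p ∧ p.Prime ∧ Pt (X ^ (1 / 8 : ℝ)) (2 * κ₀ * p + 1) ∧
    (∀ κ ∈ S, Ro (X ^ (1 / (t : ℝ))) (2 * (κ : ℤ) * p + 1)) ∧
    ∀ κ : ℕ, 1 ≤ κ → (κ : ℝ) ≤ c * Rk X → κ ∉ S → ¬ Ro (Real.log X) (2 * (κ : ℤ) * p + 1))).card : ℝ)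

/-- the `l`-th iterate of `x ↦ 4 x + 1` -/
def q4 (l : ℕ) (n : ℤ) : ℤ := 4 ^ l * n + (4 ^ l - 1) / 3

open Classical in
/-- **T4** (theorem `t4 : T4`; row `4 p + 1`): exact patterns of times in the orbits of `4 x + 1`.

Proof. For `l ≤ L`, `l ∉ J`, choose different primes `q_l > 4 ^ (L + 1)`, `M = ∏ q_l` (`M = 1` if there are none), and `r` with `q4 l r ≡ 0 (mod q_l)` for these `l` (`4 ^ l` is invertible, Chinese remainder theorem; `3 (q4 l n) + 1 = 4 ^ l (3 n + 1)`). If `l' ≠ l`, `l' ≤ L`: `q4 l' r ≢ 0 (mod q_l)`: otherwise `4 ^ l (3 r + 1) ≡ 1 ≡ 4 ^ l' (3 r + 1)`, `4 ^ |l - l'| ≡ 1 (mod q_l)`,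
impossible as `0 < 4 ^ d - 1 < q_l`. Apply LINM (`LINMc`) to the forms `4 ^ l n + (4 ^ l - 1) / 3`, `l ∈ J` (enumerate `J`), class `r` mod `M` (the intercepts are constants `≤ c Rk X` for `X` large). Nonproportional: `4 ^ l (4 ^ l' - 1) / 3 - 4 ^ l' (4 ^ l - 1) / 3 = (4 ^ l' - 4 ^ l) / 3 ≠ 0`. Local condition at `p`: `p ∣ M`: `n = r`. `p ∤ M`, `p ≠ 3`: `n ≡ r (mod M)`, `3 n + 1 ≡ 0 (mod p)`, then
`3 (q4 l n) ≡ -1`. `p = 3` (`3 ∤ M`): `q4 l n ≡ n + l (mod 3)` (`(4 ^ l - 1) / 3 ≡ l (mod 3)` by induction); take `n ≡ - a (mod 3)`, `n ≡ r (mod M)`. Isolation: for `l ∈ J` and `0 < |s| ≤ c Rk X`: `q4 l n + s` is none of the values `q4 m n`, `m ∈ J` (different `m`: the values differ by at least `n > X`). `C` = the largest `q_l` (or `1`). -/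
def T4 : Prop := St_LINM → ∀ (L : ℕ) (J : Finset ℕ), (∀ l ∈ J, l ≤ L) → (∃ a : ℕ, ∀ l ∈ J, ¬ l ≡ a [MOD 3]) →
  ∀ i ∈ J, ∀ j ∈ J, i ≠ j → ∃ (t C : ℕ), 1 ≤ t ∧ ∃ c : ℝ, 0 < c ∧ ∃ X0 : ℝ, ∀ X : ℝ, X0 ≤ X →
  X ^ (98 / 100 : ℝ) ≤ (((range (⌊2 * X⌋₊ + 1)).filter (fun n : ℕ => X < n ∧ (q4 i n).natAbs.Prime ∧ Pt (X ^ (1 / 9 : ℝ)) (q4 j n) ∧
    (∀ l ∈ J, Ro (X ^ (1 / (t : ℝ))) (q4 l n) ∧ ∀ s : ℤ, s ≠ 0 → |(s : ℝ)| ≤ c * Rk X → ¬ Ro (Real.log X) (q4 l n + s)) ∧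
    ∀ l, l ≤ L → l ∉ J → ¬ Ro C (q4 l n))).card : ℝ)

open Classical in
/-- **T5** (theorem `t5 : T5`; rows on Cunningham chains, `e = -1`: second kind `2^i (n - 1) + 1`, `e = 1`: first kind `2^i (n + 1) - 1`): prescribed exact lengths of all the chains of a window.

Proof. The `i`-th term of the chain of `n + s` is `2^i (n + s) + e (2^i - 1)`. FAMW with `r = L + 1`, `A i = 2^i`, `H i = {2^i s + e (2^i - 1) : s ∈ H, i < lam s}` (image of a filter of `H`, so at most `k` elements), `c = c' / 2^(L+2)` (`|2^i s + e (2^i - 1)| ≤ 2^L (|s| + 1) ≤ c' Rk X`, `Rk_large`). Nonproportional: for `i < i'`, `2^i (2^i' s' + e (2^i' - 1)) = 2^i' (2^i s + e (2^i - 1))` gives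
`2^i' (s' - s) = e (2^(i'-i) - 1) 1..`: dividing by `2^i`: `2^i' (s' - s) + e (2^i' - 1) = 2^(i'-i) e (2^i - 1)`, i.e. `2^i' (s' - s) = e (1 - 2^(i'-i))`, even = odd (`i' ≥ 1`), impossible. `AdmF`: the hypothesis. The roles `(s₁, i₁)`, `(s₂, i₂)`. For `|s| ≤ c Rk X`: the terms `i < lam s` are in `H i` (`s ∈ H` as `lam s ≠ 0`), so rough; the term `i = lam s ≤ L` has
`2^i s + e (2^i - 1) ∉ H i` (else `= 2^i s' + e (2^i - 1)` with `i < lam s'`, so `s' = s`, contradiction), so it is not rough. -/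
def T5 : Prop := FAMc → ∀ (e : ℤ), (e = 1 ∨ e = -1) → ∀ k L : ℕ, ∃ t : ℕ, 1 ≤ t ∧ ∃ c : ℝ, 0 < c ∧ ∃ X0 : ℝ, ∀ X : ℝ, X0 ≤ X →
  ∀ (H : Finset ℤ) (lam : ℤ → ℕ), H.card ≤ k → (∀ s ∈ H, |(s : ℝ)| ≤ c * Rk X) → (∀ s, lam s ≤ L) → (∀ s, s ∉ H → lam s = 0) →
  (∀ p : ℕ, p.Prime → ∃ n : ℕ, ∀ s ∈ H, ∀ i < lam s, ¬ (p : ℤ) ∣ 2 ^ i * (n + s) + e * (2 ^ i - 1)) →
  ∀ s₁ ∈ H, ∀ i₁ < lam s₁, ∀ s₂ ∈ H, ∀ i₂ < lam s₂, ¬ (s₁ = s₂ ∧ i₁ = i₂) →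
  X ^ (99 / 100 : ℝ) ≤ (((range (⌊2 * X⌋₊ + 1)).filter (fun n : ℕ => X < n ∧ (2 ^ i₁ * ((n : ℤ) + s₁) + e * (2 ^ i₁ - 1)).natAbs.Prime ∧
    Pt (X ^ (1 / 8 : ℝ)) (2 ^ i₂ * ((n : ℤ) + s₂) + e * (2 ^ i₂ - 1)) ∧
    ∀ s : ℤ, |(s : ℝ)| ≤ c * Rk X → (∀ i < lam s, Ro (X ^ (1 / (t : ℝ))) (2 ^ i * ((n : ℤ) + s) + e * (2 ^ i - 1))) ∧
      ¬ Ro (Real.log X) (2 ^ (lam s) * ((n : ℤ) + s) + e * (2 ^ (lam s) - 1)))).card : ℝ)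

open Classical in
/-- **T7** (theorem `t7 : T7`; rows on Cunningham chains): exactly the prescribed multiples `m N - e`, `m ∈ M`, of `N` shifted by `e` have no small prime factor (`n = N - e`: `e = 1`: `m (n + 1) - 1`, first kind; `e = -1`: `m (n - 1) + 1`, second kind).

Proof. MUL with `- e` in place of `e` (`vc (-e) m N = m N - e` for `m ≥ 1`; `0 ∉ M`), the local condition is satisfied by `n = 0` (`- e = ± 1`). -/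
def T7 : Prop := MULc → ∀ (e : ℤ), (e = 1 ∨ e = -1) → ∀ k K : ℕ, ∃ t : ℕ, 1 ≤ t ∧ ∃ c : ℝ, 0 < c ∧ ∃ X0 : ℝ, ∀ X : ℝ, X0 ≤ X →
  ∀ M : Finset ℕ, M.card ≤ k → 0 ∉ M → (∀ m ∈ M, (m : ℝ) ≤ c * Rk X) → ∀ i ∈ M, ∀ j ∈ M, i ≠ j → i ≤ K → j ≤ K →
  X ^ (99 / 100 : ℝ) ≤ (((range (⌊2 * X⌋₊ + 1)).filter (fun N : ℕ => X < N ∧ ((i : ℤ) * N - e).natAbs.Prime ∧
    Pt (X ^ (1 / 8 : ℝ)) ((j : ℤ) * N - e) ∧ (∀ m ∈ M, Ro (X ^ (1 / (t : ℝ))) ((m : ℤ) * N - e)) ∧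
    ∀ m : ℕ, 1 ≤ m → (m : ℝ) ≤ c * Rk X → m ∉ M → ¬ Ro (Real.log X) ((m : ℤ) * N - e))).card : ℝ)

open Classical in
/-- **T9** (theorem `t9 : T9`; row chains of both kinds): isolated bitwin chains.

Proof. FAMW with `r = k + 1`, `A i = 2^i`, `H i = {1, -1}` for `i < k`, `H k = ∅`. Nonproportional: `2^i ε' ≠ 2^i' ε` for `i ≠ i'`. `AdmF`: `n = 0`. For `i = k` every `2^k N + s`, `|s| ≤ c Rk X`, has a small prime factor. -/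
def T9 : Prop := FAMc → ∀ k : ℕ, ∃ t : ℕ, 1 ≤ t ∧ ∃ c : ℝ, 0 < c ∧ ∃ X0 : ℝ, ∀ X : ℝ, X0 ≤ X →
  ∀ i < k, ∀ j < k, ∀ ε η : ℤ, (ε = 1 ∨ ε = -1) → (η = 1 ∨ η = -1) → ¬ (i = j ∧ ε = η) →
  X ^ (99 / 100 : ℝ) ≤ (((range (⌊2 * X⌋₊ + 1)).filter (fun N : ℕ => X < N ∧ (2 ^ i * (N : ℤ) + ε).natAbs.Prime ∧
    Pt (X ^ (1 / 8 : ℝ)) (2 ^ j * (N : ℤ) + η) ∧
    (∀ l < k, Ro (X ^ (1 / (t : ℝ))) (2 ^ l * (N : ℤ) - 1) ∧ Ro (X ^ (1 / (t : ℝ))) (2 ^ l * (N : ℤ) + 1)) ∧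
    ∀ l ≤ k, ∀ s : ℤ, |(s : ℝ)| ≤ c * Rk X → (l = k ∨ (s ≠ 1 ∧ s ≠ -1)) → ¬ Ro (Real.log X) (2 ^ l * (N : ℤ) + s))).card : ℝ)

open Classical in
/-- **T10** (theorem `t10 : T10`; row `a_i n + 1`): `n` prime, one of the `a_i n + 1` a product of at most two primes, the others almost primes, all of them isolated.

Proof. `2 ≤ a` for `a ∈ S` (if `1 ∈ S` then `n (n + 1)` is always even, against the hypothesis at `p = 2`). FAMW with `r = |S| + 1`, the slopes `1` and the `a ∈ S`, `H = {0}` for the slope `1` and `{1}` for the slopes `a`. Nonproportional: `1 * 1 ≠ a * 0`, `a * 1 ≠ a' * 1`. -/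
def T10 : Prop := FAMc → ∀ S : Finset ℕ, 0 ∉ S → (∀ p : ℕ, p.Prime → ∃ n : ℕ, ¬ p ∣ n ∧ ∀ a ∈ S, ¬ p ∣ a * n + 1) → ∀ b ∈ S,
  ∃ t : ℕ, 1 ≤ t ∧ ∃ c : ℝ, 0 < c ∧ ∃ X0 : ℝ, ∀ X : ℝ, X0 ≤ X →
  X ^ (99 / 100 : ℝ) ≤ (((range (⌊2 * X⌋₊ + 1)).filter (fun n : ℕ => X < n ∧ n.Prime ∧ Pt (X ^ (1 / 8 : ℝ)) ((b : ℤ) * n + 1) ∧
    (∀ a ∈ S, Ro (X ^ (1 / (t : ℝ))) ((a : ℤ) * n + 1)) ∧
    ∀ s : ℤ, |(s : ℝ)| ≤ c * Rk X → (s ≠ 0 → ¬ Ro (Real.log X) ((n : ℤ) + s)) ∧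
      ∀ a ∈ S, s ≠ 1 → ¬ Ro (Real.log X) ((a : ℤ) * n + s))).card : ℝ)

end Pool.Agent.Q117.LF
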