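import Pool.Agent.Q117.LF.Main2
import Pool.Agent.Q117.CR.Size

/-!
Project LF (helper117), part 3: Chen's theorem in systems of linear forms with large intercepts, the right order of magnitude, every class of every
divisor of the modulus, and isolated values when the values of the forms are far apart (Goldbach).

Every `St_X` below is the statement of one job; the doc comment is its complete proof. The file of a job is `Pool/Agent/Q117/LF/<Name>.lean`, the theorem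
has the name given in the comment (namespace `Pool.Agent.Q117.LF`). The hypotheses of a statement are the conclusions of other jobs (they are assembled
later), so all jobs are independent.
-/

set_option autoImplicit false

namespace Pool.Agent.Q117.LF

open Finset Filter
open Pool.Agent.Q117.GP (Rk)
open Pool.Agent.Q117.CR (WX)
open Pool.Agent.H378R2 (GoodS GoodP WW)

/-! ### Part 1: the class form for intercepts up to `K X` -/

open Classical in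
/-- the good `n ≡ n₀ (mod W)` in the window `(X, X + X / K]`: the form `i` is a (positive) prime, the form `j` (of any sign) has at most two prime factors, all `> X ^ (1/8)`, all the forms are rough -/
noncomputable def PtsK (t K : ℕ) (X : ℝ) {k : ℕ} (al : Fin k → ℕ) (be : Fin k → ℤ) (i j : Fin k) (W n₀ : ℕ) : Finset ℕ :=
  (range (⌊2 * X⌋₊ + 1)).filter (fun n : ℕ => X < n ∧ (n : ℝ) ≤ X + X / K ∧ n ≡ n₀ [MOD W] ∧ 0 < fm al be i n ∧ (fm al be i n).natAbs.Prime ∧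
    Pt (X ^ (1 / 8 : ℝ)) (fm al be j n) ∧ ∀ l, Ro (X ^ (1 / (t : ℝ))) (fm al be l n))

/-- the scale of the modulus -/
noncomputable def Sk (a b K : ℕ) (X : ℝ) : ℕ := 2 * (2 * (a * b * K)) * ⌈X⌉₊

/-- the class form: constants depend only on `k`, `K` and the slopes `a, b` of the prime and of the product of two primes; the window is `(X, X + X / K]`, the intercepts are at most `K X`, and the form `i` is at least `X / K` on the window -/
def LCKc : Prop := ∀ k a b K : ℕ, 1 ≤ a → 1 ≤ b → 1 ≤ K → ∃ t : ℕ, 1 ≤ t ∧ ∃ c : ℝ, 0 < c ∧ ∃ X0 : ℝ, ∀ X : ℝ, X0 ≤ X →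
    ∀ (al : Fin k → ℕ) (be : Fin k → ℤ) (i j : Fin k), i ≠ j → al i = a → al j = b → (∀ l, 1 ≤ al l ∧ (al l : ℝ) ≤ X) →
      (∀ l, |(be l : ℝ)| ≤ K * X) → X / K ≤ a * X + be i → (∀ l m, l ≠ m → (al l : ℤ) * be m ≠ al m * be l) → AdmS al be →
      ∃ (S : Finset ℕ) (ps : ℕ), GoodP 2 ps ∧ GoodS ((Sk a b K X : ℝ) ^ (1 / 100 : ℝ)) S ∧
        ∀ n₀ : ℕ, (∀ p : ℕ, p.Prime → p ∣ WX (Sk a b K X) S ps → ∀ l, ¬ (p : ℤ) ∣ fm al be l n₀) →
          X ^ (99 / 100 : ℝ) ≤ ((PtsK t K X al be i j (WX (Sk a b K X) S ps) n₀).card : ℝ) ∧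
          c * (X / (WX (Sk a b K X) S ps : ℝ) *
            ∏ q ∈ (Icc 1 ⌊X⌋₊).filter (fun q => q.Prime ∧ ¬ q ∣ WX (Sk a b K X) S ps), (1 - (om al be q : ℝ) / q)) ≤
            ((PtsK t K X al be i j (WX (Sk a b K X) S ps) n₀).card : ℝ)

/-- **LCK** (theorem `lck : St_LCK`): the class form with intercepts up to `K X`.

Proof. Adapt the proof of `lcl` in `LF/Lcl.lean` (the lemmas `card_Z0_le_om`, `prod_le_VD` of that file can be imported; only `sizesC` is replaced). The scale is `M = Sk a b K X = 4 a b K ⌈X⌉`; the primes `p = fm i n` are those of `(A, B]`, `A = ⌈a X + be i⌉`, `B = ⌊a (X + X / K) + be i⌋` (both are natural: `a X + be i ≥ X / K > 0`), so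
`X < n ≤ X + X / K ≤ 2 X`. Sizes for `X` large (depending on `a, b, K`): `h = b be i - a be j`, `|h| ≤ (a + b) K X ≤ 2 a b K X ≤ M`; `b B ≤ b (2 a X + K X) ≤ 3 a b K X ≤ M`; `√M ≤ A` since `A ≥ X / K` and `(X / K + 1) ^ 2 > M`; `B - A ≥ a X / K - 2 ≥ X / (2 K)`, and `θ M ≤ B - A` with `θ = 1 / (16 b K ^ 2)`
(`θ M = a ⌈X⌉ / (4 K)`). `Y = ⌊M ^ (1/t)⌋ ≤ X` as in `lcl` (`t ≥ 2` by the same argument, `M ^ (1/2) ≤ X`). `fm i n > 0` because it is the prime `p`; there is no positivity condition on the other forms. Second lower bound: `B - A ≥ X / (2 K)` gives the constant `c / (2 K)`. First lower bound: `ev_fin` with `c * (2 * (1 / (16 b K ^ 2)))` as in `lcl`. -/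
def St_LCK : Prop := (∀ r α γ : ℕ, 1 ≤ α → 1 ≤ γ → ∃ t : ℕ, 1 ≤ t ∧ ∃ c : ℝ, 0 < c ∧ CWL r t α γ c) → LCKc

/-- **CRC** (theorem `crc : St_CRC`): the number of the admissible classes modulo a squarefree number in a class modulo a divisor.

Proof. Chinese remainder theorem: induction on the number of the primes of `W / q`, or the bijection `ZMod W ≃ ∏ ZMod p` (`ZMod.prodEquivPi`, `Nat.chineseRemainderOfFinset`). For a prime `p ∣ W`, `p ∤ q`, the condition at `p` excludes exactly the `om al be p` classes of `n₀` mod `p`; for a prime `p ∣ q` it holds because it holds for `u` and `n₀ ≡ u (mod p)`.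
(`p ∣ fm al be l n₀` depends only on `n₀ mod p`.) -/
def St_CRC : Prop := ∀ (k : ℕ) (al : Fin k → ℕ) (be : Fin k → ℤ) (W q u : ℕ), 1 ≤ W → Squarefree W → q ∣ W →
  (∀ p : ℕ, p.Prime → p ∣ q → ∀ l, ¬ (p : ℤ) ∣ fm al be l u) →
  ∀ G : Finset ℕ, (∀ n₀, n₀ ∈ G ↔ n₀ < W ∧ n₀ ≡ u [MOD q] ∧ ∀ p : ℕ, p.Prime → p ∣ W → ∀ l, ¬ (p : ℤ) ∣ fm al be l n₀) →
    (G.card : ℝ) = (W : ℝ) / q * ∏ p ∈ W.primeFactors.filter (fun p => ¬ p ∣ q), (1 - (om al be p : ℝ) / p)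

/-- conclusion of UNQ: for every divisor `q` of the modulus `W` and every admissible class `u` modulo `q` the right order of magnitude -/
def UNQc : Prop := ∀ k a b K : ℕ, 1 ≤ a → 1 ≤ b → 1 ≤ K → ∃ t : ℕ, 1 ≤ t ∧ ∃ c : ℝ, 0 < c ∧ ∃ X0 : ℝ, ∀ X : ℝ, X0 ≤ X →
    ∀ (al : Fin k → ℕ) (be : Fin k → ℤ) (i j : Fin k), i ≠ j → al i = a → al j = b → (∀ l, 1 ≤ al l ∧ (al l : ℝ) ≤ X) →
      (∀ l, |(be l : ℝ)| ≤ K * X) → X / K ≤ a * X + be i → (∀ l m, l ≠ m → (al l : ℤ) * be m ≠ al m * be l) → AdmS al be →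
      ∃ W : ℕ, Squarefree W ∧ X ^ (1 / 300000 : ℝ) ≤ W ∧ (∀ p : ℕ, p.Prime → p ∣ W → (p : ℝ) ≤ Real.log X) ∧
        ∀ q : ℕ, q ∣ W → ∀ u : ℕ, (∀ p : ℕ, p.Prime → p ∣ q → ∀ l, ¬ (p : ℤ) ∣ fm al be l u) →
          c * (X / (q : ℝ) * ∏ p ∈ (Icc 1 ⌊X⌋₊).filter (fun p => p.Prime ∧ ¬ p ∣ q), (1 - (om al be p : ℝ) / p)) ≤
            ((PtsK t K X al be i j q u).card : ℝ)

/-- **UNQ** (theorem `unq : St_CRC → LCKc → UNQc`): every class of every divisor.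

Proof. `W = WX (Sk a b K X) S ps` of `LCKc`: squarefree (a product of different primes: `WX` is `WW` at the scale `^ (1/100)`, a product over `PW`, see `H378R2/Defs.lean`), its size: `WX_size` (`CR/Size.lean`) at the scale `Sk a b K X ≥ X`; its primes are `≤ yy (.. ^ (1/100)) = ⌊log (Sk a b K X) / 100000⌋ ≤ log X` (`yy_scale`, `prime_dvd_WX`) for `X` large.
For `q ∣ W` and `u`: let `G` be the set of the `n₀ < W`, `n₀ ≡ u (mod q)`, admissible modulo all primes of `W` (as in `St_CRC`). The sets `PtsK .. W n₀`, `n₀ ∈ G`, are disjoint (different classes modulo `W`) and contained in `PtsK .. q u` (`q ∣ W`, `n ≡ n₀ ≡ u (mod q)`). So `|PtsK .. q u| ≥ ∑_{n₀ ∈ G} |PtsK .. W n₀| ≥ |G| c (X / W) ∏_{p ≤ X, p ∤ W} (1 - om p / p)`, and by `St_CRC`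
`|G| = (W / q) ∏_{p ∣ W, p ∤ q} (1 - om p / p)`. The primes `p ≤ X`, `p ∤ q`, are the primes `p ≤ X`, `p ∤ W`, and the primes `p ∣ W`, `p ∤ q` (these are `≤ log X ≤ X`): the two products together are the product in the claim. -/
def St_UNQ : Prop := St_CRC → LCKc → UNQc

/-- **SSY** (theorem `ssy : St_SSY`): the truncated product and the finite products of the singular series.

Proof. Put `R p = (1 - om p / p) / (1 - 1 / p) ^ k` for primes `p`. MERTENS (lower bound, in the library; for instance `V1` lower bounds or search for `∏ (1 - 1/p)`): `∏_{p ≤ X} (1 - 1 / p) ≥ c₁ / log X`, so `∏_{p ≤ X} (1 - om p / p) = ∏_{p ≤ X} (1 - 1 / p) ^ k * ∏_{p ≤ X} R p ≥ (c₁ / log X) ^ k ∏_{p ≤ X} R p` (`R p ≥ 0` since `om p ≤ p`).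
It remains `∏_{X < p ≤ y} R p ≤ 2` for `X` large. Let `p > X` be a prime: `p ∤ al l` (`1 ≤ al l ≤ X < p`). If `p` divides no determinant `al l * be m - al m * be l` (`l ≠ m`) then the `k` residues `n ≡ - be l / al l (mod p)` are different, `om p ≥ k` and `R p ≤ (1 - k / p) / (1 - 1 / p) ^ k ≤ 1` by Bernoulli (`one_add_mul_le_pow`, `1 - k / p ≤ (1 - 1 / p) ^ k`). Otherwise `R p ≤ (1 - 1 / p) ^ (-k) ≤ (1 - 1 / X) ^ (-k)`;
every determinant is nonzero and `≤ 2 X ^ 2 < X ^ 3` in absolute value, so it has at most two prime factors `> X`: at most `2 k ^ 2` such primes, and `(1 - 1 / X) ^ (- 2 k ^ 3) ≤ 2` for `X ≥ 4 k ^ 3 + 2`. So `c = c₁ ^ k / 2`. (`K`: the determinants are `≤ 2 K X ^ 2`, the same.) -/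
def St_SSY : Prop := ∀ k K : ℕ, 1 ≤ K → ∃ c : ℝ, 0 < c ∧ ∃ X0 : ℝ, ∀ X : ℝ, X0 ≤ X → ∀ (al : Fin k → ℕ) (be : Fin k → ℤ),
  (∀ l, 1 ≤ al l ∧ (al l : ℝ) ≤ X) → (∀ l, |(be l : ℝ)| ≤ K * X) → (∀ l m, l ≠ m → (al l : ℤ) * be m ≠ al m * be l) → AdmS al be →
  ∀ y : ℕ, X ≤ y →
    c * (1 / Real.log X ^ k * ∏ p ∈ (Icc 1 y).filter Nat.Prime, ((1 - (om al be p : ℝ) / p) / (1 - 1 / (p : ℝ)) ^ k)) ≤
      ∏ q ∈ (Icc 1 ⌊X⌋₊).filter Nat.Prime, (1 - (om al be q : ℝ) / q)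

/-! ### Part 2: covering a long interval and several distant short ones by one class -/

/-- no fixed prime divisor, for a finite set of integers, outside `A0` -/
def AdmE (A0 : ℕ) (E : Finset ℤ) : Prop := ∀ p : ℕ, p.Prime → ¬ p ∣ A0 → ∃ r : ℤ, ∀ e ∈ E, ¬ (p : ℤ) ∣ r + e

open Classical in
/-- **GRW** (theorem `grw : St_GRW`): the weighted greedy choice.

Proof. Induction on `P` (or the average over all `b ∈ ∏ A p`): for a prime `p` and nonnegative weights `v`, the average over `b ∈ A p` of `∑_{k ≢ b (mod p)} v k` is `∑ v k (1 - [k mod p ∈ A p] / |A p|)`, so some `b` is at most the average. Compare `greedy_gen` (used in `LF/Rsa.lean`, from `H318R2.Cr` or `H398R2.RK`), which is the case of the weights `1`. -/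
def St_GRW : Prop := ∀ (P : Finset ℕ) (A : ℕ → Finset ℕ), (∀ p ∈ P, p.Prime ∧ A p ⊆ range p ∧ (A p).Nonempty) → ∀ (R : Finset ℤ) (w : ℤ → ℝ), (∀ k, 0 ≤ w k) →
  ∃ b : ℕ → ℕ, (∀ p ∈ P, b p ∈ A p) ∧
    ∑ k ∈ R.filter (fun k => ∀ p ∈ P, ¬ k ≡ b p [ZMOD p]), w k ≤
      ∑ k ∈ R, w k * ∏ p ∈ P.filter (fun p : ℕ => (k % (p : ℤ)).toNat ∈ A p), (1 - 1 / ((A p).card : ℝ))

open Classical in
/-- **UPS** (theorem `ups : St_UPS`): an upper bound sieve for intervals.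

Proof. Selberg's sieve, or the large sieve: the number is at most `(D + 1 + z ^ 2) / ∑_{q ≤ z, q ∣ ∏ M} μ² (q) / φ (q)`, and `∑_{q ≤ z, q ∣ ∏ M} μ² (q) / φ (q) * ∏_{p ≤ z, p ∉ M} (1 - 1 / p)⁻¹ ≥ ∑_{q ≤ z} μ² (q) / φ (q) ≥ log z ≥ c ∏_{p ≤ z} (1 - 1 / p)⁻¹`. Look for an upper bound sieve of dimension one for integers of an interval in the library
(`python3 tools/search.py`, the fundamental lemma `CORE`/`CB` in `Y261/CH`, `Y843/HG`, Brun-Titchmarsh), any constant `C` and any power `z ^ C₁ ≤ D` will do for me: if `z ^ 4 ≤ D` is not enough in the theorem which you find, apply it with `z' = z ^ (4 / C₁)` and drop the primes of `(z', z]`: this costs a constant factor by Mertens. -/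
def St_UPS : Prop := ∃ C : ℝ, 0 < C ∧ ∀ (N : ℤ) (D z : ℕ), 2 ≤ z → z ^ 4 ≤ D → ∀ M : Finset ℕ, (∀ p ∈ M, p.Prime ∧ p ≤ z) →
  (((Icc N (N + D)).filter (fun k => ∀ p ∈ M, ¬ (p : ℤ) ∣ k)).card : ℝ) ≤ C * D * ∏ p ∈ M, (1 - 1 / (p : ℝ))

/-- the residue classes `b` avoid the points `t` -/
def AvB (A0 : ℕ) (S : Finset ℕ) (ps y : ℕ) (p : ℕ) : Prop := p.Prime ∧ p ≤ y ∧ p ∉ S ∧ p ≠ ps ∧ ¬ p ∣ A0

/-- **RSF** (theorem `rsf : St_GRW → St_UPS → St_RSF`): Rankin's choice for a long interval and several distant ones.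

Proof. Copy the proof of `rsa` (`LF/Rsa.lean`); symbols as there: `v₀ = (log y) ^ 2`, `V0 = log y logloglog y / (10 loglog y)`, `v = ⌊exp V0⌋`; `b p = 0` for all allowed primes outside the set `P` of the allowed primes of `(v₀, v]`, and the classes of the primes `p ∈ P` are chosen from `A p = range p \ {t j mod p}` by the greedy lemma. The points: `R₀` = the `k ∈ [0, H]`, `k ≠ t j`, with
`p ∤ k` for the allowed `p ∉ P` (this set, or its image in `ℕ`, is the `R` of `rsa`: `|R₀| ≤ C₁ H / log y`), and for every `w` `R_w` = the `k ∈ [N w, N w + D]` with `p ∤ k` for the allowed `p ∉ P`. BOUND FOR `R_w`: if `D < y / (log y) ^ 2` then trivially `|R_w| ≤ D + 1 ≤ 2 y / (log y) ^ 2` and this is enough. Otherwise `z = ⌊y ^ (1/8)⌋`, `z ^ 4 ≤ D`, and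
`St_UPS` with `M` = the allowed primes `≤ z` outside `P`: `∏_{p ∈ M} (1 - 1 / p) ≤ C₂ (log v) / (log v₀ log y)` (Mertens; the excluded primes of `S`, `ps`, `A0` cost the factor `exp (2 ∑_{p ∈ S} 1 / p) * 2 * ∏_{p ∣ A0} (1 - 1 / p)⁻¹`), so `|R_w| ≤ C₃ D log v / (log v₀ log y)`.
GREEDY STEP: the factor of `k` is `∏_{p ∈ P, k mod p ∈ A p} (1 - 1 / |A p|) ≤ ∏_{p ∈ P, k ≢ t j (mod p) for all j} (1 - 1 / p) ≤ C₄ (log v₀ / log v) exp (2 J k)`, `J k = ∑ 1 / p` over the `p ∈ P` with `k ≡ t j (mod p)` for some `j`. For a window `I` (any of the intervals) the number of the `k ∈ I`, `k ≠ t j` for all `j`, with `J k > 1` is at most `∑_{k ∈ I} J k ≤ K ∑_{p ∈ P} (1 / p) (|I| / p + 1) ≤ 2 K |I| / v₀ + K (loglog y + 1)`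
(`∑_{p > v₀} 1 / p ^ 2 ≤ 2 / v₀`, `∑_{p ≤ y} 1 / p ≤ loglog y + C`), which is `≤ 3 K H / (log y) ^ 2` for the long interval and `≤ 3 K (D / (log y) ^ 2 + y / (log y) ^ 2)` for the others. These `k` are counted separately, the others have the factor `≤ C₄ e ^ 2 log v₀ / log v`. Weights: `w k` = `1 / B₀` for the `k ∈ R₀` with `J k ≤ 1`,
`B₀ = H (loglog y) ^ 2 / ((log y) ^ 2 logloglog y)`, and `1 / B₁` for the `k ∈ R_w` with `J k ≤ 1`, `B₁ = D / log y + y / (log y) ^ 2` (apply the lemma to the union of the sets, with the sum of the weights): the right hand side of `St_GRW` is `≤ C₅ (m + 1)` since `|R₀| log v₀ / log v ≤ C B₀` (as in `rsa`) and `|R_w| log v₀ / log v ≤ C B₁`. So after the choice every window has at most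
`C₅ (m + 1) B + (the number of the k with J k > 1)` survivors. -/
def St_RSF : Prop := ∀ K A0 m : ℕ, 1 ≤ A0 → ∃ C : ℝ, 0 < C ∧ ∃ y₀ : ℕ, ∀ y : ℕ, y₀ ≤ y → ∀ (S : Finset ℕ) (ps : ℕ),
    (∀ q ∈ S, q.Prime ∧ 2 < q) → ∑ q ∈ S, (1 : ℝ) / q ≤ 12 / (Real.log y) ^ 2 →
    (ps = 1 ∨ (ps.Prime ∧ 2 < ps)) → ∀ H : ℕ, y ≤ H → (H : ℝ) ≤ y * (Real.log y) ^ 2 →
    ∀ t : Fin K → ℤ, (∀ j, ∀ p : ℕ, AvB A0 S ps y p → ¬ (p : ℤ) ∣ t j) → ∀ (N : Fin m → ℤ) (D : ℕ), D ≤ y →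
    ∃ b : ℕ → ℕ, (∀ p : ℕ, AvB A0 S ps y p → ∀ j, ¬ t j ≡ b p [ZMOD p]) ∧
      (∀ U : Finset ℤ, (∀ k ∈ U, 0 ≤ k ∧ k ≤ H ∧ (∀ j, k ≠ t j) ∧ ∀ p : ℕ, AvB A0 S ps y p → ¬ k ≡ b p [ZMOD p]) → (U.card : ℝ) ≤
        C * H * (Real.log (Real.log y)) ^ 2 / ((Real.log y) ^ 2 * Real.log (Real.log (Real.log y)))) ∧
      ∀ w, ∀ U : Finset ℤ, (∀ k ∈ U, N w ≤ k ∧ k ≤ N w + D ∧ (∀ j, k ≠ t j) ∧ ∀ p : ℕ, AvB A0 S ps y p → ¬ k ≡ b p [ZMOD p]) → (U.card : ℝ) ≤
        C * (D / Real.log y + y / (Real.log y) ^ 2)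

open Classical in
/-- **SHF** (theorem `shf : St_SHF`): a translate of `E` without small prime factors and with few prime factors up to `y`.

Proof. As `shift_exA` (`LF/Cova.lean`), with the classes `c < p`, `(p : ℤ) ∣ c + e` for some `e ∈ E`, for the primes `p ∤ A0` (at most `k` classes, not all, by `AdmE`): the number of the `t₀ ∈ (0, L]` such that no prime `p ≤ L ^ (1/t)`, `p ∤ A0`, divides some `t₀ + e` is `≥ c L / (log L) ^ k'` (`int_lower` and `VZ_low`; look at the exponent there, `k' ≤ 2 k`).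
The number of the pairs (`t₀ ≤ L`, `(p, e)` with `p ≤ y ≤ L` prime, `L ^ (1/t) < p`, `p ∣ t₀ + e`) is at most `k ∑_{p ≤ L} (L / p + 1) ≤ k L (log L + 3)`; so at most `L / (log L) ^ (2 k + 1)` of the `t₀` have more than `(log L) ^ (2 k + 4)` such primes. For the `t₀` which we take all the primes `p ∤ A0` that divide some `t₀ + e` are `> L ^ (1/t)`. -/
def St_SHF : Prop := ∀ k A0 : ℕ, 1 ≤ k → 1 ≤ A0 → ∃ t : ℕ, 1 ≤ t ∧ ∃ L₀ : ℕ, ∀ L : ℕ, L₀ ≤ L → ∀ y : ℕ, y ≤ L → ∀ E : Finset ℤ, E.card ≤ k → AdmE A0 E →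
  ∃ t₀ : ℕ, 1 ≤ t₀ ∧ t₀ ≤ L ∧ (∀ e ∈ E, ∀ p : ℕ, p.Prime → ¬ p ∣ A0 → (p : ℝ) ≤ (L : ℝ) ^ (1 / (t : ℝ)) → ¬ (p : ℤ) ∣ t₀ + e) ∧
    (((range (y + 1)).filter (fun p : ℕ => p.Prime ∧ ¬ p ∣ A0 ∧ ∃ e ∈ E, (p : ℤ) ∣ t₀ + e)).card : ℝ) ≤ Real.log L ^ (2 * k + 4)

open Classical in
/-- **ASG** (theorem `asg : St_ASG`): the last step of the covering: different large primes for the remaining points, with few exceptions.

Proof. `δ = 1 / (4 k)`. Let `Bad u` = the `p ∈ P` with `p ∣ u - e` for some `e ∈ E`; `Z` = the `u ∈ U` with `|Bad u| > (1 - 1 / (2 k)) |P|`. For `u ∈ U \ Z` at least `|P| / (2 k) > |U|` primes of `P` are not in `Bad u`: so there is an injective choice `f u ∈ P \ Bad u` (induction, as the lemma `assign` in `GP/Classes.lean`). For `p = f u` let `g p` be an integer with `p ∣ g p + u`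
(`g p = - u`); then `p ∤ g p + e` for `e ∈ E` since `p ∤ u - e`. For the other `p ∈ P` choose `g p` with `p ∤ g p + e` for all `e ∈ E` (`|E| ≤ k < p`). COUNTING: let `I` be an interval of length `< y ^ 2` which contains an element `e₁ ∈ E`, and suppose that `Z ∩ I` has at least `κ = |E|` elements; take exactly `κ` of them. For `u` in this set at most one `p ∈ P` (`p > y`) divides
`u - e₁` (`0 < |u - e₁| < y ^ 2`, `u ∉ E`), so `∑_{e ≠ e₁} |{p ∈ P : p ∣ u - e}| ≥ (1 - 1 / (2 k)) |P| - 1`. For fixed `e` the sets `{p ∈ P : p ∣ u - e}` for two different `u` have at most one common element (`p ∣ u - u'`). So `∑_u |{p ∈ P : p ∣ u - e}| ≤ |P| + κ ^ 2`, and `κ (1 - 1 / (2 k)) |P| - κ ≤ (κ - 1) (|P| + κ ^ 2)`; as `κ ≤ k`: `|P| / 2 ≤ κ ^ 3 + κ ≤ 2 k ^ 3`, against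
`4 k ^ 3 < |P|`. Last claim: `u ∈ Z`: some `e ∈ E` has `|{p ∈ P : p ∣ u - e}| ≥ |Bad u| / |E| ≥ |P| / (2 k)`. -/
def St_ASG : Prop := ∀ (k y : ℕ) (P : Finset ℕ) (E U : Finset ℤ), 1 ≤ k → k ≤ y → E.Nonempty → E.card ≤ k → (∀ p ∈ P, p.Prime ∧ y < p) → 4 * k ^ 3 < P.card →
  (∀ u ∈ U, u ∉ E) → 2 * k * U.card < P.card →
  ∃ (g : ℕ → ℤ) (Z : Finset ℤ), Z ⊆ U ∧ (∀ p ∈ P, ∀ e ∈ E, ¬ (p : ℤ) ∣ g p + e) ∧ (∀ u ∈ U, u ∉ Z → ∃ p ∈ P, (p : ℤ) ∣ g p + u) ∧
    (∀ x₁ x₂ : ℤ, x₂ - x₁ < (y : ℤ) ^ 2 → (∃ e ∈ E, x₁ ≤ e ∧ e ≤ x₂) → (Z.filter (fun u => x₁ ≤ u ∧ u ≤ x₂)).card < E.card) ∧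
    ∀ u ∈ Z, ∃ e ∈ E, P.card ≤ 2 * k * (P.filter (fun p : ℕ => (p : ℤ) ∣ u - e)).card

/-- conclusion of COVB -/
def COVBc : Prop := ∀ k A0 m : ℕ, 1 ≤ k → 1 ≤ A0 → ∃ c : ℝ, 0 < c ∧ ∃ X0 : ℝ, ∀ X : ℝ, X0 ≤ X → ∀ (ps : ℕ) (S : Finset ℕ),
    GoodP 2 ps → GoodS X S → ∀ E : Finset ℤ, E.card ≤ k → AdmE A0 E → ∀ N : Fin m → ℤ, 0 ∈ E → (∀ w, N w ∈ E) →
    ∃ (a : ℤ) (Z0 : Finset ℤ) (Z : Fin m → Finset ℤ),
      (∀ e ∈ E, ∀ p : ℕ, p.Prime → ¬ p ∣ A0 → p ∣ WW X S ps → ¬ (p : ℤ) ∣ a + e) ∧ Z0.card < E.card ∧ (∀ w, (Z w).card < E.card) ∧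
      (∀ s : ℤ, |(s : ℝ)| ≤ c * Rk X → s ∉ E → s ∉ Z0 → ∃ p : ℕ, p.Prime ∧ ¬ p ∣ A0 ∧ p ∣ WW X S ps ∧ (p : ℤ) ∣ a + s) ∧
      (∀ w, ∀ s : ℤ, |((s - N w : ℤ) : ℝ)| ≤ c * Real.log X → s ∉ E → s ∉ Z w → ∃ p : ℕ, p.Prime ∧ ¬ p ∣ A0 ∧ p ∣ WW X S ps ∧ (p : ℤ) ∣ a + s) ∧
      ∀ z : ℤ, (z ∈ Z0 ∨ ∃ w, z ∈ Z w) → z ∉ E ∧ ∃ e ∈ E, c * (Real.log X / Real.log (Real.log X)) ≤
        (((z - e).natAbs.primeFactors.filter (fun p : ℕ => (p : ℝ) ≤ Real.log X)).card : ℝ)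

/-- **COVB** (theorem `covb : St_COVB`): covering `[- c R(X), c R(X)]` and the intervals `[N w - c log X, N w + c log X]` by one class, except for the points of `E` and very few others.

Proof. Adapt the proof of `cova` (`LF/Cova.lean`; symbols as there, `T = log X`, `y = yy X`, `y' = y / 8`, `L = ⌊c Rk X⌋`, `S'` = the primes `p ≤ y`, `p ∤ A0`, that divide some `t₀ + L + e`, `e ∈ E`). SHIFT: `St_SHF` for the set `E + L` (`AdmE` is invariant) with `y`, `L` there: `t₀`, with `|S'| ≤ (log L) ^ (2 k + 4)` and all elements of `S'` `> L ^ (1/t)`, so `∑_{q ∈ S'} 1 / q ≤ 6 / A ^ 2` for `X` large.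
The points are `x = s + L + t₀`: the near window `|s| ≤ L` is contained in `[0, 3 L]`, the other windows are `[N w + L + t₀ - D₁, N w + L + t₀ + D₁]`, `D₁ = ⌊c T⌋`; `E' = E + L + t₀`. `St_RSF` with `K = |E|` (`t` = the elements of `E'`), `y'` in place of `y`, `S ∪ S'`, `H = 3 L`, `D = 2 D₁ ≤ y'`: the classes `b p`, and the set `U` of the points of all the windows which are not in `E'` and not covered has at most
`C 3 L (..) + m C (D / log y' + y' / (log y') ^ 2) ≤ T / (80000 k A)` elements for `c` small (depending on `C, m, k`) and `X` large (`A = log T`; as in `cova` for the first term; `D / log y' ≤ 4 c T / A`). `P` = the primes of `(y', y]` which are not in `S`, `≠ ps` (and `∤ A0`, automatic): `|P| ≥ T / (20000 A)` as in `cova`. `St_ASG` with `y'`, `P`, `E'`, `U`: `g`, `Z`.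
`a₀` by the Chinese remainder theorem (over the primes `p ∣ WW X S ps`, `p ∤ A0`; `Nat.chineseRemainderOfFinset` or the lemma `crt` of `CW/Pattern.lean`): `a₀ ≡ - b p` for `p ≤ y'`, `p ∉ S'`; `a₀ ≡` a class with `p ∤ a₀ + e'` for all `e' ∈ E'` for `p ∈ S'`, `p ≤ y'` (`p > k`); `a₀ ≡ g p` for `p ∈ P`. Then `a = a₀ + L + t₀`. For `p ≤ y'`, `p ∉ S ∪ S'`: `p ∣ a₀ + x` iff `x ≡ b p`.
`Z0` = the elements `s` of the near window with `s + L + t₀ ∈ Z`, `Z w` similarly: the cardinalities are `< |E|` by `St_ASG` (the windows have length `< y' ^ 2` and contain `0`, resp. `N w`, which are in `E`). For `z ∈ Z0 ∪ Z w`: `z ∉ E`, and some `e ∈ E` has at least `|P| / (2 k) ≥ c T / A` primes `p ∈ P` (`≤ y ≤ log X`) with `p ∣ z - e`. -/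
def St_COVB : Prop := St_RSF → St_SHF → St_ASG → COVBc

/-! ### Part 3: isolated values of distant forms -/

open Classical in
/-- the good `n` of the window `(X, X + X / K]`: the form `i` is a prime, the form `j` has at most two prime factors, and all the integers near the values of the forms (`c Rk X` for the form `i₀`, `c log X` for the others), except for the values themselves and for the shifts in `Z`, have a small prime factor -/
noncomputable def PtsI (t K : ℕ) (X c : ℝ) {r : ℕ} (A : Fin r → ℕ) (be : Fin r → ℤ) (i j i₀ : Fin r) (Z : Fin r → Finset ℤ) : Finset ℕ :=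
  (range (⌊2 * X⌋₊ + 1)).filter (fun n : ℕ => X < n ∧ (n : ℝ) ≤ X + X / K ∧ 0 < fm A be i n ∧ (fm A be i n).natAbs.Prime ∧ Pt (X ^ (1 / 8 : ℝ)) (fm A be j n) ∧
    (∀ l, Ro (X ^ (1 / (t : ℝ))) (fm A be l n)) ∧
    ∀ l, ∀ u : ℤ, |(u : ℝ)| ≤ (if l = i₀ then c * Rk X else c * Real.log X) → u ∉ Z l → (∀ m, fm A be l n + u ≠ fm A be m n) →
      ¬ Ro (Real.log X) (fm A be l n + u))

open Classical in
/-- conclusion of ISO -/
def ISOc : Prop := ∀ (r : ℕ) (A : Fin r → ℕ), (∀ l, 1 ≤ A l) → ∀ K : ℕ, 1 ≤ K → ∀ i j i₀ : Fin r, i ≠ j →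
  ∃ t : ℕ, 1 ≤ t ∧ ∃ c : ℝ, 0 < c ∧ ∃ X0 : ℝ, ∀ X : ℝ, X0 ≤ X → ∀ be : Fin r → ℤ, (∀ l, |(be l : ℝ)| ≤ K * X) → X / K ≤ A i * X + be i →
    (∀ l m, l ≠ m → (A l : ℤ) * be m ≠ A m * be l) → AdmS A be →
    ∃ Z : Fin r → Finset ℤ, (∀ l, (Z l).card < r) ∧
      (∀ l, ∀ u ∈ Z l, ∃ m, m ≠ l ∧ c * (Real.log X / Real.log (Real.log X)) ≤
        (((A m * (be l + u) - A l * be m).natAbs.primeFactors.filter (fun p : ℕ => (p : ℝ) ≤ Real.log X)).card : ℝ)) ∧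
      X ^ (99 / 100 : ℝ) ≤ ((PtsI t K X c A be i j i₀ Z).card : ℝ)

/-- **ISO** (theorem `iso : St_ISO`): all the values are isolated, also if they are far apart.

Proof. Adapt `famw` (`LF/Famw.lean`) or `lpat` (`LF/Lpat.lean`). `LCKc r (A i) (A j) K`: `t, c', X0'`; at the scale `M = Sk (A i) (A j) K X`, `W = WX M S ps = WW (M ^ (1/100)) S ps`. `Q = ∏ l, A l`, `e_l = (Q / A l) be l`: `Q (A l n + be l + u) = A l (Q n + e_l + (Q / A l) u)`. COVB with `A0 = Q`, `m = r`, `k = r`, at `M ^ (1/100)`, `E = {e_l - e_{i₀}}` (`r` different integers, `0 ∈ E`), `N l = e_l - e_{i₀}`; `AdmE Q E` from `AdmS`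
(for `p ∤ Q` take `n_p` from `AdmS` and `ρ = Q n_p + e_{i₀}`: `ρ + (e_l - e_{i₀}) = (Q / A l) (A l n_p + be l)`, a unit times a nonzero class). COVB gives `a`; `n₀` with `Q n₀ + e_{i₀} ≡ a (mod p)` for the primes `p ∣ W`, `p ∤ Q`, and `n₀ ≡ n_p` for `p ∣ W`, `p ∣ Q` (`crt_primes`, `choose_n` in `Lpat.lean`). For `p ∣ W`, `p ∤ Q`: `p ∣ A l n₀ + be l + u` iff `p ∣ a + (e_l - e_{i₀}) + (Q / A l) u`. So the class `n₀` is admissible:
`LCKc` (first bound). CONSTANTS: `c` small: for `|u| ≤ c Rk X` (`l = i₀`): `|(Q / A l) u| ≤ c_cov Rk (M ^ (1/100))` (`Rk_scaleL` as in `famw`; here `M ≤ X ^ 2`, `M ≥ X`), for `|u| ≤ c log X`: `|(Q / A l) u| ≤ c_cov log (M ^ (1/100)) = c_cov log M / 100`. EXCEPTIONS: `Z i₀` = the `u` with `(Q / A i₀) u ∈ Z0`, `Z l` (`l ≠ i₀`) = the `u` with `N l + (Q / A l) u ∈ Z' l`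
(injective: at most `|E| - 1 = r - 1`; take preimages of finite sets under the injection `u ↦ ..`). For `u ∈ Z l`: `z = N l + (Q / A l) u`, some `m` with `z - N m = (Q / A l) (be l + u) - (Q / A m) be m` divisible by `≥ c_cov log X' / loglog X'` primes `≤ log X'` (`X' = M ^ (1/100)`); those which do not divide `Q` divide `A m (be l + u) - A l be m` (`A l A m (z - N m) = Q (..)`); `m ≠ l` because
`z - N l = (Q / A l) u` is nonzero and `≤ (log X) ^ 2` has only `O(loglog X)` prime factors. CONCLUSION as in `famw`: `n ≡ n₀ (mod W)` good, `u` in the window of `l`, `u ∉ Z l`: if `N l + (Q / A l) u ∉ E` some prime `p ∣ W` (`p ≤ log M / 100000 ≤ log X`) divides `fm l n + u`. If it is `= N m`: `A m (A l n + be l + u) = A l (A m n + be m)`; with `d = A m / gcd`, `e = A l / gcd`: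
`d ∣ fm m n`, which has no prime factor `≤ X ^ (1/t)`, so `d = 1`, `fm l n + u = e fm m n`; `e = 1` is excluded by the hypothesis `fm l n + u ≠ fm m n`; so a prime factor of `e` divides it. -/
def St_ISO : Prop := COVBc → LCKc → ISOc

end Pool.Agent.Q117.LF
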