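import Pool.Agent.Q117.LF.Stm3

/-!
Project LF (helper117), part 4: the theorems for the rows from the conclusions `UNQc` (right order, every class) and `ISOc` (isolated values of distant
forms) of part 3.

Every `St_X` below is the statement of one job; the doc comment is its complete proof. The file of a job is `Pool/Agent/Q117/LF/<Name>.lean`, the theorem
has the name given in the comment (namespace `Pool.Agent.Q117.LF`).
-/

set_option autoImplicit false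

namespace Pool.Agent.Q117.LF

open Finset Filter
open Pool.Agent.Q117.GP (Rk)

/-! ### Lines `x + y = n` -/

/-- the value of the polynomial `al k x + be k y + ga k` at `(x, n - x)` -/
def vl {m : ℕ} (al be ga : Fin m → ℤ) (k : Fin m) (n x : ℕ) : ℤ := al k * x + be k * ((n : ℤ) - x) + ga k

open Classical in
/-- the number of the `x mod p` such that `p` divides one of the values on the line -/
noncomputable def rh {m : ℕ} (al be ga : Fin m → ℤ) (n p : ℕ) : ℕ :=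
  ((range p).filter (fun x : ℕ => ∃ k, (p : ℤ) ∣ vl al be ga k n x)).card

open Classical in
/-- the good `x` on the line `x + y = n` in a class modulo `q` -/
noncomputable def PtsV (t : ℕ) {m : ℕ} (al be ga : Fin m → ℤ) (i j : Fin m) (n q u : ℕ) : Finset ℕ :=
  (Icc 1 (n - 1)).filter (fun x : ℕ => x ≡ u [MOD q] ∧ (vl al be ga i n x).natAbs.Prime ∧
    Pt ((n : ℝ) ^ (1 / 9 : ℝ)) (vl al be ga j n x) ∧ ∀ k, Ro ((n : ℝ) ^ (1 / (t : ℝ))) (vl al be ga k n x))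

/-- **T41** (theorem `t41 : St_T41`): families of linear polynomials on every line `x + y = n`.

Proof. On the line the value is `a_k x + b_k`, `a_k = al k - be k ≠ 0`, `b_k = be k n + ga k`. Let `s_k` be the sign of `a_k`, `A k = |a_k|` (a natural number, `1 ≤ A k ≤ 2 K`) and `B k = s_k b_k`: `fm A B k x = s_k vl k n x` (so the absolute values, and the divisibility by a prime, are the same; `|B k| ≤ 2 K n`;
`om A B p = rh p`; `AdmS A B`; not proportional). SERIES: `St_SSY` with `K' = 2 K`, `X = n`. COUNT: constants: the maximum of `t` and the minimum of `c` of `UNQc m a b (8 K)`, `1 ≤ a, b ≤ 2 K` (a larger `t` and a smaller `c` are weaker); `t` is this maximum plus one. Take `X = 3 n / 4` (real).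
CASE 1: `B i ≥ - A i n / 2`. Then `A i X + B i ≥ A i n / 4 ≥ n / 4 ≥ X / (8 K)`, `|B l| ≤ 2 K n ≤ 8 K X`, `A l ≤ X`: `UNQc` for `A, B, i, j`, `K' = 8 K`: `W`; its window `(X, X + X / (8 K)]` is contained in `(3 n / 4, n)`, so `PtsK .. q u ⊆ PtsV .. q u` (`X ^ (1/8) ≥ n ^ (1/9)`, `X ^ (1/t') ≥ n ^ (1/(t'+1))` for large `n`;
`natAbs` of `fm` and of `vl` are equal). `W ≥ X ^ (1/300000) ≥ n ^ (1/300001)`, `log X ≤ log n`. The product over the primes `p ≤ n`, `p ∤ q`, is at most the one over `p ≤ ⌊X⌋` (all factors are in `[0, 1]`, `rh p ≤ p`), and `X = 3 n / 4`: constant `3 c / 4`.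
CASE 2: `B i < - A i n / 2`. Reflection `x' = n - x`: let `B' l = - (A l n + B l)`: `fm A B' l x' = - fm A B l (n - x')` (for `x' ≤ n`), `|B' l| ≤ 4 K n ≤ 8 K X`, `B' i > - A i n / 2`. For every `x'` (also `> n`) `fm A B' l x' = - (A l (n - x') + B l)` as integers, so `om A B' p = om A B p` (the map `x ↦ (n - x) mod p` is a bijection of `range p`), `AdmS A B'`
(replace `x` by some `x' ≡ n - x (mod p)`), not proportional (`A l B' m - A m B' l = - (A l B m - A m B l)`). `UNQc` for `A, B'` gives `W`; for `q ∣ W` and `u` take `u' = n + (q - 1) u ≡ n - u (mod q)` (`q ≥ 1`; for the primes `p ∣ q`: `p ∣ fm A B' l u'` iff `p ∣ fm A B l u`). The map `x' ↦ n - x'` sends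
`PtsK .. q u'` injectively into `PtsV .. q u` (`x' ∈ (3 n / 4, n)`, so `1 ≤ n - x' ≤ n - 1`; `x' ≡ n - u`, so `n - x' ≡ u`). -/
def St_T41 : Prop := UNQc → St_SSY → ∀ m K : ℕ, 1 ≤ K → ∃ t : ℕ, 1 ≤ t ∧ ∃ c : ℝ, 0 < c ∧ ∃ N : ℕ, ∀ n : ℕ, N ≤ n →
    ∀ al be ga : Fin m → ℤ, (∀ k, |al k| ≤ K ∧ |be k| ≤ K ∧ |ga k| ≤ (K : ℤ) * n ∧ al k ≠ be k) →
    (∀ k l, k ≠ l → (al k - be k) * (be l * n + ga l) ≠ (al l - be l) * (be k * n + ga k)) →
    (∀ p : ℕ, p.Prime → ∃ x : ℕ, ∀ k, ¬ (p : ℤ) ∣ vl al be ga k n x) →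
    (∀ y : ℕ, n ≤ y → c * (1 / Real.log n ^ m *
        ∏ p ∈ (Icc 1 y).filter Nat.Prime, ((1 - (rh al be ga n p : ℝ) / p) / (1 - 1 / (p : ℝ)) ^ m)) ≤
      ∏ p ∈ (Icc 1 n).filter Nat.Prime, (1 - (rh al be ga n p : ℝ) / p)) ∧
    ∀ i j, i ≠ j → ∃ W : ℕ, Squarefree W ∧ (n : ℝ) ^ (1 / 300001 : ℝ) ≤ W ∧ (∀ p : ℕ, p.Prime → p ∣ W → (p : ℝ) ≤ Real.log n) ∧
      ∀ q : ℕ, q ∣ W → ∀ u : ℕ, (∀ p : ℕ, p.Prime → p ∣ q → ∀ k, ¬ (p : ℤ) ∣ vl al be ga k n u) →
        c * ((n : ℝ) / q * ∏ p ∈ (Icc 1 n).filter (fun p => p.Prime ∧ ¬ p ∣ q), (1 - (rh al be ga n p : ℝ) / p)) ≤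
          ((PtsV t al be ga i j n q u).card : ℝ)

/-! ### Dickson's conjecture: coefficients up to `X` -/

/-- **T42** (theorem `t42 : St_T42`): the right order of magnitude in every system with coefficients up to `X` (`PtsC` is defined in `Stm2.lean`).

Proof. `UNQc k a b 9` at `X' = 9 X / 8`: `|be l| ≤ X ≤ 9 X'`, `al l ≤ X ≤ X'`, `a X' + be i ≥ X' - X = X / 8 = X' / 9`. The window is `(X', X' + X' / 9] = (9 X / 8, 5 X / 4]`, contained in `(X, 2 X]`; there `fm l n ≥ n - X > 0`. `Pt` and `Ro` at `X' ≥ X` are stronger than at `X`. So `PtsK .. q u ⊆ PtsC .. q u`.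
`W ≥ X' ^ (1/300000) ≥ X ^ (1/300000)`, its primes are `≤ log X' ≤ 2 log X`. The product over the primes `p ≤ ⌊2 X⌋`, `p ∤ q`, is at most the one over `p ≤ ⌊X'⌋` (all factors are in `[0, 1]`). First claim: `q = 1`, `u = 0` in `UNQc` (no condition), and `St_SSY` (with `K = 1`) at `X'`, `y ≥ 2 X ≥ X'`; `log X' ≤ 2 log X`, so the constant gets a factor `2 ^ (-k)`.
(In `St_SSY` the product is over `(Icc 1 ⌊X'⌋₊).filter Nat.Prime`, in `UNQc` with `q = 1` over `p.Prime ∧ ¬ p ∣ 1`: the same set.) -/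
def St_T42 : Prop := UNQc → St_SSY → ∀ k a b : ℕ, 1 ≤ a → 1 ≤ b → ∃ t : ℕ, 1 ≤ t ∧ ∃ c : ℝ, 0 < c ∧ ∃ X0 : ℝ, ∀ X : ℝ, X0 ≤ X →
    ∀ (al : Fin k → ℕ) (be : Fin k → ℤ) (i j : Fin k), i ≠ j → al i = a → al j = b → (∀ l, 1 ≤ al l ∧ (al l : ℝ) ≤ X) →
      (∀ l, |(be l : ℝ)| ≤ X) → (∀ l m, l ≠ m → (al l : ℤ) * be m ≠ al m * be l) → AdmS al be →
      (∀ y : ℕ, 2 * X ≤ y → c * (X / Real.log X ^ k *
          ∏ p ∈ (Icc 1 y).filter Nat.Prime, ((1 - (om al be p : ℝ) / p) / (1 - 1 / (p : ℝ)) ^ k)) ≤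
        ((PtsC t X al be i j 1 0).card : ℝ)) ∧
      ∃ W : ℕ, Squarefree W ∧ X ^ (1 / 300000 : ℝ) ≤ W ∧ (∀ p : ℕ, p.Prime → p ∣ W → (p : ℝ) ≤ 2 * Real.log X) ∧
        ∀ q : ℕ, q ∣ W → ∀ u : ℕ, (∀ p : ℕ, p.Prime → p ∣ q → ∀ l, ¬ (p : ℤ) ∣ fm al be l u) →
          c * (X / (q : ℝ) * ∏ p ∈ (Icc 1 ⌊2 * X⌋₊).filter (fun p => p.Prime ∧ ¬ p ∣ q), (1 - (om al be p : ℝ) / p)) ≤
            ((PtsC t X al be i j q u).card : ℝ)

/-! ### Goldbach: isolated summands -/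

open Classical in
/-- **RAR** (theorem `rar : St_RAR`): few integers have many small prime factors.

Proof. We may assume `c ≤ 1`. `z = log M`, `w = ⌈c log M / loglog M⌉`. Every such `m` is divisible by a product `d` of `w` different primes `≤ z` (a subset with `w` elements of the set of its prime factors `≤ z`), so the number is at most `∑_d M / d ≤ M (∑_{p ≤ z} 1 / p) ^ w / w!` (`Finset.prod_add_prod_le`-free:
`∑_{T ⊆ P, |T| = w} ∏_{p ∈ T} 1 / p ≤ (∑_{p ∈ P} 1 / p) ^ w / w!`, see `Finset.esymm` or `Finset.prod_powersetCard`; the multinomial inequality `w! e_w ≤ (∑ x) ^ w`). With `∑_{p ≤ z} 1 / p ≤ ∑_{n ≤ z} 1 / n ≤ 1 + log z` and `w! ≥ (w / e) ^ w` the bound is `M exp (- w (log w - 1 - log (1 + loglog M)))`;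
`w log w ≥ (c - o(1)) log M` and `w (1 + log (1 + loglog M)) = o(log M)`: so it is at most `M ^ (1 - c/2)` for `M` large. `δ = c / 2`. -/
def St_RAR : Prop := ∀ c : ℝ, 0 < c → ∃ δ : ℝ, 0 < δ ∧ ∃ M0 : ℝ, ∀ M : ℝ, M0 ≤ M →
  (((Icc 1 ⌊M⌋₊).filter (fun m : ℕ => c * (Real.log M / Real.log (Real.log M)) ≤
    ((m.primeFactors.filter (fun p : ℕ => (p : ℝ) ≤ Real.log M)).card : ℝ))).card : ℝ) ≤ M ^ (1 - δ)

/-- no integer at distance `≤ D` from `a` is rough, except for `a` itself and for the shifts in `Z` -/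
def IsoG (D z : ℝ) (Z : Finset ℤ) (a : ℤ) : Prop := ∀ s : ℤ, |(s : ℝ)| ≤ D → s ≠ 0 → s ∉ Z → ¬ Ro z (a + s)

open Classical in
/-- the primes `p` between `n / 2` and `n` (`e = 0`), or between `n` and `3 n / 2` (`e = 1`), such that `2 n - p` has at most two prime factors and both are isolated -/
noncomputable def PtsG (t e n : ℕ) (D D' : ℝ) (Z Z' : Finset ℤ) : Finset ℕ :=
  (Icc 1 (2 * n)).filter (fun p : ℕ => (1 + e) * n < 2 * p ∧ 2 * p < (2 + e) * n ∧ p.Prime ∧ Pt ((n : ℝ) ^ (1 / 9 : ℝ)) (2 * (n : ℤ) - p) ∧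
    Ro ((n : ℝ) ^ (1 / (t : ℝ))) (2 * (n : ℤ) - p) ∧ IsoG D (Real.log n) Z p ∧ IsoG D' (Real.log n) Z' (2 * (n : ℤ) - p))

open Classical in
/-- at most one shift, and only if `2 n + s` has many small prime factors -/
def FewG (c : ℝ) (n : ℕ) (Z : Finset ℤ) : Prop := Z.card ≤ 1 ∧ ∀ s ∈ Z, s ≠ 0 ∧
  c * (Real.log n / Real.log (Real.log n)) ≤ (((2 * (n : ℤ) + s).natAbs.primeFactors.filter (fun p : ℕ => (p : ℝ) ≤ Real.log n)).card : ℝ)

/-- **T43** (theorem `t43 : St_T43`): Goldbach, isolated summands.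

Proof. The range of `e` is `{0, 1}`: for `e = 0` the condition is `n < 2 p < 2 n`, for `e = 1` it is `2 n < 2 p < 3 n`. `ISOc` with `r = 2`, `A = ![1, 1]`, `K = 8`, `i = 0`, `j = 1`, `i₀ ∈ {0, 1}` (`t'`, `c'`: the maximum, minimum of the constants of the two), `be = ![0, - 2 n]`, at `X = 3 n / 4` (`e = 0`) and `X = 5 n / 4` (`e = 1`):
`|be| ≤ 2 n ≤ 8 X`, `X / 8 ≤ X + 0`, the window `(X, X + X / 8]` is contained in `(n / 2, n)`, resp. `(n, 3 n / 2)`. `AdmS`: for `p = 2` take `x = 1` (`1 - 2 n` is odd), for a prime `p ≥ 3` some `x` mod `p` is different from `0` and `2 n`. Not proportional: `n ≠ 0`. The forms are `x` and `x - 2 n = - (2 n - x)`.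
The sets `Z l` of `ISOc`: `< 2` elements; let `Z = (Z 0).erase 0` and `Z' =` the negatives of `(Z 1).erase 0`. For `u ∈ Z 0` only `m = 1` is possible: `A 1 (be 0 + u) - A 0 be 1 = u + 2 n`. For `u ∈ Z 1`: `m = 0`: `be 1 + u - be 0 = - 2 n + u`, and `s = - u`: `2 n + s = - (..)`. (`log X` against `log n`: `primeFactors ≤ log X`: for `X = 3 n / 4` these are `≤ log n`. For `X = 5 n / 4`
the primes `≤ log X ≤ log n + 1`: at most two more integers, so take `c ≤ c' / 4` and `n` large; or the same with `log X / loglog X ≥ (1/2) log n / loglog n`.) ISOLATION: let `p = x` be in `PtsI`, `s ≠ 0`, `s ∉ Z`, `|s| ≤ c Rk n ≤ c' Rk X` (`RKM`-type bound, `Rk_scaleL`, or `rkm` of `Rkm.lean`: `0 < Rk X ∧ Rk X ≤ 2 Rk (X / g)`, with `Rk` monotone for large arguments if needed),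
resp. `|s| ≤ c log n ≤ c' log X`: `x + s` is not equal to `fm 0 = x` and not to `fm 1 = x - 2 n` (`|s| < 2 n`), so `¬ Ro (log X) (x + s)`. From this `¬ Ro (log n) (x + s)`: for `X = 3 n / 4` we have `log X ≤ log n`; a prime `q ≤ log X` dividing `x + s` is `≤ log n`: `Ro z m` says that all prime factors are `> z`, so `¬ Ro (log X) → ¬ Ro (log n)` for `log X ≤ log n`. For `X = 5 n / 4`: apply `ISOc` in the form
with `Real.log X > log n`?? To avoid this use for `e = 1` the scale `X₁ = n - 1/2`-type choice: `X = n` itself: the window `(n, n + n / 8]` is contained in `(n, 3 n / 2)` and `log X = log n`. So take `X = n` for `e = 1` (and `X = 3 n / 4` for `e = 0`), then `log X ≤ log n` always. The same for `2 n - p + s = - (x - 2 n - s)`, `u = - s`. `Ro (X ^ (1/t'))` implies `Ro (n ^ (1/(t'+1)))`, `X ^ (1/8) ≥ n ^ (1/9)`,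
`X ^ (99/100)` against `n ^ (98/100)`. SECOND PART: `RAR` with `c / 4` and `M = 3 M'`-type scale: let `M ≥ M0` and `n ≤ M` be such that `FewG c n Z` for some nonempty `Z` with elements `|s| ≤ D` is possible; if `n ≥ √M` then `m = 2 n + s ≤ 3 M` has at least `c log n / loglog n ≥ (c / 2) log M / loglog M ≥ (c / 4) log (3 M) / loglog (3 M)` prime factors `≤ log n ≤ log (3 M)`. The elements `s` of `Z` with `|s| > D` can be dropped from `Z` (they do not matter in `IsoG`);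
so if no `s` with `1 ≤ |s| ≤ D`, `D ≤ (log M) ^ 2`, has this property, both sets can be taken empty. Every `m ≤ 3 M` comes from at most `2 (log M) ^ 2 + 1` values of `n`. So the number of the exceptional `n ≤ M` is at most `√M + (2 (log M) ^ 2 + 1) (3 M) ^ (1 - δ) ≤ M ^ (1 - δ / 2)` (`δ < 1`). -/
def St_T43 : Prop := ISOc → St_RAR → ∃ t : ℕ, 1 ≤ t ∧ ∃ c : ℝ, 0 < c ∧
    (∃ N : ℕ, ∀ n : ℕ, N ≤ n → ∀ D D' : ℝ, (D = c * Rk n ∧ D' = c * Real.log n ∨ D = c * Real.log n ∧ D' = c * Rk n) → ∀ e : ℕ, e ≤ 1 →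
      ∃ Z Z' : Finset ℤ, FewG c n Z ∧ FewG c n Z' ∧ (n : ℝ) ^ (98 / 100 : ℝ) ≤ ((PtsG t e n D D' Z Z').card : ℝ)) ∧
    ∃ δ : ℝ, 0 < δ ∧ ∃ M0 : ℕ, ∀ M : ℕ, M0 ≤ M → ∃ E : Finset ℕ, (E.card : ℝ) ≤ (M : ℝ) ^ (1 - δ) ∧ ∀ n : ℕ, 1 ≤ n → n ≤ M → n ∉ E →
      ∀ D D' : ℝ, (D = c * Rk n ∧ D' = c * Real.log n ∨ D = c * Real.log n ∧ D' = c * Rk n) → ∀ e : ℕ, e ≤ 1 →
        (n : ℝ) ^ (98 / 100 : ℝ) ≤ ((PtsG t e n D D' ∅ ∅).card : ℝ)

/-! ### Tuples with large shifts -/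

open Classical in
/-- the `n ∈ (X, 2X]` with `n + h₁` prime, `n + h₂` a product of at most two primes, all the `n + h` rough, and near each of them no other rough integers except for the shifts in `Z h` -/
noncomputable def PtsU (t : ℕ) (X c : ℝ) (H : Finset ℕ) (h₁ h₂ h₀ : ℕ) (Z : ℕ → Finset ℤ) : Finset ℕ :=
  (range (⌊2 * X⌋₊ + 1)).filter (fun n : ℕ => X < n ∧ (n + h₁).Prime ∧ Pt (X ^ (1 / 8 : ℝ)) ((n : ℤ) + h₂) ∧
    (∀ h ∈ H, Ro (X ^ (1 / (t : ℝ))) ((n : ℤ) + h)) ∧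
    ∀ h ∈ H, ∀ s : ℤ, |(s : ℝ)| ≤ (if h = h₀ then c * Rk X else c * Real.log X) → s ∉ Z h → (∀ h' ∈ H, (h : ℤ) + s ≠ h') →
      ¬ Ro (Real.log X) ((n : ℤ) + h + s))

open Classical in
/-- **T44** (theorem `t44 : St_T44`): all admissible tuples with shifts up to `X`.

Proof. FIRST PART: `ISOc` with `r = |H| ≤ k` (the maximum, minimum of the constants over `r ≤ k` and over `i, j, i₀ : Fin r`), `A l = 1`, `K = 1`, `be l` = the `l`-th element of `H` (`H.orderIsoOfFin` or `H.equivFin`), window `(X, 2 X]`, `|be l| ≤ X`, `X ≤ X + be i`. `AdmS` from the admissibility. `Z h` = `Z l` for `h = be l` (and `∅` for `h ∉ H`):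
`A m (be l + u) - A l be m = h + u - h'` with `h' ≠ h`. `fm l n + u ≠ fm m n` iff `h + u ≠ h'`. SECOND PART: if all elements of `H` are `≤ X ^ δ` then all the `Z h` can be taken empty: an element `s ∈ Z h` with `|s| ≤ c Rk X ≤ (log X) ^ 2` (the others can be dropped) would give an integer `v = h + s - h'`, `|v| ≤ 2 X ^ δ`, with `w ≥ c log X / loglog X` different prime factors (so `v ≠ 0`):
`|v| ≥ w! ≥ (w / e) ^ w ≥ X ^ (c / 2)` for `X` large, impossible for `δ = c / 4`. (`w! ≤ v`: the product of `w` different primes is at least `w!`.) -/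
def St_T44 : Prop := ISOc → ∀ k : ℕ, ∃ t : ℕ, 1 ≤ t ∧ ∃ c : ℝ, 0 < c ∧ ∃ δ : ℝ, 0 < δ ∧ ∃ X0 : ℝ, ∀ X : ℝ, X0 ≤ X → ∀ H : Finset ℕ,
    H.card ≤ k → (∀ h ∈ H, (h : ℝ) ≤ X) → (∀ p : ℕ, p.Prime → ∃ r : ℕ, ∀ h ∈ H, ¬ p ∣ r + h) → ∀ h₁ ∈ H, ∀ h₂ ∈ H, ∀ h₀ ∈ H, h₁ ≠ h₂ →
      (∃ Z : ℕ → Finset ℤ, (∀ h ∈ H, (Z h).card < H.card ∧ ∀ s ∈ Z h, ∃ h' ∈ H, h' ≠ h ∧ c * (Real.log X / Real.log (Real.log X)) ≤
          ((((h : ℤ) + s - h').natAbs.primeFactors.filter (fun p : ℕ => (p : ℝ) ≤ Real.log X)).card : ℝ)) ∧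
        X ^ (99 / 100 : ℝ) ≤ ((PtsU t X c H h₁ h₂ h₀ Z).card : ℝ)) ∧
      ((∀ h ∈ H, (h : ℝ) ≤ X ^ δ) → X ^ (99 / 100 : ℝ) ≤ ((PtsU t X c H h₁ h₂ h₀ (fun _ => ∅)).card : ℝ))

/-! ### Five consecutive odd integers -/

/-- `m` and the four integers `15 m - 4, 15 m - 2, 15 m + 2, 15 m + 4` -/
def five (m : ℕ) : Fin 5 → ℤ := ![(m : ℤ), 15 * m - 4, 15 * m - 2, 15 * m + 2, 15 * m + 4]

open Classical in
/-- the `m ∈ (X, 2X]` such that the number `i` of the five is prime, the number `j` a product of at most two primes, all five are rough, and all the other integers near `m` and near `15 m` have a small prime factor -/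
noncomputable def PtsF5 (t : ℕ) (X D : ℝ) (i j : Fin 5) : Finset ℕ :=
  (range (⌊2 * X⌋₊ + 1)).filter (fun m : ℕ => X < m ∧ (five m i).natAbs.Prime ∧ Pt (X ^ (1 / 8 : ℝ)) (five m j) ∧ (∀ l, Ro (X ^ (1 / (t : ℝ))) (five m l)) ∧
    ∀ s : ℤ, |(s : ℝ)| ≤ D → (s ≠ 0 → ¬ Ro (Real.log X) ((m : ℤ) + s)) ∧
      (s ≠ -4 → s ≠ -2 → s ≠ 2 → s ≠ 4 → ¬ Ro (Real.log X) (15 * (m : ℤ) + s)))

/-- **T45** (theorem `t45 : St_T45`): five consecutive odd integers whose middle one is `15 m`.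

Proof. `FAMc` (`Stm2.lean`) with `r = 2`, `k = 4`, `A = ![1, 15]`, `H 0 = {0}`, `H 1 = {-4, -2, 2, 4}`. Not proportional: `1 * h' ≠ 15 * 0` for `h' ∈ H 1`. `AdmF`: `p = 2`: `m = 1`; `p = 3, 5`: `m = 1` (`15 m + s ≡ s`, `s = ±2, ±4` is not divisible by `3` or `5`); `p ≥ 7`: five excluded classes at most. The numbers `i, j` of `five` correspond to the pairs
`(m_1, h_1) ∈ {(0, 0), (1, -4), (1, -2), (1, 2), (1, 4)}`. -/
def St_T45 : Prop := FAMc → ∃ t : ℕ, 1 ≤ t ∧ ∃ c : ℝ, 0 < c ∧ ∃ X0 : ℝ, ∀ X : ℝ, X0 ≤ X → ∀ i j : Fin 5, i ≠ j →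
    X ^ (99 / 100 : ℝ) ≤ ((PtsF5 t X (c * Rk X) i j).card : ℝ)

/-! ### Sums of two twin primes -/

/-- the four numbers `x`, `x + a`, `N - x`, `N - x + b` -/
def four (N : ℕ) (a b : ℤ) (x : ℕ) : Fin 4 → ℤ := ![(x : ℤ), x + a, (N : ℤ) - x, (N : ℤ) - x + b]

open Classical in
/-- the `x ∈ (N/4, N/2)` such that the number `i` of the four is prime, the number `j` a product of at most two primes, all four are rough, and no other integers near `x` and near `N - x` are rough, except for the shifts in `Z`, `Z'` -/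
noncomputable def PtsT (t N : ℕ) (a b : ℤ) (D D' : ℝ) (Z Z' : Finset ℤ) (i j : Fin 4) : Finset ℕ :=
  (Icc 1 N).filter (fun x : ℕ => N < 4 * x ∧ 2 * x < N ∧ (four N a b x i).natAbs.Prime ∧ Pt ((N : ℝ) ^ (1 / 9 : ℝ)) (four N a b x j) ∧
    (∀ l, Ro ((N : ℝ) ^ (1 / (t : ℝ))) (four N a b x l)) ∧
    (∀ s : ℤ, |(s : ℝ)| ≤ D → s ≠ 0 → s ≠ a → s ∉ Z → ¬ Ro (Real.log N) ((x : ℤ) + s)) ∧
    ∀ s : ℤ, |(s : ℝ)| ≤ D' → s ≠ 0 → s ≠ b → s ∉ Z' → ¬ Ro (Real.log N) ((N : ℤ) - x + s))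

open Classical in
/-- at most three shifts, and only if one of the integers `N + s`, `N + s + a`, `N + s + b`.. near `N` has many small prime factors -/
def FewT (c : ℝ) (N : ℕ) (v : ℤ) (Z : Finset ℤ) : Prop := Z.card ≤ 3 ∧ ∀ s ∈ Z, ∃ d : ℤ, (d = 0 ∨ d = v) ∧
  c * (Real.log N / Real.log (Real.log N)) ≤ ((((N : ℤ) + s + d).natAbs.primeFactors.filter (fun p : ℕ => (p : ℝ) ≤ Real.log N)).card : ℝ)

/-- **T55** (theorem `t55 : St_T55`): every even number is a sum of two members of isolated pairs of almost twin primes.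

Proof. `ISOc` with `r = 4`, `A = 1`, `K = 8`, `be = ![0, a, - N, - N - b]` (the forms are `x`, `x + a`, `x - N = - (N - x)`, `x - N - b = - (N - x + b)`), `X = N / 3` (real; the window `(N / 3, N / 3 + N / 24]` is contained in `(N / 4, N / 2)`), `i ∈ {0, 1}`: `X / 8 ≤ X + be i`; `j ≠ i` arbitrary, `i₀ = 0` or `i₀ = 2` (take the maximum, minimum of the constants over all
`i, j, i₀`). `AdmS`: `p = 2`: `x = 1` (`N`, `a`, `b` even), `p = 3`: the hypothesis, `p ≥ 5`: four excluded classes at most. Not proportional: the four intercepts are different for large `N`. `Z` = the `u ∈ Z 0` with `u ∉ {0, a}`.. (any subset of `Z 0` will do), `Z'` = the negatives of the elements of `Z 2`: For `u ∈ Z 0`: some `m ≠ 0` with `be 0 + u - be m ∈ {u - a, u + N, u + N + b}` having many prime factors `≤ log X`;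
`u - a` has not (drop the `u` with `|u| > D`; an integer `v ≠ 0`, `|v| ≤ (log X) ^ 2`, has at most `O(loglog X)` prime factors, since `2 ^ ω ≤ |v|`; and for `v = 0` there are none): so `d = 0` or `d = b`. For `u ∈ Z 2`, `s = - u`: `be 2 + u - be m ∈ {- N + u, - N + u - a, u + b}`: `- (N + s)`, `- (N + s + a)`: `d = 0` or `d = a`. Hence `FewT c N b Z` and `FewT c N a Z'`.
ISOLATION: `x + s = fm m x` only for `s = 0`, `s = a` (the others are far away); `N - x + s = - (x - N - s)`, `u = - s`: equal to a form only for `s = 0` and `s = b`. `log X ≤ log N`, `X ^ (1/8) ≥ N ^ (1/9)`, `X ^ (1/t') ≥ N ^ (1/(t'+1))`, `Rk N ≤ 2 Rk (N / 3)` (`rkm`, `Rkm.lean`), `log N ≤ 2 log X`. -/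
def St_T55 : Prop := ISOc → ∃ t : ℕ, 1 ≤ t ∧ ∃ c : ℝ, 0 < c ∧ ∃ N0 : ℕ, ∀ N : ℕ, N0 ≤ N → Even N → ∀ a b : ℤ, (a = 2 ∨ a = -2) → (b = 2 ∨ b = -2) →
    (∃ x : ℕ, ∀ l, ¬ (3 : ℤ) ∣ four N a b x l) → ∀ D D' : ℝ, (D = c * Rk N ∧ D' = c * Real.log N ∨ D = c * Real.log N ∧ D' = c * Rk N) →
    ∀ i j : Fin 4, i.val ≤ 1 → i ≠ j → ∃ Z Z' : Finset ℤ, FewT c N b Z ∧ FewT c N a Z' ∧
      (N : ℝ) ^ (98 / 100 : ℝ) ≤ ((PtsT t N a b D D' Z Z' i j).card : ℝ)

end Pool.Agent.Q117.LF
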