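import Pool.Agent.Q117.LF.Stm5
import Pool.Agent.Q117.LF.Stm4

/-!
Project LF (helper117), part 6: consequences of `NSCc` (natural scale, part 5) and of `ISOc` (isolated values, part 3) for the rows.

Every `St_X` below is the statement of one job; the doc comment is its complete proof. The file of a job is `Pool/Agent/Q117/LF/<Name>.lean`, the theorem
has the name given in the comment (namespace `Pool.Agent.Q117.LF`). The hypotheses of a statement are the conclusions of other jobs (they are assembled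
later), so all jobs are independent.
-/

set_option autoImplicit false

namespace Pool.Agent.Q117.LF

open Finset Filter
open Pool.Agent.Q117.GP (Rk)

/-! ### Sets of shifts -/

open Classical in
/-- the number of the residue classes modulo `p` which contain an element of `E` -/
noncomputable def oF (E : Finset ℤ) (p : ℕ) : ℕ := (E.image (fun e : ℤ => e % (p : ℤ))).card

/-- the product of `1 - oF p / p` over the primes `p ≤ y` -/
noncomputable def VF (y : ℕ) (E : Finset ℤ) : ℝ := ∏ p ∈ (Icc 1 y).filter Nat.Prime, (1 - (oF E p : ℝ) / p)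

/-- no fixed prime divisor -/
def AdmZ (E : Finset ℤ) : Prop := ∀ p : ℕ, p.Prime → ∃ r : ℤ, ∀ e ∈ E, ¬ (p : ℤ) ∣ r + e

open Classical in
/-- the `n` of the window with `n + e₁` prime, `n + e₂` with at most two prime factors, all the `n + e` rough, and such that for all sets `F γ` of the family and all shifts `|d| ≤ L`: if all the `n + d + f`, `f ∈ F γ`, are rough, then `d + F γ ⊆ E` -/
noncomputable def PtsH (K : ℕ) (z X L : ℝ) (E : Finset ℤ) (e₁ e₂ : ℤ) {g : ℕ} (F : Fin g → Finset ℤ) : Finset ℕ :=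
  (range (⌊2 * X⌋₊ + 1)).filter (fun n : ℕ => X < n ∧ (n : ℝ) ≤ X + X / K ∧ 0 < (n : ℤ) + e₁ ∧ ((n : ℤ) + e₁).natAbs.Prime ∧ Pt (X ^ (1 / 8 : ℝ)) ((n : ℤ) + e₂) ∧
    (∀ e ∈ E, Ro z ((n : ℤ) + e)) ∧ ∀ γ, ∀ d : ℤ, |(d : ℝ)| ≤ L → (∀ f ∈ F γ, Ro z ((n : ℤ) + d + f)) → ∀ f ∈ F γ, d + f ∈ E)

/-- conclusion of FSC -/
def FSCc : Prop := ∀ k K g : ℕ, 1 ≤ K → ∃ t : ℕ, 1 ≤ t ∧ ∀ T : ℕ, t ≤ T → ∃ c : ℝ, 0 < c ∧ ∃ ν : ℝ, 0 < ν ∧ ∃ X0 : ℝ, ∀ X : ℝ, X0 ≤ X →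
  ∀ E : Finset ℤ, E.card ≤ k → (∀ e ∈ E, |(e : ℝ)| ≤ K * X) → AdmZ E → ∀ e₁ ∈ E, ∀ e₂ ∈ E, e₁ ≠ e₂ → X / K ≤ X + e₁ →
  ∀ F : Fin g → Finset ℤ, (∀ γ, (F γ).Nonempty ∧ (F γ).card ≤ k ∧ (∀ f ∈ F γ, |(f : ℝ)| ≤ K * X) ∧ AdmZ (F γ)) →
  ∀ L : ℝ, 0 ≤ L → L ≤ X → (∀ γ, L * VF ⌊X⌋₊ (F γ) ≤ ν) → ∀ z : ℝ, X ^ (1 / (T : ℝ)) ≤ z → z ≤ X ^ (1 / (t : ℝ)) →
    c * (X * VF ⌊X⌋₊ E) ≤ ((PtsH K z X L E e₁ e₂ F).card : ℝ)

/-- **FSC** (theorem `fsc : St_FSC`): the theorem at the natural scale for sets of shifts (all slopes `1`), constants depend on the sizes only.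

Proof. For the finitely many data (`r ≤ k`, `s : Fin g → ℕ` with `1 ≤ s γ ≤ k`, `i ≠ j` in `Fin r`) take `NSCc r (fun _ => 1) g s (fun _ _ => 1) K i j`; `t` = the maximum of the `t`s (and `1`); for `T ≥ t` let `c`, `ν` be the minima and `X0` the maximum over the data (and `X0 ≥ 1`; `X ^ (1/t) ≤ X ^ (1/t')` for `t' ≤ t`, `X ≥ 1`).
For `E` let `r = |E|` and `be` an enumeration of `E` (`E.orderEmbOfFin`), `i, j` the indices of `e₁, e₂`; similarly `s γ = |F γ|` and `be' γ`. Then `fm 1 be l n = n + be l`; not proportional = different; `AdmS` from `AdmZ` (take `n ≥ 0` congruent to `r` modulo `p`); `om (fun _ => 1) be p = oF E p` for a prime `p`: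
`p ∣ n + e` for some `e ∈ E` iff `n` is the residue of `- e`; negation is a bijection of the residues. So `VN = VF`. `PtsN ⊆ PtsH`. -/
def St_FSC : Prop := NSCc → FSCc

/-! ### Strings of residues and of types -/

/-- `m` has the type `S`: all `m + h`, `h ∈ S`, are rough -/
def Ty (z : ℝ) (S : Finset ℕ) (m : ℤ) : Prop := ∀ h ∈ S, Ro z (m + h)

/-- the `n ∈ (X, 2X]` which are the first of `J + 1` numbers `m 0 < m 1 < ... < m J ≤ n + L` with prescribed types and residues, with a prime and a product of two primes at prescribed places, such that there are no other numbers of any type at distance `≤ L` from `n` -/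
def StrS (q : ℕ) (z X L : ℝ) {J g : ℕ} (S : Fin g → Finset ℕ) (τ : Fin (J + 1) → Fin g) (a : Fin (J + 1) → ℕ) (j₁ j₂ : Fin (J + 1)) (h₁ h₂ : ℕ) : Set ℕ :=
  {n : ℕ | X < n ∧ (n : ℝ) ≤ 2 * X ∧ ∃ m : Fin (J + 1) → ℕ, m 0 = n ∧ StrictMono m ∧ (∀ j, (m j : ℝ) ≤ n + L) ∧ (∀ j, m j ≡ a j [MOD q]) ∧
    (∀ j, Ty z (S (τ j)) (m j)) ∧ (m j₁ + h₁).Prime ∧ Pt (X ^ (1 / 9 : ℝ)) ((m j₂ + h₂ : ℕ) : ℤ) ∧
    ∀ γ, ∀ k : ℤ, |((k - n : ℤ) : ℝ)| ≤ L → Ty z (S γ) k → ∃ j, k = m j ∧ γ = τ j}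

/-- conclusion of STC -/
def STCc : Prop := ∀ (J g q κ : ℕ) (S : Fin g → Finset ℕ), 1 ≤ q → 1 ≤ κ → (∀ γ, (S γ).card = κ ∧ 0 ∈ S γ) → Function.Injective S →
  ∀ (τ : Fin (J + 1) → Fin g) (a : Fin (J + 1) → ℕ), (∀ j, ∀ p : ℕ, p.Prime → ∃ r : ℕ, ∀ h ∈ S (τ j), ¬ p ∣ r + h) → (∀ j, ∀ h ∈ S (τ j), (a j + h).Coprime q) →
  ∀ (j₁ j₂ : Fin (J + 1)) (h₁ h₂ : ℕ), h₁ ∈ S (τ j₁) → h₂ ∈ S (τ j₂) → (j₁ ≠ j₂ ∨ h₁ ≠ h₂) →
    ∃ t : ℕ, 1 ≤ t ∧ ∃ c : ℝ, 0 < c ∧ ∃ ν : ℝ, 0 < ν ∧ ∃ X0 : ℝ, ∀ X : ℝ, X0 ≤ X →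
      c * (X / Real.log X ^ κ) ≤ ((StrS q (X ^ (1 / (t : ℝ))) X (ν * Real.log X ^ κ) S τ a j₁ j₂ h₁ h₂).ncard : ℝ)

/-- **STC** (theorem `stc : St_STC`): every string of types and residues has a positive proportion.

Proof. `Dm` = the largest element of all the `S γ`; `P0 = κ (J + 1) + Dm + q + 1`, `M = q * ∏_{p ≤ P0} p`. CLASSES: for every `j` some `b j` with `b j ≡ a j (mod q)` and `b j ≡ r_p (mod p)` for the primes `p ≤ P0`, `p ∤ q` (`r_p` from the admissibility of `S (τ j)`; Chinese remainder theorem for the coprime moduli `q` and `∏ p`): all `b j + h`, `h ∈ S (τ j)`, are coprime to `M`.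
FORMS: `n = M x + b 0`, `m j = n + D j`, where `D 0 = 0` and `D j = M v_j + ((b j - b 0) mod M)` with `v_j ∈ [2 j u, (2 j + 1) u)` for `j ≥ 1`, `u = ⌊ν (log X) ^ κ / (4 M (J + 1))⌋₊`: there are `u ^ J` vectors; `D (j+1) - D j ≥ M u - M > 2 Dm` for `X` large, `D J ≤ M (2 J + 1) u + M ≤ ν (log X) ^ κ =: L`. `b 0 + D j ≡ b j (mod M)`.
For a fixed vector apply `NSCc` at `X' = X / M` with `K = 2`, the `r = κ (J + 1)` forms `M x + (b 0 + D j + h)`, `h ∈ S (τ j)` (all slopes `M`, the intercepts are different because of the spacing; index them by `Fin r` via an equivalence), `i`, `j` the indices of `(j₁, h₁)`, `(j₂, h₂)`, and the family of the systems `M x + (b 0 + e + h)`, `h ∈ S γ`, for the pairs `(γ, e)`, `e < M`, for which all the `b 0 + e + h` are coprime to `M`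
(the family and the slopes do not depend on `X` and the vector: the constants `t`, and for `T = t + 2` also `c`, `ν₁`, `X0`, are fixed before). `AdmS`: for `p ∣ M` every `x` works, for `p ∤ M` we have `p > P0`, more than the number of the forms. `VUP` for the members of the family: `VN ⌊X'⌋₊ .. ≤ C / (log X') ^ κ`; with `L' = L / M + 1` and `ν` small: `L' VN ≤ ν₁`. `z = X ^ (1/(t+1))`: `X' ^ (1/(t+2)) ≤ z ≤ X' ^ (1/t)` for `X` large.
LOWER BOUND: `VN ⌊X'⌋₊ (forms) ≥ ∏_{P0 < p ≤ X} (1 - κ (J + 1) / p) ≥ c₂ / (log X) ^ (κ (J + 1))` (for `p ∣ M` there is no root; Mertens). So for every vector at least `c₃ X / (log X) ^ (κ (J + 1))` numbers `x` are in `PtsN`. For these `n = M x + b 0 ∈ (X, 2 X]` (`x ≤ (3/2) X'`, `b 0 < M`, choose the `b j < M`), `m` is strictly increasing, `m j ≡ b j ≡ a j (mod q)`, `Ty`, the prime, and `Pt (X' ^ (1/8))` implies `Pt (X ^ (1/9))`.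
NO OTHER NUMBERS: let `|k - n| ≤ L`, `Ty z (S γ) k`. Write `k = M w + b 0 + e`, `0 ≤ e < M`, `w = x + d`, `|d| ≤ L'`. If a prime `p ∣ M` divides `b 0 + e + h` for an `h ∈ S γ` then `p ∣ k + h`, impossible as `p ≤ P0 + q < z`. So `(γ, e)` is in the family and all `k + h = M (x + d) + (b 0 + e + h)` are rough: for every `h ∈ S γ` there is `(j, h')` with `M d + b 0 + e + h = b 0 + D j + h'`, that is `k + h = m j + h'`.
For `h = 0`: `k = m j + h'` for some `j` and `h' ∈ S (τ j)`; for the other `h`: `k + h ∈ [m j, m j + 2 Dm]` is `m i + h''` with `h'' ≤ Dm`; because of the spacing `i = j`. So `S γ + (k - m j) ⊆ S (τ j)`; both have `κ` elements, so they are equal, and both sets have the minimum `0`: `k = m j` and `S γ = S (τ j)`, `γ = τ j`.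
SUM: for different vectors the sets of the `n` are disjoint: `{n + D j}` is the set of all `k ∈ [n, n + L]` which have one of the types, so `n` determines the vector. Total `≥ u ^ J c₃ X / (log X) ^ (κ (J + 1)) ≥ c X / (log X) ^ κ`. (`t + 1` for the `t` of the claim.) -/
def St_STC : Prop := NSCc → St_VUP → STCc

/-! ### Goldbach: consecutive representations -/

/-- the value at the place `(j, σ)`: `n + D j` for `σ = false`, `N - n - D j` for `σ = true` -/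
def gv {J : ℕ} (N n : ℕ) (D : Fin (J + 1) → ℕ) (w : Fin (J + 1) × Bool) : ℤ := if w.2 then (N : ℤ) - n - D w.1 else (n : ℤ) + D w.1

open Classical in
/-- the shifts of the forms `n + D j`, `n + D j - N` -/
noncomputable def gE {J : ℕ} (N : ℕ) (D : Fin (J + 1) → ℕ) : Finset ℤ := univ.image (fun j => (D j : ℤ)) ∪ univ.image (fun j => (D j : ℤ) - N)

open Classical in
/-- the `n < N` such that `n + D j` are the almost prime summands of `N` at distance `≤ L` from `n`, with a prime at the place `w₁` and at most two prime factors at the place `w₂` -/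
noncomputable def PtsQ {J : ℕ} (N : ℕ) (z L : ℝ) (D : Fin (J + 1) → ℕ) (w₁ w₂ : Fin (J + 1) × Bool) : Finset ℕ :=
  (range N).filter (fun n : ℕ => (gv N n D w₁).toNat.Prime ∧ Pt ((N : ℝ) ^ (1 / 9 : ℝ)) (gv N n D w₂) ∧ (∀ w, 0 < gv N n D w ∧ Ro z (gv N n D w)) ∧
    ∀ k : ℤ, |((k - n : ℤ) : ℝ)| ≤ L → Ro z k → Ro z (N - k) → ∃ j, k = (n : ℤ) + D j)

/-- **T59** (theorem `t59 : St_T59`): consecutive representations `N = n + (N - n)` at the natural scale.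

Proof. `FSCc` with `k = 2 (J + 1)`, `K = 9`, `g = 1`, `T = t + 2`: `t`, `c`, `ν₁`; `X = N / 4`, `F 0 = {0, -N}`, `E = gE N D`. `V := VF N {0, -N}`; `L = ν / V`: note `V ≥ c₀ / (log N) ^ 2` (Mertens; `oF {0, -N} p ≤ 2`, and `= 1` for `p = 2` as `N` is even) so `L + 1 ≤ (log N) ^ 3` for `N` large. All `D j ≤ L`. `VF ⌊X⌋₊ {0,-N} ≤ C₁ V` (the factors of the primes in `(N / 4, N]` are `≥ 1 - 2 / p`, Mertens), so
`L VF ⌊X⌋₊ {0,-N} ≤ C₁ ν ≤ ν₁`. `z = N ^ (1/(t+1))`. `oF (gE N D) p` for `E`, `AdmZ E` from the hypothesis (`r + D j` and `r + D j - N = -(N - r - D j)`). CASE 1: `w₁ = (j₁, false)`: `e₁ = D j₁ ≥ 0`, `e₂ = D j₂` or `D j₂ - N`. `n ∈ PtsH`: `n ≤ X + X / 9 < N / 3`, `n + D j < N`, so all `gv > 0`; `gv` is `±` the value of the form.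
If `|k - n| ≤ L`, `Ro z k`, `Ro z (N - k)`: with `d = k - n`: `n + d + 0`, `n + d - N` are rough, so `d ∈ E`, and `d = D j` for some `j` (`d ≥ - L > D j - N`). CASE 2: `w₁ = (j₁, true)`: reflection. Put `D' j = D J - D (J - j)` (`Fin.rev`), it is again strictly increasing with `D' 0 = 0`, and for `n' = N - n - D J`: `gv N n D (j, σ) = gv N n' D' (J - j, ¬ σ)`. The map `n' ↦ N - n' - D J` is injective and sends the set of case 1 for `D'` and the reflected places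
into `PtsQ` for `D` (the exclusion is for `|k - n| ≤ L`: use the reflected `k' = N - k` and `L + D J ≤ 2 L` in case 1, that is, prove case 1 with the window `2 L`). `gE N D'` is the image of `gE N D` under `e ↦ D J - N - e`, so `oF`, `AdmZ` are the same. LAST: `VF ⌊X⌋₊ E ≥ VF N E`. -/
def St_T59 : Prop := FSCc → ∀ J : ℕ, ∃ t : ℕ, 1 ≤ t ∧ ∃ c : ℝ, 0 < c ∧ ∃ ν : ℝ, 0 < ν ∧ ∃ N0 : ℕ, ∀ N : ℕ, N0 ≤ N → Even N →
  ∀ D : Fin (J + 1) → ℕ, StrictMono D → D 0 = 0 → (∀ j, D j * VF N {0, -(N : ℤ)} ≤ ν) → (∀ p : ℕ, p.Prime → ∃ r : ℤ, ∀ j, ¬ (p : ℤ) ∣ r + D j ∧ ¬ (p : ℤ) ∣ N - r - D j) →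
  ∀ w₁ w₂ : Fin (J + 1) × Bool, w₁ ≠ w₂ → c * (N * VF N (gE N D)) ≤ ((PtsQ N ((N : ℝ) ^ (1 / (t : ℝ))) (ν / VF N {0, -(N : ℤ)}) D w₁ w₂).card : ℝ)

/-! ### Every number as a sum of four squares -/

/-- `p` is the value of `x + 2 y + 5 z` at a representation of `n` as a sum of four squares of natural numbers -/
def Val4 (n p : ℕ) : Prop := ∃ x y z w : ℕ, n = x ^ 2 + y ^ 2 + z ^ 2 + w ^ 2 ∧ p = x + 2 * y + 5 * z

open Classical in
/-- the represented `p` with prescribed surroundings -/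
noncomputable def Pts4 (t n : ℕ) (D : ℝ) (H : Finset ℤ) (h₁ h₂ : ℤ) : Finset ℕ :=
  (range (6 * n + 1)).filter (fun p : ℕ => Val4 n p ∧ ((p : ℤ) + h₁).toNat.Prime ∧ Pt ((n : ℝ) ^ (1 / 17 : ℝ)) ((p : ℤ) + h₂) ∧
    (∀ h ∈ H, Ro ((n : ℝ) ^ (1 / (t : ℝ))) ((p : ℤ) + h)) ∧ ∀ s : ℤ, |(s : ℝ)| ≤ D → s ∉ H → ¬ Ro (Real.log n) ((p : ℤ) + s))

/-- **T51** (theorem `t51 : St_T51`): four squares and prescribed surroundings.

Proof. For every `r ≤ k` and `i ≠ j`, `i₀` in `Fin r` take `ISOc r (fun _ => 1) .. 60 i j i₀`: `t`, `c`, `X0`; `t'` = the maximum, `c₀` = the minimum. `X = √(29 n)`: `(X, X + X / 60]` is contained in `[√(29 n), √(30 n)]` (`(61/60) ^ 2 * 29 ≤ 30`). `be` = the enumeration of `H`, `i, j, i₀` the indices of `h₁, h₂, 0`. `|h| ≤ D = c Rk n ≤ (log n) ^ 2`. `Rk n ≤ 8 Rk X` (compare `rkm`, `t43_ev`: `Rk n ≤ 2 Rk (n / g)`; here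
`log X ≥ (log n) / 2`, so `Rk X ≥ Rk n / 8` for `n` large, as in the proof of `rkm`), so `c = c₀ / 8` works: `D ≤ c₀ Rk X`. The exceptional set `Z i₀` has no element `u` with `|u| ≤ D`: otherwise for some `m ≠ i₀` the number `u - be m`, `|u - be m| ≤ 2 (log n) ^ 2`, would have `≥ c₀ log X / loglog X` different prime factors; it is not `0` (`Nat.primeFactors 0 = ∅`),
and a number `≤ 2 (log n) ^ 2` has at most `3 loglog n` prime factors (see `T44.lean` for the same argument). So for `|s| ≤ D`, `s ∉ H`: `¬ Ro (log X) (p + s)`, hence `¬ Ro (log n) (p + s)` (`log X ≤ log n`). REPRESENTATION: `0 ∈ H`, so `p` is rough, prime to `30`; `29 n ≤ p ^ 2 ≤ 30 n`: `Pool.Agent.H141R2.FS.rep` (`H141R2/FS/Main1.lean`, see its use in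
`outputs/live/Pool/Agent/Results/MP_40574a_nt/ChenQuadruple.lean`) gives `x, y, z, w`. `X ^ (99/100) ≥ n ^ (49/100)`, `X ^ (1/8) ≥ n ^ (1/17)`, `X ^ (1/t') ≥ n ^ (1/(2 t'+1))`: `t = 2 t' + 1`. -/
def St_T51 : Prop := ISOc → ∀ k : ℕ, ∃ t : ℕ, 1 ≤ t ∧ ∃ c : ℝ, 0 < c ∧ ∃ N : ℕ, ∀ n : ℕ, N ≤ n → ¬ 4 ∣ n → ∀ H : Finset ℤ, H.card ≤ k → 0 ∈ H →
  (∀ h ∈ H, |(h : ℝ)| ≤ c * Rk n) → AdmZ H → ∀ h₁ ∈ H, ∀ h₂ ∈ H, h₁ ≠ h₂ → (n : ℝ) ^ (49 / 100 : ℝ) ≤ ((Pts4 t n (c * Rk n) H h₁ h₂).card : ℝ)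

/-! ### Goldbach: prescribed surroundings of both summands -/

/-- the exceptional shifts: at most `2 k`, and for every `s ∈ Z` some `2 n + s + h`, `h ∈ H`, has very many small prime factors -/
def Exc (k : ℕ) (c : ℝ) (n : ℕ) (H Z : Finset ℤ) : Prop := Z.card ≤ 2 * k ∧ ∀ s ∈ Z, ∃ h ∈ H,
  c * (Real.log n / Real.log (Real.log n)) ≤ (((2 * (n : ℤ) + s + h).natAbs.primeFactors.filter (fun p : ℕ => (p : ℝ) ≤ Real.log n)).card : ℝ)

open Classical in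
/-- the primes `p ∈ (n/2, n)` such that `2 n - p` has at most two prime factors and the surroundings of both are exactly the prescribed ones, except for the shifts in `Z`, `Z'` -/
noncomputable def PtsB (t n : ℕ) (D D' : ℝ) (H H' Z Z' : Finset ℤ) : Finset ℕ :=
  (range n).filter (fun p : ℕ => n < 2 * p ∧ p.Prime ∧ Pt ((n : ℝ) ^ (1 / 9 : ℝ)) (2 * (n : ℤ) - p) ∧
    (∀ h ∈ H, Ro ((n : ℝ) ^ (1 / (t : ℝ))) ((p : ℤ) + h)) ∧ (∀ h ∈ H', Ro ((n : ℝ) ^ (1 / (t : ℝ))) (2 * (n : ℤ) - p + h)) ∧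
    (∀ s : ℤ, |(s : ℝ)| ≤ D → s ∉ H → s ∉ Z → ¬ Ro (Real.log n) ((p : ℤ) + s)) ∧
    (∀ s : ℤ, |(s : ℝ)| ≤ D' → s ∉ H' → s ∉ Z' → ¬ Ro (Real.log n) (2 * (n : ℤ) - p + s)))

/-- **T52** (theorem `t52 : St_T52`): Goldbach, prescribed surroundings of both summands.

Proof. As `t43` (`LF/T43.lean`, which is the case `H = H' = {0}`), with more forms. For `r₁, r₂ ≤ k` consider `ISOc (r₁ + r₂) (fun _ => 1) .. K i j i₀`, `K = 10`, for all `i ≠ j`, `i₀`; `t'` = the maximum, `c₀` = the minimum. `X = n / 2`, window `(n / 2, n / 2 + n / 20]`. Forms: `x + h` (`h ∈ H`) and `x - 2 n - h` (`h ∈ H'`), intercepts `h`, `- 2 n - h`; `i` = the index of `0 ∈ H`, `j` = the index of `0 ∈ H'`, `i₀ = i` if `D = c Rk n`, `i₀ = j` if `D' = c Rk n`.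
`|be| ≤ 3 n ≤ 10 X` for `n` large (`|h| ≤ c Rk n ≤ (log n) ^ 2`). Different intercepts; `AdmS` from the hypothesis. `ISOc`: `Z₁ = Z i` and `Z₂ = Z j`. Put `Z = Z i ∩ {|s| ≤ D}`, `Z' = {s : - s ∈ Z j, |s| ≤ D'}`: at most `r₁ + r₂ - 1 ≤ 2 k` elements. For `u ∈ Z i`, `|u| ≤ D`, `u ∉ H` (remove the elements of `H` from `Z`; similarly for `Z'`): the form `m ≠ i` is not one of the `x + h`, `h ∈ H` (the number `u - h` is nonzero and `≤ 2 (log n) ^ 2`, so it has at most `3 loglog n` prime factors), so it is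
`x - 2 n - h` with `h ∈ H'` and the number is `u + 2 n + h`. For `u ∈ Z j`, `s = - u`: `- 2 n + u - be m`: for `be m = - 2 n - h` it is `u + h = h - s`, small and nonzero if `s ∉ H'`; for `be m = h`: `-(2 n + s + h)`, `h ∈ H`. So `Exc` holds with `H'` for `Z` and with `H` for `Z'` (`log n` against `log X`: `log X ≤ log n`, and constants). ISOLATION: near `x`: `x + s`, `|s| ≤ D`, `s ∉ H`, `s ∉ Z`: it is not the value of another form (`x + s = x + h` no; `x + s = x - 2 n - h` no, sizes), so `¬ Ro (log X) (x + s)`.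
Near `2 n - x`: `2 n - x + s = -(x - 2 n - s)`, `u = - s`. SECOND PART: the rarity theorem `St_RAR` as in `t43`: let `E` be the set of the `n ≤ M` for which some `2 n + w`, `|w| ≤ 2 (log M) ^ 2 + 2`, has at least `c' log M / loglog M` prime factors `≤ log M`; outside `E` no `s` with `Exc` exists, so `Z = Z' = ∅` (the case of small `n ≤ √M` as in `t43`). -/
def St_T52 : Prop := ISOc → St_RAR → ∀ k : ℕ, ∃ t : ℕ, 1 ≤ t ∧ ∃ c : ℝ, 0 < c ∧
  (∃ N : ℕ, ∀ n : ℕ, N ≤ n → ∀ D D' : ℝ, (D = c * Rk n ∧ D' = c * Real.log n ∨ D = c * Real.log n ∧ D' = c * Rk n) → ∀ H H' : Finset ℤ, H.card ≤ k → H'.card ≤ k →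
    0 ∈ H → 0 ∈ H' → (∀ h ∈ H, |(h : ℝ)| ≤ D) → (∀ h ∈ H', |(h : ℝ)| ≤ D') →
    (∀ p : ℕ, p.Prime → ∃ r : ℤ, (∀ h ∈ H, ¬ (p : ℤ) ∣ r + h) ∧ ∀ h ∈ H', ¬ (p : ℤ) ∣ 2 * n - r + h) →
    ∃ Z Z' : Finset ℤ, Exc k c n H' Z ∧ Exc k c n H Z' ∧ (n : ℝ) ^ (98 / 100 : ℝ) ≤ ((PtsB t n D D' H H' Z Z').card : ℝ)) ∧
  ∃ δ : ℝ, 0 < δ ∧ ∃ M0 : ℕ, ∀ M : ℕ, M0 ≤ M → ∃ E : Finset ℕ, (E.card : ℝ) ≤ (M : ℝ) ^ (1 - δ) ∧ ∀ n : ℕ, 1 ≤ n → n ≤ M → n ∉ E →
    ∀ D D' : ℝ, (D = c * Rk n ∧ D' = c * Real.log n ∨ D = c * Real.log n ∧ D' = c * Rk n) → ∀ H H' : Finset ℤ, H.card ≤ k → H'.card ≤ k →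
    0 ∈ H → 0 ∈ H' → (∀ h ∈ H, |(h : ℝ)| ≤ D) → (∀ h ∈ H', |(h : ℝ)| ≤ D') →
    (∀ p : ℕ, p.Prime → ∃ r : ℤ, (∀ h ∈ H, ¬ (p : ℤ) ∣ r + h) ∧ ∀ h ∈ H', ¬ (p : ℤ) ∣ 2 * n - r + h) →
    (n : ℝ) ^ (98 / 100 : ℝ) ≤ ((PtsB t n D D' H H' ∅ ∅).card : ℝ)

end Pool.Agent.Q117.LF
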