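import Pool.Agent.Q117.LF.Stm6

/-!
Project LF (helper117), part 7: more consequences of the natural scale theorem.

Every `St_X` below is the statement of one job; the doc comment is its complete proof. The file of a job is `Pool/Agent/Q117/LF/<Name>.lean`, the theorem
has the name given in the comment (namespace `Pool.Agent.Q117.LF`). The hypotheses of a statement are the conclusions of other jobs (they are assembled
later), so all jobs are independent.
-/

set_option autoImplicit false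

namespace Pool.Agent.Q117.LF

open Finset Filter

/-- the `n ∈ (X, 2X]` with `n + e₁` prime, `n + e₂` with at most two prime factors, all the `n + e` rough, and such that for all sets `F γ` of the family and all shifts `|d| ≤ L`: if all the `n + d + f`, `f ∈ F γ`, are rough, then `d + F γ ⊆ E` -/
def SetV (z X L : ℝ) (E : Finset ℤ) (e₁ e₂ : ℤ) {g : ℕ} (F : Fin g → Finset ℤ) : Set ℕ :=
  {n : ℕ | X < n ∧ (n : ℝ) ≤ 2 * X ∧ ((n : ℤ) + e₁).toNat.Prime ∧ Pt (X ^ (1 / 9 : ℝ)) ((n : ℤ) + e₂) ∧ (∀ e ∈ E, Ro z ((n : ℤ) + e)) ∧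
    ∀ γ, ∀ d : ℤ, |(d : ℝ)| ≤ L → (∀ f ∈ F γ, Ro z ((n : ℤ) + d + f)) → ∀ f ∈ F γ, d + f ∈ E}

/-- conclusion of FSV -/
def FSVc : Prop := ∀ (k g κ : ℕ) (F : Fin g → Finset ℤ), (∀ γ, 1 ≤ (F γ).card ∧ κ ≤ (F γ).card) → ∃ t : ℕ, 1 ≤ t ∧ ∃ c : ℝ, 0 < c ∧ ∃ ν : ℝ, 0 < ν ∧ ∃ X0 : ℝ, ∀ X : ℝ, X0 ≤ X →
  ∀ E : Finset ℤ, E.card ≤ k → (∀ e ∈ E, 0 ≤ e ∧ (e : ℝ) ≤ X) → AdmZ E → ∀ e₁ ∈ E, ∀ e₂ ∈ E, e₁ ≠ e₂ →
    c * (X * VF ⌊X⌋₊ E) ≤ ((SetV (X ^ (1 / (t : ℝ))) X (ν * Real.log X ^ κ) E e₁ e₂ F).ncard : ℝ)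

/-- **FSV** (theorem `fsv : St_FSV`): a fixed family of types.

Proof. Let `F'` be the family of those `F γ` which are admissible (`AdmZ`); for the others some prime `p` has `p ∣ r + f` for some `f ∈ F γ` for every `r`, so `n + d + f` is divisible by `p` for some `f ∈ F γ`: not all are rough when `z ≥ p`. (Reindex the subfamily by `Fin g'`, or replace each inadmissible member by an admissible one of the family; if there is none the family is empty, `g' = 0`.) `FSCc` with `k' = k +` the sum of the `|F γ|`, `K = 1`,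
`T = t'`: `t'`, `c`, `ν₁`, and for each member `VF ⌊X⌋₊ (F γ) ≤ C / (log X) ^ |F γ|`: this is `VUP` for the slopes `1` and an enumeration of `F γ` (`om = oF`: `p ∣ n + f` for some `f` iff `n` is the residue of `- f`; negation is a bijection; `VN = VF`), `log ⌊X⌋₊ ≥ (log X) / 2`, and `(log X) ^ κ ≤ (log X) ^ |F γ|` for `X ≥ 3`. With `L = ν (log X) ^ κ`: `L VF ≤ 2 ^ |F γ| C ν ≤ ν₁` for `ν` small; `L ≤ X` for `X` large. `K = 1`: the window is `(X, 2X]`, `|e| ≤ X`, `X ≤ X + e₁`, `|f| ≤ X` for `X` large.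
`z = X ^ (1/t')`, `t = t'`. `Pt (X ^ (1/8))` implies `Pt (X ^ (1/9))`. The finite set `PtsH` is contained in the set (which is finite). -/
def St_FSV : Prop := FSCc → St_VUP → FSVc

/-- **SSF** (theorem `ssf : St_SSF`): the singular series of a set of shifts.

Proof. `St_SSY` with the slopes `1`, `K = 1` and the enumeration of `E` (`k = |E|`; take the minimum of the constants and the maximum of the `X0` for `|E| ≤ k`), `om = oF` as in `FSV`. -/
def St_SSF : Prop := St_SSY → ∀ k : ℕ, ∃ c : ℝ, 0 < c ∧ ∃ X0 : ℝ, ∀ X : ℝ, X0 ≤ X → ∀ E : Finset ℤ, E.card ≤ k → (∀ e ∈ E, |(e : ℝ)| ≤ X) → AdmZ E → ∀ y : ℕ, X ≤ y →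
  c * (1 / Real.log X ^ E.card * ∏ p ∈ (Icc 1 y).filter Nat.Prime, ((1 - (oF E p : ℝ) / p) / (1 - 1 / (p : ℝ)) ^ E.card)) ≤ VF ⌊X⌋₊ E

/-! ### Gap vectors for systems of linear forms -/

open Classical in
/-- the number of the `n` modulo `p` for which `p` divides a value of one of the forms at one of the `n + D j` -/
noncomputable def oD {s J : ℕ} (A : Fin s → ℕ) (b : Fin s → ℤ) (D : Fin (J + 1) → ℕ) (p : ℕ) : ℕ :=
  ((range p).filter (fun n : ℕ => ∃ j x, (p : ℤ) ∣ (A x : ℤ) * (n + D j) + b x)).card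

/-- the `n ∈ (X, 2X]` with a prime at the place `w₁` and at most two prime factors at the place `w₂`, all values at the `n + D j` rough, and such that the values at every other `k` with `|k - n| ≤ L` are not all rough (unless they are among the values at the `n + D j`) -/
def SetD {s J : ℕ} (z X L : ℝ) (A : Fin s → ℕ) (b : Fin s → ℤ) (D : Fin (J + 1) → ℕ) (w₁ w₂ : Fin (J + 1) × Fin s) : Set ℕ :=
  {n : ℕ | X < n ∧ (n : ℝ) ≤ 2 * X ∧ ((A w₁.2 : ℤ) * (n + D w₁.1) + b w₁.2).toNat.Prime ∧ Pt (X ^ (1 / 9 : ℝ)) ((A w₂.2 : ℤ) * (n + D w₂.1) + b w₂.2) ∧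
    (∀ j x, Ro z ((A x : ℤ) * (n + D j) + b x)) ∧
    ∀ k : ℤ, |((k - n : ℤ) : ℝ)| ≤ L → (∀ x, Ro z ((A x : ℤ) * k + b x)) → ∀ x, ∃ j y, A x = A y ∧ (A x : ℤ) * k + b x = (A y : ℤ) * (n + D j) + b y}

/-- conclusion of NSV -/
def NSVc : Prop := ∀ (s J : ℕ) (A : Fin s → ℕ) (b : Fin s → ℤ), 1 ≤ s → (∀ x, 1 ≤ A x) → (∀ x y, x ≠ y → (A x : ℤ) * b y ≠ A y * b x) → (∀ p : ℕ, p.Prime → ∃ n : ℕ, ∀ x, ¬ (p : ℤ) ∣ (A x : ℤ) * n + b x) →
  ∀ w₁ w₂ : Fin (J + 1) × Fin s, w₁ ≠ w₂ →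
    ∃ t : ℕ, 1 ≤ t ∧ ∃ c : ℝ, 0 < c ∧ ∃ ν : ℝ, 0 < ν ∧ ∃ X0 : ℝ, ∀ X : ℝ, X0 ≤ X → ∀ D : Fin (J + 1) → ℕ, StrictMono D → (∀ j, (D j : ℝ) ≤ ν * Real.log X ^ s) →
      (∀ j x i y, (j, x) ≠ (i, y) → A x = A y → (A x : ℤ) * D j + b x ≠ A y * D i + b y) →
      (∀ p : ℕ, p.Prime → ∃ n : ℕ, ∀ j x, ¬ (p : ℤ) ∣ (A x : ℤ) * (n + D j) + b x) →
        c * (X * ∏ p ∈ (Icc 1 ⌊X⌋₊).filter Nat.Prime, (1 - (oD A b D p : ℝ) / p)) ≤ ((SetD (X ^ (1 / (t : ℝ))) X (ν * Real.log X ^ s) A b D w₁ w₂).ncard : ℝ)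

/-- **NSV** (theorem `nsv : St_NSV`): every gap vector at the natural scale.

Proof. `NSCc` with `r = (J + 1) * s` forms, indexed via `finProdFinEquiv` by the pairs `(j, x)`: slope `A x`, intercept `A x * D j + b x`; the family has one member (`g = 1`): slopes `A`, intercepts `b`. `K = 1`. The forms are pairwise not proportional: `A x (A y D i + b y) = A y (A x D j + b x)` means that `A x b y - A y b x = A x A y (D j - D i)`. Hmm: this is possible with `A x ≠ A y`; then with `u = A x / gcd`, `v = A y / gcd` (coprime, not both `1`) the two forms are `u * w`, `v * w` for a common integral form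
`w = ((A x / u) n + ..)` (`u` divides the intercept of the form `(j, x)`): so one of `u, v` is `> 1` and one of its prime factors divides all the values of a form, which contradicts the admissibility hypothesis. (For equal slopes it is the hypothesis on equality.) `AdmS` is the hypothesis. `om = oD` (the same set). `VUP` for the member of the family: `VN ⌊X⌋₊ A b ≤ C / (log X) ^ s`, so `L VN ≤ ν₁` for `ν` small (`L = ν (log X) ^ s`, `L ≤ X` for `X` large).
Sizes for `X` large: `|A x D j + b x| ≤ X`; `X / K = X ≤ A i X + be i`: not true when `b x < 0` and `A = 1`: so take `K = 2` (window `(X, 3 X / 2]`, `X / 2 ≤ X + be i` for `X` large). `T = t`, `z = X ^ (1/t)`. `k = n + d`. The positive prime: `0 < fm`, `natAbs = toNat`. -/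
def St_NSV : Prop := NSCc → St_VUP → NSVc

end Pool.Agent.Q117.LF
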