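import Pool.Agent.Q117.LF.Stm4

/-!
Project LF (helper117), job T42 (helper150): the right order of magnitude in every system with
coefficients up to `X`.
-/

set_option autoImplicit false

namespace Pool.Agent.Q117.LF

open Finset Filter

lemma t42_om_le {k : ℕ} (al : Fin k → ℕ) (be : Fin k → ℤ) (p : ℕ) : om al be p ≤ p := by
  classical
  unfold om
  refine (Finset.card_filter_le _ _).trans ?_
  rw [card_range]

lemma t42_nonneg {k : ℕ} (al : Fin k → ℕ) (be : Fin k → ℤ) (p : ℕ) :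
    0 ≤ 1 - (om al be p : ℝ) / p := by
  rw [sub_nonneg]
  apply div_le_one_of_le₀ _ (Nat.cast_nonneg _)
  exact_mod_cast t42_om_le al be p

lemma t42_le_one {k : ℕ} (al : Fin k → ℕ) (be : Fin k → ℤ) (p : ℕ) :
    1 - (om al be p : ℝ) / p ≤ 1 := by
  have : (0 : ℝ) ≤ (om al be p : ℝ) / p := by positivity
  linarith

lemma t42_prod {s t : Finset ℕ} (h : s ⊆ t) (f : ℕ → ℝ) (h0 : ∀ x, 0 ≤ f x)
    (h1 : ∀ x, f x ≤ 1) : ∏ x ∈ t, f x ≤ ∏ x ∈ s, f x := by
  rw [← Finset.prod_sdiff h]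
  calc (∏ x ∈ t \ s, f x) * ∏ x ∈ s, f x ≤ 1 * ∏ x ∈ s, f x :=
        mul_le_mul_of_nonneg_right (prod_le_one (fun i _ => h0 i) (fun i _ => h1 i))
          (prod_nonneg fun i _ => h0 i)
    _ = _ := one_mul _

lemma t42_Ro {z z' : ℝ} (h : z ≤ z') {m : ℤ} (hm : Ro z' m) : Ro z m :=
  fun p hp hpm => lt_of_le_of_lt h (hm p hp hpm)

lemma t42_Pt {z z' : ℝ} (h : z ≤ z') {m : ℤ} (hm : Pt z' m) : Pt z m :=
  ⟨hm.1, t42_Ro h hm.2⟩

lemma t42_sub (t : ℕ) {X : ℝ} (hX : 8 ≤ X) {k : ℕ} (al : Fin k → ℕ) (be : Fin k → ℤ)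
    (i j : Fin k) (hal : ∀ l, 1 ≤ al l) (hbe : ∀ l, |(be l : ℝ)| ≤ X) (q u : ℕ) :
    PtsK t 9 (9 * X / 8) al be i j q u ⊆ PtsC t X al be i j q u := by
  intro n hn
  simp only [PtsK, PtsC, mem_filter, mem_range] at hn ⊢
  obtain ⟨-, h1, h2, h3, h4, h5, h6, h7⟩ := hn
  have hXn : X < n := by linarith
  push_cast at h2
  have hn2 : (n : ℝ) ≤ 2 * X := by linarith
  have hXX : X ≤ 9 * X / 8 := by linarith
  refine ⟨Nat.lt_succ_of_le (Nat.le_floor hn2), hXn, h3, fun l => ?_, h5,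
    t42_Pt (Real.rpow_le_rpow (by linarith) hXX (by norm_num)) h6, fun l =>
      t42_Ro (Real.rpow_le_rpow (by linarith) hXX (by positivity)) (h7 l)⟩
  have a1 : (1 : ℝ) ≤ al l := by exact_mod_cast hal l
  have a2 := (abs_le.mp (hbe l)).1
  have a3 : (0 : ℝ) < (al l : ℝ) * n + be l := by nlinarith
  unfold fm
  exact_mod_cast a3

theorem t42 : St_T42 := by
  intro hU hS k a b ha hb
  obtain ⟨t, ht, c₁, hc₁, X₁, h1⟩ := hU k a b 9 ha hb (by norm_num)
  obtain ⟨c₂, hc₂, X₂, h2⟩ := hS k 1 le_rfl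
  refine ⟨t, ht, min c₁ (c₁ * c₂ / 2 ^ k), lt_min hc₁ (by positivity),
    max 8 (max X₁ X₂), fun X hX al be i j hij hai haj hal hbe hnp hadm => ?_⟩
  have hX8 : 8 ≤ X := (le_max_left _ _).trans hX
  have hX1 : X₁ ≤ 9 * X / 8 := by
    have := (le_max_left _ _).trans ((le_max_right _ _).trans hX)
    linarith
  have hX2 : X₂ ≤ 9 * X / 8 := by
    have := (le_max_right _ _).trans ((le_max_right _ _).trans hX)
    linarith
  have hXX : X ≤ 9 * X / 8 := by linarith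
  have hlogX : 0 < Real.log X := Real.log_pos (by linarith)
  have hlog' : Real.log (9 * X / 8) ≤ 2 * Real.log X := by
    have : Real.log (9 * X / 8) ≤ Real.log (X ^ 2) :=
      Real.log_le_log (by linarith) (by nlinarith)
    rwa [Real.log_pow, Nat.cast_ofNat] at this
  have hlog'0 : 0 < Real.log (9 * X / 8) := Real.log_pos (by linarith)
  obtain ⟨W, hW1, hW2, hW3, hW4⟩ := h1 (9 * X / 8) hX1 al be i j hij hai haj
    (fun l => ⟨(hal l).1, (hal l).2.trans hXX⟩)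
    (fun l => (hbe l).trans (by push_cast; linarith))
    (by
      have a1 : (1 : ℝ) ≤ a := by exact_mod_cast ha
      have a2 := (abs_le.mp (hbe i)).1
      push_cast
      nlinarith) hnp hadm
  constructor
  · intro y hy
    have g1 := hW4 1 (one_dvd _) 0 (by
      intro p hp hp1
      exact absurd (Nat.dvd_one.mp hp1) hp.one_lt.ne')
    have g2 := h2 (9 * X / 8) hX2 al be (fun l => ⟨(hal l).1, (hal l).2.trans hXX⟩)
      (fun l => (hbe l).trans (by push_cast; linarith)) hnp hadm y (by linarith)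
    have e1 : (Icc 1 ⌊9 * X / 8⌋₊).filter (fun p => p.Prime ∧ ¬ p ∣ 1) =
        (Icc 1 ⌊9 * X / 8⌋₊).filter Nat.Prime := by
      apply filter_congr
      intro p _
      constructor
      · exact fun h => h.1
      · exact fun h => ⟨h, fun h1 => h.one_lt.ne' (Nat.dvd_one.mp h1)⟩
    rw [e1, Nat.cast_one, div_one] at g1
    set Q : ℝ := ∏ p ∈ (Icc 1 y).filter Nat.Prime,
      ((1 - (om al be p : ℝ) / p) / (1 - 1 / (p : ℝ)) ^ k) with hQ
    have hQ0 : 0 ≤ Q := by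
      refine prod_nonneg fun p hp => div_nonneg (t42_nonneg al be p) (pow_nonneg ?_ _)
      have hp1 : 1 ≤ p := (mem_Icc.mp (mem_filter.mp hp).1).1
      rw [sub_nonneg]
      exact div_le_one_of_le₀ (by exact_mod_cast hp1) (Nat.cast_nonneg _)
    set Pr : ℝ := ∏ p ∈ (Icc 1 ⌊9 * X / 8⌋₊).filter Nat.Prime, (1 - (om al be p : ℝ) / p) with hPr
    have g3 : X / Real.log X ^ k * Q * (c₂ / 2 ^ k) ≤ 9 * X / 8 * Pr := by
      have g4 : 1 / (2 ^ k * Real.log X ^ k) ≤ 1 / Real.log (9 * X / 8) ^ k := by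
        rw [← mul_pow]
        exact one_div_le_one_div_of_le (pow_pos hlog'0 _) (pow_le_pow_left₀ hlog'0.le hlog' _)
      calc X / Real.log X ^ k * Q * (c₂ / 2 ^ k)
          = X * (c₂ * (1 / (2 ^ k * Real.log X ^ k) * Q)) := by field_simp
        _ ≤ X * (c₂ * (1 / Real.log (9 * X / 8) ^ k * Q)) := by gcongr
        _ ≤ X * Pr := by gcongr
        _ ≤ 9 * X / 8 * Pr := by
            have : 0 ≤ Pr := prod_nonneg fun p _ => t42_nonneg al be p
            gcongr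
    calc min c₁ (c₁ * c₂ / 2 ^ k) * (X / Real.log X ^ k * Q)
        ≤ (c₁ * c₂ / 2 ^ k) * (X / Real.log X ^ k * Q) := by
          gcongr
          exact min_le_right _ _
      _ = c₁ * (X / Real.log X ^ k * Q * (c₂ / 2 ^ k)) := by ring
      _ ≤ c₁ * (9 * X / 8 * Pr) := by gcongr
      _ ≤ ((PtsK t 9 (9 * X / 8) al be i j 1 0).card : ℝ) := g1
      _ ≤ _ := by
          exact_mod_cast card_le_card (t42_sub t hX8 al be i j (fun l => (hal l).1) hbe 1 0)
  · refine ⟨W, hW1, ?_, fun p hp hpW => (hW3 p hp hpW).trans hlog', fun q hq u hu => ?_⟩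
    · refine le_trans ?_ hW2
      exact Real.rpow_le_rpow (by linarith) hXX (by norm_num)
    · have g1 := hW4 q hq u hu
      have g2 : ∏ p ∈ (Icc 1 ⌊2 * X⌋₊).filter (fun p => p.Prime ∧ ¬ p ∣ q),
          (1 - (om al be p : ℝ) / p) ≤
          ∏ p ∈ (Icc 1 ⌊9 * X / 8⌋₊).filter (fun p => p.Prime ∧ ¬ p ∣ q),
          (1 - (om al be p : ℝ) / p) := by
        apply t42_prod _ _ (t42_nonneg al be) (t42_le_one al be)
        apply filter_subset_filter
        apply Icc_subset_Icc le_rfl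
        apply Nat.floor_le_floor
        linarith
      have g3 : 0 ≤ ∏ p ∈ (Icc 1 ⌊2 * X⌋₊).filter (fun p => p.Prime ∧ ¬ p ∣ q),
          (1 - (om al be p : ℝ) / p) := prod_nonneg fun p _ => t42_nonneg al be p
      calc _ ≤ c₁ * (X / (q : ℝ) * ∏ p ∈ (Icc 1 ⌊2 * X⌋₊).filter (fun p => p.Prime ∧ ¬ p ∣ q),
          (1 - (om al be p : ℝ) / p)) := by
            gcongr
            exact min_le_left _ _
        _ ≤ c₁ * (9 * X / 8 / (q : ℝ) *
          ∏ p ∈ (Icc 1 ⌊9 * X / 8⌋₊).filter (fun p => p.Prime ∧ ¬ p ∣ q),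
          (1 - (om al be p : ℝ) / p)) := by gcongr
        _ ≤ ((PtsK t 9 (9 * X / 8) al be i j q u).card : ℝ) := g1
        _ ≤ _ := by
            exact_mod_cast card_le_card (t42_sub t hX8 al be i j (fun l => (hal l).1) hbe q u)

end Pool.Agent.Q117.LF
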