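import Pool.Agent.Q117.LF.Stm4

/-!
Project LF, job T45: five consecutive odd integers whose middle one is `15 m`.
-/

set_option autoImplicit false

namespace Pool.Agent.Q117.LF

open Finset Filter
open Pool.Agent.Q117.GP (Rk)

namespace T45P

/-- the slopes -/
def A : Fin 2 → ℕ := ![1, 15]

/-- the intercepts -/
def H : Fin 2 → Finset ℤ := ![{0}, {-4, -2, 2, 4}]

/-- the slope of the number `l` -/
def mm : Fin 5 → Fin 2 := ![0, 1, 1, 1, 1]

/-- the intercept of the number `l` -/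
def hh : Fin 5 → ℤ := ![0, -4, -2, 2, 4]

theorem five_eq (n : ℕ) (l : Fin 5) : five n l = ((A (mm l) : ℕ) : ℤ) * n + hh l := by
  fin_cases l <;> simp [five, A, mm, hh] <;> ring

theorem hh_mem (l : Fin 5) : hh l ∈ H (mm l) := by
  fin_cases l <;> simp [H, mm, hh]

theorem hh_ne (i j : Fin 5) (h : i ≠ j) : ¬ (mm i = mm j ∧ hh i = hh j) := by
  revert h
  revert i j
  decide

theorem mem_H (m : Fin 2) (h : ℤ) (hm : h ∈ H m) : ∃ l : Fin 5, mm l = m ∧ hh l = h := by
  fin_cases m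
  · simp [H] at hm
    exact ⟨0, rfl, hm.symm⟩
  · simp [H] at hm
    rcases hm with rfl | rfl | rfl | rfl
    · exact ⟨1, rfl, rfl⟩
    · exact ⟨2, rfl, rfl⟩
    · exact ⟨3, rfl, rfl⟩
    · exact ⟨4, rfl, rfl⟩

theorem pig (p : ℕ) (hp : p.Prime) (h7 : 7 ≤ p) : ∃ n : ℕ, ∀ l, ¬ (p : ℤ) ∣ five n l := by
  by_contra h
  push Not at h
  choose f hf using h
  obtain ⟨x, y, hxy, he⟩ := Fintype.exists_ne_map_eq_of_card_lt (fun k : Fin p => f (k : ℕ)) (by
    simp
    omega)
  have h1 := hf (x : ℕ)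
  have h2 := hf (y : ℕ)
  rw [← he] at h2
  rw [five_eq] at h1 h2
  have h3 := dvd_sub h1 h2
  have h4 : ((A (mm (f (x : ℕ))) : ℕ) : ℤ) * (x : ℕ) + hh (f (x : ℕ)) -
      (((A (mm (f (x : ℕ))) : ℕ) : ℤ) * (y : ℕ) + hh (f (x : ℕ))) =
      ((A (mm (f (x : ℕ))) : ℕ) : ℤ) * (((x : ℕ) : ℤ) - ((y : ℕ) : ℤ)) := by
    ring
  rw [h4] at h3
  have h6 : ¬ (p : ℤ) ∣ ((A (mm (f (x : ℕ))) : ℕ) : ℤ) := by
    intro hd
    have hd' : p ∣ A (mm (f (x : ℕ))) := by exact_mod_cast hd
    have hA : A (mm (f (x : ℕ))) = 1 ∨ A (mm (f (x : ℕ))) = 15 := by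
      generalize mm (f (x : ℕ)) = w
      fin_cases w <;> simp [A]
    rcases hA with hA | hA
    · rw [hA] at hd'
      have := Nat.le_of_dvd one_pos hd'
      omega
    · rw [hA] at hd'
      have h15 : (15 : ℕ) = 3 * 5 := by norm_num
      rw [h15] at hd'
      rcases (Nat.Prime.dvd_mul hp).mp hd' with h | h
      · have := Nat.le_of_dvd (by norm_num) h
        omega
      · have := Nat.le_of_dvd (by norm_num) h
        omega
  have h7' := ((Nat.prime_iff_prime_int.1 hp).dvd_or_dvd h3).resolve_left h6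
  have h5 : ((x : ℕ) : ℤ) - ((y : ℕ) : ℤ) = 0 := by
    refine Int.eq_zero_of_abs_lt_dvd h7' ?_
    have := x.2
    have := y.2
    rw [abs_lt]
    constructor <;> omega
  apply hxy
  apply Fin.ext
  omega

theorem adm5 (p : ℕ) (hp : p.Prime) : ∃ n : ℕ, ∀ l, ¬ (p : ℤ) ∣ five n l := by
  rcases Nat.lt_or_ge p 7 with h7 | h7
  · refine ⟨1, ?_⟩
    interval_cases p
    · exact absurd hp (by norm_num)
    · exact absurd hp (by norm_num)
    · decide
    · decide
    · exact absurd hp (by norm_num)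
    · decide
    · exact absurd hp (by norm_num)
  · exact pig p hp h7

theorem adm : AdmF A H := by
  intro p hp
  obtain ⟨n, hn⟩ := adm5 p hp
  refine ⟨n, fun m h hm hd => ?_⟩
  obtain ⟨l, rfl, rfl⟩ := mem_H m h hm
  exact hn l (by rw [five_eq]; exact hd)

end T45P

open T45P in
theorem t45 : St_T45 := by
  classical
  intro hF
  obtain ⟨t, ht, c, hc, X0, h⟩ := hF 2 4 A (by decide) (by decide)
  obtain ⟨X1, hX1⟩ := Rk_large c hc 4
  refine ⟨t, ht, c, hc, max X0 X1, ?_⟩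
  intro X hX i j hij
  have hbig : 4 ≤ c * Rk X := hX1 X ((le_max_right _ _).trans hX)
  have hhb : ∀ l : Fin 5, |(hh l : ℝ)| ≤ c * Rk X := by
    intro l
    refine le_trans ?_ hbig
    fin_cases l <;> norm_num [hh]
  refine (h X ((le_max_left _ _).trans hX) H ?_ ?_ ?_ adm (mm i) (mm j) (hh i) (hh_mem i) (hh j)
    (hh_mem j) (hh_ne i j hij)).trans ?_
  · decide
  · intro m e he
    obtain ⟨l, rfl, rfl⟩ := mem_H m e he
    exact hhb l
  · intro m m' hne e he e' he'
    fin_cases m <;> fin_cases m'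
    · exact absurd rfl hne
    · simp [H] at he he'
      subst he
      rcases he' with rfl | rfl | rfl | rfl <;> simp [A]
    · simp [H] at he he'
      subst he'
      rcases he with rfl | rfl | rfl | rfl <;> simp [A]
    · exact absurd rfl hne
  · refine Nat.cast_le.2 (card_le_card ?_)
    intro n hn
    unfold PtsF at hn
    rw [mem_filter] at hn
    unfold PtsF5
    rw [mem_filter]
    obtain ⟨hr, h1, h3, h4, h5⟩ := hn
    rw [← five_eq] at h3 h4
    refine ⟨hr, h1, h3, h4, fun l => ?_, fun s hs => ⟨fun hs0 => ?_, fun a1 a2 a3 a4 => ?_⟩⟩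
    · have h6 := (h5 (mm l) (hh l) (hhb l)).2.1 (hh_mem l)
      rwa [← five_eq] at h6
    · have h6 := (h5 0 s hs).2.2 (by simpa [H] using hs0)
      have e : ((A 0 : ℕ) : ℤ) * n + s = (n : ℤ) + s := by simp [A]
      rwa [e] at h6
    · have h6 := (h5 1 s hs).2.2 (by simp [H, a1, a2, a3, a4])
      have e : ((A 1 : ℕ) : ℤ) * n + s = 15 * (n : ℤ) + s := by simp [A]
      rwa [e] at h6

end Pool.Agent.Q117.LF
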