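import Pool.Agent.Q117.LF.Stm4
import Pool.Agent.Q117.LF.Rkm
import Pool.Agent.Q68.LF.Tools

/-!
Project LF, job T55: every even number is a sum of two members of isolated pairs of almost twin primes.
-/

set_option autoImplicit false

namespace Pool.Agent.Q117.LF

open Finset Filter
open Pool.Agent.Q117.GP (Rk)
open Pool.Agent.Q68.LF

namespace T55P

theorem Ro_neg {z : ℝ} {m : ℤ} (h : Ro z m) : Ro z (-m) := fun p hp hd => h p hp ((dvd_neg).mp hd)

theorem Ro_neg' {z : ℝ} {m : ℤ} (h : Ro z (-m)) : Ro z m := by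
  have := Ro_neg h
  rwa [neg_neg] at this

theorem Pt_neg {z : ℝ} {m : ℤ} (h : Pt z m) : Pt z (-m) :=
  ⟨by rw [Int.natAbs_neg]; exact h.1, Ro_neg h.2⟩

/-- few prime factors -/
theorem om_le (v : ℤ) (z : ℝ) :
    ((v.natAbs.primeFactors.filter (fun p : ℕ => (p : ℝ) ≤ z)).card : ℝ) ≤ 2 * Real.log (max 1 |(v : ℝ)|) := by
  have h0 : (v.natAbs.primeFactors.filter (fun p : ℕ => (p : ℝ) ≤ z)).card ≤ v.natAbs.primeFactors.card :=
    card_le_card (filter_subset _ _)
  have h0' : ((v.natAbs.primeFactors.filter (fun p : ℕ => (p : ℝ) ≤ z)).card : ℝ) ≤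
      (v.natAbs.primeFactors.card : ℝ) := by exact_mod_cast h0
  refine h0'.trans ?_
  by_cases hv : v = 0
  · subst hv
    simp
  · have hn : 0 < v.natAbs := Int.natAbs_pos.mpr hv
    have h1 : 2 ^ v.natAbs.primeFactors.card ≤ v.natAbs := by
      refine (Finset.pow_card_le_prod _ (fun p => p) 2 ?_).trans (Nat.le_of_dvd hn (Nat.prod_primeFactors_dvd _))
      intro p hp
      exact (Nat.prime_of_mem_primeFactors hp).two_le
    have h2 : (2 : ℝ) ^ v.natAbs.primeFactors.card ≤ |(v : ℝ)| := by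
      have : ((2 ^ v.natAbs.primeFactors.card : ℕ) : ℝ) ≤ (v.natAbs : ℝ) := by exact_mod_cast h1
      rw [Nat.cast_natAbs] at this
      push_cast at this
      exact this
    have h3 : (2 : ℝ) ^ v.natAbs.primeFactors.card ≤ max 1 |(v : ℝ)| := h2.trans (le_max_right _ _)
    have h4 := Real.log_le_log (by positivity) h3
    rw [Real.log_pow] at h4
    have h5 := Real.log_two_gt_d9
    have h6 : (0 : ℝ) ≤ (v.natAbs.primeFactors.card : ℝ) := Nat.cast_nonneg _
    nlinarith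

/-- an upper bound for Rankin's function -/
theorem Rk_le : ∀ᶠ X : ℝ in atTop, Rk X ≤ (Real.log X) ^ 2 := by
  have hlog := Real.tendsto_log_atTop
  have h2 : Tendsto (fun X : ℝ => Real.log (Real.log X)) atTop atTop := hlog.comp hlog
  have h3 : Tendsto (fun X : ℝ => Real.log (Real.log (Real.log X))) atTop atTop := hlog.comp h2
  have h4 : Tendsto (fun X : ℝ => Real.log (Real.log (Real.log (Real.log X)))) atTop atTop :=
    hlog.comp h3
  filter_upwards [hlog.eventually_ge_atTop 1, h2.eventually_ge_atTop 1, h3.eventually_ge_atTop 1,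
    h4.eventually_ge_atTop 1] with X g2 g3 g4 g5
  obtain ⟨T, hT⟩ : ∃ T, T = Real.log X := ⟨_, rfl⟩
  obtain ⟨A, hA⟩ : ∃ A, A = Real.log T := ⟨_, rfl⟩
  obtain ⟨B, hB⟩ : ∃ B, B = Real.log A := ⟨_, rfl⟩
  obtain ⟨D, hD⟩ : ∃ D, D = Real.log B := ⟨_, rfl⟩
  have hR : Rk X = T * A * D / B ^ 2 := by
    unfold Rk
    rw [← hT, ← hA, ← hB, ← hD]
  rw [hR, ← hT]
  rw [← hT] at g2 g3 g4 g5
  rw [← hA] at g3 g4 g5
  rw [← hB] at g4 g5
  rw [← hD] at g5
  have a1 : A ≤ T := by rw [hA]; exact (Real.log_le_sub_one_of_pos (by linarith)).trans (by linarith)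
  have a2 : D ≤ B := by rw [hD]; exact (Real.log_le_sub_one_of_pos (by linarith)).trans (by linarith)
  have a3 : B ≤ B ^ 2 := by nlinarith
  rw [div_le_iff₀ (by positivity)]
  have a4 : T * A ≤ T ^ 2 := by nlinarith
  have a5 : D ≤ B ^ 2 := a2.trans a3
  exact mul_le_mul a4 a5 (by linarith) (by positivity)

/-- all that is used about the size of `N` -/
theorem big (t' t : ℕ) (ht' : 1 ≤ t') (ht : t' + 1 ≤ t) (c' c X0 : ℝ) (hc' : 0 < c') (hc : 0 < c)
    (hcc : c ≤ c' / 2) : ∃ N0 : ℕ, ∀ N : ℕ, N0 ≤ N →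
      X0 ≤ (N : ℝ) / 3 ∧ (N : ℝ) ^ (98 / 100 : ℝ) ≤ ((N : ℝ) / 3) ^ (99 / 100 : ℝ) ∧
      (N : ℝ) ^ (1 / 9 : ℝ) ≤ ((N : ℝ) / 3) ^ (1 / 8 : ℝ) ∧
      (N : ℝ) ^ (1 / (t : ℝ)) ≤ ((N : ℝ) / 3) ^ (1 / (t' : ℝ)) ∧
      c * Rk N ≤ c' * Rk ((N : ℝ) / 3) ∧ c * Real.log N ≤ c' * Real.log ((N : ℝ) / 3) ∧
      Real.log ((N : ℝ) / 3) ≤ Real.log N ∧
      c * (Real.log N / Real.log (Real.log N)) ≤
        c' * (Real.log ((N : ℝ) / 3) / Real.log (Real.log ((N : ℝ) / 3))) ∧
      (∀ v : ℤ, |(v : ℝ)| ≤ c * Rk N + c * Real.log N + 2 →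
        2 * Real.log (max 1 |(v : ℝ)|) < c' * (Real.log ((N : ℝ) / 3) / Real.log (Real.log ((N : ℝ) / 3)))) ∧
      c * Rk N + c * Real.log N + 10 < N ∧ 1000 ≤ N ∧ 0 ≤ Rk N := by
  classical
  obtain ⟨X2, hX2⟩ := pow_ev (98 / 100) (99 / 100) 3 1 (by norm_num) (by norm_num)
  obtain ⟨X3, hX3⟩ := pow_ev (1 / 9) (1 / 8) 3 1 (by norm_num) (by norm_num)
  have ht'0 : (0 : ℝ) < t' := by exact_mod_cast ht'
  obtain ⟨X4, hX4⟩ := pow_ev (1 / ((t' + 1 : ℕ) : ℝ)) (1 / (t' : ℝ)) 3 1 (by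
    push_cast
    exact one_div_lt_one_div_of_lt ht'0 (by linarith)) (by norm_num)
  obtain ⟨X5, hX5⟩ := rkm 3 (by norm_num)
  have hL : 0 ≤ Real.log (2 * c + 2) := Real.log_nonneg (by linarith)
  have hlog := Real.tendsto_log_atTop
  have hl2 : Tendsto (fun X : ℝ => Real.log (Real.log X)) atTop atTop := hlog.comp hlog
  have o1 := hlog.eventually ((Real.isLittleO_pow_log_id_atTop (n := 2)).def
    (show 0 < c' / (2 * (4 * Real.log (2 * c + 2) + 8)) by positivity))
  have o2 := (Real.isLittleO_pow_log_id_atTop (n := 2)).def (show 0 < 1 / (4 * c) by positivity)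
  have hev : ∀ᶠ y : ℝ in atTop,
      X0 ≤ y / 3 ∧ y ^ (98 / 100 : ℝ) ≤ (y / 3) ^ (99 / 100 : ℝ) ∧
      y ^ (1 / 9 : ℝ) ≤ (y / 3) ^ (1 / 8 : ℝ) ∧
      y ^ (1 / (t : ℝ)) ≤ (y / 3) ^ (1 / (t' : ℝ)) ∧
      c * Rk y ≤ c' * Rk (y / 3) ∧ c * Real.log y ≤ c' * Real.log (y / 3) ∧
      Real.log (y / 3) ≤ Real.log y ∧
      c * (Real.log y / Real.log (Real.log y)) ≤
        c' * (Real.log (y / 3) / Real.log (Real.log (y / 3))) ∧
      (∀ v : ℤ, |(v : ℝ)| ≤ c * Rk y + c * Real.log y + 2 →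
        2 * Real.log (max 1 |(v : ℝ)|) < c' * (Real.log (y / 3) / Real.log (Real.log (y / 3)))) ∧
      c * Rk y + c * Real.log y + 10 < y ∧ 1000 ≤ y ∧ 0 ≤ Rk y := by
    filter_upwards [eventually_ge_atTop (max (3 * X0) (max (max X2 X3) (max X4 X5))),
      eventually_ge_atTop (1000 : ℝ), hlog.eventually_ge_atTop (max 3 (2 * Real.log 3)),
      hl2.eventually_ge_atTop 1, Rk_le, o1, o2] with y h1 h2 h3 h4 h5 h6 h7
    have g0 : 3 * X0 ≤ y := (le_max_left _ _).trans h1
    have g2 : X2 ≤ y := ((le_max_left _ _).trans (le_max_left _ _)).trans ((le_max_right _ _).trans h1)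
    have g3 : X3 ≤ y := ((le_max_right _ _).trans (le_max_left _ _)).trans ((le_max_right _ _).trans h1)
    have g4 : X4 ≤ y := ((le_max_left _ _).trans (le_max_right _ _)).trans ((le_max_right _ _).trans h1)
    have g5 : X5 ≤ y := ((le_max_right _ _).trans (le_max_right _ _)).trans ((le_max_right _ _).trans h1)
    have y0 : 0 < y := by linarith
    have T3 : 3 ≤ Real.log y := (le_max_left _ _).trans h3
    have T2 : 2 * Real.log 3 ≤ Real.log y := (le_max_right _ _).trans h3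
    have p2 := hX2 y g2
    have p3 := hX3 y g3
    have p4 := hX4 y g4
    obtain ⟨r1, r2⟩ := hX5 y g5
    rw [one_mul] at p2 p3 p4
    have p4' : y ^ (1 / (t : ℝ)) ≤ y ^ (1 / ((t' + 1 : ℕ) : ℝ)) := by
      refine Real.rpow_le_rpow_of_exponent_le (by linarith) ?_
      refine one_div_le_one_div_of_le (by positivity) ?_
      exact_mod_cast ht
    have l3 : Real.log (y / 3) = Real.log y - Real.log 3 := Real.log_div y0.ne' (by norm_num)
    have l3' : 0 ≤ Real.log 3 := Real.log_nonneg (by norm_num)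
    have l4 : Real.log y / 2 ≤ Real.log (y / 3) := by rw [l3]; linarith
    have l5 : Real.log (y / 3) ≤ Real.log y := by rw [l3]; linarith
    have A1 : Real.log (Real.log (y / 3)) ≤ Real.log (Real.log y) :=
      Real.log_le_log (by linarith) l5
    have A2 : 0 < Real.log (Real.log (y / 3)) := Real.log_pos (by linarith)
    have q1 : (Real.log y / 2) / Real.log (Real.log y) ≤
        Real.log (y / 3) / Real.log (Real.log (y / 3)) :=
      div_le_div₀ (by linarith) l4 A2 A1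
    have A0 : 0 < Real.log (Real.log y) := by linarith
    refine ⟨by linarith, p2, p3, p4'.trans p4, ?_, ?_, l5, ?_, ?_, ?_, h2, r1.le⟩
    · have r2' : Rk y ≤ 2 * Rk (y / 3) := by exact_mod_cast r2
      have a1 := mul_le_mul_of_nonneg_right hcc r1.le
      have a2 := mul_le_mul_of_nonneg_left r2' (by positivity : 0 ≤ c' / 2)
      linarith
    · have a1 := mul_le_mul_of_nonneg_right hcc (by linarith : 0 ≤ Real.log y)
      have a2 := mul_le_mul_of_nonneg_left l4 hc'.le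
      linarith
    · have a1 := mul_le_mul_of_nonneg_left q1 hc'.le
      have a2 : 0 ≤ Real.log y / Real.log (Real.log y) := div_nonneg (by linarith) A0.le
      have a3 := mul_le_mul_of_nonneg_right hcc a2
      have a4 : c' * (Real.log y / 2 / Real.log (Real.log y)) =
        c' / 2 * (Real.log y / Real.log (Real.log y)) := by ring
      linarith
    · intro v hv
      have b1 : |(v : ℝ)| ≤ (2 * c + 2) * Real.log y ^ 2 := by
        have u1 : 1 ≤ Real.log y ^ 2 := one_le_pow₀ (by linarith)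
        have u2 : Real.log y ≤ Real.log y ^ 2 := by nlinarith
        have u3 := mul_le_mul_of_nonneg_left h5 hc.le
        have u4 := mul_le_mul_of_nonneg_left u2 hc.le
        linarith
      have b2 : (1 : ℝ) ≤ (2 * c + 2) * Real.log y ^ 2 := by
        have u1 : 1 ≤ Real.log y ^ 2 := one_le_pow₀ (by linarith)
        nlinarith
      have b3 : Real.log (max 1 |(v : ℝ)|) ≤ Real.log (2 * c + 2) + 2 * Real.log (Real.log y) := by
        have u1 := Real.log_le_log (lt_of_lt_of_le one_pos (le_max_left _ _)) (max_le b2 b1)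
        rw [Real.log_mul (by positivity) (by positivity), Real.log_pow] at u1
        push_cast at u1
        exact u1
      have b4 : (4 * Real.log (2 * c + 2) + 8) * Real.log (Real.log y) ^ 2 ≤ c' / 2 * Real.log y := by
        rw [Real.norm_of_nonneg (by positivity), id, Real.norm_of_nonneg (by linarith)] at h6
        have u1 := mul_le_mul_of_nonneg_left h6 (by positivity : 0 ≤ 4 * Real.log (2 * c + 2) + 8)
        have u2 : (4 * Real.log (2 * c + 2) + 8) *
            (c' / (2 * (4 * Real.log (2 * c + 2) + 8)) * Real.log y) = c' / 2 * Real.log y := by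
          have hD : 0 < 4 * Real.log (2 * c + 2) + 8 := by positivity
          generalize 4 * Real.log (2 * c + 2) + 8 = D at hD
          field_simp
        rw [u2] at u1
        exact u1
      have b5 : (4 * Real.log (2 * c + 2) + 8 * Real.log (Real.log y)) * Real.log (Real.log y) ≤
          (4 * Real.log (2 * c + 2) + 8) * Real.log (Real.log y) ^ 2 := by
        have u1 : Real.log (Real.log y) ≤ Real.log (Real.log y) ^ 2 := by nlinarith
        nlinarith
      have b6 : 2 * (Real.log (2 * c + 2) + 2 * Real.log (Real.log y)) <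
          c' * ((Real.log y / 2) / Real.log (Real.log y)) := by
        rw [mul_div_assoc', lt_div_iff₀ A0]
        have : 0 < c' * Real.log y := by
          have : 0 < Real.log y := by linarith
          positivity
        nlinarith
      have b7 := mul_le_mul_of_nonneg_left q1 hc'.le
      linarith
    · rw [Real.norm_of_nonneg (by positivity), id, Real.norm_of_nonneg y0.le] at h7
      have u2 : Real.log y ≤ Real.log y ^ 2 := by nlinarith
      have u3 := mul_le_mul_of_nonneg_left h5 hc.le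
      have u4 := mul_le_mul_of_nonneg_left u2 hc.le
      have u5 := mul_le_mul_of_nonneg_left h7 (by positivity : 0 ≤ 2 * c)
      have u6 : 2 * c * (1 / (4 * c) * y) = y / 2 := by field_simp; ring
      rw [u6] at u5
      linarith
  obtain ⟨Y, hY⟩ := eventually_atTop.1 hev
  refine ⟨⌈Y⌉₊, fun N hN => ?_⟩
  have hN' : Y ≤ (N : ℝ) := (Nat.le_ceil Y).trans (by exact_mod_cast hN)
  obtain ⟨a1, a2, a3, a4, a5, a6, a7, a8, a9, a10, a11, a12⟩ := hY N hN'
  exact ⟨a1, a2, a3, a4, a5, a6, a7, a8, a9, a10, by exact_mod_cast a11, a12⟩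

/-- the intercepts -/
def bb (N : ℕ) (a b : ℤ) : Fin 4 → ℤ := ![0, a, -(N : ℤ), -(N : ℤ) - b]

/-- the slopes -/
def A4 : Fin 4 → ℕ := fun _ => 1

theorem fm0 (N x : ℕ) (a b : ℤ) : fm A4 (bb N a b) 0 x = x := by simp [fm, A4, bb]

theorem fm1 (N x : ℕ) (a b : ℤ) : fm A4 (bb N a b) 1 x = x + a := by simp [fm, A4, bb]

theorem fm2 (N x : ℕ) (a b : ℤ) : fm A4 (bb N a b) 2 x = x - N := by
  simp [fm, A4, bb]
  ring

theorem fm3 (N x : ℕ) (a b : ℤ) : fm A4 (bb N a b) 3 x = x - N - b := by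
  simp [fm, A4, bb]
  ring

theorem four_or (N x : ℕ) (a b : ℤ) (l : Fin 4) :
    four N a b x l = fm A4 (bb N a b) l x ∨ four N a b x l = -(fm A4 (bb N a b) l x) := by
  fin_cases l
  · left
    change four N a b x 0 = fm A4 (bb N a b) 0 x
    rw [fm0]
    simp [four]
  · left
    change four N a b x 1 = fm A4 (bb N a b) 1 x
    rw [fm1]
    simp [four]
  · right
    change four N a b x 2 = -fm A4 (bb N a b) 2 x
    rw [fm2]
    simp [four]
  · right
    change four N a b x 3 = -fm A4 (bb N a b) 3 x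
    rw [fm3]
    simp [four]
    ring

theorem pig (p : ℕ) (hp : 5 ≤ p) (e : Fin 4 → ℤ) : ∃ n : ℕ, ∀ l, ¬ (p : ℤ) ∣ (n : ℤ) + e l := by
  by_contra h
  push Not at h
  choose f hf using h
  obtain ⟨x, y, hxy, he⟩ := Fintype.exists_ne_map_eq_of_card_lt (fun k : Fin p => f (k : ℕ)) (by
    simp
    omega)
  have h1 := hf (x : ℕ)
  have h2 := hf (y : ℕ)
  rw [← he] at h2
  have h3 := dvd_sub h1 h2
  have h4 : ((x : ℕ) : ℤ) + e (f (x : ℕ)) - (((y : ℕ) : ℤ) + e (f (x : ℕ))) = ((x : ℕ) : ℤ) - ((y : ℕ) : ℤ) := by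
    ring
  rw [h4] at h3
  have h5 : ((x : ℕ) : ℤ) - ((y : ℕ) : ℤ) = 0 := by
    refine Int.eq_zero_of_abs_lt_dvd h3 ?_
    have := x.2
    have := y.2
    rw [abs_lt]
    constructor <;> omega
  apply hxy
  apply Fin.ext
  omega

theorem core (i j i₀ : Fin 4) (hi : i.val ≤ 1) (t' : ℕ) (ht' : 1 ≤ t') (c' X0 : ℝ) (hc' : 0 < c')
    (H : ∀ X : ℝ, X0 ≤ X → ∀ be : Fin 4 → ℤ, (∀ l, |(be l : ℝ)| ≤ (8 : ℕ) * X) →
      X / (8 : ℕ) ≤ A4 i * X + be i →
      (∀ l m, l ≠ m → (A4 l : ℤ) * be m ≠ A4 m * be l) → AdmS A4 be →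
      ∃ Z : Fin 4 → Finset ℤ, (∀ l, (Z l).card < 4) ∧
        (∀ l, ∀ u ∈ Z l, ∃ m, m ≠ l ∧ c' * (Real.log X / Real.log (Real.log X)) ≤
          (((A4 m * (be l + u) - A4 l * be m).natAbs.primeFactors.filter
            (fun p : ℕ => (p : ℝ) ≤ Real.log X)).card : ℝ)) ∧
        X ^ (99 / 100 : ℝ) ≤ ((PtsI t' 8 X c' A4 be i j i₀ Z).card : ℝ))
    (t : ℕ) (ht : t' + 1 ≤ t) (c : ℝ) (hc : 0 < c) (hcc : c ≤ c' / 2) :
    ∃ N0 : ℕ, ∀ N : ℕ, N0 ≤ N → Even N → ∀ a b : ℤ, (a = 2 ∨ a = -2) → (b = 2 ∨ b = -2) →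
    (∃ x : ℕ, ∀ l, ¬ (3 : ℤ) ∣ four N a b x l) → ∀ D D' : ℝ,
    (i₀ = 0 ∧ D = c * Rk N ∧ D' = c * Real.log N ∨ i₀ = 2 ∧ D = c * Real.log N ∧ D' = c * Rk N) →
    ∃ Z Z' : Finset ℤ, FewT c N b Z ∧ FewT c N a Z' ∧
      (N : ℝ) ^ (98 / 100 : ℝ) ≤ ((PtsT t N a b D D' Z Z' i j).card : ℝ) := by
  classical
  obtain ⟨N0, hN0⟩ := big t' t ht' ht c' c X0 hc' hc hcc
  refine ⟨N0, fun N hN hev a b ha hb hx D D' hD => ?_⟩
  obtain ⟨b1, b2, b3, b4, b5, b6, b7, b8, b9, b10, b11, b12⟩ := hN0 N hN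
  have hNr : (1000 : ℝ) ≤ N := by exact_mod_cast b11
  have hlN : 0 ≤ Real.log (N : ℝ) := Real.log_nonneg (by linarith)
  have hlX : 0 ≤ Real.log ((N : ℝ) / 3) := Real.log_nonneg (by linarith)
  have pR : 0 ≤ c * Rk N := mul_nonneg hc.le b12
  have pL : 0 ≤ c * Real.log N := mul_nonneg hc.le hlN
  have hDle : D ≤ c * Rk N + c * Real.log N := by
    rcases hD with ⟨_, h1, h2⟩ | ⟨_, h1, h2⟩ <;> linarith
  have hDle' : D' ≤ c * Rk N + c * Real.log N := by
    rcases hD with ⟨_, h1, h2⟩ | ⟨_, h1, h2⟩ <;> linarith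
  have ha2 : |(a : ℝ)| ≤ 2 := by rcases ha with rfl | rfl <;> norm_num
  have hb2 : |(b : ℝ)| ≤ 2 := by rcases hb with rfl | rfl <;> norm_num
  have ha3 := abs_le.mp ha2
  have hb3 := abs_le.mp hb2
  obtain ⟨Z, hZc, hZ, hcard⟩ := H ((N : ℝ) / 3) b1 (bb N a b) (by
    intro l
    fin_cases l
    · simp [bb]
      linarith
    · simp [bb]
      linarith
    · simp [bb]
      linarith
    · have : |((bb N a b 3 : ℤ) : ℝ)| ≤ 8 * ((N : ℝ) / 3) := by
        have e : ((bb N a b 3 : ℤ) : ℝ) = -(N : ℝ) - b := by simp [bb]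
        rw [e, abs_le]
        constructor <;> linarith
      exact_mod_cast this) (by
    have e : ((A4 i : ℕ) : ℝ) = 1 := by simp [A4]
    rw [e]
    have : -2 ≤ ((bb N a b i : ℤ) : ℝ) := by
      have hi' : i = 0 ∨ i = 1 := by
        rcases Nat.lt_or_ge i.val 1 with h | h
        · left
          apply Fin.ext
          change i.val = 0
          omega
        · right
          apply Fin.ext
          change i.val = 1
          omega
      rcases hi' with rfl | rfl
      · simp [bb]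
      · simp [bb]
        linarith
    push_cast
    linarith) (by
    intro l m hlm
    rcases ha with rfl | rfl <;> rcases hb with rfl | rfl <;> fin_cases l <;> fin_cases m <;>
      simp [A4, bb] at hlm ⊢ <;> omega) (by
    intro p hp
    rcases Nat.lt_or_ge p 5 with h5 | h5
    · interval_cases p
      · exact absurd hp (by norm_num)
      · exact absurd hp (by norm_num)
      · obtain ⟨r, hr⟩ := hev
        refine ⟨1, fun l => ?_⟩
        rcases ha with rfl | rfl <;> rcases hb with rfl | rfl <;> fin_cases l <;>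
          simp [fm, A4, bb, hr] <;> omega
      · obtain ⟨x, hx⟩ := hx
        refine ⟨x, fun l hd => ?_⟩
        rcases four_or N x a b l with h | h
        · exact hx l (by rw [h]; exact_mod_cast hd)
        · exact hx l (by rw [h]; exact (dvd_neg).mpr (by exact_mod_cast hd))
      · exact absurd hp (by norm_num)
    · obtain ⟨n, hn⟩ := pig p h5 (bb N a b)
      refine ⟨n, fun l hd => hn l ?_⟩
      simpa [fm, A4] using hd)
  have tr : ∀ v w : ℤ, v.natAbs = w.natAbs →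
      c' * (Real.log ((N : ℝ) / 3) / Real.log (Real.log ((N : ℝ) / 3))) ≤
        ((v.natAbs.primeFactors.filter (fun p : ℕ => (p : ℝ) ≤ Real.log ((N : ℝ) / 3))).card : ℝ) →
      c * (Real.log N / Real.log (Real.log N)) ≤
        ((w.natAbs.primeFactors.filter (fun p : ℕ => (p : ℝ) ≤ Real.log N)).card : ℝ) := by
    intro v w hvw h
    refine (b8.trans h).trans ?_
    rw [hvw]
    refine Nat.cast_le.2 (card_le_card ?_)
    intro p hp
    rw [mem_filter] at hp ⊢
    exact ⟨hp.1, hp.2.trans b7⟩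
  have small : ∀ v : ℤ, |(v : ℝ)| ≤ c * Rk N + c * Real.log N + 2 →
      ¬ c' * (Real.log ((N : ℝ) / 3) / Real.log (Real.log ((N : ℝ) / 3))) ≤
        ((v.natAbs.primeFactors.filter (fun p : ℕ => (p : ℝ) ≤ Real.log ((N : ℝ) / 3))).card : ℝ) := by
    intro v hv h
    have h1 := om_le v (Real.log ((N : ℝ) / 3))
    have h2 := b9 v hv
    linarith
  refine ⟨(Z 0).filter (fun u : ℤ => |(u : ℝ)| ≤ D),
    ((Z 2).filter (fun u : ℤ => |(u : ℝ)| ≤ D')).image (fun u => -u), ⟨?_, ?_⟩, ⟨?_, ?_⟩, ?_⟩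
  · have h1 := hZc 0
    have h2 := card_le_card (filter_subset (fun u : ℤ => |(u : ℝ)| ≤ D) (Z 0))
    omega
  · intro s hs
    rw [mem_filter] at hs
    obtain ⟨hs1, hs2⟩ := hs
    obtain ⟨m, hm0, hm⟩ := hZ 0 s hs1
    fin_cases m
    · exact absurd rfl hm0
    · exfalso
      have e : (((A4 1 : ℕ) : ℤ) * (bb N a b 0 + s) - (A4 0 : ℕ) * bb N a b 1) = s - a := by
        simp [A4, bb]
      change c' * _ ≤ (((((A4 1 : ℕ) : ℤ) * (bb N a b 0 + s) - (A4 0 : ℕ) * bb N a b 1).natAbs.primeFactors.filter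
        (fun p : ℕ => (p : ℝ) ≤ Real.log ((N : ℝ) / 3))).card : ℝ) at hm
      rw [e] at hm
      refine small (s - a) ?_ hm
      push_cast
      have := abs_sub (s : ℝ) (a : ℝ)
      linarith
    · refine ⟨0, Or.inl rfl, tr _ _ ?_ hm⟩
      simp [A4, bb]
      congr 1
      ring
    · refine ⟨b, Or.inr rfl, tr _ _ ?_ hm⟩
      simp [A4, bb]
      congr 1
      ring
  · have h1 := hZc 2
    have h2 := card_le_card (filter_subset (fun u : ℤ => |(u : ℝ)| ≤ D') (Z 2))
    have h3 := card_image_le (s := (Z 2).filter (fun u : ℤ => |(u : ℝ)| ≤ D')) (f := fun u : ℤ => -u)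
    omega
  · intro s hs
    rw [mem_image] at hs
    obtain ⟨u, hu, rfl⟩ := hs
    rw [mem_filter] at hu
    obtain ⟨hs1, hs2⟩ := hu
    obtain ⟨m, hm0, hm⟩ := hZ 2 u hs1
    fin_cases m
    · refine ⟨0, Or.inl rfl, tr _ _ ?_ hm⟩
      rw [← Int.natAbs_neg]
      simp [A4, bb]
      congr 1
      ring
    · refine ⟨a, Or.inr rfl, tr _ _ ?_ hm⟩
      rw [← Int.natAbs_neg]
      simp [A4, bb]
      congr 1
      ring
    · exact absurd rfl hm0
    · exfalso
      have e : (((A4 3 : ℕ) : ℤ) * (bb N a b 2 + u) - (A4 2 : ℕ) * bb N a b 3) = u + b := by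
        simp [A4, bb]
      change c' * _ ≤ (((((A4 3 : ℕ) : ℤ) * (bb N a b 2 + u) - (A4 2 : ℕ) * bb N a b 3).natAbs.primeFactors.filter
        (fun p : ℕ => (p : ℝ) ≤ Real.log ((N : ℝ) / 3))).card : ℝ) at hm
      rw [e] at hm
      refine small (u + b) ?_ hm
      push_cast
      have := abs_add_le (u : ℝ) (b : ℝ)
      linarith
  · refine (b2.trans hcard).trans (Nat.cast_le.2 (card_le_card ?_))
    intro n hn
    unfold PtsI at hn
    rw [mem_filter, mem_range] at hn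
    obtain ⟨h0, h1, h2, h3, h4, h5, h6, h7⟩ := hn
    push_cast at h2
    have n1 : (N : ℝ) < 3 * n := by linarith
    have n2 : 8 * (n : ℝ) ≤ 3 * N := by linarith
    have n1' : N < 3 * n := by exact_mod_cast n1
    have n2' : 8 * n ≤ 3 * N := by exact_mod_cast n2
    have roP : ∀ l, Ro ((N : ℝ) ^ (1 / (t : ℝ))) (four N a b n l) := by
      intro l
      rcases four_or N n a b l with h | h
      · rw [h]
        exact Ro_mono b4 (h6 l)
      · rw [h]
        exact Ro_neg (Ro_mono b4 (h6 l))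
    unfold PtsT
    rw [mem_filter, mem_Icc]
    refine ⟨⟨by omega, by omega⟩, by omega, by omega, ?_, ?_, roP, ?_, ?_⟩
    · rcases four_or N n a b i with h | h
      · rw [h]
        exact h4
      · rw [h, Int.natAbs_neg]
        exact h4
    · rcases four_or N n a b j with h | h
      · rw [h]
        exact Pt_mono b3 h5
      · rw [h]
        exact Pt_neg (Pt_mono b3 h5)
    · intro s hs hs0 hsa hsZ hR
      have hsb := abs_le.mp (hs.trans hDle)
      have hsN : |(s : ℝ)| < N - 10 := lt_of_le_of_lt (hs.trans hDle) (by linarith)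
      have hsN' := abs_lt.mp hsN
      have s1 : -(N : ℤ) + 10 < s := by
        have : (-(N : ℝ) + 10) < s := by linarith
        exact_mod_cast this
      refine h7 0 s ?_ ?_ ?_ ?_
      · rcases hD with ⟨e1, e2, e3⟩ | ⟨e1, e2, e3⟩
        · rw [e1, if_pos rfl]
          rw [e2] at hs
          exact hs.trans b5
        · rw [e1, if_neg (by decide)]
          rw [e2] at hs
          exact hs.trans b6
      · intro hmem
        exact hsZ (mem_filter.mpr ⟨hmem, hs⟩)
      · intro m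
        rw [fm0]
        fin_cases m
        · change (n : ℤ) + s ≠ fm A4 (bb N a b) 0 n
          rw [fm0]
          omega
        · change (n : ℤ) + s ≠ fm A4 (bb N a b) 1 n
          rw [fm1]
          omega
        · change (n : ℤ) + s ≠ fm A4 (bb N a b) 2 n
          rw [fm2]
          omega
        · change (n : ℤ) + s ≠ fm A4 (bb N a b) 3 n
          rw [fm3]
          rcases hb with rfl | rfl <;> omega
      · rw [fm0]
        exact Ro_mono b7 hR
    · intro s hs hs0 hsb hsZ hR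
      have hsN : |(s : ℝ)| < N - 10 := lt_of_le_of_lt (hs.trans hDle') (by linarith)
      have hsN' := abs_lt.mp hsN
      have s1 : -(N : ℤ) + 10 < s := by
        have : (-(N : ℝ) + 10) < s := by linarith
        exact_mod_cast this
      refine h7 2 (-s) ?_ ?_ ?_ ?_
      · have hs' : |((-s : ℤ) : ℝ)| ≤ D' := by
          push_cast
          rw [abs_neg]
          exact hs
        rcases hD with ⟨e1, e2, e3⟩ | ⟨e1, e2, e3⟩
        · rw [e1, if_neg (by decide)]
          rw [e3] at hs'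
          exact hs'.trans b6
        · rw [e1, if_pos rfl]
          rw [e3] at hs'
          exact hs'.trans b5
      · intro hmem
        refine hsZ (mem_image.mpr ⟨-s, mem_filter.mpr ⟨hmem, ?_⟩, by ring⟩)
        push_cast
        rw [abs_neg]
        exact hs
      · intro m
        rw [fm2]
        fin_cases m
        · change (n : ℤ) - N + -s ≠ fm A4 (bb N a b) 0 n
          rw [fm0]
          omega
        · change (n : ℤ) - N + -s ≠ fm A4 (bb N a b) 1 n
          rw [fm1]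
          rcases ha with rfl | rfl <;> omega
        · change (n : ℤ) - N + -s ≠ fm A4 (bb N a b) 2 n
          rw [fm2]
          omega
        · change (n : ℤ) - N + -s ≠ fm A4 (bb N a b) 3 n
          rw [fm3]
          omega
      · rw [fm2]
        have e : (n : ℤ) - N + -s = -((N : ℤ) - n + s) := by ring
        rw [e]
        exact Ro_neg (Ro_mono b7 hR)

end T55P

open T55P in
theorem t55 : St_T55 := by
  classical
  intro hI
  have H : ∀ p : Fin 4 × Fin 4 × Fin 4, ∃ t' : ℕ, ∃ c' X0 : ℝ, 1 ≤ t' ∧ 0 < c' ∧ (p.1 ≠ p.2.1 →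
      ∀ X : ℝ, X0 ≤ X → ∀ be : Fin 4 → ℤ, (∀ l, |(be l : ℝ)| ≤ (8 : ℕ) * X) →
      X / (8 : ℕ) ≤ A4 p.1 * X + be p.1 →
      (∀ l m, l ≠ m → (A4 l : ℤ) * be m ≠ A4 m * be l) → AdmS A4 be →
      ∃ Z : Fin 4 → Finset ℤ, (∀ l, (Z l).card < 4) ∧
        (∀ l, ∀ u ∈ Z l, ∃ m, m ≠ l ∧ c' * (Real.log X / Real.log (Real.log X)) ≤
          (((A4 m * (be l + u) - A4 l * be m).natAbs.primeFactors.filter
            (fun p : ℕ => (p : ℝ) ≤ Real.log X)).card : ℝ)) ∧
        X ^ (99 / 100 : ℝ) ≤ ((PtsI t' 8 X c' A4 be p.1 p.2.1 p.2.2 Z).card : ℝ)) := by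
    intro p
    by_cases h : p.1 = p.2.1
    · exact ⟨1, 1, 1, le_rfl, one_pos, fun h' => absurd h h'⟩
    · obtain ⟨t', ht', c', hc', X0, hX0⟩ := hI 4 A4 (fun _ => le_rfl) 8 (by norm_num) p.1 p.2.1 p.2.2 h
      exact ⟨t', c', X0, ht', hc', fun _ => hX0⟩
  choose t' c' X0 ht' hc' HH using H
  obtain ⟨t, ht⟩ : ∃ t, t = univ.sup t' + 1 := ⟨_, rfl⟩
  have htle : ∀ p, t' p + 1 ≤ t := by
    intro p
    have := le_sup (f := t') (mem_univ p)
    omega
  obtain ⟨c, hc⟩ : ∃ c, c = (univ.inf' univ_nonempty c') / 2 := ⟨_, rfl⟩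
  have hcle : ∀ p, c ≤ c' p / 2 := by
    intro p
    have := inf'_le c' (mem_univ p)
    rw [hc]
    linarith
  have hc0 : 0 < c := by
    have : 0 < univ.inf' univ_nonempty c' := by
      rw [lt_inf'_iff]
      intro p _
      exact hc' p
    rw [hc]
    linarith
  have G : ∀ p : Fin 4 × Fin 4 × Fin 4, ∃ N0 : ℕ, p.1 ≠ p.2.1 → p.1.val ≤ 1 → ∀ N : ℕ, N0 ≤ N → Even N →
      ∀ a b : ℤ, (a = 2 ∨ a = -2) → (b = 2 ∨ b = -2) →
      (∃ x : ℕ, ∀ l, ¬ (3 : ℤ) ∣ four N a b x l) → ∀ D D' : ℝ,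
      (p.2.2 = 0 ∧ D = c * Rk N ∧ D' = c * Real.log N ∨ p.2.2 = 2 ∧ D = c * Real.log N ∧ D' = c * Rk N) →
      ∃ Z Z' : Finset ℤ, FewT c N b Z ∧ FewT c N a Z' ∧
        (N : ℝ) ^ (98 / 100 : ℝ) ≤ ((PtsT t N a b D D' Z Z' p.1 p.2.1).card : ℝ) := by
    intro p
    by_cases h : p.1 ≠ p.2.1 ∧ p.1.val ≤ 1
    · obtain ⟨N0, hN0⟩ := core p.1 p.2.1 p.2.2 h.2 (t' p) (ht' p) (c' p) (X0 p) (hc' p) (HH p h.1) t
        (htle p) c hc0 (hcle p)
      exact ⟨N0, fun _ _ => hN0⟩
    · exact ⟨0, fun h1 h2 => absurd ⟨h1, h2⟩ h⟩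
  choose N0 hN0 using G
  refine ⟨t, by omega, c, hc0, univ.sup N0, ?_⟩
  intro N hN hev a b ha hb hx D D' hD i j hi hij
  rcases hD with ⟨h1, h2⟩ | ⟨h1, h2⟩
  · exact hN0 (i, j, 0) hij hi N ((le_sup (f := N0) (mem_univ _)).trans hN) hev a b ha hb hx D D'
      (Or.inl ⟨rfl, h1, h2⟩)
  · exact hN0 (i, j, 2) hij hi N ((le_sup (f := N0) (mem_univ _)).trans hN) hev a b ha hb hx D D'
      (Or.inr ⟨rfl, h1, h2⟩)

end Pool.Agent.Q117.LF
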